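import Mathlib

/-!
The bottom of the Airy operator `-u'' + x u` on the half line with Dirichlet boundary condition,
and solutions of the Airy equation.
-/

namespace Pool.Agent.LibMP140d1b

open MeasureTheory Set

/-- Test functions: Lipschitz, compactly supported, vanishing at `0`, not identically zero on the
half line. -/
def AiryTest (u : ℝ → ℝ) : Prop :=
  (∃ K : NNReal, LipschitzWith K u) ∧ HasCompactSupport u ∧ u 0 = 0 ∧
    0 < ∫ x in Ioi (0 : ℝ), u x ^ 2

/-- The infimum of the Rayleigh quotients of `-u'' + x u` on `(0,∞)`. -/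
noncomputable def airyBottom : ℝ :=
  sInf {E : ℝ | ∃ u : ℝ → ℝ, AiryTest u ∧
    E = (∫ x in Ioi (0 : ℝ), (deriv u x ^ 2 + x * u x ^ 2)) / ∫ x in Ioi (0 : ℝ), u x ^ 2}

/-- `A` is a solution of Airy's equation `A'' = x A` that is bounded on `[0,∞)`, and `-a` is its
largest zero; it is positive to the right of `-a`. Such an `A` is a positive multiple of the Airy
function `Ai` and `-a` is the first zero of `Ai`. -/
structure IsAiry (A : ℝ → ℝ) (a : ℝ) : Prop where
  diff : Differentiable ℝ A
  diff2 : Differentiable ℝ (deriv A)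
  ode : ∀ x, deriv (deriv A) x = x * A x
  zero : A (-a) = 0
  pos : ∀ x, -a < x → 0 < A x
  bdd : ∃ M, ∀ x, 0 ≤ x → A x ≤ M

end Pool.Agent.LibMP140d1b
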