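import Mathlib
import Pool.Agent.Lib_MP_140d1b_an.AiryDefs

/-!
The discrete Airy inequality, from piecewise linear interpolation.
-/

namespace Pool.Agent.LibMP140d1b

open MeasureTheory Set Filter Topology

lemma airyBottom_nonneg : 0 ≤ airyBottom := by
  refine Real.sInf_nonneg ?_
  rintro E ⟨u, hu, rfl⟩
  refine div_nonneg ?_ hu.2.2.2.le
  refine setIntegral_nonneg measurableSet_Ioi ?_
  intro x hx
  have hx' : (0 : ℝ) < x := hx
  positivity

/-- The variational inequality. -/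
lemma airyBottom_mul_le {u : ℝ → ℝ} (h1 : ∃ K : NNReal, LipschitzWith K u)
    (h2 : HasCompactSupport u) (h3 : u 0 = 0) :
    airyBottom * ∫ x in Ioi (0 : ℝ), u x ^ 2 ≤
      ∫ x in Ioi (0 : ℝ), (deriv u x ^ 2 + x * u x ^ 2) := by
  have hE : 0 ≤ ∫ x in Ioi (0 : ℝ), (deriv u x ^ 2 + x * u x ^ 2) := by
    refine setIntegral_nonneg measurableSet_Ioi ?_
    intro x hx
    have hx' : (0 : ℝ) < x := hx
    positivity
  have h0 : 0 ≤ ∫ x in Ioi (0 : ℝ), u x ^ 2 :=
    setIntegral_nonneg measurableSet_Ioi fun x _ => by positivity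
  rcases h0.lt_or_eq with h | h
  · rw [← le_div_iff₀ h]
    refine csInf_le ⟨0, ?_⟩ ⟨u, ⟨h1, h2, h3, h⟩, rfl⟩
    rintro E ⟨v, hv, rfl⟩
    refine div_nonneg ?_ hv.2.2.2.le
    refine setIntegral_nonneg measurableSet_Ioi ?_
    intro x hx
    have hx' : (0 : ℝ) < x := hx
    positivity
  · rw [← h, mul_zero]
    exact hE

/-- The hat function. -/
noncomputable def hat (t : ℝ) : ℝ := max (1 - |t|) 0

lemma hat_lip (a b : ℝ) : |hat a - hat b| ≤ |a - b| := by
  unfold hat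
  refine (abs_max_sub_max_le_abs (1 - |a|) (1 - |b|) 0).trans ?_
  have : 1 - |a| - (1 - |b|) = |b| - |a| := by ring
  rw [this, abs_sub_comm a b]
  exact abs_abs_sub_abs_le b a

lemma hat_zero {t : ℝ} (h : 1 ≤ |t|) : hat t = 0 := by
  unfold hat
  exact max_eq_right (by linarith)

lemma hat_of_le {t : ℝ} (h : |t| ≤ 1) : hat t = 1 - |t| := by
  unfold hat
  exact max_eq_left (by linarith)

/-- Piecewise linear interpolation of `Y` with mesh `s`. -/
noncomputable def itp (Y : ℕ → ℝ) (M : ℕ) (s x : ℝ) : ℝ :=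
  ∑ k ∈ Finset.range (M + 1), Y k * hat (x / s - k)

lemma itp_lip (Y : ℕ → ℝ) (M : ℕ) {s : ℝ} (hs : 0 < s) :
    ∃ K : NNReal, LipschitzWith K (itp Y M s) := by
  refine ⟨Real.toNNReal (∑ k ∈ Finset.range (M + 1), |Y k| / s), ?_⟩
  refine LipschitzWith.of_dist_le_mul ?_
  intro x y
  rw [Real.dist_eq, Real.dist_eq, Real.coe_toNNReal _ (by positivity), Finset.sum_mul]
  unfold itp
  rw [← Finset.sum_sub_distrib]
  refine (Finset.abs_sum_le_sum_abs _ _).trans (Finset.sum_le_sum ?_)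
  intro k _
  rw [← mul_sub, abs_mul]
  have h1 := hat_lip (x / s - k) (y / s - k)
  have h2 : x / s - k - (y / s - k) = (x - y) / s := by ring
  rw [h2, abs_div, abs_of_pos hs] at h1
  calc |Y k| * |hat (x / s - k) - hat (y / s - k)| ≤ |Y k| * (|x - y| / s) :=
        mul_le_mul_of_nonneg_left h1 (abs_nonneg _)
    _ = |Y k| / s * |x - y| := by ring

lemma itp_neg (Y : ℕ → ℝ) (M : ℕ) {s : ℝ} (hs : 0 < s) {x : ℝ} (hx : x ≤ -s) :
    itp Y M s x = 0 := by
  unfold itp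
  refine Finset.sum_eq_zero ?_
  intro k _
  have h1 : x / s ≤ -1 := by
    rw [div_le_iff₀ hs]
    linarith
  have hk : (0 : ℝ) ≤ k := Nat.cast_nonneg k
  rw [hat_zero, mul_zero]
  rw [abs_of_neg (by linarith)]
  linarith

lemma itp_large (Y : ℕ → ℝ) (M : ℕ) {s : ℝ} (hs : 0 < s) {x : ℝ} (hx : (M + 1) * s ≤ x) :
    itp Y M s x = 0 := by
  unfold itp
  refine Finset.sum_eq_zero ?_
  intro k hk
  have h1 : (M : ℝ) + 1 ≤ x / s := by
    rw [le_div_iff₀ hs]
    exact hx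
  have hk' : (k : ℝ) ≤ M := by
    have := Finset.mem_range.mp hk
    exact_mod_cast (by omega : k ≤ M)
  rw [hat_zero, mul_zero]
  rw [abs_of_pos (by linarith)]
  linarith

lemma itp_support (Y : ℕ → ℝ) (M : ℕ) {s : ℝ} (hs : 0 < s) : HasCompactSupport (itp Y M s) := by
  refine HasCompactSupport.intro (isCompact_Icc (a := -s) (b := (M + 1) * s)) ?_
  intro x hx
  rw [Set.mem_Icc, not_and_or, not_le, not_le] at hx
  rcases hx with hx | hx
  · exact itp_neg Y M hs hx.le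
  · exact itp_large Y M hs hx.le

lemma itp_cell (Y : ℕ → ℝ) (M : ℕ) (hY : ∀ k, M < k → Y k = 0) {s : ℝ} (hs : 0 < s) (n : ℕ)
    {x : ℝ} (hx1 : n * s ≤ x) (hx2 : x ≤ (n + 1) * s) :
    itp Y M s x = Y n + (Y (n + 1) - Y n) * (x / s - n) := by
  have h1 : (n : ℝ) ≤ x / s := by
    rw [le_div_iff₀ hs]
    exact hx1
  have h2 : x / s ≤ n + 1 := by
    rw [div_le_iff₀ hs]
    exact hx2
  unfold itp
  have e1 : ∑ k ∈ Finset.range (M + 1), Y k * hat (x / s - k) =
      ∑ k ∈ Finset.range (M + n + 2), Y k * hat (x / s - k) := by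
    refine Finset.sum_subset ?_ ?_
    · intro k hk
      rw [Finset.mem_range] at hk ⊢
      omega
    · intro k _ hk
      rw [Finset.mem_range, not_lt] at hk
      rw [hY k (by omega), zero_mul]
  have e2 : ∑ k ∈ ({n, n + 1} : Finset ℕ), Y k * hat (x / s - k) =
      ∑ k ∈ Finset.range (M + n + 2), Y k * hat (x / s - k) := by
    refine Finset.sum_subset ?_ ?_
    · intro k hk
      simp only [Finset.mem_insert, Finset.mem_singleton] at hk
      rw [Finset.mem_range]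
      omega
    · intro k _ hk
      simp only [Finset.mem_insert, Finset.mem_singleton, not_or] at hk
      rw [hat_zero, mul_zero]
      rcases lt_or_gt_of_ne hk.1 with h | h
      · have h3 : (k : ℝ) + 1 ≤ n := by exact_mod_cast h
        rw [abs_of_nonneg (by linarith)]
        linarith
      · have h3 : (n : ℝ) + 2 ≤ k := by
          have : n + 2 ≤ k := by omega
          exact_mod_cast this
        rw [abs_of_nonpos (by linarith)]
        linarith
  rw [e1, ← e2, Finset.sum_pair (by omega)]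
  push_cast
  rw [hat_of_le (by rw [abs_of_nonneg (by linarith)]; linarith),
    hat_of_le (by rw [abs_of_nonpos (by linarith)]; linarith), abs_of_nonneg (by linarith),
    abs_of_nonpos (by linarith)]
  ring

lemma itp_zero (Y : ℕ → ℝ) (M : ℕ) (hY : ∀ k, M < k → Y k = 0) {s : ℝ} (hs : 0 < s)
    (hY0 : Y 0 = 0) : itp Y M s 0 = 0 := by
  rw [itp_cell Y M hY hs 0 (by simp) (by simp [hs.le])]
  simp [hY0]

lemma itp_deriv (Y : ℕ → ℝ) (M : ℕ) (hY : ∀ k, M < k → Y k = 0) {s : ℝ} (hs : 0 < s) (n : ℕ)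
    {x : ℝ} (hx1 : n * s < x) (hx2 : x < (n + 1) * s) :
    deriv (itp Y M s) x = (Y (n + 1) - Y n) / s := by
  have h1 : itp Y M s =ᶠ[𝓝 x] fun x => Y n + (Y (n + 1) - Y n) * (x / s - n) := by
    filter_upwards [Ioo_mem_nhds hx1 hx2] with y hy
    exact itp_cell Y M hY hs n hy.1.le hy.2.le
  rw [h1.deriv_eq]
  have h2 : HasDerivAt (fun x : ℝ => Y n + (Y (n + 1) - Y n) * (x / s - n))
      ((Y (n + 1) - Y n) * (1 / s)) x := by
    have := (((hasDerivAt_id x).div_const s).sub_const (n : ℝ)).const_mul (Y (n + 1) - Y n)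
    exact this.const_add (Y n)
  rw [h2.deriv]
  ring

/-- Integral over a cell of a function of the local coordinate. -/
lemma cell_integral {s : ℝ} (hs : 0 < s) (n : ℕ) (f : ℝ → ℝ) :
    ∫ x in (n * s)..((n + 1) * s), f (x / s - n) = s * ∫ t in (0 : ℝ)..1, f t := by
  have h := intervalIntegral.integral_comp_div_sub (a := n * s) (b := (n + 1) * s) f hs.ne' (n : ℝ)
  rw [h, smul_eq_mul]
  have e1 : (n : ℝ) * s / s - n = 0 := by field_simp; ring
  have e2 : ((n : ℝ) + 1) * s / s - n = 1 := by field_simp; ring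
  rw [e1, e2]

lemma int_t0 (c d : ℝ) : ∫ t in (0 : ℝ)..1, (c + (d - c) * t) ^ 2 =
    (c ^ 2 + c * d + d ^ 2) / 3 := by
  have h : ∀ t ∈ Set.uIcc (0 : ℝ) 1, HasDerivAt
      (fun t => c ^ 2 * t + c * (d - c) * t ^ 2 + (d - c) ^ 2 * t ^ 3 / 3)
      ((c + (d - c) * t) ^ 2) t := by
    intro t _
    have h1 := ((hasDerivAt_id t).const_mul (c ^ 2)).add
      (((hasDerivAt_id t).pow 2).const_mul (c * (d - c)))
    have h2 := h1.add ((((hasDerivAt_id t).pow 3).const_mul ((d - c) ^ 2)).div_const 3)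
    exact h2.congr_deriv (by simp only [id, Nat.cast_ofNat]; ring)
  rw [intervalIntegral.integral_eq_sub_of_hasDerivAt h (by
    apply Continuous.intervalIntegrable; fun_prop)]
  ring

lemma int_t1 (c d n : ℝ) : ∫ t in (0 : ℝ)..1, (t + n) * (c + (d - c) * t) ^ 2 =
    n * (c ^ 2 + c * d + d ^ 2) / 3 + (c ^ 2 / 12 + c * d / 6 + d ^ 2 / 4) := by
  have h : ∀ t ∈ Set.uIcc (0 : ℝ) 1, HasDerivAt
      (fun t => n * (c ^ 2 * t + c * (d - c) * t ^ 2 + (d - c) ^ 2 * t ^ 3 / 3) +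
        (c ^ 2 * t ^ 2 / 2 + 2 * c * (d - c) * t ^ 3 / 3 + (d - c) ^ 2 * t ^ 4 / 4))
      ((t + n) * (c + (d - c) * t) ^ 2) t := by
    intro t _
    have h1 := ((hasDerivAt_id t).const_mul (c ^ 2)).add
      (((hasDerivAt_id t).pow 2).const_mul (c * (d - c)))
    have h2 := h1.add ((((hasDerivAt_id t).pow 3).const_mul ((d - c) ^ 2)).div_const 3)
    have h3 := ((((hasDerivAt_id t).pow 2).const_mul (c ^ 2)).div_const 2).add
      ((((hasDerivAt_id t).pow 3).const_mul (2 * c * (d - c))).div_const 3)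
    have h4 := h3.add ((((hasDerivAt_id t).pow 4).const_mul ((d - c) ^ 2)).div_const 4)
    exact ((h2.const_mul n).add h4).congr_deriv (by simp only [id, Nat.cast_ofNat]; ring)
  rw [intervalIntegral.integral_eq_sub_of_hasDerivAt h (by
    apply Continuous.intervalIntegrable; fun_prop)]
  ring

lemma itp_continuous (Y : ℕ → ℝ) (M : ℕ) {s : ℝ} (hs : 0 < s) : Continuous (itp Y M s) := by
  obtain ⟨K, hK⟩ := itp_lip Y M hs
  exact hK.continuous

lemma cell_sq (Y : ℕ → ℝ) (M : ℕ) (hY : ∀ k, M < k → Y k = 0) {s : ℝ} (hs : 0 < s) (n : ℕ) :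
    ∫ x in (n * s)..((n + 1) * s), itp Y M s x ^ 2 =
      s * ((Y n ^ 2 + Y n * Y (n + 1) + Y (n + 1) ^ 2) / 3) := by
  rw [← int_t0, ← cell_integral hs n]
  refine intervalIntegral.integral_congr ?_
  intro x hx
  rw [Set.uIcc_of_le (by nlinarith)] at hx
  simp only
  rw [itp_cell Y M hY hs n hx.1 hx.2]

lemma cell_x_sq (Y : ℕ → ℝ) (M : ℕ) (hY : ∀ k, M < k → Y k = 0) {s : ℝ} (hs : 0 < s) (n : ℕ) :
    ∫ x in (n * s)..((n + 1) * s), x * itp Y M s x ^ 2 =
      s ^ 2 * (n * (Y n ^ 2 + Y n * Y (n + 1) + Y (n + 1) ^ 2) / 3 +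
        (Y n ^ 2 / 12 + Y n * Y (n + 1) / 6 + Y (n + 1) ^ 2 / 4)) := by
  rw [← int_t1]
  have h := cell_integral hs n (fun t => s * ((t + n) * (Y n + (Y (n + 1) - Y n) * t) ^ 2))
  have e : s ^ 2 * ∫ t in (0 : ℝ)..1, (t + n) * (Y n + (Y (n + 1) - Y n) * t) ^ 2 =
    s * ∫ t in (0 : ℝ)..1, s * ((t + n) * (Y n + (Y (n + 1) - Y n) * t) ^ 2) := by
    rw [intervalIntegral.integral_const_mul]
    ring
  rw [e, ← h]
  refine intervalIntegral.integral_congr ?_
  intro x hx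
  rw [Set.uIcc_of_le (by nlinarith)] at hx
  simp only
  rw [itp_cell Y M hY hs n hx.1 hx.2]
  field_simp
  ring

lemma cell_deriv (Y : ℕ → ℝ) (M : ℕ) (hY : ∀ k, M < k → Y k = 0) {s : ℝ} (hs : 0 < s) (n : ℕ) :
    ∫ x in (n * s)..((n + 1) * s), deriv (itp Y M s) x ^ 2 = (Y (n + 1) - Y n) ^ 2 / s := by
  have h : ∫ x in (n * s)..((n + 1) * s), deriv (itp Y M s) x ^ 2 =
      ∫ x in (n * s)..((n + 1) * s), ((Y (n + 1) - Y n) / s) ^ 2 := by
    refine intervalIntegral.integral_congr_Ioo_of_le (by nlinarith) ?_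
    intro x hx
    simp only
    rw [itp_deriv Y M hY hs n hx.1 hx.2]
  rw [h, intervalIntegral.integral_const, smul_eq_mul]
  field_simp
  ring

/-- Splitting an integral over the half line into cells. -/
lemma split_cells (f : ℝ → ℝ) {s : ℝ} (hs : 0 < s) (N : ℕ) (hf : ∀ x, N * s < x → f x = 0)
    (hi : ∀ a b : ℝ, IntervalIntegrable f volume a b) :
    ∫ x in Ioi (0 : ℝ), f x = ∑ n ∈ Finset.range N, ∫ x in (n * s)..((n + 1) * s), f x := by
  have h1 : ∫ x in Ioi (0 : ℝ), f x = ∫ x in (0 : ℝ)..(N * s), f x := by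
    rw [intervalIntegral.integral_of_le (by positivity)]
    refine (setIntegral_eq_of_subset_of_forall_sdiff_eq_zero measurableSet_Ioi ?_ ?_)
    · intro x hx
      exact hx.1
    · intro x hx
      refine hf x ?_
      by_contra hcon
      push Not at hcon
      exact hx.2 ⟨hx.1, hcon⟩
  rw [h1]
  have h2 := intervalIntegral.sum_integral_adjacent_intervals (f := f) (μ := volume)
    (a := fun n : ℕ => (n : ℝ) * s) (n := N) (fun k _ => hi _ _)
  push_cast at h2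
  rw [zero_mul] at h2
  exact h2.symm

lemma lip_deriv_sq_integrable {u : ℝ → ℝ} (h : ∃ K : NNReal, LipschitzWith K u) (a b : ℝ) :
    IntervalIntegrable (fun x => deriv u x ^ 2) volume a b := by
  obtain ⟨K, hK⟩ := h
  have hm : Measurable (fun x => deriv u x ^ 2) := (measurable_deriv u).pow_const 2
  refine (intervalIntegrable_const (c := (K : ℝ) ^ 2)).mono_fun hm.aestronglyMeasurable ?_
  refine Eventually.of_forall ?_
  intro x
  have h1 : ‖deriv u x‖ ≤ K := norm_deriv_le_of_lipschitz hK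
  simp only [Real.norm_eq_abs] at h1 ⊢
  rw [abs_of_nonneg (sq_nonneg (deriv u x)), abs_of_nonneg (sq_nonneg (K : ℝ)), ← sq_abs]
  exact pow_le_pow_left₀ (abs_nonneg _) h1 2

/-- The discrete Airy inequality. -/
lemma discrete_airy (Y : ℕ → ℝ) (M : ℕ) (hY0 : Y 0 = 0) (hY : ∀ k, M < k → Y k = 0) {s : ℝ}
    (hs : 0 < s) :
    airyBottom * s ^ 2 * ∑ k ∈ Finset.range (M + 1), Y k ^ 2 ≤
      (1 + airyBottom * s ^ 2 / 6) * ∑ k ∈ Finset.range (M + 1), (Y (k + 1) - Y k) ^ 2 +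
        s ^ 3 * ∑ k ∈ Finset.range (M + 1), k * Y k ^ 2 := by
  have hlip := itp_lip Y M hs
  have hcont := itp_continuous Y M hs
  have hv := airyBottom_mul_le hlip (itp_support Y M hs) (itp_zero Y M hY hs hY0)
  have hlarge : ∀ x, ((M + 1 : ℕ) : ℝ) * s ≤ x → itp Y M s x = 0 := by
    intro x hx
    push_cast at hx
    exact itp_large Y M hs hx
  have hlarged : ∀ x, ((M + 1 : ℕ) : ℝ) * s < x → deriv (itp Y M s) x = 0 := by
    intro x hx
    have h1 : itp Y M s =ᶠ[𝓝 x] fun _ => 0 := by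
      filter_upwards [Ioi_mem_nhds hx] with y hy
      exact hlarge y (le_of_lt hy)
    rw [h1.deriv_eq]
    simp
  have hi2 : ∀ a b : ℝ, IntervalIntegrable (fun x => x * itp Y M s x ^ 2) volume a b :=
    fun a b => (continuous_id.mul (hcont.pow 2)).intervalIntegrable a b
  have e1 : ∫ x in Ioi (0 : ℝ), itp Y M s x ^ 2 =
      ∑ n ∈ Finset.range (M + 1), s * ((Y n ^ 2 + Y n * Y (n + 1) + Y (n + 1) ^ 2) / 3) := by
    rw [split_cells (fun x => itp Y M s x ^ 2) hs (M + 1)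
      (fun x hx => by rw [hlarge x hx.le]; ring)
      (fun a b => (hcont.pow 2).intervalIntegrable a b)]
    exact Finset.sum_congr rfl fun n _ => cell_sq Y M hY hs n
  have e2 : ∫ x in Ioi (0 : ℝ), (deriv (itp Y M s) x ^ 2 + x * itp Y M s x ^ 2) =
      ∑ n ∈ Finset.range (M + 1), ((Y (n + 1) - Y n) ^ 2 / s +
        s ^ 2 * (n * (Y n ^ 2 + Y n * Y (n + 1) + Y (n + 1) ^ 2) / 3 +
        (Y n ^ 2 / 12 + Y n * Y (n + 1) / 6 + Y (n + 1) ^ 2 / 4))) := by
    have e3 : ∫ x in Ioi (0 : ℝ), (deriv (itp Y M s) x ^ 2 + x * itp Y M s x ^ 2) =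
        ∑ n ∈ Finset.range (M + 1), ∫ x in (n * s)..((n + 1) * s),
          (deriv (itp Y M s) x ^ 2 + x * itp Y M s x ^ 2) := by
      refine split_cells (fun x => deriv (itp Y M s) x ^ 2 + x * itp Y M s x ^ 2) hs (M + 1) ?_
        (fun a b => (lip_deriv_sq_integrable hlip a b).add (hi2 a b))
      intro x hx
      rw [hlarge x hx.le, hlarged x hx]
      ring
    rw [e3]
    refine Finset.sum_congr rfl fun n _ => ?_
    rw [intervalIntegral.integral_add (lip_deriv_sq_integrable hlip _ _) (hi2 _ _),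
      cell_deriv Y M hY hs n, cell_x_sq Y M hY hs n]
  rw [e1, e2] at hv
  -- convexity and telescoping
  set D := ∑ k ∈ Finset.range (M + 1), (Y (k + 1) - Y k) ^ 2 with hD
  set B := ∑ k ∈ Finset.range (M + 1), Y k ^ 2 with hB
  set X := ∑ k ∈ Finset.range (M + 1), (k : ℝ) * Y k ^ 2 with hX
  have hYM : Y (M + 1) = 0 := hY _ (by omega)
  have t1 : ∑ k ∈ Finset.range (M + 1), Y (k + 1) ^ 2 = B := by
    have h1 := Finset.sum_range_succ' (fun k => Y k ^ 2) (M + 1)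
    have h2 := Finset.sum_range_succ (fun k => Y k ^ 2) (M + 1)
    simp only [hY0, hYM] at h1 h2
    rw [hB]
    linarith
  have t2 : ∑ k ∈ Finset.range (M + 1), ((k : ℝ) / 2 + 1 / 3) * Y (k + 1) ^ 2 =
      ∑ k ∈ Finset.range (M + 1), ((k : ℝ) / 2 - 1 / 6) * Y k ^ 2 := by
    have h1 := Finset.sum_range_succ' (fun k : ℕ => ((k : ℝ) / 2 - 1 / 6) * Y k ^ 2) (M + 1)
    have h2 := Finset.sum_range_succ (fun k : ℕ => ((k : ℝ) / 2 - 1 / 6) * Y k ^ 2) (M + 1)
    simp only [hY0, hYM] at h1 h2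
    have h3 : ∑ k ∈ Finset.range (M + 1), ((k : ℝ) / 2 + 1 / 3) * Y (k + 1) ^ 2 =
      ∑ k ∈ Finset.range (M + 1), (((k + 1 : ℕ) : ℝ) / 2 - 1 / 6) * Y (k + 1) ^ 2 := by
      refine Finset.sum_congr rfl fun k _ => ?_
      push_cast
      ring
    rw [h3]
    linarith
  have s1 : ∑ n ∈ Finset.range (M + 1), s * ((Y n ^ 2 + Y n * Y (n + 1) + Y (n + 1) ^ 2) / 3) =
      s * (B - D / 6) := by
    have h1 : ∀ n ∈ Finset.range (M + 1),
        s * ((Y n ^ 2 + Y n * Y (n + 1) + Y (n + 1) ^ 2) / 3) =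
        s * ((1 / 2) * Y n ^ 2 + (1 / 2) * Y (n + 1) ^ 2 - (1 / 6) * (Y (n + 1) - Y n) ^ 2) := by
      intro n _
      ring
    rw [Finset.sum_congr rfl h1, ← Finset.mul_sum, Finset.sum_sub_distrib, Finset.sum_add_distrib,
      ← Finset.mul_sum, ← Finset.mul_sum, ← Finset.mul_sum, t1]
    ring
  have s2 : ∑ n ∈ Finset.range (M + 1), ((Y (n + 1) - Y n) ^ 2 / s +
        s ^ 2 * (n * (Y n ^ 2 + Y n * Y (n + 1) + Y (n + 1) ^ 2) / 3 +
        (Y n ^ 2 / 12 + Y n * Y (n + 1) / 6 + Y (n + 1) ^ 2 / 4))) ≤ D / s + s ^ 2 * X := by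
    have h1 : ∀ n ∈ Finset.range (M + 1), ((Y (n + 1) - Y n) ^ 2 / s +
        s ^ 2 * (n * (Y n ^ 2 + Y n * Y (n + 1) + Y (n + 1) ^ 2) / 3 +
        (Y n ^ 2 / 12 + Y n * Y (n + 1) / 6 + Y (n + 1) ^ 2 / 4))) ≤
        (Y (n + 1) - Y n) ^ 2 * (1 / s) + s ^ 2 * (((n : ℝ) / 2 + 1 / 6) * Y n ^ 2 +
          ((n : ℝ) / 2 + 1 / 3) * Y (n + 1) ^ 2) := by
      intro n _
      have hn : (0 : ℝ) ≤ n := Nat.cast_nonneg n
      have h2 : 0 ≤ s ^ 2 * ((n / 6 + 1 / 12) * (Y (n + 1) - Y n) ^ 2) := by positivity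
      have h3 : (Y (n + 1) - Y n) ^ 2 / s = (Y (n + 1) - Y n) ^ 2 * (1 / s) := by ring
      rw [h3]
      nlinarith [h2]
    refine (Finset.sum_le_sum h1).trans (le_of_eq ?_)
    rw [Finset.sum_add_distrib, ← Finset.sum_mul, ← Finset.mul_sum, Finset.sum_add_distrib, t2,
      ← Finset.sum_add_distrib]
    have h4 : ∑ k ∈ Finset.range (M + 1), (((k : ℝ) / 2 + 1 / 6) * Y k ^ 2 +
        ((k : ℝ) / 2 - 1 / 6) * Y k ^ 2) = X := by
      rw [hX]
      refine Finset.sum_congr rfl fun k _ => ?_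
      ring
    rw [h4]
    ring
  rw [s1] at hv
  have hv2 := hv.trans s2
  have hv3 := mul_le_mul_of_nonneg_left hv2 hs.le
  have e5 : s * (D / s + s ^ 2 * X) = D + s ^ 3 * X := by
    field_simp
  rw [e5] at hv3
  linarith

end Pool.Agent.LibMP140d1b
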