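import Mathlib
import Pool.Agent.Lib_MP_140d1b_an.AsyInterp

/-!
The bottom of the Airy operator on the half line is minus the first zero of the Airy function.
-/

namespace Pool.Agent.LibMP140d1b

open MeasureTheory Set Filter Topology

/-- A shifted positive solution of Airy's equation on the half line. -/
structure AiryW (W W' : ℝ → ℝ) (a : ℝ) : Prop where
  d1 : ∀ x, HasDerivAt W (W' x) x
  d2 : ∀ x, HasDerivAt W' ((x - a) * W x) x
  zero : W 0 = 0
  pos : ∀ x, 0 < x → 0 < W x
  bdd : ∃ M, ∀ x, a ≤ x → W x ≤ M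

lemma IsAiry.toW {A : ℝ → ℝ} {a : ℝ} (h : IsAiry A a) :
    AiryW (fun x => A (x - a)) (fun x => deriv A (x - a)) a := by
  refine ⟨?_, ?_, ?_, ?_, ?_⟩
  · intro x
    exact (h.diff (x - a)).hasDerivAt.comp_sub_const x a
  · intro x
    have h1 := (h.diff2 (x - a)).hasDerivAt.comp_sub_const x a
    rw [h.ode (x - a)] at h1
    exact h1
  · simp [h.zero]
  · intro x hx
    exact h.pos _ (by linarith)
  · obtain ⟨M, hM⟩ := h.bdd
    exact ⟨M, fun x hx => hM _ (by linarith)⟩

namespace AiryW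

variable {W W' : ℝ → ℝ} {a : ℝ}

lemma cont (h : AiryW W W' a) : Continuous W :=
  continuous_iff_continuousAt.2 fun x => (h.d1 x).continuousAt

lemma cont' (h : AiryW W W' a) : Continuous W' :=
  continuous_iff_continuousAt.2 fun x => (h.d2 x).continuousAt

lemma nonneg (h : AiryW W W' a) {x : ℝ} (hx : 0 ≤ x) : 0 ≤ W x := by
  rcases hx.lt_or_eq with h1 | h1
  · exact (h.pos x h1).le
  · rw [← h1, h.zero]

lemma mvt (h : AiryW W W' a) {x y : ℝ} (hxy : x < y) :
    ∃ c ∈ Ioo x y, W' c = (W y - W x) / (y - x) :=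
  exists_hasDerivAt_eq_slope W W' hxy h.cont.continuousOn fun z _ => h.d1 z

lemma a_pos (h : AiryW W W' a) : 0 < a := by
  by_contra hcon
  push Not at hcon
  have hmono : MonotoneOn W' (Ici 0) := by
    refine monotoneOn_of_deriv_nonneg (convex_Ici 0) h.cont'.continuousOn
      (fun x _ => (h.d2 x).differentiableAt.differentiableWithinAt) ?_
    intro x hx
    rw [interior_Ici, mem_Ioi] at hx
    rw [(h.d2 x).deriv]
    have := h.pos x hx
    exact mul_nonneg (by linarith) this.le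
  obtain ⟨c, hc, hce⟩ := h.mvt (x := 0) (y := 1) one_pos
  have h1 := h.pos 1 one_pos
  rw [h.zero] at hce
  have hs : 0 < W' c := by
    rw [hce]
    simpa using h1
  obtain ⟨M, hM⟩ := h.bdd
  have hM1 := hM 1 (by linarith)
  have hM0 : 0 < M := h1.trans_le hM1
  obtain ⟨d, hd, hde⟩ := h.mvt (x := 1) (y := 1 + (M + 1) / W' c)
    (by have : 0 < (M + 1) / W' c := by positivity
        linarith)
  have h2 : W' c ≤ W' d := hmono (mem_Ici.2 hc.1.le) (mem_Ici.2 (by linarith [hd.1]))
    (by linarith [hd.1, hc.2])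
  have h3 := hM (1 + (M + 1) / W' c) (by
    have : 0 < (M + 1) / W' c := by positivity
    linarith)
  have h4 : 1 + (M + 1) / W' c - 1 = (M + 1) / W' c := by ring
  rw [h4] at hde
  rw [hde, le_div_iff₀ (by positivity), mul_div_cancel₀ _ hs.ne'] at h2
  linarith

lemma deriv_le (h : AiryW W W' a) {e : ℝ} (he : 0 < e) (hea : e ≤ a) : W' e * e ≤ W e := by
  have hanti : AntitoneOn W' (Icc 0 a) := by
    refine antitoneOn_of_deriv_nonpos (convex_Icc 0 a) h.cont'.continuousOn
      (fun x _ => (h.d2 x).differentiableAt.differentiableWithinAt) ?_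
    intro x hx
    rw [interior_Icc, mem_Ioo] at hx
    rw [(h.d2 x).deriv]
    have := h.pos x hx.1
    exact mul_nonpos_of_nonpos_of_nonneg (by linarith [hx.2]) this.le
  obtain ⟨c, hc, hce⟩ := h.mvt he
  have h1 : W' e ≤ W' c := hanti ⟨hc.1.le, by linarith [hc.2]⟩ ⟨he.le, hea⟩ hc.2.le
  rw [hce, h.zero, sub_zero, sub_zero, le_div_iff₀ he] at h1
  exact h1

/-- Jacobi's inequality away from zero. -/
lemma jacobi (h : AiryW W W' a) {u : ℝ → ℝ} {K : NNReal} (hK : LipschitzWith K u) (h0 : u 0 = 0)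
    {e R : ℝ} (he : 0 < e) (hea : e ≤ a) (heR : e ≤ R) (hR : u R = 0) :
    -((K : ℝ) ^ 2 * e) ≤ ∫ x in e..R, (deriv u x ^ 2 + (x - a) * u x ^ 2) := by
  have hWpos : ∀ x ∈ uIcc e R, 0 < W x := by
    intro x hx
    rw [uIcc_of_le heR] at hx
    exact h.pos x (by linarith [hx.1])
  have hu : AbsolutelyContinuousOnInterval u e R :=
    (hK.lipschitzOnWith (s := uIcc e R)).absolutelyContinuousOnInterval
  have huu : AbsolutelyContinuousOnInterval (fun x => u x * u x) e R := hu.fun_mul hu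
  have hgd : ∀ x ∈ uIcc e R, HasDerivAt (fun x => W' x / W x)
      (((x - a) * W x * W x - W' x * W' x) / W x ^ 2) x := by
    intro x hx
    exact (h.d2 x).div (h.d1 x) (hWpos x hx).ne'
  have hg : AbsolutelyContinuousOnInterval (fun x => W' x / W x) e R := by
    have hW1 : ContDiff ℝ 1 W := by
      rw [contDiff_one_iff_deriv]
      refine ⟨fun x => (h.d1 x).differentiableAt, ?_⟩
      have : deriv W = W' := funext fun x => (h.d1 x).deriv
      rw [this]
      exact h.cont'
    have hW2 : ContDiff ℝ 1 W' := by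
      rw [contDiff_one_iff_deriv]
      refine ⟨fun x => (h.d2 x).differentiableAt, ?_⟩
      have : deriv W' = fun x => (x - a) * W x := funext fun x => (h.d2 x).deriv
      rw [this]
      exact (continuous_id.sub continuous_const).mul h.cont
    have : ContDiffOn ℝ 1 (fun x => W' x / W x) (uIcc e R) :=
      hW2.contDiffOn.div hW1.contDiffOn fun x hx => (hWpos x hx).ne'
    exact this.absolutelyContinuousOnInterval
  have hparts := huu.integral_deriv_mul_eq_sub hg
  simp only [hR, mul_zero, zero_mul, zero_sub] at hparts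
  have hint1 : IntervalIntegrable
      (fun x => deriv (fun x => u x * u x) x * (W' x / W x) +
        u x * u x * deriv (fun x => W' x / W x) x) volume e R :=
    (huu.intervalIntegrable_deriv.mul_continuousOn hg.continuousOn).add
      (hg.intervalIntegrable_deriv.continuousOn_mul huu.continuousOn)
  have hint2 : IntervalIntegrable (fun x => deriv u x ^ 2 + (x - a) * u x ^ 2) volume e R := by
    refine (lip_deriv_sq_integrable ⟨K, hK⟩ e R).add ?_
    refine Continuous.intervalIntegrable ?_ _ _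
    have := hK.continuous
    fun_prop
  have hmono : ∫ x in e..R, (deriv (fun x => u x * u x) x * (W' x / W x) +
        u x * u x * deriv (fun x => W' x / W x) x) ≤
      ∫ x in e..R, (deriv u x ^ 2 + (x - a) * u x ^ 2) := by
    refine intervalIntegral.integral_mono_ae_restrict heR hint1 hint2 ?_
    rw [Filter.EventuallyLE, ae_restrict_iff' measurableSet_Icc]
    filter_upwards [hK.ae_differentiableAt_real] with x hx1 hx2
    rw [← uIcc_of_le heR] at hx2
    have hW := hWpos x hx2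
    have d1 : deriv (fun x => u x * u x) x = deriv u x * u x + u x * deriv u x :=
      (hx1.hasDerivAt.mul hx1.hasDerivAt).deriv
    rw [d1, (hgd x hx2).deriv]
    have e1 : ((x - a) * W x * W x - W' x * W' x) / W x ^ 2 = (x - a) - (W' x / W x) ^ 2 := by
      field_simp
    rw [e1]
    nlinarith [sq_nonneg (deriv u x - u x * (W' x / W x))]
  rw [hparts] at hmono
  refine le_trans ?_ hmono
  have hWe := h.pos e he
  have h1 := h.deriv_le he hea
  have h2 : W' e / W e ≤ 1 / e := by
    rw [div_le_div_iff₀ hWe he]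
    linarith
  have h3 : u e * u e ≤ (K : ℝ) ^ 2 * e ^ 2 := by
    have h4 := hK.dist_le_mul e 0
    rw [Real.dist_eq, Real.dist_eq, h0, sub_zero, sub_zero, abs_of_pos he] at h4
    have h5 := pow_le_pow_left₀ (abs_nonneg _) h4 2
    rw [sq_abs] at h5
    nlinarith
  have h4 : u e * u e * (W' e / W e) ≤ (K : ℝ) ^ 2 * e := by
    calc u e * u e * (W' e / W e) ≤ u e * u e * (1 / e) :=
          mul_le_mul_of_nonneg_left h2 (mul_self_nonneg _)
      _ ≤ (K : ℝ) ^ 2 * e ^ 2 * (1 / e) := mul_le_mul_of_nonneg_right h3 (by positivity)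
      _ = (K : ℝ) ^ 2 * e := by field_simp
  linarith

lemma exists_R {u : ℝ → ℝ} (h : HasCompactSupport u) : ∃ R, 0 < R ∧ ∀ x, R ≤ x → u x = 0 := by
  obtain ⟨r, hr⟩ := h.isCompact.isBounded.subset_closedBall (0 : ℝ)
  refine ⟨|r| + 1, by positivity, ?_⟩
  intro x hx
  by_contra hcon
  have h1 := hr (subset_tsupport u hcon)
  rw [mem_closedBall_zero_iff, Real.norm_eq_abs] at h1
  have h2 := le_abs_self x
  have h3 := le_abs_self r
  linarith

lemma ioi_eq (f : ℝ → ℝ) {R : ℝ} (hR : 0 ≤ R) (hf : ∀ x, R < x → f x = 0) :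
    ∫ x in Ioi (0 : ℝ), f x = ∫ x in (0 : ℝ)..R, f x := by
  rw [intervalIntegral.integral_of_le hR]
  refine (setIntegral_eq_of_subset_of_forall_sdiff_eq_zero measurableSet_Ioi ?_ ?_)
  · intro x hx
    exact hx.1
  · intro x hx
    refine hf x ?_
    by_contra hcon
    push Not at hcon
    exact hx.2 ⟨hx.1, hcon⟩

lemma deriv_zero_right {u : ℝ → ℝ} {R : ℝ} (hu : ∀ x, R ≤ x → u x = 0) {x : ℝ} (hx : R < x) :
    deriv u x = 0 := by
  have h1 : u =ᶠ[𝓝 x] fun _ => 0 := by
    filter_upwards [Ioi_mem_nhds hx] with y hy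
    exact hu y (le_of_lt hy)
  rw [h1.deriv_eq]
  simp

/-- The lower bound. -/
lemma lower (h : AiryW W W' a) {u : ℝ → ℝ} (hu : AiryTest u) :
    a * ∫ x in Ioi (0 : ℝ), u x ^ 2 ≤ ∫ x in Ioi (0 : ℝ), (deriv u x ^ 2 + x * u x ^ 2) := by
  obtain ⟨⟨K, hK⟩, hc, h0, -⟩ := hu
  obtain ⟨R, hR, hRu⟩ := exists_R hc
  have ha := h.a_pos
  have hcont := hK.continuous
  have e1 : ∫ x in Ioi (0 : ℝ), u x ^ 2 = ∫ x in (0 : ℝ)..R, u x ^ 2 :=
    ioi_eq _ hR.le fun x hx => by rw [hRu x hx.le]; ring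
  have e2 : ∫ x in Ioi (0 : ℝ), (deriv u x ^ 2 + x * u x ^ 2) =
      ∫ x in (0 : ℝ)..R, (deriv u x ^ 2 + x * u x ^ 2) :=
    ioi_eq _ hR.le fun x hx => by rw [hRu x hx.le, deriv_zero_right hRu hx]; ring
  have hi : ∀ p q : ℝ, IntervalIntegrable (fun x => deriv u x ^ 2 + (x - a) * u x ^ 2)
      volume p q := by
    intro p q
    refine (lip_deriv_sq_integrable ⟨K, hK⟩ p q).add ?_
    refine Continuous.intervalIntegrable ?_ _ _
    fun_prop
  have e3 : ∫ x in (0 : ℝ)..R, (deriv u x ^ 2 + x * u x ^ 2) =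
      (∫ x in (0 : ℝ)..R, (deriv u x ^ 2 + (x - a) * u x ^ 2)) +
        a * ∫ x in (0 : ℝ)..R, u x ^ 2 := by
    rw [← intervalIntegral.integral_const_mul, ← intervalIntegral.integral_add (hi 0 R)
      (Continuous.intervalIntegrable (by fun_prop) _ _)]
    refine intervalIntegral.integral_congr ?_
    intro x _
    simp only
    ring
  rw [e1, e2, e3]
  suffices hs : 0 ≤ ∫ x in (0 : ℝ)..R, (deriv u x ^ 2 + (x - a) * u x ^ 2) by linarith
  have key : ∀ e : ℝ, 0 < e → e ≤ a → e ≤ R →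
      -((K : ℝ) ^ 2 * e) - a * ((K : ℝ) ^ 2 * e ^ 2) * e ≤
        ∫ x in (0 : ℝ)..R, (deriv u x ^ 2 + (x - a) * u x ^ 2) := by
    intro e he hea heR
    have h1 := h.jacobi hK h0 he hea heR (hRu R le_rfl)
    have h2 : -(a * ((K : ℝ) ^ 2 * e ^ 2) * e) ≤
        ∫ x in (0 : ℝ)..e, (deriv u x ^ 2 + (x - a) * u x ^ 2) := by
      have h3 : -(a * ((K : ℝ) ^ 2 * e ^ 2) * e) =
          ∫ _ in (0 : ℝ)..e, -(a * ((K : ℝ) ^ 2 * e ^ 2)) := by
        rw [intervalIntegral.integral_const, smul_eq_mul]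
        ring
      rw [h3]
      refine intervalIntegral.integral_mono_on he.le (by simp) (hi 0 e) ?_
      intro x hx
      have h4 := hK.dist_le_mul x 0
      rw [Real.dist_eq, Real.dist_eq, h0, sub_zero, sub_zero, abs_of_nonneg hx.1] at h4
      have h5 : |u x| ≤ K * e := h4.trans (mul_le_mul_of_nonneg_left hx.2 K.2)
      have h6 := pow_le_pow_left₀ (abs_nonneg _) h5 2
      rw [sq_abs] at h6
      have h7 : a * u x ^ 2 ≤ a * (K * e) ^ 2 := mul_le_mul_of_nonneg_left h6 ha.le
      have h8 : 0 ≤ x * u x ^ 2 := mul_nonneg hx.1 (sq_nonneg _)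
      nlinarith [sq_nonneg (deriv u x)]
    rw [← intervalIntegral.integral_add_adjacent_intervals (hi 0 e) (hi e R)]
    linarith
  have htend : Tendsto (fun e : ℝ => -((K : ℝ) ^ 2 * e) - a * ((K : ℝ) ^ 2 * e ^ 2) * e)
      (𝓝[>] 0) (𝓝 0) := by
    have : Continuous fun e : ℝ => -((K : ℝ) ^ 2 * e) - a * ((K : ℝ) ^ 2 * e ^ 2) * e := by
      fun_prop
    have h1 := this.tendsto 0
    simp only [mul_zero, neg_zero, sub_zero] at h1
    exact h1.mono_left nhdsWithin_le_nhds
  refine le_of_tendsto htend ?_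
  filter_upwards [self_mem_nhdsWithin, nhdsWithin_le_nhds (Iio_mem_nhds ha),
    nhdsWithin_le_nhds (Iio_mem_nhds hR)] with e he1 he2 he3
  exact key e he1 (le_of_lt he2) (le_of_lt he3)

/-- The cut-off test functions. -/
noncomputable def test (W : ℝ → ℝ) (X x : ℝ) : ℝ :=
  W (max 0 (min x (2 * X))) * max 0 (min 1 (2 - x / X))

lemma test_right (W : ℝ → ℝ) {X x : ℝ} (hX : 0 < X) (hx : 2 * X ≤ x) : test W X x = 0 := by
  unfold test
  have h1 : 2 ≤ x / X := by
    rw [le_div_iff₀ hX]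
    exact hx
  rw [max_eq_left (a := (0 : ℝ)) (b := min 1 (2 - x / X)), mul_zero]
  exact (min_le_right _ _).trans (by linarith)

lemma test_left {W : ℝ → ℝ} (h0 : W 0 = 0) {X x : ℝ} (hx : x ≤ 0) : test W X x = 0 := by
  unfold test
  rw [max_eq_left (a := (0 : ℝ)) (b := min x (2 * X)), h0, zero_mul]
  exact (min_le_left _ _).trans hx

lemma test_one {W : ℝ → ℝ} {X x : ℝ} (hX : 0 < X) (hx0 : 0 ≤ x) (hx : x ≤ X) :
    test W X x = W x := by
  unfold test
  have h1 : x / X ≤ 1 := by
    rw [div_le_iff₀ hX]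
    linarith
  rw [min_eq_left (by linarith : x ≤ 2 * X), max_eq_right hx0, min_eq_left (by linarith),
    max_eq_right zero_le_one, mul_one]

lemma test_two {W : ℝ → ℝ} {X x : ℝ} (hX : 0 < X) (hx0 : X ≤ x) (hx : x ≤ 2 * X) :
    test W X x = W x * (2 - x / X) := by
  unfold test
  have h1 : x / X ≤ 2 := by
    rw [div_le_iff₀ hX]
    linarith
  have h2 : 1 ≤ x / X := by
    rw [le_div_iff₀ hX]
    linarith
  rw [min_eq_left hx, max_eq_right (by linarith), min_eq_right (by linarith),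
    max_eq_right (by linarith)]

lemma test_lip (h : AiryW W W' a) {X : ℝ} (hX : 0 < X) :
    ∃ K : NNReal, LipschitzWith K (test W X) := by
  obtain ⟨C, hC⟩ := (isCompact_Icc (a := (0 : ℝ)) (b := 2 * X)).exists_bound_of_continuousOn
    h.cont'.continuousOn
  obtain ⟨D, hD⟩ := (isCompact_Icc (a := (0 : ℝ)) (b := 2 * X)).exists_bound_of_continuousOn
    h.cont.continuousOn
  have hC0 : 0 ≤ C := (norm_nonneg _).trans (hC 0 ⟨le_rfl, by linarith⟩)
  have hD0 : 0 ≤ D := (norm_nonneg _).trans (hD 0 ⟨le_rfl, by linarith⟩)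
  have hp : ∀ x : ℝ, max 0 (min x (2 * X)) ∈ Icc 0 (2 * X) := fun x =>
    ⟨le_max_left _ _, max_le (by linarith) (min_le_right _ _)⟩
  have hp1 : ∀ x y : ℝ, |max 0 (min x (2 * X)) - max 0 (min y (2 * X))| ≤ |x - y| := by
    intro x y
    have h1 := abs_max_sub_max_le_abs (min x (2 * X)) (min y (2 * X)) 0
    rw [max_comm _ (0 : ℝ), max_comm _ (0 : ℝ)] at h1
    have h2 := abs_min_sub_min_le_max x (2 * X) y (2 * X)
    rw [sub_self, abs_zero, max_eq_left (abs_nonneg _)] at h2
    exact h1.trans h2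
  have hc1 : ∀ x y : ℝ, |max 0 (min 1 (2 - x / X)) - max 0 (min 1 (2 - y / X))| ≤ |x - y| / X := by
    intro x y
    have h1 := abs_max_sub_max_le_abs (min 1 (2 - x / X)) (min 1 (2 - y / X)) 0
    rw [max_comm _ (0 : ℝ), max_comm _ (0 : ℝ)] at h1
    have h2 := abs_min_sub_min_le_max 1 (2 - x / X) 1 (2 - y / X)
    rw [sub_self, abs_zero, max_eq_right (abs_nonneg _)] at h2
    refine h1.trans (h2.trans (le_of_eq ?_))
    have h3 : 2 - x / X - (2 - y / X) = -((x - y) / X) := by ring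
    rw [h3, abs_neg, abs_div, abs_of_pos hX]
  have hc2 : ∀ x : ℝ, |max 0 (min 1 (2 - x / X))| ≤ 1 := by
    intro x
    rw [abs_of_nonneg (le_max_left _ _)]
    exact max_le zero_le_one (min_le_left _ _)
  refine ⟨Real.toNNReal (D / X + C), LipschitzWith.of_dist_le_mul ?_⟩
  intro x y
  rw [Real.dist_eq, Real.dist_eq, Real.coe_toNNReal _ (by positivity)]
  unfold test
  set px := max 0 (min x (2 * X))
  set py := max 0 (min y (2 * X))
  set cx := max 0 (min 1 (2 - x / X))
  set cy := max 0 (min 1 (2 - y / X))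
  have h1 : |W px - W py| ≤ C * |x - y| := by
    have h2 := (convex_Icc (0 : ℝ) (2 * X)).norm_image_sub_le_of_norm_hasDerivWithin_le
      (f := W) (f' := W') (C := C) (fun z _ => (h.d1 z).hasDerivWithinAt) hC (hp y) (hp x)
    rw [Real.norm_eq_abs, Real.norm_eq_abs] at h2
    exact h2.trans (mul_le_mul_of_nonneg_left (hp1 x y) hC0)
  have h2 : |W px| ≤ D := hD px (hp x)
  have h3 : W px * cx - W py * cy = W px * (cx - cy) + (W px - W py) * cy := by ring
  rw [h3]
  refine (abs_add_le _ _).trans ?_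
  rw [abs_mul, abs_mul]
  have h4 : |W px| * |cx - cy| ≤ D * (|x - y| / X) :=
    mul_le_mul h2 (hc1 x y) (abs_nonneg _) hD0
  have h5 : |W px - W py| * |cy| ≤ C * |x - y| * 1 :=
    mul_le_mul h1 (hc2 y) (abs_nonneg _) (by positivity)
  have h6 : (D / X + C) * |x - y| = D * (|x - y| / X) + C * |x - y| * 1 := by ring
  rw [h6]
  exact add_le_add h4 h5

lemma test_support {W : ℝ → ℝ} (h0 : W 0 = 0) {X : ℝ} (hX : 0 < X) :
    HasCompactSupport (test W X) := by
  refine HasCompactSupport.intro (isCompact_Icc (a := (0 : ℝ)) (b := 2 * X)) ?_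
  intro x hx
  rw [Set.mem_Icc, not_and_or, not_le, not_le] at hx
  rcases hx with hx | hx
  · exact test_left h0 hx.le
  · exact test_right W hX hx.le

lemma test_deriv_one (h : AiryW W W' a) {X x : ℝ} (hX : 0 < X) (hx0 : 0 < x) (hx : x < X) :
    deriv (test W X) x = W' x := by
  have h1 : test W X =ᶠ[𝓝 x] W := by
    filter_upwards [Ioo_mem_nhds hx0 hx] with y hy
    exact test_one hX hy.1.le hy.2.le
  rw [h1.deriv_eq, (h.d1 x).deriv]

lemma cut_deriv {X x : ℝ} : HasDerivAt (fun x : ℝ => 2 - x / X) (-(1 / X)) x := by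
  have h1 := ((hasDerivAt_id x).div_const X).const_sub 2
  exact h1

lemma test_deriv_two (h : AiryW W W' a) {X x : ℝ} (hX : 0 < X) (hx0 : X < x) (hx : x < 2 * X) :
    deriv (test W X) x = W' x * (2 - x / X) + W x * (-(1 / X)) := by
  have h1 : test W X =ᶠ[𝓝 x] fun x => W x * (2 - x / X) := by
    filter_upwards [Ioo_mem_nhds hx0 hx] with y hy
    exact test_two hX hy.1.le hy.2.le
  rw [h1.deriv_eq]
  exact ((h.d1 x).mul cut_deriv).deriv

/-- The first part of the energy. -/
lemma energy_one (h : AiryW W W' a) {X : ℝ} (hX : 0 < X) :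
    ∫ x in (0 : ℝ)..X, (deriv (test W X) x ^ 2 + (x - a) * test W X x ^ 2) = W X * W' X := by
  have e1 : ∫ x in (0 : ℝ)..X, (deriv (test W X) x ^ 2 + (x - a) * test W X x ^ 2) =
      ∫ x in (0 : ℝ)..X, (W' x * W' x + W x * ((x - a) * W x)) := by
    refine intervalIntegral.integral_congr_Ioo_of_le hX.le ?_
    intro x hx
    simp only
    rw [test_deriv_one h hX hx.1 hx.2, test_one hX hx.1.le hx.2.le]
    ring
  rw [e1, intervalIntegral.integral_eq_sub_of_hasDerivAt (f := fun x => W x * W' x)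
    (fun x _ => (h.d1 x).mul (h.d2 x)) ?_, h.zero, zero_mul, sub_zero]
  refine Continuous.intervalIntegrable ?_ _ _
  have := h.cont
  have := h.cont'
  fun_prop

/-- The second part of the energy. -/
lemma energy_two (h : AiryW W W' a) {X : ℝ} (hX : 0 < X) {M : ℝ}
    (hM : ∀ x, X ≤ x → W x ≤ M) :
    ∫ x in X..(2 * X), (deriv (test W X) x ^ 2 + (x - a) * test W X x ^ 2) ≤
      M ^ 2 / X - W X * W' X := by
  have hc := h.cont
  have hc' := h.cont'
  have e1 : ∫ x in X..(2 * X), (deriv (test W X) x ^ 2 + (x - a) * test W X x ^ 2) =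
      ∫ x in X..(2 * X), (((W' x * W' x + W x * ((x - a) * W x)) * (2 - x / X) ^ 2 +
        W x * W' x * (((2 : ℕ) : ℝ) * (2 - x / X) ^ (2 - 1) * (-(1 / X)))) +
          W x ^ 2 / X ^ 2) := by
    refine intervalIntegral.integral_congr_Ioo_of_le (by linarith) ?_
    intro x hx
    simp only
    rw [test_deriv_two h hX hx.1 hx.2, test_two hX hx.1.le hx.2.le]
    push_cast
    field_simp
    ring
  rw [e1, intervalIntegral.integral_add (Continuous.intervalIntegrable (by fun_prop) _ _)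
    (Continuous.intervalIntegrable (by fun_prop) _ _),
    intervalIntegral.integral_eq_sub_of_hasDerivAt
      (f := fun x => W x * W' x * (2 - x / X) ^ 2)
      (fun x _ => ((h.d1 x).mul (h.d2 x)).mul (cut_deriv.pow 2))
      (Continuous.intervalIntegrable (by fun_prop) _ _)]
  have h1 : ∫ x in X..(2 * X), W x ^ 2 / X ^ 2 ≤ ∫ _ in X..(2 * X), M ^ 2 / X ^ 2 := by
    refine intervalIntegral.integral_mono_on (by linarith)
      (Continuous.intervalIntegrable (by fun_prop) _ _) (by simp) ?_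
    intro x hx
    have h2 := h.pos x (by linarith [hx.1])
    have h3 := hM x hx.1
    gcongr
  rw [intervalIntegral.integral_const, smul_eq_mul] at h1
  have h2 : (2 * X - X) * (M ^ 2 / X ^ 2) = M ^ 2 / X := by
    field_simp
    ring
  rw [h2] at h1
  have h3 : 2 * X / X = 2 := by field_simp
  have h4 : X / X = 1 := by field_simp
  rw [h3, h4]
  have h5 : W (2 * X) * W' (2 * X) * (2 - 2 : ℝ) ^ 2 - W X * W' X * (2 - 1 : ℝ) ^ 2 =
      -(W X * W' X) := by ring
  rw [h5]
  linarith

/-- The energy of the cut-off test function. -/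
lemma energy (h : AiryW W W' a) {X : ℝ} (hX : 0 < X) {M : ℝ} (hM : ∀ x, X ≤ x → W x ≤ M) :
    ∫ x in Ioi (0 : ℝ), (deriv (test W X) x ^ 2 + x * test W X x ^ 2) ≤
      M ^ 2 / X + a * ∫ x in Ioi (0 : ℝ), test W X x ^ 2 := by
  obtain ⟨K, hK⟩ := test_lip h hX
  have hcont := hK.continuous
  have hX2 : 0 ≤ 2 * X := by positivity
  have hr : ∀ x, 2 * X ≤ x → test W X x = 0 := fun x hx => test_right W hX hx
  have e1 : ∫ x in Ioi (0 : ℝ), test W X x ^ 2 = ∫ x in (0 : ℝ)..(2 * X), test W X x ^ 2 :=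
    ioi_eq _ hX2 fun x hx => by rw [hr x hx.le]; ring
  have e2 : ∫ x in Ioi (0 : ℝ), (deriv (test W X) x ^ 2 + x * test W X x ^ 2) =
      ∫ x in (0 : ℝ)..(2 * X), (deriv (test W X) x ^ 2 + x * test W X x ^ 2) :=
    ioi_eq _ hX2 fun x hx => by rw [hr x hx.le, deriv_zero_right hr hx]; ring
  have hi : ∀ p q : ℝ, IntervalIntegrable
      (fun x => deriv (test W X) x ^ 2 + (x - a) * test W X x ^ 2) volume p q := by
    intro p q
    refine (lip_deriv_sq_integrable ⟨K, hK⟩ p q).add ?_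
    refine Continuous.intervalIntegrable ?_ _ _
    fun_prop
  have e3 : ∫ x in (0 : ℝ)..(2 * X), (deriv (test W X) x ^ 2 + x * test W X x ^ 2) =
      (∫ x in (0 : ℝ)..(2 * X), (deriv (test W X) x ^ 2 + (x - a) * test W X x ^ 2)) +
        a * ∫ x in (0 : ℝ)..(2 * X), test W X x ^ 2 := by
    rw [← intervalIntegral.integral_const_mul, ← intervalIntegral.integral_add (hi _ _)
      (Continuous.intervalIntegrable (by fun_prop) _ _)]
    refine intervalIntegral.integral_congr ?_
    intro x _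
    simp only
    ring
  rw [e1, e2, e3, ← intervalIntegral.integral_add_adjacent_intervals (hi 0 X) (hi X (2 * X)),
    energy_one h hX]
  have := energy_two h hX hM
  linarith

lemma mass (h : AiryW W W' a) {X : ℝ} (hX : 1 ≤ X) :
    ∫ x in (0 : ℝ)..1, W x ^ 2 ≤ ∫ x in Ioi (0 : ℝ), test W X x ^ 2 := by
  have hX0 : 0 < X := by linarith
  obtain ⟨K, hK⟩ := test_lip h hX0
  have hcont := hK.continuous
  have e1 : ∫ x in Ioi (0 : ℝ), test W X x ^ 2 = ∫ x in (0 : ℝ)..(2 * X), test W X x ^ 2 :=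
    ioi_eq _ (by positivity) fun x hx => by rw [test_right W hX0 hx.le]; ring
  have e2 : ∫ x in (0 : ℝ)..1, test W X x ^ 2 = ∫ x in (0 : ℝ)..1, W x ^ 2 := by
    refine intervalIntegral.integral_congr ?_
    intro x hx
    rw [uIcc_of_le zero_le_one] at hx
    simp only
    rw [test_one hX0 hx.1 (hx.2.trans hX)]
  have e3 : (∫ x in (0 : ℝ)..1, test W X x ^ 2) + (∫ x in (1 : ℝ)..(2 * X), test W X x ^ 2) =
      ∫ x in (0 : ℝ)..(2 * X), test W X x ^ 2 :=
    intervalIntegral.integral_add_adjacent_intervals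
      (Continuous.intervalIntegrable (by fun_prop) _ _)
      (Continuous.intervalIntegrable (by fun_prop) _ _)
  rw [e1, ← e3, e2]
  have h1 : 0 ≤ ∫ x in (1 : ℝ)..(2 * X), test W X x ^ 2 :=
    intervalIntegral.integral_nonneg (by linarith) fun x _ => sq_nonneg _
  linarith

lemma mass_pos (h : AiryW W W' a) : 0 < ∫ x in (0 : ℝ)..1, W x ^ 2 := by
  have hc := h.cont
  refine intervalIntegral.intervalIntegral_pos_of_pos_on
    (Continuous.intervalIntegrable (by fun_prop) _ _) ?_ one_pos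
  intro x hx
  have := h.pos x hx.1
  positivity

lemma test_airyTest (h : AiryW W W' a) {X : ℝ} (hX : 1 ≤ X) : AiryTest (test W X) :=
  ⟨test_lip h (by linarith), test_support h.zero (by linarith), test_left h.zero le_rfl,
    (mass_pos h).trans_le (mass h hX)⟩

theorem bottom_eq (h : AiryW W W' a) : airyBottom = a := by
  refine le_antisymm ?_ ?_
  · by_contra hcon
    push Not at hcon
    obtain ⟨M, hM⟩ := h.bdd
    have hc0 := mass_pos h
    set c0 := ∫ x in (0 : ℝ)..1, W x ^ 2 with hc0d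
    have hpos : 0 < (airyBottom - a) * c0 := mul_pos (by linarith) hc0
    set X := 1 + |a| + (M ^ 2 + 1) / ((airyBottom - a) * c0) with hXd
    have hq : 0 < (M ^ 2 + 1) / ((airyBottom - a) * c0) := by positivity
    have ha := h.a_pos
    rw [abs_of_pos ha] at hXd
    have hX1 : 1 ≤ X := by rw [hXd]; linarith
    have hX0 : 0 < X := by linarith
    have hXa : a ≤ X := by rw [hXd]; linarith
    have h1 := h.energy hX0 (M := M) (fun x hx => hM x (hXa.trans hx))
    have h2 := airyBottom_mul_le (test_lip h hX0) (test_support h.zero hX0)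
      (test_left h.zero le_rfl)
    have h3 := h.mass hX1
    have h4 : (airyBottom - a) * c0 ≤ M ^ 2 / X := by
      have h5 : (airyBottom - a) * c0 ≤
          (airyBottom - a) * ∫ x in Ioi (0 : ℝ), test W X x ^ 2 :=
        mul_le_mul_of_nonneg_left h3 (by linarith)
      linarith
    rw [le_div_iff₀ hX0] at h4
    have h5 : (airyBottom - a) * c0 * X = (airyBottom - a) * c0 * (1 + a) + (M ^ 2 + 1) := by
      rw [hXd]
      field_simp
    rw [h5] at h4
    have h6 : 0 < (airyBottom - a) * c0 * (1 + a) := by positivity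
    linarith
  · refine le_csInf ⟨_, test W 1, h.test_airyTest le_rfl, rfl⟩ ?_
    rintro E ⟨u, hu, rfl⟩
    rw [le_div_iff₀ hu.2.2.2]
    exact h.lower hu

end AiryW

/-- The bottom of the Airy operator on the half line is minus the first zero of the Airy
function. -/
theorem airyBottom_eq {A : ℝ → ℝ} {a : ℝ} (h : IsAiry A a) : airyBottom = a :=
  h.toW.bottom_eq

end Pool.Agent.LibMP140d1b
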