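import Mathlib
import Pool.Agent.Lib_MP_140d1b_an.AiryDefs

/-!
Existence of the decaying solution of Airy's equation and of its largest zero.

`A x = Re (c ∫_0^∞ exp (-t^3/3 + x ω t) dt)` with `ω = exp (2πi/3)`, `c = exp (πi/6)`.
-/

namespace Pool.Agent.LibMP140d1b

open MeasureTheory Set Filter Topology

namespace AiryEx

noncomputable def om : ℂ := ⟨-1 / 2, Real.sqrt 3 / 2⟩

noncomputable def cc : ℂ := ⟨Real.sqrt 3 / 2, 1 / 2⟩

lemma sq3 : Real.sqrt 3 * Real.sqrt 3 = 3 := Real.mul_self_sqrt (by norm_num)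

lemma om_sq : om * om = ⟨-1 / 2, -(Real.sqrt 3 / 2)⟩ := by
  apply Complex.ext
  · simp only [om, Complex.mul_re]
    nlinarith [sq3]
  · simp only [om, Complex.mul_im]
    ring

lemma cc_om2 : cc * (om * om) = -Complex.I := by
  rw [om_sq]
  apply Complex.ext
  · simp only [cc, Complex.mul_re, Complex.neg_re, Complex.I_re]
    ring
  · simp only [cc, Complex.mul_im, Complex.neg_im, Complex.I_im]
    nlinarith [sq3]

lemma om3 : om * om * om = 1 := by
  rw [om_sq]
  apply Complex.ext
  · simp only [om, Complex.mul_re, Complex.one_re]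
    nlinarith [sq3]
  · simp only [om, Complex.mul_im, Complex.one_im]
    ring

noncomputable def ph (x t : ℝ) : ℂ := Complex.exp (-(t : ℂ) ^ 3 / 3 + x * om * t)

lemma ph_cont (x : ℝ) : Continuous (ph x) := by
  unfold ph
  fun_prop

lemma norm_ph (x t : ℝ) : ‖ph x t‖ = Real.exp (-t ^ 3 / 3 - x * t / 2) := by
  unfold ph
  rw [Complex.norm_exp]
  congr 1
  have h1 : (-(t : ℂ) ^ 3 / 3 + x * om * t) = ((-t ^ 3 / 3 : ℝ) : ℂ) + ((x * t : ℝ) : ℂ) * om := by
    push_cast
    ring
  rw [h1]
  simp only [Complex.add_re, Complex.ofReal_re, Complex.re_ofReal_mul, om]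
  ring

lemma cubic_bound {B t : ℝ} (hB : 0 ≤ B) (ht : 0 ≤ t) : -t ^ 3 / 3 + B * t ≤ B * (3 * B + 1) := by
  by_cases h : 3 * B ≤ t ^ 2
  · have h1 : B * t ≤ t ^ 3 / 3 := by nlinarith
    have h2 : 0 ≤ B * (3 * B + 1) := by positivity
    linarith
  · push Not at h
    have h1 : t ≤ 3 * B + 1 := by nlinarith
    have h2 : B * t ≤ B * (3 * B + 1) := mul_le_mul_of_nonneg_left h1 hB
    have h3 : 0 ≤ t ^ 3 := by positivity
    linarith

lemma term_bound (k : ℕ) {B x t : ℝ} (hB : |x| + 2 ≤ B) (ht : 0 ≤ t) :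
    ‖(t : ℂ) ^ k * ph x t‖ ≤ (k.factorial : ℝ) * Real.exp (B * (3 * B + 1)) * Real.exp (-t) := by
  have hB0 : 0 ≤ B := by linarith [abs_nonneg x]
  rw [norm_mul, norm_pow, Complex.norm_real, Real.norm_of_nonneg ht, norm_ph]
  have h1 : t ^ k ≤ (k.factorial : ℝ) * Real.exp t := by
    have h2 := Real.pow_div_factorial_le_exp t ht k
    have h3 : (0 : ℝ) < k.factorial := by exact_mod_cast k.factorial_pos
    rw [div_le_iff₀ h3] at h2
    linarith
  have h4 : Real.exp (-t ^ 3 / 3 - x * t / 2) ≤ Real.exp (B * (3 * B + 1) + -(2 * t)) := by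
    apply Real.exp_le_exp.2
    have h5 := cubic_bound hB0 ht
    have h6 : -(x * t / 2) ≤ |x| * t := by
      have h7 : -x ≤ |x| := neg_le_abs x
      have h8 : 0 ≤ |x| := abs_nonneg x
      nlinarith
    have h9 : (|x| + 2) * t ≤ B * t := mul_le_mul_of_nonneg_right hB ht
    nlinarith
  calc t ^ k * Real.exp (-t ^ 3 / 3 - x * t / 2)
      ≤ ((k.factorial : ℝ) * Real.exp t) * Real.exp (B * (3 * B + 1) + -(2 * t)) := by
        apply mul_le_mul h1 h4 (Real.exp_pos _).le
        positivity
    _ = (k.factorial : ℝ) * Real.exp (B * (3 * B + 1)) * Real.exp (-t) := by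
        have : Real.exp (-t) = Real.exp t * Real.exp (-(2 * t)) := by
          rw [← Real.exp_add]
          congr 1
          ring
        rw [Real.exp_add, this]
        ring

noncomputable def FF (k : ℕ) (x : ℝ) : ℂ := ∫ t in Ioi (0 : ℝ), (t : ℂ) ^ k * ph x t

lemma bound_int (C : ℝ) : IntegrableOn (fun t : ℝ => C * Real.exp (-t)) (Ioi 0) := by
  have h := (integrableOn_exp_neg_Ioi 0).const_mul C
  exact h

lemma term_int (k : ℕ) (x : ℝ) : IntegrableOn (fun t : ℝ => (t : ℂ) ^ k * ph x t) (Ioi 0) := by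
  refine Integrable.mono' (bound_int ((k.factorial : ℝ) *
    Real.exp ((|x| + 2) * (3 * (|x| + 2) + 1)))) ?_ ?_
  · apply Continuous.aestronglyMeasurable
    have := ph_cont x
    fun_prop
  · refine (ae_restrict_iff' measurableSet_Ioi).2 (ae_of_all _ ?_)
    intro t ht
    exact term_bound k le_rfl (le_of_lt ht)

lemma ph_deriv_x (x t : ℝ) : HasDerivAt (fun y : ℝ => ph y t) (om * t * ph x t) x := by
  unfold ph
  have h1 : HasDerivAt (fun y : ℝ => (y : ℂ)) 1 x := Complex.ofRealCLM.hasDerivAt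
  have h2 : HasDerivAt (fun y : ℝ => -(t : ℂ) ^ 3 / 3 + y * om * t) (1 * om * t) x := by
    have h3 := ((h1.mul_const om).mul_const (t : ℂ)).const_add (-(t : ℂ) ^ 3 / 3)
    exact h3
  have h4 := h2.cexp
  refine h4.congr_deriv ?_
  ring

lemma ph_deriv_t (x t : ℝ) : HasDerivAt (ph x) ((-(t : ℂ) ^ 2 + x * om) * ph x t) t := by
  unfold ph
  have h1 : HasDerivAt (fun y : ℝ => (y : ℂ)) 1 t := Complex.ofRealCLM.hasDerivAt
  have h2 : HasDerivAt (fun y : ℝ => -(y : ℂ) ^ 3 / 3 + x * om * y)
      (-((3 : ℕ) * (t : ℂ) ^ (3 - 1) * 1) / 3 + x * om * 1) t := by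
    have h3 := ((h1.pow 3).neg.div_const 3).add (h1.const_mul ((x : ℂ) * om))
    exact h3
  have h4 := h2.cexp
  refine h4.congr_deriv ?_
  push_cast
  ring

lemma FF_deriv (k : ℕ) (x : ℝ) : HasDerivAt (FF k) (om * FF (k + 1) x) x := by
  have key := hasDerivAt_integral_of_dominated_loc_of_deriv_le
    (μ := volume.restrict (Ioi (0 : ℝ))) (𝕜 := ℝ)
    (F := fun y t => (t : ℂ) ^ k * ph y t) (F' := fun y t => om * ((t : ℂ) ^ (k + 1) * ph y t))
    (x₀ := x) (s := Metric.ball x 1)
    (bound := fun t => ‖om‖ * (((k + 1).factorial : ℝ) *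
      Real.exp ((|x| + 3) * (3 * (|x| + 3) + 1)) * Real.exp (-t)))
    (Metric.ball_mem_nhds x one_pos) ?_ (term_int k x) ?_ ?_ ?_ ?_
  · have h := key.2
    refine h.congr_deriv ?_
    unfold FF
    exact integral_const_mul _ _
  · refine Eventually.of_forall fun y => ?_
    apply Continuous.aestronglyMeasurable
    have := ph_cont y
    fun_prop
  · apply Continuous.aestronglyMeasurable
    have := ph_cont x
    fun_prop
  · refine (ae_restrict_iff' measurableSet_Ioi).2 (ae_of_all _ ?_)
    intro t ht y hy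
    rw [norm_mul]
    apply mul_le_mul_of_nonneg_left _ (norm_nonneg _)
    apply term_bound (k + 1) _ (le_of_lt ht)
    have h1 : |y - x| < 1 := by
      rw [← Real.dist_eq]
      exact hy
    have h2 : |y| ≤ |x| + |y - x| := by
      have := abs_add_le x (y - x)
      simpa using this
    linarith
  · exact (bound_int _).const_mul _
  · refine (ae_restrict_iff' measurableSet_Ioi).2 (ae_of_all _ ?_)
    intro t ht y hy
    have h1 := (ph_deriv_x y t).const_mul ((t : ℂ) ^ k)
    refine h1.congr_deriv ?_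
    ring

lemma FF_two (x : ℝ) : FF 2 x = x * om * FF 0 x + 1 := by
  have hlim : Tendsto (ph x) atTop (𝓝 0) := by
    rw [tendsto_zero_iff_norm_tendsto_zero]
    have h1 : Tendsto (fun t : ℝ => ((Nat.factorial 0 : ℕ) : ℝ) *
        Real.exp ((|x| + 2) * (3 * (|x| + 2) + 1)) * Real.exp (-t)) atTop (𝓝 0) := by
      have h2 := (Real.tendsto_exp_neg_atTop_nhds_zero).const_mul (((Nat.factorial 0 : ℕ) : ℝ) *
        Real.exp ((|x| + 2) * (3 * (|x| + 2) + 1)))
      simpa using h2
    refine squeeze_zero' (Eventually.of_forall fun t => norm_nonneg _) ?_ h1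
    filter_upwards [eventually_ge_atTop (0 : ℝ)] with t ht
    have h3 := term_bound 0 (x := x) (B := |x| + 2) le_rfl ht
    simpa using h3
  have hint : IntegrableOn (fun t : ℝ => (-(t : ℂ) ^ 2 + x * om) * ph x t) (Ioi 0) := by
    have h1 := (term_int 2 x).neg.add ((term_int 0 x).const_mul ((x : ℂ) * om))
    refine h1.congr (ae_of_all _ ?_)
    intro t
    simp only [Pi.add_apply, Pi.neg_apply]
    ring
  have h := integral_Ioi_of_hasDerivAt_of_tendsto (f := ph x)
    (f' := fun t : ℝ => (-(t : ℂ) ^ 2 + x * om) * ph x t) (a := 0) (m := 0)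
    (ph_cont x).continuousWithinAt (fun t _ => ph_deriv_t x t) hint hlim
  have h0 : ph x 0 = 1 := by
    unfold ph
    simp
  rw [h0] at h
  have h2 : ∫ t in Ioi (0 : ℝ), (-(t : ℂ) ^ 2 + x * om) * ph x t = -FF 2 x + x * om * FF 0 x := by
    have hneg : IntegrableOn (fun t : ℝ => -((t : ℂ) ^ 2 * ph x t)) (Ioi 0) := (term_int 2 x).neg
    unfold FF
    rw [← integral_neg, ← integral_const_mul, ← integral_add hneg
      ((term_int 0 x).const_mul ((x : ℂ) * om))]
    apply integral_congr_ae
    refine ae_of_all _ ?_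
    intro t
    simp only
    ring
  rw [h2] at h
  linear_combination -h

/-- The function. -/
noncomputable def AA (x : ℝ) : ℝ := (cc * FF 0 x).re

noncomputable def AA' (x : ℝ) : ℝ := (cc * (om * FF 1 x)).re

lemma AA_deriv (x : ℝ) : HasDerivAt AA (AA' x) x := by
  have h1 := (FF_deriv 0 x).const_mul cc
  have h2 := Complex.reCLM.hasFDerivAt.comp_hasDerivAt x h1
  exact h2

lemma AA'_deriv (x : ℝ) : HasDerivAt AA' (x * AA x) x := by
  have h1 := ((FF_deriv 1 x).const_mul om).const_mul cc
  have h2 := Complex.reCLM.hasFDerivAt.comp_hasDerivAt x h1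
  refine HasDerivAt.congr_deriv (f := AA') h2 ?_
  show (cc * (om * (om * FF (1 + 1) x))).re = x * AA x
  have h3 : cc * (om * (om * FF (1 + 1) x)) = (x : ℂ) * (cc * FF 0 x) + -Complex.I := by
    have h4 : FF (1 + 1) x = x * om * FF 0 x + 1 := FF_two x
    rw [h4, ← cc_om2]
    linear_combination (cc * (x : ℂ) * FF 0 x) * om3
  rw [h3]
  simp [AA]

lemma FF_zero (k : ℕ) : FF k 0 = ((∫ t in Ioi (0 : ℝ), t ^ k * Real.exp (-t ^ 3 / 3) : ℝ) : ℂ) := by
  unfold FF
  rw [← integral_complex_ofReal]
  apply integral_congr_ae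
  refine ae_of_all _ ?_
  intro t
  simp only [ph]
  push_cast
  simp

lemma FF_zero_int (k : ℕ) : IntegrableOn (fun t : ℝ => t ^ k * Real.exp (-t ^ 3 / 3)) (Ioi 0) := by
  have h := (term_int k 0).norm
  refine h.congr ?_
  refine (ae_restrict_iff' measurableSet_Ioi).2 (ae_of_all _ ?_)
  intro t ht
  have ht' : 0 ≤ t := le_of_lt ht
  simp only
  rw [norm_mul, norm_ph, norm_pow, Complex.norm_real, Real.norm_of_nonneg ht']
  simp

lemma moment_pos (k : ℕ) : 0 < ∫ t in Ioi (0 : ℝ), t ^ k * Real.exp (-t ^ 3 / 3) := by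
  rw [setIntegral_pos_iff_support_of_nonneg_ae]
  · have h1 : (Function.support (fun t : ℝ => t ^ k * Real.exp (-t ^ 3 / 3)) ∩ Ioi 0) = Ioi 0 := by
      apply inter_eq_right.2
      intro t ht
      have ht' : 0 < t := ht
      simp only [Function.mem_support]
      positivity
    rw [h1]
    simp
  · refine (ae_restrict_iff' measurableSet_Ioi).2 (ae_of_all _ ?_)
    intro t ht
    have ht' : 0 < t := ht
    simp only [Pi.zero_apply]
    positivity
  · exact FF_zero_int k

lemma AA_zero_pos : 0 < AA 0 := by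
  unfold AA
  rw [FF_zero, Complex.re_mul_ofReal]
  have h1 := moment_pos 0
  have h2 : 0 < cc.re := by
    simp only [cc]
    positivity
  exact mul_pos h2 h1

lemma AA_bdd {x : ℝ} (hx : 0 ≤ x) : |AA x| ≤ ∫ t in Ioi (0 : ℝ), t ^ 0 * Real.exp (-t ^ 3 / 3) := by
  have hc : ‖cc‖ = 1 := by
    have h1 : Complex.normSq cc = 1 := by
      simp only [Complex.normSq_apply, cc]
      nlinarith [sq3]
    rw [Complex.norm_def, h1, Real.sqrt_one]
  calc |AA x| ≤ ‖cc * FF 0 x‖ := Complex.abs_re_le_norm _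
    _ = ‖FF 0 x‖ := by rw [norm_mul, hc, one_mul]
    _ ≤ ∫ t in Ioi (0 : ℝ), ‖(t : ℂ) ^ 0 * ph x t‖ := norm_integral_le_integral_norm _
    _ ≤ ∫ t in Ioi (0 : ℝ), t ^ 0 * Real.exp (-t ^ 3 / 3) := by
        apply setIntegral_mono_on (term_int 0 x).norm (FF_zero_int 0) measurableSet_Ioi
        intro t ht
        have ht' : 0 < t := ht
        rw [norm_mul, norm_ph]
        simp only [pow_zero, norm_one, one_mul]
        apply Real.exp_le_exp.2
        have : 0 ≤ x * t := by positivity
        linarith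

/-- `A A'` is nondecreasing on `[0, ∞)` -/
lemma prod_mono : MonotoneOn (fun x => AA x * AA' x) (Ici 0) := by
  have hd : ∀ x, HasDerivAt (fun x => AA x * AA' x) (AA' x * AA' x + AA x * (x * AA x)) x :=
    fun x => (AA_deriv x).mul (AA'_deriv x)
  refine monotoneOn_of_deriv_nonneg (convex_Ici 0)
    (fun x _ => (hd x).continuousAt.continuousWithinAt)
    (fun x _ => (hd x).differentiableAt.differentiableWithinAt) ?_
  intro x hx
  rw [interior_Ici] at hx
  have hx' : 0 < x := hx
  rw [(hd x).deriv]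
  have h1 : 0 ≤ AA' x * AA' x := mul_self_nonneg _
  have h2 : AA x * (x * AA x) = x * (AA x * AA x) := by ring
  have h3 : 0 ≤ x * (AA x * AA x) := mul_nonneg hx'.le (mul_self_nonneg _)
  rw [h2]
  linarith

lemma sq_deriv (x : ℝ) : HasDerivAt (fun x => AA x * AA x) (2 * (AA x * AA' x)) x := by
  refine ((AA_deriv x).mul (AA_deriv x)).congr_deriv ?_
  ring

/-- `A A' ≤ 0` on `[0,∞)`. -/
lemma prod_nonpos {x : ℝ} (hx : 0 ≤ x) : AA x * AA' x ≤ 0 := by
  by_contra hcon
  push Not at hcon
  set p := AA x * AA' x with hp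
  set M := ∫ t in Ioi (0 : ℝ), t ^ 0 * Real.exp (-t ^ 3 / 3) with hM
  have hM0 : 0 < M := moment_pos 0
  -- for `y ≥ x`, `A y ^ 2 ≥ A x ^ 2 + 2 p (y - x)`
  have hmono : MonotoneOn (fun y => AA y * AA y - 2 * p * y) (Ici x) := by
    have hd : ∀ y, HasDerivAt (fun y => AA y * AA y - 2 * p * y) (2 * (AA y * AA' y) - 2 * p) y := by
      intro y
      have h1 := (sq_deriv y).sub ((hasDerivAt_id y).const_mul (2 * p))
      refine h1.congr_deriv ?_
      simp
    refine monotoneOn_of_deriv_nonneg (convex_Ici x)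
      (fun y _ => (hd y).continuousAt.continuousWithinAt)
      (fun y _ => (hd y).differentiableAt.differentiableWithinAt) ?_
    intro y hy
    rw [interior_Ici] at hy
    have hy' : x < y := hy
    rw [(hd y).deriv]
    have h1 : AA x * AA' x ≤ AA y * AA' y := prod_mono (a := x) (b := y) hx (by
      show 0 ≤ y
      linarith) hy'.le
    linarith
  set y := x + (M * M + 1) / (2 * p) with hy
  have hxy : x ≤ y := by
    have : 0 ≤ (M * M + 1) / (2 * p) := by positivity
    linarith
  have h1 := hmono (self_mem_Ici) (show y ∈ Ici x from hxy) hxy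
  simp only at h1
  have h2 : 2 * p * (y - x) = M * M + 1 := by
    rw [hy]
    field_simp
    ring
  have h3 : AA y * AA y ≤ M * M := by
    have h4 := AA_bdd (x := y) (by linarith)
    have h5 : |AA y| * |AA y| = AA y * AA y := abs_mul_abs_self _
    rw [← h5]
    exact mul_le_mul h4 h4 (abs_nonneg _) hM0.le
  have h6 : 0 ≤ AA x * AA x := mul_self_nonneg _
  nlinarith

/-- no common zero of `A` and `A'` on `[0,∞)`. -/
lemma no_double {x : ℝ} (hx : 0 ≤ x) (h0 : AA x = 0) (h1 : AA' x = 0) : False := by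
  set L := x + 1 with hL
  have hd : ∀ y, HasDerivAt (fun y => Real.exp (L * y) * (AA y * AA y + AA' y * AA' y))
      (Real.exp (L * y) * L * (AA y * AA y + AA' y * AA' y) +
        Real.exp (L * y) * (2 * (AA y * AA' y) + 2 * (AA' y * (y * AA y)))) y := by
    intro y
    have e1 : HasDerivAt (fun y => Real.exp (L * y)) (Real.exp (L * y) * L) y := by
      have := ((hasDerivAt_id y).const_mul L).exp
      refine this.congr_deriv ?_
      simp
    have e2 : HasDerivAt (fun y => AA' y * AA' y) (2 * (AA' y * (y * AA y))) y := by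
      refine ((AA'_deriv y).mul (AA'_deriv y)).congr_deriv ?_
      ring
    exact e1.mul ((sq_deriv y).add e2)
  have hmono : MonotoneOn (fun y => Real.exp (L * y) * (AA y * AA y + AA' y * AA' y)) (Icc 0 x) := by
    refine monotoneOn_of_deriv_nonneg (convex_Icc 0 x)
      (fun y _ => (hd y).continuousAt.continuousWithinAt)
      (fun y _ => (hd y).differentiableAt.differentiableWithinAt) ?_
    intro y hy
    rw [interior_Icc] at hy
    rw [(hd y).deriv]
    have h2 : 0 < Real.exp (L * y) := Real.exp_pos _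
    have h3 : 0 ≤ L * (AA y * AA y + AA' y * AA' y) + 2 * (1 + y) * (AA y * AA' y) := by
      have h4 : 0 ≤ y := hy.1.le
      have h5 : y ≤ x := hy.2.le
      have h6 : -(AA y * AA y + AA' y * AA' y) ≤ 2 * (AA y * AA' y) := by
        nlinarith [mul_self_nonneg (AA y + AA' y)]
      have h7 : 0 ≤ AA y * AA y + AA' y * AA' y :=
        add_nonneg (mul_self_nonneg _) (mul_self_nonneg _)
      have h8 : (1 + y) * -(AA y * AA y + AA' y * AA' y) ≤ (1 + y) * (2 * (AA y * AA' y)) :=
        mul_le_mul_of_nonneg_left h6 (by linarith)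
      have h9 : (1 + y) * (AA y * AA y + AA' y * AA' y) ≤ L * (AA y * AA y + AA' y * AA' y) :=
        mul_le_mul_of_nonneg_right (by rw [hL]; linarith) h7
      linarith
    have h10 : Real.exp (L * y) * L * (AA y * AA y + AA' y * AA' y) +
        Real.exp (L * y) * (2 * (AA y * AA' y) + 2 * (AA' y * (y * AA y))) =
        Real.exp (L * y) * (L * (AA y * AA y + AA' y * AA' y) + 2 * (1 + y) * (AA y * AA' y)) := by
      ring
    rw [h10]
    exact mul_nonneg h2.le h3
  have h2 := hmono (left_mem_Icc.2 hx) (right_mem_Icc.2 hx) hx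
  simp only [h0, h1, mul_zero, Real.exp_zero, one_mul, add_zero] at h2
  have h3 : 0 < AA 0 * AA 0 := mul_pos AA_zero_pos AA_zero_pos
  have h4 : 0 ≤ AA' 0 * AA' 0 := mul_self_nonneg _
  linarith

lemma AA_cont : Continuous AA := continuous_iff_continuousAt.2 fun x => (AA_deriv x).continuousAt

lemma AA_ne_zero {x : ℝ} (hx : 0 ≤ x) : AA x ≠ 0 := by
  intro h0
  -- `A A' = 0` on `[x,∞)`, so `A = 0` there
  have h1 : ∀ y, x ≤ y → AA y = 0 := by
    intro y hxy
    have hd : AntitoneOn (fun y => AA y * AA y) (Ici 0) := by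
      refine antitoneOn_of_deriv_nonpos (convex_Ici 0)
        (fun y _ => (sq_deriv y).continuousAt.continuousWithinAt)
        (fun y _ => (sq_deriv y).differentiableAt.differentiableWithinAt) ?_
      intro z hz
      rw [interior_Ici] at hz
      have hz' : 0 < z := hz
      rw [(sq_deriv z).deriv]
      have := prod_nonpos hz'.le
      linarith
    have h2 := hd (a := x) (b := y) hx (show 0 ≤ y by linarith) hxy
    simp only [h0, mul_zero] at h2
    have h3 : AA y * AA y = 0 := le_antisymm h2 (mul_self_nonneg _)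
    exact mul_self_eq_zero.1 h3
  have h2 : AA' x = 0 := by
    have h3 : HasDerivWithinAt AA (AA' x) (Ici x) x := (AA_deriv x).hasDerivWithinAt
    have h4 : HasDerivWithinAt AA 0 (Ici x) x := by
      have h5 : HasDerivWithinAt (fun _ : ℝ => (0 : ℝ)) 0 (Ici x) x := hasDerivWithinAt_const _ _ _
      exact h5.congr (fun y hy => h1 y hy) (h1 x le_rfl)
    exact (uniqueDiffWithinAt_Ici x).eq_deriv _ h3 h4
  exact no_double hx h0 h2

lemma AA_pos {x : ℝ} (hx : 0 ≤ x) : 0 < AA x := by
  by_contra hcon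
  push Not at hcon
  have h1 : (0 : ℝ) ∈ AA '' Icc 0 x :=
    intermediate_value_Icc' hx AA_cont.continuousOn ⟨hcon, AA_zero_pos.le⟩
  obtain ⟨y, hy, hy0⟩ := h1
  exact AA_ne_zero hy.1 hy0

lemma exists_neg_zero : ∃ x, x ≤ 0 ∧ AA x = 0 := by
  by_contra hcon
  push Not at hcon
  have hpos : ∀ x, x ≤ 0 → 0 < AA x := by
    intro x hx
    by_contra hn
    push Not at hn
    have h1 : (0 : ℝ) ∈ AA '' Icc x 0 :=
      intermediate_value_Icc hx AA_cont.continuousOn ⟨hn, AA_zero_pos.le⟩
    obtain ⟨y, hy, hy0⟩ := h1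
    exact hcon y hy.2 hy0
  have hanti : AntitoneOn AA' (Iic 0) := by
    refine antitoneOn_of_deriv_nonpos (convex_Iic 0)
      (fun y _ => (AA'_deriv y).continuousAt.continuousWithinAt)
      (fun y _ => (AA'_deriv y).differentiableAt.differentiableWithinAt) ?_
    intro y hy
    rw [interior_Iic] at hy
    have hy' : y < 0 := hy
    rw [(AA'_deriv y).deriv]
    exact mul_nonpos_of_nonpos_of_nonneg hy'.le (hpos y hy'.le).le
  have hle : ∀ x, x ≤ 0 → AA' x ≤ 0 := by
    intro x hx
    by_contra hn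
    push Not at hn
    -- `A y - A' x * y` is nondecreasing on `(-∞, x]`
    have hd : ∀ y, HasDerivAt (fun y => AA y - AA' x * y) (AA' y - AA' x) y := by
      intro y
      have h1 := (AA_deriv y).sub ((hasDerivAt_id y).const_mul (AA' x))
      refine h1.congr_deriv ?_
      simp
    have hm : MonotoneOn (fun y => AA y - AA' x * y) (Iic x) := by
      refine monotoneOn_of_deriv_nonneg (convex_Iic x)
        (fun y _ => (hd y).continuousAt.continuousWithinAt)
        (fun y _ => (hd y).differentiableAt.differentiableWithinAt) ?_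
      intro y hy
      rw [interior_Iic] at hy
      have hy' : y < x := hy
      rw [(hd y).deriv]
      have := hanti (a := y) (b := x) (show y ≤ 0 by linarith) hx hy'.le
      linarith
    set y := x - AA x / AA' x with hy
    have hyx : y ≤ x := by
      have : 0 ≤ AA x / AA' x := div_nonneg (hpos x hx).le hn.le
      linarith
    have h1 := hm (show y ∈ Iic x from hyx) (self_mem_Iic) hyx
    simp only at h1
    have h2 : AA' x * (x - y) = AA x := by
      rw [hy]
      field_simp
      ring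
    have h3 := hpos y (by linarith)
    nlinarith
  -- antitone bound
  have hA : ∀ x, x ≤ -1 → AA (-1) ≤ AA x := by
    intro x hx
    have hm : AntitoneOn AA (Iic 0) := by
      refine antitoneOn_of_deriv_nonpos (convex_Iic 0)
        (fun y _ => (AA_deriv y).continuousAt.continuousWithinAt)
        (fun y _ => (AA_deriv y).differentiableAt.differentiableWithinAt) ?_
      intro y hy
      rw [interior_Iic] at hy
      have hy' : y < 0 := hy
      rw [(AA_deriv y).deriv]
      exact hle y hy'.le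
    exact hm (a := x) (b := -1) (show x ≤ 0 by linarith) (show (-1 : ℝ) ≤ 0 by norm_num) hx
  have hd2 : ∀ y, HasDerivAt (fun y => AA' y + AA (-1) * y) (y * AA y + AA (-1)) y := by
    intro y
    have h1 := (AA'_deriv y).add ((hasDerivAt_id y).const_mul (AA (-1)))
    refine h1.congr_deriv ?_
    simp
  have ham : AntitoneOn (fun y => AA' y + AA (-1) * y) (Iic (-1)) := by
    refine antitoneOn_of_deriv_nonpos (convex_Iic (-1))
      (fun y _ => (hd2 y).continuousAt.continuousWithinAt)
      (fun y _ => (hd2 y).differentiableAt.differentiableWithinAt) ?_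
    intro y hy
    rw [interior_Iic] at hy
    have hy' : y < -1 := hy
    rw [(hd2 y).deriv]
    have h1 := hA y hy'.le
    have h2 := hpos (-1) (by norm_num)
    nlinarith
  have hP : 0 < AA (-1) := hpos (-1) (by norm_num)
  set x := -1 - (1 - AA' (-1)) / AA (-1) with hx
  have hN : AA' (-1) ≤ 0 := hle (-1) (by norm_num)
  have hx1 : x ≤ -1 := by
    have : 0 ≤ (1 - AA' (-1)) / AA (-1) := div_nonneg (by linarith) hP.le
    linarith
  have h1 := ham (a := x) (b := -1) hx1 (self_mem_Iic) hx1
  simp only at h1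
  have h2 : AA (-1) * (-1 - x) = 1 - AA' (-1) := by
    rw [hx]
    field_simp
    ring
  have h3 := hle x (by linarith)
  nlinarith

end AiryEx

open AiryEx in
/-- There is a bounded solution of Airy's equation with a largest zero. -/
theorem exists_airy : ∃ (A : ℝ → ℝ) (a : ℝ), IsAiry A a := by
  have hcl : IsClosed {x : ℝ | x ≤ 0 ∧ AA x = 0} :=
    (isClosed_le continuous_id continuous_const).inter (isClosed_eq AA_cont continuous_const)
  have hne : {x : ℝ | x ≤ 0 ∧ AA x = 0}.Nonempty := exists_neg_zero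
  have hbd : BddAbove {x : ℝ | x ≤ 0 ∧ AA x = 0} := ⟨0, fun x hx => hx.1⟩
  have hmem := hcl.csSup_mem hne hbd
  set b := sSup {x : ℝ | x ≤ 0 ∧ AA x = 0} with hb
  have hderiv : deriv AA = AA' := funext fun x => (AA_deriv x).deriv
  refine ⟨AA, -b, ?_, ?_, ?_, ?_, ?_, ?_⟩
  · exact fun x => (AA_deriv x).differentiableAt
  · rw [hderiv]
    exact fun x => (AA'_deriv x).differentiableAt
  · intro x
    rw [hderiv]
    exact (AA'_deriv x).deriv
  · rw [neg_neg]
    exact hmem.2
  · intro x hx
    rw [neg_neg] at hx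
    rcases le_or_gt 0 x with h0 | h0
    · exact AA_pos h0
    · by_contra hn
      push Not at hn
      have h1 : (0 : ℝ) ∈ AA '' Icc x 0 :=
        intermediate_value_Icc h0.le AA_cont.continuousOn ⟨hn, AA_zero_pos.le⟩
      obtain ⟨y, hy, hy0⟩ := h1
      have h2 : y ≤ b := le_csSup hbd ⟨hy.2, hy0⟩
      linarith [hy.1]
  · exact ⟨_, fun x hx => (le_abs_self _).trans (AA_bdd hx)⟩

end Pool.Agent.LibMP140d1b
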