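import Mathlib

/-!
Second order expansion of the modulus of the derivative.
-/

namespace Pool.Agent.LibMP140d1b

open Complex

lemma expansion_identity {P Y β : ℂ} (hT : 1 + β * P ≠ 0) :
    (1 - β * P) / (1 + β * P) - 2 * β * Y / (1 + β * P) ^ 2 =
      1 - 2 * β * ((P + Y) + β * (Y ^ 2 - (P + Y) ^ 2) -
        β ^ 2 * ((2 * P * (Y ^ 2 - (P + Y) ^ 2) + P ^ 2 * (P + Y) +
          β * P ^ 2 * (Y ^ 2 - (P + Y) ^ 2)) / (1 + β * P) ^ 2)) := by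
  field_simp
  ring

lemma second_order {P Y : ℂ} {β : ℝ} (hP0 : 0 ≤ P.re) (hP : ‖P‖ ≤ 2.5) (hY : ‖Y‖ ≤ 2.5)
    (hβ0 : 0 ≤ β) (hβ1 : β ≤ 0.001) :
    ‖(1 - (β : ℂ) * P) / (1 + β * P) - 2 * β * Y / (1 + β * P) ^ 2‖ ^ 2 ≤
      1 - 4 * β * ((P + Y).re + β * (Y ^ 2).re - 2 * β * (P + Y).re ^ 2 - 530 * β ^ 2) := by
  have hTre : 1 ≤ (1 + (β : ℂ) * P).re := by
    rw [Complex.add_re, Complex.one_re, Complex.re_ofReal_mul]
    have := mul_nonneg hβ0 hP0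
    linarith
  have hTn : 1 ≤ ‖1 + (β : ℂ) * P‖ := hTre.trans (Complex.re_le_norm _)
  have hT : 1 + (β : ℂ) * P ≠ 0 := norm_pos_iff.mp (by linarith)
  rw [expansion_identity hT]
  obtain ⟨Q, hQ⟩ : ∃ Q, Q = P + Y := ⟨_, rfl⟩
  rw [← hQ]
  obtain ⟨Z, hZ⟩ : ∃ Z, Z = Y ^ 2 - Q ^ 2 := ⟨_, rfl⟩
  rw [← hZ]
  obtain ⟨S, hS⟩ : ∃ S, S = (2 * P * Z + P ^ 2 * Q + β * P ^ 2 * Z) / (1 + (β : ℂ) * P) ^ 2 :=
    ⟨_, rfl⟩
  rw [← hS]
  have hQn : ‖Q‖ ≤ 5 := by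
    rw [hQ]
    exact (norm_add_le _ _).trans (by linarith)
  have hZn : ‖Z‖ ≤ 31.25 := by
    rw [hZ]
    refine (norm_sub_le _ _).trans ?_
    rw [norm_pow, norm_pow]
    have h1 := pow_le_pow_left₀ (norm_nonneg _) hY 2
    have h2 := pow_le_pow_left₀ (norm_nonneg _) hQn 2
    norm_num at h1 h2 ⊢
    linarith
  have hSn : ‖S‖ ≤ 188 := by
    rw [hS, norm_div, norm_pow]
    have h1 : 1 ≤ ‖1 + (β : ℂ) * P‖ ^ 2 := one_le_pow₀ hTn
    refine (div_le_self (norm_nonneg _) h1).trans ?_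
    have hP2 : ‖P ^ 2‖ ≤ 6.25 := by
      rw [norm_pow]
      have h2 := pow_le_pow_left₀ (norm_nonneg _) hP 2
      norm_num at h2 ⊢
      linarith
    have h3 : ‖2 * P * Z‖ ≤ 156.25 := by
      rw [norm_mul, norm_mul]
      have h4 : ‖(2 : ℂ)‖ = 2 := by norm_num
      rw [h4]
      calc 2 * ‖P‖ * ‖Z‖ ≤ 2 * 2.5 * 31.25 :=
            mul_le_mul (by linarith) hZn (norm_nonneg _) (by norm_num)
        _ = 156.25 := by norm_num
    have h5 : ‖P ^ 2 * Q‖ ≤ 31.25 := by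
      rw [norm_mul]
      calc ‖P ^ 2‖ * ‖Q‖ ≤ 6.25 * 5 := mul_le_mul hP2 hQn (norm_nonneg _) (by norm_num)
        _ = 31.25 := by norm_num
    have h6 : ‖(β : ℂ) * P ^ 2 * Z‖ ≤ 0.2 := by
      rw [norm_mul, norm_mul, Complex.norm_real, Real.norm_eq_abs, abs_of_nonneg hβ0]
      calc β * ‖P ^ 2‖ * ‖Z‖ ≤ 0.001 * 6.25 * 31.25 :=
            mul_le_mul (mul_le_mul hβ1 hP2 (norm_nonneg _) (by norm_num)) hZn (norm_nonneg _)
              (by norm_num)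
        _ ≤ 0.2 := by norm_num
    refine (norm_add_le _ _).trans ?_
    have h7 := norm_add_le (2 * P * Z) (P ^ 2 * Q)
    linarith
  -- the number `E`
  obtain ⟨E, hE⟩ : ∃ E, E = Q + β * Z - β ^ 2 * S := ⟨_, rfl⟩
  rw [← hE]
  have hErep : Q.re + β * Z.re - 188 * β ^ 2 ≤ E.re := by
    have h1 : ((β : ℂ) ^ 2 * S).re ≤ 188 * β ^ 2 := by
      refine (Complex.re_le_norm _).trans ?_
      rw [norm_mul, norm_pow, Complex.norm_real, Real.norm_eq_abs, abs_of_nonneg hβ0]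
      nlinarith [sq_nonneg β]
    rw [hE, Complex.sub_re, Complex.add_re, Complex.re_ofReal_mul]
    linarith
  have hEn : ‖E‖ ^ 2 ≤ ‖Q‖ ^ 2 + 316 * β := by
    have h1 : ‖E‖ ≤ ‖Q‖ + 31.45 * β := by
      have h2 : ‖(β : ℂ) * Z‖ ≤ 31.25 * β := by
        rw [norm_mul, Complex.norm_real, Real.norm_eq_abs, abs_of_nonneg hβ0]
        nlinarith
      have h3 : ‖(β : ℂ) ^ 2 * S‖ ≤ 0.2 * β := by
        rw [norm_mul, norm_pow, Complex.norm_real, Real.norm_eq_abs, abs_of_nonneg hβ0]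
        calc β ^ 2 * ‖S‖ ≤ β ^ 2 * 188 := mul_le_mul_of_nonneg_left hSn (sq_nonneg β)
          _ = β * (188 * β) := by ring
          _ ≤ β * 0.2 := mul_le_mul_of_nonneg_left (by linarith) hβ0
          _ = 0.2 * β := by ring
      rw [hE]
      have h4 := norm_sub_le (Q + (β : ℂ) * Z) ((β : ℂ) ^ 2 * S)
      have h5 := norm_add_le Q ((β : ℂ) * Z)
      linarith
    have h6 := pow_le_pow_left₀ (norm_nonneg _) h1 2
    have h7 : (‖Q‖ + 31.45 * β) ^ 2 ≤ ‖Q‖ ^ 2 + 316 * β := by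
      have h8 : ‖Q‖ * β ≤ 5 * β := mul_le_mul_of_nonneg_right hQn hβ0
      have h9 : β * β ≤ 0.001 * β := mul_le_mul_of_nonneg_right hβ1 hβ0
      nlinarith
    exact h6.trans h7
  have hkey : ‖1 - 2 * (β : ℂ) * E‖ ^ 2 = 1 - 4 * β * (E.re - β * ‖E‖ ^ 2) := by
    rw [Complex.sq_norm, Complex.sq_norm, Complex.normSq_apply, Complex.normSq_apply]
    simp
    ring
  rw [hkey]
  have hQ2 : Z.re = (Y ^ 2).re - (2 * Q.re ^ 2 - ‖Q‖ ^ 2) := by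
    rw [hZ, Complex.sub_re]
    congr 1
    rw [Complex.sq_norm, Complex.normSq_apply, pow_two, Complex.mul_re]
    ring
  rw [hQ2] at hErep
  have h10 : β * ‖E‖ ^ 2 ≤ β * (‖Q‖ ^ 2 + 316 * β) := mul_le_mul_of_nonneg_left hEn hβ0
  have h11 : Q.re + β * (Y ^ 2).re - 2 * β * Q.re ^ 2 - 530 * β ^ 2 ≤ E.re - β * ‖E‖ ^ 2 := by
    nlinarith [sq_nonneg β]
  have h12 := mul_le_mul_of_nonneg_left h11 (by linarith : 0 ≤ 4 * β)
  linarith

end Pool.Agent.LibMP140d1b
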