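import Mathlib
import Pool.Agent.Lib_MP_140d1b_an.AsyInterp

/-!
The discrete inequality used in the lower bound of the asymptotics.
-/

namespace Pool.Agent.LibMP140d1b

open Filter Topology

/-- Summation by parts. -/
lemma abel_weight (Y : ℕ → ℝ) (hY0 : Y 0 = 0) (μ : ℝ) (M : ℕ) :
    ∑ k ∈ Finset.range M, (1 + μ * k) * (Y (k + 1) ^ 2 - Y k ^ 2) =
      (1 + μ * M) * Y M ^ 2 - μ * ∑ k ∈ Finset.range M, Y (k + 1) ^ 2 := by
  induction M with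
  | zero => simp [hY0]
  | succ M ih =>
    rw [Finset.sum_range_succ, ih, Finset.sum_range_succ (fun k => Y (k + 1) ^ 2)]
    push_cast
    ring

/-- The Airy inequality for a sequence cut at `M`. -/
lemma airy_cut (Y : ℕ → ℝ) (hY0 : Y 0 = 0) (M : ℕ) {s : ℝ} (hs : 0 < s) :
    airyBottom * s ^ 2 * ∑ k ∈ Finset.range M, Y (k + 1) ^ 2 ≤
      (1 + airyBottom * s ^ 2 / 6) * (∑ k ∈ Finset.range M, (Y (k + 1) - Y k) ^ 2 + Y M ^ 2) +
        s ^ 3 * (∑ k ∈ Finset.range M, k * Y (k + 1) ^ 2 +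
          ∑ k ∈ Finset.range M, Y (k + 1) ^ 2) := by
  set Z : ℕ → ℝ := fun k => if k ≤ M then Y k else 0 with hZ
  have hZ0 : Z 0 = 0 := by simp [hZ, hY0]
  have hZM : ∀ k, M < k → Z k = 0 := by
    intro k hk
    simp only [hZ]
    rw [if_neg (by omega)]
  have hZle : ∀ k, k ≤ M → Z k = Y k := by
    intro k hk
    simp only [hZ]
    rw [if_pos hk]
  have h := discrete_airy Z M hZ0 hZM hs
  have e1 : ∑ k ∈ Finset.range (M + 1), Z k ^ 2 = ∑ k ∈ Finset.range M, Y (k + 1) ^ 2 := by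
    rw [Finset.sum_range_succ', hZ0]
    have : ∑ k ∈ Finset.range M, Z (k + 1) ^ 2 = ∑ k ∈ Finset.range M, Y (k + 1) ^ 2 := by
      refine Finset.sum_congr rfl fun k hk => ?_
      rw [Finset.mem_range] at hk
      rw [hZle (k + 1) (by omega)]
    rw [this]
    ring
  have e2 : ∑ k ∈ Finset.range (M + 1), (Z (k + 1) - Z k) ^ 2 =
      ∑ k ∈ Finset.range M, (Y (k + 1) - Y k) ^ 2 + Y M ^ 2 := by
    rw [Finset.sum_range_succ, hZM (M + 1) (by omega), hZle M le_rfl]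
    have : ∑ k ∈ Finset.range M, (Z (k + 1) - Z k) ^ 2 =
        ∑ k ∈ Finset.range M, (Y (k + 1) - Y k) ^ 2 := by
      refine Finset.sum_congr rfl fun k hk => ?_
      rw [Finset.mem_range] at hk
      rw [hZle (k + 1) (by omega), hZle k (by omega)]
    rw [this]
    ring
  have e3 : ∑ k ∈ Finset.range (M + 1), (k : ℝ) * Z k ^ 2 =
      ∑ k ∈ Finset.range M, k * Y (k + 1) ^ 2 + ∑ k ∈ Finset.range M, Y (k + 1) ^ 2 := by
    rw [Finset.sum_range_succ', ← Finset.sum_add_distrib]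
    have : ∑ k ∈ Finset.range M, ((k + 1 : ℕ) : ℝ) * Z (k + 1) ^ 2 =
        ∑ k ∈ Finset.range M, ((k : ℝ) * Y (k + 1) ^ 2 + Y (k + 1) ^ 2) := by
      refine Finset.sum_congr rfl fun k hk => ?_
      rw [Finset.mem_range] at hk
      rw [hZle (k + 1) (by omega)]
      push_cast
      ring
    rw [this]
    push_cast
    ring
  rw [e1, e2, e3] at h
  exact h

/-- The main discrete inequality, cut at `M`. -/
lemma discrete_cut (Y : ℕ → ℝ) (hY0 : Y 0 = 0) (M : ℕ) {s ρ μ Λ : ℝ} (hs : 0 < s) (hρ0 : 0 < ρ)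
    (hρ1 : ρ < 1) (hμ : 0 ≤ μ) (hsκ : s ^ 3 * ρ ≤ μ * (1 - ρ) ^ 2) (hΛ0 : 0 ≤ Λ)
    (hΛ : Λ - 1 ≤ ρ / (1 - ρ) ^ 2 * ((airyBottom * s ^ 2 - s ^ 3) / (1 + airyBottom * s ^ 2 / 6)) -
      ρ * μ / (1 - ρ)) :
    Λ * ((1 - ρ) / (1 + ρ)) * ∑ k ∈ Finset.range M, (Y (k + 1) ^ 2 - ρ ^ 2 * Y k ^ 2) ≤
      ∑ k ∈ Finset.range M, (1 + μ * k) * (Y (k + 1) - ρ * Y k) ^ 2 + (1 + Λ) * Y M ^ 2 := by
  have hL := airyBottom_nonneg
  obtain ⟨L, hLdef⟩ : ∃ L, L = airyBottom := ⟨_, rfl⟩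
  have hA := airy_cut Y hY0 M hs
  have hAb := abel_weight Y hY0 μ M
  rw [← hLdef] at hL hA hΛ
  obtain ⟨τ, hτ⟩ : ∃ τ, τ = 1 - ρ := ⟨_, rfl⟩
  have hτ0 : 0 < τ := by rw [hτ]; linarith
  obtain ⟨B, hB⟩ : ∃ B, B = ∑ k ∈ Finset.range M, Y (k + 1) ^ 2 := ⟨_, rfl⟩
  obtain ⟨X, hX⟩ : ∃ X, X = ∑ k ∈ Finset.range M, (k : ℝ) * Y (k + 1) ^ 2 := ⟨_, rfl⟩
  obtain ⟨D, hD⟩ : ∃ D, D = ∑ k ∈ Finset.range M, (Y (k + 1) - Y k) ^ 2 := ⟨_, rfl⟩
  have hB0 : 0 ≤ B := by rw [hB]; exact Finset.sum_nonneg fun k _ => by positivity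
  have hX0 : 0 ≤ X := by rw [hX]; exact Finset.sum_nonneg fun k _ => by positivity
  have hD0 : 0 ≤ D := by rw [hD]; exact Finset.sum_nonneg fun k _ => by positivity
  rw [← hB, ← hX, ← hD] at hA
  rw [← hB] at hAb
  -- left side
  have e1 : ∑ k ∈ Finset.range M, (Y (k + 1) ^ 2 - ρ ^ 2 * Y k ^ 2) =
      (1 - ρ ^ 2) * B + ρ ^ 2 * Y M ^ 2 := by
    have h1 := abel_weight Y hY0 0 M
    simp only [zero_mul, add_zero, one_mul, sub_zero] at h1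
    have h2 : ∀ k ∈ Finset.range M, Y (k + 1) ^ 2 - ρ ^ 2 * Y k ^ 2 =
        (1 - ρ ^ 2) * Y (k + 1) ^ 2 + ρ ^ 2 * (Y (k + 1) ^ 2 - Y k ^ 2) := fun k _ => by ring
    rw [Finset.sum_congr rfl h2, Finset.sum_add_distrib, ← Finset.mul_sum, ← Finset.mul_sum, h1, hB]
  -- right side
  have e2 : τ ^ 2 * (B + μ * X) - τ * ρ * μ * B + ρ * D ≤
      ∑ k ∈ Finset.range M, (1 + μ * k) * (Y (k + 1) - ρ * Y k) ^ 2 := by
    have h1 : ∀ k ∈ Finset.range M, (1 + μ * k) * (Y (k + 1) - ρ * Y k) ^ 2 =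
        τ ^ 2 * (Y (k + 1) ^ 2 + μ * (k * Y (k + 1) ^ 2)) +
        τ * ρ * ((1 + μ * k) * (Y (k + 1) ^ 2 - Y k ^ 2)) +
        (ρ * (Y (k + 1) - Y k) ^ 2 + ρ * μ * (k * (Y (k + 1) - Y k) ^ 2)) := by
      intro k _
      rw [hτ]
      ring
    rw [Finset.sum_congr rfl h1, Finset.sum_add_distrib, Finset.sum_add_distrib, ← Finset.mul_sum,
      ← Finset.mul_sum, Finset.sum_add_distrib, Finset.sum_add_distrib, ← Finset.mul_sum,
      ← Finset.mul_sum, ← Finset.mul_sum, hAb, ← hB, ← hX, ← hD]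
    have h2 : 0 ≤ ∑ k ∈ Finset.range M, (k : ℝ) * (Y (k + 1) - Y k) ^ 2 :=
      Finset.sum_nonneg fun k _ => by positivity
    have h3 : 0 ≤ ρ * μ * ∑ k ∈ Finset.range M, (k : ℝ) * (Y (k + 1) - Y k) ^ 2 := by positivity
    have h4 : 0 ≤ τ * ρ * ((1 + μ * M) * Y M ^ 2) := by positivity
    linarith
  refine le_trans ?_ (add_le_add_left e2 _)
  rw [e1, ← hτ]
  rw [← hτ] at hsκ hΛ
  -- the Airy inequality
  have hG : 0 < 1 + L * s ^ 2 / 6 := by positivity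
  obtain ⟨G, hGd⟩ : ∃ G, G = 1 + L * s ^ 2 / 6 := ⟨_, rfl⟩
  rw [← hGd] at hA hG hΛ
  have hG1 : 1 ≤ G := by rw [hGd]; have : 0 ≤ L * s ^ 2 / 6 := by positivity
                         linarith
  have hA2 : (L * s ^ 2 - s ^ 3) / G * B ≤ D + Y M ^ 2 + s ^ 3 * X := by
    rw [div_mul_eq_mul_div, div_le_iff₀ hG]
    have h1 : 0 ≤ s ^ 3 * X := by positivity
    nlinarith [mul_nonneg (sub_nonneg.mpr hG1) h1]
  have hA3 := mul_le_mul_of_nonneg_left hA2 hρ0.le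
  have hA4 : s ^ 3 * ρ * X ≤ μ * τ ^ 2 * X := mul_le_mul_of_nonneg_right hsκ hX0
  obtain ⟨W, hW⟩ : ∃ W, W = (L * s ^ 2 - s ^ 3) / G := ⟨_, rfl⟩
  rw [← hW] at hA3 hΛ
  have hΛ2 : (Λ - 1) * τ ^ 2 ≤ ρ * W - ρ * μ * τ := by
    have h1 := mul_le_mul_of_nonneg_right hΛ (sq_nonneg τ)
    have h2 : (ρ / τ ^ 2 * W - ρ * μ / τ) * τ ^ 2 = ρ * W - ρ * μ * τ := by
      field_simp
    rwa [h2] at h1
  have hΛ3 := mul_le_mul_of_nonneg_right hΛ2 hB0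
  -- collect
  have h1ρ : 0 < 1 + ρ := by linarith
  have e3 : Λ * (τ / (1 + ρ)) * ((1 - ρ ^ 2) * B + ρ ^ 2 * Y M ^ 2) =
      Λ * τ ^ 2 * B + Λ * (τ * ρ ^ 2 / (1 + ρ)) * Y M ^ 2 := by
    rw [hτ]
    field_simp
    ring
  have h5 : Λ * (τ * ρ ^ 2 / (1 + ρ)) * Y M ^ 2 ≤ Λ * Y M ^ 2 := by
    refine mul_le_mul_of_nonneg_right ?_ (sq_nonneg _)
    refine mul_le_of_le_one_right hΛ0 ?_
    rw [div_le_one h1ρ]
    have h6 : τ * ρ ^ 2 ≤ 1 * 1 := mul_le_mul (by rw [hτ]; linarith) (pow_le_one₀ hρ0.le hρ1.le)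
      (by positivity) (by norm_num)
    linarith
  have h7 : ρ * Y M ^ 2 ≤ 1 * Y M ^ 2 := mul_le_mul_of_nonneg_right hρ1.le (sq_nonneg _)
  rw [e3]
  nlinarith

/-- Forward geometric sums: `fwd x ρ (k+1) = x k + ρ x (k-1) + ρ² x (k-2) + ...`. -/
noncomputable def fwd (x : ℕ → ℝ) (ρ : ℝ) : ℕ → ℝ
  | 0 => 0
  | k + 1 => x k + ρ * fwd x ρ k

lemma fwd_tail (x : ℕ → ℝ) (ρ : ℝ) {N : ℕ} (hx : ∀ k, N ≤ k → x k = 0) (j : ℕ) :
    fwd x ρ (N + j) = ρ ^ j * fwd x ρ N := by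
  induction j with
  | zero => simp
  | succ j ih =>
    rw [← add_assoc]
    simp only [fwd]
    rw [hx (N + j) (by omega), ih]
    ring

/-- The quadratic form `∑ ρ^|j-k| x_j x_k` over indices below `N`. -/
noncomputable def geo (x : ℕ → ℝ) (ρ : ℝ) (N : ℕ) : ℝ :=
  ∑ k ∈ Finset.range N, (fwd x ρ (k + 1) ^ 2 - ρ ^ 2 * fwd x ρ k ^ 2)

lemma geo_bound (x : ℕ → ℝ) (N : ℕ) {s ρ μ Λ : ℝ} (hs : 0 < s) (hρ0 : 0 < ρ)
    (hρ1 : ρ < 1) (hμ : 0 ≤ μ) (hsκ : s ^ 3 * ρ ≤ μ * (1 - ρ) ^ 2) (hΛ0 : 0 ≤ Λ)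
    (hΛ : Λ - 1 ≤ ρ / (1 - ρ) ^ 2 * ((airyBottom * s ^ 2 - s ^ 3) / (1 + airyBottom * s ^ 2 / 6)) -
      ρ * μ / (1 - ρ)) :
    Λ * ((1 - ρ) / (1 + ρ)) * geo x ρ N ≤ ∑ k ∈ Finset.range N, (1 + μ * k) * x k ^ 2 := by
  -- cut the sequence
  set x' : ℕ → ℝ := fun k => if k < N then x k else 0 with hx'
  have hx'0 : ∀ k, N ≤ k → x' k = 0 := by
    intro k hk
    simp only [hx']
    rw [if_neg (by omega)]
  have hx'1 : ∀ k, k < N → x' k = x k := by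
    intro k hk
    simp only [hx']
    rw [if_pos hk]
  have hfwd : ∀ k, k ≤ N → fwd x' ρ k = fwd x ρ k := by
    intro k
    induction k with
    | zero => intro _; rfl
    | succ k ih =>
      intro hk
      simp only [fwd]
      rw [hx'1 k (by omega), ih (by omega)]
  have hgeo : geo x' ρ N = geo x ρ N := by
    unfold geo
    refine Finset.sum_congr rfl fun k hk => ?_
    rw [Finset.mem_range] at hk
    rw [hfwd (k + 1) (by omega), hfwd k (by omega)]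
  have hsum : ∑ k ∈ Finset.range N, (1 + μ * k) * x' k ^ 2 =
      ∑ k ∈ Finset.range N, (1 + μ * k) * x k ^ 2 := by
    refine Finset.sum_congr rfl fun k hk => ?_
    rw [Finset.mem_range] at hk
    rw [hx'1 k hk]
  rw [← hgeo, ← hsum]
  set Y := fwd x' ρ with hY
  have hY0 : Y 0 = 0 := rfl
  have hYs : ∀ k, Y (k + 1) - ρ * Y k = x' k := by
    intro k
    simp only [hY, fwd]
    ring
  have key : ∀ j : ℕ, Λ * ((1 - ρ) / (1 + ρ)) * geo x' ρ N ≤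
      ∑ k ∈ Finset.range N, (1 + μ * k) * x' k ^ 2 + (1 + Λ) * (ρ ^ j * Y N) ^ 2 := by
    intro j
    have h := discrete_cut Y hY0 (N + j) hs hρ0 hρ1 hμ hsκ hΛ0 hΛ
    have e1 : ∑ k ∈ Finset.range (N + j), (Y (k + 1) ^ 2 - ρ ^ 2 * Y k ^ 2) = geo x' ρ N := by
      unfold geo
      rw [← hY]
      refine (Finset.sum_subset ?_ ?_).symm
      · intro k hk
        rw [Finset.mem_range] at hk ⊢
        omega
      · intro k _ hk
        rw [Finset.mem_range, not_lt] at hk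
        have h1 := hYs k
        rw [hx'0 k hk] at h1
        have h2 : Y (k + 1) = ρ * Y k := by linarith
        rw [h2]
        ring
    have e2 : ∑ k ∈ Finset.range (N + j), (1 + μ * k) * (Y (k + 1) - ρ * Y k) ^ 2 =
        ∑ k ∈ Finset.range N, (1 + μ * k) * x' k ^ 2 := by
      refine (Finset.sum_subset_zero_on_sdiff ?_ ?_ ?_).symm
      · intro k hk
        rw [Finset.mem_range] at hk ⊢
        omega
      · intro k hk
        rw [Finset.mem_sdiff, Finset.mem_range, Finset.mem_range, not_lt] at hk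
        rw [hYs, hx'0 k hk.2]
        ring
      · intro k _
        rw [hYs]
    rw [e1, e2, hY, fwd_tail x' ρ hx'0 j] at h
    exact h
  have hlim : Tendsto (fun j : ℕ => ∑ k ∈ Finset.range N, (1 + μ * k) * x' k ^ 2 +
      (1 + Λ) * (ρ ^ j * Y N) ^ 2) atTop (𝓝 (∑ k ∈ Finset.range N, (1 + μ * k) * x' k ^ 2 +
      (1 + Λ) * (0 * Y N) ^ 2)) := by
    have h1 := tendsto_pow_atTop_nhds_zero_of_lt_one hρ0.le hρ1
    exact (((h1.mul_const (Y N)).pow 2).const_mul (1 + Λ)).const_add _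
  have := ge_of_tendsto' hlim key
  simpa using this

lemma fwd_shift (x : ℕ → ℝ) (ρ : ℝ) (k : ℕ) :
    fwd x ρ (k + 1) = ρ ^ k * x 0 + fwd (fun j => x (j + 1)) ρ k := by
  induction k with
  | zero => simp [fwd]
  | succ k ih =>
    rw [show fwd x ρ (k + 1 + 1) = x (k + 1) + ρ * fwd x ρ (k + 1) from rfl, ih]
    rw [show fwd (fun j => x (j + 1)) ρ (k + 1) = x (k + 1) + ρ * fwd (fun j => x (j + 1)) ρ k
      from rfl]
    ring

/-- Peeling off the first coefficient. -/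
lemma geo_succ (x : ℕ → ℝ) (ρ : ℝ) (N : ℕ) :
    geo x ρ (N + 1) = x 0 ^ 2 + 2 * x 0 * ρ * ∑ k ∈ Finset.range N, x (k + 1) * ρ ^ k +
      geo (fun j => x (j + 1)) ρ N := by
  induction N with
  | zero => simp [geo, fwd]
  | succ N ih =>
    have h1 : geo x ρ (N + 1 + 1) = geo x ρ (N + 1) +
        (fwd x ρ (N + 1 + 1) ^ 2 - ρ ^ 2 * fwd x ρ (N + 1) ^ 2) := by
      unfold geo
      rw [Finset.sum_range_succ _ (N + 1)]
    have h2 : geo (fun j => x (j + 1)) ρ (N + 1) = geo (fun j => x (j + 1)) ρ N +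
        (fwd (fun j => x (j + 1)) ρ (N + 1) ^ 2 - ρ ^ 2 * fwd (fun j => x (j + 1)) ρ N ^ 2) := by
      unfold geo
      rw [Finset.sum_range_succ]
    rw [h1, ih, h2, Finset.sum_range_succ, fwd_shift x ρ (N + 1), fwd_shift x ρ N,
      show fwd (fun j => x (j + 1)) ρ (N + 1) = x (N + 1) + ρ * fwd (fun j => x (j + 1)) ρ N
      from rfl]
    ring

end Pool.Agent.LibMP140d1b
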