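import Mathlib

/-!
Parseval's identity for analytic functions on a disc, in terms of circle averages and Taylor
coefficients at `0`.
-/

namespace Pool.Agent.LibMP140d1b

open Complex Metric Set Filter Topology Real

/-- The `k`-th Taylor coefficient of `g` at `0`. -/
noncomputable def tc (g : ℂ → ℂ) (k : ℕ) : ℂ := (k.factorial : ℂ)⁻¹ * iteratedDeriv k g 0

lemma tc_hasSum {g : ℂ → ℂ} {R : ℝ} (hg : DifferentiableOn ℂ g (ball 0 R)) {z : ℂ}
    (hz : z ∈ ball (0 : ℂ) R) : HasSum (fun k => tc g k * z ^ k) (g z) := by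
  have h := Complex.hasSum_taylorSeries_on_ball hg hz
  refine h.congr_fun ?_ |> fun h => h
  intro k
  simp only [tc, sub_zero, smul_eq_mul]
  ring

lemma tc_deriv (g : ℂ → ℂ) (k : ℕ) : tc (deriv g) k = ((k : ℂ) + 1) * tc g (k + 1) := by
  have h : ((k.factorial : ℂ)) ≠ 0 := by exact_mod_cast k.factorial_ne_zero
  have h2 : ((k : ℂ) + 1) ≠ 0 := by exact_mod_cast Nat.succ_ne_zero k
  simp only [tc, ← iteratedDeriv_succ', Nat.factorial_succ]
  push_cast
  field_simp

lemma circleIntegrable_of_continuousOn {f : ℂ → ℝ} {r : ℝ} (hr : 0 ≤ r)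
    (hf : ContinuousOn f (sphere 0 r)) : CircleIntegrable f 0 r :=
  hf.circleIntegrable hr

lemma circleAverage_poly (c : ℕ → ℂ) (N : ℕ) (r : ℝ) :
    circleAverage (fun z => ‖∑ k ∈ Finset.range N, c k * z ^ k‖ ^ 2) 0 r =
      ∑ k ∈ Finset.range N, ‖c k‖ ^ 2 * (r ^ 2) ^ k := by
  classical
  set P : Polynomial ℂ := ∑ k ∈ Finset.range N, Polynomial.monomial k (c k * (r : ℂ) ^ k) with hP
  have hcoeff : ∀ k, P.coeff k = if k ∈ Finset.range N then c k * (r : ℂ) ^ k else 0 := by
    intro k
    simp [hP, Polynomial.finset_sum_coeff, Polynomial.coeff_monomial]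
  have h1 := Polynomial.sum_sq_norm_coeff_eq_circleAverage P
  have h2 : ∑ i ∈ P.support, ‖P.coeff i‖ ^ 2 = ∑ k ∈ Finset.range N, ‖c k‖ ^ 2 * (r ^ 2) ^ k := by
    have hsub : P.support ⊆ Finset.range N := by
      intro k hk
      by_contra hkN
      rw [Polynomial.mem_support_iff, hcoeff, if_neg hkN] at hk
      exact hk rfl
    rw [Finset.sum_subset hsub]
    · refine Finset.sum_congr rfl ?_
      intro k hk
      rw [hcoeff, if_pos hk, norm_mul, norm_pow, mul_pow]
      congr 1
      rw [← pow_mul, mul_comm k 2, pow_mul, Complex.norm_real, Real.norm_eq_abs, sq_abs]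
    · intro k _ hk
      rw [Polynomial.notMem_support_iff.mp hk]
      simp
  rw [← h2, h1, circleAverage_eq_circleAverage_zero_one]
  congr 1
  ext z
  congr 2
  simp only [hP, Polynomial.eval_finset_sum, Polynomial.eval_monomial, add_zero]
  refine Finset.sum_congr rfl ?_
  intro k _
  ring

/-- **Parseval** for a function analytic on a disc of radius `R`, on the circle of radius `r < R`. -/
lemma parseval {g : ℂ → ℂ} {R r : ℝ} (hr : 0 ≤ r) (hrR : r < R)
    (hg : DifferentiableOn ℂ g (ball 0 R)) :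
    HasSum (fun k => ‖tc g k‖ ^ 2 * (r ^ 2) ^ k) (circleAverage (fun z => ‖g z‖ ^ 2) 0 r) := by
  have hsum : Summable (fun k => ‖tc g k‖ * r ^ k) := by
    have hz : (r : ℂ) ∈ ball (0 : ℂ) R := by
      simp [abs_of_nonneg hr, hrR]
    have h := (tc_hasSum hg hz).summable.norm
    refine h.congr ?_
    intro k
    simp [norm_pow, abs_of_nonneg hr]
  set M : ℝ := ∑' k, ‖tc g k‖ * r ^ k with hM
  have hMnn : 0 ≤ M := tsum_nonneg (fun k => by positivity)
  have hbound : ∀ N : ℕ, ∀ z : ℂ, ‖z‖ = r → ‖∑ k ∈ Finset.range N, tc g k * z ^ k‖ ≤ M := by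
    intro N z hz
    calc ‖∑ k ∈ Finset.range N, tc g k * z ^ k‖ ≤ ∑ k ∈ Finset.range N, ‖tc g k * z ^ k‖ :=
          norm_sum_le _ _
      _ = ∑ k ∈ Finset.range N, ‖tc g k‖ * r ^ k := by
          refine Finset.sum_congr rfl ?_
          intro k _
          rw [norm_mul, norm_pow, hz]
      _ ≤ M := hsum.sum_le_tsum _ (fun k _ => by positivity)
  have hlim : Tendsto (fun N : ℕ => circleAverage
      (fun z => ‖∑ k ∈ Finset.range N, tc g k * z ^ k‖ ^ 2) 0 r) atTop
      (𝓝 (circleAverage (fun z => ‖g z‖ ^ 2) 0 r)) := by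
    unfold circleAverage
    refine Tendsto.const_smul ?_ _
    refine intervalIntegral.tendsto_integral_filter_of_dominated_convergence (fun _ => M ^ 2)
      ?_ ?_ ?_ ?_
    · refine Eventually.of_forall ?_
      intro N
      refine Continuous.aestronglyMeasurable ?_
      fun_prop
    · refine Eventually.of_forall ?_
      intro N
      refine Eventually.of_forall ?_
      intro θ _
      have h1 : ‖circleMap 0 r θ‖ = r := by simp [abs_of_nonneg hr]
      have h2 := hbound N _ h1
      rw [Real.norm_eq_abs, abs_of_nonneg (by positivity)]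
      exact pow_le_pow_left₀ (norm_nonneg _) h2 2
    · exact intervalIntegrable_const
    · refine Eventually.of_forall ?_
      intro θ _
      have h1 : circleMap 0 r θ ∈ ball (0 : ℂ) R := by
        simp [abs_of_nonneg hr, hrR]
      exact ((tc_hasSum hg h1).tendsto_sum_nat.norm).pow 2
  have hnn : ∀ k, 0 ≤ ‖tc g k‖ ^ 2 * (r ^ 2) ^ k := fun k => by positivity
  rw [hasSum_iff_tendsto_nat_of_nonneg hnn]
  simpa only [circleAverage_poly] using hlim

end Pool.Agent.LibMP140d1b
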