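import Mathlib
import Pool.Agent.Lib_MP_140d1b_an.Parseval

/-!
Littlewood's inequality (exponent two), Rogosinski's inequality and Goluzin's inequality,
for polynomials composed with a Schwarz function.
-/

namespace Pool.Agent.LibMP140d1b

open Complex Metric Set Filter Topology Real

/-- `φ` is a Schwarz function: analytic self-map of the unit disc fixing the origin. -/
structure Schwarz (φ : ℂ → ℂ) : Prop where
  diff : DifferentiableOn ℂ φ (ball 0 1)
  maps : MapsTo φ (ball 0 1) (ball 0 1)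
  zero : φ 0 = 0

lemma Schwarz.norm_le {φ : ℂ → ℂ} (h : Schwarz φ) {z : ℂ} (hz : z ∈ ball (0 : ℂ) 1) :
    ‖φ z‖ ≤ ‖z‖ := by
  refine Complex.norm_le_norm_of_mapsTo_ball h.diff ?_ h.zero (by simpa using hz)
  exact h.maps.mono_right ball_subset_closedBall

/-- The polynomial `∑_{k<N} c_k w^k` as a function. -/
noncomputable def pe (c : ℕ → ℂ) (N : ℕ) (w : ℂ) : ℂ := ∑ k ∈ Finset.range N, c k * w ^ k

lemma pe_differentiable (c : ℕ → ℂ) (N : ℕ) : Differentiable ℂ (pe c N) := by
  unfold pe
  fun_prop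

lemma pe_continuous (c : ℕ → ℂ) (N : ℕ) : Continuous (pe c N) := (pe_differentiable c N).continuous

lemma sphere_subset_ball_one {r : ℝ} (hr1 : r < 1) : sphere (0 : ℂ) r ⊆ ball 0 1 := by
  intro z hz
  simp only [mem_sphere_iff_norm, sub_zero] at hz
  simp [hz, hr1]

lemma circleAverage_add_const {u : ℂ → ℂ} {R r : ℝ} (hr : 0 ≤ r) (hr1 : r < R)
    (hu : DifferentiableOn ℂ u (ball 0 R)) (hu0 : u 0 = 0) (a : ℂ) :
    circleAverage (fun z => ‖a + u z‖ ^ 2) 0 r =
      ‖a‖ ^ 2 + circleAverage (fun z => ‖u z‖ ^ 2) 0 r := by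
  have hsub : sphere (0 : ℂ) r ⊆ ball 0 R := by
    intro z hz
    simp only [mem_sphere_iff_norm, sub_zero] at hz
    simp [hz, hr1]
  have hcont : ContinuousOn u (sphere 0 r) := hu.continuousOn.mono hsub
  have h1 : circleAverage (fun z => (starRingEnd ℂ a * u z)) 0 r = 0 := by
    have hd : DiffContOnCl ℂ (fun z => (starRingEnd ℂ a * u z)) (ball 0 |r|) := by
      have : DifferentiableOn ℂ (fun z => (starRingEnd ℂ a * u z)) (closedBall 0 |r|) := by
        refine (DifferentiableOn.const_mul ?_ _)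
        refine hu.mono ?_
        intro z hz
        simp only [mem_closedBall, dist_zero_right, abs_of_nonneg hr] at hz
        simp only [mem_ball, dist_zero_right]
        linarith
      exact this.diffContOnCl_ball subset_rfl
    rw [hd.circleAverage, hu0, mul_zero]
  have h2 : circleAverage (fun z => (starRingEnd ℂ a * u z).re) 0 r = 0 := by
    have hint : CircleIntegrable (fun z => (starRingEnd ℂ a * u z)) 0 r :=
      (continuousOn_const.mul hcont).circleIntegrable hr
    have := Complex.reCLM.circleAverage_comp_comm hint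
    rw [h1] at this
    simpa [Function.comp_def] using this
  have hi0 : CircleIntegrable (fun _ : ℂ => ‖a‖ ^ 2) 0 r :=
    continuousOn_const.circleIntegrable hr
  have hi1 : CircleIntegrable (fun z => ‖u z‖ ^ 2) 0 r :=
    (hcont.norm.pow 2).circleIntegrable hr
  have hi2 : CircleIntegrable (fun z => 2 * (starRingEnd ℂ a * u z).re) 0 r := by
    refine ContinuousOn.circleIntegrable hr ?_
    exact continuousOn_const.mul (Complex.continuous_re.comp_continuousOn
      (continuousOn_const.mul hcont))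
  have key : ∀ z : ℂ, ‖a + u z‖ ^ 2 = (‖a‖ ^ 2 + ‖u z‖ ^ 2) + 2 * (starRingEnd ℂ a * u z).re := by
    intro z
    rw [Complex.sq_norm, Complex.sq_norm, Complex.sq_norm, Complex.normSq_add]
    congr 2
    rw [← Complex.conj_re (a * _)]
    simp
  simp_rw [key]
  have hi01 : CircleIntegrable (fun z : ℂ => ‖a‖ ^ 2 + ‖u z‖ ^ 2) 0 r := hi0.add hi1
  rw [circleAverage_fun_add hi01 hi2, circleAverage_fun_add hi0 hi1,
    circleAverage_const]
  have h3 : circleAverage (fun z => 2 * (starRingEnd ℂ a * u z).re) 0 r = 0 := by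
    have := circleAverage_fun_smul (a := (2:ℝ)) (f := fun z => (starRingEnd ℂ a * u z).re)
      (c := 0) (R := r)
    simp only [smul_eq_mul] at this
    rw [this, h2, mul_zero]
  rw [h3, add_zero]

/-- Littlewood's subordination inequality, exponent two, polynomials. -/
lemma littlewood_pe {φ : ℂ → ℂ} (hφ : Schwarz φ) {r : ℝ} (hr : 0 ≤ r) (hr1 : r < 1) (N : ℕ) :
    ∀ c : ℕ → ℂ, circleAverage (fun z => ‖pe c N (φ z)‖ ^ 2) 0 r ≤
      circleAverage (fun z => ‖pe c N z‖ ^ 2) 0 r := by
  have hsub := sphere_subset_ball_one hr1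
  have hφc : ContinuousOn φ (sphere 0 r) := hφ.diff.continuousOn.mono hsub
  induction N with
  | zero => intro c; simp [pe]
  | succ N ih =>
    intro c
    set c' : ℕ → ℂ := fun k => c (k + 1) with hc'
    have hpe : ∀ w, pe c (N + 1) w = c 0 + w * pe c' N w := by
      intro w
      simp only [pe, hc', Finset.sum_range_succ', pow_zero, mul_one, Finset.mul_sum]
      rw [add_comm]
      congr 1
      refine Finset.sum_congr rfl ?_
      intro k _
      ring
    simp_rw [hpe]
    have hd1 : DifferentiableOn ℂ (fun z => φ z * pe c' N (φ z)) (ball 0 1) :=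
      hφ.diff.mul ((pe_differentiable c' N).comp_differentiableOn hφ.diff)
    have hd2 : DifferentiableOn ℂ (fun z => z * pe c' N z) (ball 0 1) :=
      (differentiable_id.mul (pe_differentiable c' N)).differentiableOn
    rw [circleAverage_add_const hr hr1 hd1 (by simp [hφ.zero]) (c 0),
      circleAverage_add_const hr hr1 hd2 (by simp) (c 0)]
    refine add_le_add_right ?_ _
    have hcont1 : ContinuousOn (fun z => ‖pe c' N (φ z)‖ ^ 2) (sphere 0 r) :=
      (((pe_continuous c' N).comp_continuousOn hφc).norm.pow 2)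
    have hcont2 : ContinuousOn (fun z => ‖pe c' N z‖ ^ 2) (sphere 0 r) :=
      ((pe_continuous c' N).norm.pow 2).continuousOn
    have e1 : circleAverage (fun z => ‖φ z * pe c' N (φ z)‖ ^ 2) 0 r ≤
        circleAverage (fun z => r ^ 2 * ‖pe c' N (φ z)‖ ^ 2) 0 r := by
      refine circleAverage_mono ?_ ?_ ?_
      · exact ((hφc.mul ((pe_continuous c' N).comp_continuousOn hφc)).norm.pow 2).circleIntegrable hr
      · exact (continuousOn_const.mul hcont1).circleIntegrable hr
      · intro z hz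
        rw [abs_of_nonneg hr] at hz
        have hz1 : ‖φ z‖ ≤ r := by
          have := hφ.norm_le (hsub hz)
          simp only [mem_sphere_iff_norm, sub_zero] at hz
          rwa [hz] at this
        rw [norm_mul, mul_pow]
        gcongr
    have e2 : circleAverage (fun z => r ^ 2 * ‖pe c' N (φ z)‖ ^ 2) 0 r =
        r ^ 2 * circleAverage (fun z => ‖pe c' N (φ z)‖ ^ 2) 0 r := by
      have := circleAverage_fun_smul (a := (r ^ 2 : ℝ)) (f := fun z => ‖pe c' N (φ z)‖ ^ 2)
        (c := 0) (R := r)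
      simpa only [smul_eq_mul] using this
    have e3 : circleAverage (fun z => ‖z * pe c' N z‖ ^ 2) 0 r =
        r ^ 2 * circleAverage (fun z => ‖pe c' N z‖ ^ 2) 0 r := by
      have := circleAverage_fun_smul (a := (r ^ 2 : ℝ)) (f := fun z => ‖pe c' N z‖ ^ 2)
        (c := 0) (R := r)
      simp only [smul_eq_mul] at this
      rw [← this]
      refine circleAverage_congr_sphere ?_
      intro z hz
      rw [abs_of_nonneg hr] at hz
      simp only [mem_sphere_iff_norm, sub_zero] at hz
      simp only [norm_mul, mul_pow, hz]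
    calc _ ≤ _ := e1
      _ = _ := e2
      _ ≤ r ^ 2 * circleAverage (fun z => ‖pe c' N z‖ ^ 2) 0 r :=
        mul_le_mul_of_nonneg_left (ih c') (by positivity)
      _ = _ := e3.symm

lemma tc_congr_of_order {g₁ g₂ : ℂ → ℂ} (h₁ : AnalyticAt ℂ g₁ 0) (h₂ : AnalyticAt ℂ g₂ 0)
    {m : ℕ} (h : (m : ℕ∞) ≤ analyticOrderAt g₂ 0) {k : ℕ} (hk : k < m) :
    tc (fun z => g₁ z + g₂ z) k = tc g₁ k := by
  have h0 := (natCast_le_analyticOrderAt_iff_iteratedDeriv_eq_zero h₂).mp h k hk
  unfold tc
  congr 1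
  have := iteratedDeriv_fun_add (n := k) (h₁.contDiffAt) (h₂.contDiffAt)
  rw [this, h0, add_zero]

/-- Rogosinski's inequality for polynomials. -/
lemma rogosinski_pe {φ : ℂ → ℂ} (hφ : Schwarz φ) (c : ℕ → ℂ) (N m : ℕ) (hm : m ≤ N) :
    ∑ k ∈ Finset.range m, ‖tc (fun z => pe c N (φ z)) k‖ ^ 2 ≤
      ∑ k ∈ Finset.range m, ‖c k‖ ^ 2 := by
  have h0mem : (0 : ℂ) ∈ ball (0 : ℂ) 1 := by simp
  have hφa : AnalyticAt ℂ φ 0 := hφ.diff.analyticAt (isOpen_ball.mem_nhds h0mem)
  -- coefficients of the truncated polynomial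
  have hcoef : ∀ k < m, tc (fun z => pe c N (φ z)) k = tc (fun z => pe c m (φ z)) k := by
    intro k hk
    have hsplit : (fun z => pe c N (φ z)) = fun z => pe c m (φ z) +
        ∑ j ∈ Finset.Ico m N, c j * φ z ^ j := by
      funext z
      simp only [pe]
      rw [Finset.range_eq_Ico, Finset.range_eq_Ico, Finset.sum_Ico_consecutive _ (Nat.zero_le m) hm]
    rw [hsplit]
    refine tc_congr_of_order (m := m) ?_ ?_ ?_ hk
    · exact ((pe_differentiable c m).analyticAt _).comp hφa
    · fun_prop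
    · have : (fun z => ∑ j ∈ Finset.Ico m N, c j * φ z ^ j) =
          (fun z => φ z ^ m) * (fun z => ∑ j ∈ Finset.Ico m N, c j * φ z ^ (j - m)) := by
        funext z
        simp only [Pi.mul_apply, Finset.mul_sum]
        refine Finset.sum_congr rfl ?_
        intro j hj
        have : m ≤ j := (Finset.mem_Ico.mp hj).1
        rw [mul_left_comm, ← pow_add, Nat.add_sub_cancel' this]
      rw [this, analyticOrderAt_mul (by fun_prop) (by fun_prop)]
      have h1 : (m : ℕ∞) ≤ analyticOrderAt (fun z => φ z ^ m) 0 := by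
        have hpow : (fun z => φ z ^ m) = φ ^ m := rfl
        rw [hpow, analyticOrderAt_pow hφa]
        have : (1 : ℕ∞) ≤ analyticOrderAt φ 0 := by
          have hne : analyticOrderAt φ 0 ≠ 0 := by
            rw [hφa.analyticOrderAt_ne_zero]
            exact hφ.zero
          exact Order.one_le_iff_ne_zero.mpr hne
        calc (m : ℕ∞) = m • (1 : ℕ∞) := by simp
          _ ≤ m • analyticOrderAt φ 0 := by gcongr
      exact h1.trans le_self_add
  have hsum : ∑ k ∈ Finset.range m, ‖tc (fun z => pe c N (φ z)) k‖ ^ 2 =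
      ∑ k ∈ Finset.range m, ‖tc (fun z => pe c m (φ z)) k‖ ^ 2 := by
    refine Finset.sum_congr rfl ?_
    intro k hk
    rw [hcoef k (Finset.mem_range.mp hk)]
  rw [hsum]
  have hineq : ∀ r ∈ Ico (0 : ℝ) 1,
      ∑ k ∈ Finset.range m, ‖tc (fun z => pe c m (φ z)) k‖ ^ 2 * (r ^ 2) ^ k ≤
      ∑ k ∈ Finset.range m, ‖c k‖ ^ 2 * (r ^ 2) ^ k := by
    intro r hr
    have hdiff : DifferentiableOn ℂ (fun z => pe c m (φ z)) (ball 0 1) :=
      (pe_differentiable c m).comp_differentiableOn hφ.diff
    have h1 := parseval hr.1 hr.2 hdiff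
    have h2 := sum_le_hasSum (Finset.range m) (fun k _ => by positivity) h1
    refine h2.trans ((littlewood_pe hφ hr.1 hr.2 m c).trans_eq ?_)
    exact circleAverage_poly c m r
  have hcl : (1 : ℝ) ∈ closure (Ico (0 : ℝ) 1) := by
    rw [closure_Ico zero_ne_one]
    exact ⟨zero_le_one, le_refl 1⟩
  have hfin := ContinuousWithinAt.closure_le (s := Ico (0 : ℝ) 1) (x := 1)
    (f := fun r : ℝ => ∑ k ∈ Finset.range m, ‖tc (fun z => pe c m (φ z)) k‖ ^ 2 * (r ^ 2) ^ k)
    (g := fun r : ℝ => ∑ k ∈ Finset.range m, ‖c k‖ ^ 2 * (r ^ 2) ^ k) hcl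
    (Continuous.continuousWithinAt (by fun_prop)) (Continuous.continuousWithinAt (by fun_prop))
    hineq
  simpa using hfin

/-- Abel summation. -/
lemma abel_nonneg {lam d : ℕ → ℝ} (hlam : ∀ k, 0 ≤ lam k) (hanti : ∀ k, lam (k + 1) ≤ lam k)
    (hS : ∀ m, 0 ≤ ∑ k ∈ Finset.range m, d k) (m : ℕ) :
    0 ≤ ∑ k ∈ Finset.range m, lam k * d k := by
  have key : ∀ m, lam m * ∑ k ∈ Finset.range (m + 1), d k ≤
      ∑ k ∈ Finset.range (m + 1), lam k * d k := by
    intro m
    induction m with
    | zero => simp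
    | succ m ih =>
      rw [Finset.sum_range_succ (fun k => lam k * d k) (m + 1),
        Finset.sum_range_succ d (m + 1), mul_add]
      have h1 : lam (m + 1) * ∑ k ∈ Finset.range (m + 1), d k ≤
          lam m * ∑ k ∈ Finset.range (m + 1), d k :=
        mul_le_mul_of_nonneg_right (hanti m) (hS (m + 1))
      linarith
  cases m with
  | zero => simp
  | succ m => exact le_trans (mul_nonneg (hlam m) (hS (m + 1))) (key m)

/-- Goluzin's inequality for polynomials. -/
lemma goluzin_pe {φ : ℂ → ℂ} (hφ : Schwarz φ) {r : ℝ} (hr : 0 ≤ r) (hr2 : r ≤ 1 / 2)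
    (a : ℕ → ℂ) (N : ℕ) :
    circleAverage (fun z => ‖pe a N (φ z)‖ ^ 2 * ‖deriv φ z‖ ^ 2) 0 r ≤
      circleAverage (fun z => ‖pe a N z‖ ^ 2) 0 r := by
  have hr1 : r < 1 := by linarith
  have hsub := sphere_subset_ball_one hr1
  -- primitive
  set c : ℕ → ℂ := fun k => a (k - 1) / k with hc
  have hc0 : c 0 = 0 := by simp [hc]
  have hcs : ∀ k, c (k + 1) * ((k : ℂ) + 1) = a k := by
    intro k
    have h2 : ((k : ℂ) + 1) ≠ 0 := by exact_mod_cast Nat.succ_ne_zero k
    simp only [hc, Nat.add_sub_cancel]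
    push_cast
    field_simp
  have hpe : ∀ w, HasDerivAt (pe c (N + 1)) (pe a N w) w := by
    intro w
    have h1 : HasDerivAt (fun w => ∑ k ∈ Finset.range (N + 1), c k * w ^ k)
        (∑ k ∈ Finset.range (N + 1), c k * ((k : ℂ) * w ^ (k - 1))) w :=
      HasDerivAt.fun_sum (fun k _ => (hasDerivAt_pow k w).const_mul (c k))
    have h2 : ∑ k ∈ Finset.range (N + 1), c k * ((k : ℂ) * w ^ (k - 1)) = pe a N w := by
      rw [Finset.sum_range_succ']
      simp only [pe, Nat.cast_zero, zero_mul, mul_zero, add_zero, Nat.add_sub_cancel]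
      refine Finset.sum_congr rfl ?_
      intro k _
      rw [← hcs k]
      push_cast
      ring
    rw [← h2]
    exact h1
  set g : ℂ → ℂ := fun z => pe c (N + 1) (φ z) with hg
  have hgd : DifferentiableOn ℂ g (ball 0 1) :=
    (pe_differentiable c (N + 1)).comp_differentiableOn hφ.diff
  have hgderiv : ∀ z ∈ ball (0 : ℂ) 1, deriv g z = pe a N (φ z) * deriv φ z := by
    intro z hz
    have h1 : HasDerivAt φ (deriv φ z) z :=
      (hφ.diff.differentiableAt (isOpen_ball.mem_nhds hz)).hasDerivAt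
    exact ((hpe (φ z)).comp z h1).deriv
  have hg'd : DifferentiableOn ℂ (deriv g) (ball 0 1) := hgd.deriv isOpen_ball
  have hpars := parseval hr hr1 hg'd
  have hlhs : circleAverage (fun z => ‖pe a N (φ z)‖ ^ 2 * ‖deriv φ z‖ ^ 2) 0 r =
      circleAverage (fun z => ‖deriv g z‖ ^ 2) 0 r := by
    refine circleAverage_congr_sphere ?_
    intro z hz
    rw [abs_of_nonneg hr] at hz
    simp only [hgderiv z (hsub hz), norm_mul, mul_pow]
  have hrhs : circleAverage (fun z => ‖pe a N z‖ ^ 2) 0 r =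
      ∑ k ∈ Finset.range N, ‖a k‖ ^ 2 * (r ^ 2) ^ k := circleAverage_poly a N r
  rw [hlhs, hrhs]
  set lam : ℕ → ℝ := fun k => ((k : ℝ) + 1) ^ 2 * (r ^ 2) ^ k with hlam
  have hlam0 : ∀ k, 0 ≤ lam k := fun k => by positivity
  have hanti : ∀ k, lam (k + 1) ≤ lam k := by
    intro k
    simp only [hlam]
    push_cast
    have h1 : ((k : ℝ) + 1 + 1) ^ 2 * r ^ 2 ≤ ((k : ℝ) + 1) ^ 2 := by
      rw [← mul_pow]
      refine pow_le_pow_left₀ (by positivity) ?_ 2
      have hk : (0 : ℝ) ≤ k := Nat.cast_nonneg k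
      nlinarith
    calc ((k : ℝ) + 1 + 1) ^ 2 * (r ^ 2) ^ (k + 1)
        = (((k : ℝ) + 1 + 1) ^ 2 * r ^ 2) * (r ^ 2) ^ k := by ring
      _ ≤ ((k : ℝ) + 1) ^ 2 * (r ^ 2) ^ k := by gcongr
  set b : ℕ → ℂ := fun k => tc g k with hb
  have hb0 : b 0 = 0 := by
    simp [hb, tc, hg, hφ.zero, pe, Finset.sum_range_succ', hc0]
  -- coefficient inequality for all lengths
  have hrog : ∀ m, ∑ k ∈ Finset.range m, ‖b (k + 1)‖ ^ 2 ≤
      ∑ k ∈ Finset.range m, (if k < N then ‖c (k + 1)‖ ^ 2 else 0) := by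
    intro m
    -- use a longer polynomial: extend by zero
    set c' : ℕ → ℂ := fun k => if k < N + 1 then c k else 0 with hc'
    have hpe' : ∀ M, N + 1 ≤ M → ∀ w, pe c' M w = pe c (N + 1) w := by
      intro M hM w
      simp only [pe]
      rw [← Finset.sum_subset (Finset.range_mono hM)]
      · refine Finset.sum_congr rfl ?_
        intro k hk
        simp only [hc', if_pos (Finset.mem_range.mp hk)]
      · intro k _ hk
        simp only [hc', if_neg (fun h => hk (Finset.mem_range.mpr h)), zero_mul]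
    have h1 := rogosinski_pe hφ c' (max (N + 1) (m + 1)) (m + 1) (le_max_right _ _)
    have h2 : (fun z => pe c' (max (N + 1) (m + 1)) (φ z)) = g := by
      funext z
      exact hpe' _ (le_max_left _ _) _
    rw [h2, Finset.sum_range_succ', Finset.sum_range_succ'] at h1
    have h3 : tc g 0 = 0 := hb0
    have h4 : c' 0 = 0 := by simp [hc', hc0]
    rw [h3, h4] at h1
    simp only [norm_zero, ne_eq, OfNat.ofNat_ne_zero, not_false_eq_true, zero_pow,
      add_zero] at h1
    refine h1.trans_eq ?_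
    refine Finset.sum_congr rfl ?_
    intro k _
    by_cases hk : k < N
    · simp [hc', hk]
    · simp [hc', hk]
  have hd : ∀ m, 0 ≤ ∑ k ∈ Finset.range m,
      ((if k < N then ‖c (k + 1)‖ ^ 2 else 0) - ‖b (k + 1)‖ ^ 2) := by
    intro m
    rw [Finset.sum_sub_distrib]
    linarith [hrog m]
  have habel := abel_nonneg hlam0 hanti hd
  -- partial sums of Parseval
  refine hasSum_le_of_sum_le hpars ?_
  intro s
  obtain ⟨m, hm⟩ := Finset.exists_nat_subset_range s
  calc ∑ k ∈ s, ‖tc (deriv g) k‖ ^ 2 * (r ^ 2) ^ k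
      ≤ ∑ k ∈ Finset.range m, ‖tc (deriv g) k‖ ^ 2 * (r ^ 2) ^ k :=
        Finset.sum_le_sum_of_subset_of_nonneg hm (fun k _ _ => by positivity)
    _ = ∑ k ∈ Finset.range m, lam k * ‖b (k + 1)‖ ^ 2 := by
        refine Finset.sum_congr rfl ?_
        intro k _
        rw [tc_deriv, norm_mul, mul_pow]
        have : ‖((k : ℂ) + 1)‖ = (k : ℝ) + 1 := by
          have h : ((k : ℂ) + 1) = (((k : ℝ) + 1 : ℝ) : ℂ) := by push_cast; ring
          rw [h, Complex.norm_real, Real.norm_eq_abs, abs_of_nonneg (by positivity)]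
        rw [this]
        simp only [hlam, hb]
        ring
    _ ≤ ∑ k ∈ Finset.range m, lam k * (if k < N then ‖c (k + 1)‖ ^ 2 else 0) := by
        have := habel m
        simp only [mul_sub, Finset.sum_sub_distrib] at this
        linarith
    _ = ∑ k ∈ Finset.range m, (if k < N then ‖a k‖ ^ 2 * (r ^ 2) ^ k else 0) := by
        refine Finset.sum_congr rfl ?_
        intro k _
        by_cases hk : k < N
        · simp only [hk, if_true, hlam]
          rw [← hcs k, norm_mul, mul_pow]
          have : ‖((k : ℂ) + 1)‖ = (k : ℝ) + 1 := by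
            have h : ((k : ℂ) + 1) = (((k : ℝ) + 1 : ℝ) : ℂ) := by push_cast; ring
            rw [h, Complex.norm_real, Real.norm_eq_abs, abs_of_nonneg (by positivity)]
          rw [this]
          ring
        · simp [hk]
    _ ≤ ∑ k ∈ Finset.range N, ‖a k‖ ^ 2 * (r ^ 2) ^ k := by
        rw [← Finset.sum_filter]
        refine Finset.sum_le_sum_of_subset_of_nonneg ?_ (fun k _ _ => by positivity)
        intro k hk
        exact Finset.mem_range.mpr (Finset.mem_filter.mp hk).2

end Pool.Agent.LibMP140d1b
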