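import Mathlib
import Pool.Agent.Lib_MP_140d1b_an.Goluzin

/-!
The Herglotz (Schwarz) formula on a circle and its derivative.
-/

namespace Pool.Agent.LibMP140d1b

open Complex Metric Set Filter Topology Real

lemma sub_ne_sphere {R : ℝ} {z ζ : ℂ} (hz : z ∈ ball (0 : ℂ) R) (hζ : ζ ∈ sphere (0 : ℂ) R) :
    ζ - z ≠ 0 := by
  rw [sub_ne_zero]
  rintro rfl
  have h1 : ‖ζ‖ = R := by simpa using hζ
  have h2 : ‖ζ‖ < R := by simpa using hz
  linarith

/-- The Schwarz integral formula. -/
lemma schwarz_formula {P : ℂ → ℂ} (hP : DifferentiableOn ℂ P (ball 0 1)) (h0 : P 0 = 1) {R : ℝ}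
    (hR0 : 0 < R) (hR1 : R < 1) {z : ℂ} (hz : z ∈ ball (0 : ℂ) R) :
    circleAverage (fun ζ => herglotzRieszKernel 0 z ζ • ((P ζ).re : ℂ)) 0 R = P z := by
  have hsub := sphere_subset_ball_one hR1
  have hcb : closedBall (0 : ℂ) R ⊆ ball 0 1 := closedBall_subset_ball hR1
  have hPc : ContinuousOn P (sphere 0 R) := hP.continuousOn.mono hsub
  have hPd : DiffContOnCl ℂ P (ball 0 R) := (hP.mono hcb).diffContOnCl_ball subset_rfl
  set K : ℂ → ℂ := herglotzRieszKernel 0 z with hK
  have hKval : ∀ ζ, K ζ = (ζ + z) / (ζ - z) := by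
    intro ζ
    rw [hK, herglotzRieszKernel_def, sub_zero, sub_zero]
  have hKc : ContinuousOn K (sphere 0 R) := by
    have : K = fun ζ => (ζ + z) / (ζ - z) := funext hKval
    rw [this]
    refine ContinuousOn.div (Continuous.continuousOn (by fun_prop))
      (Continuous.continuousOn (by fun_prop)) ?_
    intro ζ hζ
    exact sub_ne_sphere hz hζ
  have hzR : ‖z‖ < R := by simpa using hz
  -- Poisson formula
  have A1 : circleAverage (fun ζ => (((K ζ).re : ℝ) : ℂ) * P ζ) 0 R = P z := by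
    have h := hPd.circleAverage_re_herglotzRieszKernel_smul hz
    have e : (fun ζ => (((K ζ).re : ℝ) : ℂ) * P ζ) =
        ((Complex.re ∘ herglotzRieszKernel 0 z) • P) := by
      funext ζ
      simp [hK]
    rw [e]
    exact h
  -- the conjugate kernel
  have A2 : circleAverage (fun ζ => (starRingEnd ℂ) (K ζ) * P ζ) 0 R = 1 := by
    set Ks : ℂ → ℂ := fun ζ => ((R ^ 2 : ℝ) + (starRingEnd ℂ) z * ζ) /
      ((R ^ 2 : ℝ) - (starRingEnd ℂ) z * ζ) with hKs
    have hne : ∀ ζ ∈ closedBall (0 : ℂ) R, ((R ^ 2 : ℝ) : ℂ) - (starRingEnd ℂ) z * ζ ≠ 0 := by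
      intro ζ hζ h
      have hζR : ‖ζ‖ ≤ R := by simpa using hζ
      have h1 : ((R ^ 2 : ℝ) : ℂ) = (starRingEnd ℂ) z * ζ := by linear_combination h
      have h2 := congrArg norm h1
      rw [norm_mul, RCLike.norm_conj, Complex.norm_real, Real.norm_eq_abs,
        abs_of_nonneg (sq_nonneg R)] at h2
      nlinarith [norm_nonneg z, norm_nonneg ζ]
    have hg : DifferentiableOn ℂ (fun ζ => Ks ζ * P ζ) (closedBall 0 R) := by
      refine DifferentiableOn.mul ?_ (hP.mono hcb)
      refine DifferentiableOn.div ?_ ?_ hne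
      · exact Differentiable.differentiableOn (by fun_prop)
      · exact Differentiable.differentiableOn (by fun_prop)
    have hgc : DiffContOnCl ℂ (fun ζ => Ks ζ * P ζ) (ball 0 |R|) := by
      rw [abs_of_pos hR0]
      exact hg.diffContOnCl_ball subset_rfl
    have h1 := hgc.circleAverage
    have h2 : circleAverage (fun ζ => (starRingEnd ℂ) (K ζ) * P ζ) 0 R =
        circleAverage (fun ζ => Ks ζ * P ζ) 0 R := by
      refine circleAverage_congr_sphere ?_
      intro ζ hζ
      rw [abs_of_pos hR0] at hζ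
      have hζR : ‖ζ‖ = R := by simpa using hζ
      have hζ0 : ζ ≠ 0 := by
        intro h
        rw [h, norm_zero] at hζR
        linarith
      simp only
      congr 1
      have h3 : ζ * (starRingEnd ℂ) ζ = ((R ^ 2 : ℝ) : ℂ) := by
        rw [Complex.mul_conj, Complex.normSq_eq_norm_sq, hζR]
      rw [hKval, map_div₀, map_add, map_sub]
      simp only [hKs]
      have h4 : (starRingEnd ℂ) ζ - (starRingEnd ℂ) z ≠ 0 := by
        rw [← map_sub]
        exact (map_ne_zero _).mpr (sub_ne_sphere hz hζ)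
      have h5 := hne ζ (sphere_subset_closedBall hζ)
      rw [div_eq_div_iff h4 h5, ← h3]
      ring
    rw [h2, h1]
    simp only [hKs, mul_zero, add_zero, sub_zero, h0, mul_one]
    refine div_self ?_
    exact_mod_cast (by positivity : (R ^ 2 : ℝ) ≠ 0)
  have A3 : circleAverage (fun ζ => K ζ * (starRingEnd ℂ) (P ζ)) 0 R = 1 := by
    have i1 : CircleIntegrable (fun ζ => (starRingEnd ℂ) (K ζ) * P ζ) 0 R :=
      ((Complex.continuous_conj.comp_continuousOn hKc).mul hPc).circleIntegrable hR0.le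
    have h := (Complex.conjCLE.toContinuousLinearMap).circleAverage_comp_comm i1
    rw [A2] at h
    have e : (Complex.conjCLE.toContinuousLinearMap) ∘ (fun ζ => (starRingEnd ℂ) (K ζ) * P ζ) =
        fun ζ => K ζ * (starRingEnd ℂ) (P ζ) := by
      funext ζ
      simp
    rw [e] at h
    rw [h]
    simp
  -- combine
  have c1 : ContinuousOn (fun ζ => (((K ζ).re : ℝ) : ℂ) * P ζ) (sphere 0 R) :=
    (Complex.continuous_ofReal.comp_continuousOn (Complex.continuous_re.comp_continuousOn hKc)).mul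
      hPc
  have c2 : ContinuousOn (fun ζ => (starRingEnd ℂ) (K ζ) * P ζ) (sphere 0 R) :=
    (Complex.continuous_conj.comp_continuousOn hKc).mul hPc
  have c3 : ContinuousOn (fun ζ => K ζ * (starRingEnd ℂ) (P ζ)) (sphere 0 R) :=
    hKc.mul (Complex.continuous_conj.comp_continuousOn hPc)
  have e1 : (fun ζ => K ζ • ((P ζ).re : ℂ)) = fun ζ =>
      ((((K ζ).re : ℝ) : ℂ) * P ζ) + ((-(1 / 2) : ℂ) • ((starRingEnd ℂ) (K ζ) * P ζ) +
        ((1 / 2 : ℂ)) • (K ζ * (starRingEnd ℂ) (P ζ))) := by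
    funext ζ
    have h1 : (((P ζ).re : ℝ) : ℂ) = (P ζ + (starRingEnd ℂ) (P ζ)) / 2 := by
      rw [Complex.add_conj]
      push_cast
      ring
    have h2 : (((K ζ).re : ℝ) : ℂ) = (K ζ + (starRingEnd ℂ) (K ζ)) / 2 := by
      rw [Complex.add_conj]
      push_cast
      ring
    rw [h1, h2]
    simp only [smul_eq_mul]
    ring
  rw [e1]
  have i1 := c1.circleIntegrable hR0.le
  have c2' : ContinuousOn (fun ζ => (-(1 / 2) : ℂ) • ((starRingEnd ℂ) (K ζ) * P ζ))
      (sphere 0 R) := by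
    simp only [smul_eq_mul]
    exact continuousOn_const.mul c2
  have c3' : ContinuousOn (fun ζ => ((1 / 2 : ℂ)) • (K ζ * (starRingEnd ℂ) (P ζ)))
      (sphere 0 R) := by
    simp only [smul_eq_mul]
    exact continuousOn_const.mul c3
  have i2 := c2'.circleIntegrable hR0.le
  have i3 := c3'.circleIntegrable hR0.le
  have i23 : CircleIntegrable (fun ζ => (-(1 / 2) : ℂ) • ((starRingEnd ℂ) (K ζ) * P ζ) +
      ((1 / 2 : ℂ)) • (K ζ * (starRingEnd ℂ) (P ζ))) 0 R := i2.add i3
  rw [circleAverage_fun_add i1 i23, circleAverage_fun_add i2 i3, circleAverage_fun_smul,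
    circleAverage_fun_smul, A1, A2, A3]
  simp

/-- The derivative of the Schwarz formula. -/
lemma schwarz_formula_deriv {P : ℂ → ℂ} (hP : DifferentiableOn ℂ P (ball 0 1)) (h0 : P 0 = 1)
    {R : ℝ} (hR0 : 0 < R) (hR1 : R < 1) {z : ℂ} (hz : z ∈ ball (0 : ℂ) R) :
    circleAverage (fun ζ => (2 * ζ / (ζ - z) ^ 2) • ((P ζ).re : ℂ)) 0 R = deriv P z := by
  have hsub := sphere_subset_ball_one hR1
  have hPc : ContinuousOn P (sphere 0 R) := hP.continuousOn.mono hsub
  have hg : CircleIntegrable (fun ζ => ((P ζ).re : ℂ)) 0 R :=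
    (Complex.continuous_ofReal.comp_continuousOn
      (Complex.continuous_re.comp_continuousOn hPc)).circleIntegrable hR0.le
  have h1 := hasDerivAt_circleAverage_herglotzRieszKernel_smul hg hz
  have h2 : (fun w => circleAverage (fun ζ => herglotzRieszKernel 0 w ζ • ((P ζ).re : ℂ)) 0 R)
      =ᶠ[𝓝 z] P := by
    filter_upwards [isOpen_ball.mem_nhds hz] with w hw
    exact schwarz_formula hP h0 hR0 hR1 hw
  have h3 := h1.congr_of_eventuallyEq h2.symm
  exact h3.deriv.symm

end Pool.Agent.LibMP140d1b
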