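import Mathlib

/-!
The Herglotz kernels of `(zP)'` and `zP'` on a circle.
-/

namespace Pool.Agent.LibMP140d1b

open Complex

lemma inv_sq_re_im {u : ℂ} (hD : 0 < Complex.normSq (1 - u)) :
    (1 / (1 - u) ^ 2).re = ((1 - u.re) ^ 2 - u.im ^ 2) / Complex.normSq (1 - u) ^ 2 ∧
      (1 / (1 - u) ^ 2).im = 2 * (1 - u.re) * u.im / Complex.normSq (1 - u) ^ 2 := by
  have hne : (1 - u) ≠ 0 := Complex.normSq_pos.mp hD
  have h1 : 1 / (1 - u) ^ 2 = (starRingEnd ℂ) (1 - u) ^ 2 /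
      ((Complex.normSq (1 - u) ^ 2 : ℝ) : ℂ) := by
    have h2 : (1 - u) * (starRingEnd ℂ) (1 - u) = ((Complex.normSq (1 - u) : ℝ) : ℂ) :=
      Complex.mul_conj _
    have h3 : ((Complex.normSq (1 - u) ^ 2 : ℝ) : ℂ) = ((1 - u) * (starRingEnd ℂ) (1 - u)) ^ 2 := by
      rw [h2]; push_cast; ring
    rw [h3, mul_pow]
    have h4 : (starRingEnd ℂ) (1 - u) ≠ 0 := (map_ne_zero _).mpr hne
    field_simp
  rw [h1, Complex.div_ofReal_re, Complex.div_ofReal_im]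
  constructor
  · congr 1
    simp [pow_two]
  · congr 1
    simp [pow_two]
    ring

/-- Lower bound for the kernel of `(zP)'`. -/
lemma kernel_re {R : ℝ} (hR0 : 0.41 ≤ R) (hR1 : R ≤ 0.42) (hR2 : 1 ≤ R ^ 2 + 2 * R) {u : ℂ}
    (hu : ‖u‖ = R) : 2 * (1 - 2 * R) / (R * (1 + R) ^ 4) * ‖(R : ℂ) + u‖ ^ 2 ≤
      (2 / (1 - u) ^ 2 - 1).re + (1 - 2 / (1 + R) ^ 2) := by
  obtain ⟨t, ht⟩ : ∃ t, t = u.re := ⟨_, rfl⟩
  have hn : t ^ 2 + u.im ^ 2 = R ^ 2 := by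
    rw [← hu, Complex.sq_norm, Complex.normSq_apply, ht]
    ring
  have htR : |t| ≤ R := by
    rw [ht, ← hu]
    exact Complex.abs_re_le_norm u
  have ht1 := (abs_le.mp htR).1
  have ht2 := (abs_le.mp htR).2
  have hW : ‖(R : ℂ) + u‖ ^ 2 = 2 * R * (R + t) := by
    rw [Complex.sq_norm, Complex.normSq_apply]
    simp only [Complex.add_re, Complex.ofReal_re, Complex.add_im, Complex.ofReal_im, zero_add,
      ← ht]
    linear_combination hn
  have hDv : Complex.normSq (1 - u) = 1 - 2 * t + R ^ 2 := by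
    rw [Complex.normSq_apply]
    simp only [Complex.sub_re, Complex.one_re, Complex.sub_im, Complex.one_im, zero_sub, ← ht]
    linear_combination hn
  obtain ⟨D, hD⟩ : ∃ D, D = 1 - 2 * t + R ^ 2 := ⟨_, rfl⟩
  have hD0 : 0 < D := by rw [hD]; nlinarith
  have hDle : D ≤ (1 + R) ^ 2 := by rw [hD]; nlinarith
  have h1 := (inv_sq_re_im (u := u) (by rw [hDv, ← hD]; exact hD0)).1
  have h2 : (2 / (1 - u) ^ 2 - 1).re = 2 * (1 / (1 - u) ^ 2).re - 1 := by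
    have : 2 / (1 - u) ^ 2 = 2 * (1 / (1 - u) ^ 2) := by ring
    rw [this, Complex.sub_re, Complex.one_re]
    simp
  rw [h2, h1, hW, hDv, ← hD, ← ht]
  have him : u.im ^ 2 = R ^ 2 - t ^ 2 := by linarith
  rw [him]
  -- v = 1 + t / R, i.e. R v = R + t
  obtain ⟨x, hx⟩ : ∃ x, x = R + t := ⟨_, rfl⟩
  have hx0 : 0 ≤ x := by rw [hx]; linarith
  have hRpos : 0 < R := by linarith
  have h1R : 0 < 1 + R := by linarith
  have key : 2 * (((1 - t) ^ 2 - (R ^ 2 - t ^ 2)) / D ^ 2) - 2 / (1 + R) ^ 2 =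
      4 * x * ((1 - 2 * R) * (1 + R) ^ 2 + (R ^ 2 + 2 * R - 1) * x) / ((1 + R) ^ 2 * D ^ 2) := by
    have : t = x - R := by rw [hx]; ring
    rw [hD, this]
    have hne : (1 : ℝ) - 2 * (x - R) + R ^ 2 ≠ 0 := by
      rw [← this, ← hD]; exact hD0.ne'
    field_simp
    ring
  have h3 : 2 * (1 - 2 * R) / (R * (1 + R) ^ 4) * (2 * R * (R + t)) =
      4 * x * ((1 - 2 * R) * (1 + R) ^ 2) / ((1 + R) ^ 2 * ((1 + R) ^ 2) ^ 2) := by
    rw [hx]
    field_simp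
    ring
  have h4 : 4 * x * ((1 - 2 * R) * (1 + R) ^ 2) / ((1 + R) ^ 2 * ((1 + R) ^ 2) ^ 2) ≤
      4 * x * ((1 - 2 * R) * (1 + R) ^ 2) / ((1 + R) ^ 2 * D ^ 2) := by
    refine div_le_div_of_nonneg_left ?_ (by positivity) ?_
    · have : 0 ≤ 1 - 2 * R := by linarith
      positivity
    · refine mul_le_mul_of_nonneg_left ?_ (by positivity)
      exact pow_le_pow_left₀ hD0.le hDle 2
  have h5 : 4 * x * ((1 - 2 * R) * (1 + R) ^ 2) / ((1 + R) ^ 2 * D ^ 2) ≤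
      4 * x * ((1 - 2 * R) * (1 + R) ^ 2 + (R ^ 2 + 2 * R - 1) * x) / ((1 + R) ^ 2 * D ^ 2) := by
    refine div_le_div_of_nonneg_right ?_ (by positivity)
    refine mul_le_mul_of_nonneg_left ?_ (by positivity)
    have : 0 ≤ (R ^ 2 + 2 * R - 1) * x := mul_nonneg (by linarith) hx0
    linarith
  rw [h3]
  linarith

/-- Upper bound for the imaginary part of the kernel of `zP'`. -/
lemma kernel_im {R : ℝ} (hR0 : 0.41 ≤ R) (hR1 : R ≤ 0.42) {u : ℂ} (hu : ‖u‖ = R) :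
    (2 * u / (1 - u) ^ 2).im ^ 2 ≤ 313 * ‖(R : ℂ) + u‖ ^ 2 := by
  obtain ⟨t, ht⟩ : ∃ t, t = u.re := ⟨_, rfl⟩
  have hn : t ^ 2 + u.im ^ 2 = R ^ 2 := by
    rw [← hu, Complex.sq_norm, Complex.normSq_apply, ht]
    ring
  have htR : |t| ≤ R := by
    rw [ht, ← hu]
    exact Complex.abs_re_le_norm u
  have ht1 := (abs_le.mp htR).1
  have ht2 := (abs_le.mp htR).2
  have hW : ‖(R : ℂ) + u‖ ^ 2 = 2 * R * (R + t) := by
    rw [Complex.sq_norm, Complex.normSq_apply]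
    simp only [Complex.add_re, Complex.ofReal_re, Complex.add_im, Complex.ofReal_im, zero_add,
      ← ht]
    linear_combination hn
  have hDv : Complex.normSq (1 - u) = 1 - 2 * t + R ^ 2 := by
    rw [Complex.normSq_apply]
    simp only [Complex.sub_re, Complex.one_re, Complex.sub_im, Complex.one_im, zero_sub, ← ht]
    linear_combination hn
  obtain ⟨D, hD⟩ : ∃ D, D = 1 - 2 * t + R ^ 2 := ⟨_, rfl⟩
  have hDge : (1 - R) ^ 2 ≤ D := by rw [hD]; nlinarith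
  have hD0 : 0 < D := by
    have : 0 < (1 - R) ^ 2 := by nlinarith
    linarith
  have h1 := inv_sq_re_im (u := u) (by rw [hDv, ← hD]; exact hD0)
  have h2 : (2 * u / (1 - u) ^ 2).im = 2 * (1 - R ^ 2) * u.im / D ^ 2 := by
    have : 2 * u / (1 - u) ^ 2 = 2 * u * (1 / (1 - u) ^ 2) := by ring
    rw [this, Complex.mul_im, h1.1, h1.2, hDv, ← hD, ← ht]
    simp only [Complex.mul_re, Complex.mul_im, Complex.re_ofNat, Complex.im_ofNat, zero_mul,
      sub_zero, add_zero, ← ht]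
    rw [← mul_div_assoc, ← mul_div_assoc, ← add_div]
    congr 1
    linear_combination (-2 * u.im) * hn
  rw [h2, hW, div_pow, div_le_iff₀ (by positivity)]
  have him : u.im ^ 2 = (R - t) * (R + t) := by linear_combination hn
  have h3 : (2 * (1 - R ^ 2) * u.im) ^ 2 ≤ 4 * (2 * R * (R + t)) := by
    have e : (2 * (1 - R ^ 2) * u.im) ^ 2 = 4 * ((1 - R ^ 2) ^ 2 * ((R - t) * (R + t))) := by
      rw [← him]; ring
    rw [e]
    have h4 : (1 - R ^ 2) ^ 2 ≤ 1 := pow_le_one₀ (by nlinarith) (by nlinarith)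
    have h5 : 0 ≤ (R - t) * (R + t) := mul_nonneg (by linarith) (by linarith)
    have h6 : (1 - R ^ 2) ^ 2 * ((R - t) * (R + t)) ≤ 1 * ((R - t) * (R + t)) :=
      mul_le_mul_of_nonneg_right h4 h5
    have h7 : (R - t) * (R + t) ≤ 2 * R * (R + t) :=
      mul_le_mul_of_nonneg_right (by linarith) (by linarith)
    linarith
  have h8 : 4 ≤ 313 * (D ^ 2) ^ 2 := by
    have h9 : (0.58 : ℝ) ^ 2 ≤ D := le_trans (pow_le_pow_left₀ (by norm_num) (by linarith) 2) hDge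
    have h10 : ((0.58 : ℝ) ^ 2) ^ 4 ≤ D ^ 4 := pow_le_pow_left₀ (by norm_num) h9 4
    have h11 : (D ^ 2) ^ 2 = D ^ 4 := by ring
    rw [h11]
    have h12 : (4 : ℝ) ≤ 313 * ((0.58 : ℝ) ^ 2) ^ 4 := by norm_num
    linarith
  have h13 : 0 ≤ 2 * R * (R + t) := mul_nonneg (by linarith) (by linarith)
  nlinarith [mul_le_mul_of_nonneg_right h8 h13]

end Pool.Agent.LibMP140d1b
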