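import Mathlib
import Pool.Agent.Lib_MP_140d1b_an.AsyHerglotz
import Pool.Agent.Lib_MP_140d1b_an.AsyKernel
import Pool.Agent.Lib_MP_140d1b_an.AsyDeriv

/-!
The pointwise majorant of `|φ'|^p` by a mixture of Poisson kernels.
-/

namespace Pool.Agent.LibMP140d1b

open Complex Metric Set Filter Topology Real MeasureTheory

lemma norm_circleAverage_le {f : ℂ → ℂ} {g : ℂ → ℝ} {R : ℝ} (hR : 0 ≤ R)
    (hg : CircleIntegrable g 0 R) (h : ∀ ζ ∈ sphere (0 : ℂ) R, ‖f ζ‖ ≤ g ζ) :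
    ‖circleAverage f 0 R‖ ≤ circleAverage g 0 R := by
  rw [circleAverage_def, circleAverage_def, norm_smul, smul_eq_mul, Real.norm_eq_abs,
    abs_of_pos (by positivity)]
  refine mul_le_mul_of_nonneg_left ?_ (by positivity)
  refine intervalIntegral.norm_integral_le_of_norm_le (by positivity) ?_ hg
  refine Eventually.of_forall fun θ _ => h _ ?_
  exact circleMap_mem_sphere 0 hR θ

lemma circleAverage_mul_const' (f : ℂ → ℝ) (a : ℝ) (R : ℝ) :
    circleAverage (fun ζ => a * f ζ) 0 R = a * circleAverage f 0 R := by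
  have := circleAverage_fun_smul (a := a) (f := f) (c := 0) (R := R)
  simpa only [smul_eq_mul] using this

/-- Jensen's inequality for squares. -/
lemma jensen_sq {f w : ℂ → ℝ} {R : ℝ} (hR : 0 ≤ R) (hf : ContinuousOn f (sphere 0 R))
    (hw : ContinuousOn w (sphere 0 R)) (hw0 : ∀ ζ ∈ sphere (0 : ℂ) R, 0 ≤ w ζ)
    (hw1 : circleAverage w 0 R = 1) :
    circleAverage (fun ζ => f ζ * w ζ) 0 R ^ 2 ≤ circleAverage (fun ζ => f ζ ^ 2 * w ζ) 0 R := by
  set a := circleAverage (fun ζ => f ζ * w ζ) 0 R with ha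
  have i1 : CircleIntegrable (fun ζ => f ζ ^ 2 * w ζ) 0 R :=
    ((hf.pow 2).mul hw).circleIntegrable hR
  have i2 : CircleIntegrable (fun ζ => 2 * a * (f ζ * w ζ) - a ^ 2 * w ζ) 0 R :=
    ((continuousOn_const.mul (hf.mul hw)).sub (continuousOn_const.mul hw)).circleIntegrable hR
  have h1 : circleAverage (fun ζ => 2 * a * (f ζ * w ζ) - a ^ 2 * w ζ) 0 R ≤
      circleAverage (fun ζ => f ζ ^ 2 * w ζ) 0 R := by
    refine circleAverage_mono i2 i1 ?_
    intro ζ hζ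
    rw [abs_of_nonneg hR] at hζ
    have h2 := mul_nonneg (sq_nonneg (f ζ - a)) (hw0 ζ hζ)
    have e : (f ζ - a) ^ 2 * w ζ = f ζ ^ 2 * w ζ - (2 * a * (f ζ * w ζ) - a ^ 2 * w ζ) := by ring
    rw [e] at h2
    linarith
  have i3 : CircleIntegrable (fun ζ => 2 * a * (f ζ * w ζ)) 0 R :=
    (continuousOn_const.mul (hf.mul hw)).circleIntegrable hR
  have i4 : CircleIntegrable (fun ζ => a ^ 2 * w ζ) 0 R :=
    (continuousOn_const.mul hw).circleIntegrable hR
  rw [circleAverage_fun_sub i3 i4, circleAverage_mul_const', circleAverage_mul_const', hw1,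
    ← ha] at h1
  linarith

/-- Jensen's inequality for `1/(1+x)`. -/
lemma jensen_inv {f w : ℂ → ℝ} {R : ℝ} (hR : 0 ≤ R) (hf : ContinuousOn f (sphere 0 R))
    (hf0 : ∀ ζ ∈ sphere (0 : ℂ) R, 0 ≤ f ζ)
    (hw : ContinuousOn w (sphere 0 R)) (hw0 : ∀ ζ ∈ sphere (0 : ℂ) R, 0 ≤ w ζ)
    (hw1 : circleAverage w 0 R = 1) :
    1 / (1 + circleAverage (fun ζ => f ζ * w ζ) 0 R) ≤
      circleAverage (fun ζ => 1 / (1 + f ζ) * w ζ) 0 R := by
  set a := circleAverage (fun ζ => f ζ * w ζ) 0 R with ha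
  have ha0 : 0 ≤ a := by
    rw [ha]
    refine circleAverage_nonneg_of_nonneg ?_
    intro ζ hζ
    rw [abs_of_nonneg hR] at hζ
    exact mul_nonneg (hf0 ζ hζ) (hw0 ζ hζ)
  have i1 : CircleIntegrable (fun ζ => 1 / (1 + f ζ) * w ζ) 0 R := by
    refine (ContinuousOn.mul ?_ hw).circleIntegrable hR
    refine continuousOn_const.div (continuousOn_const.add hf) ?_
    intro ζ hζ
    have := hf0 ζ hζ
    linarith
  have i3 : CircleIntegrable (fun ζ => (2 / (1 + a) - 1 / (1 + a) ^ 2) * w ζ) 0 R :=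
    (continuousOn_const.mul hw).circleIntegrable hR
  have i4 : CircleIntegrable (fun ζ => 1 / (1 + a) ^ 2 * (f ζ * w ζ)) 0 R :=
    (continuousOn_const.mul (hf.mul hw)).circleIntegrable hR
  have h1 : circleAverage (fun ζ => (2 / (1 + a) - 1 / (1 + a) ^ 2) * w ζ -
      1 / (1 + a) ^ 2 * (f ζ * w ζ)) 0 R ≤ circleAverage (fun ζ => 1 / (1 + f ζ) * w ζ) 0 R := by
    refine circleAverage_mono (i3.sub i4) i1 ?_
    intro ζ hζ
    rw [abs_of_nonneg hR] at hζ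
    have hf' := hf0 ζ hζ
    have h2 : 2 / (1 + a) - 1 / (1 + a) ^ 2 - 1 / (1 + a) ^ 2 * f ζ ≤ 1 / (1 + f ζ) := by
      have e : 1 / (1 + f ζ) - (2 / (1 + a) - 1 / (1 + a) ^ 2 - 1 / (1 + a) ^ 2 * f ζ) =
          (f ζ - a) ^ 2 / ((1 + f ζ) * (1 + a) ^ 2) := by
        field_simp
        ring
      have h3 : 0 ≤ (f ζ - a) ^ 2 / ((1 + f ζ) * (1 + a) ^ 2) := by positivity
      linarith
    have h4 := mul_le_mul_of_nonneg_right h2 (hw0 ζ hζ)
    have e2 : (2 / (1 + a) - 1 / (1 + a) ^ 2 - 1 / (1 + a) ^ 2 * f ζ) * w ζ =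
      (2 / (1 + a) - 1 / (1 + a) ^ 2) * w ζ - 1 / (1 + a) ^ 2 * (f ζ * w ζ) := by ring
    rw [e2] at h4
    exact h4
  rw [circleAverage_fun_sub i3 i4, circleAverage_mul_const', circleAverage_mul_const', hw1,
    ← ha] at h1
  refine le_trans (le_of_eq ?_) h1
  field_simp
  ring

/-- The data attached to a point `z` with `|z| = R R'`. -/
lemma herglotz_data {P : ℂ → ℂ} (hPd : DifferentiableOn ℂ P (ball 0 1)) (hP0 : P 0 = 1)
    (hPre : ∀ z ∈ ball (0 : ℂ) 1, 0 ≤ (P z).re) {R R' : ℝ} (hR0 : 0.41 ≤ R) (hR1 : R ≤ 0.42)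
    (hR2 : 1 ≤ R ^ 2 + 2 * R) (hR'0 : 0 < R') (hR'1 : R' < 1) {z : ℂ} (hz : ‖z‖ = R * R') :
    circleAverage (fun ζ => (P ζ).re) 0 R' = 1 ∧ ‖P z‖ ≤ 2.5 ∧ ‖z * deriv P z‖ ≤ 2.5 ∧
    2 * R * (1 - 2 * R) / (1 + R) ^ 4 *
      circleAverage (fun ζ => ‖z + R * ζ‖ ^ 2 / (R * R') ^ 2 * (P ζ).re) 0 R' ≤
        (P z + z * deriv P z).re + (1 - 2 / (1 + R) ^ 2) ∧
    (z * deriv P z).im ^ 2 ≤
      56 * circleAverage (fun ζ => ‖z + R * ζ‖ ^ 2 / (R * R') ^ 2 * (P ζ).re) 0 R' := by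
  have hsub := sphere_subset_ball_one hR'1
  have hcb : closedBall (0 : ℂ) R' ⊆ ball 0 1 := closedBall_subset_ball hR'1
  have hPc : ContinuousOn P (sphere 0 R') := hPd.continuousOn.mono hsub
  have hPrc : ContinuousOn (fun ζ => (P ζ).re) (sphere 0 R') :=
    Complex.continuous_re.comp_continuousOn hPc
  have hw0 : ∀ ζ ∈ sphere (0 : ℂ) R', 0 ≤ (P ζ).re := fun ζ hζ => hPre ζ (hsub hζ)
  have hRpos : 0 < R := by linarith
  have hzb : z ∈ ball (0 : ℂ) R' := by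
    rw [mem_ball, dist_zero_right, hz]
    exact mul_lt_of_lt_one_left hR'0 (by linarith)
  -- the mean value
  have hmean : circleAverage (fun ζ => (P ζ).re) 0 R' = 1 := by
    have h1 : DiffContOnCl ℂ P (ball 0 |R'|) := by
      rw [abs_of_pos hR'0]
      exact (hPd.mono hcb).diffContOnCl_ball subset_rfl
    have h2 := Complex.reCLM.circleAverage_comp_comm (hPc.circleIntegrable hR'0.le)
    rw [h1.circleAverage, hP0] at h2
    simpa [Function.comp_def] using h2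
  -- continuity of kernels
  have hK1c : ContinuousOn (fun ζ => (ζ + z) / (ζ - z)) (sphere 0 R') := by
    refine ContinuousOn.div (Continuous.continuousOn (by fun_prop))
      (Continuous.continuousOn (by fun_prop)) ?_
    intro ζ hζ
    exact sub_ne_sphere hzb hζ
  have hK2c : ContinuousOn (fun ζ => z * (2 * ζ / (ζ - z) ^ 2)) (sphere 0 R') := by
    refine continuousOn_const.mul (ContinuousOn.div (Continuous.continuousOn (by fun_prop))
      (Continuous.continuousOn (by fun_prop)) ?_)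
    intro ζ hζ
    exact pow_ne_zero 2 (sub_ne_sphere hzb hζ)
  have hPrcc : ContinuousOn (fun ζ => (((P ζ).re : ℝ) : ℂ)) (sphere 0 R') :=
    Complex.continuous_ofReal.comp_continuousOn hPrc
  -- representation of `P z` and of `z P' z`
  have f1 : circleAverage (fun ζ => (ζ + z) / (ζ - z) * (((P ζ).re : ℝ) : ℂ)) 0 R' = P z := by
    have h := schwarz_formula hPd hP0 hR'0 hR'1 hzb
    simp only [herglotzRieszKernel_def, sub_zero, smul_eq_mul] at h
    exact h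
  have f2 : circleAverage (fun ζ => z * (2 * ζ / (ζ - z) ^ 2) * (((P ζ).re : ℝ) : ℂ)) 0 R' =
      z * deriv P z := by
    have h := schwarz_formula_deriv hPd hP0 hR'0 hR'1 hzb
    rw [← h, ← smul_eq_mul, ← circleAverage_fun_smul]
    congr 1
    funext ζ
    simp only [smul_eq_mul]
    ring
  have i1 : CircleIntegrable (fun ζ => (ζ + z) / (ζ - z) * (((P ζ).re : ℝ) : ℂ)) 0 R' :=
    (hK1c.mul hPrcc).circleIntegrable hR'0.le
  have i2 : CircleIntegrable (fun ζ => z * (2 * ζ / (ζ - z) ^ 2) * (((P ζ).re : ℝ) : ℂ)) 0 R' :=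
    (hK2c.mul hPrcc).circleIntegrable hR'0.le
  -- the variable `u = z / ζ`
  have hu : ∀ ζ ∈ sphere (0 : ℂ) R', ζ ≠ 0 ∧ ‖z / ζ‖ = R := by
    intro ζ hζ
    have hζR : ‖ζ‖ = R' := by simpa using hζ
    refine ⟨?_, ?_⟩
    · intro h
      rw [h, norm_zero] at hζR
      linarith
    · rw [norm_div, hz, hζR]
      field_simp
  have hu1 : ∀ ζ ∈ sphere (0 : ℂ) R', (ζ + z) / (ζ - z) = (1 + z / ζ) / (1 - z / ζ) := by
    intro ζ hζ
    have h1 := (hu ζ hζ).1
    have h2 := sub_ne_sphere hzb hζ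
    have h3 : 1 - z / ζ ≠ 0 := by
      intro h
      apply h2
      field_simp at h
      linear_combination h
    rw [div_eq_div_iff h2 h3]
    field_simp
  have hu2 : ∀ ζ ∈ sphere (0 : ℂ) R', z * (2 * ζ / (ζ - z) ^ 2) =
      2 * (z / ζ) / (1 - z / ζ) ^ 2 := by
    intro ζ hζ
    have h1 := (hu ζ hζ).1
    have h2 := sub_ne_sphere hzb hζ
    have h3 : (1 - z / ζ) = (ζ - z) / ζ := by field_simp
    rw [h3]
    field_simp
  have hu3 : ∀ ζ ∈ sphere (0 : ℂ) R', ‖(R : ℂ) + z / ζ‖ ^ 2 =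
      R ^ 2 * (‖z + R * ζ‖ ^ 2 / (R * R') ^ 2) := by
    intro ζ hζ
    have h1 := (hu ζ hζ).1
    have hζR : ‖ζ‖ = R' := by simpa using hζ
    have h2 : (R : ℂ) + z / ζ = (z + R * ζ) / ζ := by field_simp; ring
    rw [h2, norm_div, hζR]
    field_simp
  have hden : ∀ ζ ∈ sphere (0 : ℂ) R', 0.58 ≤ ‖1 - z / ζ‖ := by
    intro ζ hζ
    have h1 := norm_sub_norm_le (1 : ℂ) (z / ζ)
    rw [norm_one, (hu ζ hζ).2] at h1
    linarith
  -- the weight
  have hwc : ContinuousOn (fun ζ => ‖z + R * ζ‖ ^ 2 / (R * R') ^ 2) (sphere 0 R') :=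
    Continuous.continuousOn (by fun_prop)
  set wb := circleAverage (fun ζ => ‖z + R * ζ‖ ^ 2 / (R * R') ^ 2 * (P ζ).re) 0 R' with hwb
  have iw : CircleIntegrable (fun ζ => ‖z + R * ζ‖ ^ 2 / (R * R') ^ 2 * (P ζ).re) 0 R' :=
    (hwc.mul hPrc).circleIntegrable hR'0.le
  have iP : CircleIntegrable (fun ζ => 2.5 * (P ζ).re) 0 R' :=
    (continuousOn_const.mul hPrc).circleIntegrable hR'0.le
  refine ⟨hmean, ?_, ?_, ?_, ?_⟩
  · rw [← f1]
    refine (norm_circleAverage_le hR'0.le iP ?_).trans ?_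
    · intro ζ hζ
      rw [norm_mul, Complex.norm_real, Real.norm_eq_abs, abs_of_nonneg (hw0 ζ hζ), hu1 ζ hζ,
        norm_div]
      refine mul_le_mul_of_nonneg_right ?_ (hw0 ζ hζ)
      have h1 := norm_add_le (1 : ℂ) (z / ζ)
      rw [norm_one, (hu ζ hζ).2] at h1
      have h2 := hden ζ hζ
      rw [div_le_iff₀ (by linarith)]
      linarith
    · rw [circleAverage_mul_const', hmean, mul_one]
  · rw [← f2]
    refine (norm_circleAverage_le hR'0.le iP ?_).trans ?_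
    · intro ζ hζ
      rw [norm_mul, Complex.norm_real, Real.norm_eq_abs, abs_of_nonneg (hw0 ζ hζ), hu2 ζ hζ,
        norm_div, norm_mul, norm_pow, (hu ζ hζ).2]
      refine mul_le_mul_of_nonneg_right ?_ (hw0 ζ hζ)
      have h2 := hden ζ hζ
      have h3 : (0.58 : ℝ) ^ 2 ≤ ‖1 - z / ζ‖ ^ 2 := pow_le_pow_left₀ (by norm_num) h2 2
      have h4 : ‖(2 : ℂ)‖ = 2 := by norm_num
      rw [h4, div_le_iff₀ (by linarith)]
      norm_num at h3 ⊢
      linarith
    · rw [circleAverage_mul_const', hmean, mul_one]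
  · have h1 : (P z + z * deriv P z).re + (1 - 2 / (1 + R) ^ 2) =
        circleAverage (fun ζ => (((ζ + z) / (ζ - z) + z * (2 * ζ / (ζ - z) ^ 2)).re +
          (1 - 2 / (1 + R) ^ 2)) * (P ζ).re) 0 R' := by
      have h2 := Complex.reCLM.circleAverage_comp_comm (i1.add i2)
      rw [circleAverage_add i1 i2, f1, f2] at h2
      have h3 : (P z + z * deriv P z).re = circleAverage
          (fun ζ => ((ζ + z) / (ζ - z) + z * (2 * ζ / (ζ - z) ^ 2)).re * (P ζ).re) 0 R' := by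
        rw [show (P z + z * deriv P z).re = Complex.reCLM (P z + z * deriv P z) from rfl, ← h2]
        congr 1
        funext ζ
        simp only [Function.comp_apply, Pi.add_apply, Complex.reCLM_apply, ← add_mul,
          Complex.re_mul_ofReal]
      have c1 : ContinuousOn (fun ζ => ((ζ + z) / (ζ - z) + z * (2 * ζ / (ζ - z) ^ 2)).re *
          (P ζ).re) (sphere 0 R') :=
        (Complex.continuous_re.comp_continuousOn (hK1c.add hK2c)).mul hPrc
      have i3 := c1.circleIntegrable hR'0.le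
      have i4 : CircleIntegrable (fun ζ => (1 - 2 / (1 + R) ^ 2) * (P ζ).re) 0 R' :=
        (continuousOn_const.mul hPrc).circleIntegrable hR'0.le
      have h4 : (fun ζ => (((ζ + z) / (ζ - z) + z * (2 * ζ / (ζ - z) ^ 2)).re +
          (1 - 2 / (1 + R) ^ 2)) * (P ζ).re) = fun ζ =>
          ((ζ + z) / (ζ - z) + z * (2 * ζ / (ζ - z) ^ 2)).re * (P ζ).re +
            (1 - 2 / (1 + R) ^ 2) * (P ζ).re := by
        funext ζ
        ring
      rw [h4, circleAverage_fun_add i3 i4, ← h3, circleAverage_mul_const', hmean, mul_one]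
    rw [h1, hwb, ← circleAverage_mul_const']
    have c2 : ContinuousOn (fun ζ => (((ζ + z) / (ζ - z) + z * (2 * ζ / (ζ - z) ^ 2)).re +
          (1 - 2 / (1 + R) ^ 2)) * (P ζ).re) (sphere 0 R') :=
      ((Complex.continuous_re.comp_continuousOn (hK1c.add hK2c)).add continuousOn_const).mul hPrc
    refine circleAverage_mono ((continuousOn_const.mul (hwc.mul hPrc)).circleIntegrable hR'0.le)
      (c2.circleIntegrable hR'0.le) ?_
    intro ζ hζ
    rw [abs_of_pos hR'0] at hζ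
    rw [← mul_assoc]
    refine mul_le_mul_of_nonneg_right ?_ (hw0 ζ hζ)
    have h5 := kernel_re hR0 hR1 hR2 (hu ζ hζ).2
    have hne : 1 - z / ζ ≠ 0 := by
      have := hden ζ hζ
      exact norm_pos_iff.mp (by linarith)
    have h6 : (ζ + z) / (ζ - z) + z * (2 * ζ / (ζ - z) ^ 2) = 2 / (1 - z / ζ) ^ 2 - 1 := by
      rw [hu1 ζ hζ, hu2 ζ hζ]
      field_simp
      ring
    rw [h6]
    refine le_trans (le_of_eq ?_) h5
    rw [hu3 ζ hζ]
    field_simp
  · have h1 : (z * deriv P z).im =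
        circleAverage (fun ζ => (z * (2 * ζ / (ζ - z) ^ 2)).im * (P ζ).re) 0 R' := by
      have h2 := Complex.imCLM.circleAverage_comp_comm i2
      rw [f2] at h2
      rw [show (z * deriv P z).im = Complex.imCLM (z * deriv P z) from rfl, ← h2]
      congr 1
      funext ζ
      simp only [Function.comp_apply, Complex.imCLM_apply, Complex.im_mul_ofReal]
    rw [h1]
    have c1 : ContinuousOn (fun ζ => (z * (2 * ζ / (ζ - z) ^ 2)).im) (sphere 0 R') :=
      Complex.continuous_im.comp_continuousOn hK2c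
    refine (jensen_sq hR'0.le c1 hPrc hw0 hmean).trans ?_
    rw [hwb, ← circleAverage_mul_const']
    refine circleAverage_mono (((c1.pow 2).mul hPrc).circleIntegrable hR'0.le)
      ((continuousOn_const.mul (hwc.mul hPrc)).circleIntegrable hR'0.le) ?_
    intro ζ hζ
    rw [abs_of_pos hR'0] at hζ
    rw [← mul_assoc]
    refine mul_le_mul_of_nonneg_right ?_ (hw0 ζ hζ)
    have h5 := kernel_im hR0 hR1 (hu ζ hζ).2
    rw [hu2 ζ hζ]
    refine h5.trans ?_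
    rw [hu3 ζ hζ, ← mul_assoc]
    refine mul_le_mul_of_nonneg_right ?_ (by positivity)
    nlinarith

lemma exp_neg_le_inv {x : ℝ} (hx : 0 ≤ x) : Real.exp (-x) ≤ 1 / (1 + x) := by
  rw [Real.exp_neg, ← one_div]
  refine one_div_le_one_div_of_le (by linarith) ?_
  have := Real.add_one_le_exp x
  linarith

lemma asy_low {X m c wb Y2 β : ℝ} (hX0 : 0 ≤ X) (hX1 : X ≤ 5.1) (hm0 : 0 ≤ m)
    (hc1 : c ≤ 0.05) (hwb0 : 0 ≤ wb) (hβ0 : 0 ≤ β) (hβ1 : β ≤ 0.001) (hre : c * wb ≤ X)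
    (hY : -(56 * wb) ≤ Y2) :
    (c - 57 * β) * wb - (m + 2 * β * m ^ 2 + 530 * β ^ 2) ≤
      (X - m) + β * Y2 - 2 * β * (X - m) ^ 2 - 530 * β ^ 2 := by
  have h0 : 0 ≤ X * m := mul_nonneg hX0 hm0
  have h00 : X * X ≤ 5.1 * X := mul_le_mul_of_nonneg_right hX1 hX0
  have h1 : (X - m) ^ 2 ≤ 5.1 * X + m ^ 2 := by
    have e : (X - m) ^ 2 = X * X - 2 * (X * m) + m ^ 2 := by ring
    rw [e]
    linarith only [h0, h00]
  have h2 : β * (X - m) ^ 2 ≤ β * (5.1 * X + m ^ 2) := mul_le_mul_of_nonneg_left h1 hβ0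
  have h3 : -(56 * (β * wb)) ≤ β * Y2 := by
    have := mul_le_mul_of_nonneg_left hY hβ0
    linarith only [this]
  have h4 : c * wb * (1 - 10.2 * β) ≤ X * (1 - 10.2 * β) :=
    mul_le_mul_of_nonneg_right hre (by linarith only [hβ1])
  have h6 : 0 ≤ β * wb := mul_nonneg hβ0 hwb0
  have h5 : c * (β * wb) ≤ 0.05 * (β * wb) := mul_le_mul_of_nonneg_right hc1 h6
  have e1 : c * wb * (1 - 10.2 * β) = c * wb - 10.2 * (c * (β * wb)) := by ring
  have e2 : β * (5.1 * X + m ^ 2) = 5.1 * (β * X) + β * m ^ 2 := by ring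
  have e3 : X * (1 - 10.2 * β) = X - 10.2 * (β * X) := by ring
  have e4 : (c - 57 * β) * wb = c * wb - 57 * (β * wb) := by ring
  rw [e1, e3] at h4
  rw [e2] at h2
  rw [e4]
  linarith only [h2, h3, h4, h5, h6]

lemma asy_exp {D p β A κ wb c m low : ℝ} (hD0 : 0 ≤ D) (hp : 0 < p) (hβ0 : 0 ≤ β)
    (hwb0 : 0 ≤ wb) (h2nd : D ^ 2 ≤ 1 - 4 * β * low) (hlow : (c - 57 * β) * wb - m ≤ low)
    (hκ : κ ≤ 2 * p * β * (c - 57 * β)) (hA : 2 * p * β * m ≤ A) :
    D ^ p ≤ Real.exp (A - κ * wb) := by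
  have h1 : D ^ 2 ≤ Real.exp (-(4 * β * low)) := by
    refine h2nd.trans ?_
    have := Real.add_one_le_exp (-(4 * β * low))
    linarith only [this]
  have h2 : D ^ p = (D ^ 2) ^ (p / 2) := by
    rw [← Real.rpow_natCast, ← Real.rpow_mul hD0]
    congr 1
    push_cast
    ring
  rw [h2]
  refine (Real.rpow_le_rpow (by positivity) h1 (by linarith)).trans ?_
  rw [← Real.exp_mul]
  refine Real.exp_le_exp.mpr ?_
  have h3 : 0 ≤ 2 * p * β := by positivity
  have h4 := mul_le_mul_of_nonneg_left hlow h3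
  have h5 := mul_le_mul_of_nonneg_right hκ hwb0
  have e1 : -(4 * β * low) * (p / 2) = -(2 * p * β * low) := by ring
  have e2 : 2 * p * β * ((c - 57 * β) * wb - m) = 2 * p * β * (c - 57 * β) * wb -
    2 * p * β * m := by ring
  rw [e1]
  rw [e2] at h4
  linarith only [h4, h5, hA]

/-- The pointwise majorant. -/
lemma asy_pointwise {P : ℂ → ℂ} (hPd : DifferentiableOn ℂ P (ball 0 1)) (hP0 : P 0 = 1)
    (hPre : ∀ z ∈ ball (0 : ℂ) 1, 0 ≤ (P z).re) {R R' β p κ A : ℝ} (hR0 : 0.41 ≤ R)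
    (hR1 : R ≤ 0.42) (hR2 : 1 ≤ R ^ 2 + 2 * R) (hR'0 : 0 < R') (hR'1 : R' < 1) {z : ℂ}
    (hz : ‖z‖ = R * R') (hβ0 : 0 ≤ β) (hβ1 : β ≤ 0.001) (hp : 0 < p) (hκ0 : 0 ≤ κ)
    (hκ : κ ≤ 2 * p * β * (2 * R * (1 - 2 * R) / (1 + R) ^ 4 - 57 * β))
    (hA : 2 * p * β * ((1 - 2 / (1 + R) ^ 2) + 2 * β * (1 - 2 / (1 + R) ^ 2) ^ 2 + 530 * β ^ 2) ≤
      A) :
    ‖(1 - (β : ℂ) * P z) / (1 + β * P z) - 2 * β * (z * deriv P z) / (1 + β * P z) ^ 2‖ ^ p ≤
      Real.exp A * circleAverage (fun ζ =>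
        1 / (1 + κ * (‖z + R * ζ‖ ^ 2 / (R * R') ^ 2)) * (P ζ).re) 0 R' := by
  obtain ⟨hmean, hPn, hYn, hre, him⟩ := herglotz_data hPd hP0 hPre hR0 hR1 hR2 hR'0 hR'1 hz
  have hsub := sphere_subset_ball_one hR'1
  have hPc : ContinuousOn P (sphere 0 R') := hPd.continuousOn.mono hsub
  have hPrc : ContinuousOn (fun ζ => (P ζ).re) (sphere 0 R') :=
    Complex.continuous_re.comp_continuousOn hPc
  have hw0 : ∀ ζ ∈ sphere (0 : ℂ) R', 0 ≤ (P ζ).re := fun ζ hζ => hPre ζ (hsub hζ)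
  have hwc : ContinuousOn (fun ζ => ‖z + R * ζ‖ ^ 2 / (R * R') ^ 2) (sphere 0 R') :=
    Continuous.continuousOn (by fun_prop)
  have hzb : z ∈ ball (0 : ℂ) 1 := by
    rw [mem_ball, dist_zero_right, hz]
    nlinarith
  have h2nd := second_order (hPre z hzb) hPn hYn hβ0 hβ1
  obtain ⟨wb, hwb⟩ : ∃ wb, wb = circleAverage
      (fun ζ => ‖z + R * ζ‖ ^ 2 / (R * R') ^ 2 * (P ζ).re) 0 R' := ⟨_, rfl⟩
  have hwb0 : 0 ≤ wb := by
    rw [hwb]
    refine circleAverage_nonneg_of_nonneg ?_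
    intro ζ hζ
    rw [abs_of_pos hR'0] at hζ
    exact mul_nonneg (by positivity) (hw0 ζ hζ)
  rw [← hwb] at hre him
  obtain ⟨D, hD⟩ : ∃ D, D = ‖(1 - (β : ℂ) * P z) / (1 + β * P z) -
      2 * β * (z * deriv P z) / (1 + β * P z) ^ 2‖ := ⟨_, rfl⟩
  rw [← hD] at h2nd ⊢
  have hD0 : 0 ≤ D := by rw [hD]; exact norm_nonneg _
  obtain ⟨Y, hY⟩ : ∃ Y, Y = z * deriv P z := ⟨_, rfl⟩
  rw [← hY] at h2nd hre him hYn
  obtain ⟨m, hm⟩ : ∃ m, m = 1 - 2 / (1 + R) ^ 2 := ⟨_, rfl⟩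
  rw [← hm] at hre hA
  obtain ⟨c, hc⟩ : ∃ c, c = 2 * R * (1 - 2 * R) / (1 + R) ^ 4 := ⟨_, rfl⟩
  rw [← hc] at hre hκ
  have hm0 : 0 ≤ m := by
    rw [hm, sub_nonneg, div_le_one (by positivity)]
    nlinarith
  have hm1 : m ≤ 0.1 := by
    have : 0.9 ≤ 2 / (1 + R) ^ 2 := by
      rw [le_div_iff₀ (by positivity)]
      nlinarith
    rw [hm]
    linarith
  have hc0 : 0 ≤ c := by
    rw [hc]
    have h1 : 0 ≤ 1 - 2 * R := by linarith
    have h2 : 0 < R := by linarith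
    positivity
  have hc1 : c ≤ 0.05 := by
    rw [hc, div_le_iff₀ (by positivity)]
    have h1 : (1.41 : ℝ) ^ 4 ≤ (1 + R) ^ 4 := pow_le_pow_left₀ (by norm_num) (by linarith) 4
    norm_num at h1
    nlinarith
  -- lower bound for the second order quantity
  obtain ⟨X, hX⟩ : ∃ X, X = (P z + Y).re + m := ⟨_, rfl⟩
  have hQre : (P z + Y).re = X - m := by rw [hX]; ring
  rw [← hX] at hre
  rw [hQre] at h2nd
  have hX0 : 0 ≤ X := (mul_nonneg hc0 hwb0).trans hre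
  have hX1 : X ≤ 5.1 := by
    have h1 : (P z + Y).re ≤ 5 := by
      refine (Complex.re_le_norm _).trans ((norm_add_le _ _).trans ?_)
      linarith
    rw [hX]
    linarith
  have hYre : -(56 * wb) ≤ (Y ^ 2).re := by
    have h1 : (Y ^ 2).re = Y.re ^ 2 - Y.im ^ 2 := by
      rw [pow_two, Complex.mul_re]
      ring
    rw [h1]
    nlinarith [sq_nonneg Y.re]
  have hlow := asy_low hX0 hX1 hm0 hc1 hwb0 hβ0 hβ1 hre hYre
  have hDexp := asy_exp hD0 hp hβ0 hwb0 h2nd hlow hκ hA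
  refine hDexp.trans ?_
  rw [sub_eq_add_neg, Real.exp_add]
  refine mul_le_mul_of_nonneg_left ?_ (Real.exp_pos _).le
  refine (exp_neg_le_inv (mul_nonneg hκ0 hwb0)).trans ?_
  have h6 := jensen_inv (f := fun ζ => κ * (‖z + R * ζ‖ ^ 2 / (R * R') ^ 2)) hR'0.le
    (continuousOn_const.mul hwc) (fun ζ _ => by positivity) hPrc hw0 hmean
  have h7 : circleAverage (fun ζ => κ * (‖z + R * ζ‖ ^ 2 / (R * R') ^ 2) * (P ζ).re) 0 R' =
      κ * wb := by
    rw [hwb, ← circleAverage_mul_const']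
    congr 1
    funext ζ
    ring
  rw [h7] at h6
  exact h6

end Pool.Agent.LibMP140d1b
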