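import Mathlib

/-!
Definitions for problem MP_140d1b_an (integral means of derivatives under subordination).
-/

namespace Pool.Agent.LibMP140d1b

open Metric Set

/-- `g ≺ f`: there is an analytic self-map `φ` of the unit disc with `φ 0 = 0` and `g = f ∘ φ`
on the unit disc. -/
def Subordinate (g f : ℂ → ℂ) : Prop :=
  ∃ φ : ℂ → ℂ, DifferentiableOn ℂ φ (ball 0 1) ∧ MapsTo φ (ball 0 1) (ball 0 1) ∧ φ 0 = 0 ∧
    ∀ z ∈ ball (0 : ℂ) 1, g z = f (φ z)

/-- The `p`-th integral mean `M_p(r,h) = ((1/2π) ∫₀^{2π} |h(r e^{it})|^p dt)^{1/p}`. -/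
noncomputable def integralMean (p r : ℝ) (h : ℂ → ℂ) : ℝ :=
  (Real.circleAverage (fun z => ‖h z‖ ^ p) 0 r) ^ (1 / p)

/-- The radii `ρ ∈ (0,1]` such that `M_p(r,g') ≤ M_p(r,f')` for all `0 < r < ρ` and all
analytic `f, g` on the unit disc with `g ≺ f`. -/
def admissibleRadii (p : ℝ) : Set ℝ :=
  {ρ | 0 < ρ ∧ ρ ≤ 1 ∧ ∀ f g : ℂ → ℂ, DifferentiableOn ℂ f (ball 0 1) →
    DifferentiableOn ℂ g (ball 0 1) → Subordinate g f → ∀ r : ℝ, 0 < r → r < ρ →
      integralMean p r (deriv g) ≤ integralMean p r (deriv f)}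

/-- The number `r_p` of the problem. -/
noncomputable def subordinationRadius (p : ℝ) : ℝ := sSup (admissibleRadii p)

end Pool.Agent.LibMP140d1b
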