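import Mathlib
import Pool.Agent.Lib_MP_140d1b_an.Goluzin

/-!
Reduction of a weighted subordination inequality with arbitrary exponent `p > 0` to the same
inequality for squares of moduli of polynomials.
-/

namespace Pool.Agent.LibMP140d1b

open Complex Metric Set Filter Topology Real

/-- The weighted inequality with exponent `s` for all polynomials. -/
def PolyIneq (s : ℝ) (φ : ℂ → ℂ) (W : ℂ → ℝ) (r : ℝ) : Prop :=
  ∀ (a : ℕ → ℂ) (N : ℕ), circleAverage (fun z => ‖pe a N (φ z)‖ ^ s * W z) 0 r ≤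
    circleAverage (fun z => ‖pe a N z‖ ^ s) 0 r

/-- Passage from polynomials to functions analytic on a slightly larger disc. -/
lemma polyIneq_analytic {φ : ℂ → ℂ} (hφ : Schwarz φ) {W : ℂ → ℝ} {r R : ℝ} (hr : 0 ≤ r)
    (hr1 : r < 1) (hrR : r < R) (hW : ContinuousOn W (sphere 0 r))
    (hW0 : ∀ z ∈ sphere (0 : ℂ) r, 0 ≤ W z) {s : ℝ} (hs : 0 < s) (h : PolyIneq s φ W r)
    {F : ℂ → ℂ} (hF : DifferentiableOn ℂ F (ball 0 R)) :
    circleAverage (fun z => ‖F (φ z)‖ ^ s * W z) 0 r ≤ circleAverage (fun z => ‖F z‖ ^ s) 0 r := by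
  have hsub := sphere_subset_ball_one hr1
  have hφc : ContinuousOn φ (sphere 0 r) := hφ.diff.continuousOn.mono hsub
  have hsum : Summable (fun k => ‖tc F k‖ * r ^ k) := by
    have hz : (r : ℂ) ∈ ball (0 : ℂ) R := by
      simp [abs_of_nonneg hr, hrR]
    have h := (tc_hasSum hF hz).summable.norm
    refine h.congr ?_
    intro k
    simp [norm_pow, abs_of_nonneg hr]
  set M : ℝ := ∑' k, ‖tc F k‖ * r ^ k with hM
  have hMnn : 0 ≤ M := tsum_nonneg (fun k => by positivity)
  have hbound : ∀ N : ℕ, ∀ z : ℂ, ‖z‖ ≤ r → ‖pe (tc F) N z‖ ≤ M := by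
    intro N z hz
    calc ‖∑ k ∈ Finset.range N, tc F k * z ^ k‖ ≤ ∑ k ∈ Finset.range N, ‖tc F k * z ^ k‖ :=
          norm_sum_le _ _
      _ ≤ ∑ k ∈ Finset.range N, ‖tc F k‖ * r ^ k := by
          refine Finset.sum_le_sum ?_
          intro k _
          rw [norm_mul, norm_pow]
          gcongr
      _ ≤ M := hsum.sum_le_tsum _ (fun k _ => by positivity)
  have hptw : ∀ z : ℂ, ‖z‖ ≤ r → Tendsto (fun N => pe (tc F) N z) atTop (𝓝 (F z)) := by
    intro z hz
    have hz' : z ∈ ball (0 : ℂ) R := by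
      simp only [mem_ball, dist_zero_right]
      linarith
    exact (tc_hasSum hF hz').tendsto_sum_nat
  have hcirc : ∀ θ, circleMap 0 r θ ∈ sphere (0 : ℂ) r := fun θ => circleMap_mem_sphere 0 hr θ
  have hcirc' : ∀ θ, ‖circleMap 0 r θ‖ = r := fun θ => by simp [abs_of_nonneg hr]
  have hWc : Continuous (fun θ => W (circleMap 0 r θ)) :=
    hW.comp_continuous (continuous_circleMap 0 r) hcirc
  have hφθ : Continuous (fun θ => φ (circleMap 0 r θ)) :=
    hφc.comp_continuous (continuous_circleMap 0 r) hcirc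
  have hφle : ∀ θ, ‖φ (circleMap 0 r θ)‖ ≤ r := by
    intro θ
    have := hφ.norm_le (hsub (hcirc θ))
    rwa [hcirc' θ] at this
  have hL : Tendsto (fun N : ℕ => circleAverage
      (fun z => ‖pe (tc F) N (φ z)‖ ^ s * W z) 0 r) atTop
      (𝓝 (circleAverage (fun z => ‖F (φ z)‖ ^ s * W z) 0 r)) := by
    unfold circleAverage
    refine Tendsto.const_smul ?_ _
    refine intervalIntegral.tendsto_integral_filter_of_dominated_convergence
      (fun θ => M ^ s * W (circleMap 0 r θ)) ?_ ?_ ?_ ?_
    · refine Eventually.of_forall ?_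
      intro N
      refine Continuous.aestronglyMeasurable ?_
      exact ((((pe_continuous _ N).comp hφθ).norm.rpow_const (fun _ => Or.inr hs.le)).mul hWc)
    · refine Eventually.of_forall ?_
      intro N
      refine Eventually.of_forall ?_
      intro θ _
      have h2 := hbound N _ (hφle θ)
      have h3 := hW0 _ (hcirc θ)
      rw [Real.norm_eq_abs, abs_of_nonneg (by positivity)]
      exact mul_le_mul_of_nonneg_right (Real.rpow_le_rpow (norm_nonneg _) h2 hs.le) h3
    · exact (continuous_const.mul hWc).intervalIntegrable _ _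
    · refine Eventually.of_forall ?_
      intro θ _
      exact ((hptw _ (hφle θ)).norm.rpow_const (Or.inr hs.le)).mul_const _
  have hRt : Tendsto (fun N : ℕ => circleAverage
      (fun z => ‖pe (tc F) N z‖ ^ s) 0 r) atTop
      (𝓝 (circleAverage (fun z => ‖F z‖ ^ s) 0 r)) := by
    unfold circleAverage
    refine Tendsto.const_smul ?_ _
    refine intervalIntegral.tendsto_integral_filter_of_dominated_convergence
      (fun θ => M ^ s) ?_ ?_ ?_ ?_
    · refine Eventually.of_forall ?_
      intro N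
      refine Continuous.aestronglyMeasurable ?_
      exact ((((pe_continuous _ N).comp (continuous_circleMap 0 r)).norm.rpow_const
        (fun _ => Or.inr hs.le)))
    · refine Eventually.of_forall ?_
      intro N
      refine Eventually.of_forall ?_
      intro θ _
      have h2 := hbound N _ (hcirc' θ).le
      rw [Real.norm_eq_abs, abs_of_nonneg (by positivity)]
      exact Real.rpow_le_rpow (norm_nonneg _) h2 hs.le
    · exact intervalIntegrable_const
    · refine Eventually.of_forall ?_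
      intro θ _
      exact ((hptw _ (hcirc' θ).le).norm.rpow_const (Or.inr hs.le))
  exact le_of_tendsto_of_tendsto' hL hRt (fun N => h (tc F) N)

/-- A zero-free analytic function on a disc has an analytic `p/s`-th power. -/
lemma exists_pow_half {h : ℂ → ℂ} {R : ℝ} (hd : DifferentiableOn ℂ h (ball 0 R))
    (hR : 0 < R) (hne : ∀ z ∈ ball (0 : ℂ) R, h z ≠ 0) (p : ℝ) {s : ℝ} (hs : 0 < s) :
    ∃ F : ℂ → ℂ, DifferentiableOn ℂ F (ball 0 R) ∧
      ∀ z ∈ ball (0 : ℂ) R, ‖F z‖ ^ s = ‖h z‖ ^ p := by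
  have hd' : DifferentiableOn ℂ (deriv h) (ball 0 R) := hd.deriv isOpen_ball
  have hq : DifferentiableOn ℂ (fun z => deriv h z / h z) (ball 0 R) := hd'.div hd hne
  obtain ⟨L, hL⟩ := hq.isExactOn_ball
  have h0 : (0 : ℂ) ∈ ball (0 : ℂ) R := mem_ball_self hR
  have hLd : DifferentiableOn ℂ L (ball 0 R) :=
    fun z hz => (hL z hz).differentiableAt.differentiableWithinAt
  have hconst : ∀ z ∈ ball (0 : ℂ) R, exp (-L z) * h z = exp (-L 0) * h 0 := by
    intro z hz
    have hG : DifferentiableOn ℂ (fun z => exp (-L z) * h z) (ball 0 R) :=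
      (hLd.neg.cexp).mul hd
    refine IsOpen.is_const_of_deriv_eq_zero isOpen_ball (convex_ball 0 R).isPreconnected hG ?_ hz h0
    intro w hw
    have h1 : HasDerivAt h (deriv h w) w :=
      (hd.differentiableAt (isOpen_ball.mem_nhds hw)).hasDerivAt
    have h2 := ((hL w hw).neg.cexp).mul h1
    have h3 : exp (-L w) * -(deriv h w / h w) * h w + exp (-L w) * deriv h w = 0 := by
      have := hne w hw
      field_simp
      ring
    have h4 := h2.deriv
    simp only [Pi.neg_apply] at h4
    calc deriv (fun z => exp (-L z) * h z) w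
        = exp (-L w) * -(deriv h w / h w) * h w + exp (-L w) * deriv h w := h4
      _ = 0 := h3
  set c : ℂ := exp (-L 0) * h 0 with hc
  have hcne : c ≠ 0 := mul_ne_zero (exp_ne_zero _) (hne 0 h0)
  refine ⟨fun z => exp ((p / s : ℝ) * (L z + log c)), ?_, ?_⟩
  · exact ((hLd.add_const _).const_mul _).cexp
  · intro z hz
    have h1 : h z = exp (L z + log c) := by
      rw [Complex.exp_add, Complex.exp_log hcne, ← hconst z hz, ← mul_assoc, ← Complex.exp_add]
      simp
    rw [h1, Complex.norm_exp, Complex.norm_exp, ← Real.exp_mul, ← Real.exp_mul]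
    congr 1
    rw [Complex.re_ofReal_mul]
    field_simp

/-- Factoring out a zero. -/
lemma factor_zero {h : ℂ → ℂ} (hd : DifferentiableOn ℂ h (ball 0 1)) {w : ℂ}
    (hw : w ∈ ball (0 : ℂ) 1) (hne : analyticOrderAt h w ≠ ⊤) :
    ∃ (n : ℕ) (H : ℂ → ℂ), DifferentiableOn ℂ H (ball 0 1) ∧ H w ≠ 0 ∧
      ∀ z ∈ ball (0 : ℂ) 1, h z = (z - w) ^ n * H z := by
  have ha : AnalyticAt ℂ h w := hd.analyticAt (isOpen_ball.mem_nhds hw)
  obtain ⟨n, hn⟩ := ENat.ne_top_iff_exists.mp hne
  obtain ⟨g, hga, hgw, hg⟩ := ha.analyticOrderAt_eq_natCast.mp hn.symm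
  classical
  set H : ℂ → ℂ := fun z => if z = w then g w else h z / (z - w) ^ n with hH
  refine ⟨n, H, ?_, ?_, ?_⟩
  · intro z hz
    by_cases hzw : z = w
    · subst hzw
      have : H =ᶠ[𝓝 z] g := by
        filter_upwards [hg] with y hy
        by_cases hyw : y = z
        · simp [hH, hyw]
        · have h0 : (y - z) ^ n ≠ 0 := pow_ne_zero _ (sub_ne_zero.mpr hyw)
          simp only [hH, hyw, if_false, hy, smul_eq_mul]
          field_simp
      exact (this.differentiableAt_iff.mpr hga.differentiableAt).differentiableWithinAt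
    · have h0 : (z - w) ^ n ≠ 0 := pow_ne_zero _ (sub_ne_zero.mpr hzw)
      have : H =ᶠ[𝓝 z] fun y => h y / (y - w) ^ n := by
        filter_upwards [isOpen_ne.mem_nhds hzw] with y hy
        simp only [hH]
        rw [if_neg hy]
      refine (this.differentiableAt_iff.mpr ?_).differentiableWithinAt
      refine (hd.differentiableAt (isOpen_ball.mem_nhds hz)).div (by fun_prop) h0
  · simp [hH, hgw]
  · intro z hz
    by_cases hzw : z = w
    · subst hzw
      have := hg.self_of_nhds
      simp only [smul_eq_mul] at this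
      rw [this]
      simp [hH]
    · have h0 : (z - w) ^ n ≠ 0 := pow_ne_zero _ (sub_ne_zero.mpr hzw)
      simp only [hH, hzw, if_false]
      field_simp

/-- The zero set in a closed disc is finite. -/
lemma zeros_finite {h : ℂ → ℂ} (hd : DifferentiableOn ℂ h (ball 0 1)) {r : ℝ} (hr1 : r < 1)
    (hne : ¬ EqOn h 0 (ball 0 1)) : {z ∈ closedBall (0 : ℂ) r | h z = 0}.Finite := by
  by_contra hinf
  have hinf : {z ∈ closedBall (0 : ℂ) r | h z = 0}.Infinite := hinf
  obtain ⟨x, hx, hacc⟩ := hinf.exists_accPt_of_subset_isCompact (isCompact_closedBall 0 r)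
    (fun z hz => hz.1)
  apply hne
  have hxb : x ∈ ball (0 : ℂ) 1 := by
    simp only [mem_closedBall, dist_zero_right] at hx
    simp only [mem_ball, dist_zero_right]
    linarith
  have han : AnalyticOnNhd ℂ h (ball 0 1) := hd.analyticOnNhd isOpen_ball
  refine han.eqOn_zero_of_preconnected_of_frequently_eq_zero
    (convex_ball 0 1).isPreconnected hxb ?_
  rw [accPt_iff_frequently] at hacc
  rw [frequently_nhdsWithin_iff]
  exact hacc.mono (fun y hy => ⟨hy.2.2, hy.1⟩)

lemma norm_blaschke_ge {r : ℝ} (hr : 0 < r) {w z : ℂ} (hw : ‖w‖ ≤ r) (hz : ‖z‖ ≤ r) {ε : ℝ}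
    (hε : 0 ≤ ε) :
    ‖z - w‖ ≤ ‖((1 + ε) * r ^ 2 : ℝ) - (starRingEnd ℂ w) * z‖ / r := by
  rw [le_div_iff₀ hr]
  refine abs_le_of_sq_le_sq' ?_ (norm_nonneg _) |>.2
  rw [mul_pow, ← Complex.normSq_eq_norm_sq, ← Complex.normSq_eq_norm_sq]
  have e1 : Complex.normSq (z - w) = ‖z‖ ^ 2 + ‖w‖ ^ 2 - 2 * ((starRingEnd ℂ w) * z).re := by
    rw [Complex.normSq_sub, ← Complex.normSq_eq_norm_sq, ← Complex.normSq_eq_norm_sq]
    congr 2
    simp [mul_comm]
  have e2 : Complex.normSq (((1 + ε) * r ^ 2 : ℝ) - (starRingEnd ℂ w) * z) =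
      ((1 + ε) * r ^ 2) ^ 2 + (‖w‖ * ‖z‖) ^ 2 -
        2 * ((1 + ε) * r ^ 2) * ((starRingEnd ℂ w) * z).re := by
    rw [Complex.normSq_sub, Complex.normSq_ofReal]
    have : Complex.normSq ((starRingEnd ℂ) w * z) = (‖w‖ * ‖z‖) ^ 2 := by
      rw [Complex.normSq_eq_norm_sq, norm_mul, RCLike.norm_conj]
    rw [this]
    have h3 : (((((1 + ε) * r ^ 2 : ℝ) : ℂ) * (starRingEnd ℂ) ((starRingEnd ℂ) w * z)).re) =
        ((1 + ε) * r ^ 2) * ((starRingEnd ℂ w) * z).re := by
      rw [Complex.re_ofReal_mul, Complex.conj_re]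
    rw [h3]
    ring
  rw [e1, e2]
  have hre : ((starRingEnd ℂ w) * z).re ≤ r ^ 2 := by
    refine (Complex.re_le_norm _).trans ?_
    rw [norm_mul, RCLike.norm_conj, sq]
    gcongr
  have hw2 : ‖w‖ ^ 2 ≤ r ^ 2 := by gcongr
  have hz2 : ‖z‖ ^ 2 ≤ r ^ 2 := by gcongr
  set t := ((starRingEnd ℂ w) * z).re
  have h1 : 0 ≤ (r ^ 2 - ‖w‖ ^ 2) * (r ^ 2 - ‖z‖ ^ 2) :=
    mul_nonneg (by linarith) (by linarith)
  have h2 : 0 ≤ ε * r ^ 2 * (r ^ 2 - t) := by
    have : 0 ≤ r ^ 2 - t := by linarith
    positivity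
  have h3 : 0 ≤ ε ^ 2 * (r ^ 2) ^ 2 := by positivity
  nlinarith [h1, h2, h3]

/-- Base case: no zeros in the closed disc. -/
lemma ineq_zero_free {φ : ℂ → ℂ} (hφ : Schwarz φ) {W : ℂ → ℝ} {r : ℝ} (hr : 0 < r)
    (hr1 : r < 1) (hW : ContinuousOn W (sphere 0 r))
    (hW0 : ∀ z ∈ sphere (0 : ℂ) r, 0 ≤ W z) {s : ℝ} (hs : 0 < s) (hP : PolyIneq s φ W r) (p : ℝ)
    {h : ℂ → ℂ} (hd : DifferentiableOn ℂ h (ball 0 1))
    (hne : ∀ z ∈ closedBall (0 : ℂ) r, h z ≠ 0) :
    circleAverage (fun z => ‖h (φ z)‖ ^ p * W z) 0 r ≤ circleAverage (fun z => ‖h z‖ ^ p) 0 r := by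
  have hsub := sphere_subset_ball_one hr1
  -- a slightly larger disc
  obtain ⟨R, hrR, hR1, hRne⟩ : ∃ R, r < R ∧ R < 1 ∧ ∀ z ∈ ball (0 : ℂ) R, h z ≠ 0 := by
    set U : Set ℂ := {z ∈ ball (0 : ℂ) 1 | h z ≠ 0} with hU
    have hUo : IsOpen U := hd.continuousOn.isOpen_inter_preimage isOpen_ball isOpen_ne
    have hKU : closedBall (0 : ℂ) r ⊆ U := by
      intro z hz
      refine ⟨?_, hne z hz⟩
      simp only [mem_closedBall, dist_zero_right] at hz
      simp only [mem_ball, dist_zero_right]
      linarith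
    obtain ⟨δ, hδ, hδU⟩ := (isCompact_closedBall (0 : ℂ) r).exists_thickening_subset_open hUo hKU
    rw [thickening_closedBall hδ hr.le] at hδU
    refine ⟨min (δ + r) ((r + 1) / 2), ?_, ?_, ?_⟩
    · refine lt_min (by linarith) (by linarith)
    · refine lt_of_le_of_lt (min_le_right _ _) (by linarith)
    · intro z hz
      exact (hδU (ball_subset_ball (min_le_left _ _) hz)).2
  have hdR : DifferentiableOn ℂ h (ball 0 R) := hd.mono (ball_subset_ball hR1.le)
  obtain ⟨F, hF, hFh⟩ := exists_pow_half hdR (hr.trans hrR) hRne p hs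
  have key := polyIneq_analytic hφ hr.le hr1 hrR hW hW0 hs hP hF
  have e1 : circleAverage (fun z => ‖h (φ z)‖ ^ p * W z) 0 r =
      circleAverage (fun z => ‖F (φ z)‖ ^ s * W z) 0 r := by
    refine circleAverage_congr_sphere ?_
    intro z hz
    rw [abs_of_nonneg hr.le] at hz
    have h1 : ‖φ z‖ ≤ r := by
      have := hφ.norm_le (hsub hz)
      simp only [mem_sphere_iff_norm, sub_zero] at hz
      rwa [hz] at this
    have h2 : φ z ∈ ball (0 : ℂ) R := by
      simp only [mem_ball, dist_zero_right]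
      linarith
    simp only [hFh _ h2]
  have e2 : circleAverage (fun z => ‖h z‖ ^ p) 0 r = circleAverage (fun z => ‖F z‖ ^ s) 0 r := by
    refine circleAverage_congr_sphere ?_
    intro z hz
    rw [abs_of_nonneg hr.le] at hz
    simp only [mem_sphere_iff_norm, sub_zero] at hz
    have h2 : z ∈ ball (0 : ℂ) R := by
      simp only [mem_ball, dist_zero_right, hz]
      exact hrR
    simp only [hFh _ h2]
  rw [e1, e2]
  exact key

/-- The reduction lemma. -/
lemma ineq_general {φ : ℂ → ℂ} (hφ : Schwarz φ) {W : ℂ → ℝ} {r : ℝ} (hr : 0 < r)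
    (hr1 : r < 1) (hW : ContinuousOn W (sphere 0 r))
    (hW0 : ∀ z ∈ sphere (0 : ℂ) r, 0 ≤ W z) {s : ℝ} (hs : 0 < s) (hP : PolyIneq s φ W r)
    {p : ℝ} (hp : 0 < p)
    {h : ℂ → ℂ} (hd : DifferentiableOn ℂ h (ball 0 1)) :
    circleAverage (fun z => ‖h (φ z)‖ ^ p * W z) 0 r ≤ circleAverage (fun z => ‖h z‖ ^ p) 0 r := by
  have hsub := sphere_subset_ball_one hr1
  have hφle : ∀ z ∈ sphere (0 : ℂ) r, ‖φ z‖ ≤ r := by
    intro z hz
    have := hφ.norm_le (hsub hz)
    simp only [mem_sphere_iff_norm, sub_zero] at hz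
    rwa [hz] at this
  have hcb : closedBall (0 : ℂ) r ⊆ ball 0 1 := closedBall_subset_ball hr1
  by_cases hzero : EqOn h 0 (ball 0 1)
  · have e1 : circleAverage (fun z => ‖h (φ z)‖ ^ p * W z) 0 r =
        circleAverage (fun _ => (0 : ℝ)) 0 r := by
      refine circleAverage_congr_sphere ?_
      intro z hz
      rw [abs_of_nonneg hr.le] at hz
      have := hzero (hφ.maps (hsub hz))
      simp only [Pi.zero_apply] at this
      simp [this, Real.zero_rpow hp.ne']
    rw [e1, circleAverage_const]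
    refine circleAverage_nonneg_of_nonneg ?_
    intro z _
    positivity
  -- induction on the number of zeros
  have main : ∀ (n : ℕ) (h : ℂ → ℂ), DifferentiableOn ℂ h (ball 0 1) →
      ¬ EqOn h 0 (ball 0 1) → {z ∈ closedBall (0 : ℂ) r | h z = 0}.ncard ≤ n →
      circleAverage (fun z => ‖h (φ z)‖ ^ p * W z) 0 r ≤
        circleAverage (fun z => ‖h z‖ ^ p) 0 r := by
    intro n
    induction n with
    | zero =>
      intro h hd hnz hcard
      have hfin := zeros_finite hd hr1 hnz
      have hempty : {z ∈ closedBall (0 : ℂ) r | h z = 0} = ∅ := by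
        rw [← Set.ncard_eq_zero hfin]
        omega
      refine ineq_zero_free hφ hr hr1 hW hW0 hs hP p hd ?_
      intro z hz hz0
      have : z ∈ {z ∈ closedBall (0 : ℂ) r | h z = 0} := ⟨hz, hz0⟩
      rw [hempty] at this
      exact this
    | succ n ih =>
      intro h hd hnz hcard
      have hfin := zeros_finite hd hr1 hnz
      by_cases hempty : {z ∈ closedBall (0 : ℂ) r | h z = 0} = ∅
      · refine ih h hd hnz ?_
        rw [hempty]
        simp
      obtain ⟨w, hw⟩ := Set.nonempty_iff_ne_empty.mpr hempty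
      have hwb : w ∈ ball (0 : ℂ) 1 := hcb hw.1
      have hwr : ‖w‖ ≤ r := by simpa using hw.1
      have hord : analyticOrderAt h w ≠ ⊤ := by
        intro htop
        apply hnz
        have han : AnalyticOnNhd ℂ h (ball 0 1) := hd.analyticOnNhd isOpen_ball
        refine han.eqOn_zero_of_preconnected_of_eventuallyEq_zero
          (convex_ball 0 1).isPreconnected hwb ?_
        exact analyticOrderAt_eq_top.mp htop
      obtain ⟨k, H, hHd, hHw, hHeq⟩ := factor_zero hd hwb hord
      -- the modified functions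
      set q : ℝ → ℂ → ℂ := fun ε z =>
        (((1 + ε) * r ^ 2 : ℝ) - (starRingEnd ℂ w) * z) / (r : ℂ) with hq
      set hε : ℝ → ℂ → ℂ := fun ε z => (q ε z) ^ k * H z with hhε
      have hrc : (r : ℂ) ≠ 0 := by exact_mod_cast hr.ne'
      have hεd : ∀ ε, DifferentiableOn ℂ (hε ε) (ball 0 1) := by
        intro ε
        refine DifferentiableOn.mul ?_ hHd
        simp only [hq]
        fun_prop
      have hqne : ∀ ε > 0, ∀ z ∈ closedBall (0 : ℂ) r, q ε z ≠ 0 := by
        intro ε hε0 z hz
        simp only [hq]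
        refine div_ne_zero ?_ hrc
        intro h0
        rw [sub_eq_zero] at h0
        have h1 : ‖(((1 + ε) * r ^ 2 : ℝ) : ℂ)‖ = ‖(starRingEnd ℂ w) * z‖ := by rw [h0]
        rw [Complex.norm_real, Real.norm_eq_abs, abs_of_nonneg (by positivity), norm_mul,
          RCLike.norm_conj] at h1
        have hz' : ‖z‖ ≤ r := by simpa using hz
        have h2 : ‖w‖ * ‖z‖ ≤ r * r := by gcongr
        nlinarith [sq_nonneg r, mul_pos hε0 (pow_pos hr 2)]
      have hzeros : ∀ ε > 0, {z ∈ closedBall (0 : ℂ) r | hε ε z = 0} ⊆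
          {z ∈ closedBall (0 : ℂ) r | h z = 0} \ {w} := by
        intro ε hε0 z hz
        have hH0 : H z = 0 := by
          rcases mul_eq_zero.mp hz.2 with h1 | h1
          · exact absurd h1 (pow_ne_zero k (hqne ε hε0 z hz.1))
          · exact h1
        refine ⟨⟨hz.1, ?_⟩, ?_⟩
        · rw [hHeq z (hcb hz.1), hH0, mul_zero]
        · intro hzw
          rw [mem_singleton_iff] at hzw
          rw [hzw] at hH0
          exact hHw hH0
      have hcardε : ∀ ε > 0, {z ∈ closedBall (0 : ℂ) r | hε ε z = 0}.ncard ≤ n := by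
        intro ε hε0
        have h1 := Set.ncard_le_ncard (hzeros ε hε0) (hfin.subset sdiff_subset)
        have h2 : ({z ∈ closedBall (0 : ℂ) r | h z = 0} \ {w}).ncard + 1 =
            {z ∈ closedBall (0 : ℂ) r | h z = 0}.ncard :=
          Set.ncard_sdiff_singleton_add_one hw hfin
        omega
      have hnzε : ∀ ε > 0, ¬ EqOn (hε ε) 0 (ball 0 1) := by
        intro ε hε0 hall
        have h1 := hall hwb
        simp only [hhε, Pi.zero_apply] at h1
        rcases mul_eq_zero.mp h1 with h2 | h2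
        · exact pow_ne_zero k (hqne ε hε0 w hw.1) h2
        · exact hHw h2
      have hdom : ∀ ε ≥ 0, ∀ z ∈ closedBall (0 : ℂ) r, ‖h z‖ ≤ ‖hε ε z‖ := by
        intro ε hε0 z hz
        rw [hHeq z (hcb hz)]
        simp only [hhε, hq, norm_mul, norm_pow, norm_div, Complex.norm_real, Real.norm_eq_abs,
          abs_of_pos hr]
        gcongr
        exact norm_blaschke_ge hr hwr (by simpa using hz) hε0
      have hφc : ContinuousOn φ (sphere 0 r) := hφ.diff.continuousOn.mono hsub
      have hhc : ContinuousOn (fun z => h (φ z)) (sphere 0 r) :=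
        hd.continuousOn.comp hφc (fun z hz => hφ.maps (hsub hz))
      have hstep : ∀ ε > 0, circleAverage (fun z => ‖h (φ z)‖ ^ p * W z) 0 r ≤
          circleAverage (fun z => ‖hε ε z‖ ^ p) 0 r := by
        intro ε hε0
        refine le_trans ?_ (ih (hε ε) (hεd ε) (hnzε ε hε0) (hcardε ε hε0))
        have hhεc : ContinuousOn (fun z => hε ε (φ z)) (sphere 0 r) :=
          (hεd ε).continuousOn.comp hφc (fun z hz => hφ.maps (hsub hz))
        refine circleAverage_mono ?_ ?_ ?_
        · exact ((hhc.norm.rpow_const (fun z _ => Or.inr hp.le)).mul hW).circleIntegrable hr.le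
        · exact ((hhεc.norm.rpow_const (fun z _ => Or.inr hp.le)).mul hW).circleIntegrable hr.le
        · intro z hz
          rw [abs_of_nonneg hr.le] at hz
          have h1 : φ z ∈ closedBall (0 : ℂ) r := by simpa using hφle z hz
          have h2 := hdom ε hε0.le _ h1
          have h3 := hW0 z hz
          gcongr
      -- limit `ε → 0`
      have hcont : Continuous (fun ε : ℝ => circleAverage (fun z => ‖hε ε z‖ ^ p) 0 r) := by
        unfold circleAverage
        have hHθ : Continuous (fun x : ℝ × ℝ => H (circleMap 0 r x.2)) := by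
          have h1 : Continuous (fun θ : ℝ => H (circleMap 0 r θ)) :=
            (hHd.continuousOn.mono hsub).comp_continuous (continuous_circleMap 0 r)
              (fun θ => circleMap_mem_sphere 0 hr.le θ)
          exact h1.comp continuous_snd
        have hqθ : Continuous (fun x : ℝ × ℝ => q x.1 (circleMap 0 r x.2)) := by
          simp only [hq]
          fun_prop
        have h3 : Continuous (fun x : ℝ × ℝ => hε x.1 (circleMap 0 r x.2)) :=
          (hqθ.pow k).mul hHθ
        have h4 : Continuous (fun x : ℝ × ℝ => ‖hε x.1 (circleMap 0 r x.2)‖ ^ p) :=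
          h3.norm.rpow_const (fun _ => Or.inr hp.le)
        have h5 : Continuous (fun ε : ℝ => ∫ θ in (0 : ℝ)..2 * π,
            ‖hε ε (circleMap 0 r θ)‖ ^ p) :=
          intervalIntegral.continuous_parametric_intervalIntegral_of_continuous' h4 _ _
        exact h5.const_smul ((2 * π)⁻¹ : ℝ)
      have h0 : circleAverage (fun z => ‖hε 0 z‖ ^ p) 0 r =
          circleAverage (fun z => ‖h z‖ ^ p) 0 r := by
        refine circleAverage_congr_sphere ?_
        intro z hz
        rw [abs_of_nonneg hr.le] at hz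
        have hz' : ‖z‖ = r := by simpa using hz
        simp only
        rw [hHeq z (hsub hz)]
        congr 1
        simp only [hhε, hq, norm_mul, norm_pow, norm_div, Complex.norm_real, Real.norm_eq_abs,
          abs_of_pos hr]
        congr 2
        have hzz : ((r ^ 2 : ℝ) : ℂ) = z * (starRingEnd ℂ z) := by
          rw [Complex.mul_conj, Complex.normSq_eq_norm_sq, hz']
        have e1 : (((1 + 0) * r ^ 2 : ℝ) : ℂ) - (starRingEnd ℂ w) * z =
            z * (starRingEnd ℂ (z - w)) := by
          rw [add_zero, one_mul, hzz, map_sub]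
          ring
        rw [e1, norm_mul, RCLike.norm_conj, hz']
        field_simp
      rw [← h0]
      have hcl : (0 : ℝ) ∈ closure (Ioi (0 : ℝ)) := by
        rw [closure_Ioi]
        exact mem_Ici.mpr le_rfl
      exact ContinuousWithinAt.closure_le (s := Ioi (0 : ℝ)) (x := 0) hcl
        continuousWithinAt_const hcont.continuousWithinAt hstep
  exact main _ h hd hzero le_rfl

end Pool.Agent.LibMP140d1b
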