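import Mathlib
import Pool.Agent.Lib_MP_140d1b_an.Reduction
import Pool.Agent.Lib_MP_140d1b_an.Defs

/-!
The basic facts about the subordination radius `r_p`.
-/

namespace Pool.Agent.LibMP140d1b

open Complex Metric Set Filter Topology Real

/-- The derivative inequality at exponent `p` and radius `r`. -/
def GoodAt (p r : ℝ) : Prop :=
  ∀ φ h : ℂ → ℂ, Schwarz φ → DifferentiableOn ℂ h (ball 0 1) →
    circleAverage (fun z => ‖h (φ z)‖ ^ p * ‖deriv φ z‖ ^ p) 0 r ≤
      circleAverage (fun z => ‖h z‖ ^ p) 0 r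

lemma Schwarz.deriv_diff {φ : ℂ → ℂ} (hφ : Schwarz φ) :
    DifferentiableOn ℂ (deriv φ) (ball 0 1) := hφ.diff.deriv isOpen_ball

lemma goodAt_of_poly {p s r : ℝ} (hp : 0 < p) (hs : 0 < s) (hr : 0 < r) (hr1 : r < 1)
    (h : ∀ φ : ℂ → ℂ, Schwarz φ → PolyIneq s φ (fun z => ‖deriv φ z‖ ^ p) r) : GoodAt p r := by
  intro φ u hφ hu
  have hsub := sphere_subset_ball_one hr1
  refine ineq_general hφ hr hr1 ?_ ?_ hs (h φ hφ) hp hu
  · exact (hφ.deriv_diff.continuousOn.mono hsub).norm.rpow_const (fun _ _ => Or.inr hp.le)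
  · intro z _
    positivity

lemma poly_of_goodAt {p r : ℝ} (h : GoodAt p r) {φ : ℂ → ℂ} (hφ : Schwarz φ) :
    PolyIneq p φ (fun z => ‖deriv φ z‖ ^ p) r := by
  intro a N
  exact h φ (pe a N) hφ (pe_differentiable a N).differentiableOn

/-- `r_p` is nonincreasing: goodness passes to smaller exponents. -/
lemma goodAt_mono {p q r : ℝ} (hp : 0 < p) (hpq : p ≤ q) (hr : 0 < r) (hr1 : r < 1)
    (h : GoodAt q r) : GoodAt p r := by
  have hq : 0 < q := hp.trans_le hpq
  have hsub := sphere_subset_ball_one hr1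
  refine goodAt_of_poly hp two_pos hr hr1 ?_
  intro φ hφ a N
  have hφc : ContinuousOn φ (sphere 0 r) := hφ.diff.continuousOn.mono hsub
  have hdc : ContinuousOn (deriv φ) (sphere 0 r) := hφ.deriv_diff.continuousOn.mono hsub
  have hcq : ContinuousOn (fun z => ‖deriv φ z‖ ^ q) (sphere 0 r) :=
    hdc.norm.rpow_const (fun _ _ => Or.inr hq.le)
  have hcp : ContinuousOn (fun z => ‖deriv φ z‖ ^ p) (sphere 0 r) :=
    hdc.norm.rpow_const (fun _ _ => Or.inr hp.le)
  have hF : ContinuousOn (fun z => ‖pe a N (φ z)‖ ^ (2 : ℝ)) (sphere 0 r) :=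
    ((pe_continuous a N).comp_continuousOn hφc).norm.rpow_const (fun _ _ => Or.inr two_pos.le)
  -- exponent `q`, squares
  have h1 : circleAverage (fun z => ‖pe a N (φ z)‖ ^ (2 : ℝ) * ‖deriv φ z‖ ^ q) 0 r ≤
      circleAverage (fun z => ‖pe a N z‖ ^ (2 : ℝ)) 0 r :=
    ineq_general hφ hr hr1 hcq (fun z _ => by positivity) hq (poly_of_goodAt h hφ) two_pos
      (pe_differentiable a N).differentiableOn
  -- Littlewood
  have h2 : circleAverage (fun z => ‖pe a N (φ z)‖ ^ (2 : ℝ)) 0 r ≤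
      circleAverage (fun z => ‖pe a N z‖ ^ (2 : ℝ)) 0 r := by
    simpa only [Real.rpow_two] using littlewood_pe hφ hr.le hr1 N a
  set M := circleAverage (fun z => ‖pe a N z‖ ^ (2 : ℝ)) 0 r with hM
  have hyoung : ∀ t : ℝ, 0 ≤ t → t ^ p ≤ p / q * t ^ q + (1 - p / q) := by
    intro t ht
    have h0 : 0 ≤ 1 - p / q := by
      rw [sub_nonneg, div_le_one hq]
      exact hpq
    have := Real.geom_mean_le_arith_mean2_weighted (w₁ := p / q) (w₂ := 1 - p / q)
      (p₁ := t ^ q) (p₂ := 1) (by positivity) h0 (by positivity) (by positivity) (by ring)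
    rw [Real.one_rpow, mul_one, mul_one, ← Real.rpow_mul ht] at this
    rwa [mul_div_cancel₀ p hq.ne'] at this
  have hpq1 : 0 ≤ p / q := by positivity
  have hpq2 : 0 ≤ 1 - p / q := by
    rw [sub_nonneg, div_le_one hq]
    exact hpq
  calc circleAverage (fun z => ‖pe a N (φ z)‖ ^ (2 : ℝ) * ‖deriv φ z‖ ^ p) 0 r
      ≤ circleAverage (fun z => p / q * (‖pe a N (φ z)‖ ^ (2 : ℝ) * ‖deriv φ z‖ ^ q) +
          (1 - p / q) * ‖pe a N (φ z)‖ ^ (2 : ℝ)) 0 r := by
        refine circleAverage_mono ?_ ?_ ?_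
        · exact (hF.mul hcp).circleIntegrable hr.le
        · exact ((continuousOn_const.mul (hF.mul hcq)).add
            (continuousOn_const.mul hF)).circleIntegrable hr.le
        · intro z _
          have h3 := hyoung ‖deriv φ z‖ (norm_nonneg _)
          have h4 : 0 ≤ ‖pe a N (φ z)‖ ^ (2 : ℝ) := by positivity
          nlinarith [mul_le_mul_of_nonneg_left h3 h4]
    _ = p / q * circleAverage (fun z => ‖pe a N (φ z)‖ ^ (2 : ℝ) * ‖deriv φ z‖ ^ q) 0 r +
          (1 - p / q) * circleAverage (fun z => ‖pe a N (φ z)‖ ^ (2 : ℝ)) 0 r := by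
        have i1 : CircleIntegrable (fun z => p / q * (‖pe a N (φ z)‖ ^ (2 : ℝ) *
            ‖deriv φ z‖ ^ q)) 0 r :=
          (continuousOn_const.mul (hF.mul hcq)).circleIntegrable hr.le
        have i2 : CircleIntegrable (fun z => (1 - p / q) * ‖pe a N (φ z)‖ ^ (2 : ℝ)) 0 r :=
          (continuousOn_const.mul hF).circleIntegrable hr.le
        rw [circleAverage_fun_add i1 i2]
        congr 1
        · have := circleAverage_fun_smul (a := (p / q : ℝ))
            (f := fun z => ‖pe a N (φ z)‖ ^ (2 : ℝ) * ‖deriv φ z‖ ^ q) (c := 0) (R := r)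
          simpa only [smul_eq_mul] using this
        · have := circleAverage_fun_smul (a := (1 - p / q : ℝ))
            (f := fun z => ‖pe a N (φ z)‖ ^ (2 : ℝ)) (c := 0) (R := r)
          simpa only [smul_eq_mul] using this
    _ ≤ p / q * M + (1 - p / q) * M := by gcongr
    _ = M := by ring

/-- Goluzin: exponent two, radius at most one half. -/
lemma goodAt_two {r : ℝ} (hr : 0 < r) (hr2 : r ≤ 1 / 2) : GoodAt 2 r := by
  refine goodAt_of_poly two_pos two_pos hr (by linarith) ?_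
  intro φ hφ a N
  simpa only [Real.rpow_two] using goluzin_pe hφ hr.le hr2 a N

/-- The chain rule for a subordinate pair. -/
lemma deriv_subordinate {f g φ : ℂ → ℂ} (hf : DifferentiableOn ℂ f (ball 0 1))
    (hφ : Schwarz φ) (hg : ∀ z ∈ ball (0 : ℂ) 1, g z = f (φ z)) {z : ℂ}
    (hz : z ∈ ball (0 : ℂ) 1) : deriv g z = deriv f (φ z) * deriv φ z := by
  have h1 : g =ᶠ[𝓝 z] f ∘ φ := by
    filter_upwards [isOpen_ball.mem_nhds hz] with w hw using hg w hw
  rw [h1.deriv_eq]
  have h2 : HasDerivAt φ (deriv φ z) z :=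
    (hφ.diff.differentiableAt (isOpen_ball.mem_nhds hz)).hasDerivAt
  have h3 : HasDerivAt f (deriv f (φ z)) (φ z) :=
    (hf.differentiableAt (isOpen_ball.mem_nhds (hφ.maps hz))).hasDerivAt
  exact (h3.comp z h2).deriv

lemma integralMean_le_of_goodAt {p r : ℝ} (hp : 0 < p) (hr : 0 < r) (hr1 : r < 1)
    (h : GoodAt p r) {f g : ℂ → ℂ} (hf : DifferentiableOn ℂ f (ball 0 1))
    (hs : Subordinate g f) : integralMean p r (deriv g) ≤ integralMean p r (deriv f) := by
  obtain ⟨φ, h1, h2, h3, h4⟩ := hs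
  have hφ : Schwarz φ := ⟨h1, h2, h3⟩
  have hsub := sphere_subset_ball_one hr1
  unfold integralMean
  have e1 : circleAverage (fun z => ‖deriv g z‖ ^ p) 0 r =
      circleAverage (fun z => ‖deriv f (φ z)‖ ^ p * ‖deriv φ z‖ ^ p) 0 r := by
    refine circleAverage_congr_sphere ?_
    intro z hz
    rw [abs_of_nonneg hr.le] at hz
    simp only
    rw [deriv_subordinate hf hφ h4 (hsub hz), norm_mul,
      Real.mul_rpow (norm_nonneg _) (norm_nonneg _)]
  rw [e1]
  refine Real.rpow_le_rpow ?_ ?_ (by positivity)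
  · refine circleAverage_nonneg_of_nonneg ?_
    intro z _
    positivity
  · exact h φ (deriv f) hφ (hf.deriv isOpen_ball)

lemma goodAt_of_mem {p ρ r : ℝ} (hp : 0 < p) (hρ : ρ ∈ admissibleRadii p) (hr : 0 < r)
    (hrρ : r < ρ) : GoodAt p r := by
  intro φ h hφ hh
  have hr1 : r < 1 := hrρ.trans_le hρ.2.1
  have hsub := sphere_subset_ball_one hr1
  obtain ⟨f, hf⟩ := hh.isExactOn_ball
  have hfd : DifferentiableOn ℂ f (ball 0 1) :=
    fun z hz => (hf z hz).differentiableAt.differentiableWithinAt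
  have hfderiv : ∀ z ∈ ball (0 : ℂ) 1, deriv f z = h z := fun z hz => (hf z hz).deriv
  have hgd : DifferentiableOn ℂ (fun z => f (φ z)) (ball 0 1) := hfd.comp hφ.diff hφ.maps
  have key := hρ.2.2 f (fun z => f (φ z)) hfd hgd
    ⟨φ, hφ.diff, hφ.maps, hφ.zero, fun _ _ => rfl⟩ r hr hrρ
  unfold integralMean at key
  have e1 : circleAverage (fun z => ‖deriv (fun z => f (φ z)) z‖ ^ p) 0 r =
      circleAverage (fun z => ‖h (φ z)‖ ^ p * ‖deriv φ z‖ ^ p) 0 r := by
    refine circleAverage_congr_sphere ?_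
    intro z hz
    rw [abs_of_nonneg hr.le] at hz
    simp only
    rw [deriv_subordinate hfd hφ (fun _ _ => rfl) (hsub hz), norm_mul,
      Real.mul_rpow (norm_nonneg _) (norm_nonneg _), hfderiv _ (hφ.maps (hsub hz))]
  have e2 : circleAverage (fun z => ‖deriv f z‖ ^ p) 0 r =
      circleAverage (fun z => ‖h z‖ ^ p) 0 r := by
    refine circleAverage_congr_sphere ?_
    intro z hz
    rw [abs_of_nonneg hr.le] at hz
    simp only
    rw [hfderiv _ (hsub hz)]
  rw [e1, e2] at key
  refine (Real.rpow_le_rpow_iff ?_ ?_ (by positivity : 0 < 1 / p)).mp key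
  · refine circleAverage_nonneg_of_nonneg ?_
    intro z _
    positivity
  · refine circleAverage_nonneg_of_nonneg ?_
    intro z _
    positivity

lemma mem_admissible_of_goodAt {p ρ : ℝ} (hp : 0 < p) (hρ : 0 < ρ) (hρ1 : ρ ≤ 1)
    (h : ∀ r, 0 < r → r < ρ → GoodAt p r) : ρ ∈ admissibleRadii p := by
  refine ⟨hρ, hρ1, ?_⟩
  intro f g hf _ hs r hr hrρ
  exact integralMean_le_of_goodAt hp hr (hrρ.trans_le hρ1) (h r hr hrρ) hf hs

/-- The pair `f(z) = z`, `g(z) = z²`. -/
lemma admissible_le_half {p ρ : ℝ} (hp : 0 < p) (hρ : ρ ∈ admissibleRadii p) : ρ ≤ 1 / 2 := by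
  by_contra hlt
  push Not at hlt
  set r : ℝ := (1 / 2 + ρ) / 2 with hr
  have hr1 : 1 / 2 < r := by rw [hr]; linarith
  have hr2 : r < ρ := by rw [hr]; linarith
  have hr0 : 0 < r := by linarith
  have hφ : Schwarz (fun z : ℂ => z ^ 2) := by
    refine ⟨by fun_prop, ?_, by simp⟩
    intro z hz
    simp only [mem_ball, dist_zero_right] at hz
    simp only [mem_ball, dist_zero_right, norm_pow]
    exact pow_lt_one₀ (norm_nonneg _) hz two_ne_zero
  have h1 := goodAt_of_mem hp hρ hr0 hr2 (fun z => z ^ 2) (fun _ => 1) hφ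
    (differentiableOn_const 1)
  have e1 : circleAverage (fun z : ℂ => ‖(1 : ℂ)‖ ^ p * ‖deriv (fun z : ℂ => z ^ 2) z‖ ^ p) 0 r =
      (2 * r) ^ p := by
    rw [← circleAverage_const ((2 * r) ^ p) 0 r]
    refine circleAverage_congr_sphere ?_
    intro z hz
    rw [abs_of_nonneg hr0.le] at hz
    simp only [mem_sphere_iff_norm, sub_zero] at hz
    simp [hz]
  rw [e1] at h1
  simp only [norm_one, Real.one_rpow, circleAverage_const] at h1
  have h2 : 1 < (2 * r) ^ p := Real.one_lt_rpow (by linarith) hp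
  linarith

lemma half_mem_of_le_two {p : ℝ} (hp : 0 < p) (hp2 : p ≤ 2) :
    (1 / 2 : ℝ) ∈ admissibleRadii p := by
  refine mem_admissible_of_goodAt hp (by norm_num) (by norm_num) ?_
  intro r hr hr2
  exact goodAt_mono hp hp2 hr (by linarith) (goodAt_two hr hr2.le)

lemma radius_eq_half_iff {p : ℝ} (hp : 0 < p) :
    subordinationRadius p = 1 / 2 ↔ (1 / 2 : ℝ) ∈ admissibleRadii p := by
  constructor
  · intro h
    refine mem_admissible_of_goodAt hp (by norm_num) (by norm_num) ?_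
    intro r hr hr2
    have hne : (admissibleRadii p).Nonempty := by
      by_contra hemp
      rw [Set.not_nonempty_iff_eq_empty] at hemp
      unfold subordinationRadius at h
      rw [hemp, Real.sSup_empty] at h
      norm_num at h
    have hlt : r < sSup (admissibleRadii p) := by
      unfold subordinationRadius at h
      rw [h]
      exact hr2
    obtain ⟨ρ, hρ, hrρ⟩ := exists_lt_of_lt_csSup hne hlt
    exact goodAt_of_mem hp hρ hr hrρ
  · intro h
    have : IsGreatest (admissibleRadii p) (1 / 2) := ⟨h, fun ρ hρ => admissible_le_half hp hρ⟩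
    exact this.csSup_eq

end Pool.Agent.LibMP140d1b
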