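import Mathlib
import Pool.Agent.Lib_MP_140d1b_an.Main

/-!
Goluzin's inequality with an explicit remainder.
-/

namespace Pool.Agent.LibMP140d1b

open Complex Metric Set Filter Topology Real

/-- Taylor coefficients of a polynomial plus a function of high order. -/
lemma tc_pe_add {c : ℕ → ℂ} {m : ℕ} {G : ℂ → ℂ} (hG : AnalyticAt ℂ G 0) {k : ℕ} (hk : k < m) :
    tc (fun z => pe c m z + z ^ m * G z) k = c k := by
  have h1 : AnalyticAt ℂ (fun z : ℂ => z ^ m * G z) 0 := by fun_prop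
  have h2 : (m : ℕ∞) ≤ analyticOrderAt (fun z : ℂ => z ^ m * G z) 0 := by
    rw [natCast_le_analyticOrderAt h1]
    exact ⟨G, hG, by simp⟩
  rw [tc_congr_of_order ((pe_differentiable c m).analyticAt 0) h1 h2 hk]
  unfold tc pe
  rw [iteratedDeriv_fun_sum (fun i _ => by fun_prop)]
  have h3 : ∀ i ∈ Finset.range m, iteratedDeriv k (fun z : ℂ => c i * z ^ i) 0 =
      if i = k then c i * (k.factorial : ℂ) else 0 := by
    intro i _
    rw [iteratedDeriv_const_mul_field, iteratedDeriv_fun_pow_zero]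
    by_cases hik : i = k
    · subst hik
      simp
    · have : k ≠ i := fun h => hik h.symm
      simp [hik, this]
  rw [Finset.sum_congr rfl h3, Finset.sum_ite_eq' , if_pos (Finset.mem_range.mpr hk)]
  have : (k.factorial : ℂ) ≠ 0 := by exact_mod_cast k.factorial_ne_zero
  field_simp

lemma taylor_split {g : ℂ → ℂ} (hg : AnalyticAt ℂ g 0) (m : ℕ) :
    ∃ G : ℂ → ℂ, AnalyticAt ℂ G 0 ∧ ∀ z, g z = pe (tc g) m z + z ^ m * G z := by
  obtain ⟨G, hG, h⟩ := hg.exists_eq_sum_add_pow_mul m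
  refine ⟨G, hG, fun z => ?_⟩
  rw [h z]
  simp only [smul_eq_mul, pe, tc]
  congr 1
  refine Finset.sum_congr rfl ?_
  intro i _
  ring

/-- Truncated contraction property of multiplication by a function bounded by one. -/
lemma trunc_mul {ω g : ℂ → ℂ} (hω : DifferentiableOn ℂ ω (ball 0 1))
    (hω1 : ∀ z ∈ ball (0 : ℂ) 1, ‖ω z‖ ≤ 1) (hg : DifferentiableOn ℂ g (ball 0 1)) (m : ℕ) :
    ∑ k ∈ Finset.range m, ‖tc (fun z => ω z * g z) k‖ ^ 2 ≤
      ∑ k ∈ Finset.range m, ‖tc g k‖ ^ 2 := by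
  have h0mem : (0 : ℂ) ∈ ball (0 : ℂ) 1 := by simp
  have hωa : AnalyticAt ℂ ω 0 := hω.analyticAt (isOpen_ball.mem_nhds h0mem)
  have hga : AnalyticAt ℂ g 0 := hg.analyticAt (isOpen_ball.mem_nhds h0mem)
  obtain ⟨G, hG, hgG⟩ := taylor_split hga m
  have hcoef : ∀ k < m, tc (fun z => ω z * g z) k = tc (fun z => ω z * pe (tc g) m z) k := by
    intro k hk
    have hsplit : (fun z => ω z * g z) =
        fun z => ω z * pe (tc g) m z + z ^ m * (ω z * G z) := by
      funext z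
      rw [hgG z]
      ring
    rw [hsplit]
    have h1 : AnalyticAt ℂ (fun z : ℂ => z ^ m * (ω z * G z)) 0 := by fun_prop
    refine tc_congr_of_order (m := m) ?_ h1 ?_ hk
    · exact hωa.mul ((pe_differentiable _ m).analyticAt 0)
    · rw [natCast_le_analyticOrderAt h1]
      exact ⟨fun z => ω z * G z, by fun_prop, by simp⟩
  rw [Finset.sum_congr rfl (fun k hk => by rw [hcoef k (Finset.mem_range.mp hk)])]
  have hineq : ∀ r ∈ Ico (0 : ℝ) 1,
      ∑ k ∈ Finset.range m, ‖tc (fun z => ω z * pe (tc g) m z) k‖ ^ 2 * (r ^ 2) ^ k ≤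
      ∑ k ∈ Finset.range m, ‖tc g k‖ ^ 2 * (r ^ 2) ^ k := by
    intro r hr
    have hsub := sphere_subset_ball_one hr.2
    have hdiff : DifferentiableOn ℂ (fun z => ω z * pe (tc g) m z) (ball 0 1) :=
      hω.mul (pe_differentiable _ m).differentiableOn
    have h1 := parseval hr.1 hr.2 hdiff
    have h2 := sum_le_hasSum (Finset.range m) (fun k _ => by positivity) h1
    refine h2.trans ?_
    rw [← circleAverage_poly (tc g) m r]
    have hωc : ContinuousOn ω (sphere 0 r) := hω.continuousOn.mono hsub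
    have hpc : ContinuousOn (pe (tc g) m) (sphere 0 r) := (pe_continuous _ m).continuousOn
    refine circleAverage_mono ?_ ?_ ?_
    · exact ((hωc.mul hpc).norm.pow 2).circleIntegrable hr.1
    · exact (hpc.norm.pow 2).circleIntegrable hr.1
    · intro z hz
      rw [abs_of_nonneg hr.1] at hz
      have h3 := hω1 z (hsub hz)
      rw [norm_mul, mul_pow]
      have h4 : ‖ω z‖ ^ 2 ≤ 1 := pow_le_one₀ (norm_nonneg _) h3
      have h5 : 0 ≤ ‖pe (tc g) m z‖ ^ 2 := by positivity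
      calc ‖ω z‖ ^ 2 * ‖pe (tc g) m z‖ ^ 2 ≤ 1 * ‖pe (tc g) m z‖ ^ 2 := by gcongr
        _ = _ := one_mul _
  have hcl : (1 : ℝ) ∈ closure (Ico (0 : ℝ) 1) := by
    rw [closure_Ico zero_ne_one]
    exact ⟨zero_le_one, le_refl 1⟩
  have hfin := ContinuousWithinAt.closure_le (s := Ico (0 : ℝ) 1) (x := 1)
    (f := fun r : ℝ => ∑ k ∈ Finset.range m,
      ‖tc (fun z => ω z * pe (tc g) m z) k‖ ^ 2 * (r ^ 2) ^ k)
    (g := fun r : ℝ => ∑ k ∈ Finset.range m, ‖tc g k‖ ^ 2 * (r ^ 2) ^ k) hcl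
    (Continuous.continuousWithinAt (by fun_prop)) (Continuous.continuousWithinAt (by fun_prop))
    hineq
  simpa using hfin

/-- Parseval for `J g + z g'`. -/
lemma parseval_euler {g : ℂ → ℂ} (hg : DifferentiableOn ℂ g (ball 0 1)) {r : ℝ} (hr : 0 ≤ r)
    (hr1 : r < 1) (J : ℕ) :
    HasSum (fun k : ℕ => ((k : ℝ) + J) ^ 2 * ‖tc g k‖ ^ 2 * (r ^ 2) ^ k)
      (circleAverage (fun z => ‖(J : ℂ) * g z + z * deriv g z‖ ^ 2) 0 r) := by
  have hd : DifferentiableOn ℂ (fun z => (J : ℂ) * g z + z * deriv g z) (ball 0 1) :=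
    (hg.const_mul _).add (differentiableOn_id.mul (hg.deriv isOpen_ball))
  have h := parseval hr hr1 hd
  refine h.congr_fun ?_ |> fun h => h
  intro k
  have h0mem : (0 : ℂ) ∈ ball (0 : ℂ) 1 := by simp
  have hga : AnalyticAt ℂ g 0 := hg.analyticAt (isOpen_ball.mem_nhds h0mem)
  -- Taylor coefficient
  have hcoef : tc (fun z => (J : ℂ) * g z + z * deriv g z) k = ((k : ℂ) + J) * tc g k := by
    obtain ⟨G, hG, hgG⟩ := taylor_split hga (k + 1)
    obtain ⟨H, hH, hgH⟩ := taylor_split hga.deriv k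
    have hsplit : (fun z => (J : ℂ) * g z + z * deriv g z) = fun z =>
        pe (fun i => ((i : ℂ) + J) * tc g i) (k + 1) z + z ^ (k + 1) * ((J : ℂ) * G z + H z) := by
      funext z
      rw [hgG z, hgH z]
      have e : pe (fun i => ((i : ℂ) + J) * tc g i) (k + 1) z =
          (J : ℂ) * pe (tc g) (k + 1) z + z * pe (tc (deriv g)) k z := by
        simp only [pe, tc_deriv, Finset.mul_sum]
        rw [Finset.sum_range_succ' (fun i => ((i : ℂ) + J) * tc g i * z ^ i),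
          Finset.sum_range_succ' (fun i => (J : ℂ) * (tc g i * z ^ i))]
        have : ∑ i ∈ Finset.range k, (((i + 1 : ℕ) : ℂ) + J) * tc g (i + 1) * z ^ (i + 1) =
            ∑ i ∈ Finset.range k, (J : ℂ) * (tc g (i + 1) * z ^ (i + 1)) +
            ∑ i ∈ Finset.range k, z * (((i : ℂ) + 1) * tc g (i + 1) * z ^ i) := by
          rw [← Finset.sum_add_distrib]
          refine Finset.sum_congr rfl ?_
          intro i _
          push_cast
          ring
        rw [this]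
        push_cast
        ring
      rw [e]
      ring
    rw [hsplit]
    exact tc_pe_add (by fun_prop) (Nat.lt_succ_self k)
  rw [hcoef, norm_mul, mul_pow]
  have : ‖((k : ℂ) + J)‖ = (k : ℝ) + J := by
    have h : ((k : ℂ) + J) = (((k : ℝ) + J : ℝ) : ℂ) := by push_cast; ring
    rw [h, Complex.norm_real, Real.norm_eq_abs, abs_of_nonneg (by positivity)]
  rw [this]

/-- The key step: multiplication by `ω` decreases the norm of `(z^J g)'`, with a remainder. -/
lemma key_step {ω g : ℂ → ℂ} (hω : DifferentiableOn ℂ ω (ball 0 1))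
    (hω1 : ∀ z ∈ ball (0 : ℂ) 1, ‖ω z‖ ≤ 1) (hg : DifferentiableOn ℂ g (ball 0 1))
    {r : ℝ} (hr : 0 ≤ r) (hr2 : r ≤ 1 / 2) {J : ℕ} (hJ : 1 ≤ J) :
    circleAverage (fun z => ‖(J : ℂ) * (ω z * g z) + z * deriv (fun z => ω z * g z) z‖ ^ 2) 0 r +
      ((J : ℝ) ^ 2 - (J + 1) ^ 2 * r ^ 2) / (1 - r ^ 2) *
        (circleAverage (fun z => ‖g z‖ ^ 2) 0 r - circleAverage (fun z => ‖ω z * g z‖ ^ 2) 0 r) ≤
    circleAverage (fun z => ‖(J : ℂ) * g z + z * deriv g z‖ ^ 2) 0 r := by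
  have hr1 : r < 1 := by linarith
  have hωg : DifferentiableOn ℂ (fun z => ω z * g z) (ball 0 1) := hω.mul hg
  have s1 := parseval_euler hg hr hr1 J
  have s2 := parseval_euler hωg hr hr1 J
  have s3 := parseval hr hr1 hg
  have s4 := parseval hr hr1 hωg
  set t : ℝ := r ^ 2 with ht
  have ht0 : 0 ≤ t := by positivity
  have ht4 : t ≤ 1 / 4 := by
    rw [ht]
    calc r ^ 2 ≤ (1 / 2) ^ 2 := by gcongr
      _ = 1 / 4 := by norm_num
  have ht1 : 0 < 1 - t := by linarith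
  set κ : ℝ := ((J : ℝ) ^ 2 - (J + 1) ^ 2 * t) / (1 - t) with hκ
  have hκe : κ * (1 - t) = (J : ℝ) ^ 2 - (J + 1) ^ 2 * t := by
    rw [hκ]
    field_simp
  have hJ' : (1 : ℝ) ≤ J := by exact_mod_cast hJ
  have hκJ : κ ≤ (J : ℝ) ^ 2 := by
    rw [hκ, div_le_iff₀ ht1]
    nlinarith
  -- weights
  set w : ℕ → ℝ := fun k => (((k : ℝ) + J) ^ 2 - κ) * t ^ k with hw
  have hw0 : ∀ k, 0 ≤ w k := by
    intro k
    have hk : (0 : ℝ) ≤ k := Nat.cast_nonneg k
    have : κ ≤ ((k : ℝ) + J) ^ 2 := by nlinarith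
    simp only [hw]
    exact mul_nonneg (by linarith) (by positivity)
  have hwanti : ∀ k, w (k + 1) ≤ w k := by
    intro k
    have hk : (0 : ℝ) ≤ k := Nat.cast_nonneg k
    simp only [hw]
    push_cast
    have h1 : (((k : ℝ) + 1 + J) ^ 2 - κ) * t ≤ ((k : ℝ) + J) ^ 2 - κ := by
      have h2 : ((k : ℝ) + 1 + J) ^ 2 * t - ((J : ℝ) + 1) ^ 2 * t ≤
          ((k : ℝ) + J) ^ 2 - (J : ℝ) ^ 2 := by
        have h3 : (k : ℝ) * (k + 2 * J + 2) * t ≤ k * (k + 2 * J) := by
          have h4 : ((k : ℝ) + 2 * J + 2) * t ≤ k + 2 * J := by nlinarith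
          calc (k : ℝ) * (k + 2 * J + 2) * t = k * (((k : ℝ) + 2 * J + 2) * t) := by ring
            _ ≤ k * (k + 2 * J) := by gcongr
        nlinarith
      nlinarith [hκe]
    calc (((k : ℝ) + 1 + J) ^ 2 - κ) * t ^ (k + 1)
        = ((((k : ℝ) + 1 + J) ^ 2 - κ) * t) * t ^ k := by ring
      _ ≤ (((k : ℝ) + J) ^ 2 - κ) * t ^ k := by gcongr
  have hd : ∀ m, 0 ≤ ∑ k ∈ Finset.range m,
      (‖tc g k‖ ^ 2 - ‖tc (fun z => ω z * g z) k‖ ^ 2) := by
    intro m
    rw [Finset.sum_sub_distrib]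
    linarith [trunc_mul hω hω1 hg m]
  have habel := abel_nonneg hw0 hwanti hd
  have hS := ((s1.sub s2).sub ((s3.sub s4).mul_left κ))
  have hnn : 0 ≤ (circleAverage (fun z => ‖(J : ℂ) * g z + z * deriv g z‖ ^ 2) 0 r -
      circleAverage (fun z => ‖(J : ℂ) * (ω z * g z) +
        z * deriv (fun z => ω z * g z) z‖ ^ 2) 0 r) -
      κ * (circleAverage (fun z => ‖g z‖ ^ 2) 0 r -
        circleAverage (fun z => ‖ω z * g z‖ ^ 2) 0 r) := by
    refine ge_of_tendsto' hS.tendsto_sum_nat ?_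
    intro m
    refine (habel m).trans_eq ?_
    refine Finset.sum_congr rfl ?_
    intro k _
    simp only [hw]
    ring
  linarith

end Pool.Agent.LibMP140d1b
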