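import Mathlib
import Pool.Agent.Lib_MP_140d1b_an.Defect

/-!
Goluzin's inequality with remainder for compositions, and the resulting weighted inequality.
-/

namespace Pool.Agent.LibMP140d1b

open Complex Metric Set Filter Topology Real

/-- The coefficient `κ_J(t) = (J² - (J+1)² t)/(1 - t)`. -/
noncomputable def kap (r : ℝ) (J : ℕ) : ℝ := ((J : ℝ) ^ 2 - (J + 1) ^ 2 * r ^ 2) / (1 - r ^ 2)

/-- The defect of multiplication by `ω`. -/
noncomputable def Ldef (ω : ℂ → ℂ) (r : ℝ) (g : ℂ → ℂ) : ℝ :=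
  circleAverage (fun z => ‖g z‖ ^ 2) 0 r - circleAverage (fun z => ‖ω z * g z‖ ^ 2) 0 r

lemma pe_succ (c : ℕ → ℂ) (N : ℕ) (w : ℂ) :
    pe c (N + 1) w = c 0 + w * pe (fun k => c (k + 1)) N w := by
  simp only [pe, Finset.sum_range_succ', pow_zero, mul_one, Finset.mul_sum]
  rw [add_comm]
  congr 1
  refine Finset.sum_congr rfl ?_
  intro k _
  ring

/-- The factor `ω = φ/z`. -/
structure Factor (φ ω : ℂ → ℂ) : Prop where
  diff : DifferentiableOn ℂ ω (ball 0 1)
  le_one : ∀ z ∈ ball (0 : ℂ) 1, ‖ω z‖ ≤ 1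
  eq : ∀ z, φ z = z * ω z

lemma Schwarz.exists_factor {φ : ℂ → ℂ} (hφ : Schwarz φ) : ∃ ω : ℂ → ℂ, Factor φ ω := by
  refine ⟨dslope φ 0, ?_, ?_, ?_⟩
  · exact (differentiableOn_dslope (isOpen_ball.mem_nhds (mem_ball_self one_pos))).mpr hφ.diff
  · intro z hz
    have hmaps : MapsTo φ (ball 0 1) (closedBall (φ 0) 1) := by
      rw [hφ.zero]
      exact hφ.maps.mono_right ball_subset_closedBall
    have := Complex.norm_dslope_le_div_of_mapsTo_ball hφ.diff hmaps hz
    simpa using this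
  · intro z
    have := sub_smul_dslope φ 0 z
    simp only [sub_zero, smul_eq_mul, hφ.zero] at this
    exact this.symm

/-- The sum of remainders. -/
noncomputable def Rem (φ ω : ℂ → ℂ) (r : ℝ) (J N : ℕ) (c : ℕ → ℂ) : ℝ :=
  ∑ i ∈ Finset.range N, kap r (J + i) * (r ^ 2) ^ i *
    Ldef ω r (fun z => pe (fun k => c (k + i)) (N - i) (φ z))

lemma Rem_succ (φ ω : ℂ → ℂ) (r : ℝ) (J N : ℕ) (c : ℕ → ℂ) :
    Rem φ ω r J (N + 1) c = kap r J * Ldef ω r (fun z => pe c (N + 1) (φ z)) +
      r ^ 2 * Rem φ ω r (J + 1) N (fun k => c (k + 1)) := by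
  unfold Rem
  rw [Finset.sum_range_succ', Finset.mul_sum, add_comm]
  congr 1
  · simp
  · refine Finset.sum_congr rfl ?_
    intro i _
    have e1 : (fun z => pe (fun k => c (k + (i + 1))) (N + 1 - (i + 1)) (φ z)) =
        fun z => pe (fun k => c (k + i + 1)) (N - i) (φ z) := by
      funext z
      rw [Nat.add_sub_add_right]
      rfl
    rw [e1]
    have e2 : J + (i + 1) = J + 1 + i := by ring
    rw [e2]
    ring

/-- The main recursion. -/
lemma recursion {φ ω : ℂ → ℂ} (hφ : Schwarz φ) (hω : Factor φ ω) {r : ℝ} (hr : 0 ≤ r)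
    (hr2 : r ≤ 1 / 2) (N : ℕ) : ∀ (c : ℕ → ℂ) (J : ℕ), 1 ≤ J →
    circleAverage (fun z => ‖(J : ℂ) * pe c N (φ z) +
      z * deriv (fun z => pe c N (φ z)) z‖ ^ 2) 0 r + Rem φ ω r J N c ≤
    ∑ i ∈ Finset.range N, ((J : ℝ) + i) ^ 2 * ‖c i‖ ^ 2 * (r ^ 2) ^ i +
      kap r J * Ldef ω r (fun z => pe c N (φ z)) := by
  have hr1 : r < 1 := by linarith
  have hsub := sphere_subset_ball_one hr1
  induction N with
  | zero =>
    intro c J _
    simp [pe, Rem, Ldef, circleAverage_const]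
  | succ N ih =>
    intro c J hJ
    set c' : ℕ → ℂ := fun k => c (k + 1) with hc'
    have hgd : DifferentiableOn ℂ (fun z => pe c' N (φ z)) (ball 0 1) :=
      (pe_differentiable c' N).comp_differentiableOn hφ.diff
    have hωg : DifferentiableOn ℂ (fun z => ω z * pe c' N (φ z)) (ball 0 1) := hω.diff.mul hgd
    have hωg' := hωg.deriv isOpen_ball
    have hfun : (fun z => pe c (N + 1) (φ z)) = fun z => c 0 + z * (ω z * pe c' N (φ z)) := by
      funext z
      rw [pe_succ, hω.eq z]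
      ring
    have hderiv : ∀ z ∈ ball (0 : ℂ) 1, deriv (fun z => pe c (N + 1) (φ z)) z =
        ω z * pe c' N (φ z) + z * deriv (fun z => ω z * pe c' N (φ z)) z := by
      intro z hz
      rw [hfun]
      have h1 : HasDerivAt (fun z => ω z * pe c' N (φ z))
          (deriv (fun z => ω z * pe c' N (φ z)) z) z :=
        (hωg.differentiableAt (isOpen_ball.mem_nhds hz)).hasDerivAt
      have h2 := ((hasDerivAt_id z).mul h1).const_add (c 0)
      have h3 := h2.deriv
      simp only [id] at h3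
      calc deriv (fun z => c 0 + z * (ω z * pe c' N (φ z))) z
          = 1 * (ω z * pe c' N (φ z)) + z * deriv (fun z => ω z * pe c' N (φ z)) z := h3
        _ = _ := by ring
    -- average of the first term
    have e1 : circleAverage (fun z => ‖(J : ℂ) * pe c (N + 1) (φ z) +
        z * deriv (fun z => pe c (N + 1) (φ z)) z‖ ^ 2) 0 r =
        circleAverage (fun z => ‖(J : ℂ) * c 0 + z * (((J + 1 : ℕ) : ℂ) *
          (ω z * pe c' N (φ z)) + z * deriv (fun z => ω z * pe c' N (φ z)) z)‖ ^ 2) 0 r := by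
      refine circleAverage_congr_sphere ?_
      intro z hz
      rw [abs_of_nonneg hr] at hz
      have h1 := hderiv z (hsub hz)
      have h2 : pe c (N + 1) (φ z) = c 0 + z * (ω z * pe c' N (φ z)) := congrFun hfun z
      simp only
      rw [h1, h2]
      congr 2
      push_cast
      ring
    have hd1 : DifferentiableOn ℂ (fun z => z * (((J + 1 : ℕ) : ℂ) *
          (ω z * pe c' N (φ z)) + z * deriv (fun z => ω z * pe c' N (φ z)) z)) (ball 0 1) :=
      differentiableOn_id.mul ((hωg.const_mul _).add (differentiableOn_id.mul hωg'))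
    have e2 := circleAverage_add_const hr hr1 hd1 (by simp) ((J : ℂ) * c 0)
    have e3 : circleAverage (fun z => ‖z * (((J + 1 : ℕ) : ℂ) *
          (ω z * pe c' N (φ z)) + z * deriv (fun z => ω z * pe c' N (φ z)) z)‖ ^ 2) 0 r =
        r ^ 2 * circleAverage (fun z => ‖((J + 1 : ℕ) : ℂ) *
          (ω z * pe c' N (φ z)) + z * deriv (fun z => ω z * pe c' N (φ z)) z‖ ^ 2) 0 r := by
      have := circleAverage_fun_smul (a := (r ^ 2 : ℝ)) (f := fun z => ‖((J + 1 : ℕ) : ℂ) *
          (ω z * pe c' N (φ z)) + z * deriv (fun z => ω z * pe c' N (φ z)) z‖ ^ 2)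
        (c := 0) (R := r)
      simp only [smul_eq_mul] at this
      rw [← this]
      refine circleAverage_congr_sphere ?_
      intro z hz
      rw [abs_of_nonneg hr] at hz
      simp only [mem_sphere_iff_norm, sub_zero] at hz
      simp only [norm_mul, mul_pow, hz]
    have hkey := key_step hω.diff hω.le_one hgd hr hr2 (J := J + 1) (by omega)
    have hih := ih c' (J + 1) (by omega)
    have hnormJ : ‖(J : ℂ) * c 0‖ ^ 2 = (J : ℝ) ^ 2 * ‖c 0‖ ^ 2 := by
      rw [norm_mul, mul_pow, Complex.norm_natCast]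
    rw [e1, e2, e3, Rem_succ, Finset.sum_range_succ', hnormJ]
    have hsum : ∑ i ∈ Finset.range N, ((J : ℝ) + ((i + 1 : ℕ) : ℝ)) ^ 2 * ‖c (i + 1)‖ ^ 2 *
        (r ^ 2) ^ (i + 1) = r ^ 2 * ∑ i ∈ Finset.range N,
          ((((J + 1 : ℕ) : ℝ)) + i) ^ 2 * ‖c' i‖ ^ 2 * (r ^ 2) ^ i := by
      rw [Finset.mul_sum]
      refine Finset.sum_congr rfl ?_
      intro i _
      simp only [hc']
      push_cast
      ring
    rw [hsum]
    have hkap : kap r (J + 1) = ((((J + 1 : ℕ) : ℝ)) ^ 2 - ((((J + 1 : ℕ) : ℝ)) + 1) ^ 2 * r ^ 2) /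
        (1 - r ^ 2) := rfl
    have hL : Ldef ω r (fun z => pe c' N (φ z)) =
        circleAverage (fun z => ‖pe c' N (φ z)‖ ^ 2) 0 r -
          circleAverage (fun z => ‖ω z * pe c' N (φ z)‖ ^ 2) 0 r := rfl
    rw [← hkap, ← hL] at hkey
    have ht : 0 ≤ r ^ 2 := by positivity
    have h5 : circleAverage (fun z => ‖((J + 1 : ℕ) : ℂ) *
          (ω z * pe c' N (φ z)) + z * deriv (fun z => ω z * pe c' N (φ z)) z‖ ^ 2) 0 r +
        Rem φ ω r (J + 1) N c' ≤ ∑ i ∈ Finset.range N,
          ((((J + 1 : ℕ) : ℝ)) + i) ^ 2 * ‖c' i‖ ^ 2 * (r ^ 2) ^ i := by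
      linarith
    have h6 := mul_le_mul_of_nonneg_left h5 ht
    simp only [Nat.cast_zero, add_zero, pow_zero, mul_one]
    nlinarith [h6]

/-- Goluzin's inequality with remainder. -/
lemma goluzin_remainder {φ ω : ℂ → ℂ} (hφ : Schwarz φ) (hω : Factor φ ω) {r : ℝ} (hr : 0 ≤ r)
    (hr2 : r ≤ 1 / 2) (a : ℕ → ℂ) (N : ℕ) :
    circleAverage (fun z => ‖pe a N (φ z)‖ ^ 2 * ‖deriv φ z‖ ^ 2) 0 r +
      Rem φ ω r 1 N (fun k => a k / ((k : ℂ) + 1)) ≤
      circleAverage (fun z => ‖pe a N z‖ ^ 2) 0 r := by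
  have hr1 : r < 1 := by linarith
  have hsub := sphere_subset_ball_one hr1
  set c : ℕ → ℂ := fun k => a k / ((k : ℂ) + 1) with hc
  have hcs : ∀ k, c k * ((k : ℂ) + 1) = a k := by
    intro k
    have h2 : ((k : ℂ) + 1) ≠ 0 := by exact_mod_cast Nat.succ_ne_zero k
    simp only [hc]
    field_simp
  -- `f w = w * pe c N w`, `f' = pe a N`
  have hpe : ∀ w, HasDerivAt (fun w => w * pe c N w) (pe a N w) w := by
    intro w
    have h1 : HasDerivAt (fun w => ∑ k ∈ Finset.range N, c k * w ^ (k + 1))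
        (∑ k ∈ Finset.range N, c k * (((k + 1 : ℕ) : ℂ) * w ^ (k + 1 - 1))) w :=
      HasDerivAt.fun_sum (fun k _ => (hasDerivAt_pow (k + 1) w).const_mul (c k))
    have h2 : ∑ k ∈ Finset.range N, c k * (((k + 1 : ℕ) : ℂ) * w ^ (k + 1 - 1)) = pe a N w := by
      simp only [pe, Nat.add_sub_cancel]
      refine Finset.sum_congr rfl ?_
      intro k _
      rw [← hcs k]
      push_cast
      ring
    have h3 : (fun w => w * pe c N w) = fun w => ∑ k ∈ Finset.range N, c k * w ^ (k + 1) := by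
      funext w
      simp only [pe, Finset.mul_sum]
      refine Finset.sum_congr rfl ?_
      intro k _
      ring
    rw [h3, ← h2]
    exact h1
  have hgd : DifferentiableOn ℂ (fun z => pe c N (φ z)) (ball 0 1) :=
    (pe_differentiable c N).comp_differentiableOn hφ.diff
  have hωg : DifferentiableOn ℂ (fun z => ω z * pe c N (φ z)) (ball 0 1) := hω.diff.mul hgd
  have e1 : circleAverage (fun z => ‖pe a N (φ z)‖ ^ 2 * ‖deriv φ z‖ ^ 2) 0 r =
      circleAverage (fun z => ‖((1 : ℕ) : ℂ) * (ω z * pe c N (φ z)) +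
        z * deriv (fun z => ω z * pe c N (φ z)) z‖ ^ 2) 0 r := by
    refine circleAverage_congr_sphere ?_
    intro z hz
    rw [abs_of_nonneg hr] at hz
    have hzb := hsub hz
    have h1 : HasDerivAt φ (deriv φ z) z :=
      (hφ.diff.differentiableAt (isOpen_ball.mem_nhds hzb)).hasDerivAt
    have h2 := (hpe (φ z)).comp z h1
    have h3 : HasDerivAt (fun z => ω z * pe c N (φ z))
        (deriv (fun z => ω z * pe c N (φ z)) z) z :=
      (hωg.differentiableAt (isOpen_ball.mem_nhds hzb)).hasDerivAt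
    have h4 := (hasDerivAt_id z).mul h3
    have h5 : ((fun w => w * pe c N w) ∘ φ) = (id * fun z => ω z * pe c N (φ z)) := by
      funext y
      simp only [Function.comp_apply, Pi.mul_apply, id]
      nth_rewrite 1 [hω.eq y]
      ring
    rw [h5] at h2
    have h6 := h2.unique h4
    simp only [id] at h6
    simp only
    rw [← mul_pow, ← norm_mul, h6]
    congr 2
    push_cast
    ring
  have hkey := key_step hω.diff hω.le_one hgd hr hr2 (J := 1) le_rfl
  have hrec := recursion hφ hω hr hr2 N c 1 le_rfl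
  have hkap : kap r 1 = ((((1 : ℕ) : ℝ)) ^ 2 - ((((1 : ℕ) : ℝ)) + 1) ^ 2 * r ^ 2) /
      (1 - r ^ 2) := rfl
  have hL : Ldef ω r (fun z => pe c N (φ z)) =
      circleAverage (fun z => ‖pe c N (φ z)‖ ^ 2) 0 r -
        circleAverage (fun z => ‖ω z * pe c N (φ z)‖ ^ 2) 0 r := rfl
  rw [← hkap, ← hL] at hkey
  have hrhs : circleAverage (fun z => ‖pe a N z‖ ^ 2) 0 r =
      ∑ k ∈ Finset.range N, ((((1 : ℕ) : ℝ)) + k) ^ 2 * ‖c k‖ ^ 2 * (r ^ 2) ^ k := by
    have := circleAverage_poly a N r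
    unfold pe
    rw [this]
    refine Finset.sum_congr rfl ?_
    intro k _
    rw [← hcs k, norm_mul, mul_pow]
    have : ‖((k : ℂ) + 1)‖ = (k : ℝ) + 1 := by
      have h : ((k : ℂ) + 1) = (((k : ℝ) + 1 : ℝ) : ℂ) := by push_cast; ring
      rw [h, Complex.norm_real, Real.norm_eq_abs, abs_of_nonneg (by positivity)]
    rw [this]
    push_cast
    ring
  rw [e1, hrhs]
  linarith

/-- The polynomial identity `f' = ∑ w^i f_(i+1)`. -/
lemma pe_deriv_sum (N : ℕ) : ∀ (c : ℕ → ℂ) (w : ℂ), pe (fun k => ((k : ℂ) + 1) * c k) N w =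
    ∑ i ∈ Finset.range N, w ^ i * pe (fun k => c (k + i)) (N - i) w := by
  induction N with
  | zero => intro c w; simp [pe]
  | succ N ih =>
    intro c w
    rw [Finset.sum_range_succ', pe_succ]
    have h1 : ∀ i ∈ Finset.range N, w ^ (i + 1) * pe (fun k => c (k + (i + 1)))
        (N + 1 - (i + 1)) w = w * (w ^ i * pe (fun k => (fun k => c (k + 1)) (k + i))
          (N - i) w) := by
      intro i _
      rw [Nat.add_sub_add_right]
      have : (fun k => c (k + (i + 1))) = (fun k => (fun k => c (k + 1)) (k + i)) := by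
        funext k
        rfl
      rw [this]
      ring
    rw [Finset.sum_congr rfl h1, ← Finset.mul_sum, ← ih (fun k => c (k + 1)) w]
    simp only [pow_zero, one_mul, Nat.sub_zero, add_zero]
    rw [pe_succ c N w]
    have h2 : pe (fun k => (((k + 1 : ℕ) : ℂ) + 1) * c (k + 1)) N w =
        pe (fun k => c (k + 1)) N w + pe (fun k => ((k : ℂ) + 1) * c (k + 1)) N w := by
      simp only [pe, ← Finset.sum_add_distrib]
      refine Finset.sum_congr rfl ?_
      intro k _
      push_cast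
      ring
    rw [h2]
    push_cast
    ring

end Pool.Agent.LibMP140d1b
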