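import Mathlib
import Pool.Agent.Lib_MP_140d1b_an.Lower

/-!
The weighted form of Goluzin's inequality with remainder.
-/

namespace Pool.Agent.LibMP140d1b

open Complex Metric Set Filter Topology Real

lemma kap_den_pos {r : ℝ} (hr2 : r < 1 / 2) (i : ℕ) : 0 < ((i : ℝ) + 1) - (i + 2) * r := by
  have hi : (0 : ℝ) ≤ i := Nat.cast_nonneg i
  nlinarith

lemma kap_pos {r : ℝ} (hr : 0 ≤ r) (hr2 : r < 1 / 2) (i : ℕ) : 0 < kap r (1 + i) := by
  have hi : (0 : ℝ) ≤ i := Nat.cast_nonneg i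
  have h1 := kap_den_pos hr2 i
  have h2 : 0 < ((i : ℝ) + 1) + (i + 2) * r := by positivity
  unfold kap
  refine div_pos ?_ (by nlinarith)
  push_cast
  nlinarith [mul_pos h1 h2]

lemma inv_kap_le {r : ℝ} (hr : 0 ≤ r) (hr2 : r < 1 / 2) (hr0 : 1 ≤ r ^ 2 + 2 * r) (i : ℕ) :
    1 / kap r (1 + i) ≤ (1 - r) / (((i : ℝ) + 1) - (i + 2) * r) -
      (1 - r) / (((i : ℝ) + 1 + 1) - (i + 1 + 2) * r) := by
  have hi : (0 : ℝ) ≤ i := Nat.cast_nonneg i
  have h1 := kap_den_pos hr2 i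
  have h2 : 0 < ((i : ℝ) + 1) + (i + 2) * r := by positivity
  have h3 : 0 < ((i : ℝ) + 1 + 1) - (i + 1 + 2) * r := by nlinarith
  have h4 : 0 < 1 - r := by linarith
  have h5 : 0 < 1 - r ^ 2 := by nlinarith
  have e1 : 1 / kap r (1 + i) = (1 - r ^ 2) / ((((i : ℝ) + 1) - (i + 2) * r) *
      (((i : ℝ) + 1) + (i + 2) * r)) := by
    unfold kap
    rw [one_div_div]
    congr 1
    push_cast
    ring
  have e2 : (1 - r) / (((i : ℝ) + 1) - (i + 2) * r) -
      (1 - r) / (((i : ℝ) + 1 + 1) - (i + 1 + 2) * r) =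
      (1 - r) ^ 2 / ((((i : ℝ) + 1) - (i + 2) * r) * (((i : ℝ) + 1 + 1) - (i + 1 + 2) * r)) := by
    rw [div_sub_div _ _ h1.ne' h3.ne']
    congr 1
    ring
  rw [e1, e2, div_le_div_iff₀ (mul_pos h1 h2) (mul_pos h1 h3)]
  have key : (1 - r ^ 2) * (((i : ℝ) + 1 + 1) - (i + 1 + 2) * r) ≤
      (1 - r) ^ 2 * (((i : ℝ) + 1) + (i + 2) * r) := by
    have : (1 - r) ^ 2 * (((i : ℝ) + 1) + (i + 2) * r) -
        (1 - r ^ 2) * (((i : ℝ) + 1 + 1) - (i + 1 + 2) * r) =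
        (1 - r) * (r ^ 2 + 2 * r - 1) := by ring
    have h6 : 0 ≤ (1 - r) * (r ^ 2 + 2 * r - 1) := mul_nonneg h4.le (by linarith)
    linarith
  nlinarith [mul_le_mul_of_nonneg_left key h1.le]

lemma sum_inv_kap_le {r : ℝ} (hr : 0 ≤ r) (hr2 : r < 1 / 2) (hr0 : 1 ≤ r ^ 2 + 2 * r) (N : ℕ) :
    ∑ i ∈ Finset.range N, 1 / kap r (1 + i) ≤ (1 - r) / (1 - 2 * r) := by
  have h : ∑ i ∈ Finset.range N, 1 / kap r (1 + i) ≤ (1 - r) / (1 - 2 * r) -
      (1 - r) / (((N : ℝ) + 1) - (N + 2) * r) := by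
    induction N with
    | zero => simp
    | succ N ih =>
      rw [Finset.sum_range_succ]
      have := inv_kap_le hr hr2 hr0 N
      push_cast
      linarith
  have h2 : 0 ≤ (1 - r) / (((N : ℝ) + 1) - (N + 2) * r) :=
    div_nonneg (by linarith) (kap_den_pos hr2 N).le
  linarith

/-- The pointwise Cauchy–Schwarz estimate. -/
lemma pe_sq_le {r : ℝ} (hr : 0 ≤ r) (hr2 : r < 1 / 2) (hr0 : 1 ≤ r ^ 2 + 2 * r) (N : ℕ)
    (a : ℕ → ℂ) {w : ℂ} (hw : ‖w‖ ≤ r) :
    ‖pe a N w‖ ^ 2 ≤ (1 - r) / (1 - 2 * r) * ∑ i ∈ Finset.range N,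
      kap r (1 + i) * (r ^ 2) ^ i *
        ‖pe (fun k => (fun k => a k / ((k : ℂ) + 1)) (k + i)) (N - i) w‖ ^ 2 := by
  set c : ℕ → ℂ := fun k => a k / ((k : ℂ) + 1) with hc
  have hcs : ∀ k : ℕ, ((k : ℂ) + 1) * c k = a k := by
    intro k
    have h2 : ((k : ℂ) + 1) ≠ 0 := by exact_mod_cast Nat.succ_ne_zero k
    simp only [hc]
    field_simp
  have h1 : pe a N w = ∑ i ∈ Finset.range N, w ^ i * pe (fun k => c (k + i)) (N - i) w := by
    rw [← pe_deriv_sum N c w]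
    congr 1
    funext k
    exact (hcs k).symm
  rcases Nat.eq_zero_or_pos N with hN | hN
  · subst hN
    simp [pe]
  have hSpos : 0 < ∑ i ∈ Finset.range N, 1 / kap r (1 + i) := by
    refine Finset.sum_pos (fun i _ => ?_) ⟨0, by simpa using hN⟩
    exact one_div_pos.mpr (kap_pos hr hr2 i)
  have h2 : ‖pe a N w‖ ≤ ∑ i ∈ Finset.range N, ‖w‖ ^ i * ‖pe (fun k => c (k + i)) (N - i) w‖ := by
    rw [h1]
    refine (norm_sum_le _ _).trans (le_of_eq ?_)
    refine Finset.sum_congr rfl ?_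
    intro i _
    rw [norm_mul, norm_pow]
  have h3 : (∑ i ∈ Finset.range N, ‖w‖ ^ i * ‖pe (fun k => c (k + i)) (N - i) w‖) ^ 2 /
      ∑ i ∈ Finset.range N, 1 / kap r (1 + i) ≤ ∑ i ∈ Finset.range N,
      (‖w‖ ^ i * ‖pe (fun k => c (k + i)) (N - i) w‖) ^ 2 / (1 / kap r (1 + i)) :=
    Finset.sq_sum_div_le_sum_sq_div _ _ (fun i _ => one_div_pos.mpr (kap_pos hr hr2 i))
  have h4 : ∑ i ∈ Finset.range N,
      (‖w‖ ^ i * ‖pe (fun k => c (k + i)) (N - i) w‖) ^ 2 / (1 / kap r (1 + i)) ≤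
      ∑ i ∈ Finset.range N, kap r (1 + i) * (r ^ 2) ^ i *
        ‖pe (fun k => c (k + i)) (N - i) w‖ ^ 2 := by
    refine Finset.sum_le_sum ?_
    intro i _
    have hk := kap_pos hr hr2 i
    have h5 : (‖w‖ ^ i) ^ 2 ≤ (r ^ 2) ^ i := by
      rw [← pow_mul, mul_comm i 2, pow_mul]
      exact pow_le_pow_left₀ (by positivity) (pow_le_pow_left₀ (norm_nonneg _) hw 2) i
    rw [div_div_eq_mul_div, div_one, mul_pow]
    have h6 : 0 ≤ ‖pe (fun k => c (k + i)) (N - i) w‖ ^ 2 * kap r (1 + i) := by positivity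
    nlinarith [mul_le_mul_of_nonneg_right h5 h6]
  have h5 : ‖pe a N w‖ ^ 2 ≤
      (∑ i ∈ Finset.range N, ‖w‖ ^ i * ‖pe (fun k => c (k + i)) (N - i) w‖) ^ 2 :=
    pow_le_pow_left₀ (norm_nonneg _) h2 2
  set X := ∑ i ∈ Finset.range N, kap r (1 + i) * (r ^ 2) ^ i *
        ‖pe (fun k => c (k + i)) (N - i) w‖ ^ 2 with hX
  have hX0 : 0 ≤ X := by
    refine Finset.sum_nonneg ?_
    intro i _
    have := kap_pos hr hr2 i
    positivity
  have h6 := h3.trans h4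
  rw [div_le_iff₀ hSpos] at h6
  calc ‖pe a N w‖ ^ 2 ≤ _ := h5
    _ ≤ X * ∑ i ∈ Finset.range N, 1 / kap r (1 + i) := h6
    _ ≤ X * ((1 - r) / (1 - 2 * r)) :=
      mul_le_mul_of_nonneg_left (sum_inv_kap_le hr hr2 hr0 N) hX0
    _ = _ := by ring

/-- `Ldef` as a single average. -/
lemma Ldef_eq {ω g : ℂ → ℂ} (hω : DifferentiableOn ℂ ω (ball 0 1))
    (hg : DifferentiableOn ℂ g (ball 0 1)) {r : ℝ} (hr : 0 ≤ r) (hr1 : r < 1) :
    Ldef ω r g = circleAverage (fun z => (1 - ‖ω z‖ ^ 2) * ‖g z‖ ^ 2) 0 r := by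
  have hsub := sphere_subset_ball_one hr1
  have hω' := hω.continuousOn.mono hsub
  have hg' := hg.continuousOn.mono hsub
  have i1 : CircleIntegrable (fun z => ‖g z‖ ^ 2) 0 r := (hg'.norm.pow 2).circleIntegrable hr
  have i2 : CircleIntegrable (fun z => ‖ω z * g z‖ ^ 2) 0 r :=
    ((hω'.mul hg').norm.pow 2).circleIntegrable hr
  unfold Ldef
  rw [← circleAverage_fun_sub i1 i2]
  congr 1
  funext z
  rw [norm_mul, mul_pow]
  ring

/-- The weighted inequality. -/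
lemma weighted {φ ω : ℂ → ℂ} (hφ : Schwarz φ) (hω : Factor φ ω) {r : ℝ} (hr : 0 ≤ r)
    (hr2 : r < 1 / 2) (hr0 : 1 ≤ r ^ 2 + 2 * r) (a : ℕ → ℂ) (N : ℕ) :
    circleAverage (fun z => ‖pe a N (φ z)‖ ^ 2 * ‖deriv φ z‖ ^ 2) 0 r +
      (1 - 2 * r) / (1 - r) *
        circleAverage (fun z => ‖pe a N (φ z)‖ ^ 2 * (1 - ‖ω z‖ ^ 2)) 0 r ≤
      circleAverage (fun z => ‖pe a N z‖ ^ 2) 0 r := by
  have hr1 : r < 1 := by linarith
  have hsub := sphere_subset_ball_one hr1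
  have hrem := goluzin_remainder hφ hω hr hr2.le a N
  have hωc := hω.diff.continuousOn.mono hsub
  have hφc := hφ.diff.continuousOn.mono hsub
  have hgc : ∀ (b : ℕ → ℂ) (M : ℕ), ContinuousOn (fun z => pe b M (φ z)) (sphere 0 r) :=
    fun b M => (pe_continuous b M).comp_continuousOn hφc
  have hgd : ∀ (b : ℕ → ℂ) (M : ℕ), DifferentiableOn ℂ (fun z => pe b M (φ z)) (ball 0 1) :=
    fun b M => (pe_differentiable b M).comp_differentiableOn hφ.diff
  have h1 : circleAverage (fun z => ‖pe a N (φ z)‖ ^ 2 * (1 - ‖ω z‖ ^ 2)) 0 r ≤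
      (1 - r) / (1 - 2 * r) * Rem φ ω r 1 N (fun k => a k / ((k : ℂ) + 1)) := by
    have e1 : (1 - r) / (1 - 2 * r) * Rem φ ω r 1 N (fun k => a k / ((k : ℂ) + 1)) =
        circleAverage (fun z => (1 - r) / (1 - 2 * r) * (∑ i ∈ Finset.range N,
          kap r (1 + i) * (r ^ 2) ^ i * ((1 - ‖ω z‖ ^ 2) *
            ‖pe (fun k => (fun k => a k / ((k : ℂ) + 1)) (k + i)) (N - i) (φ z)‖ ^ 2))) 0 r := by
      have e2 := circleAverage_fun_smul (a := ((1 - r) / (1 - 2 * r) : ℝ))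
        (f := fun z => (∑ i ∈ Finset.range N,
          kap r (1 + i) * (r ^ 2) ^ i * ((1 - ‖ω z‖ ^ 2) *
            ‖pe (fun k => (fun k => a k / ((k : ℂ) + 1)) (k + i)) (N - i) (φ z)‖ ^ 2)))
        (c := 0) (R := r)
      simp only [smul_eq_mul] at e2
      rw [e2]
      congr 1
      rw [circleAverage_fun_sum]
      · unfold Rem
        refine Finset.sum_congr rfl ?_
        intro i _
        rw [Ldef_eq hω.diff (hgd _ _) hr hr1]
        have e3 := circleAverage_fun_smul (a := (kap r (1 + i) * (r ^ 2) ^ i : ℝ))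
          (f := fun z => (1 - ‖ω z‖ ^ 2) *
            ‖pe (fun k => (fun k => a k / ((k : ℂ) + 1)) (k + i)) (N - i) (φ z)‖ ^ 2)
          (c := 0) (R := r)
        simp only [smul_eq_mul] at e3
        rw [e3]
      · intro i _
        refine ContinuousOn.circleIntegrable hr ?_
        exact continuousOn_const.mul ((continuousOn_const.sub (hωc.norm.pow 2)).mul
          ((hgc _ _).norm.pow 2))
    rw [e1]
    refine circleAverage_mono ?_ ?_ ?_
    · refine ContinuousOn.circleIntegrable hr ?_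
      exact ((hgc _ _).norm.pow 2).mul (continuousOn_const.sub (hωc.norm.pow 2))
    · refine ContinuousOn.circleIntegrable hr ?_
      refine continuousOn_const.mul (continuousOn_finsetSum _ ?_)
      intro i _
      exact continuousOn_const.mul ((continuousOn_const.sub (hωc.norm.pow 2)).mul
          ((hgc _ _).norm.pow 2))
    · intro z hz
      rw [abs_of_nonneg hr] at hz
      have hzb := hsub hz
      simp only [mem_sphere_iff_norm, sub_zero] at hz
      have hφr : ‖φ z‖ ≤ r := (hφ.norm_le hzb).trans hz.le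
      have h2 := pe_sq_le hr hr2 hr0 N a hφr
      have h3 : 0 ≤ 1 - ‖ω z‖ ^ 2 := by
        have := hω.le_one z hzb
        have := norm_nonneg (ω z)
        nlinarith
      have h4 := mul_le_mul_of_nonneg_right h2 h3
      refine h4.trans (le_of_eq ?_)
      rw [mul_assoc, Finset.sum_mul]
      congr 1
      refine Finset.sum_congr rfl ?_
      intro i _
      ring
  have h5 : 0 < 1 - 2 * r := by linarith
  have h6 : 0 < 1 - r := by linarith
  have h7 := mul_le_mul_of_nonneg_left h1 (by positivity : 0 ≤ (1 - 2 * r) / (1 - r))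
  have h8 : (1 - 2 * r) / (1 - r) * ((1 - r) / (1 - 2 * r) *
      Rem φ ω r 1 N (fun k => a k / ((k : ℂ) + 1))) =
      Rem φ ω r 1 N (fun k => a k / ((k : ℂ) + 1)) := by
    field_simp
  rw [h8] at h7
  linarith

end Pool.Agent.LibMP140d1b
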