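import Mathlib
import Pool.Agent.Lib_MP_140d1b_an.Weighted

/-!
The Schwarz–Pick inequality for derivatives and Dieudonné's estimate.
-/

namespace Pool.Agent.LibMP140d1b

open Complex Metric Set Filter Topology Real

lemma norm_sq_one_add_sub (a z : ℂ) :
    ‖1 + (starRingEnd ℂ) a * z‖ ^ 2 - ‖z + a‖ ^ 2 = (1 - ‖a‖ ^ 2) * (1 - ‖z‖ ^ 2) := by
  rw [Complex.sq_norm, Complex.sq_norm, Complex.sq_norm, Complex.sq_norm, Complex.normSq_apply,
    Complex.normSq_apply, Complex.normSq_apply, Complex.normSq_apply]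
  simp
  ring

lemma norm_add_lt_one_add {a z : ℂ} (ha : ‖a‖ < 1) (hz : ‖z‖ < 1) :
    ‖z + a‖ < ‖1 + (starRingEnd ℂ) a * z‖ := by
  have h := norm_sq_one_add_sub a z
  have ha' : 0 < 1 - ‖a‖ ^ 2 := by nlinarith [norm_nonneg a]
  have hz' : 0 < 1 - ‖z‖ ^ 2 := by nlinarith [norm_nonneg z]
  have h2 := mul_pos ha' hz'
  have h3 : ‖z + a‖ ^ 2 < ‖1 + (starRingEnd ℂ) a * z‖ ^ 2 := by linarith
  exact lt_of_pow_lt_pow_left₀ 2 (norm_nonneg _) h3

lemma one_add_ne {a z : ℂ} (ha : ‖a‖ < 1) (hz : ‖z‖ < 1) : 1 + (starRingEnd ℂ) a * z ≠ 0 := by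
  have := (norm_nonneg _).trans_lt (norm_add_lt_one_add ha hz)
  exact norm_pos_iff.mp this

lemma mobius_hasDerivAt {a z : ℂ} (ha : ‖a‖ < 1) (hz : ‖z‖ < 1) :
    HasDerivAt (fun z => (z + a) / (1 + (starRingEnd ℂ) a * z))
      ((1 - ‖a‖ ^ 2) / (1 + (starRingEnd ℂ) a * z) ^ 2) z := by
  have hne := one_add_ne ha hz
  have h1 : HasDerivAt (fun z : ℂ => z + a) 1 z := (hasDerivAt_id z).add_const a
  have h2 : HasDerivAt (fun z : ℂ => 1 + (starRingEnd ℂ) a * z) ((starRingEnd ℂ) a) z := by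
    have := ((hasDerivAt_id z).const_mul ((starRingEnd ℂ) a)).const_add 1
    simpa using this
  have h3 := h1.div h2 hne
  have h4 : (1 * (1 + (starRingEnd ℂ) a * z) - (z + a) * (starRingEnd ℂ) a) /
      (1 + (starRingEnd ℂ) a * z) ^ 2 = ((1 - ‖a‖ ^ 2 : ℂ)) / (1 + (starRingEnd ℂ) a * z) ^ 2 := by
    congr 1
    have : a * (starRingEnd ℂ) a = ((‖a‖ ^ 2 : ℝ) : ℂ) := by
      rw [Complex.mul_conj, Complex.normSq_eq_norm_sq]
    push_cast at this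
    rw [← this]
    ring
  rw [← h4]
  exact h3

/-- Schwarz–Pick for strict self-maps. -/
lemma schwarz_pick_strict {ω : ℂ → ℂ} (hω : DifferentiableOn ℂ ω (ball 0 1))
    (hmaps : MapsTo ω (ball 0 1) (ball 0 1)) {z : ℂ} (hz : z ∈ ball (0 : ℂ) 1) :
    ‖deriv ω z‖ * (1 - ‖z‖ ^ 2) ≤ 1 - ‖ω z‖ ^ 2 := by
  have hz1 : ‖z‖ < 1 := by simpa using hz
  have hb := hmaps hz
  have hb1 : ‖ω z‖ < 1 := by simpa using hb
  have hb1' : ‖-ω z‖ < 1 := by simpa using hb1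
  set T : ℂ → ℂ := fun w => (w + z) / (1 + (starRingEnd ℂ) z * w) with hT
  set S : ℂ → ℂ := fun w => (w + (-ω z)) / (1 + (starRingEnd ℂ) (-ω z) * w) with hS
  have hTd : ∀ w ∈ ball (0 : ℂ) 1, HasDerivAt T
      ((1 - ‖z‖ ^ 2) / (1 + (starRingEnd ℂ) z * w) ^ 2) w := by
    intro w hw
    exact mobius_hasDerivAt hz1 (by simpa using hw)
  have hSd : ∀ w ∈ ball (0 : ℂ) 1, HasDerivAt S
      ((1 - ‖-ω z‖ ^ 2) / (1 + (starRingEnd ℂ) (-ω z) * w) ^ 2) w := by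
    intro w hw
    exact mobius_hasDerivAt hb1' (by simpa using hw)
  have hTm : MapsTo T (ball 0 1) (ball 0 1) := by
    intro w hw
    have hw1 : ‖w‖ < 1 := by simpa using hw
    have h := norm_add_lt_one_add hz1 hw1
    simp only [hT, mem_ball, dist_zero_right, norm_div]
    rw [div_lt_one ((norm_nonneg _).trans_lt h)]
    exact h
  have hSm : MapsTo S (ball 0 1) (ball 0 1) := by
    intro w hw
    have hw1 : ‖w‖ < 1 := by simpa using hw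
    have h := norm_add_lt_one_add hb1' hw1
    simp only [hS, mem_ball, dist_zero_right, norm_div]
    rw [div_lt_one ((norm_nonneg _).trans_lt h)]
    exact h
  have hT0 : T 0 = z := by simp [hT]
  have hSb : S (ω z) = 0 := by simp [hS]
  set g : ℂ → ℂ := fun w => S (ω (T w)) with hg
  have hgd : DifferentiableOn ℂ g (ball 0 1) := by
    have h1 : DifferentiableOn ℂ T (ball 0 1) :=
      fun w hw => (hTd w hw).differentiableAt.differentiableWithinAt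
    have h2 : DifferentiableOn ℂ S (ball 0 1) :=
      fun w hw => (hSd w hw).differentiableAt.differentiableWithinAt
    exact h2.comp (hω.comp h1 hTm) (hmaps.comp hTm)
  have hg0 : g 0 = 0 := by simp only [hg, hT0, hSb]
  have hgm : MapsTo g (ball 0 1) (closedBall (g 0) 1) := by
    rw [hg0]
    exact (hSm.comp (hmaps.comp hTm)).mono_right ball_subset_closedBall
  have h1 := Complex.norm_deriv_le_one_of_mapsTo_ball hgd hgm one_pos
  have h2 : HasDerivAt g (((1 - ‖-ω z‖ ^ 2) / (1 + (starRingEnd ℂ) (-ω z) * (ω z)) ^ 2) *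
      (deriv ω z * ((1 - ‖z‖ ^ 2) / (1 + (starRingEnd ℂ) z * 0) ^ 2))) 0 := by
    have hT' := hTd 0 (mem_ball_self one_pos)
    have hω' : HasDerivAt ω (deriv ω z) (T 0) := by
      rw [hT0]
      exact (hω.differentiableAt (isOpen_ball.mem_nhds hz)).hasDerivAt
    have hS' : HasDerivAt S ((1 - ‖-ω z‖ ^ 2) / (1 + (starRingEnd ℂ) (-ω z) * (ω z)) ^ 2)
        ((ω ∘ T) 0) := by
      simp only [Function.comp_apply, hT0]
      exact hSd (ω z) hb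
    exact hS'.comp 0 (hω'.comp 0 hT')
  rw [h2.deriv] at h1
  have e1 : 1 + (starRingEnd ℂ) (-ω z) * (ω z) = ((1 - ‖ω z‖ ^ 2 : ℝ) : ℂ) := by
    have : (starRingEnd ℂ) (ω z) * ω z = ((‖ω z‖ ^ 2 : ℝ) : ℂ) := by
      rw [mul_comm, Complex.mul_conj, Complex.normSq_eq_norm_sq]
    rw [map_neg, neg_mul, this]
    push_cast
    ring
  have hpos : 0 < 1 - ‖ω z‖ ^ 2 := by nlinarith [norm_nonneg (ω z)]
  have hposz : 0 < 1 - ‖z‖ ^ 2 := by nlinarith [norm_nonneg z]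
  have e2 : ((1 - ‖-ω z‖ ^ 2) / (1 + (starRingEnd ℂ) (-ω z) * (ω z)) ^ 2) *
      (deriv ω z * ((1 - ‖z‖ ^ 2) / (1 + (starRingEnd ℂ) z * 0) ^ 2)) =
      (((1 - ‖ω z‖ ^ 2 : ℝ) : ℂ))⁻¹ * (deriv ω z * ((1 - ‖z‖ ^ 2 : ℝ) : ℂ)) := by
    rw [e1, norm_neg]
    have hne : ((1 - ‖ω z‖ ^ 2 : ℝ) : ℂ) ≠ 0 := by exact_mod_cast hpos.ne'
    have e3 : (1 - (‖ω z‖ : ℂ) ^ 2) = ((1 - ‖ω z‖ ^ 2 : ℝ) : ℂ) := by push_cast; ring
    have e4 : (1 - (‖z‖ : ℂ) ^ 2) = ((1 - ‖z‖ ^ 2 : ℝ) : ℂ) := by push_cast; ring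
    rw [e3, e4, mul_zero, add_zero, one_pow, div_one]
    field_simp
  rw [e2, norm_mul, norm_mul, norm_inv, Complex.norm_real, Complex.norm_real,
    Real.norm_eq_abs, Real.norm_eq_abs, abs_of_pos hpos, abs_of_pos hposz,
    inv_mul_le_iff₀ hpos, mul_one] at h1
  exact h1

/-- Schwarz–Pick for self-maps of the disc into the closed disc. -/
lemma schwarz_pick {ω : ℂ → ℂ} (hω : DifferentiableOn ℂ ω (ball 0 1))
    (hle : ∀ z ∈ ball (0 : ℂ) 1, ‖ω z‖ ≤ 1) {z : ℂ} (hz : z ∈ ball (0 : ℂ) 1) :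
    ‖deriv ω z‖ * (1 - ‖z‖ ^ 2) ≤ 1 - ‖ω z‖ ^ 2 := by
  have hkey : ∀ τ : ℝ, 0 < τ → τ < 1 →
      τ * ‖deriv ω z‖ * (1 - ‖z‖ ^ 2) ≤ 1 - (τ * ‖ω z‖) ^ 2 := by
    intro τ hτ hτ1
    have h1 : DifferentiableOn ℂ (fun w => (τ : ℂ) * ω w) (ball 0 1) := hω.const_mul _
    have h2 : MapsTo (fun w => (τ : ℂ) * ω w) (ball 0 1) (ball 0 1) := by
      intro w hw
      simp only [mem_ball, dist_zero_right, norm_mul, Complex.norm_real, Real.norm_eq_abs,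
        abs_of_pos hτ]
      have := hle w hw
      nlinarith [norm_nonneg (ω w)]
    have h3 := schwarz_pick_strict h1 h2 hz
    have h4 : deriv (fun w => (τ : ℂ) * ω w) z = (τ : ℂ) * deriv ω z :=
      deriv_const_mul _ (hω.differentiableAt (isOpen_ball.mem_nhds hz))
    rw [h4] at h3
    simpa only [norm_mul, Complex.norm_real, Real.norm_eq_abs, abs_of_pos hτ] using h3
  have hlim1 : Tendsto (fun τ : ℝ => τ * ‖deriv ω z‖ * (1 - ‖z‖ ^ 2)) (𝓝[<] 1)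
      (𝓝 (1 * ‖deriv ω z‖ * (1 - ‖z‖ ^ 2))) := by
    refine Tendsto.mono_left ?_ nhdsWithin_le_nhds
    exact Continuous.tendsto (by fun_prop) 1
  have hlim2 : Tendsto (fun τ : ℝ => 1 - (τ * ‖ω z‖) ^ 2) (𝓝[<] 1)
      (𝓝 (1 - (1 * ‖ω z‖) ^ 2)) := by
    refine Tendsto.mono_left ?_ nhdsWithin_le_nhds
    exact Continuous.tendsto (by fun_prop) 1
  have h := le_of_tendsto_of_tendsto hlim1 hlim2 (by
    filter_upwards [Ioo_mem_nhdsLT (zero_lt_one' ℝ)] with τ hτ using hkey τ hτ.1 hτ.2)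
  simpa using h

/-- Dieudonné's estimate. -/
lemma dieudonne {φ ω : ℂ → ℂ} (hω : Factor φ ω) {r : ℝ} (hr1 : r < 1) {z : ℂ}
    (hz : ‖z‖ = r) :
    ‖deriv φ z‖ ≤ ‖ω z‖ + r * (1 - ‖ω z‖ ^ 2) / (1 - r ^ 2) := by
  have hr : 0 ≤ r := hz ▸ norm_nonneg z
  have hzb : z ∈ ball (0 : ℂ) 1 := by simp [hz, hr1]
  have h1 := schwarz_pick hω.diff hω.le_one hzb
  have hpos : 0 < 1 - r ^ 2 := by nlinarith
  rw [hz] at h1
  have h2 : ‖deriv ω z‖ ≤ (1 - ‖ω z‖ ^ 2) / (1 - r ^ 2) := by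
    rw [le_div_iff₀ hpos]
    exact h1
  have h3 : deriv φ z = ω z + z * deriv ω z := by
    have h4 : φ = fun z => z * ω z := funext hω.eq
    have h5 : HasDerivAt ω (deriv ω z) z :=
      (hω.diff.differentiableAt (isOpen_ball.mem_nhds hzb)).hasDerivAt
    have h6 := (hasDerivAt_id z).mul h5
    have h7 : φ = (id * ω) := by
      funext y
      simp only [Pi.mul_apply, id]
      exact hω.eq y
    rw [h7, h6.deriv]
    simp
  rw [h3]
  calc ‖ω z + z * deriv ω z‖ ≤ ‖ω z‖ + ‖z * deriv ω z‖ := norm_add_le _ _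
    _ = ‖ω z‖ + r * ‖deriv ω z‖ := by rw [norm_mul, hz]
    _ ≤ ‖ω z‖ + r * ((1 - ‖ω z‖ ^ 2) / (1 - r ^ 2)) := by gcongr
    _ = _ := by ring

end Pool.Agent.LibMP140d1b
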