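import Mathlib
import Pool.Agent.Lib_MP_140d1b_an.SchwarzPick
import Pool.Agent.Lib_MP_140d1b_an.Main

/-!
The pointwise inequality and the lower bound for the subordination radius.
-/

namespace Pool.Agent.LibMP140d1b

open Complex Metric Set Filter Topology Real

/-- Elementary facts about the radius `(√2-1) + (√2-1)²/p`. -/
lemma radius_facts {p r : ℝ} (hp : 2 < p) (hr : r = (√2 - 1) + (√2 - 1) ^ 2 / p) :
    0 < r ∧ r < 1 / 2 ∧ 1 ≤ r ^ 2 + 2 * r ∧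
      p * (r ^ 2 + 2 * r - 1) ≤ 1 / 2 ∧
      p * (r ^ 2 + 2 * r - 1) ≤ 2 * (√2 - 1) ^ 2 * (1 + r) ∧
      p * (1 - 2 * r) = (√2 - 1) ^ 2 * (p - 2) := by
  have hs2 : (√2) ^ 2 = 2 := Real.sq_sqrt (by norm_num)
  have hs1 : 1.414 < √2 := by
    rw [Real.lt_sqrt (by norm_num)]
    norm_num
  have hs3 : √2 < 1.415 := by
    rw [Real.sqrt_lt' (by norm_num)]
    norm_num
  set s := √2 with hs
  have hp0 : 0 < p := by linarith
  set δ := (s - 1) ^ 2 / p with hδ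
  have hδp : p * δ = (s - 1) ^ 2 := by rw [hδ]; field_simp
  have hsq : (s - 1) ^ 2 = 3 - 2 * s := by linear_combination hs2
  have hδ0 : 0 < δ := by
    have : 0 < (s - 1) ^ 2 := by nlinarith
    positivity
  have hδ2 : 2 * δ < (s - 1) ^ 2 := by nlinarith
  have e1 : r ^ 2 + 2 * r - 1 = δ * (2 * s + δ) := by
    rw [hr]
    linear_combination hs2
  refine ⟨?_, ?_, ?_, ?_, ?_, ?_⟩
  · rw [hr]; linarith
  · rw [hr]; nlinarith
  · have : 0 < δ * (2 * s + δ) := by positivity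
    linarith
  · rw [e1, ← mul_assoc, hδp]
    have h1 : 2 * s + δ ≤ 2 * s + (s - 1) ^ 2 / 2 := by linarith
    have h2 : (s - 1) ^ 2 * (2 * s + (s - 1) ^ 2 / 2) = 1 / 2 := by
      rw [hsq]
      linear_combination (-2) * hs2
    have h3 : 0 ≤ (s - 1) ^ 2 := by positivity
    nlinarith [mul_le_mul_of_nonneg_left h1 h3]
  · rw [e1, ← mul_assoc, hδp]
    have h3 : 0 ≤ (s - 1) ^ 2 := by positivity
    have h4 : 2 * s + δ ≤ 2 * (1 + r) := by rw [hr]; linarith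
    nlinarith [mul_le_mul_of_nonneg_left h4 h3]
  · rw [hr]
    linear_combination (-p) * hsq - 2 * hδp

lemma aux_y {B x : ℝ} (hB1 : 1 / 2 ≤ B) (hB2 : B ≤ 2 / 3) :
    x * (2 * B - 1) - B * x ^ 2 ≤ 1 / 24 := by
  have hB0 : 0 < B := by linarith
  have h1 : 4 * B * (x * (2 * B - 1) - B * x ^ 2) ≤ (2 * B - 1) ^ 2 := by
    nlinarith [sq_nonneg (2 * B * x - (2 * B - 1))]
  have h2 : (2 * B - 1) ^ 2 ≤ B / 6 := by
    nlinarith [mul_nonneg (sub_nonneg.mpr hB2) (by linarith : (0 : ℝ) ≤ B - 3 / 8)]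
  have h3 := h1.trans h2
  by_contra hcon
  push Not at hcon
  nlinarith [mul_lt_mul_of_pos_left hcon hB0]

lemma aux_prod {p y u x : ℝ} (hy0 : 0 ≤ y) (hy24 : y ≤ 1 / 24) (hu0 : 0 ≤ u)
    (hu : u = p * y - 2 * y) (hpy : p * y ≤ 2 / 3 * x) :
    (1 + y) ^ 2 * (1 + u) ≤ 1 + 0.7235 * x := by
  have h9 : (1 + y) ^ 2 ≤ 1 + 49 / 24 * y := by
    nlinarith [mul_le_mul_of_nonneg_left hy24 hy0]
  have h10 : (1 + y) ^ 2 * (1 + u) ≤ (1 + 49 / 24 * y) * (1 + u) :=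
    mul_le_mul_of_nonneg_right h9 (by linarith)
  have h12 : y * u ≤ 1 / 24 * u := mul_le_mul_of_nonneg_right hy24 hu0
  have e : (1 + 49 / 24 * y) * (1 + u) = 1 + 49 / 24 * y + u + 49 / 24 * (y * u) := by ring
  rw [e] at h10
  linarith

lemma aux_B {r : ℝ} (hr0 : 0 < r) (hr2 : r < 1 / 2) : r ≤ 2 / 3 * (1 - r ^ 2) := by
  nlinarith

lemma aux_pB {r c : ℝ} (hr0 : 0 < r) (hr2 : r < 1 / 2) (hc : c ≤ 1 / 2) :
    c ≤ 2 / 3 * (1 - r ^ 2) := by
  nlinarith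

lemma aux_p {p r : ℝ} (hp : 2 < p) (hr2 : r < 1 / 2) : 1 ≤ p * (1 - r) := by
  nlinarith

lemma aux_final {s x : ℝ} (hs1 : 1.414 < s) (hx0 : 0 ≤ x) :
    (2 * (3 - 2 * s) - x / 2) * (1 + 0.7235 * x) ≤ (3 - 2 * s) * (2 - x) := by
  nlinarith [mul_nonneg hx0 (by linarith : (0 : ℝ) ≤ s - 1.414), sq_nonneg x]

/-- The pointwise inequality. -/
lemma pointwise {p r ρ D : ℝ} (hp : 2 < p) (hr : r = (√2 - 1) + (√2 - 1) ^ 2 / p)
    (hρ0 : 0 ≤ ρ) (hρ1 : ρ ≤ 1) (hD : 0 ≤ D) (hDM : D ≤ ρ + r * (1 - ρ ^ 2) / (1 - r ^ 2)) :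
    D ^ p ≤ D ^ (2 : ℕ) + (1 - 2 * r) / (1 - r) * (1 - ρ ^ 2) := by
  obtain ⟨hr0, hr2, hr3, hr4, hr5, hr6⟩ := radius_facts hp hr
  have hs2 : (√2) ^ 2 = 2 := Real.sq_sqrt (by norm_num)
  have hs1 : 1.414 < √2 := by
    rw [Real.lt_sqrt (by norm_num)]
    norm_num
  have hp0 : 0 < p := by linarith
  have h1r : 0 < 1 - r := by linarith
  have h1r2 : 0 < 1 - r ^ 2 := by nlinarith
  have hK : 0 ≤ (1 - 2 * r) / (1 - r) := div_nonneg (by linarith) h1r.le
  have h1ρ : 0 ≤ 1 - ρ ^ 2 := by nlinarith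
  have hDp : D ^ p = D ^ (2 : ℕ) * D ^ (p - 2) := by
    rw [← Real.rpow_natCast, ← Real.rpow_add_of_nonneg hD (by norm_num) (by linarith)]
    congr 1
    push_cast
    ring
  rcases le_or_gt D 1 with hD1 | hD1
  · have : D ^ (p - 2) ≤ 1 := Real.rpow_le_one hD hD1 (by linarith)
    have h2 : D ^ p ≤ D ^ (2 : ℕ) := by
      rw [hDp]
      exact mul_le_of_le_one_right (by positivity) this
    have := mul_nonneg hK h1ρ
    linarith
  -- the main case
  set B := r / (1 - r ^ 2) with hB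
  set x := 1 - ρ with hx
  set y := x * (2 * B - 1) - B * x ^ 2 with hy
  have hx0 : 0 ≤ x := by rw [hx]; linarith
  have hx1 : x ≤ 1 := by rw [hx]; linarith
  have hM : ρ + r * (1 - ρ ^ 2) / (1 - r ^ 2) = 1 + y := by
    have : r * (1 - ρ ^ 2) / (1 - r ^ 2) = B * (1 - ρ ^ 2) := by rw [hB]; ring
    rw [this, hy, hx]
    ring
  have hy0 : 0 < y := by linarith
  have hB1 : 1 / 2 ≤ B := by
    rw [hB, le_div_iff₀ h1r2]
    linarith
  have hB2 : B ≤ 2 / 3 := by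
    rw [hB, div_le_iff₀ h1r2]
    exact aux_B hr0 hr2
  have hy24 : y ≤ 1 / 24 := aux_y hB1 hB2
  have hpB : p * (2 * B - 1) ≤ 2 / 3 := by
    have e : 2 * B - 1 = (r ^ 2 + 2 * r - 1) / (1 - r ^ 2) := by
      rw [hB]
      field_simp
      ring
    rw [e, ← mul_div_assoc, div_le_iff₀ h1r2]
    exact aux_pB hr0 hr2 hr4
  -- M^(p-2) ≤ 1 + u + u²
  set u := (p - 2) * y with hu
  have hu0 : 0 ≤ u := by
    rw [hu]
    exact mul_nonneg (by linarith) hy0.le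
  have hyx : y ≤ x * (2 * B - 1) := by
    rw [hy]
    have : 0 ≤ B * x ^ 2 := by positivity
    linarith
  have hu1 : u ≤ 1 := by
    rw [hu]
    have h2B : 0 ≤ 2 * B - 1 := by linarith
    have h1 : y ≤ 2 * B - 1 := hyx.trans (mul_le_of_le_one_left h2B hx1)
    have h2 : (p - 2) * y ≤ (p - 2) * (2 * B - 1) :=
      mul_le_mul_of_nonneg_left h1 (by linarith)
    linarith
  have hMp : D ^ (p - 2) ≤ 1 + u + u ^ 2 := by
    have h1 : D ^ (p - 2) ≤ (Real.exp y) ^ (p - 2) := by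
      refine Real.rpow_le_rpow hD ?_ (by linarith)
      have := Real.add_one_le_exp y
      linarith
    have h2 : (Real.exp y) ^ (p - 2) = Real.exp u := by
      rw [← Real.exp_mul, hu, mul_comm]
    rw [h2] at h1
    have h3 := Real.abs_exp_sub_one_sub_id_le (x := u) (by rw [abs_of_nonneg hu0]; exact hu1)
    have h4 := (abs_le.mp h3).2
    linarith
  have hDsq : D ^ (2 : ℕ) ≤ (1 + y) ^ 2 := pow_le_pow_left₀ hD (by rw [← hM]; exact hDM) 2
  have h5 : D ^ p - D ^ (2 : ℕ) ≤ (1 + y) ^ 2 * (u + u ^ 2) := by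
    rw [hDp]
    have h6 : D ^ (p - 2) - 1 ≤ u + u ^ 2 := by linarith
    have h7 : 0 ≤ u + u ^ 2 := by positivity
    calc D ^ (2 : ℕ) * D ^ (p - 2) - D ^ (2 : ℕ) = D ^ (2 : ℕ) * (D ^ (p - 2) - 1) := by ring
      _ ≤ D ^ (2 : ℕ) * (u + u ^ 2) := mul_le_mul_of_nonneg_left h6 (by positivity)
      _ ≤ (1 + y) ^ 2 * (u + u ^ 2) := mul_le_mul_of_nonneg_right hDsq h7
  -- the factor
  set w := (2 * B - 1) - B * x with hw
  have hyw : y = x * w := by rw [hy, hw]; ring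
  have hxpos : 0 < x := by
    rcases hx0.lt_or_eq with h | h
    · exact h
    · exfalso
      rw [← h] at hyw
      linarith
  have hw0 : 0 < w := by
    by_contra hcon
    push Not at hcon
    have : x * w ≤ 0 := mul_nonpos_of_nonneg_of_nonpos hx0 hcon
    linarith
  have hρx : 1 - ρ ^ 2 = x * (2 - x) := by rw [hx]; ring
  -- `(1+y)²(1+(p-2)y) ≤ 1 + 1.0851 p y ≤ 1 + 0.7234 x`
  have h8 : (1 + y) ^ 2 * (1 + u) ≤ 1 + 0.7235 * x := by
    have hpy : p * y ≤ 2 / 3 * x := by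
      calc p * y ≤ p * (x * (2 * B - 1)) := mul_le_mul_of_nonneg_left hyx hp0.le
        _ = (p * (2 * B - 1)) * x := by ring
        _ ≤ 2 / 3 * x := mul_le_mul_of_nonneg_right hpB hx0
    exact aux_prod hy0.le hy24 hu0 (by rw [hu]; ring) hpy
  -- `p (1-r) w ≤ 2 r0² - x/2`
  have h14 : p * (1 - r) * w ≤ 2 * (√2 - 1) ^ 2 - x / 2 := by
    have h15 : p * (1 - r) * (2 * B - 1) ≤ 2 * (√2 - 1) ^ 2 := by
      have e : (1 - r) * (2 * B - 1) = (r ^ 2 + 2 * r - 1) / (1 + r) := by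
        rw [hB]
        have : 1 + r ≠ 0 := by positivity
        have h1r2' : (1 - r) * (1 + r) ≠ 0 := by
          have : (1 - r) * (1 + r) = 1 - r ^ 2 := by ring
          rw [this]
          exact h1r2.ne'
        have e2 : 1 - r ^ 2 = (1 - r) * (1 + r) := by ring
        rw [e2]
        field_simp
        ring
      rw [mul_assoc, e, ← mul_div_assoc, div_le_iff₀ (by linarith)]
      exact hr5
    have h16 : x / 2 ≤ p * (1 - r) * (B * x) := by
      have h17 : 1 / 2 ≤ p * (1 - r) * B := by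
        have h18 : 1 ≤ p * (1 - r) := aux_p hp hr2
        calc (1 / 2 : ℝ) = 1 * (1 / 2) := by ring
          _ ≤ p * (1 - r) * B := mul_le_mul h18 hB1 (by norm_num) (by linarith)
      calc x / 2 = 1 / 2 * x := by ring
        _ ≤ p * (1 - r) * B * x := mul_le_mul_of_nonneg_right h17 hx0
        _ = _ := by ring
    have e3 : p * (1 - r) * w = p * (1 - r) * (2 * B - 1) - p * (1 - r) * (B * x) := by
      rw [hw]; ring
    rw [e3]
    linarith
  have h19 : p * (1 - r) * w * ((1 + y) ^ 2 * (1 + u)) ≤ (√2 - 1) ^ 2 * (2 - x) := by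
    have hsq : (√2 - 1) ^ 2 = 3 - 2 * √2 := by linear_combination hs2
    have h20 : 0 ≤ p * (1 - r) * w := by positivity
    calc p * (1 - r) * w * ((1 + y) ^ 2 * (1 + u)) ≤ p * (1 - r) * w * (1 + 0.7235 * x) :=
          mul_le_mul_of_nonneg_left h8 h20
      _ ≤ (2 * (√2 - 1) ^ 2 - x / 2) * (1 + 0.7235 * x) :=
          mul_le_mul_of_nonneg_right h14 (by linarith)
      _ ≤ (√2 - 1) ^ 2 * (2 - x) := by
          rw [hsq]
          exact aux_final hs1 hx0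
  -- conclude
  have h21 : (1 + y) ^ 2 * (u + u ^ 2) = (p - 2) * x * (w * ((1 + y) ^ 2 * (1 + u))) := by
    have : u = (p - 2) * (x * w) := by rw [hu, hyw]
    calc (1 + y) ^ 2 * (u + u ^ 2) = (1 + y) ^ 2 * (1 + u) * u := by ring
      _ = (1 + y) ^ 2 * (1 + u) * ((p - 2) * (x * w)) := by rw [this]
      _ = _ := by ring
  have h22 : w * ((1 + y) ^ 2 * (1 + u)) ≤ (√2 - 1) ^ 2 * (2 - x) / (p * (1 - r)) := by
    rw [le_div_iff₀ (by positivity)]
    calc w * ((1 + y) ^ 2 * (1 + u)) * (p * (1 - r)) =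
        p * (1 - r) * w * ((1 + y) ^ 2 * (1 + u)) := by ring
      _ ≤ _ := h19
  have h23 : (p - 2) * x * ((√2 - 1) ^ 2 * (2 - x) / (p * (1 - r))) =
      (1 - 2 * r) / (1 - r) * (1 - ρ ^ 2) := by
    rw [hρx]
    have : (1 - 2 * r) = (√2 - 1) ^ 2 * (p - 2) / p := by
      rw [← hr6]
      field_simp
    rw [this]
    field_simp
  have h24 : 0 ≤ (p - 2) * x := mul_nonneg (by linarith) hx0
  have h25 := mul_le_mul_of_nonneg_left h22 h24
  rw [h23] at h25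
  rw [h21] at h5
  linarith

end Pool.Agent.LibMP140d1b
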