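import Mathlib
import Pool.Agent.Lib_MP_140d1b_an.Pointwise

/-!
The lower bound `r_p ≥ (√2-1) + (√2-1)²/p` for `p ≥ 2`.
-/

namespace Pool.Agent.LibMP140d1b

open Complex Metric Set Filter Topology Real

/-- Goodness from a pointwise inequality against the weighted Goluzin inequality. -/
lemma goodAt_of_pointwise {p r : ℝ} (hp : 0 < p) (hr : 0 < r) (hr2 : r < 1 / 2)
    (hr0 : 1 ≤ r ^ 2 + 2 * r)
    (hpt : ∀ ρ D : ℝ, 0 ≤ ρ → ρ ≤ 1 → 0 ≤ D → D ≤ ρ + r * (1 - ρ ^ 2) / (1 - r ^ 2) →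
      D ^ p ≤ D ^ (2 : ℕ) + (1 - 2 * r) / (1 - r) * (1 - ρ ^ 2)) : GoodAt p r := by
  have hr1 : r < 1 := by linarith
  have hsub := sphere_subset_ball_one hr1
  refine goodAt_of_poly hp two_pos hr hr1 ?_
  intro φ hφ a N
  obtain ⟨ω, hω⟩ := hφ.exists_factor
  have hφc : ContinuousOn φ (sphere 0 r) := hφ.diff.continuousOn.mono hsub
  have hωc : ContinuousOn ω (sphere 0 r) := hω.diff.continuousOn.mono hsub
  have hdc : ContinuousOn (deriv φ) (sphere 0 r) := hφ.deriv_diff.continuousOn.mono hsub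
  have hcp : ContinuousOn (fun z => ‖deriv φ z‖ ^ p) (sphere 0 r) :=
    hdc.norm.rpow_const (fun _ _ => Or.inr hp.le)
  have hF : ContinuousOn (fun z => ‖pe a N (φ z)‖ ^ (2 : ℕ)) (sphere 0 r) :=
    ((pe_continuous a N).comp_continuousOn hφc).norm.pow 2
  have hw := weighted hφ hω hr.le hr2 hr0 a N
  set K := (1 - 2 * r) / (1 - r) with hK
  have i1 : CircleIntegrable (fun z => ‖pe a N (φ z)‖ ^ (2 : ℕ) * ‖deriv φ z‖ ^ (2 : ℕ)) 0 r :=
    (hF.mul (hdc.norm.pow 2)).circleIntegrable hr.le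
  have i2 : CircleIntegrable (fun z => K * (‖pe a N (φ z)‖ ^ (2 : ℕ) * (1 - ‖ω z‖ ^ 2))) 0 r :=
    (continuousOn_const.mul (hF.mul (continuousOn_const.sub (hωc.norm.pow 2)))).circleIntegrable
      hr.le
  have e1 : circleAverage (fun z => ‖pe a N (φ z)‖ ^ (2 : ℕ) * ‖deriv φ z‖ ^ (2 : ℕ)) 0 r +
      K * circleAverage (fun z => ‖pe a N (φ z)‖ ^ (2 : ℕ) * (1 - ‖ω z‖ ^ 2)) 0 r =
      circleAverage (fun z => ‖pe a N (φ z)‖ ^ (2 : ℕ) * ‖deriv φ z‖ ^ (2 : ℕ) +
        K * (‖pe a N (φ z)‖ ^ (2 : ℕ) * (1 - ‖ω z‖ ^ 2))) 0 r := by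
    rw [circleAverage_fun_add i1 i2]
    congr 1
    have := circleAverage_fun_smul (a := K)
      (f := fun z => ‖pe a N (φ z)‖ ^ (2 : ℕ) * (1 - ‖ω z‖ ^ 2)) (c := 0) (R := r)
    simp only [smul_eq_mul] at this
    exact this.symm
  rw [e1] at hw
  simp only [Real.rpow_two]
  refine le_trans ?_ hw
  refine circleAverage_mono ?_ ?_ ?_
  · exact (hF.mul hcp).circleIntegrable hr.le
  · exact i1.add i2
  · intro z hz
    rw [abs_of_nonneg hr.le] at hz
    have hzb := hsub hz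
    have hz' : ‖z‖ = r := by simpa using hz
    have h1 := dieudonne hω hr1 hz'
    have h2 := hpt ‖ω z‖ ‖deriv φ z‖ (norm_nonneg _) (hω.le_one z hzb) (norm_nonneg _) h1
    have h3 : (0 : ℝ) ≤ ‖pe a N (φ z)‖ ^ (2 : ℕ) := by positivity
    calc ‖pe a N (φ z)‖ ^ (2 : ℕ) * ‖deriv φ z‖ ^ p ≤
        ‖pe a N (φ z)‖ ^ (2 : ℕ) * (‖deriv φ z‖ ^ (2 : ℕ) + K * (1 - ‖ω z‖ ^ 2)) :=
          mul_le_mul_of_nonneg_left h2 h3
      _ = _ := by ring

/-- Goodness passes to smaller radii. -/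
lemma goodAt_radius_mono {p r R : ℝ} (hr : 0 < r) (hrR : r < R) (hR1 : R < 1)
    (h : GoodAt p R) : GoodAt p r := by
  have hR : 0 < R := hr.trans hrR
  intro φ u hφ hu
  set lam : ℝ := r / R with hlam
  have hl0 : 0 < lam := by positivity
  have hl1 : lam < 1 := by rw [hlam, div_lt_one hR]; exact hrR
  have hlc : (lam : ℂ) ≠ 0 := by exact_mod_cast hl0.ne'
  have hball : MapsTo (fun z : ℂ => (lam : ℂ) * z) (ball 0 1) (ball 0 1) := by
    intro z hz
    simp only [mem_ball, dist_zero_right, norm_mul, Complex.norm_real, Real.norm_eq_abs,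
      abs_of_pos hl0] at hz ⊢
    nlinarith [norm_nonneg z]
  set ψ : ℂ → ℂ := fun z => (lam : ℂ)⁻¹ * φ (lam * z) with hψ
  set v : ℂ → ℂ := fun z => u (lam * z) with hv
  have hdm : DifferentiableOn ℂ (fun z : ℂ => (lam : ℂ) * z) (ball 0 1) := by fun_prop
  have hφl : DifferentiableOn ℂ (fun z => φ (lam * z)) (ball 0 1) := hφ.diff.comp hdm hball
  have hψS : Schwarz ψ := by
    refine ⟨hφl.const_mul _, ?_, ?_⟩
    · intro z hz
      have h1 := hφ.norm_le (hball hz)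
      simp only [norm_mul, Complex.norm_real, Real.norm_eq_abs, abs_of_pos hl0] at h1
      simp only [hψ, mem_ball, dist_zero_right, norm_mul, norm_inv, Complex.norm_real,
        Real.norm_eq_abs, abs_of_pos hl0] at hz ⊢
      calc lam⁻¹ * ‖φ (lam * z)‖ ≤ lam⁻¹ * (lam * ‖z‖) :=
            mul_le_mul_of_nonneg_left h1 (by positivity)
        _ = ‖z‖ := by field_simp
        _ < 1 := hz
    · simp only [hψ, mul_zero, hφ.zero]
  have hvd : DifferentiableOn ℂ v (ball 0 1) := hu.comp hdm hball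
  have key := h ψ v hψS hvd
  have hderiv : ∀ z ∈ ball (0 : ℂ) 1, deriv ψ z = deriv φ (lam * z) := by
    intro z hz
    have h1 : HasDerivAt φ (deriv φ (lam * z)) ((fun z : ℂ => (lam : ℂ) * z) z) :=
      (hφ.diff.differentiableAt (isOpen_ball.mem_nhds (hball hz))).hasDerivAt
    have h2 : HasDerivAt (fun z : ℂ => (lam : ℂ) * z) (lam : ℂ) z := by
      simpa using (hasDerivAt_id z).const_mul (lam : ℂ)
    have h3 := (h1.comp z h2).const_mul ((lam : ℂ)⁻¹)
    have h4 : deriv ψ z = (lam : ℂ)⁻¹ * (deriv φ (lam * z) * lam) := h3.deriv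
    rw [h4]
    field_simp
  have hscale : ∀ f : ℂ → ℝ, circleAverage (fun z => f (lam * z)) 0 R = circleAverage f 0 r := by
    intro f
    rw [circleAverage_eq_circleAverage_zero_one (f := fun z => f (lam * z)),
      circleAverage_eq_circleAverage_zero_one (f := f)]
    congr 1
    funext z
    congr 1
    have : (lam : ℂ) * R = r := by
      rw [hlam]
      push_cast
      have : (R : ℂ) ≠ 0 := by exact_mod_cast hR.ne'
      field_simp
    rw [add_zero, add_zero, ← mul_assoc, this]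
  have hsub := sphere_subset_ball_one hR1
  have e1 : circleAverage (fun z => ‖v (ψ z)‖ ^ p * ‖deriv ψ z‖ ^ p) 0 R =
      circleAverage (fun z => ‖u (φ (lam * z))‖ ^ p * ‖deriv φ (lam * z)‖ ^ p) 0 R := by
    refine circleAverage_congr_sphere ?_
    intro z hz
    rw [abs_of_nonneg hR.le] at hz
    simp only
    rw [hderiv z (hsub hz)]
    simp only [hv, hψ]
    rw [mul_inv_cancel_left₀ hlc]
  rw [e1, hscale (fun z => ‖u (φ z)‖ ^ p * ‖deriv φ z‖ ^ p)] at key
  have e2 : circleAverage (fun z => ‖v z‖ ^ p) 0 R = circleAverage (fun z => ‖u z‖ ^ p) 0 r :=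
    hscale (fun z => ‖u z‖ ^ p)
  rw [e2] at key
  exact key

lemma admissible_bddAbove {p : ℝ} (hp : 0 < p) : BddAbove (admissibleRadii p) :=
  ⟨1 / 2, fun _ hρ => admissible_le_half hp hρ⟩

/-- A good radius is a lower bound. -/
lemma le_radius_of_goodAt {p r : ℝ} (hp : 0 < p) (hr : 0 < r) (hr1 : r < 1) (h : GoodAt p r) :
    r ≤ subordinationRadius p := by
  refine le_csSup (admissible_bddAbove hp) ?_
  exact mem_admissible_of_goodAt hp hr hr1.le (fun s hs hsr => goodAt_radius_mono hs hsr hr1 h)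

lemma radius_le_half {p : ℝ} (hp : 0 < p) (hne : (admissibleRadii p).Nonempty) :
    subordinationRadius p ≤ 1 / 2 := csSup_le hne (fun _ hρ => admissible_le_half hp hρ)

/-- The lower bound. -/
theorem lower_bound {p : ℝ} (hp : 2 ≤ p) :
    (√2 - 1) + (√2 - 1) ^ 2 / p ≤ subordinationRadius p := by
  rcases hp.lt_or_eq with hp2 | hp2
  · obtain ⟨hr0, hr2, hr3, -, -, -⟩ := radius_facts hp2 rfl
    refine le_radius_of_goodAt (by linarith) hr0 (by linarith) ?_
    refine goodAt_of_pointwise (by linarith) hr0 hr2 hr3 ?_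
    intro ρ D hρ0 hρ1 hD hDM
    exact pointwise hp2 rfl hρ0 hρ1 hD hDM
  · subst hp2
    have h : subordinationRadius 2 = 1 / 2 :=
      (radius_eq_half_iff two_pos).mpr (half_mem_of_le_two two_pos le_rfl)
    rw [h]
    have hs2 : (√2) ^ 2 = 2 := Real.sq_sqrt (by norm_num)
    nlinarith

end Pool.Agent.LibMP140d1b
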