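import Mathlib
import Pool.Agent.Lib_MP_140d1b_an.Weighted

/-!
Littlewood's inequality with remainder and an abstract sufficient condition.
-/

namespace Pool.Agent.LibMP140d1b

open Complex Metric Set Filter Topology Real

/-- Littlewood's identity with remainder. -/
lemma littlewood_remainder {φ ω : ℂ → ℂ} (hφ : Schwarz φ) (hω : Factor φ ω) {r : ℝ} (hr : 0 ≤ r)
    (hr1 : r < 1) (N : ℕ) : ∀ a : ℕ → ℂ,
    circleAverage (fun z => ‖pe a N (φ z)‖ ^ 2) 0 r +
      ∑ i ∈ Finset.range N, (r ^ 2) ^ (i + 1) *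
        Ldef ω r (fun z => pe (fun k => a (k + (i + 1))) (N - (i + 1)) (φ z)) =
      circleAverage (fun z => ‖pe a N z‖ ^ 2) 0 r := by
  have hsub := sphere_subset_ball_one hr1
  induction N with
  | zero => intro a; simp [pe]
  | succ N ih =>
    intro a
    set a' : ℕ → ℂ := fun k => a (k + 1) with ha'
    have hgd : DifferentiableOn ℂ (fun z => pe a' N (φ z)) (ball 0 1) :=
      (pe_differentiable a' N).comp_differentiableOn hφ.diff
    have hωg : DifferentiableOn ℂ (fun z => ω z * pe a' N (φ z)) (ball 0 1) := hω.diff.mul hgd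
    have hd1 : DifferentiableOn ℂ (fun z => z * (ω z * pe a' N (φ z))) (ball 0 1) :=
      differentiableOn_id.mul hωg
    have hd2 : DifferentiableOn ℂ (fun z => z * pe a' N z) (ball 0 1) :=
      (differentiable_id.mul (pe_differentiable a' N)).differentiableOn
    have hscale : ∀ g : ℂ → ℂ, circleAverage (fun z => ‖z * g z‖ ^ 2) 0 r =
        r ^ 2 * circleAverage (fun z => ‖g z‖ ^ 2) 0 r := by
      intro g
      have := circleAverage_fun_smul (a := (r ^ 2 : ℝ)) (f := fun z => ‖g z‖ ^ 2)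
        (c := 0) (R := r)
      simp only [smul_eq_mul] at this
      rw [← this]
      refine circleAverage_congr_sphere ?_
      intro z hz
      rw [abs_of_nonneg hr] at hz
      simp only [mem_sphere_iff_norm, sub_zero] at hz
      simp only [norm_mul, mul_pow, hz]
    have e1 : circleAverage (fun z => ‖pe a (N + 1) (φ z)‖ ^ 2) 0 r =
        ‖a 0‖ ^ 2 + r ^ 2 * circleAverage (fun z => ‖ω z * pe a' N (φ z)‖ ^ 2) 0 r := by
      rw [← hscale, ← circleAverage_add_const hr hr1 hd1 (by simp) (a 0)]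
      congr 1
      funext z
      rw [pe_succ, hω.eq z]
      congr 2
      ring
    have e2 : circleAverage (fun z => ‖pe a (N + 1) z‖ ^ 2) 0 r =
        ‖a 0‖ ^ 2 + r ^ 2 * circleAverage (fun z => ‖pe a' N z‖ ^ 2) 0 r := by
      rw [← hscale, ← circleAverage_add_const hr hr1 hd2 (by simp) (a 0)]
      congr 1
      funext z
      rw [pe_succ]
    rw [e1, e2, Finset.sum_range_succ', ← ih a']
    have e3 : ∑ i ∈ Finset.range N, (r ^ 2) ^ (i + 1 + 1) *
        Ldef ω r (fun z => pe (fun k => a (k + (i + 1 + 1))) (N + 1 - (i + 1 + 1)) (φ z)) =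
        r ^ 2 * ∑ i ∈ Finset.range N, (r ^ 2) ^ (i + 1) *
        Ldef ω r (fun z => pe (fun k => a' (k + (i + 1))) (N - (i + 1)) (φ z)) := by
      rw [Finset.mul_sum]
      refine Finset.sum_congr rfl ?_
      intro i _
      rw [Nat.add_sub_add_right]
      have : (fun k => a (k + (i + 1 + 1))) = fun k => a' (k + (i + 1)) := by
        funext k
        simp only [ha']
        congr 1
      rw [this]
      ring
    rw [e3]
    have e4 : Ldef ω r (fun z => pe (fun k => a (k + (0 + 1))) (N + 1 - (0 + 1)) (φ z)) =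
        circleAverage (fun z => ‖pe a' N (φ z)‖ ^ 2) 0 r -
          circleAverage (fun z => ‖ω z * pe a' N (φ z)‖ ^ 2) 0 r := by
      unfold Ldef
      simp [ha']
    rw [e4]
    ring

/-- Splitting a polynomial. -/
lemma pe_split (N : ℕ) : ∀ (a : ℕ → ℂ) (i : ℕ), i ≤ N → ∀ w : ℂ,
    pe a N w = pe a i w + w ^ i * pe (fun k => a (k + i)) (N - i) w := by
  intro a i hi w
  obtain ⟨m, rfl⟩ := Nat.exists_eq_add_of_le hi
  simp only [pe, Nat.add_sub_cancel_left]
  rw [Finset.sum_range_add, Finset.mul_sum]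
  congr 1
  refine Finset.sum_congr rfl ?_
  intro k _
  rw [add_comm k i, pow_add]
  ring

/-- Padding by zeros. -/
lemma pe_pad (a : ℕ → ℂ) (N M : ℕ) (hNM : N ≤ M) (w : ℂ) :
    pe (fun k => if k < N then a k else 0) M w = pe a N w := by
  unfold pe
  rw [← Finset.sum_subset (Finset.range_mono hNM)]
  · refine Finset.sum_congr rfl ?_
    intro k hk
    simp only
    rw [if_pos (Finset.mem_range.mp hk)]
  · intro k _ hk
    rw [Finset.mem_range] at hk
    simp only
    rw [if_neg hk, zero_mul]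

/-- The sup bound for polynomials. -/
lemma pe_sup (a : ℕ → ℂ) (i : ℕ) {r : ℝ} {w : ℂ} (hw : ‖w‖ ≤ r) :
    ‖pe a i w‖ ^ 2 ≤ i * ∑ k ∈ Finset.range i, ‖a k‖ ^ 2 * (r ^ 2) ^ k := by
  have h1 : ‖pe a i w‖ ≤ ∑ k ∈ Finset.range i, ‖a k‖ * r ^ k := by
    unfold pe
    refine (norm_sum_le _ _).trans (Finset.sum_le_sum ?_)
    intro k _
    rw [norm_mul, norm_pow]
    gcongr
  have h2 := sq_sum_le_card_mul_sum_sq (s := Finset.range i) (f := fun k => ‖a k‖ * r ^ k)
  rw [Finset.card_range] at h2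
  calc ‖pe a i w‖ ^ 2 ≤ (∑ k ∈ Finset.range i, ‖a k‖ * r ^ k) ^ 2 :=
        pow_le_pow_left₀ (norm_nonneg _) h1 2
    _ ≤ i * ∑ k ∈ Finset.range i, (‖a k‖ * r ^ k) ^ 2 := h2
    _ = _ := by
        congr 1
        refine Finset.sum_congr rfl ?_
        intro k _
        rw [mul_pow, ← pow_mul, mul_comm k 2, pow_mul]

/-- The abstract sufficient condition. -/
lemma polyIneq_of_well {φ ω : ℂ → ℂ} (hφ : Schwarz φ) (hω : Factor φ ω) {r : ℝ} (hr : 0 ≤ r)
    (hr1 : r < 1) {W V : ℂ → ℝ} (hW : ContinuousOn W (sphere 0 r))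
    (hV : ContinuousOn V (sphere 0 r)) {A θ μ : ℝ} {n : ℕ} (hn : 1 ≤ n) (hA0 : 0 ≤ A)
    (hA1 : A ≤ 1 / 2) (hV0 : ∀ z ∈ sphere (0 : ℂ) r, 0 ≤ V z)
    (hV4 : ∀ z ∈ sphere (0 : ℂ) r, V z ≤ 4) (hVavg : circleAverage V 0 r ≤ 2 * θ)
    (hWle : ∀ z ∈ sphere (0 : ℂ) r, W z ≤ 1 - A + 3 * A * V z)
    (hμ : ∀ z ∈ sphere (0 : ℂ) r, μ ≤ 1 - ‖ω z‖ ^ 2)
    (hnθ : 24 * (n : ℝ) * θ ≤ 1) (hAμ : 48 * A ≤ μ * n) : PolyIneq 2 φ W r := by
  intro a0 N0
  simp only [Real.rpow_two]
  have hsub := sphere_subset_ball_one hr1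
  -- padding
  set N := N0 + 2 * n with hN
  set a : ℕ → ℂ := fun k => if k < N0 then a0 k else 0 with ha
  have hpad : ∀ w, pe a0 N0 w = pe a N w := fun w => (pe_pad a0 N0 N (by omega) w).symm
  simp_rw [hpad]
  have hφc := hφ.diff.continuousOn.mono hsub
  have hgc : ∀ (b : ℕ → ℂ) (M : ℕ), ContinuousOn (fun z => pe b M (φ z)) (sphere 0 r) :=
    fun b M => (pe_continuous b M).comp_continuousOn hφc
  have hgd : ∀ (b : ℕ → ℂ) (M : ℕ), DifferentiableOn ℂ (fun z => pe b M (φ z)) (ball 0 1) :=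
    fun b M => (pe_differentiable b M).comp_differentiableOn hφ.diff
  have hφle : ∀ z ∈ sphere (0 : ℂ) r, ‖φ z‖ ≤ r := by
    intro z hz
    have := hφ.norm_le (hsub hz)
    simp only [mem_sphere_iff_norm, sub_zero] at hz
    rwa [hz] at this
  -- the quantities
  set NF := circleAverage (fun z => ‖pe a N z‖ ^ 2) 0 r with hNF
  set NH := circleAverage (fun z => ‖pe a N (φ z)‖ ^ 2) 0 r with hNH
  set G : ℕ → ℂ → ℂ := fun i z => pe (fun k => a (k + i)) (N - i) (φ z) with hG
  set E : ℕ → ℝ := fun i => (r ^ 2) ^ i * circleAverage (fun z => ‖G i z‖ ^ 2) 0 r with hE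
  set Sg := ∑ i ∈ Finset.range N, E (i + 1) with hSg
  have hE0 : ∀ i, 0 ≤ E i := by
    intro i
    refine mul_nonneg (by positivity) ?_
    refine circleAverage_nonneg_of_nonneg ?_
    intro z _
    positivity
  have hSg0 : 0 ≤ Sg := Finset.sum_nonneg (fun i _ => hE0 _)
  have hNH0 : 0 ≤ NH := by
    refine circleAverage_nonneg_of_nonneg ?_
    intro z _
    positivity
  have hrem : NH + μ * Sg ≤ NF := by
    rw [hNF, ← littlewood_remainder hφ hω hr hr1 N a, hSg, Finset.mul_sum]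
    refine add_le_add_right (Finset.sum_le_sum ?_) _
    intro i _
    rw [Ldef_eq hω.diff (hgd _ _) hr hr1]
    have h1 : μ * circleAverage (fun z => ‖G (i + 1) z‖ ^ 2) 0 r ≤
        circleAverage (fun z => (1 - ‖ω z‖ ^ 2) * ‖G (i + 1) z‖ ^ 2) 0 r := by
      have e := circleAverage_fun_smul (a := μ) (f := fun z => ‖G (i + 1) z‖ ^ 2)
        (c := 0) (R := r)
      simp only [smul_eq_mul] at e
      rw [← e]
      refine circleAverage_mono ?_ ?_ ?_
      · exact (continuousOn_const.mul ((hgc _ _).norm.pow 2)).circleIntegrable hr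
      · exact ((continuousOn_const.sub ((hω.diff.continuousOn.mono hsub).norm.pow 2)).mul
          ((hgc _ _).norm.pow 2)).circleIntegrable hr
      · intro z hz
        rw [abs_of_nonneg hr] at hz
        exact mul_le_mul_of_nonneg_right (hμ z hz) (by positivity)
    calc μ * E (i + 1) = (r ^ 2) ^ (i + 1) * (μ * circleAverage (fun z => ‖G (i + 1) z‖ ^ 2) 0 r) := by
          simp only [hE]; ring
      _ ≤ _ := mul_le_mul_of_nonneg_left h1 (by positivity)
  -- choice of the index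
  have hn0 : (0 : ℝ) < n := by exact_mod_cast hn
  obtain ⟨i, hin, hi2n, hEi⟩ : ∃ i, n ≤ i ∧ i < 2 * n ∧ (n : ℝ) * E i ≤ Sg := by
    by_contra hcon
    push Not at hcon
    have h1 : ∑ j ∈ Finset.range n, E (n + j) ≤ Sg := by
      have h2 : ∑ j ∈ Finset.range n, E (n + j) = ∑ j ∈ Finset.Ico n (2 * n), E j := by
        rw [Finset.sum_Ico_eq_sum_range]
        congr 2
        omega
      have h3 : Sg = ∑ j ∈ Finset.Ico 1 (N + 1), E j := by
        rw [Finset.sum_Ico_eq_sum_range, hSg]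
        refine Finset.sum_congr (by simp) ?_
        intro j _
        rw [add_comm]
      rw [h2, h3]
      refine Finset.sum_le_sum_of_subset_of_nonneg ?_ (fun j _ _ => hE0 j)
      intro j hj
      rw [Finset.mem_Ico] at hj ⊢
      omega
    have h4 : ∀ j ∈ Finset.range n, Sg / n < E (n + j) := by
      intro j hj
      rw [Finset.mem_range] at hj
      rw [div_lt_iff₀ hn0, mul_comm]
      exact hcon (n + j) (by omega) (by omega)
    have h5 : ∑ j ∈ Finset.range n, Sg / n < ∑ j ∈ Finset.range n, E (n + j) :=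
      Finset.sum_lt_sum_of_nonempty ⟨0, Finset.mem_range.mpr (by omega)⟩ h4
    rw [Finset.sum_const, Finset.card_range, nsmul_eq_mul, mul_div_cancel₀ _ hn0.ne'] at h5
    linarith
  have hiN : i ≤ N := by omega
  -- splitting
  have hptw : ∀ z ∈ sphere (0 : ℂ) r, ‖pe a N (φ z)‖ ^ 2 ≤
      4 * n * NF + 2 * (r ^ 2) ^ i * ‖G i z‖ ^ 2 := by
    intro z hz
    have hw := hφle z hz
    rw [pe_split N a i hiN (φ z)]
    have h1 : ‖pe a i (φ z) + φ z ^ i * pe (fun k => a (k + i)) (N - i) (φ z)‖ ^ 2 ≤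
        2 * ‖pe a i (φ z)‖ ^ 2 + 2 * ‖φ z ^ i * pe (fun k => a (k + i)) (N - i) (φ z)‖ ^ 2 := by
      have h2 := norm_add_le (pe a i (φ z)) (φ z ^ i * pe (fun k => a (k + i)) (N - i) (φ z))
      have h3 := pow_le_pow_left₀ (norm_nonneg _) h2 2
      nlinarith [sq_nonneg (‖pe a i (φ z)‖ - ‖φ z ^ i * pe (fun k => a (k + i)) (N - i) (φ z)‖)]
    have h4 : ‖pe a i (φ z)‖ ^ 2 ≤ 2 * n * NF := by
      refine (pe_sup a i hw).trans ?_
      have h5 : ∑ k ∈ Finset.range i, ‖a k‖ ^ 2 * (r ^ 2) ^ k ≤ NF := by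
        rw [hNF]
        unfold pe
        rw [circleAverage_poly]
        refine Finset.sum_le_sum_of_subset_of_nonneg (Finset.range_mono hiN) ?_
        intro k _ _
        positivity
      have h6 : (i : ℝ) ≤ 2 * n := by
        have : i ≤ 2 * n := by omega
        exact_mod_cast this
      have h7 : 0 ≤ ∑ k ∈ Finset.range i, ‖a k‖ ^ 2 * (r ^ 2) ^ k :=
        Finset.sum_nonneg (fun k _ => by positivity)
      exact mul_le_mul h6 h5 h7 (by positivity)
    have h8 : ‖φ z ^ i * pe (fun k => a (k + i)) (N - i) (φ z)‖ ^ 2 ≤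
        (r ^ 2) ^ i * ‖G i z‖ ^ 2 := by
      rw [norm_mul, mul_pow, norm_pow]
      refine mul_le_mul_of_nonneg_right ?_ (by positivity)
      rw [← pow_mul, mul_comm i 2, pow_mul]
      exact pow_le_pow_left₀ (by positivity) (pow_le_pow_left₀ (norm_nonneg _) hw 2) i
    nlinarith
  -- average against V
  have iV : CircleIntegrable V 0 r := hV.circleIntegrable hr
  have iVH : CircleIntegrable (fun z => V z * ‖pe a N (φ z)‖ ^ 2) 0 r :=
    (hV.mul ((hgc _ _).norm.pow 2)).circleIntegrable hr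
  have iH : CircleIntegrable (fun z => ‖pe a N (φ z)‖ ^ 2) 0 r :=
    ((hgc _ _).norm.pow 2).circleIntegrable hr
  have hNF0 : 0 ≤ NF := by
    refine circleAverage_nonneg_of_nonneg ?_
    intro z _
    positivity
  have hVH : circleAverage (fun z => V z * ‖pe a N (φ z)‖ ^ 2) 0 r ≤
      8 * n * θ * NF + 8 * E i := by
    have h1 : circleAverage (fun z => V z * ‖pe a N (φ z)‖ ^ 2) 0 r ≤
        circleAverage (fun z => 4 * n * NF * V z + 8 * (r ^ 2) ^ i * ‖G i z‖ ^ 2) 0 r := by
      refine circleAverage_mono iVH ?_ ?_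
      · exact ((continuousOn_const.mul hV).add
          (continuousOn_const.mul ((hgc _ _).norm.pow 2))).circleIntegrable hr
      · intro z hz
        rw [abs_of_nonneg hr] at hz
        have h2 := mul_le_mul_of_nonneg_left (hptw z hz) (hV0 z hz)
        have h3 : 0 ≤ 2 * (r ^ 2) ^ i * ‖G i z‖ ^ 2 := by positivity
        have h4 := mul_le_mul_of_nonneg_right (hV4 z hz) h3
        nlinarith
    have h2 : circleAverage (fun z => 4 * n * NF * V z + 8 * (r ^ 2) ^ i * ‖G i z‖ ^ 2) 0 r =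
        4 * n * NF * circleAverage V 0 r + 8 * E i := by
      have i1 : CircleIntegrable (fun z => 4 * n * NF * V z) 0 r :=
        (continuousOn_const.mul hV).circleIntegrable hr
      have i2 : CircleIntegrable (fun z => 8 * (r ^ 2) ^ i * ‖G i z‖ ^ 2) 0 r :=
        (continuousOn_const.mul ((hgc _ _).norm.pow 2)).circleIntegrable hr
      rw [circleAverage_fun_add i1 i2]
      have e1 := circleAverage_fun_smul (a := 4 * n * NF) (f := V) (c := 0) (R := r)
      have e2 := circleAverage_fun_smul (a := 8 * (r ^ 2) ^ i) (f := fun z => ‖G i z‖ ^ 2)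
        (c := 0) (R := r)
      simp only [smul_eq_mul] at e1 e2
      rw [e1, e2]
      simp only [hE]
      ring
    have h3 : 4 * n * NF * circleAverage V 0 r ≤ 4 * n * NF * (2 * θ) :=
      mul_le_mul_of_nonneg_left hVavg (by positivity)
    linarith
  -- the final estimate
  have hfin : circleAverage (fun z => ‖pe a N (φ z)‖ ^ 2 * W z) 0 r ≤
      (1 - A) * NH + 3 * A * (8 * n * θ * NF + 8 * E i) := by
    have h1 : circleAverage (fun z => ‖pe a N (φ z)‖ ^ 2 * W z) 0 r ≤
        circleAverage (fun z => (1 - A) * ‖pe a N (φ z)‖ ^ 2 +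
          3 * A * (V z * ‖pe a N (φ z)‖ ^ 2)) 0 r := by
      refine circleAverage_mono ?_ ?_ ?_
      · exact (((hgc _ _).norm.pow 2).mul hW).circleIntegrable hr
      · exact ((continuousOn_const.mul ((hgc _ _).norm.pow 2)).add
          (continuousOn_const.mul (hV.mul ((hgc _ _).norm.pow 2)))).circleIntegrable hr
      · intro z hz
        rw [abs_of_nonneg hr] at hz
        have h2 := mul_le_mul_of_nonneg_left (hWle z hz)
          (by positivity : 0 ≤ ‖pe a N (φ z)‖ ^ 2)
        calc ‖pe a N (φ z)‖ ^ 2 * W z ≤ _ := h2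
          _ = _ := by ring
    have h2 : circleAverage (fun z => (1 - A) * ‖pe a N (φ z)‖ ^ 2 +
          3 * A * (V z * ‖pe a N (φ z)‖ ^ 2)) 0 r = (1 - A) * NH +
          3 * A * circleAverage (fun z => V z * ‖pe a N (φ z)‖ ^ 2) 0 r := by
      have i1 : CircleIntegrable (fun z => (1 - A) * ‖pe a N (φ z)‖ ^ 2) 0 r :=
        (continuousOn_const.mul ((hgc _ _).norm.pow 2)).circleIntegrable hr
      have i2 : CircleIntegrable (fun z => 3 * A * (V z * ‖pe a N (φ z)‖ ^ 2)) 0 r :=
        (continuousOn_const.mul (hV.mul ((hgc _ _).norm.pow 2))).circleIntegrable hr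
      rw [circleAverage_fun_add i1 i2]
      have e1 := circleAverage_fun_smul (a := 1 - A) (f := fun z => ‖pe a N (φ z)‖ ^ 2)
        (c := 0) (R := r)
      have e2 := circleAverage_fun_smul (a := 3 * A) (f := fun z => V z * ‖pe a N (φ z)‖ ^ 2)
        (c := 0) (R := r)
      simp only [smul_eq_mul] at e1 e2
      rw [e1, e2]
    rw [h2] at h1
    have h3 := mul_le_mul_of_nonneg_left hVH (by positivity : 0 ≤ 3 * A)
    linarith
  refine hfin.trans ?_
  have h1 : (1 - A) * NH ≤ (1 - A) * (NF - μ * Sg) :=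
    mul_le_mul_of_nonneg_left (by linarith) (by linarith)
  have h2 : 24 * A * (n * θ) * NF ≤ A * NF := by
    have : A * (24 * (n : ℝ) * θ) ≤ A * 1 := mul_le_mul_of_nonneg_left hnθ hA0
    nlinarith [mul_le_mul_of_nonneg_right this hNF0]
  have h3 : 24 * A * E i ≤ μ / 2 * Sg := by
    have h4 : 48 * A * E i ≤ μ * (n * E i) := by
      nlinarith [mul_le_mul_of_nonneg_right hAμ (hE0 i)]
    rcases le_or_gt 0 μ with hμ0 | hμ0
    · have h5 := mul_le_mul_of_nonneg_left hEi hμ0
      linarith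
    · exfalso
      have : μ * n < 0 := mul_neg_of_neg_of_pos hμ0 hn0
      linarith
  have h4 : 0 ≤ μ := by
    by_contra hcon
    push Not at hcon
    have : μ * n < 0 := mul_neg_of_neg_of_pos hcon hn0
    linarith
  have h5 : μ / 2 * Sg ≤ (1 - A) * (μ * Sg) := by
    have : 0 ≤ μ * Sg := mul_nonneg h4 hSg0
    nlinarith
  nlinarith

end Pool.Agent.LibMP140d1b
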