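import Mathlib
import Pool.Agent.Lib_MP_140d1b_an.SchwarzPick

/-!
Schur parametrisation of a Schwarz function and the derivative formula.
-/

namespace Pool.Agent.LibMP140d1b

open Complex Metric Set Filter Topology Real

lemma conj_mul_unit {e : ℂ} (he : ‖e‖ = 1) : (starRingEnd ℂ) e * e = 1 := by
  rw [mul_comm, Complex.mul_conj, Complex.normSq_eq_norm_sq, he]
  norm_num

/-- Schur parametrisation: `ω = e (ρ + z ψ)/(1 + ρ z ψ)`. -/
lemma exists_schur {ω : ℂ → ℂ} (hd : DifferentiableOn ℂ ω (ball 0 1))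
    (hle : ∀ z ∈ ball (0 : ℂ) 1, ‖ω z‖ ≤ 1) (h0 : ‖ω 0‖ < 1) :
    ∃ (e : ℂ) (ψ : ℂ → ℂ), ‖e‖ = 1 ∧ DifferentiableOn ℂ ψ (ball 0 1) ∧
      (∀ z ∈ ball (0 : ℂ) 1, ‖ψ z‖ ≤ 1) ∧
      ∀ z ∈ ball (0 : ℂ) 1, ω z = e * ((‖ω 0‖ + z * ψ z) / (1 + ‖ω 0‖ * (z * ψ z))) := by
  obtain ⟨e, he, heω⟩ : ∃ e : ℂ, ‖e‖ = 1 ∧ ω 0 = e * ‖ω 0‖ := by
    by_cases h : ω 0 = 0
    · exact ⟨1, norm_one, by simp [h]⟩
    · refine ⟨ω 0 / ‖ω 0‖, ?_, ?_⟩
      · rw [norm_div, Complex.norm_real, norm_norm, div_self]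
        exact norm_ne_zero_iff.mpr h
      · have : (‖ω 0‖ : ℂ) ≠ 0 := by exact_mod_cast norm_ne_zero_iff.mpr h
        field_simp
  set ρ : ℝ := ‖ω 0‖ with hρ
  have hρ0 : 0 ≤ ρ := norm_nonneg _
  have hee := conj_mul_unit he
  have hee' : e * (starRingEnd ℂ) e = 1 := by rw [mul_comm]; exact hee
  set w : ℂ → ℂ := fun z => (starRingEnd ℂ) e * ω z with hw
  have hwn : ∀ z ∈ ball (0 : ℂ) 1, ‖w z‖ ≤ 1 := by
    intro z hz
    simp only [hw, norm_mul, RCLike.norm_conj, he, one_mul]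
    exact hle z hz
  have hwd : DifferentiableOn ℂ w (ball 0 1) := hd.const_mul _
  have hw0 : w 0 = ρ := by
    simp only [hw]
    rw [heω, ← mul_assoc, hee, one_mul]
  have hden : ∀ z ∈ ball (0 : ℂ) 1, 1 - (ρ : ℂ) * w z ≠ 0 := by
    intro z hz h
    have h1 : (ρ : ℂ) * w z = 1 := by linear_combination -h
    have h2 : ‖(ρ : ℂ) * w z‖ = 1 := by rw [h1, norm_one]
    rw [norm_mul, Complex.norm_real, Real.norm_eq_abs, abs_of_nonneg hρ0] at h2
    have := hwn z hz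
    nlinarith [norm_nonneg (w z)]
  set S : ℂ → ℂ := fun z => (w z - ρ) / (1 - ρ * w z) with hS
  have hSd : DifferentiableOn ℂ S (ball 0 1) :=
    (hwd.sub_const _).div ((hwd.const_mul _).const_sub 1) hden
  have hS0 : S 0 = 0 := by simp [hS, hw0]
  have hSn : ∀ z ∈ ball (0 : ℂ) 1, ‖S z‖ ≤ 1 := by
    intro z hz
    have hpos : 0 < ‖1 - (ρ : ℂ) * w z‖ := norm_pos_iff.mpr (hden z hz)
    simp only [hS, norm_div]
    rw [div_le_one hpos]
    refine abs_le_of_sq_le_sq' ?_ hpos.le |>.2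
    have h1 := norm_sq_one_add_sub (-(ρ : ℂ)) (w z)
    have h2 : (starRingEnd ℂ) (-(ρ : ℂ)) = -(ρ : ℂ) := by
      rw [map_neg, Complex.conj_ofReal]
    rw [h2] at h1
    have h3 : 1 + -(ρ : ℂ) * w z = 1 - ρ * w z := by ring
    have h4 : w z + -(ρ : ℂ) = w z - ρ := by ring
    rw [h3, h4, norm_neg, Complex.norm_real, Real.norm_eq_abs, sq_abs] at h1
    have h5 : 0 ≤ (1 - ρ ^ 2) * (1 - ‖w z‖ ^ 2) := by
      have h6 := hwn z hz
      have h7 := norm_nonneg (w z)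
      refine mul_nonneg ?_ ?_ <;> nlinarith
    linarith
  refine ⟨e, dslope S 0, he, ?_, ?_, ?_⟩
  · exact (differentiableOn_dslope (isOpen_ball.mem_nhds (mem_ball_self one_pos))).mpr hSd
  · intro z hz
    have hmaps : MapsTo S (ball 0 1) (closedBall (S 0) 1) := by
      rw [hS0]
      intro y hy
      simpa using hSn y hy
    have := Complex.norm_dslope_le_div_of_mapsTo_ball hSd hmaps hz
    simpa using this
  · intro z hz
    have h1 : z * dslope S 0 z = S z := by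
      have := sub_smul_dslope S 0 z
      simpa only [sub_zero, smul_eq_mul, hS0] using this
    rw [h1]
    have hne := hden z hz
    have hSρ : ‖(ρ : ℂ) * S z‖ < 1 := by
      rw [norm_mul, Complex.norm_real, Real.norm_eq_abs, abs_of_nonneg hρ0]
      have := hSn z hz
      nlinarith [norm_nonneg (S z)]
    have hne2 : 1 + (ρ : ℂ) * S z ≠ 0 := by
      intro h
      have h1 : (ρ : ℂ) * S z = -1 := by linear_combination h
      rw [h1, norm_neg, norm_one] at hSρ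
      exact lt_irrefl _ hSρ
    have h2 : (ρ + S z) / (1 + ρ * S z) = w z := by
      rw [div_eq_iff hne2]
      simp only [hS]
      field_simp
      ring
    rw [h2]
    simp only [hw]
    rw [← mul_assoc, hee', one_mul]

/-- The derivative formula. -/
lemma schur_deriv {φ ω ψ : ℂ → ℂ} {e : ℂ} {ρ : ℝ} (hω : Factor φ ω) (hρ0 : 0 ≤ ρ) (hρ1 : ρ < 1)
    (hψd : DifferentiableOn ℂ ψ (ball 0 1)) (hψ : ∀ z ∈ ball (0 : ℂ) 1, ‖ψ z‖ ≤ 1)
    (hf : ∀ z ∈ ball (0 : ℂ) 1, ω z = e * ((ρ + z * ψ z) / (1 + ρ * (z * ψ z))))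
    {z : ℂ} (hz : z ∈ ball (0 : ℂ) 1) :
    deriv φ z = e * ((ρ + z * ψ z) / (1 + ρ * (z * ψ z)) +
      (1 - ρ ^ 2) * (z * ψ z + z ^ 2 * deriv ψ z) / (1 + ρ * (z * ψ z)) ^ 2) := by
  have hz1 : ‖z‖ < 1 := by simpa using hz
  have hvn : ‖z * ψ z‖ < 1 := by
    rw [norm_mul]
    have := hψ z hz
    nlinarith [norm_nonneg z, norm_nonneg (ψ z)]
  have hne : 1 + (ρ : ℂ) * (z * ψ z) ≠ 0 := by
    intro h
    have h1 : (ρ : ℂ) * (z * ψ z) = -1 := by linear_combination h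
    have h2 : ‖(ρ : ℂ) * (z * ψ z)‖ = 1 := by rw [h1, norm_neg, norm_one]
    rw [norm_mul, Complex.norm_real, Real.norm_eq_abs, abs_of_nonneg hρ0] at h2
    nlinarith [norm_nonneg (z * ψ z)]
  have hψ' : HasDerivAt ψ (deriv ψ z) z :=
    (hψd.differentiableAt (isOpen_ball.mem_nhds hz)).hasDerivAt
  have hv : HasDerivAt (fun z => z * ψ z) (ψ z + z * deriv ψ z) z := by
    have := (hasDerivAt_id z).fun_mul hψ'
    refine this.congr_deriv ?_
    simp
  have hnum : HasDerivAt (fun z => (ρ : ℂ) + z * ψ z) (ψ z + z * deriv ψ z) z :=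
    hv.const_add _
  have hden : HasDerivAt (fun z => 1 + (ρ : ℂ) * (z * ψ z)) (ρ * (ψ z + z * deriv ψ z)) z :=
    (hv.const_mul _).const_add _
  have hq := (hnum.fun_div hden hne).const_mul e
  have hφ1 := (hasDerivAt_id z).fun_mul hq
  have hev : φ =ᶠ[𝓝 z] fun z => id z * (e * (((ρ : ℂ) + z * ψ z) / (1 + ρ * (z * ψ z)))) := by
    filter_upwards [isOpen_ball.mem_nhds hz] with y hy
    rw [hω.eq y, hf y hy]
    rfl
  rw [hev.deriv_eq, hφ1.deriv]
  simp only [id]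
  field_simp
  ring

end Pool.Agent.LibMP140d1b
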