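import Mathlib
import Pool.Agent.Lib_MP_140d1b_an.Schur

/-!
The pointwise bound for the derivative of a Schwarz function in terms of its Schur parameters.
-/

namespace Pool.Agent.LibMP140d1b

open Complex Metric Set Filter Topology Real

/-- `g(r) = 1 - 2/(1+r)²`. -/
noncomputable def gfun (r : ℝ) : ℝ := 1 - 2 / (1 + r) ^ 2

/-- `s(r) = 4(1-2r)/(1-r²)`. -/
noncomputable def sfun (r : ℝ) : ℝ := 4 * (1 - 2 * r) / (1 - r ^ 2)

/-- `W(v) = Re (1/(1+v)) - 1/(1+r)`. -/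
noncomputable def Wfun (r a n : ℝ) : ℝ := (1 + a) / (1 + 2 * a + n) - 1 / (1 + r)

section real

variable {r a b n D : ℝ}

lemma D_lower (hr1 : r < 1) (ha : -r ≤ a) (hn : a ^ 2 ≤ n)
    (hD : D = 1 + 2 * a + n) : (1 - r) ^ 2 ≤ D := by
  rw [hD]
  nlinarith [mul_nonneg (by linarith : 0 ≤ a + r) (by linarith : 0 ≤ 2 + (a - r))]

lemma W_eq (hr0 : 0 ≤ r) (hD : D = 1 + 2 * a + n) (hDpos : 0 < D) :
    Wfun r a n = (r - a * (1 - r) - n) / ((1 + r) * D) := by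
  unfold Wfun
  rw [← hD, div_sub_div _ _ hDpos.ne' (by linarith : (1 + r) ≠ 0)]
  rw [hD]
  congr 1
  · ring
  · ring

lemma W_lower (hr0 : 0 ≤ r) (hD : D = 1 + 2 * a + n) (hDpos : 0 < D)
    (hnr : n ≤ r ^ 2) : (1 - r) * (r - a) / ((1 + r) * D) ≤ Wfun r a n := by
  rw [W_eq hr0 hD hDpos]
  have h1 : 0 < (1 + r) * D := by positivity
  rw [div_le_div_iff_of_pos_right h1]
  nlinarith

lemma F1_le (hr0 : 0 ≤ r) (hr1 : r < 1) (hD : D = 1 + 2 * a + n) (hDpos : 0 < D) :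
    1 - 4 * (1 + a) ^ 2 / D ^ 2 + 2 * (1 - n) / ((1 - r ^ 2) * D) ≤
      gfun r - sfun r * Wfun r a n := by
  have h1r2 : 0 < 1 - r ^ 2 := by nlinarith
  have h1r : 0 < 1 + r := by linarith
  -- F1 = 1 - 4X² + 4cX - 2c
  set X := (1 + a) / D with hX
  have hXW : X = Wfun r a n + 1 / (1 + r) := by
    unfold Wfun
    rw [← hD]
    ring
  have e1 : 4 * (1 + a) ^ 2 / D ^ 2 = 4 * X ^ 2 := by rw [hX]; ring
  have e2 : 2 * (1 - n) / ((1 - r ^ 2) * D) = (4 * X - 2) / (1 - r ^ 2) := by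
    rw [hX]
    have hn : n = D - 1 - 2 * a := by rw [hD]; ring
    rw [hn]
    field_simp
    ring
  rw [e1, e2, hXW]
  set W := Wfun r a n with hWdef
  unfold gfun sfun
  have e3 : 1 - 4 * (W + 1 / (1 + r)) ^ 2 + (4 * (W + 1 / (1 + r)) - 2) / (1 - r ^ 2) =
      1 - 2 / (1 + r) ^ 2 - 4 * (1 - 2 * r) / (1 - r ^ 2) * W - 4 * W ^ 2 := by
    have e4 : 1 - r ^ 2 = (1 - r) * (1 + r) := by ring
    have h1r' : (1 - r) ≠ 0 := by linarith
    rw [e4]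
    field_simp
    ring
  rw [e3]
  have : 0 ≤ 4 * W ^ 2 := by positivity
  linarith

lemma b_bound (hr0 : 0 ≤ r) (hr42 : r ≤ 0.42) (ha : -r ≤ a) (har : a ≤ r) (hn : n = a ^ 2 + b ^ 2)
    (hD : D = 1 + 2 * a + n) (hnr : n ≤ r ^ 2) :
    b ^ 2 / D ^ 4 ≤ 60 * Wfun r a n := by
  have hDl : (1 - r) ^ 2 ≤ D := D_lower (by linarith) ha (by rw [hn]; nlinarith [sq_nonneg b]) hD
  have h58 : (0.58 : ℝ) ^ 2 ≤ (1 - r) ^ 2 := pow_le_pow_left₀ (by norm_num) (by linarith) 2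
  have hDpos : 0 < D := by
    have : (0 : ℝ) < 0.58 ^ 2 := by norm_num
    linarith
  have hWl := W_lower hr0 hD hDpos hnr
  have hra : 0 ≤ r - a := by linarith
  have hb : b ^ 2 ≤ 2 * r * (r - a) := by nlinarith
  have hD3 : (0.58 : ℝ) ^ 6 ≤ D ^ 3 := by
    have := pow_le_pow_left₀ (by norm_num : (0 : ℝ) ≤ 0.58 ^ 2) (h58.trans hDl) 3
    calc (0.58 : ℝ) ^ 6 = (0.58 ^ 2) ^ 3 := by norm_num
      _ ≤ D ^ 3 := this
  have key : 2 * r * (r - a) / D ^ 4 ≤ 60 * ((1 - r) * (r - a) / ((1 + r) * D)) := by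
    have e1 : 2 * r * (r - a) / D ^ 4 = (r - a) * (2 * r / D ^ 3) / D := by
      field_simp
    have e2 : 60 * ((1 - r) * (r - a) / ((1 + r) * D)) = (r - a) * (60 * (1 - r) / (1 + r)) / D := by
      field_simp
    rw [e1, e2]
    have h1r : 0 < 1 + r := by linarith
    have h2 : 2 * r / D ^ 3 ≤ 60 * (1 - r) / (1 + r) := by
      rw [div_le_div_iff₀ (by positivity) h1r]
      have h3 : 2 * r * (1 + r) ≤ 2 * 0.42 * 1.42 := by nlinarith
      have h4 : 60 * 0.58 * 0.58 ^ 6 ≤ 60 * (1 - r) * D ^ 3 := by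
        refine mul_le_mul ?_ hD3 (by norm_num) (by linarith)
        linarith
      have h5 : (2 * 0.42 * 1.42 : ℝ) ≤ 60 * 0.58 * 0.58 ^ 6 := by norm_num
      linarith
    rw [div_le_div_iff_of_pos_right hDpos]
    exact mul_le_mul_of_nonneg_left h2 hra
  calc b ^ 2 / D ^ 4 ≤ 2 * r * (r - a) / D ^ 4 := by
        rw [div_le_div_iff_of_pos_right (by positivity)]
        exact hb
    _ ≤ _ := key
    _ ≤ _ := by linarith

/-- The modulus of the numerator. -/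
lemma num_bound {ρ : ℝ} (hr0 : 0 ≤ r) (hr42 : r ≤ 0.42) (hρ0 : 0.999 ≤ ρ) (hρ1 : ρ ≤ 1)
    (ha : -r ≤ a) (hn : n = a ^ 2 + b ^ 2) (hD : D = 1 + 2 * a + n) (hnr : n ≤ r ^ 2) :
    ρ ^ 2 * D ^ 2 + 4 * ρ * (1 - ρ) * (a + 2 * n + n * a) + 4 * (1 - ρ) ^ 2 * n ≤
      (ρ * D + 2 * (1 - ρ) * (a + 2 * n + n * a) / D +
        4 * (1 - ρ) ^ 2 * b ^ 2 * (1 - n) ^ 2 / D ^ 3) ^ 2 ∧
    0 ≤ ρ * D + 2 * (1 - ρ) * (a + 2 * n + n * a) / D +
        4 * (1 - ρ) ^ 2 * b ^ 2 * (1 - n) ^ 2 / D ^ 3 := by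
  have hb2 : 0 ≤ b ^ 2 := sq_nonneg b
  have hDl : (1 - r) ^ 2 ≤ D := D_lower (by linarith) ha (by rw [hn]; linarith) hD
  have h58 : (0.58 : ℝ) ^ 2 ≤ (1 - r) ^ 2 := pow_le_pow_left₀ (by norm_num) (by linarith) 2
  have hDl' : (0.3364 : ℝ) ≤ D := by
    have : (0.58 : ℝ) ^ 2 = 0.3364 := by norm_num
    linarith
  have hDpos : 0 < D := by linarith
  set Z := a + 2 * n + n * a with hZ
  set ε := 1 - ρ with hε
  have hε0 : 0 ≤ ε := by linarith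
  have hε1 : ε ≤ 0.001 := by linarith
  have hid : n * D ^ 2 = Z ^ 2 + b ^ 2 * (1 - n) ^ 2 := by
    rw [hZ, hD, hn]
    ring
  have hZ2 : Z ^ 2 ≤ (r * D) ^ 2 := by
    have h1 : n * D ^ 2 ≤ r ^ 2 * D ^ 2 := mul_le_mul_of_nonneg_right hnr (by positivity)
    have h2 : 0 ≤ b ^ 2 * (1 - n) ^ 2 := by positivity
    nlinarith
  have hZabs : |Z| ≤ r * D := abs_le_of_sq_le_sq hZ2 (by positivity)
  have hZD : -r ≤ Z / D := by
    rw [le_div_iff₀ hDpos]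
    have := (abs_le.mp hZabs).1
    linarith
  have hmain : D / 2 ≤ ρ * D + 2 * ε * Z / D := by
    have h1 : 2 * ε * Z / D = 2 * ε * (Z / D) := by ring
    rw [h1]
    have h2 : 2 * ε * (-r) ≤ 2 * ε * (Z / D) := mul_le_mul_of_nonneg_left hZD (by positivity)
    have h3 : -(0.00084 : ℝ) ≤ 2 * ε * (-r) := by nlinarith
    have h4 : 0.999 * D ≤ ρ * D := mul_le_mul_of_nonneg_right hρ0 hDpos.le
    linarith
  set κ := 4 * ε ^ 2 * b ^ 2 * (1 - n) ^ 2 / D ^ 3 with hκ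
  have hκ0 : 0 ≤ κ := by positivity
  refine ⟨?_, by linarith⟩
  have e1 : (2 * ε * Z / D) ^ 2 = 4 * ε ^ 2 * n - κ * D := by
    have h1 : Z ^ 2 = n * D ^ 2 - b ^ 2 * (1 - n) ^ 2 := by linarith
    have h2 : (2 * ε * Z / D) ^ 2 = 4 * ε ^ 2 * Z ^ 2 / D ^ 2 := by ring
    rw [h2, h1, hκ]
    field_simp
  have e2 : ρ * D * (2 * ε * Z / D) = 2 * ρ * ε * Z := by
    field_simp
  have h5 : κ * D ≤ 2 * κ * (ρ * D + 2 * ε * Z / D) := by
    nlinarith [mul_le_mul_of_nonneg_left hmain hκ0]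
  have e3 : (ρ * D + 2 * ε * Z / D + κ) ^ 2 = ρ ^ 2 * D ^ 2 + 2 * (ρ * D * (2 * ε * Z / D)) +
      (2 * ε * Z / D) ^ 2 + 2 * κ * (ρ * D + 2 * ε * Z / D) + κ ^ 2 := by ring
  rw [e3, e1, e2]
  nlinarith [sq_nonneg κ]

/-- The final real inequality. -/
lemma real_bound {ρ : ℝ} (hr0 : 0.41 ≤ r) (hr42 : r ≤ 0.42) (hg : 0 ≤ gfun r)
    (hρ0 : 0.999 ≤ ρ) (hρ1 : ρ ≤ 1)
    (ha : -r ≤ a) (har : a ≤ r) (hn : n = a ^ 2 + b ^ 2) (hD : D = 1 + 2 * a + n)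
    (hnr : n ≤ r ^ 2) :
    (ρ * D + 2 * (1 - ρ) * (a + 2 * n + n * a) / D +
        4 * (1 - ρ) ^ 2 * b ^ 2 * (1 - n) ^ 2 / D ^ 3 +
        (1 - ρ ^ 2) * ((r ^ 2 - n) / (1 - r ^ 2))) / (1 + 2 * ρ * a + ρ ^ 2 * n) ≤
      1 + (1 - ρ) * ((1 + (1 - ρ)) * gfun r -
        (1 - 2 * (1 - ρ)) * (sfun r - 240 * (1 - ρ)) * Wfun r a n) := by
  have hb2 : 0 ≤ b ^ 2 := sq_nonneg b
  have hr0' : 0 ≤ r := by linarith
  have hn0 : 0 ≤ n := by rw [hn]; positivity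
  have hDl : (1 - r) ^ 2 ≤ D := D_lower (by linarith) ha (by rw [hn]; linarith) hD
  have h58 : (0.58 : ℝ) ^ 2 ≤ (1 - r) ^ 2 := pow_le_pow_left₀ (by norm_num) (by linarith) 2
  have hDl' : (0.3364 : ℝ) ≤ D := by
    have : (0.58 : ℝ) ^ 2 = 0.3364 := by norm_num
    linarith
  have hDpos : 0 < D := by linarith
  have h1r2 : 0 < 1 - r ^ 2 := by nlinarith only [hr42, hr0]
  have hn1 : n ≤ 0.1764 := by nlinarith only [hr42, hr0, hnr]
  obtain ⟨ε, hε⟩ : ∃ ε, ε = 1 - ρ := ⟨_, rfl⟩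
  have hρε : ρ = 1 - ε := by linarith
  have hε0 : 0 ≤ ε := by linarith
  have hε1 : ε ≤ 0.001 := by linarith
  rw [← hε]
  obtain ⟨W, hWd⟩ : ∃ W, W = Wfun r a n := ⟨_, rfl⟩
  have hWl := W_lower hr0' hD hDpos hnr
  have hbb := b_bound hr0' hr42 ha har hn hD hnr
  have hF := F1_le hr0' (by linarith) hD hDpos
  rw [← hWd] at hWl hbb hF ⊢
  have hW0 : 0 ≤ W := by
    refine le_trans ?_ hWl
    refine div_nonneg (mul_nonneg (by linarith) (by linarith)) (by positivity)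
  obtain ⟨g, hgd⟩ : ∃ g, g = gfun r := ⟨_, rfl⟩
  rw [← hgd] at hF hg ⊢
  obtain ⟨s, hsd⟩ : ∃ s, s = sfun r := ⟨_, rfl⟩
  rw [← hsd] at hF ⊢
  have hs : 0.7 ≤ s := by
    rw [hsd]
    unfold sfun
    rw [le_div_iff₀ h1r2]
    nlinarith only [hr42, hr0]
  -- the denominator
  obtain ⟨Δ, hΔ⟩ : ∃ Δ, Δ = 1 + 2 * ρ * a + ρ ^ 2 * n := ⟨_, rfl⟩
  rw [← hΔ]
  have hΔ' : Δ = D - 2 * ε * (a + n) + ε ^ 2 * n := by
    rw [hΔ, hD, hρε]; ring
  have hu1 : a + n ≤ 0.3 * D := by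
    have h1 : (1 + r) * (a + n) ≤ r * D := by
      rw [hD]
      nlinarith only [mul_nonneg (by linarith : 0 ≤ 1 - r) (by linarith : 0 ≤ r - a), hnr]
    have h2 : r * D ≤ 0.3 * (1 + r) * D :=
      mul_le_mul_of_nonneg_right (by linarith) hDpos.le
    have h3 : (1 + r) * (a + n) ≤ (1 + r) * (0.3 * D) := by linarith
    exact le_of_mul_le_mul_left h3 (by linarith)
  have hu2 : -(a + n) ≤ 0.73 * D := by
    have h1 : -((1 - r) * (a + n)) ≤ r * D := by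
      rw [hD]
      nlinarith only [mul_nonneg (by linarith : 0 ≤ a + r) (by linarith : 0 ≤ a + 1), hn, hb2]
    have h2 : r * D ≤ 0.73 * (1 - r) * D :=
      mul_le_mul_of_nonneg_right (by linarith) hDpos.le
    have h3 : (1 - r) * (-(a + n)) ≤ (1 - r) * (0.73 * D) := by linarith
    exact le_of_mul_le_mul_left h3 (by linarith)
  have hΔ1 : D * (1 - 0.6 * ε) ≤ Δ := by
    rw [hΔ']
    have h1 : 2 * ε * (a + n) ≤ 2 * ε * (0.3 * D) := mul_le_mul_of_nonneg_left hu1 (by positivity)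
    have h2 : 0 ≤ ε ^ 2 * n := by positivity
    linarith
  have hΔ2 : Δ ≤ D * (1 + 2 * ε) := by
    rw [hΔ']
    have h1 : 2 * ε * (-(a + n)) ≤ 2 * ε * (0.73 * D) :=
      mul_le_mul_of_nonneg_left hu2 (by positivity)
    have h2 : ε ^ 2 * n ≤ 0.54 * ε * D := by
      have h4 : n ≤ 0.54 * D := by linarith
      calc ε ^ 2 * n ≤ ε * n := by
            refine mul_le_mul_of_nonneg_right ?_ hn0
            nlinarith only [hε0, hε1]
        _ ≤ ε * (0.54 * D) := mul_le_mul_of_nonneg_left h4 hε0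
        _ = _ := by ring
    linarith
  have hΔpos : 0 < Δ := by
    have : 0 < D * (1 - 0.6 * ε) := by
      have : 0 < 1 - 0.6 * ε := by linarith
      positivity
    linarith
  -- the numerator
  obtain ⟨F1, hF1⟩ : ∃ F1, F1 = 1 - 4 * (1 + a) ^ 2 / D ^ 2 +
      2 * (1 - n) / ((1 - r ^ 2) * D) := ⟨_, rfl⟩
  rw [← hF1] at hF
  have hnum : ρ * D + 2 * ε * (a + 2 * n + n * a) / D + 2 * ε * ((r ^ 2 - n) / (1 - r ^ 2)) =
      D - 2 * ε * (a + n) + ε * (D * F1) := by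
    rw [hF1, hρε]
    have hn' : n = D - 1 - 2 * a := by rw [hD]; ring
    rw [hn']
    field_simp
    ring
  have h1ρ2 : (1 - ρ ^ 2) * ((r ^ 2 - n) / (1 - r ^ 2)) ≤ 2 * ε * ((r ^ 2 - n) / (1 - r ^ 2)) := by
    refine mul_le_mul_of_nonneg_right ?_ (div_nonneg (by linarith) h1r2.le)
    rw [hρε]
    nlinarith only [hε0]
  have hκ : 4 * ε ^ 2 * b ^ 2 * (1 - n) ^ 2 / D ^ 3 ≤ 240 * ε ^ 2 * (D * W) := by
    have h1 : 4 * ε ^ 2 * b ^ 2 * (1 - n) ^ 2 / D ^ 3 = 4 * ε ^ 2 * D * ((b ^ 2 / D ^ 4) *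
        (1 - n) ^ 2) := by
      field_simp
    rw [h1]
    have h2 : (b ^ 2 / D ^ 4) * (1 - n) ^ 2 ≤ 60 * W * 1 := by
      refine mul_le_mul hbb ?_ (by positivity) (by positivity)
      nlinarith only [hn0, hn1]
    calc 4 * ε ^ 2 * D * ((b ^ 2 / D ^ 4) * (1 - n) ^ 2) ≤ 4 * ε ^ 2 * D * (60 * W * 1) :=
          mul_le_mul_of_nonneg_left h2 (by positivity)
      _ = _ := by ring
  have hDF : ε * (D * F1) ≤ ε * (D * (g - s * W)) :=
    mul_le_mul_of_nonneg_left (mul_le_mul_of_nonneg_left hF hDpos.le) hε0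
  have hnum2 : ρ * D + 2 * ε * (a + 2 * n + n * a) / D +
        4 * ε ^ 2 * b ^ 2 * (1 - n) ^ 2 / D ^ 3 +
        (1 - ρ ^ 2) * ((r ^ 2 - n) / (1 - r ^ 2)) ≤ Δ + ε * (D * (g - (s - 240 * ε) * W)) := by
    have h1 : 0 ≤ ε ^ 2 * n := by positivity
    have h2 : ε * (D * (g - s * W)) + 240 * ε ^ 2 * (D * W) =
        ε * (D * (g - (s - 240 * ε) * W)) := by ring
    rw [hΔ']
    linarith
  have hs2 : 0 ≤ s - 240 * ε := by linarith
  calc (ρ * D + 2 * ε * (a + 2 * n + n * a) / D +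
        4 * ε ^ 2 * b ^ 2 * (1 - n) ^ 2 / D ^ 3 +
        (1 - ρ ^ 2) * ((r ^ 2 - n) / (1 - r ^ 2))) / Δ ≤
      (Δ + ε * (D * (g - (s - 240 * ε) * W))) / Δ := by
        rw [div_le_div_iff_of_pos_right hΔpos]
        exact hnum2
    _ = 1 + ε * ((D / Δ) * g - (D / Δ) * ((s - 240 * ε) * W)) := by
        field_simp
    _ ≤ 1 + ε * ((1 + ε) * g - (1 - 2 * ε) * (s - 240 * ε) * W) := by
        have h1 : D / Δ ≤ 1 + ε := by
          rw [div_le_iff₀ hΔpos]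
          have h2 : D ≤ (1 + ε) * (D * (1 - 0.6 * ε)) := by
            have h3 : 1 ≤ (1 + ε) * (1 - 0.6 * ε) := by nlinarith only [hε0, hε1]
            calc D = 1 * D := by ring
              _ ≤ ((1 + ε) * (1 - 0.6 * ε)) * D := mul_le_mul_of_nonneg_right h3 hDpos.le
              _ = _ := by ring
          exact h2.trans (mul_le_mul_of_nonneg_left hΔ1 (by linarith))
        have h4 : 1 - 2 * ε ≤ D / Δ := by
          rw [le_div_iff₀ hΔpos]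
          have h5 : (1 - 2 * ε) * (D * (1 + 2 * ε)) ≤ D := by
            have : (1 - 2 * ε) * (1 + 2 * ε) ≤ 1 := by nlinarith only [hε0]
            calc (1 - 2 * ε) * (D * (1 + 2 * ε)) = ((1 - 2 * ε) * (1 + 2 * ε)) * D := by ring
              _ ≤ 1 * D := mul_le_mul_of_nonneg_right this hDpos.le
              _ = D := by ring
          exact (mul_le_mul_of_nonneg_left hΔ2 (by linarith)).trans h5
        have h6 : (D / Δ) * g ≤ (1 + ε) * g := mul_le_mul_of_nonneg_right h1 hg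
        have h7 : (1 - 2 * ε) * ((s - 240 * ε) * W) ≤ (D / Δ) * ((s - 240 * ε) * W) :=
          mul_le_mul_of_nonneg_right h4 (by positivity)
        have h8 : (D / Δ) * g - (D / Δ) * ((s - 240 * ε) * W) ≤
            (1 + ε) * g - (1 - 2 * ε) * (s - 240 * ε) * W := by linarith
        have := mul_le_mul_of_nonneg_left h8 hε0
        linarith

end real

end Pool.Agent.LibMP140d1b
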