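import Mathlib
import Pool.Agent.Lib_MP_140d1b_an.SchurBound

/-!
The quadratic well for the derivative of a Schwarz function.
-/

namespace Pool.Agent.LibMP140d1b

open Complex Metric Set Filter Topology Real

lemma schur_norm_bound {r ρ : ℝ} {v d : ℂ} (hr0 : 0.41 ≤ r) (hr42 : r ≤ 0.42) (hg : 0 ≤ gfun r)
    (hρ0 : 0.999 ≤ ρ) (hρ1 : ρ ≤ 1) (hv : ‖v‖ ≤ r)
    (hd : ‖d‖ ≤ (r ^ 2 - ‖v‖ ^ 2) / (1 - r ^ 2)) :
    ‖(ρ + v) / (1 + ρ * v) + (1 - (ρ : ℂ) ^ 2) * (v + d) / (1 + ρ * v) ^ 2‖ ≤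
      1 + (1 - ρ) * ((1 + (1 - ρ)) * gfun r -
        (1 - 2 * (1 - ρ)) * (sfun r - 240 * (1 - ρ)) * Wfun r v.re (‖v‖ ^ 2)) := by
  obtain ⟨a, ha⟩ : ∃ a, a = v.re := ⟨_, rfl⟩
  obtain ⟨b, hb⟩ : ∃ b, b = v.im := ⟨_, rfl⟩
  obtain ⟨n, hn'⟩ : ∃ n, n = ‖v‖ ^ 2 := ⟨_, rfl⟩
  have hr0' : 0 ≤ r := by linarith
  have hn : n = a ^ 2 + b ^ 2 := by
    rw [hn', Complex.sq_norm, Complex.normSq_apply, ha, hb]
    ring
  have hnr : n ≤ r ^ 2 := by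
    rw [hn']
    exact pow_le_pow_left₀ (norm_nonneg _) hv 2
  have hab : |a| ≤ r := by
    rw [ha]
    exact (Complex.abs_re_le_norm v).trans hv
  have ha1 : -r ≤ a := (abs_le.mp hab).1
  have ha2 : a ≤ r := (abs_le.mp hab).2
  rw [← hn'] at hd ⊢
  rw [← ha]
  obtain ⟨D, hD⟩ : ∃ D, D = 1 + 2 * a + n := ⟨_, rfl⟩
  have h1 := real_bound (b := b) hr0 hr42 hg hρ0 hρ1 ha1 ha2 hn hD hnr
  have h2 := num_bound (b := b) hr0' hr42 hρ0 hρ1 ha1 hn hD hnr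
  have hρv : ‖(ρ : ℂ) * v‖ < 1 := by
    rw [norm_mul, Complex.norm_real, Real.norm_eq_abs, abs_of_nonneg (by linarith)]
    nlinarith [norm_nonneg v]
  have hne : 1 + (ρ : ℂ) * v ≠ 0 := by
    intro h
    have h1 : (ρ : ℂ) * v = -1 := by linear_combination h
    rw [h1, norm_neg, norm_one] at hρv
    exact lt_irrefl _ hρv
  have hden : ‖1 + (ρ : ℂ) * v‖ ^ 2 = 1 + 2 * ρ * a + ρ ^ 2 * n := by
    rw [Complex.sq_norm, Complex.normSq_apply, hn, ha, hb]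
    simp
    ring
  have hdenpos : 0 < ‖1 + (ρ : ℂ) * v‖ ^ 2 := by
    have := norm_pos_iff.mpr hne
    positivity
  have htot : (ρ + v) / (1 + ρ * v) + (1 - (ρ : ℂ) ^ 2) * (v + d) / (1 + ρ * v) ^ 2 =
      ((ρ + 2 * v + ρ * v ^ 2) + (1 - ρ ^ 2) * d) / (1 + ρ * v) ^ 2 := by
    field_simp
    ring
  have hnumsq : ‖(ρ : ℂ) + 2 * v + ρ * v ^ 2‖ ^ 2 =
      ρ ^ 2 * D ^ 2 + 4 * ρ * (1 - ρ) * (a + 2 * n + n * a) + 4 * (1 - ρ) ^ 2 * n := by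
    rw [Complex.sq_norm, Complex.normSq_apply, hD, hn, ha, hb]
    simp [pow_two]
    ring
  have hnum : ‖(ρ : ℂ) + 2 * v + ρ * v ^ 2‖ ≤ ρ * D + 2 * (1 - ρ) * (a + 2 * n + n * a) / D +
        4 * (1 - ρ) ^ 2 * b ^ 2 * (1 - n) ^ 2 / D ^ 3 := by
    refine abs_le_of_sq_le_sq' ?_ h2.2 |>.2
    rw [hnumsq]
    exact h2.1
  have hd2 : ‖(1 - (ρ : ℂ) ^ 2) * d‖ ≤ (1 - ρ ^ 2) * ((r ^ 2 - n) / (1 - r ^ 2)) := by
    rw [norm_mul]
    have h3 : ‖(1 - (ρ : ℂ) ^ 2)‖ = 1 - ρ ^ 2 := by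
      have : (1 - (ρ : ℂ) ^ 2) = ((1 - ρ ^ 2 : ℝ) : ℂ) := by push_cast; ring
      rw [this, Complex.norm_real, Real.norm_eq_abs, abs_of_nonneg (by nlinarith)]
    rw [h3]
    exact mul_le_mul_of_nonneg_left hd (by nlinarith)
  rw [htot, norm_div, norm_pow]
  calc ‖(ρ : ℂ) + 2 * v + ρ * v ^ 2 + (1 - ρ ^ 2) * d‖ / ‖1 + (ρ : ℂ) * v‖ ^ 2 ≤
      (ρ * D + 2 * (1 - ρ) * (a + 2 * n + n * a) / D +
        4 * (1 - ρ) ^ 2 * b ^ 2 * (1 - n) ^ 2 / D ^ 3 +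
        (1 - ρ ^ 2) * ((r ^ 2 - n) / (1 - r ^ 2))) / ‖1 + (ρ : ℂ) * v‖ ^ 2 := by
        rw [div_le_div_iff_of_pos_right hdenpos]
        exact (norm_add_le _ _).trans (add_le_add hnum hd2)
    _ ≤ _ := by
        rw [hden]
        exact h1

/-- Two-point Schwarz–Pick at the origin. -/
lemma two_point {ψ : ℂ → ℂ} (hd : DifferentiableOn ℂ ψ (ball 0 1))
    (hle : ∀ z ∈ ball (0 : ℂ) 1, ‖ψ z‖ ≤ 1) {z : ℂ} (hz : z ∈ ball (0 : ℂ) 1) :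
    ‖ψ z - ψ 0‖ ≤ ‖z‖ * ‖1 - (starRingEnd ℂ) (ψ 0) * ψ z‖ := by
  have h0b : (0 : ℂ) ∈ ball (0 : ℂ) 1 := mem_ball_self one_pos
  have hz1 : ‖z‖ < 1 := by simpa using hz
  have hkey : ∀ τ : ℝ, 0 < τ → τ < 1 →
      ‖τ * ψ z - τ * ψ 0‖ ≤ ‖z‖ * ‖1 - (starRingEnd ℂ) (τ * ψ 0) * (τ * ψ z)‖ := by
    intro τ hτ hτ1
    have hn : ∀ y ∈ ball (0 : ℂ) 1, ‖(τ : ℂ) * ψ y‖ < 1 := by
      intro y hy
      rw [norm_mul, Complex.norm_real, Real.norm_eq_abs, abs_of_pos hτ]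
      have := hle y hy
      nlinarith [norm_nonneg (ψ y)]
    set c : ℂ := τ * ψ 0 with hc
    have hc1 : ‖-c‖ < 1 := by rw [norm_neg]; exact hn 0 h0b
    set S : ℂ → ℂ := fun y => (τ * ψ y + (-c)) / (1 + (starRingEnd ℂ) (-c) * (τ * ψ y)) with hS
    have hSd : DifferentiableOn ℂ S (ball 0 1) := by
      refine DifferentiableOn.div ?_ ?_ ?_
      · exact (hd.const_mul _).add_const _
      · exact ((hd.const_mul _).const_mul _).const_add _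
      · intro y hy
        exact one_add_ne hc1 (hn y hy)
    have hS0 : S 0 = 0 := by simp [hS, hc]
    have hSm : MapsTo S (ball 0 1) (closedBall 0 1) := by
      intro y hy
      have h := norm_add_lt_one_add hc1 (hn y hy)
      simp only [hS, mem_closedBall, dist_zero_right, norm_div]
      rw [div_le_one ((norm_nonneg _).trans_lt h)]
      exact h.le
    have h1 := Complex.norm_le_norm_of_mapsTo_ball hSd hSm hS0 hz1
    have hpos : 0 < ‖1 + (starRingEnd ℂ) (-c) * (τ * ψ z)‖ :=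
      norm_pos_iff.mpr (one_add_ne hc1 (hn z hz))
    simp only [hS, norm_div] at h1
    rw [div_le_iff₀ hpos] at h1
    have e1 : (τ : ℂ) * ψ z + -c = τ * ψ z - c := by ring
    have e2 : 1 + (starRingEnd ℂ) (-c) * (τ * ψ z) = 1 - (starRingEnd ℂ) c * (τ * ψ z) := by
      rw [map_neg]; ring
    rw [e1, e2] at h1
    exact h1
  have hlim1 : Tendsto (fun τ : ℝ => ‖(τ : ℂ) * ψ z - τ * ψ 0‖) (𝓝[<] 1)
      (𝓝 (‖((1 : ℝ) : ℂ) * ψ z - ((1 : ℝ) : ℂ) * ψ 0‖)) := by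
    refine Tendsto.mono_left ?_ nhdsWithin_le_nhds
    exact Continuous.tendsto (by fun_prop) 1
  have hlim2 : Tendsto (fun τ : ℝ => ‖z‖ * ‖1 - (starRingEnd ℂ) (τ * ψ 0) * (τ * ψ z)‖) (𝓝[<] 1)
      (𝓝 (‖z‖ * ‖1 - (starRingEnd ℂ) (((1 : ℝ) : ℂ) * ψ 0) * (((1 : ℝ) : ℂ) * ψ z)‖)) := by
    refine Tendsto.mono_left ?_ nhdsWithin_le_nhds
    refine Continuous.tendsto ?_ 1
    have h1 : Continuous (fun τ : ℝ => (starRingEnd ℂ) ((τ : ℂ) * ψ 0)) :=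
      Complex.continuous_conj.comp (by fun_prop)
    exact continuous_const.mul ((continuous_const.sub (h1.mul (by fun_prop))).norm)
  have h := le_of_tendsto_of_tendsto hlim1 hlim2 (by
    filter_upwards [Ioo_mem_nhdsLT (zero_lt_one' ℝ)] with τ hτ using hkey τ hτ.1 hτ.2)
  simpa using h

/-- Consequence of the two-point inequality. -/
lemma two_point' {ψ : ℂ → ℂ} (hd : DifferentiableOn ℂ ψ (ball 0 1))
    (hle : ∀ z ∈ ball (0 : ℂ) 1, ‖ψ z‖ ≤ 1) {z : ℂ} {r : ℝ} (hr1 : r < 1) (hz : ‖z‖ = r) :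
    ‖ψ z - ψ 0‖ ≤ r / (1 - r) * (1 - ‖ψ z‖ ^ 2) := by
  have hr0 : 0 ≤ r := hz ▸ norm_nonneg z
  have hzb : z ∈ ball (0 : ℂ) 1 := by simp [hz, hr1]
  have h1 := two_point hd hle hzb
  rw [hz] at h1
  set β := ψ z with hβ
  set c := ψ 0 with hc
  have hβ1 : ‖β‖ ≤ 1 := hle z hzb
  have h2 : ‖1 - (starRingEnd ℂ) c * β‖ ≤ (1 - ‖β‖ ^ 2) + ‖β - c‖ := by
    have e : 1 - (starRingEnd ℂ) c * β = (1 - ‖β‖ ^ 2 : ℝ) + (starRingEnd ℂ) (β - c) * β := by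
      have : (starRingEnd ℂ) β * β = ((‖β‖ ^ 2 : ℝ) : ℂ) := by
        rw [mul_comm, Complex.mul_conj, Complex.normSq_eq_norm_sq]
      rw [map_sub, sub_mul, this]
      push_cast
      ring
    rw [e]
    refine (norm_add_le _ _).trans ?_
    rw [Complex.norm_real, Real.norm_eq_abs, abs_of_nonneg (by nlinarith [norm_nonneg β]),
      norm_mul, RCLike.norm_conj]
    have : ‖β - c‖ * ‖β‖ ≤ ‖β - c‖ * 1 := mul_le_mul_of_nonneg_left hβ1 (norm_nonneg _)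
    linarith
  have h3 : 0 < 1 - r := by linarith
  rw [div_mul_eq_mul_div, le_div_iff₀ h3]
  have h4 := mul_le_mul_of_nonneg_left h2 hr0
  nlinarith

/-- Lower bound for `W` in terms of `w = v / r`. -/
lemma W_lower_well {r : ℝ} (hr0 : 0 < r) (hr1 : r < 1) {w : ℂ} (hw : ‖w‖ ≤ 1) :
    r / (2 * (1 + r) ^ 3) * ((1 - r) * ‖1 - w‖ ^ 2 + (1 + r) * (1 - ‖w‖ ^ 2)) ≤
      Wfun r ((r : ℂ) * w).re (‖(r : ℂ) * w‖ ^ 2) := by
  obtain ⟨a, ha⟩ : ∃ a, a = w.re := ⟨_, rfl⟩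
  obtain ⟨b, hb⟩ : ∃ b, b = w.im := ⟨_, rfl⟩
  obtain ⟨m, hm⟩ : ∃ m, m = ‖w‖ ^ 2 := ⟨_, rfl⟩
  have hm' : m = a ^ 2 + b ^ 2 := by
    rw [hm, Complex.sq_norm, Complex.normSq_apply, ha, hb]
    ring
  have hm1 : m ≤ 1 := by
    rw [hm]
    exact pow_le_one₀ (norm_nonneg _) hw
  have hw1 : ‖1 - w‖ ^ 2 = 1 - 2 * a + m := by
    rw [Complex.sq_norm, Complex.normSq_apply, hm', ha, hb]
    simp
    ring
  have hre : ((r : ℂ) * w).re = r * a := by rw [Complex.re_ofReal_mul, ha]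
  have hns : ‖(r : ℂ) * w‖ ^ 2 = r ^ 2 * m := by
    rw [norm_mul, mul_pow, Complex.norm_real, Real.norm_eq_abs, sq_abs, hm]
  rw [hre, hns, hw1, ← hm]
  obtain ⟨D, hD⟩ : ∃ D, D = 1 + 2 * (r * a) + r ^ 2 * m := ⟨_, rfl⟩
  have ha1 : |a| ≤ 1 := by
    rw [ha]
    exact (Complex.abs_re_le_norm w).trans hw
  have ha2 := (abs_le.mp ha1).1
  have ha3 := (abs_le.mp ha1).2
  have hDpos : 0 < D := by
    have h1 : (1 - r) ^ 2 ≤ D := by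
      refine D_lower (a := r * a) (n := r ^ 2 * m) hr1 (by nlinarith) ?_ hD
      rw [hm']
      nlinarith [sq_nonneg (r * b)]
    have h2 : 0 < (1 - r) ^ 2 := by
      have : 0 < 1 - r := by linarith
      positivity
    linarith
  have hDle : D ≤ (1 + r) ^ 2 := by
    rw [hD]
    nlinarith [mul_le_mul_of_nonneg_left hm1 (sq_nonneg r), mul_le_mul_of_nonneg_left ha3 hr0.le]
  rw [W_eq hr0.le hD hDpos]
  have e : r - r * a * (1 - r) - r ^ 2 * m =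
      r / 2 * ((1 - r) * (1 - 2 * a + m) + (1 + r) * (1 - m)) := by ring
  rw [e]
  set Q := (1 - r) * (1 - 2 * a + m) + (1 + r) * (1 - m) with hQ
  have hQ0 : 0 ≤ Q := by
    rw [hQ]
    have h1 : 0 ≤ 1 - 2 * a + m := by
      rw [← hw1]; positivity
    have h2 : 0 ≤ (1 - r) * (1 - 2 * a + m) := mul_nonneg (by linarith) h1
    have h3 : 0 ≤ (1 + r) * (1 - m) := mul_nonneg (by linarith) (by linarith)
    linarith
  have e2 : r / (2 * (1 + r) ^ 3) * Q = r / 2 * Q / ((1 + r) * (1 + r) ^ 2) := by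
    field_simp
  rw [e2]
  refine div_le_div_of_nonneg_left (by positivity) (by positivity) ?_
  exact mul_le_mul_of_nonneg_left hDle (by linarith)

end Pool.Agent.LibMP140d1b
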