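import Mathlib
import Pool.Agent.Lib_MP_140d1b_an.WellBound
import Pool.Agent.Lib_MP_140d1b_an.Remainder
import Pool.Agent.Lib_MP_140d1b_an.LowerBound

/-!
The lower bound `r_p ≥ √2 - 1 + p^(-2/3)/1500`.
-/

namespace Pool.Agent.LibMP140d1b

open Complex Metric Set Filter Topology Real

/-- The test weight. -/
noncomputable def Vf (θ r : ℝ) (b : ℂ) (z : ℂ) : ℝ := 4 * θ ^ 2 / ‖1 + θ - b * (z / r)‖ ^ 2

lemma bz_norm {r : ℝ} (hr : 0 < r) {b z : ℂ} (hz : ‖z‖ ≤ r) :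
    ‖b * (z / r)‖ ≤ ‖b‖ := by
  rw [norm_mul, norm_div, Complex.norm_real, Real.norm_eq_abs, abs_of_pos hr]
  refine mul_le_of_le_one_right (norm_nonneg _) ?_
  rw [div_le_one hr]
  exact hz

lemma Vf_den_lower {θ r : ℝ} (hθ : 0 < θ) (hr : 0 < r) {b z : ℂ} (hb : ‖b‖ ≤ 1) (hz : ‖z‖ ≤ r) :
    θ ≤ ‖1 + (θ : ℂ) - b * (z / r)‖ := by
  have h1 := bz_norm (b := b) hr hz
  have h2 := norm_sub_norm_le (1 + (θ : ℂ)) (b * (z / r))
  have h3 : ‖1 + (θ : ℂ)‖ = 1 + θ := by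
    have : 1 + (θ : ℂ) = ((1 + θ : ℝ) : ℂ) := by push_cast; ring
    rw [this, Complex.norm_real, Real.norm_eq_abs, abs_of_pos (by linarith)]
  rw [h3] at h2
  linarith

lemma Vf_avg {θ r : ℝ} (hθ : 0 < θ) (hr : 0 < r) {b : ℂ} (hb : ‖b‖ ≤ 1) :
    circleAverage (Vf θ r b) 0 r ≤ 2 * θ := by
  set H : ℂ → ℂ := fun z => (1 + θ + b * (z / r)) / (1 + θ - b * (z / r)) with hH
  have hne : ∀ z ∈ closedBall (0 : ℂ) r, 1 + (θ : ℂ) - b * (z / r) ≠ 0 := by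
    intro z hz
    have hz' : ‖z‖ ≤ r := by simpa using hz
    have := Vf_den_lower hθ hr hb hz'
    exact norm_pos_iff.mp (by linarith)
  have hHd : DifferentiableOn ℂ H (closedBall 0 |r|) := by
    rw [abs_of_pos hr]
    have hu : DifferentiableOn ℂ (fun z : ℂ => b * (z / (r : ℂ))) (closedBall 0 r) :=
      ((differentiable_id.div_const _).const_mul b).differentiableOn
    exact DifferentiableOn.div (hu.const_add _) (hu.const_sub _) hne
  have hDC : DiffContOnCl ℂ H (ball 0 |r|) := hHd.diffContOnCl_ball subset_rfl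
  have hH0 : H 0 = 1 := by
    simp only [hH, zero_div, mul_zero, add_zero, sub_zero]
    refine div_self ?_
    have := hne 0 (by simp [hr.le])
    simpa using this
  have hHc : ContinuousOn H (sphere 0 r) := by
    have := hHd.continuousOn
    rw [abs_of_pos hr] at this
    exact this.mono sphere_subset_closedBall
  have h1 : circleAverage (fun z => (H z).re) 0 r = 1 := by
    have := Complex.reCLM.circleAverage_comp_comm (hHc.circleIntegrable hr.le)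
    rw [hDC.circleAverage, hH0] at this
    simpa [Function.comp_def] using this
  set K := (1 + θ) ^ 2 - ‖b‖ ^ 2 with hK
  have hb2 : ‖b‖ ^ 2 ≤ 1 := pow_le_one₀ (norm_nonneg _) hb
  have hKpos : 2 * θ ≤ K := by rw [hK]; nlinarith
  have h2 : circleAverage (Vf θ r b) 0 r = 4 * θ ^ 2 / K := by
    have e1 : circleAverage (Vf θ r b) 0 r =
        circleAverage (fun z => (4 * θ ^ 2 / K) * (H z).re) 0 r := by
      refine circleAverage_congr_sphere ?_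
      intro z hz
      rw [abs_of_pos hr] at hz
      have hzr : ‖z‖ = r := by simpa using hz
      have hzc : z ∈ closedBall (0 : ℂ) r := sphere_subset_closedBall hz
      have hne' := hne z hzc
      set u : ℂ := b * (z / r) with hu
      have hun : ‖u‖ = ‖b‖ := by
        rw [hu, norm_mul, norm_div, hzr, Complex.norm_real, Real.norm_eq_abs, abs_of_pos hr,
          div_self hr.ne', mul_one]
      have hre : (H z).re = K / ‖1 + (θ : ℂ) - u‖ ^ 2 := by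
        simp only [hH]
        rw [← hu, Complex.div_re, hK, ← hun, Complex.sq_norm, Complex.sq_norm]
        have hpos : 0 < Complex.normSq (1 + (θ : ℂ) - u) := Complex.normSq_pos.mpr hne'
        rw [← add_div, div_left_inj' hpos.ne', Complex.normSq_apply]
        simp
        ring
      simp only [Vf]
      rw [hre, ← hu]
      have hKne : K ≠ 0 := by linarith
      field_simp
    have e2 := circleAverage_fun_smul (a := 4 * θ ^ 2 / K) (f := fun z => (H z).re)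
      (c := 0) (R := r)
    simp only [smul_eq_mul] at e2
    rw [e1, e2, h1, mul_one]
  rw [h2, div_le_iff₀ (by linarith)]
  nlinarith

lemma Vf_continuousOn {θ r : ℝ} (hθ : 0 < θ) (hr : 0 < r) {b : ℂ} (hb : ‖b‖ ≤ 1) :
    ContinuousOn (Vf θ r b) (sphere 0 r) := by
  unfold Vf
  refine ContinuousOn.div continuousOn_const ?_ ?_
  · refine Continuous.continuousOn ?_
    have h : Continuous fun z : ℂ => 1 + (θ : ℂ) - b * (z / (r : ℂ)) :=
      continuous_const.sub (continuous_const.mul (continuous_id.div_const _))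
    exact h.norm.pow 2
  · intro z hz
    have hz' : ‖z‖ ≤ r := by
      have : ‖z‖ = r := by simpa using hz
      exact this.le
    have := Vf_den_lower hθ hr hb hz'
    have h2 : 0 < ‖1 + (θ : ℂ) - b * (z / r)‖ := by linarith
    positivity

lemma Vf_nonneg {θ r : ℝ} {b z : ℂ} : 0 ≤ Vf θ r b z := by
  unfold Vf
  positivity

lemma Vf_le_four {θ r : ℝ} (hθ : 0 < θ) (hr : 0 < r) {b z : ℂ} (hb : ‖b‖ ≤ 1) (hz : ‖z‖ ≤ r) :
    Vf θ r b z ≤ 4 := by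
  have := Vf_den_lower hθ hr hb hz
  have h2 : 0 < ‖1 + (θ : ℂ) - b * (z / r)‖ := by linarith
  unfold Vf
  rw [div_le_iff₀ (by positivity)]
  have := pow_le_pow_left₀ hθ.le this 2
  linarith

lemma Vf_ge_one {θ r : ℝ} (hθ : 0 < θ) (hr : 0 < r) {b z : ℂ} (hb : ‖b‖ ≤ 1) (hz : ‖z‖ ≤ r)
    (hd : ‖1 - b * (z / r)‖ ≤ θ) : 1 ≤ Vf θ r b z := by
  have := Vf_den_lower hθ hr hb hz
  have h2 : 0 < ‖1 + (θ : ℂ) - b * (z / r)‖ := by linarith
  have h3 : ‖1 + (θ : ℂ) - b * (z / r)‖ ≤ 2 * θ := by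
    have e : 1 + (θ : ℂ) - b * (z / r) = (θ : ℂ) + (1 - b * (z / r)) := by ring
    rw [e]
    refine (norm_add_le _ _).trans ?_
    rw [Complex.norm_real, Real.norm_eq_abs, abs_of_pos hθ]
    linarith
  unfold Vf
  rw [le_div_iff₀ (by positivity), one_mul]
  have := pow_le_pow_left₀ h2.le h3 2
  nlinarith

/-- Littlewood when the derivative is bounded by one. -/
lemma polyIneq_of_le_one {p r : ℝ} (hp : 0 < p) (hr : 0 ≤ r) (hr1 : r < 1) {φ : ℂ → ℂ}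
    (hφ : Schwarz φ) (h : ∀ z ∈ sphere (0 : ℂ) r, ‖deriv φ z‖ ≤ 1) :
    PolyIneq 2 φ (fun z => ‖deriv φ z‖ ^ p) r := by
  intro a N
  simp only [Real.rpow_two]
  refine le_trans ?_ (littlewood_pe hφ hr hr1 N a)
  have hsub := sphere_subset_ball_one hr1
  have hF : ContinuousOn (fun z => ‖pe a N (φ z)‖ ^ (2 : ℕ)) (sphere 0 r) :=
    ((pe_continuous a N).comp_continuousOn (hφ.diff.continuousOn.mono hsub)).norm.pow 2
  have hcp : ContinuousOn (fun z => ‖deriv φ z‖ ^ p) (sphere 0 r) :=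
    (hφ.deriv_diff.continuousOn.mono hsub).norm.rpow_const (fun _ _ => Or.inr hp.le)
  refine circleAverage_mono ((hF.mul hcp).circleIntegrable hr) (hF.circleIntegrable hr) ?_
  intro z hz
  rw [abs_of_nonneg hr] at hz
  have h1 : ‖deriv φ z‖ ^ p ≤ 1 := Real.rpow_le_one (norm_nonneg _) (h z hz) hp.le
  exact mul_le_of_le_one_right (by positivity) h1

/-- Lower bound for the defect of `ω`. -/
lemma omega_defect {ω ψ : ℂ → ℂ} {e : ℂ} {ρ r : ℝ} (he : ‖e‖ = 1) (hρ0 : 0 ≤ ρ) (hρ1 : ρ < 1)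
    (hr : 0 < r) (hr1 : r < 1) (hψ : ∀ z ∈ ball (0 : ℂ) 1, ‖ψ z‖ ≤ 1)
    (hf : ∀ z ∈ ball (0 : ℂ) 1, ω z = e * ((ρ + z * ψ z) / (1 + ρ * (z * ψ z))))
    {z : ℂ} (hz : ‖z‖ = r) : (1 - ρ ^ 2) * ((1 - r) / (1 + r)) ≤ 1 - ‖ω z‖ ^ 2 := by
  have hzb : z ∈ ball (0 : ℂ) 1 := by simp [hz, hr1]
  set v : ℂ := z * ψ z with hv
  have hvr : ‖v‖ ≤ r := by
    rw [hv, norm_mul, hz]
    exact mul_le_of_le_one_right hr.le (hψ z hzb)
  have hρv : ‖(ρ : ℂ) * v‖ ≤ r := by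
    rw [norm_mul, Complex.norm_real, Real.norm_eq_abs, abs_of_nonneg hρ0]
    nlinarith [norm_nonneg v]
  have hne : 1 + (ρ : ℂ) * v ≠ 0 := by
    intro h
    have h1 : (ρ : ℂ) * v = -1 := by linear_combination h
    rw [h1, norm_neg, norm_one] at hρv
    linarith
  have hpos : 0 < ‖1 + (ρ : ℂ) * v‖ := norm_pos_iff.mpr hne
  have hid := norm_sq_one_add_sub (ρ : ℂ) v
  rw [Complex.conj_ofReal, Complex.norm_real, Real.norm_eq_abs, sq_abs] at hid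
  have h1 : 1 - ‖ω z‖ ^ 2 = (1 - ρ ^ 2) * (1 - ‖v‖ ^ 2) / ‖1 + (ρ : ℂ) * v‖ ^ 2 := by
    rw [hf z hzb, ← hv, norm_mul, he, one_mul, norm_div, ← hid, add_comm (ρ : ℂ) v, div_pow,
      sub_div, div_self (pow_ne_zero 2 hpos.ne')]
  rw [h1]
  have h2 : ‖1 + (ρ : ℂ) * v‖ ≤ 1 + r := by
    refine (norm_add_le _ _).trans ?_
    rw [norm_one]
    linarith
  have h3 : 1 - r ^ 2 ≤ 1 - ‖v‖ ^ 2 := by
    have := pow_le_pow_left₀ (norm_nonneg v) hvr 2
    linarith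
  have h4 : 0 ≤ 1 - ρ ^ 2 := by nlinarith
  have h5 : (1 - ρ ^ 2) * ((1 - r) / (1 + r)) = (1 - ρ ^ 2) * (1 - r ^ 2) / (1 + r) ^ 2 := by
    have : 1 - r ^ 2 = (1 - r) * (1 + r) := by ring
    rw [this]
    field_simp
  rw [h5]
  have h6 : 0 ≤ 1 - r ^ 2 := by nlinarith
  have h7 : ‖1 + (ρ : ℂ) * v‖ ^ 2 ≤ (1 + r) ^ 2 := pow_le_pow_left₀ hpos.le h2 2
  calc (1 - ρ ^ 2) * (1 - r ^ 2) / (1 + r) ^ 2 ≤ (1 - ρ ^ 2) * (1 - r ^ 2) / ‖1 + (ρ : ℂ) * v‖ ^ 2 :=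
        div_le_div_of_nonneg_left (mul_nonneg h4 h6) (by positivity) h7
    _ ≤ _ := by
        rw [div_le_div_iff_of_pos_right (by positivity)]
        exact mul_le_mul_of_nonneg_left h3 h4

/-- Dieudonné: the derivative is at most one when the defect is large. -/
lemma deriv_le_one {φ ω : ℂ → ℂ} (hω : Factor φ ω) {r : ℝ} (hr : 0 < r) (hr1 : r < 1) {z : ℂ}
    (hz : ‖z‖ = r) (h : ‖ω z‖ = 1 ∨ r ^ 2 + 2 * r - 1 ≤ r * (1 - ‖ω z‖)) : ‖deriv φ z‖ ≤ 1 := by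
  have hzb : z ∈ ball (0 : ℂ) 1 := by simp [hz, hr1]
  have h1 := dieudonne hω hr1 hz
  have hpos : 0 < 1 - r ^ 2 := by nlinarith
  have hle := hω.le_one z hzb
  refine h1.trans ?_
  rcases h with h | h
  · rw [h]; norm_num
  · have h2 : r * (1 - ‖ω z‖ ^ 2) / (1 - r ^ 2) ≤ 1 - ‖ω z‖ := by
      rw [div_le_iff₀ hpos]
      have h3 : 0 ≤ (1 - ‖ω z‖) * (1 - r ^ 2 - r * (1 + ‖ω z‖)) :=
        mul_nonneg (by linarith) (by nlinarith)
      nlinarith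
    linarith

/-- A unimodular value of `ω` at the origin. -/
lemma omega_unimodular {φ ω : ℂ → ℂ} (hω : Factor φ ω) (h0 : ‖ω 0‖ = 1) {z : ℂ}
    (hz : z ∈ ball (0 : ℂ) 1) : ‖ω z‖ = 1 := by
  have hm : IsMaxOn (norm ∘ ω) (ball 0 1) 0 := by
    intro y hy
    simp only [mem_ofPred_eq, Function.comp_apply, h0]
    exact hω.le_one y hy
  have := Complex.norm_eqOn_of_isPreconnected_of_isMaxOn (convex_ball (0 : ℂ) 1).isPreconnected
    isOpen_ball hω.diff (mem_ball_self one_pos) hm hz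
  simpa [h0] using this

/-- Numerical facts. -/
lemma order_facts {k r δ : ℝ} (hk0 : 0 < k) (hk1 : k ≤ 0.01) (hδ : δ = k ^ 2 / 1500)
    (hr : r = √2 - 1 + δ) :
    0 < δ ∧ δ ≤ 0.0000001 ∧ 0.41 ≤ r ∧ r ≤ 0.42 ∧ 0 ≤ gfun r ∧ gfun r ≤ 1.4143 * δ ∧
      r ^ 2 + 2 * r - 1 ≤ 2.83 * δ := by
  have hs2 : (√2) ^ 2 = 2 := Real.sq_sqrt (by norm_num)
  have hs1 : 1.4142 < √2 := by
    rw [Real.lt_sqrt (by norm_num)]
    norm_num
  have hs3 : √2 < 1.4143 := by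
    rw [Real.sqrt_lt' (by norm_num)]
    norm_num
  set s := √2 with hs
  have hδ0 : 0 < δ := by rw [hδ]; positivity
  have hδ1 : δ ≤ 0.0000001 := by
    rw [hδ]
    have : k ^ 2 ≤ 0.01 ^ 2 := pow_le_pow_left₀ hk0.le hk1 2
    norm_num at this ⊢
    linarith
  have e1 : r ^ 2 + 2 * r - 1 = δ * (2 * s + δ) := by
    rw [hr]
    linear_combination hs2
  have hg : gfun r = δ * (2 * s + δ) / (1 + r) ^ 2 := by
    unfold gfun
    rw [← e1]
    have : (1 + r) ≠ 0 := by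
      have : 0 < 1 + r := by rw [hr]; linarith
      exact this.ne'
    field_simp
    ring
  have h1r : 0 < 1 + r := by rw [hr]; linarith
  refine ⟨hδ0, hδ1, by rw [hr]; linarith, by rw [hr]; linarith, ?_, ?_, ?_⟩
  · rw [hg]
    have : 0 < 2 * s + δ := by linarith
    positivity
  · rw [hg, div_le_iff₀ (by positivity)]
    have h2 : 2 * s + δ ≤ 1.4143 * (1 + r) ^ 2 := by
      have : (1 + r) ^ 2 = 2 + 2 * s * δ + δ ^ 2 := by
        rw [hr]
        linear_combination hs2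
      rw [this]
      nlinarith
    calc δ * (2 * s + δ) ≤ δ * (1.4143 * (1 + r) ^ 2) := mul_le_mul_of_nonneg_left h2 hδ0.le
      _ = _ := by ring
  · rw [e1]
    nlinarith

/-- The well estimate with explicit constants. -/
lemma W_explicit {r : ℝ} (hr0 : 0.41 ≤ r) (hr42 : r ≤ 0.42) {b β y : ℂ} (hβ : ‖β‖ ≤ 1)
    (hy : ‖y‖ = 1) (hbβ : ‖β - b‖ ≤ r / (1 - r) * (1 - ‖β‖ ^ 2)) :
    0.0207 * ‖1 - b * y‖ ^ 2 ≤ Wfun r ((r : ℂ) * (y * β)).re (‖(r : ℂ) * (y * β)‖ ^ 2) := by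
  set w := y * β with hw
  have hwn : ‖w‖ = ‖β‖ := by rw [hw, norm_mul, hy, one_mul]
  have hw1 : ‖w‖ ≤ 1 := by rw [hwn]; exact hβ
  have h1 := W_lower_well (r := r) (by linarith) (by linarith) hw1
  refine le_trans ?_ h1
  obtain ⟨X, hX⟩ : ∃ X, X = ‖1 - w‖ := ⟨_, rfl⟩
  obtain ⟨Y, hY⟩ : ∃ Y, Y = 1 - ‖w‖ ^ 2 := ⟨_, rfl⟩
  have hX0 : 0 ≤ X := by rw [hX]; exact norm_nonneg _
  have hY0 : 0 ≤ Y := by rw [hY]; nlinarith [norm_nonneg w]
  have hY1 : Y ≤ 1 := by rw [hY]; nlinarith [norm_nonneg w]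
  have h2 : ‖1 - b * y‖ ≤ X + 0.7242 * Y := by
    have e : 1 - b * y = (1 - w) + y * (β - b) := by rw [hw]; ring
    rw [e]
    refine (norm_add_le _ _).trans ?_
    rw [norm_mul, hy, one_mul, ← hX]
    have h3 : r / (1 - r) ≤ 0.7242 := by
      rw [div_le_iff₀ (by linarith)]
      linarith
    have h4 : r / (1 - r) * (1 - ‖β‖ ^ 2) ≤ 0.7242 * Y := by
      rw [← hwn, ← hY]
      exact mul_le_mul_of_nonneg_right h3 hY0
    linarith
  have h5 : ‖1 - b * y‖ ^ 2 ≤ 2 * X ^ 2 + 1.05 * Y := by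
    have h6 := pow_le_pow_left₀ (norm_nonneg _) h2 2
    nlinarith [sq_nonneg (X - 0.7242 * Y)]
  rw [← hX, ← hY]
  have h7 : 0.0715 ≤ r / (2 * (1 + r) ^ 3) := by
    rw [le_div_iff₀ (by positivity)]
    have : (1 + r) ^ 3 ≤ 1.42 ^ 3 := pow_le_pow_left₀ (by linarith) (by linarith) 3
    norm_num at this
    linarith
  have h8 : 0.29 * (2 * X ^ 2 + 1.05 * Y) ≤ (1 - r) * X ^ 2 + (1 + r) * Y := by
    have h9 : 0 ≤ (1 - r - 0.58) * X ^ 2 := mul_nonneg (by linarith) (by positivity)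
    have h10 : 0 ≤ (1 + r - 0.3045) * Y := mul_nonneg (by linarith) hY0
    linarith
  calc 0.0207 * ‖1 - b * y‖ ^ 2 ≤ 0.0207 * (2 * X ^ 2 + 1.05 * Y) := by linarith
    _ ≤ 0.0715 * (0.29 * (2 * X ^ 2 + 1.05 * Y)) := by nlinarith
    _ ≤ r / (2 * (1 + r) ^ 3) * ((1 - r) * X ^ 2 + (1 + r) * Y) :=
        mul_le_mul h7 h8 (by positivity) (by positivity)

/-- Exponential estimates. -/
lemma exp_case {A T V : ℝ} (hA0 : 0 ≤ A) (hA1 : A ≤ 1 / 2) (hV0 : 0 ≤ V) (hT0 : 0 ≤ T)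
    (h : 3 * A ≤ T ∨ 1 ≤ V) : Real.exp (A - T) ≤ 1 - A + 3 * A * V := by
  rcases h with h | h
  · have h1 : Real.exp (A - T) ≤ Real.exp (-(2 * A)) := Real.exp_le_exp.mpr (by linarith)
    have h2 : Real.exp (-(2 * A)) ≤ 1 - A := by
      rw [Real.exp_neg, inv_le_comm₀ (Real.exp_pos _) (by linarith)]
      have h3 := Real.add_one_le_exp (2 * A)
      refine le_trans ?_ h3
      rw [inv_le_comm₀ (by linarith) (by linarith), inv_le_iff_one_le_mul₀ (by linarith)]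
      nlinarith
    have h3 : 0 ≤ 3 * A * V := by positivity
    linarith
  · have h1 : Real.exp (A - T) ≤ Real.exp A := Real.exp_le_exp.mpr (by linarith)
    have h2 := Real.abs_exp_sub_one_sub_id_le (x := A) (by rw [abs_of_nonneg hA0]; linarith)
    have h3 := (abs_le.mp h2).2
    have h4 : 3 * A * 1 ≤ 3 * A * V := mul_le_mul_of_nonneg_left h (by linarith)
    nlinarith

/-- Numerical lower bound for `s(r)`. -/
lemma sfun_ge {r : ℝ} (hr41 : 0.41 ≤ r) (hr42 : r ≤ 0.42) : 0.77 ≤ sfun r := by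
  have h1 : r ^ 2 ≤ 0.42 * r := by
    have := mul_nonneg (by linarith : (0 : ℝ) ≤ r) (by linarith : (0 : ℝ) ≤ 0.42 - r)
    linarith only [this]
  have h2 : 0.41 * r ≤ r ^ 2 := by
    have := mul_nonneg (by linarith : (0 : ℝ) ≤ r) (by linarith : (0 : ℝ) ≤ r - 0.41)
    linarith only [this]
  unfold sfun
  rw [le_div_iff₀ (by linarith only [h1, hr42])]
  nlinarith only [hr42, h2, hr41, mul_nonneg (by linarith : (0 : ℝ) ≤ 0.42 - r) (by linarith : (0 : ℝ) ≤ 0.42 - r)]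

lemma one_sub_sq_pos' {r : ℝ} (h0 : 0 < r) (h1 : r < 1) : 0 < 1 - r ^ 2 := by
  have h2 := mul_pos (by linarith only [h1] : 0 < 1 - r) (by linarith only [h0] : 0 < 1 + r)
  have h3 : (1 - r) * (1 + r) = 1 - r ^ 2 := by ring
  rwa [h3] at h2

/-- Elementary form of the Schwarz-Pick estimate. -/
lemma order_hd {r a D : ℝ} (h : D * (1 - r ^ 2) ≤ 1 - a ^ 2) :
    r ^ 2 * D * (1 - r ^ 2) ≤ r ^ 2 - r ^ 2 * a ^ 2 := by
  have h1 := mul_le_mul_of_nonneg_left h (sq_nonneg r)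
  have e1 : r ^ 2 * (D * (1 - r ^ 2)) = r ^ 2 * D * (1 - r ^ 2) := by ring
  have e2 : r ^ 2 * (1 - a ^ 2) = r ^ 2 - r ^ 2 * a ^ 2 := by ring
  rwa [e1, e2] at h1

/-- The numerical part of the pointwise bound. -/
lemma order_h12 {ε s g W d2 : ℝ} (hε0 : 0 < ε) (hε1 : ε ≤ 0.00001) (hs : 0.77 ≤ s) (hg0 : 0 ≤ g)
    (hd20 : 0 ≤ d2) (h5 : 0.0207 * d2 ≤ W) :
    ε * ((1 + ε) * g - (1 - 2 * ε) * (s - 240 * ε) * W) ≤ ε * (1.001 * g - 0.015 * d2) := by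
  have h7 : 0.75 ≤ (1 - 2 * ε) * (s - 240 * ε) := by
    have h8 : 0.99 ≤ 1 - 2 * ε := by linarith only [hε1]
    have h9 : 0.76 ≤ s - 240 * ε := by linarith only [hs, hε1]
    calc (0.75 : ℝ) ≤ 0.99 * 0.76 := by norm_num
      _ ≤ _ := mul_le_mul h8 h9 (by norm_num) (by linarith only [h8])
  have h10 : 0.015 * d2 ≤ (1 - 2 * ε) * (s - 240 * ε) * W := by
    have h10' : 0.015 * d2 ≤ 0.75 * (0.0207 * d2) := by linarith only [hd20]
    exact h10'.trans (mul_le_mul h7 h5 (mul_nonneg (by norm_num) hd20) (by linarith only [h7]))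
  have h11 : (1 + ε) * g ≤ 1.001 * g :=
    mul_le_mul_of_nonneg_right (by linarith only [hε1]) hg0
  exact mul_le_mul_of_nonneg_left (by linarith only [h10, h11]) hε0.le

lemma order_hA1 {p k ε g δ A : ℝ} (hk0 : 0 < k) (hk1 : k ≤ 0.01) (hpk : p * k ^ 3 = 1)
    (hδ : δ = k ^ 2 / 1500) (hδ0 : 0 < δ) (hp0 : 0 < p) (hε34 : ε < 34 * δ)
    (hg0 : 0 ≤ g) (hgδ : g ≤ 1.4143 * δ) (hA : A = p * ε * (1.001 * g)) : A ≤ 1 / 2 := by
  have h1 : A ≤ p * (34 * δ) * (1.001 * (1.4143 * δ)) := by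
    rw [hA]
    refine mul_le_mul (mul_le_mul_of_nonneg_left hε34.le hp0.le) ?_
      (mul_nonneg (by norm_num) hg0) (mul_nonneg hp0.le (by linarith only [hδ0]))
    exact mul_le_mul_of_nonneg_left hgδ (by norm_num)
  have h2 : p * (34 * δ) * (1.001 * (1.4143 * δ)) =
      34 * 1.001 * 1.4143 / 1500 ^ 2 * ((p * k ^ 3) * k) := by
    rw [hδ]; ring
  rw [h2, hpk, one_mul] at h1
  have h3 : 34 * 1.001 * 1.4143 / 1500 ^ 2 * k ≤ 1 * k :=
    mul_le_mul_of_nonneg_right (by norm_num) hk0.le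
  linarith only [h1, h3, hk1]

lemma order_hnθ {n k θ : ℝ} (hk0 : 0 < k) (hnu : n ≤ 0.0656 / k) (hθ : θ = 0.44 * k) :
    24 * n * θ ≤ 1 := by
  have h0 : n * k ≤ 0.0656 := by rwa [le_div_iff₀ hk0] at hnu
  have h1 : 24 * n * θ = (24 * 0.44) * (n * k) := by rw [hθ]; ring
  rw [h1]
  linarith only [h0]

lemma order_hAμ {p k ε g δ A n : ℝ} (hk0 : 0 < k) (hpk2 : p * (k ^ 2) = 1 / k)
    (hδ : δ = k ^ 2 / 1500) (hp0 : 0 < p) (hε0 : 0 < ε) (hgδ : g ≤ 1.4143 * δ)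
    (hnl : 0.0556 / k ≤ n) (hA : A = p * ε * (1.001 * g)) : 48 * A ≤ (0.816 * ε) * n := by
  have h1 : A ≤ p * ε * (1.001 * (1.4143 * δ)) := by
    rw [hA]
    refine mul_le_mul_of_nonneg_left ?_ (mul_nonneg hp0.le hε0.le)
    exact mul_le_mul_of_nonneg_left hgδ (by norm_num)
  have h2 : p * ε * (1.001 * (1.4143 * δ)) = ε * (1.001 * 1.4143 / 1500) * (1 / k) := by
    rw [← hpk2, hδ]; ring
  have h3 : ε * (0.816 * (0.0556 / k)) ≤ ε * (0.816 * n) :=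
    mul_le_mul_of_nonneg_left (mul_le_mul_of_nonneg_left hnl (by norm_num)) hε0.le
  have h4 : 48 * (ε * (1.001 * 1.4143 / 1500) * (1 / k)) ≤ ε * (0.816 * (0.0556 / k)) := by
    have h5 : 48 * (ε * (1.001 * 1.4143 / 1500) * (1 / k)) =
        (ε / k) * (48 * 1.001 * 1.4143 / 1500) := by ring
    have h6 : ε * (0.816 * (0.0556 / k)) = (ε / k) * (0.816 * 0.0556) := by ring
    rw [h5, h6]
    exact mul_le_mul_of_nonneg_left (by norm_num) (div_nonneg hε0.le hk0.le)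
  rw [h2] at h1
  have h7 : ε * (0.816 * n) = (0.816 * ε) * n := by ring
  linarith only [h1, h3, h4, h7]

lemma order_h7 {g δ k θ d : ℝ} (hδ : δ = k ^ 2 / 1500) (hθ : θ = 0.44 * k)
    (hgδ : g ≤ 1.4143 * δ) (h6 : θ ^ 2 ≤ d ^ 2) : 3 * (1.001 * g) ≤ 0.015 * d ^ 2 := by
  have h8 : 3 * (1.001 * g) ≤ 3 * (1.001 * (1.4143 * δ)) := by linarith only [hgδ]
  have h9 : 3 * (1.001 * (1.4143 * δ)) ≤ 0.015 * θ ^ 2 := by
    have hk : 0 ≤ k ^ 2 := sq_nonneg k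
    have e : θ ^ 2 = 0.1936 * k ^ 2 := by rw [hθ]; ring
    rw [hδ, e]
    linarith only [hk]
  linarith only [h8, h9, h6]

lemma order_fin {ε ρ q : ℝ} (hε0 : 0 < ε) (hε1 : ε ≤ 0.00001) (hε : ε = 1 - ρ)
    (h2 : 0.4084 ≤ q) : 0.816 * ε ≤ (1 - ρ ^ 2) * q := by
  have h3 : 1.999 * ε ≤ 1 - ρ ^ 2 := by
    have e : ρ = 1 - ε := by linarith only [hε]
    have h4 : ε ^ 2 ≤ 0.00001 * ε := by
      have := mul_le_mul_of_nonneg_right hε1 hε0.le
      have e2 : ε * ε = ε ^ 2 := by ring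
      rwa [e2] at this
    have e3 : 1 - ρ ^ 2 = 2 * ε - ε ^ 2 := by rw [e]; ring
    rw [e3]
    linarith only [h4, hε0]
  have h5 : 0 ≤ 1 - ρ ^ 2 := le_trans (by positivity) h3
  have h6 : (1.999 * ε) * 0.4084 ≤ (1 - ρ ^ 2) * q := mul_le_mul h3 h2 (by norm_num) h5
  linarith only [h6, hε0]

lemma order_div {r : ℝ} (hr0 : 0 < r) (hr42 : r ≤ 0.42) : 0.4084 ≤ (1 - r) / (1 + r) := by
  rw [le_div_iff₀ (by linarith only [hr0])]
  linarith only [hr42]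

/-- The main sufficient condition in the small-defect regime. -/
lemma polyIneq_small {p k r δ : ℝ} (hk0 : 0 < k) (hk1 : k ≤ 0.01) (hpk : p * k ^ 3 = 1)
    (hδ : δ = k ^ 2 / 1500) (hr : r = √2 - 1 + δ) {φ ω : ℂ → ℂ} (hφ : Schwarz φ)
    (hω : Factor φ ω) (hρ1 : ‖ω 0‖ < 1) (hε34 : 1 - ‖ω 0‖ < 34 * δ) :
    PolyIneq 2 φ (fun z => ‖deriv φ z‖ ^ p) r := by
  obtain ⟨hδ0, hδ1, hr41, hr42, hg0, hgδ, -⟩ := order_facts hk0 hk1 hδ hr
  obtain ⟨e, ψ, he, hψd, hψ, hf⟩ := exists_schur hω.diff hω.le_one hρ1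
  have hp0 : 0 < p := by
    by_contra hcon
    push Not at hcon
    have : p * k ^ 3 ≤ 0 := mul_nonpos_of_nonpos_of_nonneg hcon (by positivity)
    linarith
  have hr0 : 0 < r := by linarith
  have hr1 : r < 1 := by linarith
  have hsub := sphere_subset_ball_one hr1
  obtain ⟨ρ, hρ⟩ : ∃ ρ, ρ = ‖ω 0‖ := ⟨_, rfl⟩
  rw [← hρ] at hρ1 hε34 hf
  obtain ⟨ε, hε⟩ : ∃ ε, ε = 1 - ρ := ⟨_, rfl⟩
  rw [← hε] at hε34
  have hε0 : 0 < ε := by linarith
  have hε1 : ε ≤ 0.00001 := by linarith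
  have hρ999 : 0.999 ≤ ρ := by linarith
  obtain ⟨b, hb⟩ : ∃ b, b = ψ 0 := ⟨_, rfl⟩
  have hb1 : ‖b‖ ≤ 1 := by rw [hb]; exact hψ 0 (mem_ball_self one_pos)
  obtain ⟨g, hg⟩ : ∃ g, g = gfun r := ⟨_, rfl⟩
  rw [← hg] at hg0 hgδ
  -- pointwise bound
  have hs : 0.77 ≤ sfun r := sfun_ge hr41 hr42
  have hpt : ∀ z ∈ sphere (0 : ℂ) r,
      ‖deriv φ z‖ ≤ 1 + ε * (1.001 * g - 0.015 * ‖1 - b * (z / r)‖ ^ 2) := by
    intro z hz
    have hzr : ‖z‖ = r := by simpa using hz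
    have hzb := hsub hz
    set v : ℂ := z * ψ z with hv
    have hvr : ‖v‖ ≤ r := by
      rw [hv, norm_mul, hzr]
      exact mul_le_of_le_one_right hr0.le (hψ z hzb)
    have hd : ‖z ^ 2 * deriv ψ z‖ ≤ (r ^ 2 - ‖v‖ ^ 2) / (1 - r ^ 2) := by
      have h1 := schwarz_pick hψd hψ hzb
      rw [hzr] at h1
      have h2 : 0 < 1 - r ^ 2 := one_sub_sq_pos' hr0 hr1
      rw [le_div_iff₀ h2, norm_mul, norm_pow, hzr, hv, norm_mul, hzr, mul_pow]
      exact order_hd h1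
    have h1 := schur_norm_bound hr41 hr42 (by rw [← hg]; exact hg0) hρ999 hρ1.le hvr hd
    have h2 := schur_deriv hω (by linarith) hρ1 hψd hψ hf hzb
    rw [← hv] at h2
    have h3 : ‖deriv φ z‖ ≤ 1 + ε * ((1 + ε) * g - (1 - 2 * ε) * (sfun r - 240 * ε) *
        Wfun r v.re (‖v‖ ^ 2)) := by
      rw [h2, norm_mul, he, one_mul, hε, hg]
      exact h1
    -- the well
    have hy : ‖z / (r : ℂ)‖ = 1 := by
      rw [norm_div, hzr, Complex.norm_real, Real.norm_eq_abs, abs_of_pos hr0, div_self hr0.ne']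
    have h4 := two_point' hψd hψ hr1 hzr
    rw [← hb] at h4
    have h5 := W_explicit hr41 hr42 (hψ z hzb) hy h4
    have h6 : (r : ℂ) * (z / r * ψ z) = v := by
      have : (r : ℂ) ≠ 0 := by exact_mod_cast hr0.ne'
      rw [hv]
      field_simp
    rw [h6] at h5
    set Wv := Wfun r v.re (‖v‖ ^ 2) with hWv
    set d2 := ‖1 - b * (z / r)‖ ^ 2 with hd2
    have hd20 : 0 ≤ d2 := by positivity
    have h12 := order_h12 hε0 hε1 hs hg0 hd20 h5
    linarith only [h3, h12]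
  -- parameters
  obtain ⟨A, hA⟩ : ∃ A, A = p * ε * (1.001 * g) := ⟨_, rfl⟩
  obtain ⟨θ, hθ⟩ : ∃ θ, θ = 0.44 * k := ⟨_, rfl⟩
  obtain ⟨n, hn⟩ : ∃ n : ℕ, n = ⌈0.0556 / k⌉₊ := ⟨_, rfl⟩
  have hθ0 : 0 < θ := by rw [hθ]; positivity
  have hA0 : 0 ≤ A := by rw [hA]; positivity
  have hpk2 : p * (k ^ 2) = 1 / k := by
    rw [eq_div_iff hk0.ne', ← hpk]
    ring
  have hA1 : A ≤ 1 / 2 := order_hA1 hk0 hk1 hpk hδ hδ0 hp0 hε34 hg0 hgδ hA
  have hnl : 0.0556 / k ≤ n := by rw [hn]; exact Nat.le_ceil _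
  have hnu : (n : ℝ) ≤ 0.0656 / k := by
    have h1 : (n : ℝ) < 0.0556 / k + 1 := by rw [hn]; exact Nat.ceil_lt_add_one (by positivity)
    have h2 : (0.0556 : ℝ) / k + 1 ≤ 0.0656 / k := by
      rw [div_add_one hk0.ne', div_le_div_iff_of_pos_right hk0]
      linarith
    linarith
  have hn1 : 1 ≤ n := by
    rw [hn]
    exact Nat.one_le_ceil_iff.mpr (by positivity)
  have hnθ : 24 * (n : ℝ) * θ ≤ 1 := order_hnθ hk0 hnu hθ
  have hAμ : 48 * A ≤ (0.816 * ε) * n := order_hAμ hk0 hpk2 hδ hp0 hε0 hgδ hnl hA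
  have hWc : ContinuousOn (fun z => ‖deriv φ z‖ ^ p) (sphere 0 r) :=
    (hφ.deriv_diff.continuousOn.mono hsub).norm.rpow_const (fun _ _ => Or.inr hp0.le)
  refine polyIneq_of_well hφ hω hr0.le hr1 hWc (Vf_continuousOn hθ0 hr0 hb1) hn1 hA0 hA1
    (fun z _ => Vf_nonneg) ?_ (Vf_avg hθ0 hr0 hb1) ?_ (μ := 0.816 * ε) ?_ hnθ hAμ
  · intro z hz
    have hzr : ‖z‖ = r := by simpa using hz
    exact Vf_le_four hθ0 hr0 hb1 hzr.le
  · intro z hz
    have hzr : ‖z‖ = r := by simpa using hz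
    obtain ⟨d, hd⟩ : ∃ d, d = ‖1 - b * (z / r)‖ := ⟨_, rfl⟩
    have hd0 : 0 ≤ d := by rw [hd]; exact norm_nonneg _
    obtain ⟨T, hT⟩ : ∃ T, T = p * ε * (0.015 * d ^ 2) := ⟨_, rfl⟩
    have hT0 : 0 ≤ T := by rw [hT]; positivity
    have h1 := hpt z hz
    rw [← hd] at h1
    have h2 : ‖deriv φ z‖ ≤ Real.exp (ε * (1.001 * g - 0.015 * d ^ 2)) := by
      have := Real.add_one_le_exp (ε * (1.001 * g - 0.015 * d ^ 2))
      linarith
    have h3 : ‖deriv φ z‖ ^ p ≤ Real.exp (A - T) := by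
      have h4 := Real.rpow_le_rpow (norm_nonneg _) h2 hp0.le
      rw [← Real.exp_mul] at h4
      have h5 : ε * (1.001 * g - 0.015 * d ^ 2) * p = A - T := by rw [hA, hT]; ring
      rwa [h5] at h4
    refine h3.trans (exp_case hA0 hA1 Vf_nonneg hT0 ?_)
    rcases le_or_gt d θ with hdθ | hdθ
    · right
      exact Vf_ge_one hθ0 hr0 hb1 hzr.le (by rw [← hd]; exact hdθ)
    · left
      have h6 : θ ^ 2 ≤ d ^ 2 := pow_le_pow_left₀ hθ0.le hdθ.le 2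
      have h7 : 3 * (1.001 * g) ≤ 0.015 * d ^ 2 := order_h7 hδ hθ hgδ h6
      rw [hA, hT]
      have h8 := mul_le_mul_of_nonneg_left h7 (mul_nonneg hp0.le hε0.le)
      linarith only [h8]
  · intro z hz
    have hzr : ‖z‖ = r := by simpa using hz
    have h1 := omega_defect he (by linarith) hρ1 hr0 hr1 hψ hf hzr
    refine le_trans ?_ h1
    exact order_fin hε0 hε1 hε (order_div hr0 hr42)

/-- Goodness at the radius `√2 - 1 + k²/1500`. -/
lemma goodAt_order {p k r δ : ℝ} (hk0 : 0 < k) (hk1 : k ≤ 0.01) (hpk : p * k ^ 3 = 1)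
    (hδ : δ = k ^ 2 / 1500) (hr : r = √2 - 1 + δ) : GoodAt p r := by
  obtain ⟨hδ0, hδ1, hr41, hr42, hg0, hgδ, hq⟩ := order_facts hk0 hk1 hδ hr
  have hp0 : 0 < p := by
    by_contra hcon
    push Not at hcon
    have : p * k ^ 3 ≤ 0 := mul_nonpos_of_nonpos_of_nonneg hcon (by positivity)
    linarith
  have hr0 : 0 < r := by linarith
  have hr1 : r < 1 := by linarith
  refine goodAt_of_poly hp0 two_pos hr0 hr1 ?_
  intro φ hφ
  obtain ⟨ω, hω⟩ := hφ.exists_factor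
  have hsub := sphere_subset_ball_one hr1
  have h01 : ‖ω 0‖ ≤ 1 := hω.le_one 0 (mem_ball_self one_pos)
  rcases h01.lt_or_eq with hρ1 | hρ1
  · by_cases hε : 1 - ‖ω 0‖ < 34 * δ
    · exact polyIneq_small hk0 hk1 hpk hδ hr hφ hω hρ1 hε
    · push Not at hε
      refine polyIneq_of_le_one hp0 hr0.le hr1 hφ ?_
      intro z hz
      have hzr : ‖z‖ = r := by simpa using hz
      refine deriv_le_one hω hr0 hr1 hzr (Or.inr ?_)
      obtain ⟨e, ψ, he, hψd, hψ, hf⟩ := exists_schur hω.diff hω.le_one hρ1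
      have h1 := omega_defect he (norm_nonneg _) hρ1 hr0 hr1 hψ hf hzr
      have h2 : 0.408 ≤ (1 - r) / (1 + r) := by
        rw [le_div_iff₀ (by linarith)]
        linarith
      have hρ0 : 0 ≤ ‖ω 0‖ := norm_nonneg _
      have h3 : 1 - ‖ω 0‖ ≤ 1 - ‖ω 0‖ ^ 2 := by
        have := mul_nonneg hρ0 (by linarith only [h01] : 0 ≤ 1 - ‖ω 0‖)
        linarith only [this]
      have h4 : 0.408 * (34 * δ) ≤ 1 - ‖ω z‖ ^ 2 := by
        calc 0.408 * (34 * δ) ≤ (1 - ‖ω 0‖ ^ 2) * 0.408 := by linarith only [hε, h3]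
          _ ≤ (1 - ‖ω 0‖ ^ 2) * ((1 - r) / (1 + r)) :=
              mul_le_mul_of_nonneg_left h2 (by linarith only [hε, h3, hδ0])
          _ ≤ _ := h1
      have h5 : ‖ω z‖ ≤ 1 := hω.le_one z (hsub hz)
      have h6 : 1 - ‖ω z‖ ^ 2 ≤ 2 * (1 - ‖ω z‖) := by
        linarith only [sq_nonneg (1 - ‖ω z‖)]
      have h7 : 0.41 * (1 - ‖ω z‖) ≤ r * (1 - ‖ω z‖) :=
        mul_le_mul_of_nonneg_right hr41 (by linarith only [h5])
      linarith only [h4, h6, h7, hq, hδ0]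
  · refine polyIneq_of_le_one hp0 hr0.le hr1 hφ ?_
    intro z hz
    have hzr : ‖z‖ = r := by simpa using hz
    exact deriv_le_one hω hr0 hr1 hzr (Or.inl (omega_unimodular hω hρ1 (hsub hz)))

/-- The lower bound of order `p^(-2/3)`. -/
theorem order_lower {p : ℝ} (hp : 2 ≤ p) :
    √2 - 1 + 1 / 1500 * p ^ (-(2 / 3) : ℝ) ≤ subordinationRadius p := by
  have hp0 : 0 < p := by linarith
  set k : ℝ := p ^ (-(1 / 3) : ℝ) with hk
  have hk0 : 0 < k := Real.rpow_pos_of_pos hp0 _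
  have hk2 : p ^ (-(2 / 3) : ℝ) = k ^ 2 := by
    rw [hk, ← Real.rpow_natCast, ← Real.rpow_mul hp0.le]
    norm_num
  have hk3 : p * k ^ 3 = 1 := by
    have : k ^ 3 = p⁻¹ := by
      rw [hk, ← Real.rpow_natCast, ← Real.rpow_mul hp0.le, ← Real.rpow_neg_one]
      norm_num
    rw [this, mul_inv_cancel₀ hp0.ne']
  rw [hk2]
  have hs1 : 1.4142 < √2 := by
    rw [Real.lt_sqrt (by norm_num)]
    norm_num
  rcases le_or_gt k 0.01 with hk1 | hk1
  · have h := goodAt_order hk0 hk1 hk3 rfl rfl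
    obtain ⟨hδ0, hδ1, hr41, hr42, -, -, -⟩ := order_facts hk0 hk1 rfl rfl
    have h2 := le_radius_of_goodAt hp0 (by linarith) (by linarith) h
    linarith
  · refine le_trans ?_ (lower_bound hp)
    have h1 : (√2 - 1) ^ 2 / p = (√2 - 1) ^ 2 * k ^ 3 := by
      rw [div_eq_iff hp0.ne']
      linear_combination (-(√2 - 1) ^ 2) * hk3
    rw [h1]
    have h2 : 0.17 ≤ (√2 - 1) ^ 2 := by nlinarith
    have h3 : 1 / 1500 * k ^ 2 ≤ (√2 - 1) ^ 2 * k ^ 3 := by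
      have h4 : 0.17 * 0.01 * k ^ 2 ≤ (√2 - 1) ^ 2 * (k * k ^ 2) := by
        have h5 : 0.01 * k ^ 2 ≤ k * k ^ 2 := mul_le_mul_of_nonneg_right hk1.le (by positivity)
        calc 0.17 * 0.01 * k ^ 2 = 0.17 * (0.01 * k ^ 2) := by ring
          _ ≤ _ := mul_le_mul h2 h5 (by positivity) (by positivity)
      have h6 : k * k ^ 2 = k ^ 3 := by ring
      rw [h6] at h4
      have h7 : 0 ≤ k ^ 2 := by positivity
      norm_num at h4 ⊢
      linarith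
    linarith

end Pool.Agent.LibMP140d1b
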