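import Mathlib
import Pool.Agent.Lib_MP_140d1b_an.AsyDiscrete
import Pool.Agent.Lib_MP_140d1b_an.OrderLower

/-!
Composition with a Schwarz function under a Poisson kernel.
-/

namespace Pool.Agent.LibMP140d1b

open Complex Metric Set Filter Topology Real

/-- The analytic completion of `|F|²` on the unit circle. -/
noncomputable def HH : (ℕ → ℂ) → ℕ → ℂ → ℂ
  | _, 0, _ => 0
  | F, N + 1, w => ((‖F 0‖ ^ 2 : ℝ) : ℂ) + 2 * (starRingEnd ℂ) (F 0) *
      (w * pe (fun k => F (k + 1)) N w) + HH (fun k => F (k + 1)) N w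

lemma HH_diff (N : ℕ) : ∀ F : ℕ → ℂ, Differentiable ℂ (HH F N) := by
  induction N with
  | zero =>
    intro F
    have : HH F 0 = fun _ => 0 := by funext w; rfl
    rw [this]
    exact differentiable_const _
  | succ N ih =>
    intro F
    have : HH F (N + 1) = fun w => ((‖F 0‖ ^ 2 : ℝ) : ℂ) + 2 * (starRingEnd ℂ) (F 0) *
      (w * pe (fun k => F (k + 1)) N w) + HH (fun k => F (k + 1)) N w := by funext w; rfl
    rw [this]
    exact ((differentiable_const _).add ((differentiable_const _).mul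
      (differentiable_id.mul (pe_differentiable _ _)))).add (ih _)

lemma pe_sq_le_HH (N : ℕ) : ∀ F : ℕ → ℂ, ∀ w : ℂ, ‖w‖ ≤ 1 →
    ‖pe F N w‖ ^ 2 ≤ (HH F N w).re := by
  induction N with
  | zero =>
    intro F w _
    simp [pe, HH]
  | succ N ih =>
    intro F w hw
    rw [pe_succ]
    obtain ⟨g, hg⟩ : ∃ g, g = pe (fun k => F (k + 1)) N w := ⟨_, rfl⟩
    have h1 := ih (fun k => F (k + 1)) w hw
    rw [← hg] at h1 ⊢
    have e1 : ‖F 0 + w * g‖ ^ 2 = ‖F 0‖ ^ 2 + 2 * ((starRingEnd ℂ) (F 0) * (w * g)).re +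
        ‖w‖ ^ 2 * ‖g‖ ^ 2 := by
      rw [Complex.sq_norm, Complex.normSq_add, ← mul_pow, ← norm_mul, Complex.sq_norm,
        Complex.sq_norm]
      have : (F 0 * (starRingEnd ℂ) (w * g)).re = ((starRingEnd ℂ) (F 0) * (w * g)).re := by
        rw [← Complex.conj_re]
        simp
      rw [this]
      ring
    have e2 : (HH F (N + 1) w).re = ‖F 0‖ ^ 2 + 2 * ((starRingEnd ℂ) (F 0) * (w * g)).re +
        (HH (fun k => F (k + 1)) N w).re := by
      rw [show HH F (N + 1) w = ((‖F 0‖ ^ 2 : ℝ) : ℂ) + 2 * (starRingEnd ℂ) (F 0) *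
        (w * pe (fun k => F (k + 1)) N w) + HH (fun k => F (k + 1)) N w from rfl, ← hg,
        Complex.add_re, Complex.add_re, Complex.ofReal_re, mul_assoc]
      simp
    rw [e1, e2]
    have h2 : ‖w‖ ^ 2 * ‖g‖ ^ 2 ≤ ‖g‖ ^ 2 :=
      mul_le_of_le_one_left (by positivity) (pow_le_one₀ (norm_nonneg _) hw)
    linarith

lemma HH_re_le (N : ℕ) : ∀ F : ℕ → ℂ, ∀ (ρ : ℝ) (w : ℂ), ‖w‖ ≤ ρ →
    (HH F N w).re ≤ geo (fun k => ‖F k‖) ρ N := by
  induction N with
  | zero =>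
    intro F ρ w _
    simp [geo, HH]
  | succ N ih =>
    intro F ρ w hw
    have hρ0 : 0 ≤ ρ := (norm_nonneg _).trans hw
    rw [geo_succ]
    obtain ⟨g, hg⟩ : ∃ g, g = pe (fun k => F (k + 1)) N w := ⟨_, rfl⟩
    have h1 := ih (fun k => F (k + 1)) ρ w hw
    have e2 : (HH F (N + 1) w).re = ‖F 0‖ ^ 2 + 2 * ((starRingEnd ℂ) (F 0) * (w * g)).re +
        (HH (fun k => F (k + 1)) N w).re := by
      rw [show HH F (N + 1) w = ((‖F 0‖ ^ 2 : ℝ) : ℂ) + 2 * (starRingEnd ℂ) (F 0) *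
        (w * pe (fun k => F (k + 1)) N w) + HH (fun k => F (k + 1)) N w from rfl, ← hg,
        Complex.add_re, Complex.add_re, Complex.ofReal_re, mul_assoc]
      simp
    have h2 : ‖g‖ ≤ ∑ k ∈ Finset.range N, ‖F (k + 1)‖ * ρ ^ k := by
      rw [hg]
      unfold pe
      refine (norm_sum_le _ _).trans (Finset.sum_le_sum fun k _ => ?_)
      rw [norm_mul, norm_pow]
      exact mul_le_mul_of_nonneg_left (pow_le_pow_left₀ (norm_nonneg _) hw k) (norm_nonneg _)
    have h3 : ((starRingEnd ℂ) (F 0) * (w * g)).re ≤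
        ‖F 0‖ * (ρ * ∑ k ∈ Finset.range N, ‖F (k + 1)‖ * ρ ^ k) := by
      refine (Complex.re_le_norm _).trans ?_
      rw [norm_mul, norm_mul, RCLike.norm_conj]
      exact mul_le_mul_of_nonneg_left (mul_le_mul hw h2 (norm_nonneg _) hρ0) (norm_nonneg _)
    rw [e2]
    linarith

/-- Composition under a Poisson kernel. -/
lemma comp_poisson {φ ω : ℂ → ℂ} (hφ : Schwarz φ) (hω : Factor φ ω) {r q ρ : ℝ} (hr : 0 < r)
    (hr1 : r < 1) (hq : 0 < q) (hqω : ∀ z : ℂ, ‖z‖ ≤ r → ‖ω z‖ ≤ q) (hρ0 : 0 ≤ ρ) (hρ1 : ρ < 1)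
    {w : ℂ} (hw : ‖w‖ = ρ * r) (a : ℕ → ℂ) (N : ℕ) :
    circleAverage (fun z => ‖pe a N (φ z)‖ ^ 2 * ((1 - ρ) ^ 2 * r ^ 2 / ‖z - w‖ ^ 2)) 0 r ≤
      (1 - ρ) / (1 + ρ) * geo (fun k => ‖a k‖ * (r * q) ^ k) ρ N := by
  have hrq : 0 < r * q := mul_pos hr hq
  have hrqc : ((r * q : ℝ) : ℂ) ≠ 0 := by exact_mod_cast hrq.ne'
  have hsub := sphere_subset_ball_one hr1
  have hwb : w ∈ ball (0 : ℂ) r := by
    rw [mem_ball, dist_zero_right, hw]
    exact mul_lt_of_lt_one_left hr hρ1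
  set F : ℕ → ℂ := fun k => a k * ((r * q : ℝ) : ℂ) ^ k with hF
  have hFn : (fun k => ‖F k‖) = fun k => ‖a k‖ * (r * q) ^ k := by
    funext k
    simp only [hF, norm_mul, norm_pow, Complex.norm_real, Real.norm_eq_abs]
    rw [abs_of_pos hr, abs_of_pos hq]
  have hpe : ∀ v : ℂ, pe a N v = pe F N (v / ((r * q : ℝ) : ℂ)) := by
    intro v
    unfold pe
    refine Finset.sum_congr rfl fun k _ => ?_
    simp only [hF]
    rw [div_pow, mul_assoc, mul_div_cancel₀ _ (pow_ne_zero k hrqc)]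
  set g : ℂ → ℂ := fun z => HH F N (φ z / ((r * q : ℝ) : ℂ)) with hg
  have hgd : DifferentiableOn ℂ g (ball 0 1) :=
    (HH_diff N F).comp_differentiableOn (hφ.diff.div_const _)
  have hcb : closedBall (0 : ℂ) r ⊆ ball 0 1 := closedBall_subset_ball hr1
  have hgc : DiffContOnCl ℂ g (ball 0 r) := (hgd.mono hcb).diffContOnCl_ball subset_rfl
  have hP := hgc.circleAverage_poissonKernel_smul' hwb
  have hzw : ∀ z ∈ sphere (0 : ℂ) r, 0 < ‖z - w‖ := by
    intro z hz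
    rw [norm_pos_iff, sub_ne_zero]
    rintro rfl
    have h1 : ‖z‖ = r := by simpa using hz
    have h2 : ‖z‖ < r := by simpa using hwb
    linarith
  have hKc : ContinuousOn (fun z : ℂ => (1 - ρ) ^ 2 * r ^ 2 / ‖z - w‖ ^ 2) (sphere 0 r) := by
    refine continuousOn_const.div ?_ ?_
    · exact ((continuous_id.sub continuous_const).norm.pow 2).continuousOn
    · intro z hz
      have := hzw z hz
      positivity
  have hgcont : ContinuousOn g (sphere 0 r) := hgd.continuousOn.mono hsub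
  have hfc : ContinuousOn (fun z => ‖pe a N (φ z)‖ ^ 2) (sphere 0 r) :=
    ((pe_continuous a N).comp_continuousOn (hφ.diff.continuousOn.mono hsub)).norm.pow 2
  have h1 : circleAverage (fun z => ‖pe a N (φ z)‖ ^ 2 *
      ((1 - ρ) ^ 2 * r ^ 2 / ‖z - w‖ ^ 2)) 0 r ≤
      circleAverage (fun z => (g z).re * ((1 - ρ) ^ 2 * r ^ 2 / ‖z - w‖ ^ 2)) 0 r := by
    refine circleAverage_mono ((hfc.mul hKc).circleIntegrable hr.le)
      (((Complex.continuous_re.comp_continuousOn hgcont).mul hKc).circleIntegrable hr.le) ?_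
    intro z hz
    rw [abs_of_pos hr] at hz
    have hzr : ‖z‖ = r := by simpa using hz
    refine mul_le_mul_of_nonneg_right ?_ (by positivity)
    rw [hpe]
    refine pe_sq_le_HH N F _ ?_
    rw [norm_div, Complex.norm_real, Real.norm_eq_abs, abs_of_pos hrq, hω.eq, norm_mul, hzr,
      div_le_one hrq]
    exact mul_le_mul_of_nonneg_left (hqω z hzr.le) hr.le
  have h1ρ : 0 < 1 + ρ := by linarith
  have h2 : circleAverage (fun z => (g z).re * ((1 - ρ) ^ 2 * r ^ 2 / ‖z - w‖ ^ 2)) 0 r =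
      (1 - ρ) / (1 + ρ) * (g w).re := by
    have e1 : circleAverage (fun z => (g z).re * ((1 - ρ) ^ 2 * r ^ 2 / ‖z - w‖ ^ 2)) 0 r =
        circleAverage (fun z => (1 - ρ) / (1 + ρ) *
          (((‖z - 0‖ ^ 2 - ‖w - 0‖ ^ 2) / ‖(z - 0) - (w - 0)‖ ^ 2) • g z).re) 0 r := by
      refine circleAverage_congr_sphere ?_
      intro z hz
      rw [abs_of_pos hr] at hz
      have hzr : ‖z‖ = r := by simpa using hz
      have h3 := hzw z hz
      simp only [sub_zero]
      rw [Complex.smul_re, smul_eq_mul, hzr, hw]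
      field_simp
      ring
    have e2 := circleAverage_fun_smul (a := (1 - ρ) / (1 + ρ))
      (f := fun z => (((‖z - 0‖ ^ 2 - ‖w - 0‖ ^ 2) / ‖(z - 0) - (w - 0)‖ ^ 2) • g z).re)
      (c := 0) (R := r)
    simp only [smul_eq_mul] at e2
    rw [e1, e2]
    have hKc2 : ContinuousOn (fun z : ℂ => ((‖z - 0‖ ^ 2 - ‖w - 0‖ ^ 2) /
        ‖(z - 0) - (w - 0)‖ ^ 2) • g z) (sphere 0 r) := by
      have hk : ContinuousOn (fun z : ℂ => (‖z - 0‖ ^ 2 - ‖w - 0‖ ^ 2) /
          ‖(z - 0) - (w - 0)‖ ^ 2) (sphere 0 r) := by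
        refine ContinuousOn.div ?_ ?_ ?_
        · exact Continuous.continuousOn (by fun_prop)
        · exact Continuous.continuousOn (by fun_prop)
        · intro z hz
          have := hzw z hz
          simp only [sub_zero]
          positivity
      exact hk.smul hgcont
    have e3 := Complex.reCLM.circleAverage_comp_comm (hKc2.circleIntegrable hr.le)
    rw [hP] at e3
    have e4 : circleAverage (fun z => (((‖z - 0‖ ^ 2 - ‖w - 0‖ ^ 2) /
        ‖(z - 0) - (w - 0)‖ ^ 2) • g z).re) 0 r = (g w).re := by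
      simpa [Function.comp_def] using e3
    rw [e4]
  refine h1.trans ?_
  rw [h2]
  refine mul_le_mul_of_nonneg_left ?_ (div_nonneg (by linarith) h1ρ.le)
  rw [← hFn]
  refine HH_re_le N F ρ _ ?_
  rw [norm_div, Complex.norm_real, Real.norm_eq_abs, abs_of_pos hrq, hω.eq, norm_mul, hw,
    div_le_iff₀ hrq]
  have h5 : ‖ω w‖ ≤ q := hqω w (by rw [hw]; exact mul_le_of_le_one_left hr.le hρ1.le)
  calc ρ * r * ‖ω w‖ ≤ ρ * r * q := mul_le_mul_of_nonneg_left h5 (mul_nonneg hρ0 hr.le)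
    _ = ρ * (r * q) := by ring

end Pool.Agent.LibMP140d1b
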