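import Mathlib
import Pool.Agent.Lib_MP_140d1b_an.AsyPoisson
import Pool.Agent.Lib_MP_140d1b_an.AsyPoint

/-!
The inequality for a Schwarz function with small defect.
-/

namespace Pool.Agent.LibMP140d1b

open Complex Metric Set Filter Topology Real MeasureTheory

/-- Continuity of the pulled back integrand. -/
lemma pullback_continuous {F : ℂ → ℂ → ℝ} {r R : ℝ} (hr : 0 ≤ r) (hR : 0 ≤ R)
    (hF : ContinuousOn (fun q : ℂ × ℂ => F q.1 q.2) (sphere 0 r ×ˢ sphere 0 R)) :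
    Continuous (fun t : ℝ × ℝ => F (circleMap 0 r t.1) (circleMap 0 R t.2)) := by
  have h1 : Continuous (fun t : ℝ × ℝ => ((circleMap 0 r t.1, circleMap 0 R t.2) : ℂ × ℂ)) := by
    fun_prop
  have h2 := hF.comp_continuous h1 (fun t => ⟨circleMap_mem_sphere 0 hr t.1,
    circleMap_mem_sphere 0 hR t.2⟩)
  exact h2

lemma circleAverage_swap {F : ℂ → ℂ → ℝ} {r R : ℝ} (hr : 0 ≤ r) (hR : 0 ≤ R)
    (hF : ContinuousOn (fun q : ℂ × ℂ => F q.1 q.2) (sphere 0 r ×ˢ sphere 0 R)) :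
    circleAverage (fun z => circleAverage (fun ζ => F z ζ) 0 R) 0 r =
      circleAverage (fun ζ => circleAverage (fun z => F z ζ) 0 r) 0 R := by
  have hc := pullback_continuous hr hR hF
  simp only [circleAverage_def, smul_eq_mul]
  rw [intervalIntegral.integral_const_mul, intervalIntegral.integral_const_mul]
  congr 2
  refine intervalIntegral_intervalIntegral_swap
    (F := fun x y => F (circleMap 0 r x) (circleMap 0 R y)) ?_
  refine (hc.continuousOn.integrableOn_compact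
    ((isCompact_uIcc (a := 0) (b := 2 * π)).prod (isCompact_uIcc (a := 0) (b := 2 * π)))).mono_set ?_
  exact Set.prod_mono uIoc_subset_uIcc uIoc_subset_uIcc

lemma circleAverage_param {F : ℂ → ℂ → ℝ} {r R : ℝ} (hr : 0 ≤ r) (hR : 0 ≤ R)
    (hF : ContinuousOn (fun q : ℂ × ℂ => F q.1 q.2) (sphere 0 r ×ˢ sphere 0 R)) :
    CircleIntegrable (fun z => circleAverage (fun ζ => F z ζ) 0 R) 0 r := by
  have hc := pullback_continuous hr hR hF
  unfold CircleIntegrable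
  simp only [circleAverage_def, smul_eq_mul]
  refine Continuous.intervalIntegrable (continuous_const.mul ?_) _ _
  exact intervalIntegral.continuous_parametric_intervalIntegral_of_continuous' hc 0 (2 * π)

/-- The Carathéodory function of a Schwarz function in terms of the Schur parameter. -/
noncomputable def Pf (ψ : ℂ → ℂ) (z : ℂ) : ℂ := (1 - z * ψ z) / (1 + z * ψ z)

lemma Pf_facts {ψ : ℂ → ℂ} (hψd : DifferentiableOn ℂ ψ (ball 0 1))
    (hψ : ∀ z ∈ ball (0 : ℂ) 1, ‖ψ z‖ ≤ 1) :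
    DifferentiableOn ℂ (Pf ψ) (ball 0 1) ∧ Pf ψ 0 = 1 ∧
      (∀ z ∈ ball (0 : ℂ) 1, 1 + z * ψ z ≠ 0) ∧ ∀ z ∈ ball (0 : ℂ) 1, 0 ≤ (Pf ψ z).re := by
  have hlt : ∀ z ∈ ball (0 : ℂ) 1, ‖z * ψ z‖ < 1 := by
    intro z hz
    have hz1 : ‖z‖ < 1 := by simpa using hz
    rw [norm_mul]
    exact lt_of_le_of_lt (mul_le_of_le_one_right (norm_nonneg _) (hψ z hz)) hz1
  have hne : ∀ z ∈ ball (0 : ℂ) 1, 1 + z * ψ z ≠ 0 := by
    intro z hz h
    have h1 : z * ψ z = -1 := by linear_combination h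
    have h2 := hlt z hz
    rw [h1, norm_neg, norm_one] at h2
    exact lt_irrefl _ h2
  refine ⟨?_, ?_, hne, ?_⟩
  · unfold Pf
    exact DifferentiableOn.div ((differentiableOn_id.mul hψd).const_sub _)
      ((differentiableOn_id.mul hψd).const_add _) hne
  · simp [Pf]
  · intro z hz
    have h1 := hlt z hz
    unfold Pf
    set v := z * ψ z with hv
    rw [Complex.div_re, ← add_div]
    refine div_nonneg ?_ (Complex.normSq_nonneg _)
    have h2 : Complex.normSq v ≤ 1 := by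
      rw [Complex.normSq_eq_norm_sq]
      exact pow_le_one₀ (norm_nonneg _) h1.le
    rw [Complex.normSq_apply] at h2
    simp only [Complex.sub_re, Complex.one_re, Complex.add_re, Complex.sub_im, Complex.one_im,
      Complex.add_im]
    nlinarith

/-- The derivative of `φ` in terms of `P`. -/
lemma deriv_norm_eq {φ ω ψ : ℂ → ℂ} {e : ℂ} {a β : ℝ} (hω : Factor φ ω) (he : ‖e‖ = 1)
    (ha0 : 0 ≤ a) (ha1 : a < 1) (hβ : β = (1 - a) / (1 + a))
    (hψd : DifferentiableOn ℂ ψ (ball 0 1)) (hψ : ∀ z ∈ ball (0 : ℂ) 1, ‖ψ z‖ ≤ 1)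
    (hf : ∀ z ∈ ball (0 : ℂ) 1, ω z = e * ((a + z * ψ z) / (1 + a * (z * ψ z))))
    {z : ℂ} (hz : z ∈ ball (0 : ℂ) 1) :
    ‖deriv φ z‖ = ‖(1 - (β : ℂ) * Pf ψ z) / (1 + β * Pf ψ z) -
      2 * β * (z * deriv (Pf ψ) z) / (1 + β * Pf ψ z) ^ 2‖ := by
  obtain ⟨hPd, hP0, hPne, hPre⟩ := Pf_facts hψd hψ
  have h1a : 0 < 1 + a := by linarith
  have hβ0 : 0 ≤ β := by rw [hβ]; exact div_nonneg (by linarith) h1a.le
  have hT : ∀ y ∈ ball (0 : ℂ) 1, 1 + (β : ℂ) * Pf ψ y ≠ 0 := by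
    intro y hy h
    have h1 := hPre y hy
    have h2 := congrArg Complex.re h
    rw [Complex.add_re, Complex.one_re, Complex.re_ofReal_mul, Complex.zero_re] at h2
    have := mul_nonneg hβ0 h1
    linarith
  have hfe : ∀ y ∈ ball (0 : ℂ) 1, φ y = y * (e * ((1 - (β : ℂ) * Pf ψ y) / (1 + β * Pf ψ y))) := by
    intro y hy
    rw [hω.eq y, hf y hy]
    congr 2
    have h1 := hPne y hy
    have h2 := hT y hy
    have h3 : 1 + (a : ℂ) * (y * ψ y) ≠ 0 := by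
      intro h
      have hy1 : ‖y‖ < 1 := by simpa using hy
      have h4 : (a : ℂ) * (y * ψ y) = -1 := by linear_combination h
      have h5 := congrArg norm h4
      rw [norm_neg, norm_one, norm_mul, norm_mul, Complex.norm_real, Real.norm_eq_abs,
        abs_of_nonneg ha0] at h5
      have h6 : ‖y‖ * ‖ψ y‖ ≤ 1 :=
        mul_le_one₀ hy1.le (norm_nonneg _) (hψ y hy)
      have h7 : a * (‖y‖ * ‖ψ y‖) ≤ a * 1 := mul_le_mul_of_nonneg_left h6 ha0
      linarith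
    have hac : (1 : ℂ) + a ≠ 0 := by exact_mod_cast h1a.ne'
    rw [div_eq_div_iff h3 h2]
    unfold Pf
    rw [hβ]
    push_cast
    field_simp
    ring
  have hPz : HasDerivAt (Pf ψ) (deriv (Pf ψ) z) z :=
    (hPd.differentiableAt (isOpen_ball.mem_nhds hz)).hasDerivAt
  have hTz := hT z hz
  have hd1 := (((hPz.const_mul (β : ℂ)).const_sub 1).div ((hPz.const_mul (β : ℂ)).const_add 1)
    hTz).const_mul e
  have hd2 := (hasDerivAt_id z).mul hd1
  have hev : φ =ᶠ[𝓝 z] fun y => y * (e * ((1 - (β : ℂ) * Pf ψ y) / (1 + β * Pf ψ y))) := by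
    filter_upwards [isOpen_ball.mem_nhds hz] with y hy using hfe y hy
  have hd3 := hd2.congr_of_eventuallyEq (f₁ := φ) (by
    filter_upwards [hev] with y hy
    rw [hy]
    rfl)
  rw [hd3.deriv]
  have e1 : 1 * (e * ((1 - (β : ℂ) * Pf ψ z) / (1 + β * Pf ψ z))) +
      id z * (e * ((-((β : ℂ) * deriv (Pf ψ) z) * (1 + β * Pf ψ z) -
        (1 - (β : ℂ) * Pf ψ z) * (β * deriv (Pf ψ) z)) / (1 + β * Pf ψ z) ^ 2)) =
      e * ((1 - (β : ℂ) * Pf ψ z) / (1 + β * Pf ψ z) -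
        2 * β * (z * deriv (Pf ψ) z) / (1 + β * Pf ψ z) ^ 2) := by
    simp only [id]
    field_simp
    ring
  refine Eq.trans (congrArg norm e1) ?_
  rw [norm_mul, he, one_mul]

/-- The weight as a Poisson kernel. -/
lemma weight_eq {r ρ κ : ℝ} (hr : 0 < r) (hρ0 : 0 ≤ ρ) (hρ1 : ρ < 1) (hκ : κ = ρ / (1 - ρ) ^ 2)
    {z b : ℂ} (hz : ‖z‖ = r) (hb : ‖b‖ = r) :
    1 / (1 + κ * (‖z + b‖ ^ 2 / r ^ 2)) = (1 - ρ) ^ 2 * r ^ 2 / ‖z - (-(ρ : ℂ) * b)‖ ^ 2 := by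
  have h1 : ‖z - (-(ρ : ℂ) * b)‖ ^ 2 = (1 - ρ) ^ 2 * r ^ 2 + ρ * ‖z + b‖ ^ 2 := by
    have hz2 : z.re * z.re + z.im * z.im = r ^ 2 := by
      rw [← hz, Complex.sq_norm, Complex.normSq_apply]
    have hb2 : b.re * b.re + b.im * b.im = r ^ 2 := by
      rw [← hb, Complex.sq_norm, Complex.normSq_apply]
    rw [Complex.sq_norm, Complex.sq_norm, Complex.normSq_apply, Complex.normSq_apply]
    simp only [Complex.sub_re, Complex.sub_im, Complex.neg_re, Complex.neg_im, Complex.mul_re,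
      Complex.mul_im, Complex.ofReal_re, Complex.ofReal_im, Complex.add_re, Complex.add_im, neg_zero,
      zero_mul, sub_zero, add_zero]
    linear_combination (1 - ρ) * hz2 + (ρ ^ 2 - ρ) * hb2
  have h1ρ : 0 < 1 - ρ := by linarith
  have h2 : 0 < (1 - ρ) ^ 2 * r ^ 2 + ρ * ‖z + b‖ ^ 2 := by positivity
  rw [h1, hκ]
  have h3 : 0 < 1 + ρ / (1 - ρ) ^ 2 * (‖z + b‖ ^ 2 / r ^ 2) := by positivity
  rw [div_eq_div_iff h3.ne' h2.ne']
  field_simp

/-- Bernoulli. -/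
lemma bernoulli_aux {μ : ℝ} (hμ0 : 0 ≤ μ) (hμ1 : μ ≤ 1) (k : ℕ) :
    (1 + μ * k) * (1 - μ) ^ k ≤ 1 := by
  have h1 : 1 + (k : ℝ) * μ ≤ (1 + μ) ^ k := one_add_mul_le_pow (by linarith) k
  have h2 : 0 ≤ (1 - μ) ^ k := pow_nonneg (by linarith) k
  calc (1 + μ * k) * (1 - μ) ^ k ≤ (1 + μ) ^ k * (1 - μ) ^ k :=
        mul_le_mul_of_nonneg_right (by linarith) h2
    _ = (1 - μ ^ 2) ^ k := by rw [← mul_pow]; ring
    _ ≤ 1 := pow_le_one₀ (by nlinarith) (by nlinarith)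

/-- The inequality for a Schwarz function with small defect. -/
lemma polyIneq_asy {φ ω : ℂ → ℂ} (hφ : Schwarz φ) (hω : Factor φ ω) (ha1 : ‖ω 0‖ < 1)
    {p R r β κ A ρ μ s : ℝ} (hR0 : 0.41 ≤ R) (hR1 : R ≤ 0.42) (hR2 : 1 ≤ R ^ 2 + 2 * R)
    (hr : 0 < r) (hrR : r < R) (hβ : β = (1 - ‖ω 0‖) / (1 + ‖ω 0‖)) (hβ1 : β ≤ 0.001)
    (hp : 0 < p) (hρ0 : 0 < ρ) (hρ1 : ρ < 1) (hκρ : κ = ρ / (1 - ρ) ^ 2)
    (hκ : κ ≤ 2 * p * β * (2 * R * (1 - 2 * R) / (1 + R) ^ 4 - 57 * β))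
    (hA : 2 * p * β * ((1 - 2 / (1 + R) ^ 2) + 2 * β * (1 - 2 / (1 + R) ^ 2) ^ 2 + 530 * β ^ 2) ≤
      A)
    (hμ0 : 0 ≤ μ) (hμ1 : μ < 1) (hμ : μ ≤ 4 * β / (1 + β) ^ 2 * ((1 - R) / (1 + R)))
    (hs : 0 < s) (hsκ : s ^ 3 * ρ ≤ μ * (1 - ρ) ^ 2)
    (hΛ : Real.exp A - 1 ≤ ρ / (1 - ρ) ^ 2 *
      ((airyBottom * s ^ 2 - s ^ 3) / (1 + airyBottom * s ^ 2 / 6)) - ρ * μ / (1 - ρ)) :
    PolyIneq 2 φ (fun z => ‖deriv φ z‖ ^ p) r := by
  obtain ⟨e, ψ, he, hψd, hψ, hf⟩ := exists_schur hω.diff hω.le_one ha1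
  obtain ⟨hPd, hP0, hPne, hPre⟩ := Pf_facts hψd hψ
  obtain ⟨a, ha⟩ : ∃ a, a = ‖ω 0‖ := ⟨_, rfl⟩
  have ha0 : 0 ≤ a := by rw [ha]; exact norm_nonneg _
  rw [← ha] at ha1 hβ hf
  have hRpos : 0 < R := by linarith
  have hr1 : r < 1 := by linarith
  obtain ⟨R', hR'⟩ : ∃ R', R' = r / R := ⟨_, rfl⟩
  have hR'0 : 0 < R' := by rw [hR']; positivity
  have hR'1 : R' < 1 := by rw [hR', div_lt_one hRpos]; exact hrR
  have hrRR : R * R' = r := by rw [hR']; field_simp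
  have h1a : 0 < 1 + a := by linarith
  have hβ0 : 0 ≤ β := by rw [hβ]; exact div_nonneg (by linarith) h1a.le
  have hκ0 : 0 ≤ κ := by rw [hκρ]; positivity
  have hsub := sphere_subset_ball_one hr1
  have hsub' := sphere_subset_ball_one hR'1
  -- the bound for `ω`
  have ha2 : 1 - a ^ 2 = 4 * β / (1 + β) ^ 2 := by
    have h1 : 1 + β = 2 / (1 + a) := by rw [hβ]; field_simp; ring
    rw [h1, hβ]
    field_simp
    ring
  have hqω2 : ∀ z : ℂ, ‖z‖ ≤ r → ‖ω z‖ ^ 2 ≤ 1 - μ := by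
    intro z hz
    have h1a2 : 0 ≤ 1 - a ^ 2 := by nlinarith
    rw [← ha2] at hμ
    rcases (norm_nonneg z).eq_or_lt with h0 | h0
    · have hz0 : z = 0 := norm_eq_zero.mp h0.symm
      rw [hz0, ← ha]
      have h2 : (1 - R) / (1 + R) ≤ 1 := by rw [div_le_one (by linarith)]; linarith
      have := mul_le_mul_of_nonneg_left h2 h1a2
      linarith
    · have h1 := omega_defect he ha0 ha1 h0 (by linarith : ‖z‖ < 1) hψ hf rfl
      have h2 : (1 - R) / (1 + R) ≤ (1 - ‖z‖) / (1 + ‖z‖) := by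
        rw [div_le_div_iff₀ (by linarith) (by linarith)]
        nlinarith
      have := mul_le_mul_of_nonneg_left h2 h1a2
      linarith
  obtain ⟨q, hq⟩ : ∃ q, q = √(1 - μ) := ⟨_, rfl⟩
  have hq2 : q ^ 2 = 1 - μ := by rw [hq, Real.sq_sqrt (by linarith)]
  have hq0 : 0 < q := by rw [hq]; exact Real.sqrt_pos.mpr (by linarith)
  have hqω : ∀ z : ℂ, ‖z‖ ≤ r → ‖ω z‖ ≤ q := by
    intro z hz
    have h1 := hqω2 z hz
    rw [← hq2] at h1
    exact le_of_sq_le_sq h1 hq0.le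
  -- the polynomial inequality
  intro c N
  simp only [Real.rpow_two]
  set F : ℂ → ℂ → ℝ := fun z ζ => ‖pe c N (φ z)‖ ^ 2 *
    (1 / (1 + κ * (‖z + R * ζ‖ ^ 2 / r ^ 2)) * (Pf ψ ζ).re) with hF
  have hFc : ContinuousOn (fun t : ℂ × ℂ => F t.1 t.2) (sphere 0 r ×ˢ sphere 0 R') := by
    have hm1 : MapsTo (Prod.fst : ℂ × ℂ → ℂ) (sphere 0 r ×ˢ sphere 0 R') (sphere 0 r) :=
      fun t ht => ht.1
    have hm2 : MapsTo (Prod.snd : ℂ × ℂ → ℂ) (sphere 0 r ×ˢ sphere 0 R') (sphere 0 R') :=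
      fun t ht => ht.2
    have c1 : ContinuousOn (fun z => ‖pe c N (φ z)‖ ^ 2) (sphere 0 r) :=
      ((pe_continuous c N).comp_continuousOn (hφ.diff.continuousOn.mono hsub)).norm.pow 2
    have c2 : ContinuousOn (fun ζ => (Pf ψ ζ).re) (sphere 0 R') :=
      Complex.continuous_re.comp_continuousOn (hPd.continuousOn.mono hsub')
    have c3 : Continuous (fun t : ℂ × ℂ => 1 / (1 + κ * (‖t.1 + R * t.2‖ ^ 2 / r ^ 2))) := by
      refine continuous_const.div (by fun_prop) ?_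
      intro t
      positivity
    exact (c1.comp continuousOn_fst hm1).mul (c3.continuousOn.mul (c2.comp continuousOn_snd hm2))
  have hg0 : ∀ z ∈ sphere (0 : ℂ) r, ‖pe c N (φ z)‖ ^ 2 * ‖deriv φ z‖ ^ p ≤
      Real.exp A * circleAverage (fun ζ => F z ζ) 0 R' := by
    intro z hz
    have hzr : ‖z‖ = r := by simpa using hz
    have hzb := hsub hz
    have h1 := asy_pointwise hPd hP0 hPre (β := β) (p := p) (κ := κ) (A := A) hR0 hR1 hR2 hR'0
      hR'1 (z := z) (by rw [hzr, hrRR]) hβ0 hβ1 hp hκ0 hκ hA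
    rw [← deriv_norm_eq hω he ha0 ha1 hβ hψd hψ hf hzb, hrRR] at h1
    have h2 := mul_le_mul_of_nonneg_left h1 (sq_nonneg ‖pe c N (φ z)‖)
    refine h2.trans (le_of_eq ?_)
    simp only [hF]
    rw [circleAverage_mul_const']
    ring
  have hcp : ContinuousOn (fun z => ‖deriv φ z‖ ^ p) (sphere 0 r) :=
    (hφ.deriv_diff.continuousOn.mono hsub).norm.rpow_const (fun _ _ => Or.inr hp.le)
  have hfc : ContinuousOn (fun z => ‖pe c N (φ z)‖ ^ 2) (sphere 0 r) :=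
    ((pe_continuous c N).comp_continuousOn (hφ.diff.continuousOn.mono hsub)).norm.pow 2
  have hpar := circleAverage_param hr.le hR'0.le hFc
  have h1 : circleAverage (fun z => ‖pe c N (φ z)‖ ^ 2 * ‖deriv φ z‖ ^ p) 0 r ≤
      Real.exp A * circleAverage (fun z => circleAverage (fun ζ => F z ζ) 0 R') 0 r := by
    rw [← circleAverage_mul_const']
    refine circleAverage_mono ((hfc.mul hcp).circleIntegrable hr.le) (hpar.const_mul _) ?_
    intro z hz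
    rw [abs_of_pos hr] at hz
    exact hg0 z hz
  refine h1.trans ?_
  rw [circleAverage_swap hr.le hR'0.le hFc]
  -- the bound for each `ζ`
  set x : ℕ → ℝ := fun k => ‖c k‖ * (r * q) ^ k with hx
  have hmean : circleAverage (fun ζ => (Pf ψ ζ).re) 0 R' = 1 :=
    (herglotz_data hPd hP0 hPre hR0 hR1 hR2 hR'0 hR'1 (z := ((R * R' : ℝ) : ℂ)) (by
      rw [Complex.norm_real, Real.norm_eq_abs, abs_of_pos (by positivity)])).1
  have h2 : circleAverage (fun ζ => circleAverage (fun z => F z ζ) 0 r) 0 R' ≤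
      (1 - ρ) / (1 + ρ) * geo x ρ N := by
    have hFc' : ContinuousOn (fun t : ℂ × ℂ => F t.2 t.1) (sphere 0 R' ×ˢ sphere 0 r) := by
      have := hFc.comp (continuous_swap.continuousOn (s := sphere (0 : ℂ) R' ×ˢ sphere (0 : ℂ) r))
        (fun t ht => ⟨ht.2, ht.1⟩)
      exact this
    have hpar' := circleAverage_param (F := fun ζ z => F z ζ) hR'0.le hr.le hFc'
    have h3 : (1 - ρ) / (1 + ρ) * geo x ρ N =
        circleAverage (fun ζ => (1 - ρ) / (1 + ρ) * geo x ρ N * (Pf ψ ζ).re) 0 R' := by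
      rw [circleAverage_mul_const', hmean, mul_one]
    rw [h3]
    have c2 : ContinuousOn (fun ζ => (Pf ψ ζ).re) (sphere 0 R') :=
      Complex.continuous_re.comp_continuousOn (hPd.continuousOn.mono hsub')
    refine circleAverage_mono hpar' ((continuousOn_const.mul c2).circleIntegrable hR'0.le) ?_
    intro ζ hζ
    rw [abs_of_pos hR'0] at hζ
    have hζR : ‖ζ‖ = R' := by simpa using hζ
    have hb : ‖(R : ℂ) * ζ‖ = r := by
      rw [norm_mul, Complex.norm_real, Real.norm_eq_abs, abs_of_pos hRpos, hζR, hrRR]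
    have h4 := comp_poisson hφ hω hr hr1 hq0 hqω hρ0.le hρ1 (w := -(ρ : ℂ) * (R * ζ)) (by
      rw [norm_mul, norm_neg, Complex.norm_real, Real.norm_eq_abs, abs_of_pos hρ0, hb]) c N
    have h5 : circleAverage (fun z => F z ζ) 0 r = (Pf ψ ζ).re *
        circleAverage (fun z => ‖pe c N (φ z)‖ ^ 2 *
          ((1 - ρ) ^ 2 * r ^ 2 / ‖z - (-(ρ : ℂ) * (R * ζ))‖ ^ 2)) 0 r := by
      rw [← circleAverage_mul_const']
      refine circleAverage_congr_sphere ?_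
      intro z hz
      rw [abs_of_pos hr] at hz
      have hzr : ‖z‖ = r := by simpa using hz
      simp only [hF]
      rw [weight_eq hr hρ0.le hρ1 hκρ hzr hb]
      ring
    rw [h5, mul_comm]
    exact mul_le_mul_of_nonneg_right h4 (hPre ζ (hsub' hζ))
  have h3 := mul_le_mul_of_nonneg_left h2 (Real.exp_pos A).le
  refine h3.trans ?_
  have h4 := geo_bound x N hs hρ0 hρ1 hμ0 hsκ (Real.exp_pos A).le hΛ
  rw [← mul_assoc]
  refine h4.trans ?_
  have h5 := circleAverage_poly c N r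
  have h6 : circleAverage (fun z => ‖pe c N z‖ ^ 2) 0 r =
      ∑ k ∈ Finset.range N, ‖c k‖ ^ 2 * (r ^ 2) ^ k := by
    rw [← h5]
    rfl
  rw [h6]
  refine Finset.sum_le_sum fun k _ => ?_
  simp only [hx]
  have h7 : (‖c k‖ * (r * q) ^ k) ^ 2 = ‖c k‖ ^ 2 * (r ^ 2) ^ k * (1 - μ) ^ k := by
    rw [← hq2]
    ring
  rw [h7]
  have h8 := bernoulli_aux hμ0 hμ1.le k
  calc (1 + μ * k) * (‖c k‖ ^ 2 * (r ^ 2) ^ k * (1 - μ) ^ k) =
      ‖c k‖ ^ 2 * (r ^ 2) ^ k * ((1 + μ * k) * (1 - μ) ^ k) := by ring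
    _ ≤ ‖c k‖ ^ 2 * (r ^ 2) ^ k * 1 := mul_le_mul_of_nonneg_left h8 (by positivity)
    _ = _ := mul_one _

end Pool.Agent.LibMP140d1b
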