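import Mathlib
import Pool.Agent.Lib_MP_140d1b_an.AsyLower

/-!
Goodness at radii below `√2 - 1 + c k²`, from numerical conditions.
-/

namespace Pool.Agent.LibMP140d1b

open Complex Metric Set Filter Topology Real MeasureTheory

/-- The derivative is at most one when the defect of `ω` at the origin is large. -/
lemma polyIneq_large {φ ω : ℂ → ℂ} (hφ : Schwarz φ) (hω : Factor φ ω) {p R r δ : ℝ} (hp : 0 < p)
    (hδ0 : 0 < δ) (hδ1 : δ ≤ 0.00001) (hR : R = √2 - 1 + δ) (hr : 0 < r) (hrR : r < R)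
    (h : ‖ω 0‖ = 1 ∨ 34 * δ ≤ 1 - ‖ω 0‖) : PolyIneq 2 φ (fun z => ‖deriv φ z‖ ^ p) r := by
  have hs2 : (√2) ^ 2 = 2 := Real.sq_sqrt (by norm_num)
  have hs1 : 1.4142 < √2 := by
    rw [Real.lt_sqrt (by norm_num)]
    norm_num
  have hs3 : √2 < 1.4143 := by
    rw [Real.sqrt_lt' (by norm_num)]
    norm_num
  have hR0 : 0.41 ≤ R := by rw [hR]; linarith
  have hR1 : R ≤ 0.42 := by rw [hR]; linarith
  have hr1 : r < 1 := by linarith
  have hsub := sphere_subset_ball_one hr1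
  have hRq : R ^ 2 + 2 * R - 1 ≤ 2.83 * δ := by
    have : R ^ 2 + 2 * R - 1 = δ * (2 * √2 + δ) := by
      rw [hR]
      linear_combination hs2
    rw [this]
    nlinarith
  refine polyIneq_of_le_one hp hr.le hr1 hφ ?_
  intro z hz
  have hzr : ‖z‖ = r := by simpa using hz
  rcases h with h | h
  · exact deriv_le_one hω hr hr1 hzr (Or.inl (omega_unimodular hω h (hsub hz)))
  · refine deriv_le_one hω hr hr1 hzr (Or.inr ?_)
    have h5 : ‖ω z‖ ≤ 1 := hω.le_one z (hsub hz)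
    have ha1 : ‖ω 0‖ < 1 := by linarith
    rcases le_or_gt (r ^ 2 + 2 * r - 1) 0 with h6 | h6
    · have := mul_nonneg hr.le (by linarith : 0 ≤ 1 - ‖ω z‖)
      linarith
    · obtain ⟨e, ψ, he, hψd, hψ, hf⟩ := exists_schur hω.diff hω.le_one ha1
      have h1 := omega_defect he (norm_nonneg _) ha1 hr hr1 hψ hf hzr
      have hr41 : 0.41 ≤ r := by nlinarith
      have h2 : 0.408 ≤ (1 - r) / (1 + r) := by
        rw [le_div_iff₀ (by linarith)]
        linarith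
      have h01 : ‖ω 0‖ ≤ 1 := ha1.le
      have h3 : 1 - ‖ω 0‖ ≤ 1 - ‖ω 0‖ ^ 2 := by
        have := mul_nonneg (norm_nonneg (ω 0)) (by linarith only [h01] : 0 ≤ 1 - ‖ω 0‖)
        linarith only [this]
      have h4 : 0.408 * (34 * δ) ≤ 1 - ‖ω z‖ ^ 2 := by
        calc 0.408 * (34 * δ) ≤ (1 - ‖ω 0‖ ^ 2) * 0.408 := by linarith only [h, h3]
          _ ≤ (1 - ‖ω 0‖ ^ 2) * ((1 - r) / (1 + r)) :=
              mul_le_mul_of_nonneg_left h2 (by linarith only [h, h3, hδ0])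
          _ ≤ _ := h1
      have h7 : 1 - ‖ω z‖ ^ 2 ≤ 2 * (1 - ‖ω z‖) := by
        linarith only [sq_nonneg (1 - ‖ω z‖)]
      have h8 : 0.41 * (1 - ‖ω z‖) ≤ r * (1 - ‖ω z‖) :=
        mul_le_mul_of_nonneg_right hr41 (by linarith only [h5])
      have h9 : r ^ 2 + 2 * r - 1 ≤ R ^ 2 + 2 * R - 1 := by nlinarith
      linarith only [h4, h7, h8, hRq, hδ0, h9]

/-- Existence of the Poisson parameter. -/
lemma exists_rho {κ : ℝ} (hκ : 0 < κ) : ∃ ρ : ℝ, 0 < ρ ∧ ρ < 1 ∧ κ = ρ / (1 - ρ) ^ 2 ∧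
    ρ / (1 - ρ) ≤ √κ := by
  obtain ⟨S, hS⟩ : ∃ S, S = √(1 + 4 * κ) := ⟨_, rfl⟩
  have hS2 : S ^ 2 = 1 + 4 * κ := by rw [hS, Real.sq_sqrt (by positivity)]
  have hS0 : 0 ≤ S := by rw [hS]; exact Real.sqrt_nonneg _
  have hS1 : 1 < S := by nlinarith
  have hle : S ≤ 1 + 2 * √κ := by
    rw [hS]
    refine Real.sqrt_le_iff.mpr ⟨by positivity, ?_⟩
    have h1 : (√κ) ^ 2 = κ := Real.sq_sqrt hκ.le
    nlinarith [Real.sqrt_nonneg κ]
  have h1 : 0 < S + 1 := by linarith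
  have e1 : 1 - (S - 1) / (S + 1) = 2 / (S + 1) := by field_simp; ring
  refine ⟨(S - 1) / (S + 1), div_pos (by linarith) h1, ?_, ?_, ?_⟩
  · rw [div_lt_one h1]; linarith
  · rw [e1]
    field_simp
    linarith
  · rw [e1]
    have : (S - 1) / (S + 1) / (2 / (S + 1)) = (S - 1) / 2 := by field_simp
    rw [this]
    linarith

/-- The numerical part of the small defect case. -/
lemma numeric_core {p k c σ K ml α δ m β L κ μ s A : ℝ} (hk0 : 0 < k) (hpk : p * k ^ 3 = 1)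
    (hδ : δ = c * k ^ 2) (hm0 : 0 ≤ m)
    (hK0 : 0 < K) (hml0 : 0 ≤ ml) (hα0 : 0 ≤ α)
    (hα : 2 * (m + 68 * δ * m ^ 2 + 530 * (34 * δ) ^ 2) ≤ α * k ^ 2)
    (hmain : α * (1 + 34 * c * k * α) ≤
      K * ((L * σ ^ 2 - k * σ ^ 3) / (1 + L * k ^ 2 * σ ^ 2 / 6)) - ml * √(34 * c * K * k))
    (hA1 : 34 * c * k * α ≤ 1) (hc : 0 < c)
    (hβ0 : 0 < β) (hβ1 : β ≤ 34 * δ) (hκ : κ = p * β * K) (hμ : μ = β * ml) (hs : s = k * σ)
    (hA : A = 2 * p * β * (m + 2 * β * m ^ 2 + 530 * β ^ 2)) {ρ : ℝ} (hρ1 : ρ < 1)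
    (hκρ : κ = ρ / (1 - ρ) ^ 2) (hρκ : ρ / (1 - ρ) ≤ √κ) :
    Real.exp A - 1 ≤ ρ / (1 - ρ) ^ 2 * ((L * s ^ 2 - s ^ 3) / (1 + L * s ^ 2 / 6)) -
      ρ * μ / (1 - ρ) := by
  have hp0 : 0 < p := by
    by_contra hcon
    push Not at hcon
    have : p * k ^ 3 ≤ 0 := mul_nonpos_of_nonpos_of_nonneg hcon (by positivity)
    linarith
  have hpk2 : p * k ^ 2 = 1 / k := by
    rw [eq_div_iff hk0.ne', ← hpk]
    ring
  obtain ⟨b, hb⟩ : ∃ b, b = β / k := ⟨_, rfl⟩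
  have hb0 : 0 < b := by rw [hb]; positivity
  have hbk : b ≤ 34 * c * k := by
    rw [hb, div_le_iff₀ hk0]
    rw [hδ] at hβ1
    linarith
  have hpβ : p * β = b / k ^ 2 := by
    rw [hb, eq_div_iff (by positivity)]
    have : p * β * k ^ 2 = (p * k ^ 2) * β := by ring
    rw [this, hpk2]
    ring
  -- the bound for `A`
  have hA0 : 0 ≤ A := by rw [hA]; positivity
  have hAle : A ≤ b * α := by
    have h1 : m + 2 * β * m ^ 2 + 530 * β ^ 2 ≤ m + 68 * δ * m ^ 2 + 530 * (34 * δ) ^ 2 := by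
      have h2 : 2 * β * m ^ 2 ≤ 68 * δ * m ^ 2 :=
        mul_le_mul_of_nonneg_right (by linarith) (sq_nonneg m)
      have h3 : β ^ 2 ≤ (34 * δ) ^ 2 := pow_le_pow_left₀ hβ0.le hβ1 2
      linarith
    have h4 : A ≤ (p * β) * (α * k ^ 2) := by
      rw [hA]
      have h5 : 0 < p * β := mul_pos hp0 hβ0
      have h6 := mul_le_mul_of_nonneg_left h1 h5.le
      have h7 := mul_le_mul_of_nonneg_left hα h5.le
      linarith
    rw [hpβ] at h4
    refine h4.trans (le_of_eq ?_)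
    field_simp
  have hA2 : A ≤ 34 * c * k * α := hAle.trans (mul_le_mul_of_nonneg_right hbk hα0)
  have hexp : Real.exp A - 1 ≤ b * (α * (1 + 34 * c * k * α)) := by
    have h1 := Real.abs_exp_sub_one_sub_id_le (x := A) (by rw [abs_of_nonneg hA0]; linarith)
    have h2 := (abs_le.mp h1).2
    have h3 : A ^ 2 ≤ (b * α) * (34 * c * k * α) := by
      rw [pow_two]
      exact mul_le_mul hAle hA2 hA0 (by positivity)
    nlinarith
  refine hexp.trans ?_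
  have h1 := mul_le_mul_of_nonneg_left hmain hb0.le
  refine h1.trans ?_
  rw [← hκρ]
  -- the main term
  have e1 : κ * ((L * s ^ 2 - s ^ 3) / (1 + L * s ^ 2 / 6)) =
      b * (K * ((L * σ ^ 2 - k * σ ^ 3) / (1 + L * k ^ 2 * σ ^ 2 / 6))) := by
    rw [hκ, hpβ, hs]
    have h2 : L * (k * σ) ^ 2 - (k * σ) ^ 3 = k ^ 2 * (L * σ ^ 2 - k * σ ^ 3) := by ring
    have h3 : 1 + L * (k * σ) ^ 2 / 6 = 1 + L * k ^ 2 * σ ^ 2 / 6 := by ring
    rw [h2, h3]
    field_simp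
  have e2 : ρ * μ / (1 - ρ) ≤ b * (ml * √(34 * c * K * k)) := by
    have h2 : ρ * μ / (1 - ρ) = ρ / (1 - ρ) * μ := by ring
    have hμ0 : 0 ≤ μ := by rw [hμ]; positivity
    have h3 : √κ ≤ √(34 * c * K * k) / k := by
      rw [le_div_iff₀ hk0]
      have h4 : √κ * k = √(κ * k ^ 2) := by
        rw [Real.sqrt_mul' κ (sq_nonneg k), Real.sqrt_sq hk0.le]
      rw [h4]
      refine Real.sqrt_le_sqrt ?_
      have h5 : κ * k ^ 2 = b * K := by
        rw [hκ, hpβ]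
        field_simp
      rw [h5]
      have := mul_le_mul_of_nonneg_right hbk hK0.le
      linarith
    rw [h2]
    calc ρ / (1 - ρ) * μ ≤ √κ * μ := mul_le_mul_of_nonneg_right hρκ hμ0
      _ ≤ √(34 * c * K * k) / k * μ := mul_le_mul_of_nonneg_right h3 hμ0
      _ = b * (ml * √(34 * c * K * k)) := by rw [hμ, hb]; ring
  rw [e1]
  linarith

/-- Goodness from numerical conditions. -/
lemma good_numeric {p k c σ K ml α R δ m : ℝ} (hk0 : 0 < k) (hpk : p * k ^ 3 = 1) (hc : 0 < c)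
    (hσ : 0 < σ) (hδ : δ = c * k ^ 2) (hδ1 : δ ≤ 0.00001) (hR : R = √2 - 1 + δ)
    (hm : m = 1 - 2 / (1 + R) ^ 2)
    (hK : K = 2 * (2 * R * (1 - 2 * R) / (1 + R) ^ 4 - 57 * (34 * δ))) (hK0 : 0 < K)
    (hml : ml = 4 * (1 - 68 * δ) * ((1 - R) / (1 + R))) (hα0 : 0 ≤ α)
    (hα : 2 * (m + 68 * δ * m ^ 2 + 530 * (34 * δ) ^ 2) ≤ α * k ^ 2)
    (hσK : σ ^ 3 * K ≤ ml)
    (hmain : α * (1 + 34 * c * k * α) ≤
      K * ((airyBottom * σ ^ 2 - k * σ ^ 3) / (1 + airyBottom * k ^ 2 * σ ^ 2 / 6)) -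
        ml * √(34 * c * K * k))
    (hA1 : 34 * c * k * α ≤ 1) : ∀ r, 0 < r → r < R → GoodAt p r := by
  intro r hr hrR
  have hs2 : (√2) ^ 2 = 2 := Real.sq_sqrt (by norm_num)
  have hs1 : 1.4142 < √2 := by
    rw [Real.lt_sqrt (by norm_num)]
    norm_num
  have hs3 : √2 < 1.4143 := by
    rw [Real.sqrt_lt' (by norm_num)]
    norm_num
  have hδ0 : 0 < δ := by rw [hδ]; positivity
  have hR0 : 0.41 ≤ R := by rw [hR]; linarith
  have hR1 : R ≤ 0.42 := by rw [hR]; linarith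
  have hR2 : 1 ≤ R ^ 2 + 2 * R := by
    have : R ^ 2 + 2 * R - 1 = δ * (2 * √2 + δ) := by
      rw [hR]
      linear_combination hs2
    have h2 : 0 ≤ δ * (2 * √2 + δ) := by positivity
    linarith
  have hp0 : 0 < p := by
    by_contra hcon
    push Not at hcon
    have : p * k ^ 3 ≤ 0 := mul_nonpos_of_nonpos_of_nonneg hcon (by positivity)
    linarith
  have hr1 : r < 1 := by linarith
  have hm0 : 0 ≤ m := by
    rw [hm, sub_nonneg, div_le_one (by positivity)]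
    nlinarith
  have hquo : 0 ≤ (1 - R) / (1 + R) := div_nonneg (by linarith) (by linarith)
  have hquo1 : (1 - R) / (1 + R) ≤ 1 := by rw [div_le_one (by linarith)]; linarith
  have hml0 : 0 ≤ ml := by
    rw [hml]
    exact mul_nonneg (mul_nonneg (by norm_num) (by linarith)) hquo
  have hml1 : ml ≤ 4 := by
    rw [hml]
    calc 4 * (1 - 68 * δ) * ((1 - R) / (1 + R)) ≤ 4 * 1 * 1 :=
          mul_le_mul (by linarith) hquo1 hquo (by norm_num)
      _ = 4 := by norm_num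
  refine goodAt_of_poly hp0 two_pos hr hr1 ?_
  intro φ hφ
  obtain ⟨ω, hω⟩ := hφ.exists_factor
  have h01 : ‖ω 0‖ ≤ 1 := hω.le_one 0 (mem_ball_self one_pos)
  rcases h01.lt_or_eq with ha1 | ha1
  swap
  · exact polyIneq_large hφ hω hp0 hδ0 hδ1 hR hr hrR (Or.inl ha1)
  by_cases hε : 34 * δ ≤ 1 - ‖ω 0‖
  · exact polyIneq_large hφ hω hp0 hδ0 hδ1 hR hr hrR (Or.inr hε)
  push Not at hε
  obtain ⟨a, ha⟩ : ∃ a, a = ‖ω 0‖ := ⟨_, rfl⟩
  have ha0 : 0 ≤ a := by rw [ha]; exact norm_nonneg _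
  rw [← ha] at ha1 hε
  obtain ⟨β, hβ⟩ : ∃ β, β = (1 - a) / (1 + a) := ⟨_, rfl⟩
  have h1a : 0 < 1 + a := by linarith
  have hβ0 : 0 < β := by rw [hβ]; exact div_pos (by linarith) h1a
  have hβ1 : β ≤ 34 * δ := by
    rw [hβ, div_le_iff₀ h1a]
    have h1 : 0 ≤ 34 * δ * a := by positivity
    linarith
  have hκ0 : 0 < p * β * K := by positivity
  obtain ⟨ρ, hρ0, hρ1, hκρ, hρκ⟩ := exists_rho hκ0
  have h1ρ : 0 < 1 - ρ := by linarith
  refine polyIneq_asy hφ hω (by rw [← ha]; exact ha1) (R := R) (β := β) (κ := p * β * K)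
    (A := 2 * p * β * (m + 2 * β * m ^ 2 + 530 * β ^ 2)) (ρ := ρ) (μ := β * ml) (s := k * σ)
    hR0 hR1 hR2 hr hrR (by rw [hβ, ha]) (by linarith) hp0 hρ0 hρ1 hκρ ?_ ?_ ?_ ?_ ?_ ?_ ?_ ?_
  · -- κ
    have h1 : K ≤ 2 * (2 * R * (1 - 2 * R) / (1 + R) ^ 4 - 57 * β) := by
      rw [hK]; linarith
    have h2 := mul_le_mul_of_nonneg_left h1 (mul_pos hp0 hβ0).le
    linarith
  · rw [hm]
  · positivity
  · calc β * ml ≤ 0.001 * 4 := mul_le_mul (by linarith) hml1 hml0 (by norm_num)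
      _ < 1 := by norm_num
  · -- μ
    have h1 : 1 - 68 * δ ≤ 1 / (1 + β) ^ 2 := by
      rw [le_div_iff₀ (by positivity)]
      have h2 : 1 - 68 * δ ≤ 1 - 2 * β := by linarith
      have h3 : (1 - 68 * δ) * (1 + β) ^ 2 ≤ (1 - 2 * β) * (1 + β) ^ 2 :=
        mul_le_mul_of_nonneg_right h2 (by positivity)
      have h4 : (1 - 2 * β) * (1 + β) ^ 2 = 1 - β ^ 2 * (3 + 2 * β) := by ring
      have h5 : 0 ≤ β ^ 2 * (3 + 2 * β) := by positivity
      linarith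
    rw [hml]
    have h6 : 4 * β / (1 + β) ^ 2 * ((1 - R) / (1 + R)) =
        4 * β * ((1 - R) / (1 + R)) * (1 / (1 + β) ^ 2) := by ring
    have h7 : β * (4 * (1 - 68 * δ) * ((1 - R) / (1 + R))) =
        4 * β * ((1 - R) / (1 + R)) * (1 - 68 * δ) := by ring
    rw [h6, h7]
    exact mul_le_mul_of_nonneg_left h1 (by positivity)
  · positivity
  · -- s
    have h1 : (k * σ) ^ 3 * (p * β * K) ≤ β * ml := by
      have h2 : (k * σ) ^ 3 * (p * β * K) = (p * k ^ 3) * (β * (σ ^ 3 * K)) := by ring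
      rw [h2, hpk, one_mul]
      exact mul_le_mul_of_nonneg_left hσK hβ0.le
    have h3 : ρ = (p * β * K) * (1 - ρ) ^ 2 := by
      rw [hκρ]
      field_simp
    calc (k * σ) ^ 3 * ρ = (k * σ) ^ 3 * (p * β * K) * (1 - ρ) ^ 2 := by
          conv_lhs => rw [h3]
          ring
      _ ≤ β * ml * (1 - ρ) ^ 2 := mul_le_mul_of_nonneg_right h1 (by positivity)
  · exact numeric_core hk0 hpk hδ hm0 hK0 hml0 hα0 hα hmain hA1 hc hβ0 hβ1 rfl rfl rfl rfl hρ1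
      hκρ hρκ

end Pool.Agent.LibMP140d1b
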