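import Mathlib
import Pool.Agent.Lib_MP_140d1b_an.AsyGood

/-!
The lower bound of the asymptotics.
-/

namespace Pool.Agent.LibMP140d1b

open Complex Metric Set Filter Topology Real MeasureTheory

lemma le_radius_of_good {p R : ℝ} (hp : 0 < p) (hR0 : 0 < R) (hR1 : R < 1)
    (h : ∀ r, 0 < r → r < R → GoodAt p r) : R ≤ subordinationRadius p := by
  refine le_of_forall_lt ?_
  intro x hx
  rcases le_or_gt x 0 with hx0 | hx0
  · have h1 := le_radius_of_goodAt hp (r := R / 2) (by linarith) (by linarith)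
      (h (R / 2) (by linarith) (by linarith))
    linarith
  · have h1 := le_radius_of_goodAt hp (r := (x + R) / 2) (by linarith) (by linarith)
      (h ((x + R) / 2) (by linarith) (by linarith))
    linarith

lemma asy_lower_k {c σ : ℝ} (hc : 0 < c) (hσ : 0 < σ) (hσ3 : σ ^ 3 * (√2 - 1) ^ 2 < 4)
    (hcσ : 2 * √2 * c < (√2 - 1) ^ 3 * (airyBottom * σ ^ 2)) :
    ∀ᶠ k : ℝ in 𝓝[>] 0, ∀ p : ℝ, p * k ^ 3 = 1 →
      √2 - 1 + c * k ^ 2 ≤ subordinationRadius p := by
  have hs2 : (√2) ^ 2 = 2 := Real.sq_sqrt (by norm_num)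
  have hs1 : 1.4142 < √2 := by
    rw [Real.lt_sqrt (by norm_num)]
    norm_num
  have hs3 : √2 < 1.4143 := by
    rw [Real.sqrt_lt' (by norm_num)]
    norm_num
  set s := √2 with hs
  have hL := airyBottom_nonneg
  obtain ⟨L, hLd⟩ : ∃ L, L = airyBottom := ⟨_, rfl⟩
  rw [← hLd] at hL hcσ
  set Rf : ℝ → ℝ := fun k => s - 1 + c * k ^ 2 with hRf
  set mf : ℝ → ℝ := fun k => 1 - 2 / (1 + Rf k) ^ 2 with hmf
  set Kf : ℝ → ℝ := fun k => 2 * (2 * Rf k * (1 - 2 * Rf k) / (1 + Rf k) ^ 4 -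
    57 * (34 * (c * k ^ 2))) with hKf
  set mlf : ℝ → ℝ := fun k => 4 * (1 - 68 * (c * k ^ 2)) * ((1 - Rf k) / (1 + Rf k)) with hmlf
  set αf : ℝ → ℝ := fun k => 2 * (c * (2 * s + c * k ^ 2) / (1 + Rf k) ^ 2 + 68 * c * mf k ^ 2 +
    530 * 34 ^ 2 * c ^ 2 * k ^ 2) with hαf
  have hR0 : Rf 0 = s - 1 := by simp [hRf]
  have h1R0 : 1 + Rf 0 ≠ 0 := by rw [hR0]; linarith
  have cR : ContinuousAt Rf 0 := by
    have : Continuous Rf := by fun_prop
    exact this.continuousAt
  have c1R : ContinuousAt (fun k => 1 + Rf k) 0 := continuousAt_const.add cR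
  have cm : ContinuousAt mf 0 :=
    continuousAt_const.sub (continuousAt_const.div (c1R.pow 2) (pow_ne_zero 2 h1R0))
  have ck2 : ContinuousAt (fun k : ℝ => c * k ^ 2) 0 := by fun_prop
  have cK : ContinuousAt Kf 0 := by
    refine continuousAt_const.mul (ContinuousAt.sub ?_ (continuousAt_const.mul
      (continuousAt_const.mul ck2)))
    exact ((continuousAt_const.mul cR).mul (continuousAt_const.sub
      (continuousAt_const.mul cR))).div (c1R.pow 4) (pow_ne_zero 4 h1R0)
  have cml : ContinuousAt mlf 0 :=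
    (continuousAt_const.mul (continuousAt_const.sub (continuousAt_const.mul ck2))).mul
      ((continuousAt_const.sub cR).div c1R h1R0)
  have cα : ContinuousAt αf 0 := by
    refine continuousAt_const.mul (ContinuousAt.add (ContinuousAt.add ?_ ?_) ?_)
    · exact (continuousAt_const.mul (continuousAt_const.add ck2)).div (c1R.pow 2)
        (pow_ne_zero 2 h1R0)
    · exact continuousAt_const.mul (cm.pow 2)
    · fun_prop
  -- values at zero
  have hsq : (1 + Rf 0) ^ 2 = 2 := by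
    rw [hR0]
    have : 1 + (s - 1) = s := by ring
    rw [this, hs2]
  have hm0 : mf 0 = 0 := by
    simp only [hmf]
    rw [hsq]
    norm_num
  have hα0 : αf 0 = 2 * s * c := by
    simp only [hαf]
    rw [hsq, hm0]
    ring
  have hK0 : Kf 0 = (s - 1) ^ 3 := by
    have h4 : (1 + Rf 0) ^ 4 = 4 := by
      have : (1 + Rf 0) ^ 4 = ((1 + Rf 0) ^ 2) ^ 2 := by ring
      rw [this, hsq]
      norm_num
    simp only [hKf]
    rw [h4, hR0]
    have h5 : 1 - 2 * (s - 1) = (s - 1) ^ 2 := by linear_combination (-1 : ℝ) * hs2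
    rw [h5]
    ring
  have hml0 : mlf 0 = 4 * (s - 1) := by
    simp only [hmlf]
    rw [hR0]
    have h5 : (1 - (s - 1)) / (1 + (s - 1)) = s - 1 := by
      have h6 : 1 + (s - 1) ≠ 0 := by
        have : 0 < 1 + (s - 1) := by linarith
        exact this.ne'
      rw [div_eq_iff h6]
      linear_combination (-1 : ℝ) * hs2
    rw [h5]
    ring
  have hs10 : 0 < s - 1 := by linarith
  -- eventual conditions
  have E1 : ∀ᶠ k : ℝ in 𝓝 0, c * k ^ 2 < 0.00001 := by
    refine ck2.tendsto.eventually_lt continuousAt_const.tendsto ?_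
    norm_num
  have E2 : ∀ᶠ k : ℝ in 𝓝 0, 0 < Kf k := by
    refine (continuousAt_const (y := (0 : ℝ))).tendsto.eventually_lt cK.tendsto ?_
    rw [hK0]
    positivity
  have E3 : ∀ᶠ k : ℝ in 𝓝 0, 0 < αf k := by
    refine (continuousAt_const (y := (0 : ℝ))).tendsto.eventually_lt cα.tendsto ?_
    rw [hα0]
    have : 0 < s := by linarith
    positivity
  have E4 : ∀ᶠ k : ℝ in 𝓝 0, σ ^ 3 * Kf k < mlf k := by
    have t1 : ContinuousAt (fun k => σ ^ 3 * Kf k) 0 := continuousAt_const.mul cK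
    refine t1.tendsto.eventually_lt cml.tendsto ?_
    rw [hK0, hml0]
    have h1 : σ ^ 3 * (s - 1) ^ 3 = σ ^ 3 * (s - 1) ^ 2 * (s - 1) := by ring
    rw [h1]
    exact mul_lt_mul_of_pos_right hσ3 hs10
  have E5 : ∀ᶠ k : ℝ in 𝓝 0, αf k * (1 + 34 * c * k * αf k) <
      Kf k * ((L * σ ^ 2 - k * σ ^ 3) / (1 + L * k ^ 2 * σ ^ 2 / 6)) -
        mlf k * √(34 * c * Kf k * k) := by
    have ckk : ContinuousAt (fun k : ℝ => k) 0 := continuousAt_id
    have t1 : ContinuousAt (fun k => αf k * (1 + 34 * c * k * αf k)) 0 :=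
      cα.mul (continuousAt_const.add ((continuousAt_const.mul ckk).mul cα))
    have t2 : ContinuousAt (fun k => Kf k * ((L * σ ^ 2 - k * σ ^ 3) /
        (1 + L * k ^ 2 * σ ^ 2 / 6)) - mlf k * √(34 * c * Kf k * k)) 0 := by
      refine ContinuousAt.sub (cK.mul (ContinuousAt.div (by fun_prop) (by fun_prop) ?_))
        (cml.mul ?_)
      · norm_num
      · exact (Real.continuous_sqrt.continuousAt).comp ((continuousAt_const.mul cK).mul ckk)
    refine t1.tendsto.eventually_lt t2.tendsto ?_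
    rw [hα0, hK0]
    simp only [mul_zero, zero_mul, Real.sqrt_zero, sub_zero, add_zero, mul_one, ne_eq,
      OfNat.ofNat_ne_zero, not_false_eq_true, zero_pow, zero_div, div_one]
    linarith
  have E6 : ∀ᶠ k : ℝ in 𝓝 0, 34 * c * k * αf k < 1 := by
    have ckk : ContinuousAt (fun k : ℝ => k) 0 := continuousAt_id
    have t1 : ContinuousAt (fun k => 34 * c * k * αf k) 0 := (continuousAt_const.mul ckk).mul cα
    refine t1.tendsto.eventually_lt continuousAt_const.tendsto ?_
    simp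
  have hall := ((((E1.and E2).and E3).and E4).and E5).and E6
  filter_upwards [hall.filter_mono nhdsWithin_le_nhds, self_mem_nhdsWithin] with k hk hk0 p hpk
  obtain ⟨⟨⟨⟨⟨e1, e2⟩, e3⟩, e4⟩, e5⟩, e6⟩ := hk
  have hk0' : (0 : ℝ) < k := hk0
  have hp0 : 0 < p := by
    by_contra hcon
    push Not at hcon
    have : p * k ^ 3 ≤ 0 := mul_nonpos_of_nonpos_of_nonneg hcon (by positivity)
    linarith
  have hδ0 : 0 < c * k ^ 2 := by positivity
  refine le_radius_of_good hp0 (by linarith) (by linarith) ?_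
  refine good_numeric hk0' hpk hc hσ rfl e1.le rfl rfl rfl e2 rfl (α := αf k) e3.le ?_ e4.le
    ?_ e6.le
  · -- the value of α k²
    have h1 : Rf k ^ 2 + 2 * Rf k - 1 = c * k ^ 2 * (2 * s + c * k ^ 2) := by
      simp only [hRf]
      linear_combination hs2
    have h1R : 0 < 1 + Rf k := by simp only [hRf]; linarith
    have h2 : mf k = c * (2 * s + c * k ^ 2) / (1 + Rf k) ^ 2 * k ^ 2 := by
      have h3 : mf k = (Rf k ^ 2 + 2 * Rf k - 1) / (1 + Rf k) ^ 2 := by
        simp only [hmf]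
        field_simp
        ring
      rw [h3, h1]
      ring
    refine le_of_eq ?_
    rw [show (1 - 2 / (1 + (s - 1 + c * k ^ 2)) ^ 2) = mf k from rfl]
    have h4 : αf k * k ^ 2 = 2 * (c * (2 * s + c * k ^ 2) / (1 + Rf k) ^ 2 * k ^ 2 +
        68 * (c * k ^ 2) * mf k ^ 2 + 530 * (34 * (c * k ^ 2)) ^ 2) := by
      simp only [hαf]
      ring
    rw [h4, ← h2]
  · rw [← hLd]
    exact e5.le

end Pool.Agent.LibMP140d1b
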