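import Mathlib
import Pool.Agent.Lib_MP_140d1b_an.LowerBound

/-!
A first-order necessary condition for goodness at a radius.
-/

namespace Pool.Agent.LibMP140d1b

open Complex Metric Set Filter Topology Real

/-- The kernel `P(z) = (1 - ρ z)/(1 + ρ z)`. -/
noncomputable def Pk (ρ : ℝ) (z : ℂ) : ℂ := 2 / (1 + ρ * z) - 1

/-- The derivative of `z P(z)`. -/
noncomputable def Gk (ρ : ℝ) (z : ℂ) : ℂ := 2 / (1 + ρ * z) ^ 2 - 1

lemma norm_rho_mul {ρ : ℝ} (hρ0 : 0 ≤ ρ) {z : ℂ} (hz : ‖z‖ < 1) : ‖(ρ : ℂ) * z‖ ≤ ρ := by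
  rw [norm_mul, Complex.norm_real, Real.norm_eq_abs, abs_of_nonneg hρ0]
  exact mul_le_of_le_one_right hρ0 hz.le

lemma one_add_rho_norm {ρ : ℝ} (hρ0 : 0 ≤ ρ) {z : ℂ} (hz : ‖z‖ < 1) :
    1 - ρ ≤ ‖1 + (ρ : ℂ) * z‖ := by
  have h1 := norm_rho_mul hρ0 hz
  have h2 := norm_sub_norm_le (1 : ℂ) (-((ρ : ℂ) * z))
  rw [sub_neg_eq_add, norm_neg, norm_one] at h2
  linarith

lemma one_add_rho_ne {ρ : ℝ} (hρ0 : 0 ≤ ρ) (hρ1 : ρ < 1) {z : ℂ} (hz : ‖z‖ < 1) :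
    1 + (ρ : ℂ) * z ≠ 0 := by
  have := one_add_rho_norm hρ0 hz
  exact norm_pos_iff.mp (by linarith)

lemma Pk_hasDerivAt {ρ : ℝ} (hρ0 : 0 ≤ ρ) (hρ1 : ρ < 1) {z : ℂ} (hz : ‖z‖ < 1) :
    HasDerivAt (Pk ρ) (-(2 * ρ) / (1 + ρ * z) ^ 2) z := by
  have hne := one_add_rho_ne hρ0 hρ1 hz
  have h2 : HasDerivAt (fun z : ℂ => 1 + (ρ : ℂ) * z) (ρ : ℂ) z := by
    have := ((hasDerivAt_id z).const_mul (ρ : ℂ)).const_add 1
    simpa using this
  have h3 := ((hasDerivAt_const z (2 : ℂ)).div h2 hne).sub_const 1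
  have e : (0 * (1 + (ρ : ℂ) * z) - 2 * ρ) / (1 + (ρ : ℂ) * z) ^ 2 =
      -(2 * ρ) / (1 + ρ * z) ^ 2 := by ring
  rw [e] at h3
  exact h3

lemma Pk_re {ρ : ℝ} (hρ0 : 0 ≤ ρ) (hρ1 : ρ < 1) {z : ℂ} (hz : ‖z‖ < 1) :
    (1 - ρ ^ 2) / 4 ≤ (Pk ρ z).re := by
  have hne := one_add_rho_ne hρ0 hρ1 hz
  have h1 := norm_rho_mul hρ0 hz
  set u : ℂ := (ρ : ℂ) * z with hu
  have hD : 0 < Complex.normSq (1 + u) := Complex.normSq_pos.mpr hne
  have hre : (Pk ρ z).re = (1 - ‖u‖ ^ 2) / Complex.normSq (1 + u) := by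
    unfold Pk
    rw [← hu, Complex.sub_re, Complex.div_re, ← Complex.normSq_eq_norm_sq]
    simp only [Complex.one_re, Complex.add_re, Complex.add_im, Complex.one_im]
    have h2 : (2 : ℂ).re = 2 := rfl
    have h3 : (2 : ℂ).im = 0 := rfl
    rw [h2, h3, zero_mul, zero_div, add_zero, eq_div_iff hD.ne', sub_mul, div_mul_cancel₀ _ hD.ne',
      Complex.normSq_apply, Complex.normSq_apply]
    simp only [Complex.one_re, Complex.add_re, Complex.add_im, Complex.one_im]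
    ring
  rw [hre]
  have h4 : Complex.normSq (1 + u) ≤ 4 := by
    rw [Complex.normSq_eq_norm_sq]
    have : ‖1 + u‖ ≤ 2 := by
      calc ‖1 + u‖ ≤ ‖(1 : ℂ)‖ + ‖u‖ := norm_add_le _ _
        _ ≤ 1 + ρ := by rw [norm_one]; linarith
        _ ≤ 2 := by linarith
    nlinarith [norm_nonneg (1 + u)]
  have h5 : 1 - ρ ^ 2 ≤ 1 - ‖u‖ ^ 2 := by
    have : ‖u‖ ^ 2 ≤ ρ ^ 2 := pow_le_pow_left₀ (norm_nonneg _) h1 2
    linarith
  have h6 : 0 ≤ 1 - ρ ^ 2 := by nlinarith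
  calc (1 - ρ ^ 2) / 4 ≤ (1 - ρ ^ 2) / Complex.normSq (1 + u) := by gcongr
    _ ≤ _ := by gcongr

lemma Pk_norm {ρ : ℝ} (hρ0 : 0 ≤ ρ) (hρ1 : ρ < 1) {z : ℂ} (hz : ‖z‖ < 1) :
    ‖Pk ρ z‖ ≤ 2 / (1 - ρ) + 1 := by
  have h1 := one_add_rho_norm hρ0 hz
  have h2 : 0 < 1 - ρ := by linarith
  unfold Pk
  calc ‖2 / (1 + (ρ : ℂ) * z) - 1‖ ≤ ‖2 / (1 + (ρ : ℂ) * z)‖ + ‖(1 : ℂ)‖ := norm_sub_le _ _
    _ = 2 / ‖1 + (ρ : ℂ) * z‖ + 1 := by
        rw [norm_div, norm_one]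
        simp
    _ ≤ 2 / (1 - ρ) + 1 := by gcongr

/-- The perturbation of the identity. -/
noncomputable def Phi (ρ ε : ℝ) (z : ℂ) : ℂ := z * (1 - ε * Pk ρ z)

lemma Phi_hasDerivAt {ρ : ℝ} (hρ0 : 0 ≤ ρ) (hρ1 : ρ < 1) (ε : ℝ) {z : ℂ} (hz : ‖z‖ < 1) :
    HasDerivAt (Phi ρ ε) (1 - ε * Gk ρ z) z := by
  have hne := one_add_rho_ne hρ0 hρ1 hz
  have h1 := ((Pk_hasDerivAt hρ0 hρ1 hz).const_mul (ε : ℂ)).const_sub 1
  have h2 := (hasDerivAt_id z).mul h1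
  have e : (1 * (1 - (ε : ℂ) * Pk ρ z) + id z * (-(ε * (-(2 * ρ) / (1 + ρ * z) ^ 2)))) =
      1 - ε * Gk ρ z := by
    unfold Pk Gk
    simp only [id]
    field_simp
    ring
  rw [e] at h2
  exact h2

lemma Phi_norm_le {ρ : ℝ} (hρ0 : 0 ≤ ρ) (hρ1 : ρ < 1) : ∃ ε0 : ℝ, 0 < ε0 ∧
    ∀ ε : ℝ, 0 ≤ ε → ε ≤ ε0 → ∀ z : ℂ, ‖z‖ < 1 → ‖Phi ρ ε z‖ ≤ ‖z‖ := by
  have h1ρ : 0 < 1 - ρ := by linarith
  set m := (1 - ρ ^ 2) / 4 with hm
  set M := 2 / (1 - ρ) + 1 with hM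
  have hm0 : 0 < m := by rw [hm]; nlinarith
  have hM0 : 0 < M := by positivity
  refine ⟨2 * m / M ^ 2, by positivity, ?_⟩
  intro ε hε0 hε1 z hz
  have h1 := Pk_re hρ0 hρ1 hz
  have h2 := Pk_norm hρ0 hρ1 hz
  rw [← hm] at h1
  rw [← hM] at h2
  have h3 : ‖1 - (ε : ℂ) * Pk ρ z‖ ≤ 1 := by
    have h4 : ‖1 - (ε : ℂ) * Pk ρ z‖ ^ 2 = 1 - 2 * ε * (Pk ρ z).re + ε ^ 2 * ‖Pk ρ z‖ ^ 2 := by
      rw [Complex.sq_norm, Complex.sq_norm, Complex.normSq_apply, Complex.normSq_apply]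
      simp
      ring
    have h5 : ‖Pk ρ z‖ ^ 2 ≤ M ^ 2 := pow_le_pow_left₀ (norm_nonneg _) h2 2
    have h6 : ε * M ^ 2 ≤ 2 * m := by
      rwa [le_div_iff₀ (by positivity)] at hε1
    have h7 : ‖1 - (ε : ℂ) * Pk ρ z‖ ^ 2 ≤ 1 := by
      rw [h4]
      have h8 : ε ^ 2 * ‖Pk ρ z‖ ^ 2 ≤ ε ^ 2 * M ^ 2 := by gcongr
      have h9 : ε * (ε * M ^ 2) ≤ ε * (2 * m) := by gcongr
      have h10 : ε * m ≤ ε * (Pk ρ z).re := by gcongr
      nlinarith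
    nlinarith [norm_nonneg (1 - (ε : ℂ) * Pk ρ z)]
  unfold Phi
  rw [norm_mul]
  exact mul_le_of_le_one_right (norm_nonneg _) h3

lemma Phi_schwarz {ρ ε : ℝ} (hρ0 : 0 ≤ ρ) (hρ1 : ρ < 1)
    (h : ∀ z : ℂ, ‖z‖ < 1 → ‖Phi ρ ε z‖ ≤ ‖z‖) : Schwarz (Phi ρ ε) := by
  refine ⟨?_, ?_, ?_⟩
  · intro z hz
    exact (Phi_hasDerivAt hρ0 hρ1 ε (by simpa using hz)).differentiableAt.differentiableWithinAt
  · intro z hz
    have hz1 : ‖z‖ < 1 := by simpa using hz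
    simp only [mem_ball, dist_zero_right]
    exact (h z hz1).trans_lt hz1
  · simp [Phi]

/-- Passage to analytic functions with squares. -/
lemma analytic_of_goodAt {p R R' : ℝ} (hp : 0 < p) (hR : 0 < R) (hR1 : R < 1) (hRR' : R < R')
    (h : GoodAt p R) {φ : ℂ → ℂ} (hφ : Schwarz φ) {F : ℂ → ℂ}
    (hF : DifferentiableOn ℂ F (ball 0 R')) :
    circleAverage (fun z => ‖F (φ z)‖ ^ (2 : ℕ) * ‖deriv φ z‖ ^ p) 0 R ≤
      circleAverage (fun z => ‖F z‖ ^ (2 : ℕ)) 0 R := by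
  have hsub := sphere_subset_ball_one hR1
  have hcp : ContinuousOn (fun z => ‖deriv φ z‖ ^ p) (sphere 0 R) :=
    (hφ.deriv_diff.continuousOn.mono hsub).norm.rpow_const (fun _ _ => Or.inr hp.le)
  have h2 : PolyIneq 2 φ (fun z => ‖deriv φ z‖ ^ p) R := by
    intro a N
    exact ineq_general hφ hR hR1 hcp (fun z _ => by positivity) hp (poly_of_goodAt h hφ) two_pos
      (pe_differentiable a N).differentiableOn
  have h3 := polyIneq_analytic hφ hR.le hR1 hRR' hcp (fun z _ => by positivity) two_pos h2 hF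
  simpa only [Real.rpow_two] using h3

/-- Second order Taylor estimate. -/
lemma taylor_two {F : ℂ → ℂ} {R R' : ℝ} (hRR' : R < R')
    (hF : DifferentiableOn ℂ F (ball 0 R')) : ∃ L : ℝ, 0 ≤ L ∧ ∀ z w : ℂ, ‖z‖ ≤ R → ‖w‖ ≤ R →
      ‖F w - F z - deriv F z * (w - z)‖ ≤ L * ‖w - z‖ ^ 2 := by
  have hF' : DifferentiableOn ℂ (deriv F) (ball 0 R') := hF.deriv isOpen_ball
  have hF'' : DifferentiableOn ℂ (deriv (deriv F)) (ball 0 R') := hF'.deriv isOpen_ball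
  have hsub : closedBall (0 : ℂ) R ⊆ ball 0 R' := closedBall_subset_ball hRR'
  obtain ⟨L, hL⟩ := (isCompact_closedBall (0 : ℂ) R).exists_bound_of_continuousOn
    (hF''.continuousOn.mono hsub)
  refine ⟨max L 0, le_max_right _ _, ?_⟩
  intro z w hz hw
  have hzb : z ∈ closedBall (0 : ℂ) R := by simpa using hz
  have hwb : w ∈ closedBall (0 : ℂ) R := by simpa using hw
  have hconv := convex_closedBall (0 : ℂ) R
  have hlip : ∀ a ∈ closedBall (0 : ℂ) R, ‖deriv F a - deriv F z‖ ≤ max L 0 * ‖a - z‖ := by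
    intro a ha
    refine hconv.norm_image_sub_le_of_norm_hasDerivWithin_le (f := deriv F)
      (f' := deriv (deriv F)) ?_ ?_ hzb ha
    · intro x hx
      exact ((hF'.differentiableAt (isOpen_ball.mem_nhds (hsub hx))).hasDerivAt).hasDerivWithinAt
    · intro x hx
      exact (hL x hx).trans (le_max_left _ _)
  have hseg : segment ℝ z w ⊆ closedBall (0 : ℂ) R := hconv.segment_subset hzb hwb
  have hkey := (convex_segment z w).norm_image_sub_le_of_norm_hasDerivWithin_le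
    (f := fun a => F a - deriv F z * a) (f' := fun a => deriv F a - deriv F z)
    (C := max L 0 * ‖w - z‖) ?_ ?_ (left_mem_segment ℝ z w) (right_mem_segment ℝ z w)
  · calc ‖F w - F z - deriv F z * (w - z)‖ = ‖(F w - deriv F z * w) - (F z - deriv F z * z)‖ := by
          congr 1
          ring
      _ ≤ max L 0 * ‖w - z‖ * ‖w - z‖ := hkey
      _ = _ := by ring
  · intro x hx
    have h1 : HasDerivAt F (deriv F x) x :=
      (hF.differentiableAt (isOpen_ball.mem_nhds (hsub (hseg hx)))).hasDerivAt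
    have h2 : HasDerivAt (fun a : ℂ => deriv F z * a) (deriv F z) x := by
      simpa using (hasDerivAt_id x).const_mul (deriv F z)
    exact (h1.sub h2).hasDerivWithinAt
  · intro x hx
    refine (hlip x (hseg hx)).trans ?_
    refine mul_le_mul_of_nonneg_left ?_ (le_max_right _ _)
    obtain ⟨a, b, ha, hb, hab, rfl⟩ := hx
    have : a • z + b • w - z = (b : ℂ) * (w - z) := by
      simp only [Complex.real_smul]
      have : (a : ℂ) = 1 - b := by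
        have : a = 1 - b := by linarith
        rw [this]
        push_cast
        ring
      rw [this]
      ring
    rw [this, norm_mul, Complex.norm_real, Real.norm_eq_abs, abs_of_nonneg hb]
    exact mul_le_of_le_one_left (norm_nonneg _) (by linarith)

end Pool.Agent.LibMP140d1b
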