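import Mathlib
import Pool.Agent.Lib_MP_140d1b_an.FirstOrder

/-!
The first-order necessary condition.
-/

namespace Pool.Agent.LibMP140d1b

open Complex Metric Set Filter Topology Real

/-- The integrand of the first-order condition. -/
noncomputable def Lfo (p ρ : ℝ) (F : ℂ → ℂ) (z : ℂ) : ℝ :=
  2 * ((starRingEnd ℂ) (F z) * (z * Pk ρ z * deriv F z)).re + p * (Gk ρ z).re * ‖F z‖ ^ 2

/-- Pointwise algebra. -/
lemma pointwise_lower {A u g x a b ε C2 G0 U0 : ℝ} (hA : 0 ≤ A) (hε0 : 0 ≤ ε) (hε1 : ε ≤ 1)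
    (hC2 : 0 ≤ C2) (hU : |u| ≤ U0) (hG : |g| ≤ G0) (hG0 : 0 ≤ G0) (ha0 : 0 ≤ a)
    (hx : x = A - ε * u - C2 * ε ^ 2) (ha : x ≤ a) (hb : 1 - ε * g ≤ b) (hb0 : 0 ≤ 1 - ε * g) :
    A - ε * (u + g * A) - (C2 + G0 * (U0 + C2)) * ε ^ 2 ≤ a * b := by
  have hU0 : 0 ≤ U0 := (abs_nonneg u).trans hU
  have h1 : max x 0 * (1 - ε * g) ≤ a * b :=
    mul_le_mul (max_le ha ha0) hb hb0 ha0
  have h2 : |max x 0 - A| ≤ ε * U0 + C2 * ε := by
    have h3 : |max x 0 - max A 0| ≤ |x - A| := abs_max_sub_max_le_abs x A 0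
    rw [max_eq_left hA] at h3
    refine h3.trans ?_
    have : x - A = -(ε * u + C2 * ε ^ 2) := by rw [hx]; ring
    rw [this, abs_neg]
    refine (abs_add_le _ _).trans ?_
    rw [abs_mul, abs_mul, abs_of_nonneg hε0, abs_of_nonneg hC2, abs_of_nonneg (sq_nonneg ε)]
    have h4 : ε * |u| ≤ ε * U0 := mul_le_mul_of_nonneg_left hU hε0
    have h5 : C2 * ε ^ 2 ≤ C2 * ε := by
      refine mul_le_mul_of_nonneg_left ?_ hC2
      nlinarith
    linarith
  have h6 : ε * g * (max x 0 - A) ≤ ε * (G0 * (ε * U0 + C2 * ε)) := by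
    calc ε * g * (max x 0 - A) ≤ |ε * g * (max x 0 - A)| := le_abs_self _
      _ = ε * (|g| * |max x 0 - A|) := by rw [abs_mul, abs_mul, abs_of_nonneg hε0]; ring
      _ ≤ ε * (G0 * (ε * U0 + C2 * ε)) := by
          refine mul_le_mul_of_nonneg_left ?_ hε0
          exact mul_le_mul hG h2 (abs_nonneg _) hG0
  have h7 : x ≤ max x 0 := le_max_left _ _
  nlinarith

lemma first_order {p R R' ρ : ℝ} (hp : 1 ≤ p) (hR : 0 < R) (hR1 : R < 1) (hRR' : R < R')
    (hρ0 : 0 ≤ ρ) (hρ1 : ρ < 1) (h : GoodAt p R) {F : ℂ → ℂ}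
    (hF : DifferentiableOn ℂ F (ball 0 R')) :
    0 ≤ circleAverage (Lfo p ρ F) 0 R := by
  have hsub := sphere_subset_ball_one hR1
  have hcb1 : closedBall (0 : ℂ) R ⊆ ball 0 1 := closedBall_subset_ball hR1
  have hcb : closedBall (0 : ℂ) R ⊆ ball 0 R' := closedBall_subset_ball hRR'
  have hsub' : sphere (0 : ℂ) R ⊆ ball 0 R' := sphere_subset_closedBall.trans hcb
  have hF' : DifferentiableOn ℂ (deriv F) (ball 0 R') := hF.deriv isOpen_ball
  have hFc : ContinuousOn F (sphere 0 R) := hF.continuousOn.mono hsub'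
  have hF'c : ContinuousOn (deriv F) (sphere 0 R) := hF'.continuousOn.mono hsub'
  have hPc : ContinuousOn (Pk ρ) (sphere 0 R) := fun z hz =>
    (Pk_hasDerivAt hρ0 hρ1 (by simpa using hsub hz)).continuousAt.continuousWithinAt
  have hGc : ContinuousOn (Gk ρ) (sphere 0 R) := by
    intro z hz
    have hne := one_add_rho_ne hρ0 hρ1 (by simpa using hsub hz : ‖z‖ < 1)
    unfold Gk
    refine ContinuousAt.continuousWithinAt ?_
    have h1 : ContinuousAt (fun z : ℂ => (1 + (ρ : ℂ) * z) ^ 2) z := by fun_prop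
    exact (continuousAt_const.div h1 (pow_ne_zero 2 hne)).sub continuousAt_const
  -- the functions u, g
  set u : ℂ → ℝ := fun z => 2 * ((starRingEnd ℂ) (F z) * (z * Pk ρ z * deriv F z)).re with hu
  set g : ℂ → ℝ := fun z => p * (Gk ρ z).re with hg
  have huc : ContinuousOn u (sphere 0 R) := by
    refine continuousOn_const.mul (Complex.continuous_re.comp_continuousOn ?_)
    exact (Complex.continuous_conj.comp_continuousOn hFc).mul
      ((continuousOn_id.mul hPc).mul hF'c)
  have hgc : ContinuousOn g (sphere 0 R) :=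
    continuousOn_const.mul (Complex.continuous_re.comp_continuousOn hGc)
  have hcomp := isCompact_sphere (0 : ℂ) R
  obtain ⟨U0, hU0⟩ := hcomp.exists_bound_of_continuousOn huc
  obtain ⟨G1, hG1⟩ := hcomp.exists_bound_of_continuousOn hgc
  obtain ⟨M, hM⟩ := hcomp.exists_bound_of_continuousOn hFc
  obtain ⟨L, hL0, hL⟩ := taylor_two hRR' hF
  obtain ⟨ε0, hε0, hΦ⟩ := Phi_norm_le hρ0 hρ1
  set G0 := max G1 0 with hG0
  set B := 2 / (1 - ρ) + 1 with hB
  have h1ρ : 0 < 1 - ρ := by linarith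
  have hB0 : 0 < B := by positivity
  set C2 := 2 * (max M 0) * (L * B ^ 2) with hC2
  have hC20 : 0 ≤ C2 := by
    have : 0 ≤ max M 0 := le_max_right _ _
    positivity
  set Cc := C2 + G0 * (U0 + C2) with hCc
  -- the threshold for ε
  set ε1 := min ε0 (min 1 (1 / (G0 + 1))) with hε1
  have hG00 : 0 ≤ G0 := le_max_right _ _
  have hε1pos : 0 < ε1 := by
    refine lt_min hε0 (lt_min one_pos ?_)
    positivity
  have hLeq : ∀ z, Lfo p ρ F z = u z + g z * ‖F z‖ ^ 2 := fun z => rfl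
  have hLc : ContinuousOn (Lfo p ρ F) (sphere 0 R) := huc.add (hgc.mul (hFc.norm.pow 2))
  have main : ∀ ε : ℝ, 0 < ε → ε ≤ ε1 → -(Cc * ε) ≤ circleAverage (Lfo p ρ F) 0 R := by
    intro ε hε hεle
    have hεε0 : ε ≤ ε0 := hεle.trans (min_le_left _ _)
    have hε1' : ε ≤ 1 := hεle.trans ((min_le_right _ _).trans (min_le_left _ _))
    have hεG : ε ≤ 1 / (G0 + 1) := hεle.trans ((min_le_right _ _).trans (min_le_right _ _))
    have hεG' : ε * G0 ≤ 1 := by
      rw [le_div_iff₀ (by positivity)] at hεG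
      nlinarith
    have hS : Schwarz (Phi ρ ε) := Phi_schwarz hρ0 hρ1 (hΦ ε hε.le hεε0)
    have hineq := analytic_of_goodAt (by linarith) hR hR1 hRR' h hS hF
    have hpt : ∀ z ∈ sphere (0 : ℂ) |R|, ‖F z‖ ^ (2 : ℕ) - ε * Lfo p ρ F z - Cc * ε ^ 2 ≤
        ‖F (Phi ρ ε z)‖ ^ (2 : ℕ) * ‖deriv (Phi ρ ε) z‖ ^ p := by
      intro z hz
      rw [abs_of_nonneg hR.le] at hz
      have hzR : ‖z‖ = R := by simpa using hz
      have hz1 : ‖z‖ < 1 := by rw [hzR]; exact hR1
      have hΦz : ‖Phi ρ ε z‖ ≤ R := (hΦ ε hε.le hεε0 z hz1).trans hzR.le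
      have hderiv : deriv (Phi ρ ε) z = 1 - ε * Gk ρ z := (Phi_hasDerivAt hρ0 hρ1 ε hz1).deriv
      have hu1 : |u z| ≤ U0 := hU0 z hz
      have hg1 : |g z| ≤ G0 := (hG1 z hz).trans (le_max_left _ _)
      have hM1 : ‖F z‖ ≤ max M 0 := (hM z hz).trans (le_max_left _ _)
      have hP1 : ‖Pk ρ z‖ ≤ B := Pk_norm hρ0 hρ1 hz1
      have hdiff : Phi ρ ε z - z = -(ε * (z * Pk ρ z)) := by
        unfold Phi
        ring
      have hT := hL z (Phi ρ ε z) hzR.le hΦz
      have hdn : ‖Phi ρ ε z - z‖ ≤ ε * B := by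
        rw [hdiff, norm_neg, norm_mul, norm_mul, Complex.norm_real, Real.norm_eq_abs,
          abs_of_pos hε]
        have : ‖z‖ * ‖Pk ρ z‖ ≤ 1 * B := mul_le_mul hz1.le hP1 (norm_nonneg _) zero_le_one
        rw [one_mul] at this
        exact mul_le_mul_of_nonneg_left this hε.le
      have hT2 : ‖F (Phi ρ ε z) - F z - deriv F z * (Phi ρ ε z - z)‖ ≤ L * B ^ 2 * ε ^ 2 := by
        refine hT.trans ?_
        calc L * ‖Phi ρ ε z - z‖ ^ 2 ≤ L * (ε * B) ^ 2 := by
              refine mul_le_mul_of_nonneg_left ?_ hL0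
              exact pow_le_pow_left₀ (norm_nonneg _) hdn 2
          _ = _ := by ring
      -- lower bound for the square
      have hx : ‖F z‖ ^ (2 : ℕ) - ε * u z - C2 * ε ^ 2 ≤ ‖F (Phi ρ ε z)‖ ^ (2 : ℕ) := by
        set E := F (Phi ρ ε z) - F z - deriv F z * (Phi ρ ε z - z) with hE
        have h1 : F (Phi ρ ε z) = F z + (deriv F z * (Phi ρ ε z - z) + E) := by
          rw [hE]; ring
        have h2 : ‖F z + (deriv F z * (Phi ρ ε z - z) + E)‖ ^ 2 ≥
            ‖F z‖ ^ 2 + 2 * ((starRingEnd ℂ) (F z) * (deriv F z * (Phi ρ ε z - z) + E)).re := by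
          rw [Complex.sq_norm, Complex.sq_norm, Complex.normSq_add]
          have h3 : 0 ≤ Complex.normSq (deriv F z * (Phi ρ ε z - z) + E) := Complex.normSq_nonneg _
          have h4 : ((starRingEnd ℂ) (F z) * (deriv F z * (Phi ρ ε z - z) + E)).re =
              (F z * (starRingEnd ℂ) (deriv F z * (Phi ρ ε z - z) + E)).re := by
            rw [← Complex.conj_re]
            simp
          rw [h4]
          linarith
        rw [h1]
        have h5 : 2 * ((starRingEnd ℂ) (F z) * (deriv F z * (Phi ρ ε z - z) + E)).re =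
            -(ε * u z) + 2 * ((starRingEnd ℂ) (F z) * E).re := by
          have : (starRingEnd ℂ) (F z) * (deriv F z * (Phi ρ ε z - z) + E) =
              -((ε : ℂ) * ((starRingEnd ℂ) (F z) * (z * Pk ρ z * deriv F z))) +
                (starRingEnd ℂ) (F z) * E := by
            rw [hdiff]
            ring
          rw [this, Complex.add_re, Complex.neg_re, Complex.re_ofReal_mul]
          simp only [hu]
          ring
        have h6 : |((starRingEnd ℂ) (F z) * E).re| ≤ max M 0 * (L * B ^ 2 * ε ^ 2) := by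
          refine (Complex.abs_re_le_norm _).trans ?_
          rw [norm_mul, RCLike.norm_conj]
          exact mul_le_mul hM1 hT2 (norm_nonneg _) (le_max_right _ _)
        have h7 := (abs_le.mp h6).1
        have h8 : C2 * ε ^ 2 = 2 * (max M 0 * (L * B ^ 2 * ε ^ 2)) := by
          rw [hC2]; ring
        linarith
      -- lower bound for the derivative
      have hgz : ε * g z ≤ 1 := by
        have := (abs_le.mp hg1).2
        calc ε * g z ≤ ε * G0 := mul_le_mul_of_nonneg_left this hε.le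
          _ ≤ 1 := hεG'
      have hGre : ε * (Gk ρ z).re ≤ 1 := by
        by_cases hneg : (Gk ρ z).re ≤ 0
        · have := mul_nonpos_of_nonneg_of_nonpos hε.le hneg
          linarith
        · push Not at hneg
          have : (Gk ρ z).re ≤ g z := by
            simp only [hg]
            exact le_mul_of_one_le_left hneg.le hp
          exact (mul_le_mul_of_nonneg_left this hε.le).trans hgz
      have hb : 1 - ε * g z ≤ ‖deriv (Phi ρ ε) z‖ ^ p := by
        have h1 : 1 - ε * (Gk ρ z).re ≤ ‖deriv (Phi ρ ε) z‖ := by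
          rw [hderiv]
          have := Complex.re_le_norm (1 - (ε : ℂ) * Gk ρ z)
          rw [Complex.sub_re, Complex.one_re, Complex.re_ofReal_mul] at this
          exact this
        have h2 : 1 + p * (-(ε * (Gk ρ z).re)) ≤ (1 + (-(ε * (Gk ρ z).re))) ^ p :=
          one_add_mul_self_le_rpow_one_add (by linarith) hp
        have h3 : (1 + (-(ε * (Gk ρ z).re))) ^ p ≤ ‖deriv (Phi ρ ε) z‖ ^ p := by
          refine Real.rpow_le_rpow (by linarith) ?_ (by linarith)
          linarith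
        have h4 : 1 - ε * g z = 1 + p * (-(ε * (Gk ρ z).re)) := by
          simp only [hg]
          ring
        rw [h4]
        exact h2.trans h3
      have hres := pointwise_lower (A := ‖F z‖ ^ (2 : ℕ)) (u := u z) (g := g z)
        (a := ‖F (Phi ρ ε z)‖ ^ (2 : ℕ)) (b := ‖deriv (Phi ρ ε) z‖ ^ p) (ε := ε) (C2 := C2)
        (G0 := G0) (U0 := U0) (by positivity) hε.le hε1' hC20 hu1 hg1 hG00 (by positivity) rfl
        hx hb (by linarith)
      rw [hLeq z]
      exact hres
    have i1 : CircleIntegrable (fun z => ‖F z‖ ^ (2 : ℕ)) 0 R :=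
      (hFc.norm.pow 2).circleIntegrable hR.le
    have i2 : CircleIntegrable (fun z => ε * Lfo p ρ F z) 0 R :=
      (continuousOn_const.mul hLc).circleIntegrable hR.le
    have i3 : CircleIntegrable (fun _ : ℂ => Cc * ε ^ 2) 0 R :=
      continuousOn_const.circleIntegrable hR.le
    have i12 : CircleIntegrable (fun z => ‖F z‖ ^ (2 : ℕ) - ε * Lfo p ρ F z) 0 R := i1.sub i2
    have i4 : CircleIntegrable (fun z => ‖F (Phi ρ ε z)‖ ^ (2 : ℕ) *
        ‖deriv (Phi ρ ε) z‖ ^ p) 0 R := by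
      refine ContinuousOn.circleIntegrable hR.le ?_
      refine ContinuousOn.mul ?_ ?_
      · refine ContinuousOn.pow (ContinuousOn.norm ?_) 2
        refine hF.continuousOn.comp (hS.diff.continuousOn.mono hsub) ?_
        intro z hz
        have hzR : ‖z‖ = R := by simpa using hz
        have := hΦ ε hε.le hεε0 z (by rw [hzR]; exact hR1)
        simp only [mem_ball, dist_zero_right]
        linarith
      · exact (hS.deriv_diff.continuousOn.mono hsub).norm.rpow_const
          (fun _ _ => Or.inr (by linarith))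
    have h1 : circleAverage (fun z => ‖F z‖ ^ (2 : ℕ) - ε * Lfo p ρ F z - Cc * ε ^ 2) 0 R ≤
        circleAverage (fun z => ‖F (Phi ρ ε z)‖ ^ (2 : ℕ) * ‖deriv (Phi ρ ε) z‖ ^ p) 0 R :=
      circleAverage_mono (i12.sub i3) i4 hpt
    have h2 : circleAverage (fun z => ‖F z‖ ^ (2 : ℕ) - ε * Lfo p ρ F z - Cc * ε ^ 2) 0 R =
        circleAverage (fun z => ‖F z‖ ^ (2 : ℕ)) 0 R - ε * circleAverage (Lfo p ρ F) 0 R -
          Cc * ε ^ 2 := by
      rw [circleAverage_fun_sub i12 i3, circleAverage_fun_sub i1 i2, circleAverage_const]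
      congr 2
      have := circleAverage_fun_smul (a := ε) (f := Lfo p ρ F) (c := 0) (R := R)
      simpa only [smul_eq_mul] using this
    rw [h2] at h1
    have h3 := h1.trans hineq
    have h4 : 0 ≤ ε * (circleAverage (Lfo p ρ F) 0 R + Cc * ε) := by nlinarith
    have h5 := nonneg_of_mul_nonneg_right h4 hε
    linarith
  -- let ε → 0
  have hlim : Tendsto (fun ε : ℝ => -(Cc * ε)) (𝓝[>] 0) (𝓝 0) := by
    refine Tendsto.mono_left ?_ nhdsWithin_le_nhds
    have : Continuous (fun ε : ℝ => -(Cc * ε)) := by fun_prop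
    simpa using this.tendsto 0
  refine le_of_tendsto hlim ?_
  filter_upwards [Ioc_mem_nhdsGT hε1pos] with ε hε using main ε hε.1 hε.2

end Pool.Agent.LibMP140d1b
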