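import Mathlib
import Pool.Agent.Lib_MP_140d1b_an.Necessary

/-!
The first-order condition evaluated at `F = (1 + ρ z)² H`.
-/

namespace Pool.Agent.LibMP140d1b

open Complex Metric Set Filter Topology Real

/-- Shift of a sequence. -/
def shf {α : Type*} [Zero α] (c : ℕ → α) : ℕ → α
  | 0 => 0
  | k + 1 => c k

lemma pe_shf (c : ℕ → ℂ) (M : ℕ) (z : ℂ) : pe (shf c) (M + 1) z = z * pe c M z := by
  rw [pe_succ]
  simp [shf]

lemma pe_zero_last {c : ℕ → ℂ} {M : ℕ} (h : c M = 0) (z : ℂ) : pe c (M + 1) z = pe c M z := by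
  simp [pe, Finset.sum_range_succ, h]

lemma pe_add (a c : ℕ → ℂ) (M : ℕ) (z : ℂ) :
    pe (fun k => a k + c k) M z = pe a M z + pe c M z := by
  simp only [pe, add_mul, Finset.sum_add_distrib]

lemma pe_smul (t : ℂ) (c : ℕ → ℂ) (M : ℕ) (z : ℂ) :
    pe (fun k => t * c k) M z = t * pe c M z := by
  simp only [pe, Finset.mul_sum]
  exact Finset.sum_congr rfl fun k _ => by ring

lemma pe_deriv_mul (c : ℕ → ℂ) (M : ℕ) (z : ℂ) :
    z * deriv (pe c M) z = pe (fun k => (k : ℂ) * c k) M z := by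
  have h : HasDerivAt (pe c M) (∑ k ∈ Finset.range M, c k * ((k : ℂ) * z ^ (k - 1))) z := by
    unfold pe
    refine HasDerivAt.fun_sum fun k _ => ?_
    exact (hasDerivAt_pow k z).const_mul (c k)
  rw [h.deriv, Finset.mul_sum]
  unfold pe
  refine Finset.sum_congr rfl fun k _ => ?_
  rcases Nat.eq_zero_or_pos k with hk | hk
  · simp [hk]
  · have : z ^ k = z * z ^ (k - 1) := by
      rw [← pow_succ', Nat.sub_add_cancel hk]
    rw [this]
    ring

/-- Average of the real part of a product. -/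
lemma avg_re_mul (a c : ℕ → ℂ) (M : ℕ) {r : ℝ} (hr : 0 ≤ r) :
    circleAverage (fun z => ((starRingEnd ℂ) (pe a M z) * pe c M z).re) 0 r =
      ∑ k ∈ Finset.range M, ((starRingEnd ℂ) (a k) * c k).re * (r ^ 2) ^ k := by
  have h1 := circleAverage_poly (fun k => a k + c k) M r
  have h2 := circleAverage_poly a M r
  have h3 := circleAverage_poly c M r
  have e1 : (fun z => ‖∑ k ∈ Finset.range M, (a k + c k) * z ^ k‖ ^ 2) = fun z =>
      (‖∑ k ∈ Finset.range M, a k * z ^ k‖ ^ 2 + ‖∑ k ∈ Finset.range M, c k * z ^ k‖ ^ 2) +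
        2 * ((starRingEnd ℂ) (pe a M z) * pe c M z).re := by
    funext z
    have h4 := pe_add a c M z
    simp only [pe] at h4 ⊢
    rw [h4, Complex.sq_norm, Complex.normSq_add, Complex.sq_norm, Complex.sq_norm]
    congr 2
    rw [← Complex.conj_re]
    simp
  have ca : Continuous (fun z => ‖∑ k ∈ Finset.range M, a k * z ^ k‖ ^ 2) := by fun_prop
  have cc : Continuous (fun z => ‖∑ k ∈ Finset.range M, c k * z ^ k‖ ^ 2) := by fun_prop
  have cr : Continuous (fun z => ((starRingEnd ℂ) (pe a M z) * pe c M z).re) :=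
    Complex.continuous_re.comp ((Complex.continuous_conj.comp (pe_continuous a M)).mul
      (pe_continuous c M))
  have i1 : CircleIntegrable (fun z => ‖∑ k ∈ Finset.range M, a k * z ^ k‖ ^ 2) 0 r :=
    ca.continuousOn.circleIntegrable hr
  have i2 : CircleIntegrable (fun z => ‖∑ k ∈ Finset.range M, c k * z ^ k‖ ^ 2) 0 r :=
    cc.continuousOn.circleIntegrable hr
  have i12 : CircleIntegrable (fun z => ‖∑ k ∈ Finset.range M, a k * z ^ k‖ ^ 2 +
      ‖∑ k ∈ Finset.range M, c k * z ^ k‖ ^ 2) 0 r := i1.add i2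
  have i3 : CircleIntegrable (fun z => 2 * ((starRingEnd ℂ) (pe a M z) * pe c M z).re) 0 r :=
    (continuous_const.mul cr).continuousOn.circleIntegrable hr
  rw [e1, circleAverage_fun_add i12 i3, circleAverage_fun_add i1 i2, h2, h3] at h1
  have h5 : circleAverage (fun z => 2 * ((starRingEnd ℂ) (pe a M z) * pe c M z).re) 0 r =
      2 * circleAverage (fun z => ((starRingEnd ℂ) (pe a M z) * pe c M z).re) 0 r := by
    have := circleAverage_fun_smul (a := (2 : ℝ))
      (f := fun z => ((starRingEnd ℂ) (pe a M z) * pe c M z).re) (c := 0) (R := r)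
    simpa only [smul_eq_mul] using this
  rw [h5] at h1
  have h6 : ∑ k ∈ Finset.range M, ‖a k + c k‖ ^ 2 * (r ^ 2) ^ k =
      (∑ k ∈ Finset.range M, ‖a k‖ ^ 2 * (r ^ 2) ^ k + ∑ k ∈ Finset.range M,
        ‖c k‖ ^ 2 * (r ^ 2) ^ k) + 2 * ∑ k ∈ Finset.range M,
          ((starRingEnd ℂ) (a k) * c k).re * (r ^ 2) ^ k := by
    rw [← Finset.sum_add_distrib, Finset.mul_sum, ← Finset.sum_add_distrib]
    refine Finset.sum_congr rfl fun k _ => ?_
    rw [Complex.sq_norm, Complex.normSq_add, Complex.sq_norm, Complex.sq_norm]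
    have : (a k * (starRingEnd ℂ) (c k)).re = ((starRingEnd ℂ) (a k) * c k).re := by
      rw [← Complex.conj_re]
      simp
    rw [this]
    ring
  linarith

/-- Coefficients of `F`. -/
def xr (V : ℝ) (b : ℕ → ℝ) (k : ℕ) : ℝ := b k + 2 * V * shf b k + V ^ 2 * shf (shf b) k

/-- Coefficients of `z Pk F' / (1 + ρ z)`-type expression. -/
def yr (V : ℝ) (b : ℕ → ℝ) (k : ℕ) : ℝ := k * b k + 2 * V * shf b k - V ^ 2 * k * shf (shf b) k

lemma first_order_seq {p R ρ : ℝ} (hp : 1 ≤ p) (hR : 0 < R) (hR1 : R < 1)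
    (hρ0 : 0 ≤ ρ) (hρ1 : ρ < 1) (h : GoodAt p R) (b : ℕ → ℝ) (N : ℕ)
    (hb : ∀ j, N ≤ j → b j = 0) :
    0 ≤ 2 * ∑ k ∈ Finset.range (N + 2), xr (ρ * R) b k * yr (ρ * R) b k +
      p * (2 * ∑ k ∈ Finset.range (N + 2), xr (ρ * R) b k * b k -
        ∑ k ∈ Finset.range (N + 2), xr (ρ * R) b k ^ 2) := by
  obtain ⟨V, hV⟩ : ∃ V, V = ρ * R := ⟨_, rfl⟩
  rw [← hV]
  have hRc : (R : ℂ) ≠ 0 := by exact_mod_cast hR.ne'
  set hc : ℕ → ℂ := fun j => ((b j : ℝ) : ℂ) / (R : ℂ) ^ j with hhc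
  have hcN : ∀ j, N ≤ j → hc j = 0 := by
    intro j hj
    simp [hhc, hb j hj]
  set H : ℂ → ℂ := pe hc N with hH
  set F : ℂ → ℂ := fun z => (1 + (ρ : ℂ) * z) ^ 2 * H z with hF
  set nc : ℕ → ℂ := fun j => (j : ℂ) * hc j with hnc
  have hncN : ∀ j, N ≤ j → nc j = 0 := by
    intro j hj
    simp [hnc, hcN j hj]
  set xc : ℕ → ℂ := fun j => (hc j + (2 * (ρ : ℂ)) * shf hc j) + (ρ : ℂ) ^ 2 * shf (shf hc) j
    with hxc
  set yc : ℕ → ℂ := fun j => ((nc j + (-(ρ : ℂ) ^ 2) * shf (shf nc) j) + (2 * (ρ : ℂ)) * shf hc j) +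
    (-(2 * (ρ : ℂ) ^ 2)) * shf (shf hc) j with hyc
  -- evaluation of the shifted sums
  have g0 : ∀ (c : ℕ → ℂ), (∀ j, N ≤ j → c j = 0) → ∀ z, pe c (N + 2) z = pe c N z := by
    intro c hcc z
    rw [pe_zero_last (hcc (N + 1) (by omega)), pe_zero_last (hcc N le_rfl)]
  have g1 : ∀ (c : ℕ → ℂ), (∀ j, N ≤ j → c j = 0) → ∀ z,
      pe (shf c) (N + 2) z = z * pe c N z := by
    intro c hcc z
    rw [pe_zero_last (c := shf c) (M := N + 1) (hcc N le_rfl), pe_shf]
  have g2 : ∀ (c : ℕ → ℂ) z, pe (shf (shf c)) (N + 2) z = z ^ 2 * pe c N z := by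
    intro c z
    rw [pe_shf, pe_shf]
    ring
  have hFx : ∀ z, F z = pe xc (N + 2) z := by
    intro z
    rw [hxc, pe_add, pe_add, pe_smul, pe_smul, g0 hc hcN, g1 hc hcN, g2]
    simp only [hF, hH]
    ring
  have hYy : ∀ z, z * (1 - (ρ : ℂ) * z) * ((1 + ρ * z) * deriv H z + 2 * ρ * H z) =
      pe yc (N + 2) z := by
    intro z
    have h1 := pe_deriv_mul hc N z
    rw [hyc, pe_add, pe_add, pe_add, pe_smul, pe_smul, pe_smul, g0 nc hncN, g2 nc, g1 hc hcN,
      g2 hc]
    simp only [hnc, ← h1, hH]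
    ring
  have hHh : ∀ z, H z = pe hc (N + 2) z := fun z => (g0 hc hcN z).symm
  have hFd : Differentiable ℂ F := by
    have : F = fun z => pe xc (N + 2) z := funext hFx
    rw [this]
    exact pe_differentiable xc (N + 2)
  have hHd : Differentiable ℂ H := pe_differentiable hc N
  have hfo := first_order hp hR hR1 hR1 hρ0 hρ1 h (F := F) hFd.differentiableOn
  -- the integrand
  have hint : ∀ z ∈ sphere (0 : ℂ) R, Lfo p ρ F z =
      2 * ((starRingEnd ℂ) (pe xc (N + 2) z) * pe yc (N + 2) z).re +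
        (2 * p * ((starRingEnd ℂ) (pe xc (N + 2) z) * pe hc (N + 2) z).re -
          p * ‖∑ k ∈ Finset.range (N + 2), xc k * z ^ k‖ ^ 2) := by
    intro z hz
    have hzR : ‖z‖ = R := by simpa using hz
    have hne := one_add_rho_ne hρ0 hρ1 (by rw [hzR]; exact hR1 : ‖z‖ < 1)
    have hdF : deriv F z = 2 * ρ * (1 + ρ * z) * H z + (1 + ρ * z) ^ 2 * deriv H z := by
      have h1 : HasDerivAt (fun z : ℂ => 1 + (ρ : ℂ) * z) (ρ : ℂ) z := by
        have := ((hasDerivAt_id z).const_mul (ρ : ℂ)).const_add 1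
        simpa using this
      have h2 := (h1.pow 2).mul (hHd z).hasDerivAt
      have h3 := h2.deriv
      have h4 : deriv F z = deriv (((fun z : ℂ => 1 + (ρ : ℂ) * z) ^ 2) * H) z := rfl
      rw [h4, h3]
      simp only [Nat.cast_ofNat, Nat.reduceSub, pow_one, Pi.pow_apply]
      ring
    have e1 : z * Pk ρ z * deriv F z = pe yc (N + 2) z := by
      have hPk : Pk ρ z = (1 - ρ * z) / (1 + ρ * z) := by
        unfold Pk
        rw [div_sub_one hne]
        congr 1
        ring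
      have h5 : 2 * (ρ : ℂ) * (1 + ρ * z) * H z + (1 + ρ * z) ^ 2 * deriv H z =
          (1 + ρ * z) * ((1 + ρ * z) * deriv H z + 2 * ρ * H z) := by ring
      have h6 : z * ((1 - (ρ : ℂ) * z) / (1 + ρ * z)) *
          ((1 + ρ * z) * ((1 + ρ * z) * deriv H z + 2 * ρ * H z)) =
          z * (1 - (ρ : ℂ) * z) * ((1 + ρ * z) * deriv H z + 2 * ρ * H z) *
            ((1 + ρ * z) / (1 + ρ * z)) := by ring
      rw [← hYy, hdF, hPk, h5, h6, div_self hne, mul_one]
    unfold Lfo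
    have hxx : ∑ k ∈ Finset.range (N + 2), xc k * z ^ k = F z := (hFx z).symm
    rw [e1, hxx, ← hFx z, ← hHh z]
    have e2 : (Gk ρ z).re * ‖F z‖ ^ 2 = 2 * ((starRingEnd ℂ) (F z) * H z).re - ‖F z‖ ^ 2 := by
      have h1 : Gk ρ z * (F z * (starRingEnd ℂ) (F z)) =
          2 * ((starRingEnd ℂ) (F z) * H z) - F z * (starRingEnd ℂ) (F z) := by
        unfold Gk
        simp only [hF]
        field_simp
      have h2 : F z * (starRingEnd ℂ) (F z) = ((‖F z‖ ^ 2 : ℝ) : ℂ) := by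
        rw [Complex.mul_conj, Complex.normSq_eq_norm_sq]
      rw [h2] at h1
      have h3 := congrArg Complex.re h1
      rw [Complex.re_mul_ofReal, Complex.sub_re, Complex.ofReal_re] at h3
      rw [h3]
      simp
    have e3 : p * (Gk ρ z).re * ‖F z‖ ^ 2 = p * ((Gk ρ z).re * ‖F z‖ ^ 2) := by ring
    rw [e3, e2]
    ring
  have c1 : Continuous (fun z => ((starRingEnd ℂ) (pe xc (N + 2) z) * pe yc (N + 2) z).re) :=
    Complex.continuous_re.comp ((Complex.continuous_conj.comp (pe_continuous _ _)).mul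
      (pe_continuous _ _))
  have c2 : Continuous (fun z => ((starRingEnd ℂ) (pe xc (N + 2) z) * pe hc (N + 2) z).re) :=
    Complex.continuous_re.comp ((Complex.continuous_conj.comp (pe_continuous _ _)).mul
      (pe_continuous _ _))
  have c3 : Continuous (fun z => ‖∑ k ∈ Finset.range (N + 2), xc k * z ^ k‖ ^ 2) := by fun_prop
  have havg : circleAverage (Lfo p ρ F) 0 R =
      2 * ∑ k ∈ Finset.range (N + 2), ((starRingEnd ℂ) (xc k) * yc k).re * (R ^ 2) ^ k +
        (2 * p * ∑ k ∈ Finset.range (N + 2), ((starRingEnd ℂ) (xc k) * hc k).re * (R ^ 2) ^ k -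
          p * ∑ k ∈ Finset.range (N + 2), ‖xc k‖ ^ 2 * (R ^ 2) ^ k) := by
    have i1 : CircleIntegrable (fun z => 2 * ((starRingEnd ℂ) (pe xc (N + 2) z) *
        pe yc (N + 2) z).re) 0 R := (continuous_const.mul c1).continuousOn.circleIntegrable hR.le
    have i2 : CircleIntegrable (fun z => 2 * p * ((starRingEnd ℂ) (pe xc (N + 2) z) *
        pe hc (N + 2) z).re) 0 R := (continuous_const.mul c2).continuousOn.circleIntegrable hR.le
    have i3 : CircleIntegrable (fun z => p * ‖∑ k ∈ Finset.range (N + 2), xc k * z ^ k‖ ^ 2) 0 R :=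
      (continuous_const.mul c3).continuousOn.circleIntegrable hR.le
    have i23 : CircleIntegrable (fun z => 2 * p * ((starRingEnd ℂ) (pe xc (N + 2) z) *
        pe hc (N + 2) z).re - p * ‖∑ k ∈ Finset.range (N + 2), xc k * z ^ k‖ ^ 2) 0 R :=
      i2.sub i3
    have hcm : ∀ (f : ℂ → ℝ) (a : ℝ), circleAverage (fun ζ => a * f ζ) 0 R =
        a * circleAverage f 0 R := by
      intro f a
      have := circleAverage_fun_smul (a := a) (f := f) (c := 0) (R := R)
      simpa only [smul_eq_mul] using this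
    have h1 : circleAverage (Lfo p ρ F) 0 R = circleAverage (fun z =>
      2 * ((starRingEnd ℂ) (pe xc (N + 2) z) * pe yc (N + 2) z).re +
        (2 * p * ((starRingEnd ℂ) (pe xc (N + 2) z) * pe hc (N + 2) z).re -
          p * ‖∑ k ∈ Finset.range (N + 2), xc k * z ^ k‖ ^ 2)) 0 R := by
      refine circleAverage_congr_sphere ?_
      intro z hz
      rw [abs_of_pos hR] at hz
      exact hint z hz
    rw [h1, circleAverage_fun_add i1 i23, circleAverage_fun_sub i2 i3, hcm, hcm, hcm,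
      avg_re_mul _ _ _ hR.le, avg_re_mul _ _ _ hR.le, circleAverage_poly]
  rw [havg] at hfo
  -- back to real sequences
  have hxv : ∀ k, xc k = ((xr V b k / R ^ k : ℝ) : ℂ) := by
    intro k
    rcases k with _ | _ | k
    · simp [hxc, hhc, shf, xr]
    · simp only [hxc, hhc, shf, xr, hV]
      push_cast
      field_simp
      ring
    · simp only [hxc, hhc, shf, xr, hV]
      push_cast
      field_simp
      ring
  have hyv : ∀ k, yc k = ((yr V b k / R ^ k : ℝ) : ℂ) := by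
    intro k
    rcases k with _ | _ | k
    · simp [hyc, hhc, hnc, shf, yr]
    · simp only [hyc, hhc, hnc, shf, yr, hV]
      push_cast
      field_simp
      ring
    · simp only [hyc, hhc, hnc, shf, yr, hV]
      push_cast
      field_simp
      ring
  have hhv : ∀ k, hc k = ((b k / R ^ k : ℝ) : ℂ) := by
    intro k
    simp only [hhc]
    push_cast
    rfl
  have hRk : ∀ k : ℕ, (R ^ 2) ^ k = R ^ k * R ^ k := by
    intro k
    rw [← pow_mul, ← pow_add]
    congr 1
    ring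
  have t1 : ∑ k ∈ Finset.range (N + 2), ((starRingEnd ℂ) (xc k) * yc k).re * (R ^ 2) ^ k =
      ∑ k ∈ Finset.range (N + 2), xr V b k * yr V b k := by
    refine Finset.sum_congr rfl fun k _ => ?_
    rw [hxv, hyv, Complex.conj_ofReal, ← Complex.ofReal_mul, Complex.ofReal_re, hRk]
    field_simp
  have t2 : ∑ k ∈ Finset.range (N + 2), ((starRingEnd ℂ) (xc k) * hc k).re * (R ^ 2) ^ k =
      ∑ k ∈ Finset.range (N + 2), xr V b k * b k := by
    refine Finset.sum_congr rfl fun k _ => ?_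
    rw [hxv, hhv, Complex.conj_ofReal, ← Complex.ofReal_mul, Complex.ofReal_re, hRk]
    field_simp
  have t3 : ∑ k ∈ Finset.range (N + 2), ‖xc k‖ ^ 2 * (R ^ 2) ^ k =
      ∑ k ∈ Finset.range (N + 2), xr V b k ^ 2 := by
    refine Finset.sum_congr rfl fun k _ => ?_
    rw [hxv, Complex.norm_real, Real.norm_eq_abs, sq_abs, hRk]
    field_simp
  rw [t1, t2, t3] at hfo
  linarith

end Pool.Agent.LibMP140d1b
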