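import Mathlib
import Pool.Agent.Lib_MP_140d1b_an.AsyNecess

/-!
Evaluation of the quadratic forms in the first-order condition.
-/

namespace Pool.Agent.LibMP140d1b

open Filter Topology

lemma shf_sum (w f : ℕ → ℝ) (M : ℕ) (hf : f M = 0) :
    ∑ k ∈ Finset.range (M + 1), w k * shf f k = ∑ k ∈ Finset.range (M + 1), w (k + 1) * f k := by
  rw [Finset.sum_range_succ', Finset.sum_range_succ, hf]
  simp [shf]

lemma shf_sq (b : ℕ → ℝ) (k : ℕ) : shf b k ^ 2 = shf (fun j => b j ^ 2) k := by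
  cases k <;> simp [shf]

lemma shf_mul (b : ℕ → ℝ) (k : ℕ) :
    shf b k * shf (shf b) k = shf (fun j => b j * shf b j) k := by
  cases k <;> simp [shf]

lemma seq_bounds (b : ℕ → ℝ) (N : ℕ) (hb : ∀ j, N ≤ j → b j = 0) {V : ℝ} (hV0 : 0 ≤ V)
    (hV1 : V ≤ 1 / 2) :
    ∑ k ∈ Finset.range (N + 2), xr V b k * yr V b k ≤
      (1 + V) ^ 3 * (1 - V) * ∑ k ∈ Finset.range (N + 2), (k : ℝ) * b k ^ 2 +
        3 * ∑ k ∈ Finset.range (N + 2), b k ^ 2 ∧
    2 * ∑ k ∈ Finset.range (N + 2), xr V b k * b k - ∑ k ∈ Finset.range (N + 2), xr V b k ^ 2 =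
      -((1 + V) ^ 2 * (V ^ 2 + 2 * V - 1)) * ∑ k ∈ Finset.range (N + 2), b k ^ 2 +
        2 * V ^ 3 * ∑ k ∈ Finset.range (N + 2), (b k - shf b k) ^ 2 := by
  have hbN1 : b (N + 1) = 0 := hb _ (by omega)
  have hbN : b N = 0 := hb _ le_rfl
  obtain ⟨B, hB⟩ : ∃ B, B = ∑ k ∈ Finset.range (N + 2), b k ^ 2 := ⟨_, rfl⟩
  obtain ⟨X, hX⟩ : ∃ X, X = ∑ k ∈ Finset.range (N + 2), (k : ℝ) * b k ^ 2 := ⟨_, rfl⟩
  obtain ⟨C, hC⟩ : ∃ C, C = ∑ k ∈ Finset.range (N + 2), b k * shf b k := ⟨_, rfl⟩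
  obtain ⟨D, hD⟩ : ∃ D, D = ∑ k ∈ Finset.range (N + 2), (k : ℝ) * (b k * shf b k) := ⟨_, rfl⟩
  have S1 : ∑ k ∈ Finset.range (N + 2), shf b k ^ 2 = B := by
    have h := shf_sum (fun _ => 1) (fun j => b j ^ 2) (N + 1) (by rw [hbN1]; ring)
    simp only [one_mul, ← shf_sq] at h
    rw [hB]
    exact h
  have S1k : ∑ k ∈ Finset.range (N + 2), (k : ℝ) * shf b k ^ 2 = X + B := by
    have h := shf_sum (fun k => (k : ℝ)) (fun j => b j ^ 2) (N + 1) (by rw [hbN1]; ring)
    simp only [← shf_sq] at h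
    rw [h, hB, hX, ← Finset.sum_add_distrib]
    refine Finset.sum_congr rfl fun k _ => ?_
    push_cast
    ring
  have S2 : ∑ k ∈ Finset.range (N + 2), shf (shf b) k ^ 2 = B := by
    have h := shf_sum (fun _ => 1) (fun j => shf b j ^ 2) (N + 1) (by
      simp [shf, hbN])
    simp only [one_mul, ← shf_sq] at h
    rw [← S1]
    exact h
  have S5 : ∑ k ∈ Finset.range (N + 2), (k : ℝ) * shf (shf b) k ^ 2 = X + 2 * B := by
    have h := shf_sum (fun k => (k : ℝ)) (fun j => shf b j ^ 2) (N + 1) (by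
      simp [shf, hbN])
    simp only [← shf_sq] at h
    have h2 : ∑ k ∈ Finset.range (N + 2), ((k + 1 : ℕ) : ℝ) * shf b k ^ 2 =
        ∑ k ∈ Finset.range (N + 2), (k : ℝ) * shf b k ^ 2 +
          ∑ k ∈ Finset.range (N + 2), shf b k ^ 2 := by
      rw [← Finset.sum_add_distrib]
      refine Finset.sum_congr rfl fun k _ => ?_
      push_cast
      ring
    rw [h, h2, S1k, S1]
    ring
  have S3 : ∑ k ∈ Finset.range (N + 2), shf b k * shf (shf b) k = C := by
    have h := shf_sum (fun _ => 1) (fun j => b j * shf b j) (N + 1) (by rw [hbN1]; ring)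
    simp only [one_mul, ← shf_mul] at h
    rw [hC]
    exact h
  have S4 : ∑ k ∈ Finset.range (N + 2), ((k : ℝ) - 1) * (shf b k * shf (shf b) k) = D := by
    have h := shf_sum (fun k => (k : ℝ) - 1) (fun j => b j * shf b j) (N + 1) (by
      rw [hbN1]; ring)
    simp only [← shf_mul] at h
    rw [h, hD]
    refine Finset.sum_congr rfl fun k _ => ?_
    push_cast
    ring
  have hB0 : 0 ≤ B := by rw [hB]; exact Finset.sum_nonneg fun k _ => by positivity
  have hX0 : 0 ≤ X := by rw [hX]; exact Finset.sum_nonneg fun k _ => by positivity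
  have hCB : C ≤ B := by
    have h1 : C ≤ ∑ k ∈ Finset.range (N + 2), ((1 / 2) * b k ^ 2 + (1 / 2) * shf b k ^ 2) := by
      rw [hC]
      refine Finset.sum_le_sum fun k _ => ?_
      nlinarith [sq_nonneg (b k - shf b k)]
    rw [Finset.sum_add_distrib, ← Finset.mul_sum, ← Finset.mul_sum, S1, ← hB] at h1
    linarith
  have hDB : D ≤ X + B / 2 := by
    have h1 : D ≤ ∑ k ∈ Finset.range (N + 2), ((1 / 2) * ((k : ℝ) * b k ^ 2) +
        (1 / 2) * ((k : ℝ) * shf b k ^ 2)) := by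
      rw [hD]
      refine Finset.sum_le_sum fun k _ => ?_
      have hk : (0 : ℝ) ≤ k := Nat.cast_nonneg k
      have h2 := mul_nonneg hk (sq_nonneg (b k - shf b k))
      nlinarith
    rw [Finset.sum_add_distrib, ← Finset.mul_sum, ← Finset.mul_sum, S1k, ← hX] at h1
    linarith
  constructor
  · have e1 : ∑ k ∈ Finset.range (N + 2), xr V b k * yr V b k =
        X + 2 * V * (D + C) + 4 * V ^ 2 * B - 2 * V ^ 3 * D - V ^ 4 * (X + 2 * B) := by
      have h1 : ∀ k ∈ Finset.range (N + 2), xr V b k * yr V b k =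
          ((((k : ℝ) * b k ^ 2 + 2 * V * ((k : ℝ) * (b k * shf b k))) +
            2 * V * (b k * shf b k)) + 4 * V ^ 2 * shf b k ^ 2) +
            ((-(2 * V ^ 3)) * (((k : ℝ) - 1) * (shf b k * shf (shf b) k)) +
            (-V ^ 4) * ((k : ℝ) * shf (shf b) k ^ 2)) := by
        intro k _
        unfold xr yr
        ring
      rw [Finset.sum_congr rfl h1, Finset.sum_add_distrib, Finset.sum_add_distrib,
        Finset.sum_add_distrib, Finset.sum_add_distrib, Finset.sum_add_distrib, ← Finset.mul_sum,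
        ← Finset.mul_sum, ← Finset.mul_sum, ← Finset.mul_sum, ← Finset.mul_sum, S1, S4, S5, ← hX,
        ← hD, ← hC]
      ring
    rw [e1, ← hX, ← hB]
    have h2 : 0 ≤ 2 * V - 2 * V ^ 3 := by nlinarith
    have h3 := mul_le_mul_of_nonneg_left hDB h2
    have h4 : 2 * V * C ≤ 2 * V * B := mul_le_mul_of_nonneg_left hCB (by linarith)
    have h5 : (V - V ^ 3 + 2 * V + 4 * V ^ 2 - 2 * V ^ 4) * B ≤ 3 * B := by
      refine mul_le_mul_of_nonneg_right ?_ hB0
      nlinarith [pow_nonneg hV0 3, pow_nonneg hV0 4]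
    have e2 : (1 + V) ^ 3 * (1 - V) * X = X - V ^ 4 * X + (2 * V - 2 * V ^ 3) * X := by ring
    rw [e2]
    nlinarith
  · have e1 : ∑ k ∈ Finset.range (N + 2), xr V b k * b k = B + 2 * V * C + V ^ 2 *
        ∑ k ∈ Finset.range (N + 2), b k * shf (shf b) k := by
      have h1 : ∀ k ∈ Finset.range (N + 2), xr V b k * b k =
          (b k ^ 2 + 2 * V * (b k * shf b k)) + V ^ 2 * (b k * shf (shf b) k) := by
        intro k _
        unfold xr
        ring
      rw [Finset.sum_congr rfl h1, Finset.sum_add_distrib, Finset.sum_add_distrib,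
        ← Finset.mul_sum, ← Finset.mul_sum, ← hB, ← hC]
    have e2 : ∑ k ∈ Finset.range (N + 2), xr V b k ^ 2 = B + 4 * V ^ 2 * B + V ^ 4 * B +
        4 * V * C + 4 * V ^ 3 * C + 2 * V ^ 2 *
        ∑ k ∈ Finset.range (N + 2), b k * shf (shf b) k := by
      have h1 : ∀ k ∈ Finset.range (N + 2), xr V b k ^ 2 =
          ((((b k ^ 2 + 4 * V ^ 2 * shf b k ^ 2) + V ^ 4 * shf (shf b) k ^ 2) +
            4 * V * (b k * shf b k)) + 4 * V ^ 3 * (shf b k * shf (shf b) k)) +
            2 * V ^ 2 * (b k * shf (shf b) k) := by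
        intro k _
        unfold xr
        ring
      rw [Finset.sum_congr rfl h1, Finset.sum_add_distrib, Finset.sum_add_distrib,
        Finset.sum_add_distrib, Finset.sum_add_distrib, Finset.sum_add_distrib, ← Finset.mul_sum,
        ← Finset.mul_sum, ← Finset.mul_sum, ← Finset.mul_sum, ← Finset.mul_sum, S1, S2, S3, ← hB,
        ← hC]
    have e3 : ∑ k ∈ Finset.range (N + 2), (b k - shf b k) ^ 2 = 2 * B - 2 * C := by
      have h1 : ∀ k ∈ Finset.range (N + 2), (b k - shf b k) ^ 2 =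
          (b k ^ 2 + shf b k ^ 2) + (-2) * (b k * shf b k) := by
        intro k _
        ring
      rw [Finset.sum_congr rfl h1, Finset.sum_add_distrib, Finset.sum_add_distrib,
        ← Finset.mul_sum, S1, ← hB, ← hC]
      ring
    rw [e1, e2, e3, ← hB]
    ring

end Pool.Agent.LibMP140d1b
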