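import Mathlib
import Pool.Agent.Lib_MP_140d1b_an.AsyInterp
import Pool.Agent.Lib_MP_140d1b_an.AsySeq

/-!
Riemann sums for a Lipschitz test function.
-/

namespace Pool.Agent.LibMP140d1b

open MeasureTheory Set Filter Topology

lemma lip_ftc {u : ℝ → ℝ} (h : ∃ K : NNReal, LipschitzWith K u) (a b : ℝ) :
    ∫ x in a..b, deriv u x = u b - u a := by
  obtain ⟨K, hK⟩ := h
  exact (hK.lipschitzOnWith (s := uIcc a b)).absolutelyContinuousOnInterval.integral_deriv_eq_sub

lemma lip_deriv_integrable {u : ℝ → ℝ} (h : ∃ K : NNReal, LipschitzWith K u) (a b : ℝ) :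
    IntervalIntegrable (fun x => deriv u x) volume a b := by
  obtain ⟨K, hK⟩ := h
  have hm : Measurable (fun x => deriv u x) := measurable_deriv u
  refine (intervalIntegrable_const (c := (K : ℝ))).mono_fun hm.aestronglyMeasurable ?_
  refine Eventually.of_forall ?_
  intro x
  have h1 : ‖deriv u x‖ ≤ K := norm_deriv_le_of_lipschitz hK
  simp only [Real.norm_eq_abs] at h1 ⊢
  rw [abs_of_nonneg (NNReal.coe_nonneg K)]
  exact h1

lemma lip_cell {u : ℝ → ℝ} (h : ∃ K : NNReal, LipschitzWith K u) {a b : ℝ} (hab : a < b) :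
    (u b - u a) ^ 2 ≤ (b - a) * ∫ x in a..b, deriv u x ^ 2 := by
  obtain ⟨m, hm⟩ : ∃ m, m = (u b - u a) / (b - a) := ⟨_, rfl⟩
  have hba : 0 < b - a := by linarith
  have h0 : 0 ≤ ∫ x in a..b, (deriv u x - m) ^ 2 :=
    intervalIntegral.integral_nonneg hab.le fun x _ => sq_nonneg _
  have h1 : ∫ x in a..b, (deriv u x - m) ^ 2 =
      (∫ x in a..b, deriv u x ^ 2) - 2 * m * (u b - u a) + m ^ 2 * (b - a) := by
    have e : (fun x => (deriv u x - m) ^ 2) = fun x => (deriv u x ^ 2 - 2 * m * deriv u x) +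
        m ^ 2 := by
      funext x
      ring
    rw [e, intervalIntegral.integral_add
      ((lip_deriv_sq_integrable h a b).sub ((lip_deriv_integrable h a b).const_mul _))
      intervalIntegrable_const, intervalIntegral.integral_sub (lip_deriv_sq_integrable h a b)
      ((lip_deriv_integrable h a b).const_mul _), intervalIntegral.integral_const_mul,
      lip_ftc h a b, intervalIntegral.integral_const, smul_eq_mul]
    ring
  rw [h1] at h0
  have h2 : m * (b - a) = u b - u a := by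
    rw [hm]
    field_simp
  have h3 := mul_nonneg hba.le h0
  have h4 : (b - a) * ((∫ x in a..b, deriv u x ^ 2) - 2 * m * (u b - u a) + m ^ 2 * (b - a)) =
      (b - a) * (∫ x in a..b, deriv u x ^ 2) - 2 * (m * (b - a)) * (u b - u a) +
        (m * (b - a)) ^ 2 := by ring
  rw [h4, h2] at h3
  linarith

/-- The three Riemann sum estimates. -/
lemma riemann {u : ℝ → ℝ} (h1 : ∃ K : NNReal, LipschitzWith K u) (h2 : HasCompactSupport u)
    (h3 : u 0 = 0) :
    ∃ C : ℝ, 0 ≤ C ∧ ∀ s : ℝ, 0 < s → s ≤ 1 → ∃ N : ℕ,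
      (∀ j, N ≤ j → u ((j + 1) * s) = 0) ∧
      ∑ k ∈ Finset.range (N + 2), (u ((k + 1) * s) - shf (fun j : ℕ => u ((j + 1) * s)) k) ^ 2 ≤
        s * ∫ x in Ioi (0 : ℝ), deriv u x ^ 2 ∧
      s ^ 2 * ∑ k ∈ Finset.range (N + 2), (k : ℝ) * u ((k + 1) * s) ^ 2 ≤
        (∫ x in Ioi (0 : ℝ), x * u x ^ 2) + C * s ∧
      (∫ x in Ioi (0 : ℝ), u x ^ 2) - C * s ≤
        s * ∑ k ∈ Finset.range (N + 2), u ((k + 1) * s) ^ 2 := by
  obtain ⟨K, hK⟩ := h1
  have hcont : Continuous u := hK.continuous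
  obtain ⟨X, hX⟩ : ∃ X : ℝ, 0 ≤ X ∧ ∀ x, X ≤ x → u x = 0 := by
    obtain ⟨r, hr⟩ := h2.isCompact.isBounded.subset_closedBall 0
    refine ⟨max (r + 1) 0, le_max_right _ _, ?_⟩
    intro x hx
    by_contra hne
    have hm : x ∈ Metric.closedBall (0 : ℝ) r := hr (subset_tsupport u hne)
    rw [Metric.mem_closedBall, dist_zero_right, Real.norm_eq_abs] at hm
    have := le_abs_self x
    have := le_max_left (r + 1) 0
    linarith
  obtain ⟨M, hM⟩ : ∃ M : ℝ, ∀ x, |u x| ≤ M := by
    obtain ⟨M, hM⟩ := hcont.bounded_above_of_compact_support h2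
    exact ⟨M, hM⟩
  have hM0 : 0 ≤ M := (abs_nonneg _).trans (hM 0)
  obtain ⟨Y, hY⟩ : ∃ Y, Y = X + 4 := ⟨_, rfl⟩
  have hY0 : 0 ≤ Y := by rw [hY]; linarith [hX.1]
  obtain ⟨E, hE⟩ : ∃ E, E = 2 * K * M := ⟨_, rfl⟩
  have hE0 : 0 ≤ E := by rw [hE]; positivity
  refine ⟨E * Y ^ 2 + E * Y, by positivity, ?_⟩
  intro s hs hs1
  obtain ⟨N, hN⟩ : ∃ N, N = ⌈X / s⌉₊ := ⟨_, rfl⟩
  have hNs : X ≤ N * s := by
    have := Nat.le_ceil (X / s)
    rw [← hN, div_le_iff₀ hs] at this
    exact this
  have hNs2 : (N + 2) * s ≤ Y := by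
    have h4 : (N : ℝ) < X / s + 1 := by
      rw [hN]
      exact Nat.ceil_lt_add_one (div_nonneg hX.1 hs.le)
    have h5 : (N : ℝ) * s < X + s := by
      have := mul_lt_mul_of_pos_right h4 hs
      rwa [add_mul, div_mul_cancel₀ _ hs.ne', one_mul] at this
    rw [hY]
    nlinarith
  have hvan : ∀ x, ((N + 2 : ℕ) : ℝ) * s < x → u x = 0 := by
    intro x hx
    refine hX.2 x ?_
    push_cast at hx
    nlinarith
  have hvand : ∀ x, ((N + 2 : ℕ) : ℝ) * s < x → deriv u x = 0 := by
    intro x hx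
    have h1 : u =ᶠ[𝓝 x] fun _ => 0 := by
      filter_upwards [Ioi_mem_nhds hx] with y hy
      exact hvan y hy
    rw [h1.deriv_eq]
    simp
  have hK' : ∀ x y, |u x - u y| ≤ K * |x - y| := by
    intro x y
    have := hK.dist_le_mul x y
    rwa [Real.dist_eq, Real.dist_eq] at this
  -- pointwise comparison on a cell
  have hpt : ∀ k : ℕ, ∀ x ∈ Icc (k * s) ((k + 1) * s), |u ((k + 1) * s) ^ 2 - u x ^ 2| ≤ E * s := by
    intro k x hx
    have e1 : u ((k + 1) * s) ^ 2 - u x ^ 2 = (u ((k + 1) * s) - u x) * (u ((k + 1) * s) + u x) := by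
      ring
    rw [e1, abs_mul]
    have h4 : |u ((k + 1) * s) - u x| ≤ K * s := by
      refine (hK' _ _).trans (mul_le_mul_of_nonneg_left ?_ (NNReal.coe_nonneg K))
      rw [abs_of_nonneg (by linarith [hx.2])]
      nlinarith [hx.1]
    have h5 : |u ((k + 1) * s) + u x| ≤ 2 * M := by
      refine (abs_add_le _ _).trans ?_
      linarith [hM ((k + 1) * s), hM x]
    have h6 := mul_le_mul h4 h5 (abs_nonneg _) (by positivity)
    rw [hE]
    nlinarith
  have hic : ∀ {f : ℝ → ℝ}, Continuous f → ∀ a b, IntervalIntegrable f volume a b :=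
    fun hf a b => hf.intervalIntegrable a b
  have hks : ∀ k : ℕ, (k : ℝ) * s ≤ (k + 1) * s := fun k => by nlinarith
  have hconst : ∀ (k : ℕ) (c : ℝ), ∫ _x in (k * s)..((k + 1) * s), c = s * c := by
    intro k c
    rw [intervalIntegral.integral_const, smul_eq_mul]
    ring
  refine ⟨N, ?_, ?_, ?_, ?_⟩
  · intro j hj
    refine hX.2 _ ?_
    have : (N : ℝ) ≤ j := by exact_mod_cast hj
    nlinarith
  · have e1 : ∫ x in Ioi (0 : ℝ), deriv u x ^ 2 =
        ∑ n ∈ Finset.range (N + 2), ∫ x in (n * s)..((n + 1) * s), deriv u x ^ 2 := by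
      refine split_cells (fun x => deriv u x ^ 2) hs (N + 2) ?_
        (fun a b => lip_deriv_sq_integrable ⟨K, hK⟩ a b)
      intro x hx
      rw [hvand x hx]
      ring
    rw [e1, Finset.mul_sum]
    refine Finset.sum_le_sum fun k _ => ?_
    have h4 : shf (fun j : ℕ => u ((j + 1) * s)) k = u (k * s) := by
      cases k with
      | zero => simp [shf, h3]
      | succ k => simp [shf]
    rw [h4]
    have h5 := lip_cell (u := u) ⟨K, hK⟩ (a := k * s) (b := (k + 1) * s) (by nlinarith)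
    have h6 : ((k : ℝ) + 1) * s - k * s = s := by ring
    rwa [h6] at h5
  · have e1 : ∫ x in Ioi (0 : ℝ), x * u x ^ 2 =
        ∑ n ∈ Finset.range (N + 2), ∫ x in (n * s)..((n + 1) * s), x * u x ^ 2 := by
      refine split_cells (fun x => x * u x ^ 2) hs (N + 2) ?_
        (hic (by fun_prop))
      intro x hx
      rw [hvan x hx]
      ring
    have h4 : ∀ k ∈ Finset.range (N + 2), s ^ 2 * ((k : ℝ) * u ((k + 1) * s) ^ 2) ≤
        (∫ x in (k * s)..((k + 1) * s), x * u x ^ 2) + E * s * Y * s := by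
      intro k hk
      have hk' : (k : ℝ) + 1 ≤ N + 2 := by
        have := Finset.mem_range.mp hk
        have h5 : k + 1 ≤ N + 2 := this
        exact_mod_cast h5
      have h5 : ∫ _x in (k * s)..((k + 1) * s), (k * s * u ((k + 1) * s) ^ 2 : ℝ) ≤
          ∫ x in (k * s)..((k + 1) * s), (x * u x ^ 2 + E * s * Y) := by
        refine intervalIntegral.integral_mono_on (hks k) intervalIntegrable_const
          (hic (by fun_prop) _ _) ?_
        intro x hx
        have h6 := (abs_le.mp (hpt k x hx)).2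
        have hx0 : 0 ≤ x := le_trans (by positivity) hx.1
        have hxY : x ≤ Y := hx.2.trans ((mul_le_mul_of_nonneg_right hk' hs.le).trans hNs2)
        have h7 : (k : ℝ) * s * u ((k + 1) * s) ^ 2 ≤ x * u ((k + 1) * s) ^ 2 :=
          mul_le_mul_of_nonneg_right hx.1 (sq_nonneg _)
        have h8 : x * u ((k + 1) * s) ^ 2 ≤ x * (u x ^ 2 + E * s) :=
          mul_le_mul_of_nonneg_left (by linarith) hx0
        have h9 : x * (E * s) ≤ Y * (E * s) := mul_le_mul_of_nonneg_right hxY (by positivity)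
        nlinarith
      rw [hconst, intervalIntegral.integral_add (hic (by fun_prop) _ _) intervalIntegrable_const,
        hconst] at h5
      nlinarith
    rw [Finset.mul_sum]
    have h5 := Finset.sum_le_sum h4
    rw [Finset.sum_add_distrib, ← e1, Finset.sum_const, Finset.card_range, nsmul_eq_mul] at h5
    push_cast at h5
    have h6 : ((N : ℝ) + 2) * (E * s * Y * s) = ((N + 2) * s) * (E * Y * s) := by ring
    rw [h6] at h5
    have h7 : ((N + 2) * s) * (E * Y * s) ≤ Y * (E * Y * s) :=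
      mul_le_mul_of_nonneg_right hNs2 (by positivity)
    have h8 : 0 ≤ E * Y * s := by positivity
    nlinarith
  · have e1 : ∫ x in Ioi (0 : ℝ), u x ^ 2 =
        ∑ n ∈ Finset.range (N + 2), ∫ x in (n * s)..((n + 1) * s), u x ^ 2 := by
      refine split_cells (fun x => u x ^ 2) hs (N + 2) ?_
        (hic (by fun_prop))
      intro x hx
      rw [hvan x hx]
      ring
    have h4 : ∀ k ∈ Finset.range (N + 2), (∫ x in (k * s)..((k + 1) * s), u x ^ 2) ≤
        s * u ((k + 1) * s) ^ 2 + E * s * s := by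
      intro k hk
      have h5 : ∫ x in (k * s)..((k + 1) * s), u x ^ 2 ≤
          ∫ _x in (k * s)..((k + 1) * s), (u ((k + 1) * s) ^ 2 + E * s) := by
        refine intervalIntegral.integral_mono_on (hks k) (hic (by fun_prop) _ _)
          intervalIntegrable_const ?_
        intro x hx
        have h6 := (abs_le.mp (hpt k x hx)).1
        linarith
      rw [hconst] at h5
      nlinarith
    rw [Finset.mul_sum]
    have h5 := Finset.sum_le_sum h4
    rw [Finset.sum_add_distrib, ← e1, Finset.sum_const, Finset.card_range, nsmul_eq_mul] at h5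
    push_cast at h5
    have h6 : ((N : ℝ) + 2) * (E * s * s) = ((N + 2) * s) * (E * s) := by ring
    rw [h6] at h5
    have h7 : ((N + 2) * s) * (E * s) ≤ Y * (E * s) :=
      mul_le_mul_of_nonneg_right hNs2 (by positivity)
    have h8 : 0 ≤ E * Y ^ 2 * s := by positivity
    nlinarith

end Pool.Agent.LibMP140d1b
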