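import Mathlib
import Pool.Agent.Lib_MP_140d1b_an.AsyRiemann

/-!
The upper bound of the asymptotics.
-/

namespace Pool.Agent.LibMP140d1b

open MeasureTheory Set Filter Topology

lemma radius_le_of_not_good {p R : ℝ} (hp : 0 < p) (hR : 0 < R) (h : ¬ GoodAt p R) :
    subordinationRadius p ≤ R := by
  by_contra hcon
  push Not at hcon
  rcases (admissibleRadii p).eq_empty_or_nonempty with h0 | h0
  · unfold subordinationRadius at hcon
    rw [h0, Real.sSup_empty] at hcon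
    linarith
  · obtain ⟨ρ, hρ, hRρ⟩ := exists_lt_of_lt_csSup h0 hcon
    exact h (goodAt_of_mem hp hρ hR hRρ)

/-- The scaled first-order inequality. -/
lemma scaled_ineq {C s k σ p V E0 E1 E2 Sx S0 S1 m : ℝ}
    (hs : s = σ * k) (hσ : 0 < σ) (hk : 0 < k) (hpk : p * k ^ 3 = 1)
    (hV0 : 0 ≤ V) (hV1 : V ≤ 1 / 2)
    (hfo : 0 ≤ 2 * ((1 + V) ^ 3 * (1 - V) * Sx + 3 * S0) +
      p * (-((1 + V) ^ 2 * (V ^ 2 + 2 * V - 1)) * S0 + 2 * V ^ 3 * S1))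
    (h1 : S1 ≤ s * E1) (h2 : s ^ 2 * Sx ≤ E2 + C * s) (h0 : E0 - C * s ≤ s * S0)
    (hm : (1 + V) ^ 2 * (V ^ 2 + 2 * V - 1) = k ^ 2 * m) (hm0 : 0 ≤ m - 6 * k) :
    (m - 6 * k) * (E0 - C * s) ≤ 2 * ((1 + V) ^ 3 * (1 - V)) * (E2 + C * s) / σ +
      2 * V ^ 3 * σ ^ 2 * E1 := by
  rw [hm] at hfo
  have hs0 : 0 < s := by rw [hs]; positivity
  -- multiply by k³ s
  have e1 : (2 * ((1 + V) ^ 3 * (1 - V) * Sx + 3 * S0) +
      p * (-(k ^ 2 * m) * S0 + 2 * V ^ 3 * S1)) * (k ^ 3 * s) =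
      k ^ 2 * (2 * ((1 + V) ^ 3 * (1 - V)) * (s ^ 2 * Sx) / σ + 2 * V ^ 3 * σ * (S1 / k) * (p * k ^ 3) * 1
        - (m * (p * k ^ 3) - 6 * k) * (s * S0)) := by
    rw [hs]
    field_simp
    ring
  have e2 := mul_nonneg hfo (by positivity : 0 ≤ k ^ 3 * s)
  rw [e1, hpk] at e2
  have e3 : 0 ≤ 2 * ((1 + V) ^ 3 * (1 - V)) * (s ^ 2 * Sx) / σ + 2 * V ^ 3 * σ * (S1 / k) * 1 * 1
        - (m * 1 - 6 * k) * (s * S0) := by
    by_contra hcon
    push Not at hcon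
    have := mul_neg_of_pos_of_neg (by positivity : 0 < k ^ 2) hcon
    linarith
  have e4 : (m - 6 * k) * (E0 - C * s) ≤ (m * 1 - 6 * k) * (s * S0) := by
    rw [mul_one]
    exact mul_le_mul_of_nonneg_left h0 hm0
  have e5 : 2 * ((1 + V) ^ 3 * (1 - V)) * (s ^ 2 * Sx) / σ ≤
      2 * ((1 + V) ^ 3 * (1 - V)) * (E2 + C * s) / σ := by
    refine div_le_div_of_nonneg_right ?_ hσ.le
    refine mul_le_mul_of_nonneg_left h2 ?_
    have : 0 ≤ 1 - V := by linarith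
    positivity
  have e6 : 2 * V ^ 3 * σ * (S1 / k) * 1 * 1 ≤ 2 * V ^ 3 * σ ^ 2 * E1 := by
    have h3 : S1 / k ≤ σ * E1 := by
      rw [div_le_iff₀ hk]
      rw [hs] at h1
      linarith
    have h4 := mul_le_mul_of_nonneg_left h3 (by positivity : 0 ≤ 2 * V ^ 3 * σ)
    have h5 : 2 * V ^ 3 * σ * (σ * E1) = 2 * V ^ 3 * σ ^ 2 * E1 := by ring
    rw [h5] at h4
    linarith
  linarith

lemma asy_upper_k {u : ℝ → ℝ} (hu : AiryTest u) {c σ : ℝ} (hc : 0 < c) (hσ : 0 < σ)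
    (hcσ : 8 * (√2 - 1) / σ * (∫ x in Ioi (0 : ℝ), x * u x ^ 2) +
      2 * (√2 - 1) ^ 3 * σ ^ 2 * (∫ x in Ioi (0 : ℝ), deriv u x ^ 2) <
      4 * √2 * c * ∫ x in Ioi (0 : ℝ), u x ^ 2) :
    ∀ᶠ k : ℝ in 𝓝[>] 0, ∀ p : ℝ, p * k ^ 3 = 1 →
      subordinationRadius p ≤ √2 - 1 + c * k ^ 2 := by
  have hs2 : (√2) ^ 2 = 2 := Real.sq_sqrt (by norm_num)
  have hs1 : 1.4142 < √2 := by
    rw [Real.lt_sqrt (by norm_num)]
    norm_num
  have hs3 : √2 < 1.4143 := by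
    rw [Real.sqrt_lt' (by norm_num)]
    norm_num
  set s2 := √2 with hs2d
  obtain ⟨hlip, hsupp, hu0, hpos⟩ := hu
  obtain ⟨C, hC0, hC⟩ := riemann hlip hsupp hu0
  obtain ⟨E0, hE0⟩ : ∃ E0, E0 = ∫ x in Ioi (0 : ℝ), u x ^ 2 := ⟨_, rfl⟩
  obtain ⟨E1, hE1⟩ : ∃ E1, E1 = ∫ x in Ioi (0 : ℝ), deriv u x ^ 2 := ⟨_, rfl⟩
  obtain ⟨E2, hE2⟩ : ∃ E2, E2 = ∫ x in Ioi (0 : ℝ), x * u x ^ 2 := ⟨_, rfl⟩
  rw [← hE0, ← hE1, ← hE2] at hcσ hC
  set Rf : ℝ → ℝ := fun k => s2 - 1 + c * k ^ 2 with hRf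
  set Vf : ℝ → ℝ := fun k => (1 - k ^ 3) * Rf k with hVf
  set mf : ℝ → ℝ := fun k => (1 + Vf k) ^ 2 * ((c - k * Rf k) * (Vf k + s2 + 1)) with hmf
  have cR : Continuous Rf := by fun_prop
  have cV : Continuous Vf := by fun_prop
  have cm : Continuous mf := by fun_prop
  have hR0 : Rf 0 = s2 - 1 := by simp [hRf]
  have hV0 : Vf 0 = s2 - 1 := by simp [hVf, hR0]
  have hm0 : mf 0 = 4 * s2 * c := by
    simp only [hmf]
    rw [hV0]
    have : (1 + (s2 - 1)) ^ 2 = 2 := by rw [← hs2]; ring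
    rw [this]
    ring
  have ev1 : ∀ᶠ k : ℝ in 𝓝 0, k < 1 := by
    refine continuousAt_id.tendsto.eventually_lt continuousAt_const.tendsto ?_
    simp
  have ev2 : ∀ᶠ k : ℝ in 𝓝 0, σ * k < 1 := by
    refine (by fun_prop : ContinuousAt (fun k : ℝ => σ * k) 0).tendsto.eventually_lt
      continuousAt_const.tendsto ?_
    simp
  have ev3 : ∀ᶠ k : ℝ in 𝓝 0, Rf k < 1 / 2 := by
    refine cR.continuousAt.tendsto.eventually_lt continuousAt_const.tendsto ?_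
    rw [hR0]
    linarith
  have ev4 : ∀ᶠ k : ℝ in 𝓝 0, 0 < mf k - 6 * k := by
    refine (continuousAt_const (y := (0 : ℝ))).tendsto.eventually_lt
      (by fun_prop : ContinuousAt (fun k : ℝ => mf k - 6 * k) 0).tendsto ?_
    rw [hm0]
    have : 0 < s2 := by linarith
    simp only [mul_zero, sub_zero]
    positivity
  have ev5 : ∀ᶠ k : ℝ in 𝓝 0, 2 * ((1 + Vf k) ^ 3 * (1 - Vf k)) * (E2 + C * (σ * k)) / σ +
      2 * Vf k ^ 3 * σ ^ 2 * E1 < (mf k - 6 * k) * (E0 - C * (σ * k)) := by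
    refine (by fun_prop : ContinuousAt (fun k : ℝ => 2 * ((1 + Vf k) ^ 3 * (1 - Vf k)) *
      (E2 + C * (σ * k)) / σ + 2 * Vf k ^ 3 * σ ^ 2 * E1) 0).tendsto.eventually_lt
      (by fun_prop : ContinuousAt (fun k : ℝ => (mf k - 6 * k) * (E0 - C * (σ * k))) 0).tendsto ?_
    rw [hm0, hV0]
    have h1 : (1 + (s2 - 1)) ^ 3 * (1 - (s2 - 1)) = 4 * (s2 - 1) := by
      have h2 : (1 + (s2 - 1)) ^ 3 * (1 - (s2 - 1)) = s2 ^ 2 * (s2 * 2 - s2 ^ 2) := by ring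
      rw [h2, hs2]
      ring
    rw [h1]
    simp only [mul_zero, sub_zero, add_zero]
    have h3 : 2 * (4 * (s2 - 1)) * E2 / σ = 8 * (s2 - 1) / σ * E2 := by ring
    rw [h3]
    exact hcσ
  have hall := (((ev1.and ev2).and ev3).and ev4).and ev5
  filter_upwards [hall.filter_mono nhdsWithin_le_nhds, self_mem_nhdsWithin] with k hk hk0 p hpk
  obtain ⟨⟨⟨⟨e1, e2⟩, e3⟩, e4⟩, e5⟩ := hk
  have hk0' : (0 : ℝ) < k := hk0
  have hk3 : k ^ 3 < 1 := pow_lt_one₀ hk0'.le e1 (by norm_num)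
  have hk30 : 0 < k ^ 3 := by positivity
  have hp1 : 1 ≤ p := by
    by_contra hcon
    push Not at hcon
    nlinarith
  have hRpos : 0 < Rf k := by
    have : 0 < c * k ^ 2 := by positivity
    simp only [hRf]
    linarith
  refine radius_le_of_not_good (by linarith) hRpos ?_
  intro hgood
  obtain ⟨N, hN0, hN1, hN2, hN3⟩ := hC (σ * k) (by positivity) e2.le
  have hfo := first_order_seq (p := p) (R := Rf k) (ρ := 1 - k ^ 3) hp1 hRpos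
    (by linarith) (by linarith) (by linarith) hgood (fun j : ℕ => u ((j + 1) * (σ * k))) N hN0
  have hVeq : (1 - k ^ 3) * Rf k = Vf k := rfl
  rw [hVeq] at hfo
  have hVf0 : 0 ≤ Vf k := mul_nonneg (by linarith) hRpos.le
  have hVf1 : Vf k ≤ 1 / 2 := by
    have : Vf k ≤ 1 * Rf k := mul_le_mul_of_nonneg_right (by linarith) hRpos.le
    linarith
  obtain ⟨b1, b2⟩ := seq_bounds (fun j : ℕ => u ((j + 1) * (σ * k))) N hN0 hVf0 hVf1
  rw [b2] at hfo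
  have hfo2 := hfo.trans (add_le_add_left (mul_le_mul_of_nonneg_left b1 (by norm_num : (0 : ℝ) ≤ 2))
    _)
  have hfin := scaled_ineq (C := C) (s := σ * k) (k := k) (σ := σ) (p := p)
    (V := Vf k) (E0 := E0) (E1 := E1) (E2 := E2) (m := mf k) rfl hσ hk0' hpk hVf0 hVf1 hfo2
    hN1 hN2 hN3 ?_ e4.le
  · linarith
  · have h1 : Vf k ^ 2 + 2 * Vf k - 1 = (Vf k - (s2 - 1)) * (Vf k + s2 + 1) := by
      linear_combination hs2
    have h2 : Vf k - (s2 - 1) = k ^ 2 * (c - k * Rf k) := by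
      simp only [hVf, hRf]
      ring
    rw [h1, h2]
    simp only [hmf]
    ring

end Pool.Agent.LibMP140d1b
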