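import Mathlib
import Pool.Agent.Lib_MP_140d1b_an.AsyLimit
import Pool.Agent.Lib_MP_140d1b_an.AsyUpper

/-!
The asymptotics of `r_p` in terms of the bottom of the Airy operator.
-/

namespace Pool.Agent.LibMP140d1b

open MeasureTheory Set Filter Topology

lemma exists_airyTest : ∃ u : ℝ → ℝ, AiryTest u := by
  obtain ⟨Y, hY⟩ : ∃ Y : ℕ → ℝ, Y = fun k => if k = 1 then 1 else 0 := ⟨_, rfl⟩
  have hYM : ∀ k, 1 < k → Y k = 0 := by
    intro k hk
    rw [hY]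
    simp only
    rw [if_neg (by omega)]
  have hY0 : Y 0 = 0 := by rw [hY]; simp
  have hY1 : Y 1 = 1 := by rw [hY]; simp
  have hY2 : Y 2 = 0 := hYM 2 (by norm_num)
  refine ⟨itp Y 1 1, itp_lip Y 1 one_pos, itp_support Y 1 one_pos,
    itp_zero Y 1 hYM one_pos hY0, ?_⟩
  have hlarge : ∀ x, ((1 + 1 : ℕ) : ℝ) * 1 < x → itp Y 1 1 x = 0 := by
    intro x hx
    refine itp_large Y 1 one_pos ?_
    push_cast at hx ⊢
    linarith
  rw [split_cells (fun x => itp Y 1 1 x ^ 2) one_pos 2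
      (fun x hx => by rw [hlarge x (by exact_mod_cast hx)]; ring)
      (fun a b => ((itp_continuous Y 1 one_pos).pow 2).intervalIntegrable a b)]
  rw [Finset.sum_range_succ, Finset.sum_range_succ, Finset.sum_range_zero,
    cell_sq Y 1 hYM one_pos 0, cell_sq Y 1 hYM one_pos 1]
  simp only [zero_add, Nat.reduceAdd, hY0, hY1, hY2]
  norm_num

/-- Near-optimal test functions. -/
lemma exists_test_lt {b : ℝ} (hb : airyBottom < b) : ∃ u : ℝ → ℝ, AiryTest u ∧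
    (∫ x in Ioi (0 : ℝ), deriv u x ^ 2) + (∫ x in Ioi (0 : ℝ), x * u x ^ 2) <
      b * ∫ x in Ioi (0 : ℝ), u x ^ 2 := by
  obtain ⟨u0, hu0⟩ := exists_airyTest
  unfold airyBottom at hb
  obtain ⟨E, ⟨u, hu, hE⟩, hEb⟩ := exists_lt_of_csInf_lt
    (⟨_, u0, hu0, rfl⟩ : Set.Nonempty {E : ℝ | ∃ u : ℝ → ℝ, AiryTest u ∧
    E = (∫ x in Ioi (0 : ℝ), (deriv u x ^ 2 + x * u x ^ 2)) / ∫ x in Ioi (0 : ℝ), u x ^ 2}) hb
  refine ⟨u, hu, ?_⟩
  obtain ⟨hlip, hsupp, hz, hpos⟩ := hu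
  rw [hE, div_lt_iff₀ hpos] at hEb
  have hcont : Continuous u := by
    obtain ⟨K, hK⟩ := hlip
    exact hK.continuous
  have i1 : IntegrableOn (fun x => x * u x ^ 2) (Ioi (0 : ℝ)) := by
    have hc : Continuous (fun x => x * u x ^ 2) := by fun_prop
    have hs : HasCompactSupport (fun x => x * u x ^ 2) := by
      have h1 : (fun x => x * u x ^ 2) = fun x => (x * u x) * u x := by
        funext x
        ring
      rw [h1]
      exact hsupp.mul_left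
    exact (hc.integrable_of_hasCompactSupport hs).integrableOn
  have i2 : IntegrableOn (fun x => deriv u x ^ 2) (Ioi (0 : ℝ)) := by
    obtain ⟨K, hK⟩ := hlip
    have hs : HasCompactSupport (deriv u) := hsupp.deriv
    have hm : Measurable (fun x => deriv u x ^ 2) := (measurable_deriv u).pow_const 2
    have hs2 : HasCompactSupport (fun x => deriv u x ^ 2) := by
      have h1 : (fun x => deriv u x ^ 2) = fun x => deriv u x * deriv u x := by
        funext x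
        ring
      rw [h1]
      exact hs.mul_left
    have hi : IntegrableOn (fun x => deriv u x ^ 2) (tsupport (fun x => deriv u x ^ 2)) := by
      refine Measure.integrableOn_of_bounded (M := (K : ℝ) ^ 2) hs2.isCompact.measure_lt_top.ne
        hm.aestronglyMeasurable ?_
      refine Eventually.of_forall ?_
      intro x
      have h1 : ‖deriv u x‖ ≤ K := norm_deriv_le_of_lipschitz hK
      rw [Real.norm_eq_abs] at h1 ⊢
      rw [abs_of_nonneg (sq_nonneg (deriv u x)), ← sq_abs]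
      exact pow_le_pow_left₀ (abs_nonneg _) h1 2
    exact ((integrableOn_iff_integrable_of_support_subset subset_closure).mp hi).integrableOn
  rw [← integral_add i2 i1]
  exact hEb

lemma tendsto_k : Tendsto (fun p : ℝ => p ^ (-(1 / 3) : ℝ)) atTop (𝓝[>] 0) := by
  refine tendsto_nhdsWithin_iff.mpr ⟨tendsto_rpow_neg_atTop (by norm_num), ?_⟩
  filter_upwards [eventually_gt_atTop 0] with p hp
  exact Real.rpow_pos_of_pos hp _

/-- Transfer from `k` to `p`. -/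
lemma k_facts {p : ℝ} (hp : 0 < p) :
    p * (p ^ (-(1 / 3) : ℝ)) ^ 3 = 1 ∧ p ^ (2 / 3 : ℝ) * (p ^ (-(1 / 3) : ℝ)) ^ 2 = 1 := by
  have h3 : (p ^ (-(1 / 3) : ℝ)) ^ 3 = p⁻¹ := by
    rw [← Real.rpow_natCast, ← Real.rpow_mul hp.le, ← Real.rpow_neg_one]
    norm_num
  have h2 : (p ^ (-(1 / 3) : ℝ)) ^ 2 = p ^ (-(2 / 3) : ℝ) := by
    rw [← Real.rpow_natCast, ← Real.rpow_mul hp.le]
    norm_num
  constructor
  · rw [h3, mul_inv_cancel₀ hp.ne']
  · rw [h2, ← Real.rpow_add hp]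
    norm_num

/-- The constant. -/
lemma const_facts : ∃ σ : ℝ, 0 < σ ∧ σ ^ 3 * (√2 - 1) ^ 2 = 4 ∧
    2 * √2 * (2 ^ (-(1 / 6) : ℝ) * (√2 - 1) ^ (5 / 3 : ℝ)) = (√2 - 1) ^ 3 * σ ^ 2 := by
  have hs1 : 1.4142 < √2 := by
    rw [Real.lt_sqrt (by norm_num)]
    norm_num
  have hr : 0 < √2 - 1 := by linarith
  obtain ⟨r, hrd⟩ : ∃ r, r = √2 - 1 := ⟨_, rfl⟩
  rw [← hrd] at hr ⊢
  have h2 : (0 : ℝ) < 2 := two_pos
  refine ⟨2 ^ (2 / 3 : ℝ) * r ^ (-(2 / 3) : ℝ), by positivity, ?_, ?_⟩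
  · rw [mul_pow, ← Real.rpow_natCast (2 ^ (2 / 3 : ℝ)), ← Real.rpow_mul h2.le,
      ← Real.rpow_natCast (r ^ (-(2 / 3) : ℝ)), ← Real.rpow_mul hr.le,
      ← Real.rpow_natCast r 2, mul_assoc, ← Real.rpow_add hr]
    norm_num
  · rw [mul_pow, ← Real.rpow_natCast (2 ^ (2 / 3 : ℝ)), ← Real.rpow_mul h2.le,
      ← Real.rpow_natCast (r ^ (-(2 / 3) : ℝ)), ← Real.rpow_mul hr.le,
      ← Real.rpow_natCast r 3, Real.sqrt_eq_rpow]
    have e1 : 2 * (2 : ℝ) ^ (1 / 2 : ℝ) * (2 ^ (-(1 / 6) : ℝ) * r ^ (5 / 3 : ℝ)) =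
        (2 ^ (1 : ℝ) * (2 : ℝ) ^ (1 / 2 : ℝ) * 2 ^ (-(1 / 6) : ℝ)) * r ^ (5 / 3 : ℝ) := by
      rw [Real.rpow_one]
      ring
    have e2 : r ^ (((3 : ℕ) : ℝ)) * ((2 : ℝ) ^ ((2 / 3 : ℝ) * ((2 : ℕ) : ℝ)) *
        r ^ (-(2 / 3 : ℝ) * ((2 : ℕ) : ℝ))) = 2 ^ ((2 / 3 : ℝ) * ((2 : ℕ) : ℝ)) *
        (r ^ (((3 : ℕ) : ℝ)) * r ^ (-(2 / 3 : ℝ) * ((2 : ℕ) : ℝ))) := by ring
    rw [e1, e2, ← Real.rpow_add h2, ← Real.rpow_add h2, ← Real.rpow_add hr]
    norm_num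

/-- The asymptotics of `r_p`. -/
theorem asy_limit : Tendsto (fun p : ℝ => p ^ (2 / 3 : ℝ) * (subordinationRadius p - (√2 - 1)))
    atTop (𝓝 (2 ^ (-(1 / 6) : ℝ) * (√2 - 1) ^ (5 / 3 : ℝ) * airyBottom)) := by
  have hs1 : 1.4142 < √2 := by
    rw [Real.lt_sqrt (by norm_num)]
    norm_num
  have hr : 0 < √2 - 1 := by linarith
  have hs0 : 0 < √2 := by linarith
  obtain ⟨σ, hσ, hσ3, hσ2⟩ := const_facts
  obtain ⟨B, hB⟩ : ∃ B : ℝ, B = 2 ^ (-(1 / 6) : ℝ) * (√2 - 1) ^ (5 / 3 : ℝ) := ⟨_, rfl⟩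
  have hB0 : 0 < B := by rw [hB]; positivity
  rw [← hB] at hσ2 ⊢
  have hL := airyBottom_nonneg
  have hA0 : 0 ≤ B * airyBottom := by positivity
  refine tendsto_order.2 ⟨?_, ?_⟩
  · intro a ha
    rcases lt_or_ge a 0 with ha0 | ha0
    · filter_upwards [eventually_ge_atTop 2] with p hp
      have h1 := lower_bound hp
      have h2 : 0 ≤ (√2 - 1) ^ 2 / p := by positivity
      have h3 : 0 ≤ p ^ (2 / 3 : ℝ) * (subordinationRadius p - (√2 - 1)) :=
        mul_nonneg (by positivity) (by linarith)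
      linarith
    · obtain ⟨c, hac, hcA⟩ := exists_between ha
      have hc0 : 0 < c := by linarith
      -- choose σ' < σ
      have hcont : ContinuousAt (fun t : ℝ => (√2 - 1) ^ 3 * (airyBottom * t ^ 2)) σ := by fun_prop
      have hlt : 2 * √2 * c < (√2 - 1) ^ 3 * (airyBottom * σ ^ 2) := by
        have h1 : (√2 - 1) ^ 3 * (airyBottom * σ ^ 2) = 2 * √2 * (B * airyBottom) := by
          linear_combination (-airyBottom) * hσ2
        rw [h1]
        exact mul_lt_mul_of_pos_left hcA (by positivity)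
      have hev : ∀ᶠ t in 𝓝 σ, 2 * √2 * c < (√2 - 1) ^ 3 * (airyBottom * t ^ 2) :=
        (continuousAt_const (y := 2 * √2 * c)).tendsto.eventually_lt hcont.tendsto hlt
      have hev2 : ∀ᶠ t in 𝓝[<] σ, 2 * √2 * c < (√2 - 1) ^ 3 * (airyBottom * t ^ 2) :=
        hev.filter_mono nhdsWithin_le_nhds
      have hev3 : ∀ᶠ t in 𝓝[<] σ, t ∈ Ioo 0 σ := Ioo_mem_nhdsLT hσ
      obtain ⟨t, ht1, ht2⟩ := (hev2.and hev3).exists
      have ht3 : t ^ 3 * (√2 - 1) ^ 2 < 4 := by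
        rw [← hσ3]
        exact mul_lt_mul_of_pos_right (pow_lt_pow_left₀ ht2.2 ht2.1.le (by norm_num))
          (by positivity)
      have hk := tendsto_k.eventually (asy_lower_k hc0 ht2.1 ht3 ht1)
      filter_upwards [hk, eventually_gt_atTop 0] with p hkp hp
      obtain ⟨k1, k2⟩ := k_facts hp
      have h1 := hkp p k1
      have h2 : 0 < p ^ (2 / 3 : ℝ) := by positivity
      have h3 : c * (p ^ (-(1 / 3) : ℝ)) ^ 2 ≤ subordinationRadius p - (√2 - 1) := by linarith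
      have h4 := mul_le_mul_of_nonneg_left h3 h2.le
      have h5 : p ^ (2 / 3 : ℝ) * (c * (p ^ (-(1 / 3) : ℝ)) ^ 2) = c := by
        linear_combination c * k2
      rw [h5] at h4
      linarith
  · intro a ha
    obtain ⟨c, hcA, hca⟩ := exists_between ha
    have hc0 : 0 < c := by linarith
    obtain ⟨b, hb⟩ : ∃ b, b = c / B := ⟨_, rfl⟩
    have hb1 : airyBottom < b := by
      rw [hb, lt_div_iff₀ hB0]
      linarith
    obtain ⟨u, hu, hub⟩ := exists_test_lt hb1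
    have hkey : 8 * (√2 - 1) / σ * (∫ x in Ioi (0 : ℝ), x * u x ^ 2) +
      2 * (√2 - 1) ^ 3 * σ ^ 2 * (∫ x in Ioi (0 : ℝ), deriv u x ^ 2) <
      4 * √2 * c * ∫ x in Ioi (0 : ℝ), u x ^ 2 := by
      have h1 : 8 * (√2 - 1) / σ = 2 * (√2 - 1) ^ 3 * σ ^ 2 := by
        rw [div_eq_iff hσ.ne']
        linear_combination (-2 * (√2 - 1)) * hσ3
      rw [h1]
      have h2 : (√2 - 1) ^ 3 * σ ^ 2 * b = 2 * √2 * c := by
        rw [← hσ2, hb]
        field_simp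
      have h3 := mul_lt_mul_of_pos_left hub (by positivity : 0 < 2 * ((√2 - 1) ^ 3 * σ ^ 2))
      have h4 : 2 * ((√2 - 1) ^ 3 * σ ^ 2) * (b * ∫ x in Ioi (0 : ℝ), u x ^ 2) =
          4 * √2 * c * ∫ x in Ioi (0 : ℝ), u x ^ 2 := by
        linear_combination (2 * ∫ x in Ioi (0 : ℝ), u x ^ 2) * h2
      rw [h4] at h3
      linarith
    have hk := tendsto_k.eventually (asy_upper_k hu hc0 hσ hkey)
    filter_upwards [hk, eventually_gt_atTop 0] with p hkp hp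
    obtain ⟨k1, k2⟩ := k_facts hp
    have h1 := hkp p k1
    have h2 : 0 < p ^ (2 / 3 : ℝ) := by positivity
    have h3 : subordinationRadius p - (√2 - 1) ≤ c * (p ^ (-(1 / 3) : ℝ)) ^ 2 := by linarith
    have h4 := mul_le_mul_of_nonneg_left h3 h2.le
    have h5 : p ^ (2 / 3 : ℝ) * (c * (p ^ (-(1 / 3) : ℝ)) ^ 2) = c := by
      linear_combination c * k2
    rw [h5] at h4
    linarith

end Pool.Agent.LibMP140d1b
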