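import Mathlib

/-!
Polynomial inequalities in two and three real variables used for the exponent four.
-/

namespace Pool.Agent.LibMP140d1b.Four

/-- `P = |1 + A|²` for `Re A = -r`, `|A|² = n`. -/
noncomputable def PB (n r : ℝ) : ℝ := 1 - 2 * r + n
/-- `G = -Re A - |A|²/4`. -/
noncomputable def GB (n r : ℝ) : ℝ := r - n / 4
/-- The slope of the lower bound for `|φ'|²`. -/
noncomputable def gB (n r : ℝ) : ℝ := 5 / 3 - 7 / 3 * r + 11 / 12 * n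
/-- The diagonal entry for `h`. -/
noncomputable def alB (n r : ℝ) : ℝ := 7 / 4 * n - PB n r * r
/-- The diagonal entry for `X`. -/
noncomputable def gaB (n r : ℝ) : ℝ :=
  7 / 4 * (2 + 3 * (1 - 4 * n) * (3 / 4 - 4 * n + 2 * r))
/-- The determinant at `q = 0`. -/
noncomputable def NB (n r : ℝ) : ℝ := alB n r * gaB n r - 49 / 16 * n
/-- The value of the adjugate form at `(1,2)`. -/
noncomputable def DB (n r : ℝ) : ℝ := gaB n r + 4 * alB n r - 7 * r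
/-- The determinant at general `q`. -/
noncomputable def FB (n r q : ℝ) : ℝ :=
  (alB n r + 7 / 12 * q) * (gaB n r - 91 / 24 * q) - 49 / 144 * q ^ 2 - 49 / 24 * q * r -
    49 / 16 * n

lemma poly_a {n r : ℝ} (hn : 0 ≤ n) (hn4 : n ≤ 1 / 4) (hr : n / 4 ≤ r) (hrn : r ^ 2 ≤ n) (hr2 : r ≤ 11 / 30) :
    0 ≤ PB n r ^ 2 - (1 - 4 * n) * (GB n r + (44 / 100 - 12 / 10 * r) * gB n r) := by
  have hN : 0 ≤ 4 * n := by linarith
  have hp : 0 ≤ 2 * r := by linarith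
  have h1 : 0 ≤ 4 * n - (2 * r) ^ 2 := by linarith
  have h2 : 0 ≤ 1 - 4 * n := by linarith
  have h3 : 0 ≤ 2 * r - (4 * n) * (1 / 8) := by linarith
  have h4 : 0 ≤ 11 / 15 - 2 * r := by linarith
  unfold PB GB gB
  linarith [
    mul_nonneg (mul_nonneg h2 hN) (sq_nonneg (4 * n - 7/10 * (2 * r))),
    mul_nonneg (mul_nonneg h1 h2) h4,
    mul_nonneg h1 (sq_nonneg (2 * r - 1)),
    mul_nonneg h1 h1,
    mul_nonneg (mul_nonneg h2 h2) (sq_nonneg (2 * r - 7/10)),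
    mul_nonneg (mul_nonneg h4 h4) (sq_nonneg (2 * r - 7/10)),
    mul_nonneg (mul_nonneg h1 hN) hp,
    mul_nonneg (mul_nonneg h1 h2) h2,
    mul_nonneg (mul_nonneg hN hN) (sq_nonneg (4 * n - 2/5)),
    mul_nonneg (mul_nonneg h1 h2) hN,
    mul_nonneg (mul_nonneg h2 hp) (sq_nonneg (2 * r - 7/10)),
    mul_nonneg (mul_nonneg h2 h4) (sq_nonneg (4 * n - 7/10 * (2 * r))),
    mul_nonneg (mul_nonneg h3 h4) (sq_nonneg (4 * n - 7/10 * (2 * r))),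
    mul_nonneg (mul_nonneg hN h4) (sq_nonneg (4 * n - 7/10 * (2 * r)))]

lemma poly_b1 {n r : ℝ} (hn : 0 ≤ n) (hn4 : n ≤ 1 / 4) (hr : n / 4 ≤ r) (hrn : r ^ 2 ≤ n) (hr2 : r ≤ 11 / 30) :
    0 ≤ FB n r (44 / 100 - 12 / 10 * r) := by
  have hN : 0 ≤ 4 * n := by linarith
  have hp : 0 ≤ 2 * r := by linarith
  have h1 : 0 ≤ 4 * n - (2 * r) ^ 2 := by linarith
  have h2 : 0 ≤ 1 - 4 * n := by linarith
  have h3 : 0 ≤ 2 * r - (4 * n) * (1 / 8) := by linarith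
  have h4 : 0 ≤ 11 / 15 - 2 * r := by linarith
  unfold FB alB gaB PB
  linarith [
    mul_nonneg (mul_nonneg h2 hp) (sq_nonneg (4 * n - 3/10)),
    mul_nonneg (mul_nonneg h3 h4) (sq_nonneg (2 * r - 3/5)),
    mul_nonneg (mul_nonneg hN hN) (sq_nonneg (2 * r - 3/5)),
    mul_nonneg (mul_nonneg h2 h2) (sq_nonneg (2 * r - 3/5)),
    mul_nonneg (mul_nonneg h3 h3) (sq_nonneg (4 * n - 3/10)),
    mul_nonneg h1 (sq_nonneg (4 * n - 9/10)),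
    mul_nonneg (mul_nonneg h2 hN) (sq_nonneg (4 * n - 3/10)),
    mul_nonneg (mul_nonneg h4 h4) (sq_nonneg (4 * n - 3/10)),
    mul_nonneg (mul_nonneg h1 h2) h2,
    mul_nonneg (mul_nonneg h1 h2) h3,
    mul_nonneg (mul_nonneg h2 h3) (sq_nonneg (2 * r - 3/5)),
    mul_nonneg (mul_nonneg h4 h4) (sq_nonneg (4 * n - 3/5 * (2 * r))),
    mul_nonneg (mul_nonneg h1 h3) h4,
    mul_nonneg (mul_nonneg h2 h4) (sq_nonneg (4 * n - 3/5 * (2 * r)))]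

lemma poly_b2 {n r : ℝ} (hn : 0 ≤ n) (hn4 : n ≤ 1 / 4) (hr : n / 4 ≤ r) (hrn : r ^ 2 ≤ n) :
    0 ≤ FB n r (1 - 4 * n) := by
  have hN : 0 ≤ 4 * n := by linarith
  have hp : 0 ≤ 2 * r := by linarith
  have h1 : 0 ≤ 4 * n - (2 * r) ^ 2 := by linarith
  have h2 : 0 ≤ 1 - 4 * n := by linarith
  have h3 : 0 ≤ 2 * r - (4 * n) * (1 / 8) := by linarith
  have h5 : 0 ≤ 1 - 2 * r := by nlinarith
  unfold FB alB gaB PB
  linarith [
    mul_nonneg (mul_nonneg h3 h5) (sq_nonneg (2 * r - 3/5 * (4 * n))),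
    mul_nonneg (mul_nonneg h5 h5) (sq_nonneg (2 * r - 7/10 * (4 * n))),
    mul_nonneg (mul_nonneg (mul_nonneg h2 hN) hN) hN,
    mul_nonneg (mul_nonneg h2 h2) (sq_nonneg (4 * n - 1 * (2 * r))),
    mul_nonneg (mul_nonneg (mul_nonneg h2 h2) h5) h5,
    mul_nonneg (mul_nonneg h3 hN) (sq_nonneg (2 * r - 3/5 * (4 * n))),
    mul_nonneg (mul_nonneg (mul_nonneg h2 h2) hp) hp,
    mul_nonneg (mul_nonneg (mul_nonneg h2 h3) h5) h5,
    mul_nonneg (mul_nonneg (mul_nonneg h2 hp) hp) hp,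
    mul_nonneg (mul_nonneg h2 hN) (sq_nonneg (4 * n - 7/10)),
    mul_nonneg (mul_nonneg h1 h2) h5,
    mul_nonneg (mul_nonneg h2 hp) (sq_nonneg (4 * n - 1 * (2 * r))),
    mul_nonneg (mul_nonneg hN h5) (sq_nonneg (2 * r - 7/10)),
    mul_nonneg (mul_nonneg h2 h2) (sq_nonneg (4 * n - 1))]

lemma poly_n1 {n r : ℝ} (hn : 0 ≤ n) (hn4 : n ≤ 1 / 4) (hr : n / 4 ≤ r) (hrn : r ^ 2 ≤ n) (hr2 : 11 / 30 ≤ r) :
    0 ≤ NB n r := by
  have hN : 0 ≤ 4 * n := by linarith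
  have hp : 0 ≤ 2 * r := by linarith
  have h1 : 0 ≤ 4 * n - (2 * r) ^ 2 := by linarith
  have h2 : 0 ≤ 1 - 4 * n := by linarith
  have h3 : 0 ≤ 2 * r - (4 * n) * (1 / 8) := by linarith
  have h5 : 0 ≤ 1 - 2 * r := by nlinarith
  have h4 : 0 ≤ 2 * r - 11 / 15 := by linarith
  unfold NB alB gaB PB
  linarith [
    mul_nonneg (mul_nonneg h4 h5) (sq_nonneg (4 * n - 1 * (2 * r))),
    mul_nonneg (mul_nonneg h1 h4) h4,
    mul_nonneg (mul_nonneg (mul_nonneg h2 hp) hp) h4,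
    mul_nonneg (mul_nonneg (mul_nonneg h4 h4) h5) h5,
    mul_nonneg (mul_nonneg (mul_nonneg h2 h2) h4) h4,
    mul_nonneg (mul_nonneg (mul_nonneg hp hp) hp) h4,
    mul_nonneg h2 h4,
    mul_nonneg (mul_nonneg h1 h2) h2,
    mul_nonneg (mul_nonneg (mul_nonneg hN hN) hN) h4,
    mul_nonneg (mul_nonneg h2 h2) h4,
    mul_nonneg (mul_nonneg h1 h2) h5,
    mul_nonneg (mul_nonneg h2 h4) (sq_nonneg (4 * n - 1 * (2 * r))),
    h1]

lemma poly_c1 {n r : ℝ} (hn : 0 ≤ n) (hn4 : n ≤ 1 / 4) (hr : n / 4 ≤ r) (hrn : r ^ 2 ≤ n) :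
    0 ≤ PB n r ^ 2 - (1 - 4 * n) * GB n r - (1 - 7 * r ^ 2 - 3 / 4 * n) * PB n r ^ 3 := by
  have hN : 0 ≤ 4 * n := by linarith
  have hp : 0 ≤ 2 * r := by linarith
  have h1 : 0 ≤ 4 * n - (2 * r) ^ 2 := by linarith
  have h2 : 0 ≤ 1 - 4 * n := by linarith
  have h3 : 0 ≤ 2 * r - (4 * n) * (1 / 8) := by linarith
  have h5 : 0 ≤ 1 - 2 * r := by nlinarith
  unfold GB PB
  linarith [
    mul_nonneg h1 h3,
    mul_nonneg (mul_nonneg h1 h2) (sq_nonneg (4 * n - 7/10)),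
    mul_nonneg (mul_nonneg (mul_nonneg h2 h5) h5) (sq_nonneg (4 * n - 4/5 * (2 * r))),
    mul_nonneg (mul_nonneg (mul_nonneg h1 h2) h3) h5,
    mul_nonneg (mul_nonneg (mul_nonneg h2 hN) hp) (sq_nonneg (4 * n - 3/5)),
    mul_nonneg (mul_nonneg h1 h1) h3,
    mul_nonneg (mul_nonneg (mul_nonneg h5 h5) h5) (sq_nonneg (4 * n - 4/5 * (2 * r))),
    mul_nonneg (mul_nonneg (mul_nonneg h1 h2) h2) h3,
    mul_nonneg (mul_nonneg (mul_nonneg h2 h3) h3) (sq_nonneg (4 * n - 3/5)),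
    mul_nonneg (mul_nonneg h2 h3) (sq_nonneg (4 * n - 3/5)),
    mul_nonneg (mul_nonneg (mul_nonneg h2 hN) hN) (sq_nonneg (4 * n - 3/5)),
    mul_nonneg (mul_nonneg (mul_nonneg h3 h3) h5) (sq_nonneg (2 * r - 4/5)),
    mul_nonneg (mul_nonneg (mul_nonneg h3 h3) h5) (sq_nonneg (4 * n - 7/10 * (2 * r))),
    mul_nonneg (mul_nonneg (mul_nonneg h1 h2) h3) hp,
    mul_nonneg (mul_nonneg (mul_nonneg hN hN) hN) (sq_nonneg (4 * n - 1/2)),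
    mul_nonneg (mul_nonneg (mul_nonneg h3 hN) hN) (sq_nonneg (4 * n - 1/2)),
    mul_nonneg (mul_nonneg (mul_nonneg h3 hN) hp) (sq_nonneg (4 * n - 3/5)),
    mul_nonneg (mul_nonneg (mul_nonneg h3 h5) h5) (sq_nonneg (4 * n - 3/5)),
    mul_nonneg (mul_nonneg (mul_nonneg h1 h3) h5) h5]

lemma poly_c2 {n r : ℝ} (hn : 0 ≤ n) (hn4 : n ≤ 1 / 4) (hr : n / 4 ≤ r) (hrn : r ^ 2 ≤ n) (hr2 : r ≤ 11 / 30) :
    0 ≤ NB n r + GB n r * (1 - 7 * r ^ 2 - 3 / 4 * n) * (DB n r + 2 / 3 * NB n r) := by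
  have hN : 0 ≤ 4 * n := by linarith
  have hp : 0 ≤ 2 * r := by linarith
  have h1 : 0 ≤ 4 * n - (2 * r) ^ 2 := by linarith
  have h2 : 0 ≤ 1 - 4 * n := by linarith
  have h3 : 0 ≤ 2 * r - (4 * n) * (1 / 8) := by linarith
  have h4 : 0 ≤ 11 / 15 - 2 * r := by linarith
  unfold NB DB alB gaB GB PB
  linarith [
    mul_nonneg (mul_nonneg (mul_nonneg (mul_nonneg h1 h2) hN) hN) (sq_nonneg (4 * n - 1 * (2 * r))),
    mul_nonneg (mul_nonneg h1 h2) hp,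
    mul_nonneg (mul_nonneg (mul_nonneg (mul_nonneg (mul_nonneg hN hN) hN) h4) h4) (sq_nonneg (4 * n - 1 * (2 * r))),
    mul_nonneg (mul_nonneg (mul_nonneg (mul_nonneg h2 hp) hp) hp) h4,
    mul_nonneg (mul_nonneg (mul_nonneg (mul_nonneg (mul_nonneg h2 h2) h2) hp) hp) (sq_nonneg (4 * n - 1)),
    mul_nonneg (mul_nonneg (mul_nonneg (mul_nonneg h1 h3) h4) h4) (sq_nonneg (2 * r - 1)),
    mul_nonneg (mul_nonneg (mul_nonneg hp hp) h4) (sq_nonneg (2 * r - 1)),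
    mul_nonneg (mul_nonneg (mul_nonneg (mul_nonneg (mul_nonneg h2 h3) h4) h4) h4) (sq_nonneg (4 * n - 1 * (2 * r))),
    mul_nonneg (mul_nonneg (mul_nonneg (mul_nonneg (mul_nonneg h2 h2) hp) hp) hp) (sq_nonneg (4 * n - 1)),
    mul_nonneg (mul_nonneg (mul_nonneg (mul_nonneg h1 h1) h2) h2) hN,
    mul_nonneg (mul_nonneg h1 hp) h4,
    mul_nonneg (mul_nonneg (mul_nonneg h1 h1) h4) (sq_nonneg (2 * r - 1)),
    mul_nonneg (mul_nonneg (mul_nonneg (mul_nonneg h1 h2) hp) hp) (sq_nonneg (2 * r)),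
    mul_nonneg (mul_nonneg (mul_nonneg (mul_nonneg h2 h2) hN) hN) hN,
    mul_nonneg (mul_nonneg (mul_nonneg (mul_nonneg (mul_nonneg h2 h2) h2) hN) hN) (sq_nonneg (4 * n - 1 * (2 * r))),
    mul_nonneg (mul_nonneg h2 hp) hp,
    mul_nonneg (mul_nonneg (mul_nonneg (mul_nonneg h1 h1) hN) hN) h4,
    mul_nonneg (mul_nonneg hN hp) h4,
    mul_nonneg (mul_nonneg (mul_nonneg (mul_nonneg (mul_nonneg h2 h3) h3) h3) hp) (sq_nonneg (4 * n - 1 * (2 * r))),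
    mul_nonneg (mul_nonneg (mul_nonneg (mul_nonneg (mul_nonneg h2 h2) hN) hN) h4) (sq_nonneg (4 * n - 1 * (2 * r))),
    mul_nonneg (mul_nonneg h1 h2) h2,
    mul_nonneg (mul_nonneg (mul_nonneg (mul_nonneg h1 h3) hp) h4) (sq_nonneg (4 * n - 1 * (2 * r))),
    mul_nonneg (mul_nonneg (mul_nonneg (mul_nonneg (mul_nonneg h2 h2) h2) hN) h4) (sq_nonneg (4 * n - 1)),
    mul_nonneg (mul_nonneg (mul_nonneg h1 h1) h1) h2,
    mul_nonneg (mul_nonneg (mul_nonneg (mul_nonneg (mul_nonneg (mul_nonneg hN hN) hN) hp) hp) hp) h4,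
    mul_nonneg (mul_nonneg (mul_nonneg (mul_nonneg (mul_nonneg h2 h2) hN) hN) hN) (sq_nonneg (4 * n)),
    mul_nonneg (mul_nonneg (mul_nonneg (mul_nonneg (mul_nonneg h2 h2) hN) h4) h4) (sq_nonneg (4 * n - 1 * (2 * r))),
    mul_nonneg (mul_nonneg (mul_nonneg (mul_nonneg h1 h2) h2) h3) (sq_nonneg (2 * r - 1)),
    mul_nonneg (mul_nonneg (mul_nonneg (mul_nonneg h2 h2) h2) hN) hN,
    mul_nonneg (mul_nonneg (mul_nonneg (mul_nonneg (mul_nonneg h3 h3) h4) h4) h4) (sq_nonneg (4 * n - 1 * (2 * r))),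
    mul_nonneg (mul_nonneg (mul_nonneg (mul_nonneg (mul_nonneg h3 hp) hp) hp) h4) (sq_nonneg (2 * r)),
    mul_nonneg (mul_nonneg hN h4) (sq_nonneg (2 * r - 1)),
    mul_nonneg (mul_nonneg (mul_nonneg (mul_nonneg (mul_nonneg h1 h2) h2) hN) hN) hN]

lemma poly_L1 {s q r : ℝ} (hs : 0 ≤ s) (hs1' : s ≤ 1) (hq : 0 ≤ q) (hq1' : q ≤ 1)
    (hr : s * (1 - q) / 16 ≤ r) (hrn : 4 * r ^ 2 ≤ s * (1 - q))
    (hw' : 0 ≤ s - 2 * r + (1 - q) / 4) :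
    0 ≤ 803 / 336 - 227 / 42 * r - 5 / 8 * q - 23 / 168 * s + 15 / 2 * s * r + 12 * s * r ^ 2 + 361 / 336 * s * q + 3 / 2 * s * q * r - 3 * s ^ 2 - 18 * s ^ 2 * r - 9 / 4 * s ^ 2 * q + 6 * s ^ 2 * q * r + 3 / 4 * s ^ 2 * q ^ 2 + 6 * s ^ 3 - 3 * s ^ 3 * q := by
  have hs1 : 0 ≤ 1 - s := by linarith
  have hq1 : 0 ≤ 1 - q := by linarith
  have hsq : 0 ≤ s * (1 - q) := mul_nonneg hs hq1
  have hp : 0 ≤ 2 * r := by linarith
  have hh : 0 ≤ s * (1 - q) - (2 * r) ^ 2 := by linarith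
  have hp1 : 0 ≤ 1 - 2 * r := by nlinarith
  have hg : 0 ≤ 2 * r - s * (1 - q) / 8 := by linarith
  have hw : 0 ≤ s - 2 * r + (1 - q) / 4 := hw'
  linarith [
    hs1,
    mul_nonneg hh hh,
    mul_nonneg (mul_nonneg (mul_nonneg hs1 hq) hq1) hp,
    mul_nonneg (mul_nonneg (mul_nonneg hs hs1) hs1) hp,
    mul_nonneg (mul_nonneg (mul_nonneg hs1 hq) hw) hw,
    mul_nonneg (mul_nonneg (mul_nonneg hs1 hs1) hq) hw,
    mul_nonneg (mul_nonneg hs hs) hh,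
    mul_nonneg (mul_nonneg (mul_nonneg hs1 hs1) hq1) hw,
    mul_nonneg (mul_nonneg (mul_nonneg hq hq1) hp) hp,
    mul_nonneg (mul_nonneg hq1 hq1) hh,
    mul_nonneg (mul_nonneg (mul_nonneg hq hp1) hp1) hw,
    mul_nonneg (mul_nonneg hs hs1) hp,
    mul_nonneg (mul_nonneg (mul_nonneg hq hq1) hp) hw,
    mul_nonneg (mul_nonneg (mul_nonneg hs1 hq) hq) hq1,
    mul_nonneg hs1 hq,
    mul_nonneg (mul_nonneg (mul_nonneg hs hs1) hs1) hq1,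
    mul_nonneg (mul_nonneg hh hp1) hp1,
    mul_nonneg (mul_nonneg hh hw) hw,
    mul_nonneg (mul_nonneg (mul_nonneg hs1 hp) hw) hw,
    mul_nonneg (mul_nonneg (mul_nonneg hs1 hq1) hp) hp,
    mul_nonneg hq1 hg,
    mul_nonneg (mul_nonneg (mul_nonneg hs1 hp) hp1) hp1,
    mul_nonneg (mul_nonneg (mul_nonneg hq hq) hq1) hp,
    mul_nonneg (mul_nonneg (mul_nonneg hq1 hp) hw) hw,
    mul_nonneg (mul_nonneg hq hq) hh,
    mul_nonneg (mul_nonneg hq1 hp) hh,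
    mul_nonneg (mul_nonneg hq hh) hw,
    mul_nonneg (mul_nonneg (mul_nonneg hs1 hs1) hq) hq1,
    mul_nonneg (mul_nonneg hs1 hs1) hq1,
    mul_nonneg (mul_nonneg (mul_nonneg hs1 hs1) hq) hp1,
    mul_nonneg (mul_nonneg (mul_nonneg hp1 hp1) hw) hw,
    mul_nonneg (mul_nonneg (mul_nonneg hs1 hs1) hq) hq]

/-- The estimate for `|v|²` against `|X|²` in the case of negative real part. -/
lemma poly_L {s q r : ℝ} (hs : 0 ≤ s) (hs1 : s ≤ 1) (hq : 0 ≤ q) (hq1 : q ≤ 1)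
    (hr : s * (1 - q) / 16 ≤ r) (hrn : 4 * r ^ 2 ≤ s * (1 - q))
    (hw : 0 ≤ s - 2 * r + (1 - q) / 4) :
    (1 + 3 * (1 - s * (1 - q)) * (3 / 4 - s * (1 - q) + 2 * r) - 5 / 2 * q) *
      (s - 2 * r + (1 - q) / 4) ≤ (1 + 20 / 21 * q) * (1 - 2 * r + s * (1 - q) / 4) := by
  have h1 := mul_nonneg hq (poly_L1 hs hs1 hq hq1 hr hrn hw)
  have h2 := mul_nonneg (by linarith : 0 ≤ 1 - s) (sq_nonneg (1 - 2 * (s + 1 / 4 - 2 * r)))
  linarith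

/-- `P = |1 + A|²` for `Re A = R`, `|A|² = n`. -/
noncomputable def PA (n R : ℝ) : ℝ := 1 + 2 * R + n
/-- The diagonal entry for `h`. -/
noncomputable def alA (n R : ℝ) : ℝ := 7 / 4 * n + PA n R * R
/-- The diagonal entry for `X`. -/
noncomputable def gaA (n : ℝ) : ℝ := 49 / 12 - 7 / 3 * n
/-- The determinant. -/
noncomputable def NA (n R : ℝ) : ℝ := alA n R * gaA n - 49 / 16 * n
/-- The value of the adjugate form at `(1,2)`. -/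
noncomputable def DA (n R : ℝ) : ℝ := gaA n + 4 * alA n R + 7 * R

lemma poly_A {n R : ℝ} (hn : 0 ≤ n) (hn4 : n ≤ 1 / 4) (hr : -(n / 4) ≤ R) (hrn : R ^ 2 ≤ n) :
    0 ≤ (PA n R * NA n R - (R + n / 4) * (DA n R + 2 / 3 * NA n R)) * (1 + 4 * (R + n / 4)) -
      (1 - 4 * n) * (R + n / 4) ^ 2 * (DA n R + 2 / 3 * NA n R) := by
  have hN : 0 ≤ 4 * n := by linarith
  have h1 : 0 ≤ 4 * n - (2 * R) ^ 2 := by linarith
  have h2 : 0 ≤ 1 - 4 * n := by linarith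
  have h3 : 0 ≤ 2 * R + (4 * n) * (1 / 8) := by linarith
  have h5 : 0 ≤ 1 - 2 * R := by nlinarith
  unfold NA DA alA gaA PA
  linarith [
    mul_nonneg hN hN,
    mul_nonneg (mul_nonneg h1 h2) h3,
    mul_nonneg (mul_nonneg (mul_nonneg h1 h1) h3) h5,
    mul_nonneg (mul_nonneg (mul_nonneg (mul_nonneg (mul_nonneg h3 h3) h3) h3) h3) h3,
    mul_nonneg (mul_nonneg (mul_nonneg (mul_nonneg (mul_nonneg h3 h3) hN) h5) h5) h5,
    mul_nonneg (mul_nonneg (mul_nonneg (mul_nonneg h1 h2) hN) hN) hN,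
    mul_nonneg (mul_nonneg (mul_nonneg (mul_nonneg (mul_nonneg h2 h2) h2) hN) hN) h5,
    mul_nonneg (mul_nonneg h3 h3) h3,
    mul_nonneg (mul_nonneg (mul_nonneg (mul_nonneg h1 h5) h5) h5) h5,
    mul_nonneg (mul_nonneg (mul_nonneg (mul_nonneg (mul_nonneg h2 h2) h2) h3) h3) h3,
    mul_nonneg (mul_nonneg (mul_nonneg (mul_nonneg h1 h2) h2) h2) h2,
    mul_nonneg (mul_nonneg h3 hN) hN,
    mul_nonneg h1 h2,
    mul_nonneg (mul_nonneg (mul_nonneg (mul_nonneg (mul_nonneg h2 h3) h3) h3) hN) hN,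
    mul_nonneg (mul_nonneg (mul_nonneg (mul_nonneg h1 hN) hN) hN) h5,
    mul_nonneg (mul_nonneg (mul_nonneg (mul_nonneg (mul_nonneg hN hN) hN) hN) hN) h5,
    mul_nonneg (mul_nonneg (mul_nonneg (mul_nonneg h1 h2) h3) h3) h3,
    mul_nonneg (mul_nonneg (mul_nonneg (mul_nonneg h1 h2) h2) h3) h3,
    mul_nonneg (mul_nonneg (mul_nonneg (mul_nonneg (mul_nonneg h2 h2) h2) h2) h3) hN,
    mul_nonneg (mul_nonneg (mul_nonneg h1 h1) h3) h3,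
    mul_nonneg (mul_nonneg (mul_nonneg (mul_nonneg h1 h2) h2) h2) h5,
    mul_nonneg (mul_nonneg (mul_nonneg (mul_nonneg (mul_nonneg h2 h2) h2) hN) hN) hN,
    mul_nonneg (mul_nonneg (mul_nonneg (mul_nonneg (mul_nonneg h2 hN) hN) h5) h5) h5,
    mul_nonneg (mul_nonneg (mul_nonneg (mul_nonneg (mul_nonneg hN hN) h5) h5) h5) h5,
    mul_nonneg (mul_nonneg h1 h1) h2]

end Pool.Agent.LibMP140d1b.Four
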