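import Mathlib
import Pool.Agent.Lib_MP_140d1b_an.FourPoly

/-!
Positivity of Hermitian forms in two and three variables.
-/

namespace Pool.Agent.LibMP140d1b.Four

open Complex

/-- The Hermitian form `al |h|² + ga |X|² + 2 Re (be h conj X)`. -/
noncomputable def E2 (al ga : ℝ) (be h X : ℂ) : ℝ :=
  al * ‖h‖ ^ 2 + ga * ‖X‖ ^ 2 + 2 * (be * h * (starRingEnd ℂ) X).re

lemma E2_key (al ga : ℝ) (be h X : ℂ) :
    ga * E2 al ga be h X = ‖(ga : ℂ) * X + be * h‖ ^ 2 + (al * ga - ‖be‖ ^ 2) * ‖h‖ ^ 2 := by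
  simp only [E2, Complex.sq_norm, Complex.normSq_apply, add_re, add_im, mul_re, mul_im, conj_re,
    conj_im, ofReal_re, ofReal_im]
  ring

lemma E2_nonneg {al ga : ℝ} {be : ℂ} (hga : 0 < ga) (hN : 0 ≤ al * ga - ‖be‖ ^ 2) (h X : ℂ) :
    0 ≤ E2 al ga be h X := by
  have h1 := E2_key al ga be h X
  have h2 : 0 ≤ ga * E2 al ga be h X := by
    rw [h1]
    exact add_nonneg (by positivity) (mul_nonneg hN (by positivity))
  exact nonneg_of_mul_nonneg_right h2 hga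

/-- Cauchy–Schwarz with the explicit remainder. -/
lemma E2_cs (al ga : ℝ) (be h X : ℂ) :
    (ga + 4 * al - 4 * be.re) * E2 al ga be h X - (al * ga - ‖be‖ ^ 2) * ‖h + 2 * X‖ ^ 2 =
      ‖-2 * ((al : ℂ) * h + (starRingEnd ℂ) be * X) + (be * h + (ga : ℂ) * X)‖ ^ 2 := by
  simp only [E2, Complex.sq_norm, Complex.normSq_apply, add_re, add_im, mul_re, mul_im, conj_re,
    conj_im, ofReal_re, ofReal_im, neg_re, neg_im, re_ofNat, im_ofNat]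
  ring

/-- Positivity for nonnegative `κ`. -/
lemma form_pos {al ga κ : ℝ} {be : ℂ} (hκ : 0 ≤ κ) (hga : 0 < ga)
    (hN : 0 ≤ (al * ga - ‖be‖ ^ 2) +
      κ * ((ga + 4 * al - 4 * be.re) + 2 / 3 * (al * ga - ‖be‖ ^ 2))) (h X Z : ℂ) :
    0 ≤ E2 al ga be h X + 3 / 2 * ‖Z‖ ^ 2 + κ * ‖h + 2 * X + Z‖ ^ 2 := by
  have h3 : 0 < 3 + 2 * κ := by linarith
  have e1 : (3 + 2 * κ) * (3 / 2 * ‖Z‖ ^ 2 + κ * ‖h + 2 * X + Z‖ ^ 2) =
      3 * κ * ‖h + 2 * X‖ ^ 2 +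
        1 / 2 * ‖(3 + 2 * κ : ℂ) * Z + 2 * (κ : ℂ) * (h + 2 * X)‖ ^ 2 := by
    simp only [Complex.sq_norm, Complex.normSq_apply, add_re, add_im, mul_re, mul_im,
      ofReal_re, ofReal_im, re_ofNat, im_ofNat]
    ring
  have e2 : (3 + 2 * κ) * E2 al ga be h X + 3 * κ * ‖h + 2 * X‖ ^ 2 =
      E2 ((3 + 2 * κ) * al + 3 * κ) ((3 + 2 * κ) * ga + 12 * κ)
        ((3 + 2 * κ : ℂ) * be + 6 * (κ : ℂ)) h X := by
    simp only [E2, Complex.sq_norm, Complex.normSq_apply, add_re, add_im, mul_re, mul_im,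
      conj_re, conj_im, ofReal_re, ofReal_im, re_ofNat, im_ofNat]
    ring
  have e3 : ((3 + 2 * κ) * al + 3 * κ) * ((3 + 2 * κ) * ga + 12 * κ) -
      ‖(3 + 2 * κ : ℂ) * be + 6 * (κ : ℂ)‖ ^ 2 = 3 * (3 + 2 * κ) * ((al * ga - ‖be‖ ^ 2) +
      κ * ((ga + 4 * al - 4 * be.re) + 2 / 3 * (al * ga - ‖be‖ ^ 2))) := by
    simp only [Complex.sq_norm, Complex.normSq_apply, add_re, add_im, mul_re, mul_im,
      ofReal_re, ofReal_im, re_ofNat, im_ofNat]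
    ring
  have h4 : 0 ≤ E2 ((3 + 2 * κ) * al + 3 * κ) ((3 + 2 * κ) * ga + 12 * κ)
        ((3 + 2 * κ : ℂ) * be + 6 * (κ : ℂ)) h X := by
    refine E2_nonneg (by positivity) ?_ h X
    rw [e3]
    exact mul_nonneg (by positivity) hN
  have h5 : 0 ≤ 1 / 2 * ‖(3 + 2 * κ : ℂ) * Z + 2 * (κ : ℂ) * (h + 2 * X)‖ ^ 2 := by positivity
  have h6 : 0 ≤ (3 + 2 * κ) *
      (E2 al ga be h X + 3 / 2 * ‖Z‖ ^ 2 + κ * ‖h + 2 * X + Z‖ ^ 2) := by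
    calc 0 ≤ ((3 + 2 * κ) * E2 al ga be h X + 3 * κ * ‖h + 2 * X‖ ^ 2) +
        1 / 2 * ‖(3 + 2 * κ : ℂ) * Z + 2 * (κ : ℂ) * (h + 2 * X)‖ ^ 2 := by
          rw [e2]; exact add_nonneg h4 h5
      _ = _ := by linarith
  exact nonneg_of_mul_nonneg_right h6 h3

/-- Positivity for `κ = -k`. -/
lemma form_neg {al ga k : ℝ} {be : ℂ} (hga : 0 < ga) (hN : 0 ≤ al * ga - ‖be‖ ^ 2)
    (hD : 0 < ga + 4 * al - 4 * be.re)
    (hk : k * ((ga + 4 * al - 4 * be.re) + 2 / 3 * (al * ga - ‖be‖ ^ 2)) ≤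
      al * ga - ‖be‖ ^ 2) (h X Z : ℂ) :
    0 ≤ E2 al ga be h X + 3 / 2 * ‖Z‖ ^ 2 - k * ‖h + 2 * X + Z‖ ^ 2 := by
  have hE := E2_nonneg hga hN h X
  have hcs := E2_cs al ga be h X
  set E := E2 al ga be h X with hEdef
  set N := al * ga - ‖be‖ ^ 2 with hNdef
  set D := ga + 4 * al - 4 * be.re with hDdef
  have h1 : N * ‖h + 2 * X‖ ^ 2 ≤ D * E := by
    have : 0 ≤ ‖-2 * ((al : ℂ) * h + (starRingEnd ℂ) be * X) + (be * h + (ga : ℂ) * X)‖ ^ 2 := by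
      positivity
    linarith
  -- `N |y + Z|² ≤ (D + 2/3 N) (E + 3/2 |Z|²)`
  have h2 : N * ‖h + 2 * X + Z‖ ^ 2 ≤ (D + 2 / 3 * N) * (E + 3 / 2 * ‖Z‖ ^ 2) := by
    have e1 : D * (N * ‖h + 2 * X + Z‖ ^ 2) =
        D * N * ‖h + 2 * X‖ ^ 2 + D * N * ‖Z‖ ^ 2 + 2 / 3 * (N ^ 2 * ‖h + 2 * X‖ ^ 2) +
        3 / 2 * (D ^ 2 * ‖Z‖ ^ 2) -
        2 / 3 * ‖(N : ℂ) * (h + 2 * X) - 3 / 2 * (D : ℂ) * Z‖ ^ 2 := by
      simp only [Complex.sq_norm, Complex.normSq_apply, add_re, add_im, mul_re, mul_im, sub_re,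
        sub_im, ofReal_re, ofReal_im, re_ofNat, im_ofNat, div_ofNat_re, div_ofNat_im]
      ring
    have h3 : 0 ≤ ‖(N : ℂ) * (h + 2 * X) - 3 / 2 * (D : ℂ) * Z‖ ^ 2 := by positivity
    have h4 : N * (N * ‖h + 2 * X‖ ^ 2) ≤ N * (D * E) := mul_le_mul_of_nonneg_left h1 hN
    have h5 : D * (N * ‖h + 2 * X‖ ^ 2) ≤ D * (D * E) := mul_le_mul_of_nonneg_left h1 hD.le
    have h6 : D * (N * ‖h + 2 * X + Z‖ ^ 2) ≤
        D * ((D + 2 / 3 * N) * (E + 3 / 2 * ‖Z‖ ^ 2)) := by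
      rw [e1]
      nlinarith
    exact le_of_mul_le_mul_left h6 hD
  have hDD : 0 < D + 2 / 3 * N := by linarith
  have h7 : k * (D + 2 / 3 * N) * ‖h + 2 * X + Z‖ ^ 2 ≤ N * ‖h + 2 * X + Z‖ ^ 2 :=
    mul_le_mul_of_nonneg_right hk (by positivity)
  have h8 : (D + 2 / 3 * N) * (k * ‖h + 2 * X + Z‖ ^ 2) ≤
      (D + 2 / 3 * N) * (E + 3 / 2 * ‖Z‖ ^ 2) := by
    calc (D + 2 / 3 * N) * (k * ‖h + 2 * X + Z‖ ^ 2) =
        k * (D + 2 / 3 * N) * ‖h + 2 * X + Z‖ ^ 2 := by ring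
      _ ≤ _ := h7.trans h2
  have h9 := le_of_mul_le_mul_left h8 hDD
  linarith

end Pool.Agent.LibMP140d1b.Four
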