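import Mathlib
import Pool.Agent.Lib_MP_140d1b_an.FourForm

/-!
The two cases of the pointwise inequality, in terms of Hermitian forms.
-/

namespace Pool.Agent.LibMP140d1b.Four

open Complex

section caseB

variable {n r : ℝ}

lemma r_le_half (hn4 : n ≤ 1 / 4) (hrn : r ^ 2 ≤ n) : r ≤ 1 / 2 := by nlinarith

lemma PB_pos (hn4 : n ≤ 1 / 4) (hrn : r ^ 2 ≤ n) : 0 < PB n r := by
  have := r_le_half hn4 hrn
  unfold PB
  nlinarith

lemma gaB_pos (hn : 0 ≤ n) (hn4 : n ≤ 1 / 4) (hr : n / 4 ≤ r) : 0 < gaB n r := by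
  unfold gaB
  nlinarith [mul_nonneg (by linarith : 0 ≤ 1 - 4 * n) (by linarith : 0 ≤ r),
    sq_nonneg (4 * n - 7 / 8)]

lemma gaB_pos_lo (hn : 0 ≤ n) (hn4 : n ≤ 1 / 4) (hr : n / 4 ≤ r) :
    0 < gaB n r - 91 / 24 * (44 / 100 - 12 / 10 * r) := by
  unfold gaB
  nlinarith [mul_nonneg (by linarith : 0 ≤ 1 - 4 * n) (by linarith : 0 ≤ r),
    sq_nonneg (4 * n - 7 / 8)]

lemma gaB_pos_hi (hn : 0 ≤ n) (hn4 : n ≤ 1 / 4) (hr : n / 4 ≤ r) :
    0 < gaB n r - 91 / 24 * (1 - 4 * n) := by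
  unfold gaB
  nlinarith [mul_nonneg (by linarith : 0 ≤ 1 - 4 * n) (by linarith : 0 ≤ r),
    sq_nonneg (4 * n - 1 / 2)]

lemma gB_pos (hn : 0 ≤ n) (hr2 : r ≤ 1 / 2) : 0 < gB n r := by
  unfold gB
  nlinarith

lemma DDB_pos (hn : 0 ≤ n) (hn4 : n ≤ 1 / 4) (hr : n / 4 ≤ r) (hrn : r ^ 2 ≤ n)
    (hr2 : r ≤ 11 / 30) : 0 ≤ DB n r + 2 / 3 * NB n r := by
  have h1 : 0 ≤ 1 - 4 * n := by linarith
  have h2 : 0 ≤ r := by linarith
  have h3 : 0 ≤ 11 / 30 - r := by linarith
  have h4 : 0 ≤ n - r ^ 2 := by linarith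
  unfold DB NB alB gaB PB
  nlinarith [mul_nonneg h1 h2, mul_nonneg h1 h3, mul_nonneg h2 h3, mul_nonneg hn h1,
    mul_nonneg hn h2, mul_nonneg (mul_nonneg h1 h2) hn, mul_nonneg (mul_nonneg h1 h2) h2,
    mul_nonneg (mul_nonneg h1 h3) hn, mul_nonneg (mul_nonneg h1 h3) h3]

/-- The form in the case of negative real part. -/
noncomputable def QB (A h X Z : ℂ) (n r q κ : ℝ) : ℝ :=
  E2 (alB n r + 7 / 12 * q) (gaB n r - 91 / 24 * q) (-(7 / 4) * A + 7 / 12 * (q : ℂ)) h X +
    3 / 2 * ‖Z‖ ^ 2 + κ * ‖h + 2 * X + Z‖ ^ 2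

lemma QB_affine (A h X Z : ℂ) (n r q0 q1 κ0 κ1 t : ℝ) :
    QB A h X Z n r ((1 - t) * q0 + t * q1) ((1 - t) * κ0 + t * κ1) =
      (1 - t) * QB A h X Z n r q0 κ0 + t * QB A h X Z n r q1 κ1 := by
  simp only [QB, E2, add_re, add_im, mul_re, mul_im, conj_re, conj_im, ofReal_re, ofReal_im,
    neg_re, neg_im, re_ofNat, im_ofNat, div_ofNat_re, div_ofNat_im]
  push_cast
  ring

lemma QB_mono {A h X Z : ℂ} {q κ κ' : ℝ} (hk : κ ≤ κ') :
    QB A h X Z n r q κ ≤ QB A h X Z n r q κ' := by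
  unfold QB
  have := mul_le_mul_of_nonneg_right hk (by positivity : 0 ≤ ‖h + 2 * X + Z‖ ^ 2)
  linarith

lemma QB_nonneg {A h X Z : ℂ} (hA : A.re = -r) (hAn : ‖A‖ ^ 2 = n) {q κ : ℝ} (hκ : 0 ≤ κ)
    (hga : 0 < gaB n r - 91 / 24 * q)
    (hF : 0 ≤ FB n r q + κ * ((DB n r - 91 / 24 * q) + 2 / 3 * FB n r q)) :
    0 ≤ QB A h X Z n r q κ := by
  have e1 : (alB n r + 7 / 12 * q) * (gaB n r - 91 / 24 * q) -
      ‖-(7 / 4) * A + 7 / 12 * (q : ℂ)‖ ^ 2 = FB n r q := by
    have hAn' : A.re * A.re + A.im * A.im = n := by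
      rw [← hAn, Complex.sq_norm, Complex.normSq_apply]
    have e2 : ‖-(7 / 4) * A + 7 / 12 * (q : ℂ)‖ ^ 2 =
        49 / 16 * (A.re * A.re + A.im * A.im) - 49 / 24 * q * A.re + 49 / 144 * q ^ 2 := by
      simp only [Complex.sq_norm, Complex.normSq_apply, add_re, add_im, mul_re, mul_im,
        neg_re, neg_im, re_ofNat, im_ofNat, div_ofNat_re, div_ofNat_im, ofReal_re, ofReal_im]
      ring
    rw [e2, hAn', hA]
    unfold FB
    ring
  have e3 : (-(7 / 4) * A + 7 / 12 * (q : ℂ)).re = 7 / 4 * r + 7 / 12 * q := by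
    simp only [add_re, mul_re, neg_re, neg_im, re_ofNat, im_ofNat, div_ofNat_re, div_ofNat_im,
      ofReal_re, ofReal_im, hA]
    ring
  unfold QB
  refine form_pos hκ hga ?_ h X Z
  rw [e1, e3]
  have e4 : gaB n r - 91 / 24 * q + 4 * (alB n r + 7 / 12 * q) - 4 * (7 / 4 * r + 7 / 12 * q) =
      DB n r - 91 / 24 * q := by
    unfold DB
    ring
  rw [e4]
  exact hF

/-- The form is nonnegative for `κ` above the two lower bounds. -/
lemma caseB {A h X Z : ℂ} (hA : A.re = -r) (hAn : ‖A‖ ^ 2 = n) (hn4 : n ≤ 1 / 4)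
    (hr : n / 4 ≤ r) {q κ : ℝ} (hq : 0 ≤ q) (hq1 : q ≤ 1 - 4 * n) (hκ : 0 ≤ κ)
    (hκ2 : GB n r / PB n r * (1 - (1 - 4 * n) * (GB n r + q * gB n r) / PB n r ^ 2) ≤ κ) :
    0 ≤ QB A h X Z n r q κ := by
  have hn : 0 ≤ n := by rw [← hAn]; positivity
  have hrn : r ^ 2 ≤ n := by
    have h1 : A.re ^ 2 ≤ ‖A‖ ^ 2 := by
      rw [Complex.sq_norm, Complex.normSq_apply]
      nlinarith [mul_self_nonneg A.im]
    rw [hA, hAn] at h1
    linarith [h1, neg_sq r]
  have hP := PB_pos hn4 hrn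
  have hr5 := r_le_half hn4 hrn
  have hG : 0 ≤ GB n r := by unfold GB; linarith
  have hhi : 0 ≤ QB A h X Z n r (1 - 4 * n) 0 := by
    refine QB_nonneg hA hAn le_rfl (gaB_pos_hi hn hn4 hr) ?_
    have := poly_b2 hn hn4 hr hrn
    linarith
  rcases le_total (11 / 30) r with hr2 | hr2
  · -- large `r`
    have hlo : 0 ≤ QB A h X Z n r 0 0 := by
      refine QB_nonneg hA hAn le_rfl (by have := gaB_pos hn hn4 hr; linarith) ?_
      have h1 := poly_n1 hn hn4 hr hrn hr2
      have h2 : FB n r 0 = NB n r := by unfold FB NB; ring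
      rw [h2]
      linarith
    refine le_trans ?_ (QB_mono hκ)
    rcases eq_or_lt_of_le hq with h0 | h0
    · rw [← h0]; exact hlo
    · have hpos : 0 < 1 - 4 * n := lt_of_lt_of_le h0 hq1
      have h1 := QB_affine A h X Z n r 0 (1 - 4 * n) 0 0 (q / (1 - 4 * n))
      have h2 : (1 - q / (1 - 4 * n)) * 0 + q / (1 - 4 * n) * (1 - 4 * n) = q := by
        field_simp
        ring
      rw [h2] at h1
      have h3 : (1 - q / (1 - 4 * n)) * 0 + q / (1 - 4 * n) * (0 : ℝ) = 0 := by ring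
      rw [h3] at h1
      rw [h1]
      have h4 : 0 ≤ 1 - q / (1 - 4 * n) := by
        rw [sub_nonneg, div_le_one hpos]
        exact hq1
      have h5 : 0 ≤ q / (1 - 4 * n) := by positivity
      exact add_nonneg (mul_nonneg h4 hlo) (mul_nonneg h5 hhi)
  · -- small `r`
    set q1 : ℝ := 44 / 100 - 12 / 10 * r with hq1def
    have hq1nn : 0 ≤ q1 := by rw [hq1def]; linarith
    have hmid : 0 ≤ QB A h X Z n r q1 0 := by
      refine QB_nonneg hA hAn le_rfl (gaB_pos_lo hn hn4 hr) ?_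
      have := poly_b1 hn hn4 hr hrn hr2
      rw [← hq1def] at this
      linarith
    rcases le_total q1 q with hqq | hqq
    · -- between `q1` and `1 - 4 n`
      refine le_trans ?_ (QB_mono hκ)
      rcases eq_or_lt_of_le hqq with h0 | h0
      · rw [← h0]; exact hmid
      · have hpos : 0 < 1 - 4 * n - q1 := by linarith
        have h1 := QB_affine A h X Z n r q1 (1 - 4 * n) 0 0 ((q - q1) / (1 - 4 * n - q1))
        have h2 : (1 - (q - q1) / (1 - 4 * n - q1)) * q1 +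
            (q - q1) / (1 - 4 * n - q1) * (1 - 4 * n) = q := by
          field_simp
          ring
        have h3 : (1 - (q - q1) / (1 - 4 * n - q1)) * 0 +
            (q - q1) / (1 - 4 * n - q1) * (0 : ℝ) = 0 := by ring
        rw [h2, h3] at h1
        rw [h1]
        have h4 : 0 ≤ 1 - (q - q1) / (1 - 4 * n - q1) := by
          rw [sub_nonneg, div_le_one hpos]
          linarith
        have h5 : 0 ≤ (q - q1) / (1 - 4 * n - q1) := div_nonneg (by linarith) hpos.le
        exact add_nonneg (mul_nonneg h4 hmid) (mul_nonneg h5 hhi)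
    · -- between `0` and `q1`
      have hga := gaB_pos hn hn4 hr
      have hg := gB_pos (r := r) hn hr5
      have hb : 0 ≤ 1 - 4 * n := by linarith
      have hpa := poly_a hn hn4 hr hrn hr2
      rw [← hq1def] at hpa
      set κ0 : ℝ := GB n r / PB n r * (1 - (1 - 4 * n) * (GB n r + 0 * gB n r) / PB n r ^ 2)
        with hκ0
      set κ1 : ℝ := GB n r / PB n r * (1 - (1 - 4 * n) * (GB n r + q1 * gB n r) / PB n r ^ 2)
        with hκ1
      have hP2 : 0 < PB n r ^ 2 := by positivity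
      have hGP : 0 ≤ GB n r / PB n r := div_nonneg hG hP.le
      have hκ1nn : 0 ≤ κ1 := by
        refine mul_nonneg hGP ?_
        rw [sub_nonneg, div_le_one hP2]
        linarith
      have hκ0nn : 0 ≤ κ0 := by
        refine mul_nonneg hGP ?_
        rw [sub_nonneg, div_le_one hP2]
        have h1 : 0 ≤ (1 - 4 * n) * (q1 * gB n r) := mul_nonneg hb (mul_nonneg hq1nn hg.le)
        nlinarith
      have hκs : GB n r * (1 - 7 * r ^ 2 - 3 / 4 * n) ≤ κ0 := by
        have h1 := poly_c1 hn hn4 hr hrn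
        have h2 : κ0 = GB n r * ((PB n r ^ 2 - (1 - 4 * n) * GB n r) / PB n r ^ 3) := by
          rw [hκ0]
          field_simp
          ring
        rw [h2]
        refine mul_le_mul_of_nonneg_left ?_ hG
        rw [le_div_iff₀ (by positivity)]
        linarith
      have hzero : 0 ≤ QB A h X Z n r 0 κ0 := by
        refine QB_nonneg hA hAn hκ0nn (by linarith) ?_
        have h2 : FB n r 0 = NB n r := by unfold FB NB; ring
        rw [h2]
        have h3 := poly_c2 hn hn4 hr hrn hr2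
        have h4 := DDB_pos hn hn4 hr hrn hr2
        have h5 := mul_le_mul_of_nonneg_right hκs h4
        simp only [mul_zero, sub_zero]
        linarith
      have hone : 0 ≤ QB A h X Z n r q1 κ1 := hmid.trans (QB_mono hκ1nn)
      refine le_trans ?_ (QB_mono hκ2)
      rcases eq_or_lt_of_le hq with h0 | h0
      · rw [← h0]; exact hzero
      · have hpos : 0 < q1 := by linarith
        have h1 := QB_affine A h X Z n r 0 q1 κ0 κ1 (q / q1)
        have h2 : (1 - q / q1) * 0 + q / q1 * q1 = q := by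
          field_simp
          ring
        have h3 : (1 - q / q1) * κ0 + q / q1 * κ1 =
            GB n r / PB n r * (1 - (1 - 4 * n) * (GB n r + q * gB n r) / PB n r ^ 2) := by
          rw [hκ0, hκ1]
          field_simp
          ring
        rw [h2, h3] at h1
        rw [h1]
        have h4 : 0 ≤ 1 - q / q1 := by
          rw [sub_nonneg, div_le_one hpos]
          exact hqq
        have h5 : 0 ≤ q / q1 := by positivity
        exact add_nonneg (mul_nonneg h4 hzero) (mul_nonneg h5 hone)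

end caseB

section caseA

variable {n R : ℝ}

/-- The case of nonnegative `R + n/4`. -/
lemma caseA {A h X Z : ℂ} (hA : A.re = R) (hAn : ‖A‖ ^ 2 = n) (hn4 : n ≤ 1 / 4)
    (hR : -(n / 4) ≤ R) {κ : ℝ}
    (hκ : -((R + n / 4) / PA n R * (1 + (1 - 4 * n) * (R + n / 4) / PA n R ^ 2)) ≤ κ) :
    0 ≤ E2 (alA n R) (gaA n) (-(7 / 4) * A) h X + 3 / 2 * ‖Z‖ ^ 2 +
      κ * ‖h + 2 * X + Z‖ ^ 2 := by
  have hn : 0 ≤ n := by rw [← hAn]; positivity
  have hRn : R ^ 2 ≤ n := by
    have h1 : A.re ^ 2 ≤ ‖A‖ ^ 2 := by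
      rw [Complex.sq_norm, Complex.normSq_apply]
      nlinarith [mul_self_nonneg A.im]
    rwa [hA, hAn] at h1
  have hR5 : R ≤ 1 / 2 := by nlinarith
  set u : ℝ := R + n / 4 with hu
  have hu0 : 0 ≤ u := by rw [hu]; linarith
  have hPu : 1 + 2 * u ≤ PA n R := by unfold PA; rw [hu]; linarith
  have hP : 0 < PA n R := by linarith
  have hP2 : PA n R ≤ 9 / 4 := by unfold PA; linarith
  have hga : 0 < gaA n := by unfold gaA; linarith
  have hga2 : 7 / 2 ≤ gaA n := by unfold gaA; linarith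
  have hPR : -(5 / 16 * n) ≤ PA n R * R := by
    rcases le_total 0 R with h0 | h0
    · have := mul_nonneg hP.le h0
      linarith
    · have h1 : PA n R ≤ 5 / 4 := by unfold PA; linarith
      nlinarith
  have hal : 23 / 16 * n ≤ alA n R := by unfold alA; linarith
  have hN0 : 0 ≤ NA n R := by
    unfold NA
    have h1 : 23 / 16 * n * (7 / 2) ≤ alA n R * gaA n :=
      mul_le_mul hal hga2 (by norm_num) (by linarith)
    linarith
  have hD0 : 0 < DA n R := by
    unfold DA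
    linarith
  have hDD : 0 < DA n R + 2 / 3 * NA n R := by linarith
  have e1 : alA n R * gaA n - ‖-(7 / 4) * A‖ ^ 2 = NA n R := by
    have : ‖-(7 / 4) * A‖ ^ 2 = 49 / 16 * n := by
      rw [norm_mul, mul_pow, hAn]
      norm_num
    rw [this]
    unfold NA
    ring
  have e2 : gaA n + 4 * alA n R - 4 * (-(7 / 4) * A).re = DA n R := by
    simp only [mul_re, neg_re, neg_im, re_ofNat, im_ofNat, div_ofNat_re, div_ofNat_im, hA]
    unfold DA
    ring
  set k : ℝ := u / PA n R * (1 + (1 - 4 * n) * u / PA n R ^ 2) with hk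
  have hkN : k * (DA n R + 2 / 3 * NA n R) ≤ NA n R := by
    have hpoly := poly_A hn hn4 hR hRn
    rw [← hu] at hpoly
    set DD := DA n R + 2 / 3 * NA n R with hDDdef
    have hb : 0 ≤ 1 - 4 * n := by linarith
    have h1 : 0 ≤ (1 - 4 * n) * u ^ 2 * DD := by positivity
    have h2 : 0 < 1 + 4 * u := by linarith
    have h3 : 0 ≤ PA n R * NA n R - u * DD := by
      have : 0 ≤ (PA n R * NA n R - u * DD) * (1 + 4 * u) := by linarith
      exact nonneg_of_mul_nonneg_left this h2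
    have h4 : 1 + 4 * u ≤ PA n R ^ 2 := by nlinarith
    have h5 : (PA n R * NA n R - u * DD) * (1 + 4 * u) ≤
        (PA n R * NA n R - u * DD) * PA n R ^ 2 := mul_le_mul_of_nonneg_left h4 h3
    have h6 : k * DD = (u * PA n R ^ 2 + (1 - 4 * n) * u ^ 2) * DD / PA n R ^ 3 := by
      rw [hk]
      field_simp
    rw [h6, div_le_iff₀ (by positivity)]
    nlinarith
  have hmain := form_neg (al := alA n R) (ga := gaA n) (k := k) (be := -(7 / 4) * A) hga
    (by rw [e1]; exact hN0) (by rw [e2]; exact hD0) (by rw [e1, e2]; exact hkN) h X Z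
  have h7 : -k * ‖h + 2 * X + Z‖ ^ 2 ≤ κ * ‖h + 2 * X + Z‖ ^ 2 :=
    mul_le_mul_of_nonneg_right hκ (by positivity)
  linarith

end caseA

end Pool.Agent.LibMP140d1b.Four
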