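import Mathlib
import Pool.Agent.Lib_MP_140d1b_an.FourCase

/-!
The pointwise inequality for the exponent four.
-/

namespace Pool.Agent.LibMP140d1b.Four

open Complex

/-- `Γ = |1 - a ε|² - |2σ + a σ² + ε|²`. -/
noncomputable def Gam (a : ℝ) (σ ε : ℂ) : ℝ :=
  ‖1 - (a : ℂ) * ε‖ ^ 2 - ‖2 * σ + (a : ℂ) * σ ^ 2 + ε‖ ^ 2

/-- `W = a + 2σ + a σ²`. -/
noncomputable def Wf (a : ℝ) (σ : ℂ) : ℂ := (a : ℂ) + 2 * σ + (a : ℂ) * σ ^ 2

lemma W_id (a : ℝ) (σ ε : ℂ) :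
    ‖Wf a σ + (1 - (a : ℂ) ^ 2) * ε‖ ^ 2 =
      (‖1 + (a : ℂ) * σ‖ ^ 2) ^ 2 - (1 - a ^ 2) * Gam a σ ε := by
  simp only [Wf, Gam, Complex.sq_norm, Complex.normSq_apply]
  simp only [add_re, add_im, mul_re, mul_im, sub_re, sub_im, one_re, one_im, ofReal_re,
    ofReal_im, re_ofNat, im_ofNat, pow_two]
  ring

lemma Gam_id {a q : ℝ} {σ : ℂ} (hσ : ‖σ‖ ^ 2 = (1 - q) / 4) (ε : ℂ) :
    Gam a σ ε = -((a : ℂ) * σ).re - ‖(a : ℂ) * σ‖ ^ 2 / 4 +
      q * (1 + ((a : ℂ) * σ).re + ‖(a : ℂ) * σ‖ ^ 2 / 4) -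
      2 * ((starRingEnd ℂ) ε * Wf a σ).re - (1 - a ^ 2) * ‖ε‖ ^ 2 := by
  have h1 : q = 1 - 4 * ‖σ‖ ^ 2 := by linarith
  rw [h1]
  simp only [Wf, Gam, Complex.sq_norm, Complex.normSq_apply]
  simp only [add_re, add_im, mul_re, mul_im, sub_re, sub_im, one_re, one_im, ofReal_re,
    ofReal_im, re_ofNat, im_ofNat, pow_two, conj_re, conj_im]
  ring

lemma gamma_bracket {s q n R w : ℝ} (hs : 0 ≤ s) (hs1 : s ≤ 1) (hq : 0 ≤ q) (hq1 : q ≤ 1)
    (hn : n = s * (1 - q) / 4) (hR : R ^ 2 ≤ n) (hw : 0 ≤ w)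
    (hw2 : w ^ 2 = (1 + 2 * R + n) ^ 2 - (1 - s) * (-R - n / 4 + q * (1 + R + n / 4))) :
    2 / 3 * w ≤ 1 + R + n / 4 - (1 - s) * q / 9 := by
  have hn0 : 0 ≤ n := by rw [hn]; exact div_nonneg (mul_nonneg hs (by linarith)) (by norm_num)
  have hns : n ≤ s / 4 := by rw [hn]; nlinarith [mul_nonneg hs hq]
  have hn4 : n ≤ 1 / 4 := by linarith
  have hR1 : R ≤ 1 / 2 := by nlinarith
  have hR2 : -(1 / 2) ≤ R := by nlinarith
  have hP : 0 ≤ 1 + 2 * R + n := by linarith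
  have hsq : (1 - s) * q ≤ 1 := by nlinarith
  rcases le_total (R + n / 4) 0 with hu | hu
  · -- `w ≤ P`
    have h1 : 0 ≤ (1 - s) * (-R - n / 4 + q * (1 + R + n / 4)) := by
      refine mul_nonneg (by linarith) (add_nonneg (by linarith) (mul_nonneg hq ?_))
      linarith
    have h2 : w ≤ 1 + 2 * R + n := abs_le_of_sq_le_sq' (by linarith) hP |>.2
    linarith
  · set u : ℝ := R + n / 4 with hudef
    have hu9 : u ≤ 9 / 16 := by linarith
    have hrhs : 0 ≤ 1 + u - (1 - s) * q / 9 := by linarith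
    have h3 : (2 / 3 * w) ^ 2 ≤ (1 + u - (1 - s) * q / 9) ^ 2 := by
      have e1 : (2 / 3 * w) ^ 2 = 4 / 9 * w ^ 2 := by ring
      rw [e1, hw2]
      have e2 : 1 + 2 * R + n = 1 + 2 * u + n / 2 := by rw [hudef]; ring
      have e3 : (-R - n / 4 + q * (1 + R + n / 4)) = -u + q * (1 + u) := by rw [hudef]; ring
      rw [e2, e3]
      have h4 : 1 + 2 * u + n / 2 ≤ 1 + 2 * u + s / 8 := by linarith
      have h5 : (1 + 2 * u + n / 2) ^ 2 ≤ (1 + 2 * u + s / 8) ^ 2 :=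
        pow_le_pow_left₀ (by linarith) h4 2
      have h6 : 0 ≤ (1 - s) * q * (1 + u) :=
        mul_nonneg (mul_nonneg (by linarith) hq) (by linarith)
      have h7 : 4 / 9 * ((1 + 2 * u + s / 8) ^ 2 + (1 - s) * u) ≤ (1 + u) ^ 2 := by
        nlinarith [mul_nonneg hs (by linarith : 0 ≤ 1 - s), mul_nonneg hu hs,
          mul_nonneg hu (by linarith : 0 ≤ 1 - s), mul_nonneg hu (by linarith : 0 ≤ 9 / 16 - u),
          mul_nonneg (mul_nonneg hu hs) (by linarith : 0 ≤ 9 / 16 - u)]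
      linarith [sq_nonneg ((1 - s) * q / 9)]
    have h8 := abs_le_of_sq_le_sq' h3 hrhs |>.2
    linarith

section facts

variable {a q : ℝ} {σ ε : ℂ}

lemma n_eq (hσ : ‖σ‖ ^ 2 = (1 - q) / 4) : ‖(a : ℂ) * σ‖ ^ 2 = a ^ 2 * (1 - q) / 4 := by
  rw [norm_mul, mul_pow, hσ, Complex.norm_real, Real.norm_eq_abs, sq_abs]
  ring

lemma re_sq_le (A : ℂ) : A.re ^ 2 ≤ ‖A‖ ^ 2 := by
  rw [Complex.sq_norm, Complex.normSq_apply]
  nlinarith [mul_self_nonneg A.im]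

lemma P_eq (A : ℂ) : ‖1 + A‖ ^ 2 = 1 + 2 * A.re + ‖A‖ ^ 2 := by
  simp only [Complex.sq_norm, Complex.normSq_apply, add_re, add_im, one_re, one_im]
  ring

lemma W_sq (hσ : ‖σ‖ ^ 2 = (1 - q) / 4) :
    ‖Wf a σ‖ ^ 2 = (1 + 2 * ((a : ℂ) * σ).re + ‖(a : ℂ) * σ‖ ^ 2) ^ 2 -
      (1 - a ^ 2) * (-((a : ℂ) * σ).re - ‖(a : ℂ) * σ‖ ^ 2 / 4 +
      q * (1 + ((a : ℂ) * σ).re + ‖(a : ℂ) * σ‖ ^ 2 / 4)) := by
  have h1 := W_id a σ 0
  rw [Gam_id hσ 0, P_eq] at h1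
  simpa using h1

lemma cross_le (ε W : ℂ) : 2 * ((starRingEnd ℂ) ε * W).re ≤ 2 * (‖ε‖ * ‖W‖) := by
  have h1 := Complex.re_le_norm ((starRingEnd ℂ) ε * W)
  rw [norm_mul, Complex.norm_conj] at h1
  linarith

lemma gamma_ge (ha : 0 ≤ a) (ha1 : a ≤ 1) (hq : 0 ≤ q) (hq1 : q ≤ 1)
    (hσ : ‖σ‖ ^ 2 = (1 - q) / 4) (hε : ‖ε‖ ≤ q / 3) :
    -((a : ℂ) * σ).re - ‖(a : ℂ) * σ‖ ^ 2 / 4 ≤ Gam a σ ε := by
  have hs : 0 ≤ a ^ 2 := by positivity
  have hs1 : a ^ 2 ≤ 1 := by nlinarith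
  have hb := gamma_bracket (w := ‖Wf a σ‖) hs hs1 hq hq1 (n_eq hσ)
    (re_sq_le ((a : ℂ) * σ)) (norm_nonneg _) (W_sq hσ)
  rw [Gam_id hσ ε]
  have h1 := cross_le ε (Wf a σ)
  have h2 : ‖ε‖ * ‖Wf a σ‖ ≤ q / 3 * ‖Wf a σ‖ := mul_le_mul_of_nonneg_right hε (norm_nonneg _)
  have h3 : ‖ε‖ ^ 2 ≤ (q / 3) ^ 2 := pow_le_pow_left₀ (norm_nonneg _) hε 2
  have h4 : (1 - a ^ 2) * ‖ε‖ ^ 2 ≤ (1 - a ^ 2) * (q / 3) ^ 2 :=
    mul_le_mul_of_nonneg_left h3 (by linarith)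
  have h5 := mul_le_mul_of_nonneg_left hb hq
  nlinarith

end facts

/-- Reduction of the term in `V`. -/
lemma V_bound {q V Λ P w x : ℝ} (hP : 0 < P) (hV : 0 ≤ V) (hX : 4 * P * x = w * V)
    (hΛ : Λ * w ≤ (1 + 20 / 21 * q) * P) : 7 / 4 * Λ * x ≤ (7 / 16 + 5 / 12 * q) * V := by
  have h1 : Λ * w * V ≤ (1 + 20 / 21 * q) * P * V := mul_le_mul_of_nonneg_right hΛ hV
  have h2 : P * (7 / 4 * Λ * x) ≤ P * ((7 / 16 + 5 / 12 * q) * V) := by
    have e1 : P * (7 / 4 * Λ * x) = 7 / 16 * (Λ * (4 * P * x)) := by ring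
    rw [e1, hX]
    nlinarith
  exact le_of_mul_le_mul_left h2 hP

lemma LA_bound {s q R : ℝ} (hs : 0 ≤ s) (hs1 : s ≤ 1) (hq : 0 ≤ q) (hq1 : q ≤ 1)
    (hR : R ≤ 1 / 2) (hw : 0 ≤ s + 2 * R + (1 - q) / 4) :
    (1 + (1 - s * (1 - q)) / 3) * (s + 2 * R + (1 - q) / 4) ≤
      (1 + 20 / 21 * q) * (1 + 2 * R + s * (1 - q) / 4) := by
  set w := s + 2 * R + (1 - q) / 4 with hwdef
  have hPw : 1 + 2 * R + s * (1 - q) / 4 = w + (1 - s) * (3 + q) / 4 := by rw [hwdef]; ring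
  rw [hPw]
  have hw9 : w ≤ 9 / 4 := by rw [hwdef]; linarith
  have h1 : 0 ≤ (1 - s) * ((3 + q) / 4 - w / 3) := mul_nonneg (by linarith) (by linarith)
  have h2 : 0 ≤ (1 - s) * (3 + q) / 4 :=
    div_nonneg (mul_nonneg (by linarith) (by linarith)) (by norm_num)
  have h3 : 0 ≤ q * (20 / 21 * (w + (1 - s) * (3 + q) / 4) - s / 3 * w) := by
    refine mul_nonneg hq ?_
    have h4 : s / 3 * w ≤ 1 / 3 * w := mul_le_mul_of_nonneg_right (by linarith) hw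
    linarith
  nlinarith

/-- **The pointwise inequality.** -/
theorem pointwise4 {a q V : ℝ} {σ ε h X Z : ℂ} (ha : 0 ≤ a) (ha1 : a ≤ 1) (hq : 0 ≤ q)
    (hq1 : q ≤ 1) (hσ : ‖σ‖ ^ 2 = (1 - q) / 4) (hε : ‖ε‖ ≤ q / 3)
    (hX : 4 * ‖1 + (a : ℂ) * σ‖ ^ 2 * ‖X‖ ^ 2 = ‖(a : ℂ) + σ‖ ^ 2 * V) (hV : 0 ≤ V)
    {P D : ℝ} (hP : P = ‖1 + (a : ℂ) * σ‖ ^ 2) (hPpos : 0 < P)
    (hD : D * P ^ 2 = ‖Wf a σ + (1 - (a : ℂ) ^ 2) * ε‖ ^ 2) :
    0 ≤ 7 / 4 * ‖X - (a : ℂ) * σ * h‖ ^ 2 + 7 / 12 * q * ‖h + X‖ ^ 2 +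
      (7 / 16 + 5 / 12 * q) * V + 3 / 2 * ‖Z‖ ^ 2 +
      Gam a σ ε * D / P * ‖h + 2 * X + Z‖ ^ 2 + P * ((a : ℂ) * σ).re * ‖h‖ ^ 2 := by
  set A : ℂ := (a : ℂ) * σ with hA
  set n : ℝ := ‖A‖ ^ 2 with hn
  set R : ℝ := A.re with hRdef
  set s : ℝ := a ^ 2 with hs
  have hs0 : 0 ≤ s := by positivity
  have hs1 : s ≤ 1 := by rw [hs]; nlinarith
  have hn_eq : n = s * (1 - q) / 4 := n_eq hσ
  have hn0 : 0 ≤ n := by positivity
  have hns : 4 * n ≤ s := by rw [hn_eq]; nlinarith [mul_nonneg hs0 hq]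
  have hn4 : n ≤ 1 / 4 := by linarith
  have hRn : R ^ 2 ≤ n := re_sq_le A
  have hR5 : R ≤ 1 / 2 := by nlinarith
  have hR5' : -(1 / 2) ≤ R := by nlinarith
  have hq1n : q ≤ 1 - 4 * n := by rw [hn_eq]; nlinarith
  have hPe : P = 1 + 2 * R + n := by rw [hP]; exact P_eq A
  have hΓ := gamma_ge ha ha1 hq hq1 hσ hε
  rw [← hA, ← hn, ← hRdef] at hΓ
  set Γ : ℝ := Gam a σ ε with hΓdef
  have hP2 : 0 < P ^ 2 := by positivity
  have hDnn : 0 ≤ D := by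
    have h1 : 0 ≤ D * P ^ 2 := by rw [hD]; positivity
    exact nonneg_of_mul_nonneg_left h1 hP2
  have hDid : D * P ^ 2 = P ^ 2 - (1 - s) * Γ := by rw [hD, W_id, ← hA, ← hP]
  have hw1 : ‖(a : ℂ) + σ‖ ^ 2 = s + 2 * R + (1 - q) / 4 := by
    have h1 : ‖(a : ℂ) + σ‖ ^ 2 = a ^ 2 + 2 * ((a : ℂ) * σ).re + ‖σ‖ ^ 2 := by
      simp only [Complex.sq_norm, Complex.normSq_apply, add_re, add_im, mul_re, ofReal_re,
        ofReal_im]
      ring
    rw [h1, hσ]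
  have hw1nn : 0 ≤ s + 2 * R + (1 - q) / 4 := by rw [← hw1]; positivity
  have hXV : 4 * P * ‖X‖ ^ 2 = (s + 2 * R + (1 - q) / 4) * V := by rw [hP, hX, hw1]
  have hb0 : 0 ≤ 1 - 4 * n := by linarith
  rcases le_total (-(n / 4)) R with hcase | hcase
  · -- case A
    have hΛ := LA_bound hs0 hs1 hq hq1 hR5 hw1nn
    have hPs : P = 1 + 2 * R + s * (1 - q) / 4 := by rw [hPe, hn_eq]
    rw [← hPs] at hΛ
    have hVb := V_bound (Λ := 1 + (1 - s * (1 - q)) / 3) hPpos hV hXV hΛ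
    have hsq4 : s * (1 - q) = 4 * n := by rw [hn_eq]; ring
    rw [hsq4] at hVb
    have hPA : P = PA n R := by unfold PA; exact hPe
    have hu0 : 0 ≤ R + n / 4 := by linarith
    -- the bound for `κ`
    have hκ : -((R + n / 4) / PA n R * (1 + (1 - 4 * n) * (R + n / 4) / PA n R ^ 2)) ≤
        Γ * D / P := by
      rw [← hPA]
      set u : ℝ := R + n / 4 with hu
      have h1 : D ≤ 1 + (1 - 4 * n) * u / P ^ 2 := by
        have h2 : D = 1 - (1 - s) * Γ / P ^ 2 := by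
          field_simp
          linarith
        rw [h2]
        have h3 : -((1 - s) * Γ) ≤ (1 - 4 * n) * u := by
          have h4 : (1 - s) * (-Γ) ≤ (1 - s) * u :=
            mul_le_mul_of_nonneg_left (by linarith) (by linarith)
          have h5 : (1 - s) * u ≤ (1 - 4 * n) * u :=
            mul_le_mul_of_nonneg_right (by linarith) hu0
          linarith
        have h6 : -((1 - s) * Γ) / P ^ 2 ≤ (1 - 4 * n) * u / P ^ 2 :=
          div_le_div_of_nonneg_right h3 hP2.le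
        have h7 : -((1 - s) * Γ) / P ^ 2 = -((1 - s) * Γ / P ^ 2) := by ring
        linarith
      have h8 : -(u * D) ≤ Γ * D := by
        have : 0 ≤ (Γ + u) * D := mul_nonneg (by linarith) hDnn
        linarith
      have h9 : u * D ≤ u * (1 + (1 - 4 * n) * u / P ^ 2) := mul_le_mul_of_nonneg_left h1 hu0
      have h10 : -(u / P * (1 + (1 - 4 * n) * u / P ^ 2)) =
          -(u * (1 + (1 - 4 * n) * u / P ^ 2)) / P := by ring
      rw [h10]
      exact div_le_div_of_nonneg_right (by linarith) hPpos.le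
    have hmain := caseA (h := h) (X := X) (Z := Z) (A := A) rfl hn.symm hn4 hcase hκ
    have e1 : E2 (alA n R) (gaA n) (-(7 / 4) * A) h X = 7 / 4 * ‖X - A * h‖ ^ 2 +
        P * R * ‖h‖ ^ 2 + 7 / 4 * (1 + (1 - 4 * n) / 3) * ‖X‖ ^ 2 := by
      have e2 : ‖X - A * h‖ ^ 2 = ‖X‖ ^ 2 + n * ‖h‖ ^ 2 -
          2 * (A * h * (starRingEnd ℂ) X).re := by
        rw [hn]
        simp only [Complex.sq_norm, Complex.normSq_apply, sub_re, sub_im, mul_re, mul_im,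
          conj_re, conj_im]
        ring
      have e3 : (-(7 / 4) * A * h * (starRingEnd ℂ) X).re =
          -(7 / 4) * (A * h * (starRingEnd ℂ) X).re := by
        have : -(7 / 4) * A * h * (starRingEnd ℂ) X =
            ((-(7 / 4) : ℝ) : ℂ) * (A * h * (starRingEnd ℂ) X) := by push_cast; ring
        rw [this, Complex.re_ofReal_mul]
      rw [e2, E2, e3]
      unfold alA gaA
      rw [← hPA]
      ring
    rw [e1] at hmain
    have h11 : 0 ≤ 7 / 12 * q * ‖h + X‖ ^ 2 := by positivity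
    linarith
  · -- case B
    set r : ℝ := -R with hr
    have hrR : R = -r := by rw [hr]; ring
    have hr4 : n / 4 ≤ r := by linarith
    have hrn : r ^ 2 ≤ n := by rw [hr, neg_sq]; exact hRn
    have hPB : P = PB n r := by unfold PB; rw [hPe, hrR]; ring
    have hsq4 : s * (1 - q) = 4 * n := by rw [hn_eq]; ring
    have hw1nn' : 0 ≤ s - 2 * r + (1 - q) / 4 := by rw [hrR] at hw1nn; linarith
    have hL := poly_L hs0 hs1 hq hq1 (by rw [hsq4]; linarith) (by rw [hsq4]; linarith) hw1nn'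
    have hPs : P = 1 - 2 * r + s * (1 - q) / 4 := by rw [hPe, hn_eq, hrR]; ring
    rw [← hPs, hsq4] at hL
    have hXV' : 4 * P * ‖X‖ ^ 2 = (s - 2 * r + (1 - q) / 4) * V := by
      rw [hXV, hrR]; ring
    have hVb := V_bound (Λ := 1 + 3 * (1 - 4 * n) * (3 / 4 - 4 * n + 2 * r) - 5 / 2 * q)
      hPpos hV hXV' hL
    have hG : 0 ≤ GB n r := by unfold GB; linarith
    have hΓG : GB n r ≤ Γ := by unfold GB; linarith
    have hκ : 0 ≤ Γ * D / P :=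
      div_nonneg (mul_nonneg (hG.trans hΓG) hDnn) hPpos.le
    -- lower bound for `D`
    have hD2 : 1 - (1 - 4 * n) * (GB n r + q * gB n r) / PB n r ^ 2 ≤ D := by
      rw [← hPB]
      have h1 : P ^ 2 - (1 - s) * (GB n r + q * gB n r) ≤ D * P ^ 2 := by
        have hWP : ‖Wf a σ‖ ≤ P := by
          have h2 : ‖Wf a σ‖ ^ 2 ≤ P ^ 2 := by
            rw [W_sq hσ, ← hA, ← hn, ← hRdef, ← hPe]
            have : 0 ≤ (1 - s) * (-R - n / 4 + q * (1 + R + n / 4)) := by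
              refine mul_nonneg (by linarith) (add_nonneg (by linarith) (mul_nonneg hq ?_))
              linarith
            linarith
          exact abs_le_of_sq_le_sq' h2 hPpos.le |>.2
        -- expansion of the square
        have h3 : ‖Wf a σ‖ ^ 2 - 2 * (1 - s) * (‖ε‖ * ‖Wf a σ‖) ≤
            ‖Wf a σ + (1 - (a : ℂ) ^ 2) * ε‖ ^ 2 := by
          have e1 : ‖Wf a σ + (1 - (a : ℂ) ^ 2) * ε‖ ^ 2 = ‖Wf a σ‖ ^ 2 +
              (1 - s) * (2 * ((starRingEnd ℂ) ε * Wf a σ).re) + (1 - s) ^ 2 * ‖ε‖ ^ 2 := by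
            have : (1 - (a : ℂ) ^ 2) = ((1 - s : ℝ) : ℂ) := by rw [hs]; push_cast; ring
            rw [this]
            simp only [Complex.sq_norm, Complex.normSq_apply, add_re, add_im, mul_re, mul_im,
              conj_re, conj_im, ofReal_re, ofReal_im]
            ring
          rw [e1]
          have h4 : -(2 * (‖ε‖ * ‖Wf a σ‖)) ≤ 2 * ((starRingEnd ℂ) ε * Wf a σ).re := by
            have := cross_le (-ε) (Wf a σ)
            rw [norm_neg, map_neg, neg_mul, neg_re] at this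
            linarith
          have h5 := mul_le_mul_of_nonneg_left h4 (by linarith : 0 ≤ 1 - s)
          have h6 : 0 ≤ (1 - s) ^ 2 * ‖ε‖ ^ 2 := by positivity
          linarith
        rw [hD]
        refine le_trans ?_ h3
        rw [W_sq hσ, ← hA, ← hn, ← hRdef, ← hPe]
        have h7 : ‖ε‖ * ‖Wf a σ‖ ≤ q / 3 * P :=
          mul_le_mul hε hWP (norm_nonneg _) (by linarith)
        have h8 := mul_le_mul_of_nonneg_left h7 (by linarith : 0 ≤ 2 * (1 - s))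
        have h9 : GB n r + q * gB n r = (-R - n / 4 + q * (1 + R + n / 4)) +
            2 * (q / 3 * P) := by
          unfold GB gB
          rw [hPe, hrR]
          ring
        rw [h9]
        linarith
      have hgB := gB_pos (r := r) hn0 (by linarith)
      have h10 : (1 - s) * (GB n r + q * gB n r) ≤ (1 - 4 * n) * (GB n r + q * gB n r) :=
        mul_le_mul_of_nonneg_right (by linarith) (add_nonneg hG (mul_nonneg hq hgB.le))
      have h11 : 1 - (1 - 4 * n) * (GB n r + q * gB n r) / P ^ 2 =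
          (P ^ 2 - (1 - 4 * n) * (GB n r + q * gB n r)) / P ^ 2 := by
        field_simp
      rw [h11, div_le_iff₀ hP2]
      linarith
    have hκ2 : GB n r / PB n r * (1 - (1 - 4 * n) * (GB n r + q * gB n r) / PB n r ^ 2) ≤
        Γ * D / P := by
      have h1 : GB n r / PB n r * (1 - (1 - 4 * n) * (GB n r + q * gB n r) / PB n r ^ 2) ≤
          GB n r / PB n r * D := by
        refine mul_le_mul_of_nonneg_left hD2 (div_nonneg hG ?_)
        rw [← hPB]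
        exact hPpos.le
      have h2 : GB n r / PB n r * D = GB n r * D / P := by rw [← hPB]; ring
      rw [h2] at h1
      refine h1.trans ?_
      exact div_le_div_of_nonneg_right (mul_le_mul_of_nonneg_right hΓG hDnn) hPpos.le
    have hmain := caseB (h := h) (X := X) (Z := Z) (A := A) hrR hn.symm hn4 hr4 hq hq1n hκ hκ2
    have e1 : E2 (alB n r + 7 / 12 * q) (gaB n r - 91 / 24 * q)
        (-(7 / 4) * A + 7 / 12 * (q : ℂ)) h X = 7 / 4 * ‖X - A * h‖ ^ 2 +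
        7 / 12 * q * ‖h + X‖ ^ 2 + P * R * ‖h‖ ^ 2 +
        7 / 4 * (1 + 3 * (1 - 4 * n) * (3 / 4 - 4 * n + 2 * r) - 5 / 2 * q) * ‖X‖ ^ 2 := by
      have e2 : ‖X - A * h‖ ^ 2 = ‖X‖ ^ 2 + n * ‖h‖ ^ 2 -
          2 * (A * h * (starRingEnd ℂ) X).re := by
        rw [hn]
        simp only [Complex.sq_norm, Complex.normSq_apply, sub_re, sub_im, mul_re, mul_im,
          conj_re, conj_im]
        ring
      have e3 : ((-(7 / 4) * A + 7 / 12 * (q : ℂ)) * h * (starRingEnd ℂ) X).re =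
          -(7 / 4) * (A * h * (starRingEnd ℂ) X).re +
            7 / 12 * q * (h * (starRingEnd ℂ) X).re := by
        have : (-(7 / 4) * A + 7 / 12 * (q : ℂ)) * h * (starRingEnd ℂ) X =
            ((-(7 / 4) : ℝ) : ℂ) * (A * h * (starRingEnd ℂ) X) +
              ((7 / 12 * q : ℝ) : ℂ) * (h * (starRingEnd ℂ) X) := by push_cast; ring
        rw [this, add_re, Complex.re_ofReal_mul, Complex.re_ofReal_mul]
      have e4 : ‖h + X‖ ^ 2 = ‖h‖ ^ 2 + ‖X‖ ^ 2 + 2 * (h * (starRingEnd ℂ) X).re := by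
        simp only [Complex.sq_norm, Complex.normSq_apply, add_re, add_im, mul_re,
          conj_re, conj_im]
        ring
      rw [e2, e4, E2, e3]
      unfold alB gaB
      rw [← hPB, hrR]
      ring
    unfold QB at hmain
    rw [e1] at hmain
    linarith

end Pool.Agent.LibMP140d1b.Four
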