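import Mathlib
import Pool.Agent.Lib_MP_140d1b_an.FourPoint
import Pool.Agent.Lib_MP_140d1b_an.Schur

/-!
Averages over the circle `|z| = 1/2`: the defect identity after one Schur step.
-/

namespace Pool.Agent.LibMP140d1b.Four

open Complex Metric Set Filter Topology Real

/-- Average over the circle `|z| = 1/2`. -/
noncomputable def av (f : ℂ → ℝ) : ℝ := circleAverage f 0 (1 / 2)

/-- Continuity on the circle `|z| = 1/2`. -/
def CS (f : ℂ → ℝ) : Prop := ContinuousOn f (sphere (0 : ℂ) (1 / 2))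

lemma half_nonneg' : (0 : ℝ) ≤ 1 / 2 := by norm_num

lemma sphere_half : sphere (0 : ℂ) (1 / 2) ⊆ ball 0 1 := sphere_subset_ball_one (by norm_num)

lemma norm_half {z : ℂ} (hz : z ∈ sphere (0 : ℂ) (1 / 2)) : ‖z‖ = 1 / 2 := by
  simpa only [mem_sphere_iff_norm, sub_zero] using hz

lemma CS.int {f : ℂ → ℝ} (hf : CS f) : CircleIntegrable f 0 (1 / 2) :=
  ContinuousOn.circleIntegrable half_nonneg' hf

lemma av_congr {f g : ℂ → ℝ} (h : ∀ z ∈ sphere (0 : ℂ) (1 / 2), f z = g z) : av f = av g := by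
  refine circleAverage_congr_sphere ?_
  intro z hz
  rw [abs_of_nonneg half_nonneg'] at hz
  exact h z hz

lemma av_mono {f g : ℂ → ℝ} (hf : CS f) (hg : CS g)
    (h : ∀ z ∈ sphere (0 : ℂ) (1 / 2), f z ≤ g z) : av f ≤ av g := by
  refine circleAverage_mono hf.int hg.int ?_
  intro z hz
  rw [abs_of_nonneg half_nonneg'] at hz
  exact h z hz

lemma av_add {f g : ℂ → ℝ} (hf : CS f) (hg : CS g) :
    av (fun z => f z + g z) = av f + av g := circleAverage_fun_add hf.int hg.int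

lemma av_sub {f g : ℂ → ℝ} (hf : CS f) (hg : CS g) :
    av (fun z => f z - g z) = av f - av g := circleAverage_fun_sub hf.int hg.int

lemma av_mul (c : ℝ) (f : ℂ → ℝ) : av (fun z => c * f z) = c * av f := by
  have := circleAverage_fun_smul (a := c) (f := f) (c := 0) (R := 1 / 2)
  unfold av
  simpa only [smul_eq_mul] using this

lemma av_sum {ι : Type*} {s : Finset ι} {f : ι → ℂ → ℝ} (hf : ∀ i ∈ s, CS (f i)) :
    av (fun z => ∑ i ∈ s, f i z) = ∑ i ∈ s, av (f i) :=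
  circleAverage_fun_sum (fun i hi => (hf i hi).int)

lemma av_nonneg {f : ℂ → ℝ} (h : ∀ z, 0 ≤ f z) : 0 ≤ av f :=
  circleAverage_nonneg_of_nonneg (fun z _ => h z)

/-- `avg |J u + z u'|²` on `|z| = 1/2`. -/
noncomputable def NJ (J : ℕ) (u : ℂ → ℂ) : ℝ :=
  av (fun z => ‖(J : ℂ) * u z + z * deriv u z‖ ^ 2)

lemma deriv_congr {u v : ℂ → ℂ} (h : ∀ z ∈ ball (0 : ℂ) 1, u z = v z) {z : ℂ}
    (hz : z ∈ ball (0 : ℂ) 1) : deriv u z = deriv v z := by
  refine Filter.EventuallyEq.deriv_eq ?_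
  filter_upwards [isOpen_ball.mem_nhds hz] with y hy using h y hy

lemma NJ_congr {J : ℕ} {u v : ℂ → ℂ} (h : ∀ z ∈ ball (0 : ℂ) 1, u z = v z) :
    NJ J u = NJ J v := by
  refine av_congr ?_
  intro z hz
  have hzb := sphere_half hz
  rw [h z hzb, deriv_congr h hzb]

lemma euler_diff {u : ℂ → ℂ} (hu : DifferentiableOn ℂ u (ball 0 1)) (c : ℂ) :
    DifferentiableOn ℂ (fun z => c * u z + z * deriv u z) (ball 0 1) :=
  (hu.const_mul _).add (differentiableOn_id.mul (hu.deriv isOpen_ball))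

lemma CS_of_diff {u : ℂ → ℂ} (hu : DifferentiableOn ℂ u (ball 0 1)) :
    CS (fun z => ‖u z‖ ^ 2) := (hu.continuousOn.mono sphere_half).norm.pow 2

/-- Splitting off the constant term. -/
lemma NJ_const_add {u : ℂ → ℂ} (hu : DifferentiableOn ℂ u (ball 0 1)) (c0 : ℂ) (J : ℕ) :
    NJ J (fun z => c0 + z * u z) = (J : ℝ) ^ 2 * ‖c0‖ ^ 2 + 1 / 4 * NJ (J + 1) u := by
  have hd : ∀ z ∈ ball (0 : ℂ) 1, deriv (fun z => c0 + z * u z) z = u z + z * deriv u z := by
    intro z hz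
    have h1 : HasDerivAt u (deriv u z) z :=
      (hu.differentiableAt (isOpen_ball.mem_nhds hz)).hasDerivAt
    have h2 := ((hasDerivAt_id z).mul h1).const_add c0
    have h3 := h2.deriv
    simp only [id] at h3
    calc deriv (fun z => c0 + z * u z) z = 1 * u z + z * deriv u z := h3
      _ = _ := by ring
  have hd1 : DifferentiableOn ℂ
      (fun z => z * (((J + 1 : ℕ) : ℂ) * u z + z * deriv u z)) (ball 0 1) :=
    differentiableOn_id.mul (euler_diff hu _)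
  have e1 : NJ J (fun z => c0 + z * u z) = av (fun z => ‖(J : ℂ) * c0 +
      z * (((J + 1 : ℕ) : ℂ) * u z + z * deriv u z)‖ ^ 2) := by
    refine av_congr ?_
    intro z hz
    simp only
    rw [hd z (sphere_half hz)]
    congr 2
    push_cast
    ring
  have e2 := circleAverage_add_const half_nonneg' (by norm_num : (1 / 2 : ℝ) < 1) hd1 (by simp)
    ((J : ℂ) * c0)
  have e3 : av (fun z => ‖z * (((J + 1 : ℕ) : ℂ) * u z + z * deriv u z)‖ ^ 2) =
      1 / 4 * NJ (J + 1) u := by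
    unfold NJ
    rw [← av_mul]
    refine av_congr ?_
    intro z hz
    rw [norm_mul, mul_pow, norm_half hz]
    norm_num
  rw [e1]
  unfold av
  rw [e2, ← e3, norm_mul, mul_pow, Complex.norm_natCast]
  rfl

lemma NJ_mul {u : ℂ → ℂ} (hu : DifferentiableOn ℂ u (ball 0 1)) (J : ℕ) :
    NJ J (fun z => z * u z) = 1 / 4 * NJ (J + 1) u := by
  have h := NJ_const_add hu 0 J
  simpa using h

/-- The algebraic identity of the Schur step. -/
lemma NJ_schur {f g : ℂ → ℂ} (hf : DifferentiableOn ℂ f (ball 0 1))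
    (hg : DifferentiableOn ℂ g (ball 0 1)) (a : ℝ) (J : ℕ) :
    NJ J (fun z => f z + (a : ℂ) * g z) - NJ J (fun z => (a : ℂ) * f z + g z) =
      (1 - a ^ 2) * (NJ J f - NJ J g) := by
  have hc := fun (u : ℂ → ℂ) (hu : DifferentiableOn ℂ u (ball 0 1)) =>
    CS_of_diff (euler_diff hu (J : ℂ))
  have d1 : DifferentiableOn ℂ (fun z => f z + (a : ℂ) * g z) (ball 0 1) :=
    hf.add (hg.const_mul _)
  have d2 : DifferentiableOn ℂ (fun z => (a : ℂ) * f z + g z) (ball 0 1) :=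
    (hf.const_mul _).add hg
  unfold NJ
  rw [← av_sub (hc _ d1) (hc _ d2), ← av_sub (hc _ hf) (hc _ hg), ← av_mul]
  refine av_congr ?_
  intro z hz
  have hzb := sphere_half hz
  have hf' : HasDerivAt f (deriv f z) z :=
    (hf.differentiableAt (isOpen_ball.mem_nhds hzb)).hasDerivAt
  have hg' : HasDerivAt g (deriv g z) z :=
    (hg.differentiableAt (isOpen_ball.mem_nhds hzb)).hasDerivAt
  have e1 : deriv (fun z => f z + (a : ℂ) * g z) z = deriv f z + a * deriv g z :=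
    (hf'.fun_add (hg'.const_mul _)).deriv
  have e2 : deriv (fun z => (a : ℂ) * f z + g z) z = a * deriv f z + deriv g z :=
    ((hf'.const_mul _).fun_add hg').deriv
  rw [e1, e2]
  set x : ℂ := (J : ℂ) * f z + z * deriv f z with hx
  set y : ℂ := (J : ℂ) * g z + z * deriv g z with hy
  have e3 : (J : ℂ) * (f z + (a : ℂ) * g z) + z * (deriv f z + a * deriv g z) = x + a * y := by
    rw [hx, hy]; ring
  have e4 : (J : ℂ) * ((a : ℂ) * f z + g z) + z * (a * deriv f z + deriv g z) = a * x + y := by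
    rw [hx, hy]; ring
  rw [e3, e4]
  simp only [Complex.sq_norm, Complex.normSq_apply, add_re, add_im, mul_re, mul_im,
    ofReal_re, ofReal_im]
  ring

/-- Lower bound for the Parseval defect, all `J ≥ 1`. -/
lemma NJ_defect {f : ℂ → ℂ} (hf : DifferentiableOn ℂ f (ball 0 1)) {J : ℕ} (hJ : 1 ≤ J) :
    (3 * (J : ℝ) + 1) * (J - 1) / 4 * av (fun z => ‖f z‖ ^ 2) ≤
      NJ J f - 1 / 4 * NJ (J + 1) f := by
  have hr1 : (1 / 2 : ℝ) < 1 := by norm_num
  have s1 := parseval_euler hf half_nonneg' hr1 J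
  have s2 := parseval_euler hf half_nonneg' hr1 (J + 1)
  have s3 := parseval half_nonneg' hr1 hf
  have hS := (s1.sub (s2.mul_left (1 / 4))).sub
    (s3.mul_left ((3 * (J : ℝ) + 1) * (J - 1) / 4))
  have hJ' : (1 : ℝ) ≤ J := by exact_mod_cast hJ
  have hnn := hS.nonneg (fun k => by
    have hk : (0 : ℝ) ≤ k := Nat.cast_nonneg k
    have e : ((k : ℝ) + J) ^ 2 * ‖tc f k‖ ^ 2 * ((1 / 2 : ℝ) ^ 2) ^ k -
        1 / 4 * (((k : ℝ) + ((J + 1 : ℕ) : ℝ)) ^ 2 * ‖tc f k‖ ^ 2 * ((1 / 2 : ℝ) ^ 2) ^ k) -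
        (3 * (J : ℝ) + 1) * (J - 1) / 4 * (‖tc f k‖ ^ 2 * ((1 / 2 : ℝ) ^ 2) ^ k) =
        (k * (3 * k + 6 * J - 2) / 4) * (‖tc f k‖ ^ 2 * ((1 / 2 : ℝ) ^ 2) ^ k) := by
      push_cast
      ring
    rw [e]
    refine mul_nonneg ?_ (by positivity)
    refine div_nonneg (mul_nonneg hk ?_) (by norm_num)
    linarith)
  have e1 : NJ J f = circleAverage (fun z => ‖(J : ℂ) * f z + z * deriv f z‖ ^ 2) 0 (1 / 2) :=
    rfl
  have e2 : NJ (J + 1) f = circleAverage
      (fun z => ‖((J + 1 : ℕ) : ℂ) * f z + z * deriv f z‖ ^ 2) 0 (1 / 2) := rfl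
  have e3 : av (fun z => ‖f z‖ ^ 2) = circleAverage (fun z => ‖f z‖ ^ 2) 0 (1 / 2) := rfl
  rw [e1, e2, e3]
  linarith

/-- The case `J = 1`. -/
lemma NJ_defect_one {f : ℂ → ℂ} (hf : DifferentiableOn ℂ f (ball 0 1)) :
    7 / 4 * av (fun z => ‖f z - f 0‖ ^ 2) ≤ NJ 1 f - 1 / 4 * NJ 2 f := by
  have hr1 : (1 / 2 : ℝ) < 1 := by norm_num
  have s1 := parseval_euler hf half_nonneg' hr1 1
  have s2 := parseval_euler hf half_nonneg' hr1 2
  have s3 := parseval half_nonneg' hr1 hf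
  have hS := (s1.sub (s2.mul_left (1 / 4))).sub (s3.mul_left (7 / 4))
  have hge := sum_le_hasSum {0} (fun k hk => by
    have hk1 : 1 ≤ k := by
      rcases Nat.eq_zero_or_pos k with h | h
      · exfalso; exact hk (by simp [h])
      · exact h
    have hk' : (1 : ℝ) ≤ k := by exact_mod_cast hk1
    have e : ((k : ℝ) + ((1 : ℕ) : ℝ)) ^ 2 * ‖tc f k‖ ^ 2 * ((1 / 2 : ℝ) ^ 2) ^ k -
        1 / 4 * (((k : ℝ) + ((2 : ℕ) : ℝ)) ^ 2 * ‖tc f k‖ ^ 2 * ((1 / 2 : ℝ) ^ 2) ^ k) -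
        7 / 4 * (‖tc f k‖ ^ 2 * ((1 / 2 : ℝ) ^ 2) ^ k) =
        ((3 * k + 7) * (k - 1) / 4) * (‖tc f k‖ ^ 2 * ((1 / 2 : ℝ) ^ 2) ^ k) := by
      push_cast
      ring
    rw [e]
    refine mul_nonneg ?_ (by positivity)
    refine div_nonneg (mul_nonneg (by linarith) (by linarith)) (by norm_num)) hS
  have h0 : tc f 0 = f 0 := by simp [tc]
  simp only [Finset.sum_singleton, Nat.cast_zero, zero_add, h0, pow_zero, mul_one] at hge
  have e1 : NJ 1 f = circleAverage (fun z => ‖((1 : ℕ) : ℂ) * f z + z * deriv f z‖ ^ 2) 0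
    (1 / 2) := rfl
  have e2 : NJ 2 f = circleAverage
      (fun z => ‖((2 : ℕ) : ℂ) * f z + z * deriv f z‖ ^ 2) 0 (1 / 2) := rfl
  have hd : DifferentiableOn ℂ (fun z => f z - f 0) (ball 0 1) := hf.sub_const _
  have e3 := circleAverage_add_const half_nonneg' hr1 hd (by simp) (f 0)
  have e4 : circleAverage (fun z => ‖f 0 + (f z - f 0)‖ ^ 2) 0 (1 / 2) =
      circleAverage (fun z => ‖f z‖ ^ 2) 0 (1 / 2) := by
    congr 1
    funext z
    congr 2
    ring
  rw [e4] at e3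
  rw [e1, e2]
  unfold av
  push_cast at hge ⊢
  nlinarith [hge, e3]

end Pool.Agent.LibMP140d1b.Four
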