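import Mathlib
import Pool.Agent.Lib_MP_140d1b_an.FourInt

/-!
Telescoping of the defects and the lower bounds after one Schur step.
-/

namespace Pool.Agent.LibMP140d1b.Four

open Complex Metric Set Filter Topology Real

/-- `v_i = ∑_k c_{k+i} φ^k`. -/
noncomputable def vf (φ : ℂ → ℂ) (c : ℕ → ℂ) (N i : ℕ) (z : ℂ) : ℂ :=
  pe (fun k => c (k + i)) (N - i) (φ z)

lemma vf_diff {φ : ℂ → ℂ} (hφ : Schwarz φ) (c : ℕ → ℂ) (N i : ℕ) :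
    DifferentiableOn ℂ (vf φ c N i) (ball 0 1) :=
  (pe_differentiable _ _).comp_differentiableOn hφ.diff

/-- The defect of `v`. -/
noncomputable def Ed (ω : ℂ → ℂ) (J : ℕ) (v : ℂ → ℂ) : ℝ := NJ J v - NJ J (fun z => ω z * v z)

lemma tele {φ ω : ℂ → ℂ} (hφ : Schwarz φ) (hω : Factor φ ω) (N : ℕ) : ∀ (c : ℕ → ℂ) (J : ℕ),
    NJ J (fun z => ω z * pe c N (φ z)) +
      ∑ i ∈ Finset.range N, (1 / 4 : ℝ) ^ i * Ed ω (J + i) (vf φ c N i) =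
    ∑ i ∈ Finset.range N, ((J : ℝ) + i) ^ 2 * ‖c i‖ ^ 2 * (1 / 4 : ℝ) ^ i := by
  induction N with
  | zero =>
    intro c J
    simp [pe, NJ, av, circleAverage_const]
  | succ N ih =>
    intro c J
    set c' : ℕ → ℂ := fun k => c (k + 1) with hc'
    have hih := ih c' (J + 1)
    have hd : DifferentiableOn ℂ (fun z => ω z * pe c' N (φ z)) (ball 0 1) :=
      hω.diff.mul ((pe_differentiable c' N).comp_differentiableOn hφ.diff)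
    rw [Finset.sum_range_succ' (fun i => (1 / 4 : ℝ) ^ i * Ed ω (J + i) (vf φ c (N + 1) i)),
      Finset.sum_range_succ' (fun i => ((J : ℝ) + i) ^ 2 * ‖c i‖ ^ 2 * (1 / 4 : ℝ) ^ i)]
    have e1 : ∑ i ∈ Finset.range N, (1 / 4 : ℝ) ^ (i + 1) *
        Ed ω (J + (i + 1)) (vf φ c (N + 1) (i + 1)) =
        1 / 4 * ∑ i ∈ Finset.range N, (1 / 4 : ℝ) ^ i * Ed ω (J + 1 + i) (vf φ c' N i) := by
      rw [Finset.mul_sum]
      refine Finset.sum_congr rfl ?_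
      intro i _
      have e2 : vf φ c (N + 1) (i + 1) = vf φ c' N i := by
        funext z
        unfold vf
        rw [Nat.add_sub_add_right]
        rfl
      have e3 : J + (i + 1) = J + 1 + i := by ring
      rw [e2, e3, pow_succ]
      ring
    have e4 : ∑ i ∈ Finset.range N, ((J : ℝ) + ((i + 1 : ℕ) : ℝ)) ^ 2 * ‖c (i + 1)‖ ^ 2 *
        (1 / 4 : ℝ) ^ (i + 1) = 1 / 4 * ∑ i ∈ Finset.range N,
          ((((J + 1 : ℕ) : ℝ)) + i) ^ 2 * ‖c' i‖ ^ 2 * (1 / 4 : ℝ) ^ i := by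
      rw [Finset.mul_sum]
      refine Finset.sum_congr rfl ?_
      intro i _
      simp only [hc']
      push_cast
      ring
    have e5 : Ed ω (J + 0) (vf φ c (N + 1) 0) =
        (J : ℝ) ^ 2 * ‖c 0‖ ^ 2 + 1 / 4 * NJ (J + 1) (fun z => ω z * pe c' N (φ z)) -
          NJ J (fun z => ω z * pe c (N + 1) (φ z)) := by
      have e6 : vf φ c (N + 1) 0 = fun z => pe c (N + 1) (φ z) := rfl
      have e7 : (fun z => pe c (N + 1) (φ z)) = fun z => c 0 + z * (ω z * pe c' N (φ z)) := by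
        funext z
        rw [pe_succ, hω.eq z]
        ring
      unfold Ed
      rw [e6]
      have e8 := NJ_const_add hd (c 0) J
      rw [← e7] at e8
      rw [Nat.add_zero, e8]
    rw [e1, e4, e5]
    simp only [pow_zero, Nat.cast_zero, add_zero, mul_one, one_mul]
    linarith

/-- `avg |f|² - avg |ψ f|²`. -/
noncomputable def Lq (ψ f : ℂ → ℂ) : ℝ := av (fun z => (1 - ‖ψ z‖ ^ 2) * ‖f z‖ ^ 2)

section schur

variable {a : ℝ} {ψ : ℂ → ℂ}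

lemma sig_norm_lt (hψ : ∀ z ∈ ball (0 : ℂ) 1, ‖ψ z‖ ≤ 1) {z : ℂ} (hz : z ∈ ball (0 : ℂ) 1) :
    ‖z * ψ z‖ < 1 := by
  have hz1 : ‖z‖ < 1 := by simpa using hz
  rw [norm_mul]
  have := hψ z hz
  nlinarith [norm_nonneg z, norm_nonneg (ψ z)]

lemma den_ne' (ha : 0 ≤ a) (ha1 : a ≤ 1) (hψ : ∀ z ∈ ball (0 : ℂ) 1, ‖ψ z‖ ≤ 1) {z : ℂ}
    (hz : z ∈ ball (0 : ℂ) 1) : 1 + (a : ℂ) * (z * ψ z) ≠ 0 := by
  intro h
  have h1 : (a : ℂ) * (z * ψ z) = -1 := by linear_combination h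
  have h2 : ‖(a : ℂ) * (z * ψ z)‖ = 1 := by rw [h1, norm_neg, norm_one]
  rw [norm_mul, Complex.norm_real, Real.norm_eq_abs, abs_of_nonneg ha] at h2
  have := sig_norm_lt hψ hz
  nlinarith [norm_nonneg (z * ψ z)]

/-- `ω = (a + zψ)/(1 + a z ψ)`. -/
noncomputable def om (a : ℝ) (ψ : ℂ → ℂ) (z : ℂ) : ℂ :=
  ((a : ℂ) + z * ψ z) / (1 + (a : ℂ) * (z * ψ z))

/-- `φ = z ω`. -/
noncomputable def ph (a : ℝ) (ψ : ℂ → ℂ) (z : ℂ) : ℂ := z * om a ψ z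

lemma om_diff (ha : 0 ≤ a) (ha1 : a ≤ 1) (hψd : DifferentiableOn ℂ ψ (ball 0 1))
    (hψ : ∀ z ∈ ball (0 : ℂ) 1, ‖ψ z‖ ≤ 1) : DifferentiableOn ℂ (om a ψ) (ball 0 1) := by
  have h1 : DifferentiableOn ℂ (fun z => z * ψ z) (ball 0 1) := differentiableOn_id.mul hψd
  exact (h1.const_add _).div ((h1.const_mul _).const_add _) (fun z hz => den_ne' ha ha1 hψ hz)

lemma om_le (ha : 0 ≤ a) (ha1 : a ≤ 1) (hψ : ∀ z ∈ ball (0 : ℂ) 1, ‖ψ z‖ ≤ 1) :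
    ∀ z ∈ ball (0 : ℂ) 1, ‖om a ψ z‖ ≤ 1 := by
  intro z hz
  have hpos : 0 < ‖1 + (a : ℂ) * (z * ψ z)‖ := norm_pos_iff.mpr (den_ne' ha ha1 hψ hz)
  unfold om
  rw [norm_div, div_le_one hpos]
  refine abs_le_of_sq_le_sq' ?_ hpos.le |>.2
  have h1 : ‖1 + (a : ℂ) * (z * ψ z)‖ ^ 2 - ‖(a : ℂ) + z * ψ z‖ ^ 2 =
      (1 - a ^ 2) * (1 - ‖z * ψ z‖ ^ 2) := by
    generalize z * ψ z = w
    simp only [Complex.sq_norm, Complex.normSq_apply, add_re, add_im, mul_re, mul_im,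
      ofReal_re, ofReal_im, one_re, one_im]
    ring
  have h2 := sig_norm_lt hψ hz
  have h3 : 0 ≤ (1 - a ^ 2) * (1 - ‖z * ψ z‖ ^ 2) := by
    refine mul_nonneg (by nlinarith) (by nlinarith [norm_nonneg (z * ψ z)])
  linarith

lemma ph_factor (ha : 0 ≤ a) (ha1 : a ≤ 1) (hψd : DifferentiableOn ℂ ψ (ball 0 1))
    (hψ : ∀ z ∈ ball (0 : ℂ) 1, ‖ψ z‖ ≤ 1) : Factor (ph a ψ) (om a ψ) :=
  ⟨om_diff ha ha1 hψd hψ, om_le ha ha1 hψ, fun _ => rfl⟩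

lemma ph_schwarz (ha : 0 ≤ a) (ha1 : a ≤ 1) (hψd : DifferentiableOn ℂ ψ (ball 0 1))
    (hψ : ∀ z ∈ ball (0 : ℂ) 1, ‖ψ z‖ ≤ 1) : Schwarz (ph a ψ) := by
  refine ⟨differentiableOn_id.mul (om_diff ha ha1 hψd hψ), ?_, by simp [ph]⟩
  intro z hz
  have hz1 : ‖z‖ < 1 := by simpa using hz
  have h1 := om_le ha ha1 hψ z hz
  simp only [ph, mem_ball, dist_zero_right, norm_mul]
  nlinarith [norm_nonneg z, norm_nonneg (om a ψ z)]

/-- `f = v/(1 + a z ψ)`. -/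
noncomputable def ff (a : ℝ) (ψ v : ℂ → ℂ) (z : ℂ) : ℂ := v z / (1 + (a : ℂ) * (z * ψ z))

lemma ff_diff (ha : 0 ≤ a) (ha1 : a ≤ 1) (hψd : DifferentiableOn ℂ ψ (ball 0 1))
    (hψ : ∀ z ∈ ball (0 : ℂ) 1, ‖ψ z‖ ≤ 1) {v : ℂ → ℂ} (hv : DifferentiableOn ℂ v (ball 0 1)) :
    DifferentiableOn ℂ (ff a ψ v) (ball 0 1) := by
  have h1 : DifferentiableOn ℂ (fun z => z * ψ z) (ball 0 1) := differentiableOn_id.mul hψd
  exact hv.div ((h1.const_mul _).const_add _) (fun z hz => den_ne' ha ha1 hψ hz)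

/-- The defect after one Schur step. -/
lemma Ed_eq (ha : 0 ≤ a) (ha1 : a ≤ 1) (hψd : DifferentiableOn ℂ ψ (ball 0 1))
    (hψ : ∀ z ∈ ball (0 : ℂ) 1, ‖ψ z‖ ≤ 1) {v : ℂ → ℂ} (hv : DifferentiableOn ℂ v (ball 0 1))
    (J : ℕ) : Ed (om a ψ) J v = (1 - a ^ 2) * (NJ J (ff a ψ v) -
      1 / 4 * NJ (J + 1) (fun z => ψ z * ff a ψ v z)) := by
  have hfd := ff_diff ha ha1 hψd hψ hv
  have hψf : DifferentiableOn ℂ (fun z => ψ z * ff a ψ v z) (ball 0 1) := hψd.mul hfd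
  have hg : DifferentiableOn ℂ (fun z => z * (ψ z * ff a ψ v z)) (ball 0 1) :=
    differentiableOn_id.mul hψf
  have h1 := NJ_schur hfd hg a J
  rw [NJ_mul hψf J] at h1
  have e1 : NJ J v = NJ J (fun z => ff a ψ v z + (a : ℂ) * (z * (ψ z * ff a ψ v z))) := by
    refine NJ_congr ?_
    intro z hz
    have hne := den_ne' ha ha1 hψ hz
    have e := div_mul_cancel₀ (v z) hne
    unfold ff
    linear_combination (-1 : ℂ) * e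
  have e2 : NJ J (fun z => om a ψ z * v z) =
      NJ J (fun z => (a : ℂ) * ff a ψ v z + z * (ψ z * ff a ψ v z)) := by
    refine NJ_congr ?_
    intro z hz
    have hne := den_ne' ha ha1 hψ hz
    unfold ff om
    field_simp
  unfold Ed
  rw [e1, e2, h1]

lemma Lq_eq {f : ℂ → ℂ} (hψd : DifferentiableOn ℂ ψ (ball 0 1))
    (hf : DifferentiableOn ℂ f (ball 0 1)) :
    circleAverage (fun z => ‖f z‖ ^ 2) 0 (1 / 2) -
      circleAverage (fun z => ‖ψ z * f z‖ ^ 2) 0 (1 / 2) = Lq ψ f :=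
  Ldef_eq hψd hf half_nonneg' (by norm_num)

lemma key_step4 {f : ℂ → ℂ} (hψd : DifferentiableOn ℂ ψ (ball 0 1))
    (hψ : ∀ z ∈ ball (0 : ℂ) 1, ‖ψ z‖ ≤ 1) (hf : DifferentiableOn ℂ f (ball 0 1)) (J : ℕ) :
    NJ (J + 1) (fun z => ψ z * f z) + (3 * (J : ℝ) ^ 2 + 4 * J) / 3 * Lq ψ f ≤
      NJ (J + 1) f := by
  have h := key_step hψd hψ hf half_nonneg' (le_refl (1 / 2 : ℝ)) (J := J + 1) (by omega)
  rw [Lq_eq hψd hf] at h
  have e1 : ((((J + 1 : ℕ) : ℝ)) ^ 2 - ((((J + 1 : ℕ) : ℝ)) + 1) ^ 2 * (1 / 2) ^ 2) /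
      (1 - (1 / 2 : ℝ) ^ 2) = (3 * (J : ℝ) ^ 2 + 4 * J) / 3 := by
    push_cast
    ring
  rw [e1] at h
  exact h

lemma Ed_ge (ha : 0 ≤ a) (ha1 : a ≤ 1) (hψd : DifferentiableOn ℂ ψ (ball 0 1))
    (hψ : ∀ z ∈ ball (0 : ℂ) 1, ‖ψ z‖ ≤ 1) {v : ℂ → ℂ} (hv : DifferentiableOn ℂ v (ball 0 1))
    {J : ℕ} (hJ : 1 ≤ J) : (1 - a ^ 2) * ((3 * (J : ℝ) + 1) * (J - 1) / 4 *
      av (fun z => ‖ff a ψ v z‖ ^ 2) + (3 * (J : ℝ) ^ 2 + 4 * J) / 12 * Lq ψ (ff a ψ v)) ≤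
      Ed (om a ψ) J v := by
  have hfd := ff_diff ha ha1 hψd hψ hv
  rw [Ed_eq ha ha1 hψd hψ hv J]
  have h1 := NJ_defect hfd hJ
  have h2 := key_step4 hψd hψ hfd J
  refine mul_le_mul_of_nonneg_left ?_ (by nlinarith)
  linarith

lemma Ed_ge_one (ha : 0 ≤ a) (ha1 : a ≤ 1) (hψd : DifferentiableOn ℂ ψ (ball 0 1))
    (hψ : ∀ z ∈ ball (0 : ℂ) 1, ‖ψ z‖ ≤ 1) {v : ℂ → ℂ} (hv : DifferentiableOn ℂ v (ball 0 1)) :
    (1 - a ^ 2) * (7 / 4 * av (fun z => ‖ff a ψ v z - v 0‖ ^ 2) +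
      7 / 12 * Lq ψ (ff a ψ v)) ≤ Ed (om a ψ) 1 v := by
  have hfd := ff_diff ha ha1 hψd hψ hv
  rw [Ed_eq ha ha1 hψd hψ hv 1]
  have h1 := NJ_defect_one hfd
  have h2 := key_step4 hψd hψ hfd 1
  have h3 : ff a ψ v 0 = v 0 := by simp [ff]
  rw [h3] at h1
  refine mul_le_mul_of_nonneg_left ?_ (by nlinarith)
  push_cast at h2
  linarith

end schur

end Pool.Agent.LibMP140d1b.Four
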