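import Mathlib
import Pool.Agent.Lib_MP_140d1b_an.FourTele

/-!
The inequality for the exponent four and polynomials, on the circle `|z| = 1/2`.
-/

namespace Pool.Agent.LibMP140d1b.Four

open Complex Metric Set Filter Topology Real

/-- The weights of the far terms. -/
noncomputable def del (j : ℕ) : ℝ := (1 / 4 : ℝ) ^ (j + 2) * ((3 * j + 10) * (j + 2) / 4)

lemma del_pos (j : ℕ) : 0 < del j := by unfold del; positivity

lemma sum_weights (M : ℕ) :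
    ∑ j ∈ Finset.range M, 4 / (((j : ℝ) + 2) * (3 * j + 10)) ≤ 2 / 3 := by
  have h : ∑ j ∈ Finset.range M, 4 / (((j : ℝ) + 2) * (3 * j + 10)) ≤
      2 / 3 - 4 / (3 * ((M : ℝ) + 2)) := by
    induction M with
    | zero => norm_num
    | succ M ih =>
      rw [Finset.sum_range_succ]
      have hM : (0 : ℝ) ≤ M := Nat.cast_nonneg M
      have h1 : 4 / (((M : ℝ) + 2) * (3 * M + 10)) ≤
          4 / (3 * ((M : ℝ) + 2)) - 4 / (3 * (((M + 1 : ℕ) : ℝ) + 2)) := by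
        have e1 : 4 / (3 * ((M : ℝ) + 2)) - 4 / (3 * (((M + 1 : ℕ) : ℝ) + 2)) =
            4 / (((M : ℝ) + 2) * (3 * M + 9)) := by
          push_cast
          field_simp
          ring
        rw [e1]
        gcongr
        norm_num
      linarith
  have h2 : 0 ≤ 4 / (3 * ((M : ℝ) + 2)) := by positivity
  linarith

/-- The Cauchy–Schwarz estimate for the far terms. -/
lemma Z_bound (M : ℕ) (x : ℕ → ℂ) {w : ℂ} (hw : ‖w‖ ≤ 1 / 2) :
    3 / 2 * ‖∑ j ∈ Finset.range M, w ^ (j + 2) * x j‖ ^ 2 ≤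
      ∑ j ∈ Finset.range M, del j * ‖x j‖ ^ 2 := by
  rcases Nat.eq_zero_or_pos M with hM | hM
  · subst hM; simp
  have hwt : ∀ j : ℕ, 0 < 4 / (((j : ℝ) + 2) * (3 * j + 10)) := fun j => by positivity
  have hSpos : 0 < ∑ j ∈ Finset.range M, 4 / (((j : ℝ) + 2) * (3 * j + 10)) :=
    Finset.sum_pos (fun j _ => hwt j) ⟨0, by simpa using hM⟩
  have h1 : ‖∑ j ∈ Finset.range M, w ^ (j + 2) * x j‖ ≤
      ∑ j ∈ Finset.range M, (1 / 2 : ℝ) ^ (j + 2) * ‖x j‖ := by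
    refine (norm_sum_le _ _).trans (Finset.sum_le_sum ?_)
    intro j _
    rw [norm_mul, norm_pow]
    gcongr
  have h2 : (∑ j ∈ Finset.range M, (1 / 2 : ℝ) ^ (j + 2) * ‖x j‖) ^ 2 /
      ∑ j ∈ Finset.range M, 4 / (((j : ℝ) + 2) * (3 * j + 10)) ≤
      ∑ j ∈ Finset.range M, ((1 / 2 : ℝ) ^ (j + 2) * ‖x j‖) ^ 2 /
        (4 / (((j : ℝ) + 2) * (3 * j + 10))) :=
    Finset.sq_sum_div_le_sum_sq_div _ _ (fun j _ => hwt j)
  have h3 : ∑ j ∈ Finset.range M, ((1 / 2 : ℝ) ^ (j + 2) * ‖x j‖) ^ 2 /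
        (4 / (((j : ℝ) + 2) * (3 * j + 10))) = ∑ j ∈ Finset.range M, del j * ‖x j‖ ^ 2 := by
    refine Finset.sum_congr rfl ?_
    intro j _
    have e : ((1 / 2 : ℝ) ^ (j + 2) * ‖x j‖) ^ 2 = (1 / 4 : ℝ) ^ (j + 2) * ‖x j‖ ^ 2 := by
      rw [mul_pow, ← pow_mul, mul_comm (j + 2) 2, pow_mul]
      norm_num
    rw [e]
    unfold del
    field_simp
  rw [h3, div_le_iff₀ hSpos] at h2
  have h4 : 0 ≤ ∑ j ∈ Finset.range M, del j * ‖x j‖ ^ 2 :=
    Finset.sum_nonneg (fun j _ => mul_nonneg (del_pos j).le (by positivity))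
  have h5 : ‖∑ j ∈ Finset.range M, w ^ (j + 2) * x j‖ ^ 2 ≤
      (∑ j ∈ Finset.range M, (1 / 2 : ℝ) ^ (j + 2) * ‖x j‖) ^ 2 :=
    pow_le_pow_left₀ (norm_nonneg _) h1 2
  have h6 := mul_le_mul_of_nonneg_left (sum_weights M) h4
  linarith

/-- The derivative of the composition as an Euler expression. -/
lemma g_eq {φ ω : ℂ → ℂ} (hφ : Schwarz φ) (hω : Factor φ ω) (a : ℕ → ℂ) (N : ℕ) :
    av (fun z => ‖pe a N (φ z)‖ ^ 2 * ‖deriv φ z‖ ^ 2) =
      NJ 1 (fun z => ω z * pe (fun k => a k / ((k : ℂ) + 1)) N (φ z)) := by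
  set c : ℕ → ℂ := fun k => a k / ((k : ℂ) + 1) with hc
  have hcs : ∀ k, c k * ((k : ℂ) + 1) = a k := by
    intro k
    have h2 : ((k : ℂ) + 1) ≠ 0 := by exact_mod_cast Nat.succ_ne_zero k
    simp only [hc]
    field_simp
  have hpe : ∀ w, HasDerivAt (fun w => w * pe c N w) (pe a N w) w := by
    intro w
    have h1 : HasDerivAt (fun w => ∑ k ∈ Finset.range N, c k * w ^ (k + 1))
        (∑ k ∈ Finset.range N, c k * (((k + 1 : ℕ) : ℂ) * w ^ (k + 1 - 1))) w :=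
      HasDerivAt.fun_sum (fun k _ => (hasDerivAt_pow (k + 1) w).const_mul (c k))
    have h2 : ∑ k ∈ Finset.range N, c k * (((k + 1 : ℕ) : ℂ) * w ^ (k + 1 - 1)) = pe a N w := by
      simp only [pe, Nat.add_sub_cancel]
      refine Finset.sum_congr rfl ?_
      intro k _
      rw [← hcs k]
      push_cast
      ring
    have h3 : (fun w => w * pe c N w) = fun w => ∑ k ∈ Finset.range N, c k * w ^ (k + 1) := by
      funext w
      simp only [pe, Finset.mul_sum]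
      refine Finset.sum_congr rfl ?_
      intro k _
      ring
    rw [h3, ← h2]
    exact h1
  have hgd : DifferentiableOn ℂ (fun z => pe c N (φ z)) (ball 0 1) :=
    (pe_differentiable c N).comp_differentiableOn hφ.diff
  have hωg : DifferentiableOn ℂ (fun z => ω z * pe c N (φ z)) (ball 0 1) := hω.diff.mul hgd
  refine av_congr ?_
  intro z hz
  have hzb := sphere_half hz
  have h1 : HasDerivAt φ (deriv φ z) z :=
    (hφ.diff.differentiableAt (isOpen_ball.mem_nhds hzb)).hasDerivAt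
  have h2 := (hpe (φ z)).comp z h1
  have h3 : HasDerivAt (fun z => ω z * pe c N (φ z))
      (deriv (fun z => ω z * pe c N (φ z)) z) z :=
    (hωg.differentiableAt (isOpen_ball.mem_nhds hzb)).hasDerivAt
  have h4 := (hasDerivAt_id z).mul h3
  have h5 : ((fun w => w * pe c N w) ∘ φ) = (id * fun z => ω z * pe c N (φ z)) := by
    funext y
    simp only [Function.comp_apply, Pi.mul_apply, id]
    nth_rewrite 1 [hω.eq y]
    ring
  rw [h5] at h2
  have h6 := h2.unique h4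
  simp only [id] at h6
  simp only
  rw [← mul_pow, ← norm_mul, h6]
  congr 2
  push_cast
  ring

/-- The average of the real part of an analytic function vanishing at `0`. -/
lemma av_re_zero {u : ℂ → ℂ} (hu : DifferentiableOn ℂ u (ball 0 1)) (hu0 : u 0 = 0) :
    av (fun z => (u z).re) = 0 := by
  have h1 : circleAverage u 0 (1 / 2) = 0 := by
    have hd : DiffContOnCl ℂ u (ball 0 |(1 / 2 : ℝ)|) := by
      have : DifferentiableOn ℂ u (closedBall 0 |(1 / 2 : ℝ)|) := by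
        refine hu.mono ?_
        intro z hz
        simp only [mem_closedBall, dist_zero_right, abs_of_nonneg half_nonneg'] at hz
        simp only [mem_ball, dist_zero_right]
        linarith
      exact this.diffContOnCl_ball subset_rfl
    rw [hd.circleAverage, hu0]
  have hint : CircleIntegrable u 0 (1 / 2) :=
    ContinuousOn.circleIntegrable half_nonneg' (hu.continuousOn.mono sphere_half)
  have := Complex.reCLM.circleAverage_comp_comm hint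
  rw [h1] at this
  simpa [Function.comp_def, av] using this

section main

variable {a : ℝ} {ψ : ℂ → ℂ}

/-- The pointwise data on the circle. -/
lemma data (ha : 0 ≤ a) (ha1 : a ≤ 1) (hψd : DifferentiableOn ℂ ψ (ball 0 1))
    (hψ : ∀ z ∈ ball (0 : ℂ) 1, ‖ψ z‖ ≤ 1) {z : ℂ} (hz : z ∈ sphere (0 : ℂ) (1 / 2)) :
    0 < ‖1 + (a : ℂ) * (z * ψ z)‖ ^ 2 ∧ 0 ≤ 1 - ‖ψ z‖ ^ 2 ∧ 1 - ‖ψ z‖ ^ 2 ≤ 1 ∧
      ‖z * ψ z‖ ^ 2 = (1 - (1 - ‖ψ z‖ ^ 2)) / 4 ∧
      ‖z ^ 2 * deriv ψ z‖ ≤ (1 - ‖ψ z‖ ^ 2) / 3 ∧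
      ‖deriv (ph a ψ) z‖ ^ 2 * (‖1 + (a : ℂ) * (z * ψ z)‖ ^ 2) ^ 2 =
        ‖Wf a (z * ψ z) + (1 - (a : ℂ) ^ 2) * (z ^ 2 * deriv ψ z)‖ ^ 2 ∧
      ‖ph a ψ z‖ ≤ 1 / 2 ∧
      4 * ‖1 + (a : ℂ) * (z * ψ z)‖ ^ 2 * ‖ph a ψ z‖ ^ 2 = ‖(a : ℂ) + z * ψ z‖ ^ 2 := by
  have hzb := sphere_half hz
  have hz2 := norm_half hz
  have hne := den_ne' ha ha1 hψ hzb
  have hψz := hψ z hzb
  have hψ0 := norm_nonneg (ψ z)
  have hden : 0 < ‖1 + (a : ℂ) * (z * ψ z)‖ := norm_pos_iff.mpr hne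
  refine ⟨by positivity, by nlinarith, by nlinarith, ?_, ?_, ?_, ?_, ?_⟩
  · rw [norm_mul, mul_pow, hz2]; ring
  · have h1 := schwarz_pick hψd hψ hzb
    rw [hz2] at h1
    rw [norm_mul, norm_pow, hz2]
    nlinarith
  · have hd : deriv (ph a ψ) z = (Wf a (z * ψ z) + (1 - (a : ℂ) ^ 2) * (z ^ 2 * deriv ψ z)) /
        (1 + (a : ℂ) * (z * ψ z)) ^ 2 := by
      have hψ' : HasDerivAt ψ (deriv ψ z) z :=
        (hψd.differentiableAt (isOpen_ball.mem_nhds hzb)).hasDerivAt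
      have hv : HasDerivAt (fun z => z * ψ z) (ψ z + z * deriv ψ z) z := by
        have := (hasDerivAt_id z).fun_mul hψ'
        refine this.congr_deriv ?_
        simp
      have hnum : HasDerivAt (fun z => (a : ℂ) + z * ψ z) (ψ z + z * deriv ψ z) z :=
        hv.const_add _
      have hdn : HasDerivAt (fun z => 1 + (a : ℂ) * (z * ψ z)) (a * (ψ z + z * deriv ψ z)) z :=
        (hv.const_mul _).const_add _
      have hq := hnum.fun_div hdn hne
      have hφ1 := (hasDerivAt_id z).fun_mul hq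
      have e1 : ph a ψ = fun z => id z * (((a : ℂ) + z * ψ z) / (1 + (a : ℂ) * (z * ψ z))) := by
        funext y
        rfl
      rw [e1, hφ1.deriv]
      simp only [id, Wf]
      set σ := z * ψ z with hσ
      have e2 : z * (ψ z + z * deriv ψ z) = σ + z ^ 2 * deriv ψ z := by rw [hσ]; ring
      have e3 : z * (((ψ z + z * deriv ψ z) * (1 + (a : ℂ) * σ) -
          ((a : ℂ) + σ) * (a * (ψ z + z * deriv ψ z))) / (1 + (a : ℂ) * σ) ^ 2) =
          ((σ + z ^ 2 * deriv ψ z) * (1 + (a : ℂ) * σ) -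
          ((a : ℂ) + σ) * (a * (σ + z ^ 2 * deriv ψ z))) / (1 + (a : ℂ) * σ) ^ 2 := by
        rw [← e2]
        ring
      rw [e3]
      field_simp
      ring
    rw [hd, norm_div, norm_pow, div_pow]
    have : (‖1 + (a : ℂ) * (z * ψ z)‖ ^ 2) ^ 2 ≠ 0 := by positivity
    exact div_mul_cancel₀ _ this
  · have h1 := om_le ha ha1 hψ z hzb
    unfold ph
    rw [norm_mul, hz2]
    nlinarith [norm_nonneg (om a ψ z)]
  · unfold ph om
    rw [norm_mul, norm_div, hz2]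
    generalize ‖1 + (a : ℂ) * (z * ψ z)‖ = x at hden
    generalize ‖(a : ℂ) + z * ψ z‖ = y
    field_simp
    ring

/-- **The inequality for the exponent four**, polynomials with at least two coefficients. -/
theorem four_poly (ha : 0 ≤ a) (ha1 : a ≤ 1) (hψd : DifferentiableOn ℂ ψ (ball 0 1))
    (hψ : ∀ z ∈ ball (0 : ℂ) 1, ‖ψ z‖ ≤ 1) (b : ℕ → ℂ) (M : ℕ) :
    av (fun z => ‖pe b (M + 2) (ph a ψ z)‖ ^ 2 * ‖deriv (ph a ψ) z‖ ^ 4) ≤
      av (fun z => ‖pe b (M + 2) z‖ ^ 2) := by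
  have hφ := ph_schwarz ha ha1 hψd hψ
  have hω := ph_factor ha ha1 hψd hψ
  set φ := ph a ψ with hφdef
  set ω := om a ψ with hωdef
  set c : ℕ → ℂ := fun k => b k / ((k : ℂ) + 1) with hc
  have hcs : ∀ k : ℕ, ((k : ℂ) + 1) * c k = b k := by
    intro k
    have h2 : ((k : ℂ) + 1) ≠ 0 := by exact_mod_cast Nat.succ_ne_zero k
    simp only [hc]
    field_simp
  set v : ℕ → ℂ → ℂ := fun i => vf φ c (M + 2) i with hv
  have hvd : ∀ i, DifferentiableOn ℂ (v i) (ball 0 1) := fun i => vf_diff hφ c (M + 2) i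
  set F : ℕ → ℂ → ℂ := fun i => ff a ψ (v i) with hF
  have hFd : ∀ i, DifferentiableOn ℂ (F i) (ball 0 1) := fun i => ff_diff ha ha1 hψd hψ (hvd i)
  have hv0 : v 0 0 = c 0 := by
    simp only [hv, vf, hφ.zero]
    unfold pe
    rw [Nat.sub_zero, Finset.sum_range_succ']
    simp
  -- the telescoped identity
  have htele := tele hφ hω (M + 2) c 1
  have hg := g_eq hφ hω b (M + 2)
  rw [← hc] at hg
  have hrhs : av (fun z => ‖pe b (M + 2) z‖ ^ 2) =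
      ∑ k ∈ Finset.range (M + 2), ((((1 : ℕ) : ℝ)) + k) ^ 2 * ‖c k‖ ^ 2 * (1 / 4 : ℝ) ^ k := by
    have := circleAverage_poly b (M + 2) (1 / 2)
    unfold av pe
    rw [this]
    refine Finset.sum_congr rfl ?_
    intro k _
    rw [← hcs k, norm_mul, mul_pow]
    have : ‖((k : ℂ) + 1)‖ = (k : ℝ) + 1 := by
      have h : ((k : ℂ) + 1) = (((k : ℝ) + 1 : ℝ) : ℂ) := by push_cast; ring
      rw [h, Complex.norm_real, Real.norm_eq_abs, abs_of_nonneg (by positivity)]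
    rw [this]
    have e : ((1 / 2 : ℝ) ^ 2) = 1 / 4 := by norm_num
    rw [e]
    push_cast
    ring
  rw [← hrhs, ← hg] at htele
  -- the lower bounds for the defects
  have hE0 := Ed_ge_one ha ha1 hψd hψ (hvd 0)
  have hE1 := Ed_ge ha ha1 hψd hψ (hvd 1) (J := 2) (by norm_num)
  have hEj : ∀ j ∈ Finset.range M, (1 - a ^ 2) * (del j * av (fun z => ‖F (j + 2) z‖ ^ 2)) ≤
      (1 / 4 : ℝ) ^ (j + 2) * Ed ω (1 + (j + 2)) (v (j + 2)) := by
    intro j _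
    have h1 := Ed_ge ha ha1 hψd hψ (hvd (j + 2)) (J := 1 + (j + 2)) (by omega)
    have h2 : 0 ≤ Lq ψ (ff a ψ (v (j + 2))) := by
      unfold Lq
      have h3 : av (fun _ => (0 : ℝ)) ≤ av (fun z => (1 - ‖ψ z‖ ^ 2) *
          ‖ff a ψ (v (j + 2)) z‖ ^ 2) := by
        refine av_mono continuousOn_const ?_ ?_
        · exact (continuousOn_const.sub ((hψd.continuousOn.mono sphere_half).norm.pow 2)).mul
            (((hFd (j + 2)).continuousOn.mono sphere_half).norm.pow 2)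
        · intro z hz
          have h4 := hψ z (sphere_half hz)
          have h5 := norm_nonneg (ψ z)
          exact mul_nonneg (by nlinarith) (by positivity)
      simpa [av, circleAverage_const] using h3
    have h6 : 0 ≤ (1 - a ^ 2) * ((3 * ((1 + (j + 2) : ℕ) : ℝ) ^ 2 +
        4 * ((1 + (j + 2) : ℕ) : ℝ)) / 12 * Lq ψ (ff a ψ (v (j + 2)))) :=
      mul_nonneg (by nlinarith) (mul_nonneg (by positivity) h2)
    have h7 : (1 - a ^ 2) * ((3 * ((1 + (j + 2) : ℕ) : ℝ) + 1) *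
        (((1 + (j + 2) : ℕ) : ℝ) - 1) / 4 * av (fun z => ‖ff a ψ (v (j + 2)) z‖ ^ 2)) ≤
        Ed ω (1 + (j + 2)) (v (j + 2)) := by linarith
    have h8 := mul_le_mul_of_nonneg_left h7 (by positivity : 0 ≤ (1 / 4 : ℝ) ^ (j + 2))
    refine le_trans (le_of_eq ?_) h8
    unfold del
    push_cast
    ring
  have hsum : (1 - a ^ 2) * (7 / 4 * av (fun z => ‖F 0 z - c 0‖ ^ 2) + 7 / 12 * Lq ψ (F 0) +
      7 / 16 * av (fun z => ‖F 1 z‖ ^ 2) + 5 / 12 * Lq ψ (F 1) +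
      ∑ j ∈ Finset.range M, del j * av (fun z => ‖F (j + 2) z‖ ^ 2)) ≤
      ∑ i ∈ Finset.range (M + 2), (1 / 4 : ℝ) ^ i * Ed ω (1 + i) (v i) := by
    rw [Finset.sum_range_succ', Finset.sum_range_succ']
    have h1 := Finset.sum_le_sum hEj
    rw [← Finset.mul_sum] at h1
    rw [hv0] at hE0
    have h2 : (1 / 4 : ℝ) ^ (0 + 1) * Ed ω (1 + (0 + 1)) (v (0 + 1)) =
        1 / 4 * Ed ω 2 (v 1) := by norm_num
    have h3 : (1 / 4 : ℝ) ^ 0 * Ed ω (1 + 0) (v 0) = Ed ω 1 (v 0) := by norm_num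
    rw [h2, h3]
    have h4 : ∑ k ∈ Finset.range M, (1 / 4 : ℝ) ^ (k + 1 + 1) * Ed ω (1 + (k + 1 + 1))
        (v (k + 1 + 1)) = ∑ j ∈ Finset.range M, (1 / 4 : ℝ) ^ (j + 2) *
        Ed ω (1 + (j + 2)) (v (j + 2)) := rfl
    rw [h4]
    push_cast at hE1
    linarith
  -- continuity facts
  have cψ : ContinuousOn ψ (sphere (0 : ℂ) (1 / 2)) := hψd.continuousOn.mono sphere_half
  have cψ' : ContinuousOn (deriv ψ) (sphere (0 : ℂ) (1 / 2)) :=
    (hψd.deriv isOpen_ball).continuousOn.mono sphere_half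
  have cφ : ContinuousOn φ (sphere (0 : ℂ) (1 / 2)) := hφ.diff.continuousOn.mono sphere_half
  have cφ' : ContinuousOn (deriv φ) (sphere (0 : ℂ) (1 / 2)) :=
    (hφ.diff.deriv isOpen_ball).continuousOn.mono sphere_half
  have cH : ContinuousOn (fun z => pe b (M + 2) (φ z)) (sphere (0 : ℂ) (1 / 2)) :=
    (pe_continuous _ _).comp_continuousOn cφ
  have cF : ∀ i, ContinuousOn (F i) (sphere (0 : ℂ) (1 / 2)) :=
    fun i => (hFd i).continuousOn.mono sphere_half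
  set G : ℂ → ℝ := fun z => Gam a (z * ψ z) (z ^ 2 * deriv ψ z) * ‖deriv φ z‖ ^ 2 /
    (‖1 + (a : ℂ) * (z * ψ z)‖ ^ 2) ^ 2 * ‖pe b (M + 2) (φ z)‖ ^ 2 with hGdef
  have cG : CS G := by
    have cσ : ContinuousOn (fun z => z * ψ z) (sphere (0 : ℂ) (1 / 2)) := continuousOn_id.mul cψ
    have cε : ContinuousOn (fun z => z ^ 2 * deriv ψ z) (sphere (0 : ℂ) (1 / 2)) :=
      (continuousOn_id.pow 2).mul cψ'
    have cΓ : ContinuousOn (fun z => Gam a (z * ψ z) (z ^ 2 * deriv ψ z))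
        (sphere (0 : ℂ) (1 / 2)) := by
      unfold Gam
      exact ((continuousOn_const.sub (continuousOn_const.mul cε)).norm.pow 2).sub
        ((((continuousOn_const.mul cσ).add (continuousOn_const.mul (cσ.pow 2))).add
          cε).norm.pow 2)
    have cP : ContinuousOn (fun z => (‖1 + (a : ℂ) * (z * ψ z)‖ ^ 2) ^ 2)
        (sphere (0 : ℂ) (1 / 2)) :=
      (((continuousOn_const.add (continuousOn_const.mul cσ)).norm.pow 2).pow 2)
    refine ((cΓ.mul (cφ'.norm.pow 2)).div cP ?_).mul (cH.norm.pow 2)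
    intro z hz
    have := (data ha ha1 hψd hψ hz).1
    positivity
  -- the split of the average with the fourth power
  have hsplit : av (fun z => ‖pe b (M + 2) (φ z)‖ ^ 2 * ‖deriv φ z‖ ^ 4) =
      av (fun z => ‖pe b (M + 2) (φ z)‖ ^ 2 * ‖deriv φ z‖ ^ 2) - (1 - a ^ 2) * av G := by
    have c1 : CS (fun z => ‖pe b (M + 2) (φ z)‖ ^ 2 * ‖deriv φ z‖ ^ 2) :=
      (cH.norm.pow 2).mul (cφ'.norm.pow 2)
    have c2 : CS (fun z => (1 - a ^ 2) * G z) := continuousOn_const.mul cG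
    rw [← av_mul, ← av_sub c1 c2]
    refine av_congr ?_
    intro z hz
    obtain ⟨hP, -, -, hσ, hε, hD, -, -⟩ := data ha ha1 hψd hψ hz
    rw [W_id] at hD
    simp only [hGdef]
    set P := ‖1 + (a : ℂ) * (z * ψ z)‖ ^ 2 with hPdef
    set Γ := Gam a (z * ψ z) (z ^ 2 * deriv ψ z) with hΓ
    have h1 : (1 - a ^ 2) * Γ = P ^ 2 * (1 - ‖deriv φ z‖ ^ 2) := by linarith
    have h2 : (1 - a ^ 2) * (Γ * ‖deriv φ z‖ ^ 2 / P ^ 2 * ‖pe b (M + 2) (φ z)‖ ^ 2) =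
        ((1 - a ^ 2) * Γ) * ‖deriv φ z‖ ^ 2 / P ^ 2 * ‖pe b (M + 2) (φ z)‖ ^ 2 := by ring
    rw [h2, h1]
    field_simp
    ring
  -- the total integrand
  set I : ℂ → ℝ := fun z => 7 / 4 * ‖F 0 z - c 0‖ ^ 2 +
    7 / 12 * ((1 - ‖ψ z‖ ^ 2) * ‖F 0 z‖ ^ 2) + 7 / 16 * ‖F 1 z‖ ^ 2 +
    5 / 12 * ((1 - ‖ψ z‖ ^ 2) * ‖F 1 z‖ ^ 2) +
    ∑ j ∈ Finset.range M, del j * ‖F (j + 2) z‖ ^ 2 + G z with hI
  have cq : ContinuousOn (fun z => 1 - ‖ψ z‖ ^ 2) (sphere (0 : ℂ) (1 / 2)) :=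
    continuousOn_const.sub (cψ.norm.pow 2)
  have t1 : CS (fun z => 7 / 4 * ‖F 0 z - c 0‖ ^ 2) :=
    continuousOn_const.mul (((cF 0).sub continuousOn_const).norm.pow 2)
  have t2 : CS (fun z => 7 / 12 * ((1 - ‖ψ z‖ ^ 2) * ‖F 0 z‖ ^ 2)) :=
    continuousOn_const.mul (cq.mul ((cF 0).norm.pow 2))
  have t3 : CS (fun z => 7 / 16 * ‖F 1 z‖ ^ 2) :=
    continuousOn_const.mul ((cF 1).norm.pow 2)
  have t4 : CS (fun z => 5 / 12 * ((1 - ‖ψ z‖ ^ 2) * ‖F 1 z‖ ^ 2)) :=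
    continuousOn_const.mul (cq.mul ((cF 1).norm.pow 2))
  have t5 : ∀ j ∈ Finset.range M, CS (fun z => del j * ‖F (j + 2) z‖ ^ 2) :=
    fun j _ => continuousOn_const.mul ((cF (j + 2)).norm.pow 2)
  have t5' : CS (fun z => ∑ j ∈ Finset.range M, del j * ‖F (j + 2) z‖ ^ 2) :=
    continuousOn_finsetSum _ t5
  have t12 : CS (fun z => 7 / 4 * ‖F 0 z - c 0‖ ^ 2 +
    7 / 12 * ((1 - ‖ψ z‖ ^ 2) * ‖F 0 z‖ ^ 2)) := ContinuousOn.add t1 t2
  have t123 : CS (fun z => 7 / 4 * ‖F 0 z - c 0‖ ^ 2 +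
    7 / 12 * ((1 - ‖ψ z‖ ^ 2) * ‖F 0 z‖ ^ 2) + 7 / 16 * ‖F 1 z‖ ^ 2) :=
    ContinuousOn.add t12 t3
  have t1234 : CS (fun z => 7 / 4 * ‖F 0 z - c 0‖ ^ 2 +
    7 / 12 * ((1 - ‖ψ z‖ ^ 2) * ‖F 0 z‖ ^ 2) + 7 / 16 * ‖F 1 z‖ ^ 2 +
    5 / 12 * ((1 - ‖ψ z‖ ^ 2) * ‖F 1 z‖ ^ 2)) := ContinuousOn.add t123 t4
  have t12345 : CS (fun z => 7 / 4 * ‖F 0 z - c 0‖ ^ 2 +
    7 / 12 * ((1 - ‖ψ z‖ ^ 2) * ‖F 0 z‖ ^ 2) + 7 / 16 * ‖F 1 z‖ ^ 2 +
    5 / 12 * ((1 - ‖ψ z‖ ^ 2) * ‖F 1 z‖ ^ 2) +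
    ∑ j ∈ Finset.range M, del j * ‖F (j + 2) z‖ ^ 2) := ContinuousOn.add t1234 t5'
  have cI : CS I := ContinuousOn.add t12345 cG
  have hIav : av I = 7 / 4 * av (fun z => ‖F 0 z - c 0‖ ^ 2) + 7 / 12 * Lq ψ (F 0) +
      7 / 16 * av (fun z => ‖F 1 z‖ ^ 2) + 5 / 12 * Lq ψ (F 1) +
      ∑ j ∈ Finset.range M, del j * av (fun z => ‖F (j + 2) z‖ ^ 2) + av G := by
    rw [hI, av_add t12345 cG, av_add t1234 t5', av_add t123 t4, av_add t12 t3, av_add t1 t2,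
      av_mul, av_mul, av_mul, av_mul, av_sum t5]
    unfold Lq
    simp only [av_mul]
  -- the pointwise inequality
  have hpt : ∀ z ∈ sphere (0 : ℂ) (1 / 2), -‖c 0‖ ^ 2 * ((a : ℂ) * (z * ψ z)).re ≤ I z := by
    intro z hz
    obtain ⟨hP, hq0, hq1, hσ, hε, hD, hφ2, hφw⟩ := data ha ha1 hψd hψ hz
    have hne := den_ne' ha ha1 hψ (sphere_half hz)
    set X : ℂ := φ z * v 1 z with hX
    set Z : ℂ := ∑ j ∈ Finset.range M, φ z ^ (j + 2) * v (j + 2) z with hZ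
    have hXV : 4 * ‖1 + (a : ℂ) * (z * ψ z)‖ ^ 2 * ‖X‖ ^ 2 =
        ‖(a : ℂ) + z * ψ z‖ ^ 2 * ‖v 1 z‖ ^ 2 := by
      rw [hX, norm_mul, mul_pow, ← hφw]
      ring
    have hpw := pointwise4 (h := c 0) (X := X) (Z := Z) (V := ‖v 1 z‖ ^ 2) ha ha1 hq0 hq1 hσ hε
      hXV (by positivity) rfl hP hD
    set P : ℝ := ‖1 + (a : ℂ) * (z * ψ z)‖ ^ 2 with hPdef
    have hv0z : v 0 z = c 0 + X := by
      simp only [hX, hv, vf]
      rw [Nat.sub_zero, pe_succ]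
      simp only [Nat.add_zero, zero_add]
      rfl
    have hHz : pe b (M + 2) (φ z) = c 0 + 2 * X + Z := by
      have h1 : pe b (M + 2) (φ z) = ∑ i ∈ Finset.range (M + 2),
          φ z ^ i * pe (fun k => c (k + i)) (M + 2 - i) (φ z) := by
        rw [← pe_deriv_sum (M + 2) c (φ z)]
        congr 1
        funext k
        exact (hcs k).symm
      rw [h1, Finset.sum_range_succ', Finset.sum_range_succ']
      have h2 : ∀ i, pe (fun k => c (k + i)) (M + 2 - i) (φ z) = v i z := fun i => rfl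
      simp only [h2]
      rw [hv0z, hZ, hX]
      simp only [zero_add, pow_one, pow_zero, one_mul]
      ring
    have hFv : ∀ i, P * ‖F i z‖ ^ 2 = ‖v i z‖ ^ 2 := by
      intro i
      have h1 : F i z * (1 + (a : ℂ) * (z * ψ z)) = v i z := div_mul_cancel₀ _ hne
      rw [← h1, norm_mul, mul_pow, hPdef]
      ring
    have hF0 : P * ‖F 0 z - c 0‖ ^ 2 = ‖X - (a : ℂ) * (z * ψ z) * c 0‖ ^ 2 := by
      have h1 : F 0 z * (1 + (a : ℂ) * (z * ψ z)) = v 0 z := div_mul_cancel₀ _ hne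
      have h2 : X - (a : ℂ) * (z * ψ z) * c 0 = (F 0 z - c 0) * (1 + (a : ℂ) * (z * ψ z)) := by
        rw [sub_mul, h1, hv0z]
        ring
      rw [h2, norm_mul, mul_pow, hPdef]
      ring
    have hZb := Z_bound M (fun j => v (j + 2) z) hφ2
    have hsumP : P * ∑ j ∈ Finset.range M, del j * ‖F (j + 2) z‖ ^ 2 =
        ∑ j ∈ Finset.range M, del j * ‖v (j + 2) z‖ ^ 2 := by
      rw [Finset.mul_sum]
      refine Finset.sum_congr rfl ?_
      intro j _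
      rw [← hFv (j + 2)]
      ring
    have hGz : P * G z = Gam a (z * ψ z) (z ^ 2 * deriv ψ z) * ‖deriv φ z‖ ^ 2 / P *
        ‖c 0 + 2 * X + Z‖ ^ 2 := by
      simp only [hGdef]
      rw [hHz, ← hPdef]
      field_simp
    have hPI : P * I z = 7 / 4 * ‖X - (a : ℂ) * (z * ψ z) * c 0‖ ^ 2 +
        7 / 12 * (1 - ‖ψ z‖ ^ 2) * ‖c 0 + X‖ ^ 2 +
        (7 / 16 + 5 / 12 * (1 - ‖ψ z‖ ^ 2)) * ‖v 1 z‖ ^ 2 +
        ∑ j ∈ Finset.range M, del j * ‖v (j + 2) z‖ ^ 2 +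
        Gam a (z * ψ z) (z ^ 2 * deriv ψ z) * ‖deriv φ z‖ ^ 2 / P *
        ‖c 0 + 2 * X + Z‖ ^ 2 := by
      rw [← hGz, ← hsumP, ← hFv 1, ← hv0z, ← hFv 0, ← hF0, hI]
      ring
    have hfin : P * (-‖c 0‖ ^ 2 * ((a : ℂ) * (z * ψ z)).re) ≤ P * I z := by
      rw [hPI]
      linarith
    exact le_of_mul_le_mul_left hfin hP
  have hmono : av (fun z => -‖c 0‖ ^ 2 * ((a : ℂ) * (z * ψ z)).re) ≤ av I := by
    refine av_mono ?_ cI hpt
    exact continuousOn_const.mul (Complex.continuous_re.comp_continuousOn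
      (continuousOn_const.mul (continuousOn_id.mul cψ)))
  have hzero : av (fun z => -‖c 0‖ ^ 2 * ((a : ℂ) * (z * ψ z)).re) = 0 := by
    rw [av_mul]
    have h1 : av (fun z => ((a : ℂ) * (z * ψ z)).re) = 0 := by
      refine av_re_zero (u := fun z => (a : ℂ) * (z * ψ z)) ?_ (by simp)
      exact (differentiableOn_id.mul hψd).const_mul _
    rw [h1, mul_zero]
  rw [hzero, hIav] at hmono
  have hb : 0 ≤ 1 - a ^ 2 := by nlinarith
  have h9 := mul_nonneg hb hmono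
  rw [hsplit]
  push_cast at htele
  simp only [hv] at hsum
  linarith

end main

end Pool.Agent.LibMP140d1b.Four
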