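import Mathlib
import Pool.Agent.Lib_MP_140d1b_an.Main

/-!
The derivative inequality fails at exponent `14` and radius `1/2`:
take `φ(z) = z (3z+2)/(3+2z)` and `h(z) = 5 + z`.
-/

namespace Pool.Agent.LibMP140d1b

open Complex Metric Set Filter Topology Real

/-- `f` agrees with the cubic polynomial `a + bz + cz² + dz³` up to order four. -/
def Tay (f : ℂ → ℂ) (a b c d : ℂ) : Prop :=
  ∃ v : ℂ → ℂ, DifferentiableOn ℂ v (ball 0 1) ∧
    ∀ z ∈ ball (0 : ℂ) 1, f z = a + z * (b + z * (c + z * (d + z * v z)))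

lemma Tay.mul {f g : ℂ → ℂ} {a b c d a' b' c' d' : ℂ} (hf : Tay f a b c d)
    (hg : Tay g a' b' c' d') : Tay (fun z => f z * g z) (a * a') (a * b' + b * a')
      (a * c' + b * b' + c * a') (a * d' + b * c' + c * b' + d * a') := by
  obtain ⟨v, hv, hfv⟩ := hf
  obtain ⟨w, hw, hgw⟩ := hg
  refine ⟨fun z => (b * d' + c * c' + d * b') + z * (c * d' + d * c') + z ^ 2 * (d * d') +
    (a + z * b + z ^ 2 * c + z ^ 3 * d) * w z + (a' + z * b' + z ^ 2 * c' + z ^ 3 * d') * v z +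
    z ^ 4 * (v z * w z), ?_, ?_⟩
  · refine DifferentiableOn.add (DifferentiableOn.add (DifferentiableOn.add ?_ ?_) ?_) ?_
    · fun_prop
    · exact DifferentiableOn.mul (by fun_prop) hw
    · exact DifferentiableOn.mul (by fun_prop) hv
    · exact DifferentiableOn.mul (by fun_prop) (hv.mul hw)
  · intro z hz
    simp only [hfv z hz, hgw z hz]
    ring

lemma avg_shift {f u : ℂ → ℂ} {a : ℂ} {r : ℝ} (hr : 0 ≤ r) (hr1 : r < 1)
    (hu : DifferentiableOn ℂ u (ball 0 1)) (hf : ∀ z ∈ ball (0 : ℂ) 1, f z = a + z * u z) :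
    circleAverage (fun z => ‖f z‖ ^ 2) 0 r =
      ‖a‖ ^ 2 + r ^ 2 * circleAverage (fun z => ‖u z‖ ^ 2) 0 r := by
  have hsub := sphere_subset_ball_one hr1
  have e1 : circleAverage (fun z => ‖f z‖ ^ 2) 0 r =
      circleAverage (fun z => ‖a + z * u z‖ ^ 2) 0 r := by
    refine circleAverage_congr_sphere ?_
    intro z hz
    rw [abs_of_nonneg hr] at hz
    simp only [hf z (hsub hz)]
  have hd : DifferentiableOn ℂ (fun z => z * u z) (ball 0 1) := differentiableOn_id.mul hu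
  rw [e1, circleAverage_add_const (R := 1) hr hr1 hd (by simp) a]
  congr 1
  have := circleAverage_fun_smul (a := (r ^ 2 : ℝ)) (f := fun z => ‖u z‖ ^ 2)
    (c := 0) (R := r)
  simp only [smul_eq_mul] at this
  rw [← this]
  refine circleAverage_congr_sphere ?_
  intro z hz
  rw [abs_of_nonneg hr] at hz
  simp only [mem_sphere_iff_norm, sub_zero] at hz
  simp only [norm_mul, mul_pow, hz]

lemma Tay.lower {f : ℂ → ℂ} {a b c d : ℂ} (hf : Tay f a b c d) {r : ℝ} (hr : 0 ≤ r)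
    (hr1 : r < 1) : ‖a‖ ^ 2 + r ^ 2 * (‖b‖ ^ 2 + r ^ 2 * (‖c‖ ^ 2 + r ^ 2 * ‖d‖ ^ 2)) ≤
      circleAverage (fun z => ‖f z‖ ^ 2) 0 r := by
  obtain ⟨v, hv, hfv⟩ := hf
  have d3 : DifferentiableOn ℂ (fun z => d + z * v z) (ball 0 1) :=
    (differentiableOn_id.mul hv).const_add d
  have d2 : DifferentiableOn ℂ (fun z => c + z * (d + z * v z)) (ball 0 1) :=
    (differentiableOn_id.mul d3).const_add c
  have d1 : DifferentiableOn ℂ (fun z => b + z * (c + z * (d + z * v z))) (ball 0 1) :=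
    (differentiableOn_id.mul d2).const_add b
  rw [avg_shift hr hr1 d1 hfv, avg_shift hr hr1 d2 (fun _ _ => rfl),
    avg_shift hr hr1 d3 (fun _ _ => rfl), avg_shift hr hr1 hv (fun _ _ => rfl)]
  have h0 : 0 ≤ circleAverage (fun z => ‖v z‖ ^ 2) 0 r :=
    circleAverage_nonneg_of_nonneg (fun _ _ => by positivity)
  have h1 : 0 ≤ r ^ 2 * circleAverage (fun z => ‖v z‖ ^ 2) 0 r := by positivity
  gcongr
  linarith

/-- The test function. -/
noncomputable def phi0 (z : ℂ) : ℂ := z * (3 * z + 2) / (3 + 2 * z)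

lemma den_ne {z : ℂ} (hz : z ∈ ball (0 : ℂ) 1) : (3 + 2 * z : ℂ) ≠ 0 := by
  intro h
  simp only [mem_ball, dist_zero_right] at hz
  have h1 : (3 : ℂ) = -(2 * z) := by linear_combination h
  have h2 : ‖(3 : ℂ)‖ = ‖-(2 * z)‖ := by rw [h1]
  simp at h2
  linarith

lemma phi0_hasDerivAt {z : ℂ} (hz : z ∈ ball (0 : ℂ) 1) :
    HasDerivAt phi0 (6 * (1 + 3 * z + z ^ 2) / (3 + 2 * z) ^ 2) z := by
  have hne := den_ne hz
  have h1 : HasDerivAt (fun z : ℂ => z * (3 * z + 2)) (1 * (3 * z + 2) + z * 3) z := by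
    have h2 : HasDerivAt (fun z : ℂ => 3 * z + 2) 3 z := by
      simpa using ((hasDerivAt_id z).const_mul 3).add_const 2
    exact (hasDerivAt_id z).mul h2
  have h3 : HasDerivAt (fun z : ℂ => 3 + 2 * z) 2 z := by
    simpa using ((hasDerivAt_id z).const_mul 2).const_add 3
  have h4 := h1.div h3 hne
  have h5 : ((1 * (3 * z + 2) + z * 3) * (3 + 2 * z) - z * (3 * z + 2) * 2) / (3 + 2 * z) ^ 2 =
      6 * (1 + 3 * z + z ^ 2) / (3 + 2 * z) ^ 2 := by
    congr 1
    ring
  rw [← h5]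
  exact h4

lemma phi0_schwarz : Schwarz phi0 := by
  refine ⟨fun z hz => (phi0_hasDerivAt hz).differentiableAt.differentiableWithinAt, ?_, ?_⟩
  · intro z hz
    have hne := den_ne hz
    simp only [mem_ball, dist_zero_right] at hz ⊢
    unfold phi0
    have h1 : ‖3 * z + 2‖ < ‖3 + 2 * z‖ := by
      refine lt_of_pow_lt_pow_left₀ 2 (norm_nonneg _) ?_
      rw [← Complex.normSq_eq_norm_sq, ← Complex.normSq_eq_norm_sq]
      have hz2 : z.re ^ 2 + z.im ^ 2 < 1 := by
        have h2 : ‖z‖ ^ 2 < 1 := pow_lt_one₀ (norm_nonneg _) hz two_ne_zero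
        rw [← Complex.normSq_eq_norm_sq, Complex.normSq_apply] at h2
        nlinarith
      simp only [Complex.normSq_apply, Complex.add_re, Complex.mul_re, Complex.add_im,
        Complex.mul_im, Complex.re_ofNat, Complex.im_ofNat]
      nlinarith
    rw [norm_div, norm_mul, mul_div_assoc]
    have h2 : ‖3 * z + 2‖ / ‖3 + 2 * z‖ < 1 := by
      rw [div_lt_one (norm_pos_iff.mpr hne)]
      exact h1
    have h3 : 0 ≤ ‖3 * z + 2‖ / ‖3 + 2 * z‖ := by positivity
    nlinarith [norm_nonneg z]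
  · simp [phi0]

/-- The Taylor expansion of `(5 + φ) φ'`. -/
lemma tay_one : Tay (fun z => (5 + phi0 z) * deriv phi0 z) (10 / 3) 6 (-40 / 9) (370 / 81) := by
  refine ⟨fun z => (-350 / 3 + z * (-1160 / 9) + z ^ 2 * (-2960 / 81)) / (3 + 2 * z) ^ 3, ?_, ?_⟩
  · refine DifferentiableOn.div (by fun_prop) (by fun_prop) ?_
    intro z hz
    exact pow_ne_zero 3 (den_ne hz)
  · intro z hz
    have hne := den_ne hz
    simp only [(phi0_hasDerivAt hz).deriv, phi0]
    obtain ⟨D, hD⟩ : ∃ D : ℂ, D = 3 + 2 * z := ⟨_, rfl⟩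
    have hz' : z = (D - 3) / 2 := by rw [hD]; ring
    rw [← hD] at hne ⊢
    rw [hz']
    field_simp
    ring

lemma tay_seven : Tay (fun z => ((5 + phi0 z) * deriv phi0 z) ^ 7)
    (10000000 / 2187) (14000000 / 243) (1761200000 / 6561) (30486400000 / 59049) := by
  have h2 := tay_one.mul tay_one
  have h3 := h2.mul tay_one
  have h4 := h2.mul h2
  have h7 := h3.mul h4
  have e : (fun z => ((5 + phi0 z) * deriv phi0 z) ^ 7) = fun z =>
      ((5 + phi0 z) * deriv phi0 z * ((5 + phi0 z) * deriv phi0 z) *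
        ((5 + phi0 z) * deriv phi0 z)) *
      (((5 + phi0 z) * deriv phi0 z * ((5 + phi0 z) * deriv phi0 z)) *
        ((5 + phi0 z) * deriv phi0 z * ((5 + phi0 z) * deriv phi0 z))) := by
    funext z
    ring
  rw [e]
  convert h7 using 1 <;> norm_num

/-- The inequality fails for exponent `14` at radius `1/2`. -/
lemma not_goodAt_fourteen : ¬ GoodAt 14 (1 / 2) := by
  intro hgood
  have h1 := hgood phi0 (fun z => 5 + z) phi0_schwarz (by fun_prop)
  have e1 : circleAverage (fun z => ‖5 + phi0 z‖ ^ (14 : ℝ) * ‖deriv phi0 z‖ ^ (14 : ℝ)) 0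
      (1 / 2) = circleAverage (fun z => ‖((5 + phi0 z) * deriv phi0 z) ^ 7‖ ^ 2) 0 (1 / 2) := by
    congr 1
    funext z
    rw [← Real.mul_rpow (norm_nonneg _) (norm_nonneg _), ← norm_mul, norm_pow, ← pow_mul]
    exact_mod_cast Real.rpow_natCast _ 14
  have e2 : circleAverage (fun z : ℂ => ‖5 + z‖ ^ (14 : ℝ)) 0 (1 / 2) =
      circleAverage (fun z => ‖∑ k ∈ Finset.range 8,
        (((Nat.choose 7 k : ℕ) : ℂ) * 5 ^ (7 - k)) * z ^ k‖ ^ 2) 0 (1 / 2) := by
    congr 1
    funext z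
    have h2 : ∑ k ∈ Finset.range 8, (((Nat.choose 7 k : ℕ) : ℂ) * 5 ^ (7 - k)) * z ^ k =
        (5 + z) ^ 7 := by
      rw [add_comm, add_pow]
      refine Finset.sum_congr rfl ?_
      intro k _
      ring
    rw [h2, norm_pow, ← pow_mul]
    exact_mod_cast Real.rpow_natCast _ 14
  rw [e1, e2, circleAverage_poly] at h1
  have h3 := tay_seven.lower (r := 1 / 2) (by norm_num) (by norm_num)
  have h4 := h3.trans h1
  simp only [norm_div, Complex.norm_ofNat, Finset.sum_range_succ, Finset.sum_range_zero,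
    norm_mul, norm_pow, Complex.norm_natCast] at h4
  norm_num [Nat.choose] at h4

end Pool.Agent.LibMP140d1b
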