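import Mathlib
import Pool.Agent.Lib_MP_140d1b_an.Violation

/-!
The threshold exponent: `r_p = 1/2` exactly for `p ≤ P`, with `2 ≤ P < 14`.
-/

namespace Pool.Agent.LibMP140d1b

open Complex Metric Set Filter Topology Real

lemma integrand_continuousOn {p : ℝ} (hp : 0 < p) {φ h : ℂ → ℂ} (hφ : Schwarz φ)
    (hh : DifferentiableOn ℂ h (ball 0 1)) :
    ContinuousOn (fun z => ‖h (φ z)‖ ^ p * ‖deriv φ z‖ ^ p) (ball 0 1) := by
  have h1 : ContinuousOn (fun z => h (φ z)) (ball 0 1) :=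
    hh.continuousOn.comp hφ.diff.continuousOn hφ.maps
  exact (h1.norm.rpow_const (fun _ _ => Or.inr hp.le)).mul
    (hφ.deriv_diff.continuousOn.norm.rpow_const (fun _ _ => Or.inr hp.le))

/-- Continuity in the radius. -/
lemma goodAt_of_lt {p ρ : ℝ} (hp : 0 < p) (hρ : 0 < ρ) (hρ1 : ρ < 1)
    (h : ∀ r, 0 < r → r < ρ → GoodAt p r) : GoodAt p ρ := by
  intro φ u hφ hu
  have c1 : ContinuousOn (circleAverage (fun z => ‖u (φ z)‖ ^ p * ‖deriv φ z‖ ^ p) 0)
      (Ico 0 1) := by
    refine ContinuousOn.circleAverage ?_ (fun r hr => hr.1)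
    refine (integrand_continuousOn hp hφ hu).mono ?_
    intro z hz
    simp only [sub_zero, mem_ofPred_eq, mem_Ico] at hz
    simpa using hz.2
  have c2 : ContinuousOn (circleAverage (fun z => ‖u z‖ ^ p) 0) (Ico 0 1) := by
    refine ContinuousOn.circleAverage ?_ (fun r hr => hr.1)
    refine (hu.continuousOn.norm.rpow_const (fun _ _ => Or.inr hp.le)).mono ?_
    intro z hz
    simp only [sub_zero, mem_ofPred_eq, mem_Ico] at hz
    simpa using hz.2
  have hsub : Ioo 0 ρ ⊆ Ico 0 1 := fun r hr => ⟨hr.1.le, hr.2.trans hρ1⟩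
  have hmem : ρ ∈ Ico (0 : ℝ) 1 := ⟨hρ.le, hρ1⟩
  have hcl : ρ ∈ closure (Ioo 0 ρ) := by
    rw [closure_Ioo hρ.ne]
    exact ⟨hρ.le, le_rfl⟩
  exact ContinuousWithinAt.closure_le hcl ((c1 ρ hmem).mono hsub) ((c2 ρ hmem).mono hsub)
    (fun r hr => h r hr.1 hr.2 φ u hφ hu)

/-- Continuity in the exponent. -/
lemma goodAt_of_lt_exponent {q r : ℝ} (hq : 0 < q) (hr : 0 < r) (hr1 : r < 1)
    (h : ∀ p, 0 < p → p < q → GoodAt p r) : GoodAt q r := by
  intro φ u hφ hu
  have hsub := sphere_subset_ball_one hr1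
  have hcirc : ∀ θ, circleMap 0 r θ ∈ sphere (0 : ℂ) r := fun θ => circleMap_mem_sphere 0 hr.le θ
  have c1 : Continuous (fun θ : ℝ => ‖u (φ (circleMap 0 r θ))‖) := by
    have h1 : ContinuousOn (fun z => u (φ z)) (ball 0 1) :=
      hu.continuousOn.comp hφ.diff.continuousOn hφ.maps
    exact ((h1.mono hsub).comp_continuous (continuous_circleMap 0 r) hcirc).norm
  have c2 : Continuous (fun θ : ℝ => ‖deriv φ (circleMap 0 r θ)‖) :=
    ((hφ.deriv_diff.continuousOn.mono hsub).comp_continuous (continuous_circleMap 0 r) hcirc).norm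
  have c3 : Continuous (fun θ : ℝ => ‖u (circleMap 0 r θ)‖) :=
    ((hu.continuousOn.mono hsub).comp_continuous (continuous_circleMap 0 r) hcirc).norm
  have hpos : ∀ p : ℝ, 0 < max p (q / 2) := fun p => lt_max_of_lt_right (by positivity)
  have k1 : Continuous (fun p : ℝ => circleAverage
      (fun z => ‖u (φ z)‖ ^ (max p (q / 2)) * ‖deriv φ z‖ ^ (max p (q / 2))) 0 r) := by
    unfold circleAverage
    have h5 : Continuous (fun p : ℝ => ∫ θ in (0 : ℝ)..2 * π,
        ‖u (φ (circleMap 0 r θ))‖ ^ (max p (q / 2)) *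
          ‖deriv φ (circleMap 0 r θ)‖ ^ (max p (q / 2))) := by
      refine intervalIntegral.continuous_parametric_intervalIntegral_of_continuous' ?_ _ _
      refine Continuous.mul ?_ ?_
      · exact (c1.comp continuous_snd).rpow (by fun_prop) (fun x => Or.inr (hpos x.1))
      · exact (c2.comp continuous_snd).rpow (by fun_prop) (fun x => Or.inr (hpos x.1))
    exact h5.const_smul ((2 * π)⁻¹ : ℝ)
  have k2 : Continuous (fun p : ℝ => circleAverage (fun z => ‖u z‖ ^ (max p (q / 2))) 0 r) := by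
    unfold circleAverage
    have h5 : Continuous (fun p : ℝ => ∫ θ in (0 : ℝ)..2 * π,
        ‖u (circleMap 0 r θ)‖ ^ (max p (q / 2))) := by
      refine intervalIntegral.continuous_parametric_intervalIntegral_of_continuous' ?_ _ _
      exact (c3.comp continuous_snd).rpow (by fun_prop) (fun x => Or.inr (hpos x.1))
    exact h5.const_smul ((2 * π)⁻¹ : ℝ)
  have hcl : q ∈ closure (Ioo (q / 2) q) := by
    rw [closure_Ioo (by linarith : q / 2 ≠ q)]
    exact ⟨by linarith, le_rfl⟩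
  have hfin := ContinuousWithinAt.closure_le hcl k1.continuousWithinAt k2.continuousWithinAt
    (fun p hp => by
      rw [max_eq_left hp.1.le]
      exact h p (by linarith [hp.1]) hp.2 φ u hφ hu)
  rwa [max_eq_left (by linarith : q / 2 ≤ q)] at hfin

/-- The threshold theorem. -/
theorem threshold : ∃ P : ℝ, 2 ≤ P ∧ P < 14 ∧
    ∀ p : ℝ, 0 < p → (subordinationRadius p = 1 / 2 ↔ p ≤ P) := by
  set A : Set ℝ := {p | 0 < p ∧ (1 / 2 : ℝ) ∈ admissibleRadii p} with hA
  have h2A : (2 : ℝ) ∈ A := ⟨two_pos, half_mem_of_le_two two_pos le_rfl⟩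
  have hgood : ∀ p ∈ A, ∀ r, 0 < r → r < 1 / 2 → GoodAt p r :=
    fun p hp r hr hr2 => goodAt_of_mem hp.1 hp.2 hr hr2
  have hlt14 : ∀ p ∈ A, p < 14 := by
    intro p hp
    by_contra hge
    push Not at hge
    apply not_goodAt_fourteen
    have h1 : GoodAt p (1 / 2) :=
      goodAt_of_lt hp.1 (by norm_num) (by norm_num) (hgood p hp)
    exact goodAt_mono (by norm_num) hge (by norm_num) (by norm_num) h1
  have hbdd : BddAbove A := ⟨14, fun p hp => (hlt14 p hp).le⟩
  set P := sSup A with hP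
  have h2P : 2 ≤ P := le_csSup hbdd h2A
  have hmono : ∀ q ∈ A, ∀ p, 0 < p → p ≤ q → p ∈ A := by
    intro q hq p hp hpq
    refine ⟨hp, mem_admissible_of_goodAt hp (by norm_num) (by norm_num) ?_⟩
    intro r hr hr2
    exact goodAt_mono hp hpq hr (by linarith) (hgood q hq r hr hr2)
  have hPA : P ∈ A := by
    refine ⟨by linarith, mem_admissible_of_goodAt (by linarith) (by norm_num) (by norm_num) ?_⟩
    intro r hr hr2
    refine goodAt_of_lt_exponent (by linarith) hr (by linarith) ?_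
    intro p hp hpP
    obtain ⟨q, hq, hpq⟩ := exists_lt_of_lt_csSup ⟨2, h2A⟩ hpP
    exact hgood p (hmono q hq p hp hpq.le) r hr hr2
  refine ⟨P, h2P, hlt14 P hPA, ?_⟩
  intro p hp
  rw [radius_eq_half_iff hp]
  constructor
  · intro h
    exact le_csSup hbdd ⟨hp, h⟩
  · intro h
    exact (hmono P hPA p hp h).2

end Pool.Agent.LibMP140d1b
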