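import Mathlib
import Pool.Agent.Lib_MP_140d1b_an.FourMain
import Pool.Agent.Lib_MP_140d1b_an.LowerBound
import Pool.Agent.Lib_MP_140d1b_an.Threshold
import Pool.Agent.Lib_MP_140d1b_an.Remainder

/-!
The exponent four: the radius one half is good, and the threshold exponent is at least four.
-/

namespace Pool.Agent.LibMP140d1b

open Complex Metric Set Filter Topology Real

/-- Every Schwarz function is a rotation of some `ph a ψ`. -/
lemma exists_rep {φ : ℂ → ℂ} (hφ : Schwarz φ) :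
    ∃ (e : ℂ) (a : ℝ) (ψ : ℂ → ℂ), ‖e‖ = 1 ∧ 0 ≤ a ∧ a ≤ 1 ∧
      DifferentiableOn ℂ ψ (ball 0 1) ∧ (∀ z ∈ ball (0 : ℂ) 1, ‖ψ z‖ ≤ 1) ∧
      ∀ z ∈ ball (0 : ℂ) 1, φ z = e * Four.ph a ψ z := by
  obtain ⟨ω, hω⟩ := hφ.exists_factor
  have h0 : (0 : ℂ) ∈ ball (0 : ℂ) 1 := by simp
  rcases lt_or_eq_of_le (hω.le_one 0 h0) with h | h
  · obtain ⟨e, ψ, he, hψd, hψ, hrep⟩ := exists_schur hω.diff hω.le_one h
    refine ⟨e, ‖ω 0‖, ψ, he, norm_nonneg _, h.le, hψd, hψ, ?_⟩
    intro z hz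
    rw [hω.eq z, hrep z hz]
    unfold Four.ph Four.om
    ring
  · refine ⟨ω 0, 1, fun _ => 0, h, zero_le_one, le_rfl, differentiableOn_const _, ?_, ?_⟩
    · intro z _
      simp
    · have hmax : IsMaxOn (norm ∘ ω) (ball 0 1) 0 := by
        intro z hz
        simp only [mem_ofPred_eq, Function.comp_apply, h]
        exact hω.le_one z hz
      have hconst := Complex.eqOn_of_isPreconnected_of_isMaxOn_norm
        (convex_ball (0 : ℂ) 1).isPreconnected isOpen_ball hω.diff h0 hmax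
      intro z hz
      have h1 := hconst hz
      rw [hω.eq z, h1]
      simp [Four.ph, Four.om, mul_comm]

/-- **The exponent four.** -/
theorem goodAt_four : GoodAt 4 (1 / 2) := by
  refine goodAt_of_poly (by norm_num) two_pos (by norm_num) (by norm_num) ?_
  intro φ hφ a0 N0
  obtain ⟨e, a, ψ, he, ha, ha1, hψd, hψ, hrep⟩ := exists_rep hφ
  set a' : ℕ → ℂ := fun k => if k < N0 then a0 k else 0 with ha'
  set b : ℕ → ℂ := fun k => a' k * e ^ k with hb
  have hpad : ∀ w, pe a0 N0 w = pe a' (N0 + 2) w :=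
    fun w => (pe_pad a0 N0 (N0 + 2) (by omega) w).symm
  have hrot : ∀ w, pe a' (N0 + 2) (e * w) = pe b (N0 + 2) w := by
    intro w
    unfold pe
    refine Finset.sum_congr rfl ?_
    intro k _
    simp only [hb]
    ring
  have hmain := Four.four_poly ha ha1 hψd hψ b N0
  have hphS := Four.ph_schwarz ha ha1 hψd hψ
  have hderiv : ∀ z ∈ ball (0 : ℂ) 1, ‖deriv φ z‖ = ‖deriv (Four.ph a ψ) z‖ := by
    intro z hz
    have h1 : deriv φ z = deriv (fun z => e * Four.ph a ψ z) z := Four.deriv_congr hrep hz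
    have h2 : deriv (fun z => e * Four.ph a ψ z) z = e * deriv (Four.ph a ψ) z :=
      deriv_const_mul _ (hphS.diff.differentiableAt (isOpen_ball.mem_nhds hz))
    rw [h1, h2, norm_mul, he, one_mul]
  have hl : circleAverage (fun z => ‖pe a0 N0 (φ z)‖ ^ (2 : ℝ) * ‖deriv φ z‖ ^ (4 : ℝ)) 0
      (1 / 2) = Four.av (fun z => ‖pe b (N0 + 2) (Four.ph a ψ z)‖ ^ 2 *
        ‖deriv (Four.ph a ψ) z‖ ^ 4) := by
    refine Four.av_congr (f := fun z => ‖pe a0 N0 (φ z)‖ ^ (2 : ℝ) * ‖deriv φ z‖ ^ (4 : ℝ)) ?_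
    intro z hz
    have hzb := Four.sphere_half hz
    have h4 : ‖deriv φ z‖ ^ (4 : ℝ) = ‖deriv φ z‖ ^ 4 := by
      rw [← Real.rpow_natCast]
      norm_num
    rw [Real.rpow_two, h4, hpad, hrep z hzb, hrot, hderiv z hzb]
  have hr : circleAverage (fun z => ‖pe a0 N0 z‖ ^ (2 : ℝ)) 0 (1 / 2) =
      Four.av (fun z => ‖pe b (N0 + 2) z‖ ^ 2) := by
    simp_rw [Real.rpow_two, hpad]
    unfold Four.av pe
    rw [circleAverage_poly, circleAverage_poly]
    refine Finset.sum_congr rfl ?_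
    intro k _
    simp only [hb]
    rw [norm_mul, norm_pow, he, one_pow, mul_one]
  rw [hl, hr]
  exact hmain

lemma half_mem_four : (1 / 2 : ℝ) ∈ admissibleRadii 4 :=
  mem_admissible_of_goodAt (by norm_num) (by norm_num) (by norm_num)
    (fun _ hr hr2 => goodAt_radius_mono hr hr2 (by norm_num) goodAt_four)

/-- The threshold theorem with the lower bound four. -/
theorem threshold_four : ∃ P : ℝ, 4 ≤ P ∧ P < 14 ∧
    ∀ p : ℝ, 0 < p → (subordinationRadius p = 1 / 2 ↔ p ≤ P) := by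
  obtain ⟨P, _, hP14, hP⟩ := threshold
  refine ⟨P, ?_, hP14, hP⟩
  exact (hP 4 (by norm_num)).mp ((radius_eq_half_iff (by norm_num)).mpr half_mem_four)

end Pool.Agent.LibMP140d1b
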