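import Mathlib
import Pool.Agent.Lib_MP_140d1b_an.Necessary

/-!
Evaluation of the first-order condition at `F(z) = (1 - b z)^(-2)`.
-/

namespace Pool.Agent.LibMP140d1b

open Complex Metric Set Filter Topology Real

/-- The explicit first-order quantity. -/
noncomputable def Eval (p v β : ℝ) : ℝ :=
  4 * β * (1 - β) * ((2 / (1 + v) - 1) + (2 / (1 + v) ^ 2 - 1)) + 12 * β ^ 2 * (2 / (1 + v) - 1) +
    p * (1 - β) * (((2 / (1 + v) ^ 2 - 1) - 4 * v / (1 + v) ^ 3) * (1 - β) +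
      2 * β * (2 / (1 + v) ^ 2 - 1))

/-- The test function. -/
noncomputable def Ft (b : ℝ) (z : ℂ) : ℂ := 1 / (1 - b * z) ^ 2

lemma one_sub_ne {b R : ℝ} (hb : 0 ≤ b) (hbR : b * R < 1) {z : ℂ} (hz : ‖z‖ ≤ R) :
    1 - (b : ℂ) * z ≠ 0 := by
  intro h
  have h1 : (b : ℂ) * z = 1 := by linear_combination -h
  have h2 : ‖(b : ℂ) * z‖ = 1 := by rw [h1, norm_one]
  rw [norm_mul, Complex.norm_real, Real.norm_eq_abs, abs_of_nonneg hb] at h2
  have := mul_le_mul_of_nonneg_left hz hb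
  linarith

lemma Ft_hasDerivAt {b : ℝ} {z : ℂ} (hne : 1 - (b : ℂ) * z ≠ 0) :
    HasDerivAt (Ft b) (2 * b / (1 - b * z) ^ 3) z := by
  have h1 : HasDerivAt (fun z : ℂ => 1 - (b : ℂ) * z) (-(b : ℂ)) z := by
    have := ((hasDerivAt_id z).const_mul (b : ℂ)).const_sub 1
    simpa using this
  have h2 := (hasDerivAt_const z (1 : ℂ)).div (h1.pow 2) (pow_ne_zero 2 hne)
  have e : (0 * (1 - (b : ℂ) * z) ^ 2 - 1 * (((2 : ℕ) : ℂ) * (1 - (b : ℂ) * z) ^ (2 - 1) *
      -(b : ℂ))) / ((1 - (b : ℂ) * z) ^ 2) ^ 2 = 2 * b / (1 - b * z) ^ 3 := by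
    field_simp
    push_cast
    ring
  rw [← e]
  exact h2

/-- `z` times the analytic factor. -/
noncomputable def Nf (p ρ b : ℝ) (z : ℂ) : ℂ :=
  z * (2 * (z * Pk ρ z * (2 * b / (1 - b * z) ^ 3)) + p * Gk ρ z * (1 / (1 - b * z) ^ 2))

lemma Gk_hasDerivAt {ρ : ℝ} {z : ℂ} (hne : 1 + (ρ : ℂ) * z ≠ 0) :
    HasDerivAt (Gk ρ) (-(4 * ρ) / (1 + ρ * z) ^ 3) z := by
  have h1 : HasDerivAt (fun z : ℂ => 1 + (ρ : ℂ) * z) (ρ : ℂ) z := by
    have := ((hasDerivAt_id z).const_mul (ρ : ℂ)).const_add 1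
    simpa using this
  have h2 := ((hasDerivAt_const z (2 : ℂ)).div (h1.pow 2) (pow_ne_zero 2 hne)).sub_const 1
  have e : (0 * (1 + (ρ : ℂ) * z) ^ 2 - 2 * (((2 : ℕ) : ℂ) * (1 + (ρ : ℂ) * z) ^ (2 - 1) *
      (ρ : ℂ))) / ((1 + (ρ : ℂ) * z) ^ 2) ^ 2 = -(4 * ρ) / (1 + ρ * z) ^ 3 := by
    field_simp
    push_cast
    ring
  rw [← e]
  exact h2

lemma Nf_hasDerivAt {p ρ b : ℝ} (hρ0 : 0 ≤ ρ) (hρ1 : ρ < 1) {z : ℂ} (hz : ‖z‖ < 1)
    (hne : 1 - (b : ℂ) * z ≠ 0) :
    HasDerivAt (Nf p ρ b)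
      ((2 * (z * Pk ρ z * (2 * b / (1 - b * z) ^ 3)) + p * Gk ρ z * (1 / (1 - b * z) ^ 2)) +
        z * (2 * ((Pk ρ z + z * (-(2 * ρ) / (1 + ρ * z) ^ 2)) * (2 * b / (1 - b * z) ^ 3) +
          z * Pk ρ z * (6 * b ^ 2 / (1 - b * z) ^ 4)) +
          (p * (-(4 * ρ) / (1 + ρ * z) ^ 3) * (1 / (1 - b * z) ^ 2) +
            p * Gk ρ z * (2 * b / (1 - b * z) ^ 3)))) z := by
  have hne1 := one_add_rho_ne hρ0 hρ1 hz
  have hP := Pk_hasDerivAt hρ0 hρ1 hz
  have hG := Gk_hasDerivAt (ρ := ρ) hne1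
  have hF := Ft_hasDerivAt (b := b) hne
  have h1 : HasDerivAt (fun z : ℂ => 1 - (b : ℂ) * z) (-(b : ℂ)) z := by
    have := ((hasDerivAt_id z).const_mul (b : ℂ)).const_sub 1
    simpa using this
  have hF3 : HasDerivAt (fun z : ℂ => 2 * (b : ℂ) / (1 - b * z) ^ 3)
      (6 * b ^ 2 / (1 - b * z) ^ 4) z := by
    have h2 := (hasDerivAt_const z (2 * (b : ℂ))).div (h1.pow 3) (pow_ne_zero 3 hne)
    have e : (0 * (1 - (b : ℂ) * z) ^ 3 - 2 * b * (((3 : ℕ) : ℂ) * (1 - (b : ℂ) * z) ^ (3 - 1) *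
        -(b : ℂ))) / ((1 - (b : ℂ) * z) ^ 3) ^ 2 = 6 * b ^ 2 / (1 - b * z) ^ 4 := by
      field_simp
      push_cast
      ring
    rw [← e]
    exact h2
  have hzP : HasDerivAt (fun z => z * Pk ρ z) (Pk ρ z + z * (-(2 * ρ) / (1 + ρ * z) ^ 2)) z := by
    have := (hasDerivAt_id z).mul hP
    have e : 1 * Pk ρ z + id z * (-(2 * ρ) / (1 + ρ * z) ^ 2) =
        Pk ρ z + z * (-(2 * ρ) / (1 + ρ * z) ^ 2) := by simp
    rw [← e]
    exact this
  have hA := (hzP.fun_mul hF3).const_mul 2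
  have hB := (hG.const_mul (p : ℂ)).fun_mul hF
  have hC := (hasDerivAt_id z).fun_mul (hA.fun_add hB)
  refine hC.congr_deriv ?_
  simp only [Ft, id]
  ring

lemma key_identity (p B V : ℂ) (hD : 1 + V ≠ 0) (hE : 1 - B ≠ 0) :
    (2 * ((2 / (1 + V) - 1) * (2 * B / (1 - B) ^ 3)) +
        p * (2 / (1 + V) ^ 2 - 1) * (1 / (1 - B) ^ 2)) +
        (2 * (((2 / (1 + V) - 1) + (-(2 * V) / (1 + V) ^ 2)) * (2 * B / (1 - B) ^ 3) +
           (2 / (1 + V) - 1) * (6 * B ^ 2 / (1 - B) ^ 4)) +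
          (p * (-(4 * V) / (1 + V) ^ 3) * (1 / (1 - B) ^ 2) +
            p * (2 / (1 + V) ^ 2 - 1) * (2 * B / (1 - B) ^ 3))) =
    (4 * B * (1 - B) * ((2 / (1 + V) - 1) + (2 / (1 + V) ^ 2 - 1)) +
      12 * B ^ 2 * (2 / (1 + V) - 1) +
      p * (1 - B) * (((2 / (1 + V) ^ 2 - 1) - 4 * V / (1 + V) ^ 3) * (1 - B) +
        2 * B * (2 / (1 + V) ^ 2 - 1))) / (1 - B) ^ 4 := by
  field_simp
  ring

/-- The value of the derivative. -/
lemma Nf_deriv_value {p ρ b w : ℝ} (hρ0 : 0 ≤ ρ) (hρ1 : ρ < 1) (hw0 : 0 ≤ w) (hw1 : w < 1)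
    (hbw : b * w < 1) (hb : 0 ≤ b) :
    deriv (Nf p ρ b) (w : ℂ) = ((Eval p (ρ * w) (b * w) / (1 - b * w) ^ 4 : ℝ) : ℂ) := by
  have hz : ‖(w : ℂ)‖ < 1 := by
    rw [Complex.norm_real, Real.norm_eq_abs, abs_of_nonneg hw0]
    exact hw1
  have hne : 1 - (b : ℂ) * (w : ℂ) ≠ 0 := by
    have : (1 - b * w : ℝ) ≠ 0 := by linarith
    exact_mod_cast this
  have hne1 : (1 : ℂ) + (ρ : ℂ) * (w : ℂ) ≠ 0 := one_add_rho_ne hρ0 hρ1 hz
  rw [(Nf_hasDerivAt hρ0 hρ1 hz hne).deriv]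
  have e := key_identity (p : ℂ) ((b : ℂ) * (w : ℂ)) ((ρ : ℂ) * (w : ℂ)) hne1 hne
  unfold Eval Pk Gk
  push_cast
  rw [← e]
  ring

/-- The first-order condition evaluated. -/
lemma eval_nonneg {p R r q : ℝ} (hp : 1 ≤ p) (hr : 0 < r) (hrR : r < R) (hR1 : R < 1)
    (hq0 : 0 < q) (hq1 : q < 1) (h : GoodAt p R) : 0 ≤ Eval p (q * r) (q ^ 2) := by
  have hR : 0 < R := hr.trans hrR
  set b : ℝ := q / R with hb
  set w : ℝ := q * R with hw
  set ρ : ℝ := r / R with hρ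
  have hb0 : 0 < b := by positivity
  have hw0 : 0 < w := by positivity
  have hwR : w < R := by rw [hw]; nlinarith
  have hρ0 : 0 ≤ ρ := by positivity
  have hρ1 : ρ < 1 := by rw [hρ, div_lt_one hR]; exact hrR
  have hbR : b * R = q := by rw [hb]; field_simp
  have hbw : b * w = q ^ 2 := by rw [hw, hb]; field_simp
  have hρw : ρ * w = q * r := by rw [hw, hρ]; field_simp
  have hsub := sphere_subset_ball_one hR1
  set R' : ℝ := R / q with hR'
  have hRR' : R < R' := by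
    rw [hR', lt_div_iff₀ hq0]
    nlinarith
  have hbR' : b * R' = 1 := by rw [hb, hR']; field_simp
  have hne : ∀ z : ℂ, ‖z‖ < R' → 1 - (b : ℂ) * z ≠ 0 := by
    intro z hz
    refine one_sub_ne hb0.le ?_ le_rfl
    calc b * ‖z‖ < b * R' := mul_lt_mul_of_pos_left hz hb0
      _ = 1 := hbR'
  have hF : DifferentiableOn ℂ (Ft b) (ball 0 R') := fun z hz =>
    (Ft_hasDerivAt (hne z (by simpa using hz))).differentiableAt.differentiableWithinAt
  have h1 := first_order hp hR hR1 hRR' hρ0 hρ1 h hF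
  -- rewrite the average
  set U : Set ℂ := ball 0 1 ∩ ball 0 R' with hU
  have hUo : IsOpen U := isOpen_ball.inter isOpen_ball
  have hcU : closedBall (0 : ℂ) R ⊆ U := by
    intro z hz
    simp only [mem_closedBall, dist_zero_right] at hz
    refine ⟨?_, ?_⟩ <;> simp only [mem_ball, dist_zero_right] <;> linarith
  have hN : DifferentiableOn ℂ (Nf p ρ b) U := by
    intro z hz
    have hz1 : ‖z‖ < 1 := by simpa using hz.1
    have hz2 : ‖z‖ < R' := by simpa using hz.2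
    exact (Nf_hasDerivAt hρ0 hρ1 hz1 (hne z hz2)).differentiableAt.differentiableWithinAt
  have hwb : (w : ℂ) ∈ ball (0 : ℂ) R := by
    simp only [mem_ball, dist_zero_right, Complex.norm_real, Real.norm_eq_abs, abs_of_pos hw0]
    exact hwR
  have hCauchy := two_pi_I_inv_smul_circleIntegral_sub_sq_inv_smul_of_differentiable hUo hcU hN hwb
  set K : ℂ → ℂ := fun z => (starRingEnd ℂ) (Ft b z) *
    (2 * (z * Pk ρ z * deriv (Ft b) z) + p * Gk ρ z * Ft b z) with hK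
  have hconj : ∀ z ∈ sphere (0 : ℂ) R, (starRingEnd ℂ) (Ft b z) = z ^ 2 / (z - w) ^ 2 := by
    intro z hz
    have hzR : ‖z‖ = R := by simpa using hz
    have hz0 : z ≠ 0 := by
      intro h0
      rw [h0, norm_zero] at hzR
      linarith
    have hzz : (starRingEnd ℂ) z = (R : ℂ) ^ 2 / z := by
      rw [eq_div_iff hz0, mul_comm, Complex.mul_conj, Complex.normSq_eq_norm_sq, hzR]
      push_cast
      ring
    have hzw : z - (w : ℂ) ≠ 0 := by
      intro h0
      have : z = w := by linear_combination h0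
      rw [this, Complex.norm_real, Real.norm_eq_abs, abs_of_pos hw0] at hzR
      linarith
    have hbR2 : (b : ℂ) * (R : ℂ) ^ 2 = w := by
      have : b * R ^ 2 = w := by rw [hb, hw]; field_simp
      exact_mod_cast this
    unfold Ft
    rw [map_div₀, map_one, map_pow, map_sub, map_one, map_mul, Complex.conj_ofReal, hzz]
    have e : 1 - (b : ℂ) * ((R : ℂ) ^ 2 / z) = (z - w) / z := by
      rw [← hbR2]
      field_simp
    rw [e, div_pow, one_div_div]
  have e1 : circleAverage K 0 R = deriv (Nf p ρ b) w := by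
    rw [← hCauchy, circleAverage_eq_circleIntegral hR.ne']
    congr 1
    refine circleIntegral.integral_congr hR.le ?_
    intro z hz
    have hzR : ‖z‖ = R := by simpa using hz
    have hz0 : z ≠ 0 := by
      intro h0
      rw [h0, norm_zero] at hzR
      linarith
    have hne' := hne z (by rw [hzR]; exact hRR')
    simp only [hK, smul_eq_mul, sub_zero]
    rw [hconj z hz, (Ft_hasDerivAt hne').deriv]
    unfold Nf Ft
    have hzw : z - (w : ℂ) ≠ 0 := by
      intro h0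
      have : z = w := by linear_combination h0
      rw [this, Complex.norm_real, Real.norm_eq_abs, abs_of_pos hw0] at hzR
      linarith
    field_simp
  have hKc : ContinuousOn K (sphere 0 R) := by
    intro z hz
    have hzR : ‖z‖ = R := by simpa using hz
    have hz1 : ‖z‖ < 1 := by rw [hzR]; exact hR1
    have hz2 : ‖z‖ < R' := by rw [hzR]; exact hRR'
    have hzb : z ∈ ball (0 : ℂ) R' := by simpa using hz2
    have c1 : ContinuousAt (Ft b) z := (Ft_hasDerivAt (hne z hz2)).continuousAt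
    have c2 : ContinuousAt (deriv (Ft b)) z :=
      ((hF.deriv isOpen_ball).differentiableAt (isOpen_ball.mem_nhds hzb)).continuousAt
    have c3 : ContinuousAt (Pk ρ) z := (Pk_hasDerivAt hρ0 hρ1 hz1).continuousAt
    have c4 : ContinuousAt (Gk ρ) z := (Gk_hasDerivAt (one_add_rho_ne hρ0 hρ1 hz1)).continuousAt
    refine ContinuousAt.continuousWithinAt ?_
    exact (Complex.continuous_conj.continuousAt.comp c1).mul
      ((continuousAt_const.mul ((continuousAt_id.mul c3).mul c2)).add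
        ((continuousAt_const.mul c4).mul c1))
  have e2 : circleAverage (Lfo p ρ (Ft b)) 0 R = (circleAverage K 0 R).re := by
    have := Complex.reCLM.circleAverage_comp_comm (hKc.circleIntegrable hR.le)
    rw [Complex.reCLM_apply] at this
    rw [← this]
    congr 1
    funext z
    simp only [Function.comp_apply, Complex.reCLM_apply, hK, Lfo]
    have : (starRingEnd ℂ) (Ft b z) *
        (2 * (z * Pk ρ z * deriv (Ft b) z) + p * Gk ρ z * Ft b z) =
        ((2 : ℝ) : ℂ) * ((starRingEnd ℂ) (Ft b z) * (z * Pk ρ z * deriv (Ft b) z)) +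
          ((p * ‖Ft b z‖ ^ 2 : ℝ) : ℂ) * Gk ρ z := by
      have h2 : (starRingEnd ℂ) (Ft b z) * Ft b z = ((‖Ft b z‖ ^ 2 : ℝ) : ℂ) := by
        rw [mul_comm, Complex.mul_conj, Complex.normSq_eq_norm_sq]
      push_cast at h2 ⊢
      linear_combination (p : ℂ) * Gk ρ z * h2
    rw [this, Complex.add_re, Complex.re_ofReal_mul, Complex.re_ofReal_mul]
    ring
  rw [e2, e1, Nf_deriv_value hρ0 hρ1 hw0.le (hwR.trans hR1) (by rw [hbw]; nlinarith) hb0.le,
    Complex.ofReal_re, hρw, hbw] at h1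
  have h2 : 0 < (1 - q ^ 2) ^ 4 := by
    have : 0 < 1 - q ^ 2 := by nlinarith
    positivity
  by_contra hcon
  push Not at hcon
  have := div_neg_of_neg_of_pos hcon h2
  linarith

end Pool.Agent.LibMP140d1b
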