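import Mathlib
import Pool.Agent.Lib_MP_140d1b_an.Residue

/-!
The upper bound `r_p ≤ √2 - 1 + (4/5) p^(-2/3)`.
-/

namespace Pool.Agent.LibMP140d1b

open Complex Metric Set Filter Topology Real

/-- The polynomial inequality behind the upper bound. -/
lemma poly_identity {k s e h v β B T : ℝ} (hs : s ^ 2 = 2)
    (he : e = (s - 1) * (5 / 4) - 4 / 5 * k + k ^ 2) (hh : h = 5 / 2 - 25 / 16 * k)
    (hv : v = s - 1 - k * e) (hβ : β = 1 - k * h)
    (hB : B = 32 / 5 - 25 / 4 * (s - 1) + 6 * s * e ^ 2 - 8 * k - 3 * s * k * h * e ^ 2 -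
      2 * k * e ^ 3 + k ^ 2 * h * e ^ 3)
    (hT : T = 8 * β * k * h * (1 + v) * (1 - v - v ^ 2) +
      12 * β ^ 2 * (1 - v) * (1 + v) ^ 2) :
    h * B - T = ((-881/8) + (1259/16) * s) * k ^ 0 +
      ((4435/8) + (-50035/128) * s) * k ^ 1 +
      ((-3707669/2560) + (2617897/2560) * s) * k ^ 2 +
      ((1116605/512) + (-6466821/4096) * s) * k ^ 3 +
      ((-113802151/81920) + (442482809/409600) * s) * k ^ 4 +
      ((-3948609/5120) + (488229/1280) * s) * k ^ 5 +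
      ((1001409853/512000) + (-2303009/2048) * s) * k ^ 6 +
      ((-120236573/102400) + (2020175/4096) * s) * k ^ 7 +
      ((183369/5120) + (323375/1024) * s) * k ^ 8 +
      ((220095/1024) + (-229125/512) * s) * k ^ 9 +
      ((3225/256) + (13125/64) * s) * k ^ 10 +
      ((-27425/256) + (-9375/256) * s) * k ^ 11 +
      ((875/16) + (0) * s) * k ^ 12 +
      ((-625/64) + (0) * s) * k ^ 13 := by
  rw [hT, hB, hβ, hv, hh, he]
  linear_combination ((-567/8) + (567/16)*s + (4675/16)*k^1 + (-17755/128)*k^1*s + (-1790397/2560)*k^2 + (159325/512)*k^2*s + (2066833/2048)*k^3 + (-1869375/4096)*k^3*s + (-11118215/16384)*k^4 + (7278125/16384)*k^4*s + (-184125/1024)*k^5 + (-71875/256)*k^5*s + (2991875/4096)*k^6 + (109375/1024)*k^6*s + (-2525625/4096)*k^7 + (-78125/4096)*k^7*s + (65625/256)*k^8 + (-46875/1024)*k^9) * hs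

/-- Positivity of the polynomial. -/
lemma poly_pos {k s : ℝ} (hs1 : 1.41421 < s) (hs2 : s < 1.41422) (hk0 : 0 ≤ k)
    (hk1 : k ≤ 0.3275) {X : ℝ}
    (hX : X = (((-881/8) + (1259/16) * s) * k ^ 0 +
      ((4435/8) + (-50035/128) * s) * k ^ 1 +
      ((-3707669/2560) + (2617897/2560) * s) * k ^ 2 +
      ((1116605/512) + (-6466821/4096) * s) * k ^ 3 +
      ((-113802151/81920) + (442482809/409600) * s) * k ^ 4 +
      ((-3948609/5120) + (488229/1280) * s) * k ^ 5 +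
      ((1001409853/512000) + (-2303009/2048) * s) * k ^ 6 +
      ((-120236573/102400) + (2020175/4096) * s) * k ^ 7 +
      ((183369/5120) + (323375/1024) * s) * k ^ 8 +
      ((220095/1024) + (-229125/512) * s) * k ^ 9 +
      ((3225/256) + (13125/64) * s) * k ^ 10 +
      ((-27425/256) + (-9375/256) * s) * k ^ 11 +
      ((875/16) + (0) * s) * k ^ 12 +
      ((-625/64) + (0) * s) * k ^ 13)) : 0 < X := by
  have c0 : 1.155 ≤ ((-881/8) + (1259/16) * s) * k ^ 0 := by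
    rw [pow_zero, mul_one]; linarith only [hs1, hs2]
  have c1 : 1.55 * k ≤ ((4435/8) + (-50035/128) * s) * k ^ 1 := by
    rw [pow_one]
    exact mul_le_mul_of_nonneg_right (by linarith only [hs1, hs2]) hk0
  have c2 : -2.13 * k ^ 2 ≤ ((-3707669/2560) + (2617897/2560) * s) * k ^ 2 :=
    mul_le_mul_of_nonneg_right (by linarith only [hs1, hs2]) (by positivity)
  have c3 : -51.93 * k ^ 3 ≤ ((1116605/512) + (-6466821/4096) * s) * k ^ 3 :=
    mul_le_mul_of_nonneg_right (by linarith only [hs1, hs2]) (by positivity)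
  have c4 : 138.5 * k ^ 4 ≤ ((-113802151/81920) + (442482809/409600) * s) * k ^ 4 :=
    mul_le_mul_of_nonneg_right (by linarith only [hs1, hs2]) (by positivity)
  have c5 : -231.9 * k ^ 5 ≤ ((-3948609/5120) + (488229/1280) * s) * k ^ 5 :=
    mul_le_mul_of_nonneg_right (by linarith only [hs1, hs2]) (by positivity)
  have c6 : 365.5 * k ^ 6 ≤ ((1001409853/512000) + (-2303009/2048) * s) * k ^ 6 :=
    mul_le_mul_of_nonneg_right (by linarith only [hs1, hs2]) (by positivity)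
  have c7 : -476.8 * k ^ 7 ≤ ((-120236573/102400) + (2020175/4096) * s) * k ^ 7 :=
    mul_le_mul_of_nonneg_right (by linarith only [hs1, hs2]) (by positivity)
  have c8 : 482.3 * k ^ 8 ≤ ((183369/5120) + (323375/1024) * s) * k ^ 8 :=
    mul_le_mul_of_nonneg_right (by linarith only [hs1, hs2]) (by positivity)
  have c9 : -418.1 * k ^ 9 ≤ ((220095/1024) + (-229125/512) * s) * k ^ 9 :=
    mul_le_mul_of_nonneg_right (by linarith only [hs1, hs2]) (by positivity)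
  have c10 : 302.5 * k ^ 10 ≤ ((3225/256) + (13125/64) * s) * k ^ 10 :=
    mul_le_mul_of_nonneg_right (by linarith only [hs1, hs2]) (by positivity)
  have c11 : -159.1 * k ^ 11 ≤ ((-27425/256) + (-9375/256) * s) * k ^ 11 :=
    mul_le_mul_of_nonneg_right (by linarith only [hs1, hs2]) (by positivity)
  have d4 : 0 ≤ (138.5 - 62.5 - 231.9 * k) * k ^ 4 :=
    mul_nonneg (by linarith only [hk0, hk1]) (by positivity)
  have d6 : 0 ≤ (365.5 - 476.8 * k) * k ^ 6 := mul_nonneg (by linarith only [hk0, hk1]) (by positivity)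
  have d8 : 0 ≤ (482.3 - 418.1 * k) * k ^ 8 := mul_nonneg (by linarith only [hk0, hk1]) (by positivity)
  have d10 : 0 ≤ (302.5 - 159.1 * k) * k ^ 10 := mul_nonneg (by linarith only [hk0, hk1]) (by positivity)
  have d12 : 0 ≤ (875/16 - 625/64 * k) * k ^ 12 := mul_nonneg (by linarith only [hk0, hk1]) (by positivity)
  have e2 : k ^ 2 ≤ 0.3275 * k := by nlinarith only [hk0, hk1]
  have e3 : k ^ 3 ≤ 0.3275 ^ 2 * k := by
    have : k ^ 3 = k ^ 2 * k := by ring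
    rw [this]
    refine mul_le_mul_of_nonneg_right ?_ hk0
    exact pow_le_pow_left₀ hk0 hk1 2
  have e4 : 4 * 0.266 ^ 3 * k - 3 * 0.266 ^ 4 ≤ k ^ 4 := by
    have h1 : 0 ≤ (k ^ 2 - 0.266 ^ 2) ^ 2 := sq_nonneg _
    have h2 : 0 ≤ 2 * 0.266 ^ 2 * (k - 0.266) ^ 2 := by positivity
    have h3 : k ^ 4 - (4 * 0.266 ^ 3 * k - 3 * 0.266 ^ 4) =
      (k ^ 2 - 0.266 ^ 2) ^ 2 + 2 * 0.266 ^ 2 * (k - 0.266) ^ 2 := by ring
    linarith only [h1, h2, h3]
  have hlow : 0 < 1.155 + 1.55 * k - 2.13 * k ^ 2 - 51.93 * k ^ 3 + 62.5 * k ^ 4 := by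
    linarith only [e2, e3, e4, hk0, hk1]
  rw [hX]
  linarith only [c0, c1, c2, c3, c4, c5, c6, c7, c8, c9, c10, c11, d4, d6, d8, d10, d12, hlow]

/-- The explicit first-order quantity is negative. -/
lemma Eval_neg {p k : ℝ} (hk0 : 0 < k) (hk1 : k ≤ 0.3275) (hpk : p * k ^ 3 = 1) :
    Eval p ((1 - 5 / 4 * k) * ((√2 - 1) + 4 / 5 * k ^ 2)) ((1 - 5 / 4 * k) ^ 2) < 0 := by
  have hs2 : (√2) ^ 2 = 2 := Real.sq_sqrt (by norm_num)
  have hs1 : 1.41421 < √2 := by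
    rw [Real.lt_sqrt (by norm_num)]
    norm_num
  have hs3 : √2 < 1.41422 := by
    rw [Real.sqrt_lt' (by norm_num)]
    norm_num
  set s := √2 with hs
  obtain ⟨e, he⟩ : ∃ e, e = (s - 1) * (5 / 4) - 4 / 5 * k + k ^ 2 := ⟨_, rfl⟩
  obtain ⟨h, hh⟩ : ∃ h, h = 5 / 2 - 25 / 16 * k := ⟨_, rfl⟩
  obtain ⟨v, hv⟩ : ∃ v, v = s - 1 - k * e := ⟨_, rfl⟩
  obtain ⟨β, hβ⟩ : ∃ β, β = 1 - k * h := ⟨_, rfl⟩
  obtain ⟨B, hB⟩ : ∃ B, B = 32 / 5 - 25 / 4 * (s - 1) + 6 * s * e ^ 2 - 8 * k -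
      3 * s * k * h * e ^ 2 - 2 * k * e ^ 3 + k ^ 2 * h * e ^ 3 := ⟨_, rfl⟩
  obtain ⟨T, hT⟩ : ∃ T, T = 8 * β * k * h * (1 + v) * (1 - v - v ^ 2) +
      12 * β ^ 2 * (1 - v) * (1 + v) ^ 2 := ⟨_, rfl⟩
  have hpos : 0 < h * B - T :=
    poly_pos hs1 hs3 hk0.le hk1 (poly_identity hs2 he hh hv hβ hB hT)
  have e1 : (1 - 5 / 4 * k) * ((s - 1) + 4 / 5 * k ^ 2) = v := by
    rw [hv, he]; ring
  have e2 : (1 - 5 / 4 * k) ^ 2 = β := by
    rw [hβ, hh]; ring
  rw [e1, e2]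
  -- the bracket
  have hbr : ((2 - (1 + v) ^ 2) * (1 + v) - 4 * v) * (1 - β) + 2 * β * ((2 - (1 + v) ^ 2) *
      (1 + v)) = -(k ^ 2 * B) := by
    rw [hβ, hB, hv, hh, he]
    linear_combination (2 * k * ((s - 1) * (5 / 4) - 4 / 5 * k + k ^ 2) *
      (2 - k * (5 / 2 - 25 / 16 * k)) - (s - k * ((s - 1) * (5 / 4) - 4 / 5 * k + k ^ 2)) *
      (2 - k * (5 / 2 - 25 / 16 * k))) * hs2
  have hv1 : 0 < 1 + v := by
    have : 1 + v = 1 + (1 - 5 / 4 * k) * ((s - 1) + 4 / 5 * k ^ 2) := by rw [e1]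
    rw [this]
    have h1 : 0 ≤ 1 - 5 / 4 * k := by linarith
    have h2 : 0 ≤ (s - 1) + 4 / 5 * k ^ 2 := by
      have : 0 ≤ k ^ 2 := by positivity
      linarith
    have := mul_nonneg h1 h2
    linarith
  have hE : Eval p v β * (1 + v) ^ 3 = -(h * B - T) := by
    have h1 : Eval p v β * (1 + v) ^ 3 = 4 * β * (1 - β) * ((1 - v) * (1 + v) ^ 2 +
        (2 - (1 + v) ^ 2) * (1 + v)) + 12 * β ^ 2 * ((1 - v) * (1 + v) ^ 2) +
        p * (1 - β) * (((2 - (1 + v) ^ 2) * (1 + v) - 4 * v) * (1 - β) +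
          2 * β * ((2 - (1 + v) ^ 2) * (1 + v))) := by
      unfold Eval
      field_simp
      ring
    rw [h1, hbr]
    have h2 : 1 - β = k * h := by rw [hβ]; ring
    rw [h2]
    have h3 : p * (k * h) * -(k ^ 2 * B) = -(h * B) := by
      linear_combination (-(h * B)) * hpk
    rw [h3, hT]
    ring
  have h3 : 0 < (1 + v) ^ 3 := by positivity
  by_contra hcon
  push Not at hcon
  have := mul_nonneg hcon h3.le
  linarith

/-- The upper bound. -/
theorem upper_bound {p : ℝ} (hp : 0 < p) :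
    subordinationRadius p ≤ √2 - 1 + 4 / 5 * p ^ (-(2 / 3) : ℝ) := by
  have hs1 : 1.41421 < √2 := by
    rw [Real.lt_sqrt (by norm_num)]
    norm_num
  set k : ℝ := p ^ (-(1 / 3) : ℝ) with hk
  have hk0 : 0 < k := Real.rpow_pos_of_pos hp _
  have hk2 : p ^ (-(2 / 3) : ℝ) = k ^ 2 := by
    rw [hk, ← Real.rpow_natCast, ← Real.rpow_mul hp.le]
    norm_num
  have hk3 : p * k ^ 3 = 1 := by
    have : k ^ 3 = p⁻¹ := by
      rw [hk, ← Real.rpow_natCast, ← Real.rpow_mul hp.le, ← Real.rpow_neg_one]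
      norm_num
    rw [this, mul_inv_cancel₀ hp.ne']
  rw [hk2]
  have hk2pos : 0 < k ^ 2 := by positivity
  have hr0 : 0 < √2 - 1 + 4 / 5 * k ^ 2 := by linarith
  refine Real.sSup_le ?_ hr0.le
  intro ρ hρ
  rcases le_or_gt k 0.3275 with hk1 | hk1
  · by_contra hcon
    push Not at hcon
    have hp1 : 1 ≤ p := by
      have h1 : k ^ 3 ≤ 1 := pow_le_one₀ hk0.le (by linarith)
      have h2 : 0 < k ^ 3 := by positivity
      nlinarith
    set r : ℝ := √2 - 1 + 4 / 5 * k ^ 2 with hr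
    set R : ℝ := (r + ρ) / 2 with hR
    have hrR : r < R := by rw [hR]; linarith
    have hRρ : R < ρ := by rw [hR]; linarith
    have hR1 : R < 1 := hRρ.trans_le hρ.2.1
    have hgood := goodAt_of_mem hp hρ (hr0.trans hrR) hRρ
    have hE := eval_nonneg (q := 1 - 5 / 4 * k) hp1 hr0 hrR hR1 (by linarith) (by linarith) hgood
    have hE2 := Eval_neg hk0 hk1 hk3
    rw [← hr] at hE2
    linarith
  · have h1 := admissible_le_half hp hρ
    nlinarith

end Pool.Agent.LibMP140d1b
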