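import Mathlib
import Pool.Agent.Lib_MP_140d1b_an.FourFinal

/-!
The derivative inequality fails at exponent `12.01` and radius `1/2`: take
`φ(z) = z (7+9z)/(9+7z)` and `h(w) = 10 + 17 w + 10 w² + 2 w³`.
-/

namespace Pool.Agent.LibMP140d1b

open Complex Metric Set Filter Topology Real

/-- A truncated power series with remainder `V`, in Horner form. -/
noncomputable def HV : List ℚ → (ℂ → ℂ) → ℂ → ℂ
  | [], V, z => V z
  | q :: t, V, z => (q : ℂ) + z * HV t V z

/-- The average of `|HV|²` on `|z| = 1/2`. -/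
noncomputable def SV : List ℚ → ℝ → ℝ
  | [], x => x
  | q :: t, x => (q : ℝ) ^ 2 + 1 / 4 * SV t x

/-- A bound for a polynomial on `|z| ≤ 1/2`. -/
noncomputable def BL : List ℚ → ℝ
  | [] => 0
  | q :: t => |(q : ℝ)| + 1 / 2 * BL t

lemma HV_diff {V : ℂ → ℂ} (hV : DifferentiableOn ℂ V (ball 0 1)) (l : List ℚ) :
    DifferentiableOn ℂ (HV l V) (ball 0 1) := by
  induction l with
  | nil => exact hV
  | cons q t ih => exact (differentiableOn_id.mul ih).const_add _

lemma av_HV {V : ℂ → ℂ} (hV : DifferentiableOn ℂ V (ball 0 1)) (l : List ℚ) :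
    Four.av (fun z => ‖HV l V z‖ ^ 2) = SV l (Four.av (fun z => ‖V z‖ ^ 2)) := by
  induction l with
  | nil => rfl
  | cons q t ih =>
    have hd := HV_diff hV t
    have hd1 : DifferentiableOn ℂ (fun z => z * HV t V z) (ball 0 1) := differentiableOn_id.mul hd
    have e2 := circleAverage_add_const Four.half_nonneg' (by norm_num : (1 / 2 : ℝ) < 1) hd1
      (by simp) (q : ℂ)
    have e3 : Four.av (fun z => ‖z * HV t V z‖ ^ 2) =
        1 / 4 * Four.av (fun z => ‖HV t V z‖ ^ 2) := by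
      rw [← Four.av_mul]
      refine Four.av_congr ?_
      intro z hz
      rw [norm_mul, mul_pow, Four.norm_half hz]
      norm_num
    have e4 : Four.av (fun z => ‖HV (q :: t) V z‖ ^ 2) =
        ‖(q : ℂ)‖ ^ 2 + Four.av (fun z => ‖z * HV t V z‖ ^ 2) := e2
    have e5 : ‖(q : ℂ)‖ ^ 2 = (q : ℝ) ^ 2 := by
      have : (q : ℂ) = ((q : ℝ) : ℂ) := by norm_cast
      rw [this, Complex.norm_real, Real.norm_eq_abs, sq_abs]
    rw [e4, e3, e5, ih]
    rfl

lemma SV_mono (l : List ℚ) {x y : ℝ} (h : x ≤ y) : SV l x ≤ SV l y := by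
  induction l with
  | nil => exact h
  | cons q t ih =>
    simp only [SV]
    linarith

lemma BL_bound (l : List ℚ) {z : ℂ} (hz : ‖z‖ ≤ 1 / 2) :
    0 ≤ BL l ∧ ‖HV l (fun _ => 0) z‖ ≤ BL l := by
  induction l with
  | nil => simp [HV, BL]
  | cons q t ih =>
    obtain ⟨h1, h2⟩ := ih
    refine ⟨?_, ?_⟩
    · simp only [BL]
      positivity
    · simp only [HV, BL]
      have e5 : ‖(q : ℂ)‖ = |(q : ℝ)| := by
        have : (q : ℂ) = ((q : ℝ) : ℂ) := by norm_cast
        rw [this, Complex.norm_real, Real.norm_eq_abs]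
      calc ‖(q : ℂ) + z * HV t (fun _ => 0) z‖ ≤ ‖(q : ℂ)‖ + ‖z * HV t (fun _ => 0) z‖ :=
            norm_add_le _ _
        _ = |(q : ℝ)| + ‖z‖ * ‖HV t (fun _ => 0) z‖ := by rw [e5, norm_mul]
        _ ≤ |(q : ℝ)| + 1 / 2 * BL t := by gcongr

/-- The extremal-type Schwarz function. -/
noncomputable def phi1 (z : ℂ) : ℂ := z * (7 + 9 * z) / (9 + 7 * z)

lemma den1_ne {z : ℂ} (hz : z ∈ ball (0 : ℂ) 1) : (9 + 7 * z : ℂ) ≠ 0 := by
  intro h
  simp only [mem_ball, dist_zero_right] at hz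
  have h1 : (9 : ℂ) = -(7 * z) := by linear_combination h
  have h2 : ‖(9 : ℂ)‖ = ‖-(7 * z)‖ := by rw [h1]
  simp at h2
  linarith

lemma phi1_hasDerivAt {z : ℂ} (hz : z ∈ ball (0 : ℂ) 1) :
    HasDerivAt phi1 (9 * (7 + 18 * z + 7 * z ^ 2) / (9 + 7 * z) ^ 2) z := by
  have hne := den1_ne hz
  have h1 : HasDerivAt (fun z : ℂ => z * (7 + 9 * z)) (1 * (7 + 9 * z) + z * 9) z := by
    have h2 : HasDerivAt (fun z : ℂ => 7 + 9 * z) 9 z := by
      simpa using ((hasDerivAt_id z).const_mul 9).const_add 7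
    exact (hasDerivAt_id z).mul h2
  have h3 : HasDerivAt (fun z : ℂ => 9 + 7 * z) 7 z := by
    simpa using ((hasDerivAt_id z).const_mul 7).const_add 9
  have h4 := h1.div h3 hne
  have h5 : ((1 * (7 + 9 * z) + z * 9) * (9 + 7 * z) - z * (7 + 9 * z) * 7) / (9 + 7 * z) ^ 2 =
      9 * (7 + 18 * z + 7 * z ^ 2) / (9 + 7 * z) ^ 2 := by
    congr 1
    ring
  rw [← h5]
  exact h4

lemma phi1_eq (z : ℂ) : phi1 z = Four.ph (7 / 9) (fun _ => 1) z := by
  unfold phi1 Four.ph Four.om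
  have e1 : ((7 / 9 : ℝ) : ℂ) + z * 1 = (7 + 9 * z) / 9 := by push_cast; ring
  have e2 : 1 + ((7 / 9 : ℝ) : ℂ) * (z * 1) = (9 + 7 * z) / 9 := by push_cast; ring
  rw [e1, e2, div_div_div_cancel_right₀ (by norm_num : (9 : ℂ) ≠ 0), mul_div_assoc]

lemma phi1_schwarz : Schwarz phi1 := by
  have h := Four.ph_schwarz (a := 7 / 9) (ψ := fun _ => 1) (by norm_num) (by norm_num)
    (differentiableOn_const _) (fun z _ => by simp)
  have e : phi1 = Four.ph (7 / 9) (fun _ => 1) := funext phi1_eq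
  rw [e]
  exact h

/-- The coefficients of the polynomial `h`. -/
noncomputable def ch (k : ℕ) : ℂ := if k = 0 then 10 else if k = 1 then 17 else
  if k = 2 then 10 else 2

lemma pe_ch (w : ℂ) : pe ch 4 w = 10 + 17 * w + 10 * w ^ 2 + 2 * w ^ 3 := by
  simp [pe, ch, Finset.sum_range_succ]

/-- Taylor coefficients for the power six. -/
def L6 : List ℚ := [1176490/531441, 78539111/4782969, 1687177898/43046721, 9652756078/387420489,
    -33120871840/3486784401, 349105186976/31381059609, -170480571424/31381059609,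
    -8226576087968/847288609443, 245142048483616/7625597484987, -11289931434827360/205891132094649,
    122650153551956960/1853020188851841]

/-- The remainder for the power six. -/
def Q6 : List ℚ := [-862009573265668576/81, -90990760511063531648/729, -4338446088980695967968/6561,
    -41600413865147148605440/19683, -2433074784582864924828256/531441,
    -34138983555503358339231872/4782969, -39611989272068446221382240/4782969,
    -2820458211866095391429092352/387420489, -17011991537832211566377015200/3486784401,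
    -77935263120421247942267500928/31381059609, -267160836613888010806053870752/282429536481,
    -664932576580109892454938539008/2541865828329, -378799187140983444648327745888/7625597484987,
    -1194162816481267199089760245120/205891132094649,
    -582289148191869589720148053280/1853020188851841]

/-- Taylor coefficients for the power one. -/
def L1 : List ℚ := [70/9, 491/27, 8134/729, 19478/2187, -101920/19683, 3675328/531441, -41196064/4782969,
    146778880/14348907, -1513627808/129140163]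

/-- The remainder for the power one. -/
def Q1 : List ℚ := [45485061440/59049, 1147465713184/531441, 10981371028768/4782969, 5234729732960/4782969,
    25439542569056/129140163]

lemma HV0_diff (l : List ℚ) : DifferentiableOn ℂ (HV l (fun _ => 0)) (ball 0 1) :=
  HV_diff (differentiableOn_const _) l

lemma quot_diff (l : List ℚ) (k : ℕ) :
    DifferentiableOn ℂ (fun z => HV l (fun _ => 0) z / (9 + 7 * z) ^ k) (ball 0 1) := by
  refine (HV0_diff l).div (by fun_prop) ?_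
  intro z hz
  exact pow_ne_zero _ (den1_ne hz)

lemma HV_split (l : List ℚ) (V : ℂ → ℂ) (z : ℂ) :
    HV l V z = HV l (fun _ => 0) z + z ^ l.length * V z := by
  induction l with
  | nil => simp [HV]
  | cons q t ih =>
    simp only [HV, List.length_cons]
    rw [ih]
    ring

/-- The numerator of `h(φ)`. -/
noncomputable def Hn (z : ℂ) : ℂ := 10 * (9 + 7 * z) ^ 3 + 17 * (z * (7 + 9 * z)) * (9 + 7 * z) ^ 2 +
  10 * (z * (7 + 9 * z)) ^ 2 * (9 + 7 * z) + 2 * (z * (7 + 9 * z)) ^ 3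

lemma Hn_eq {z : ℂ} (hz : z ∈ ball (0 : ℂ) 1) :
    pe ch 4 (phi1 z) = Hn z / (9 + 7 * z) ^ 3 := by
  have hne := den1_ne hz
  rw [pe_ch]
  unfold phi1 Hn
  generalize z * (7 + 9 * z) = x
  generalize 9 + 7 * z = D at hne
  field_simp

lemma poly_six (z : ℂ) : Hn z * (9 * (7 + 18 * z + 7 * z ^ 2)) ^ 6 =
    HV L6 (fun _ => 0) z * (9 + 7 * z) ^ 15 + z ^ 11 * HV Q6 (fun _ => 0) z := by
  simp only [HV, L6, Q6, Hn]
  push_cast
  ring

lemma poly_one (z : ℂ) : Hn z * (9 * (7 + 18 * z + 7 * z ^ 2)) =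
    HV L1 (fun _ => 0) z * (9 + 7 * z) ^ 5 + z ^ 9 * HV Q1 (fun _ => 0) z := by
  simp only [HV, L1, Q1, Hn]
  push_cast
  ring

lemma exp_six {z : ℂ} (hz : z ∈ ball (0 : ℂ) 1) : pe ch 4 (phi1 z) * (deriv phi1 z) ^ 6 =
    HV L6 (fun z => HV Q6 (fun _ => 0) z / (9 + 7 * z) ^ 15) z := by
  have hne := den1_ne hz
  have hlen : L6.length = 11 := rfl
  rw [(phi1_hasDerivAt hz).deriv, Hn_eq hz, HV_split, hlen]
  have h := poly_six z
  generalize 9 * (7 + 18 * z + 7 * z ^ 2) = N at h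
  generalize Hn z = H at h
  generalize HV L6 (fun _ => 0) z = p at h
  generalize HV Q6 (fun _ => 0) z = Q at h
  generalize 9 + 7 * z = D at h hne
  rw [div_pow, div_mul_div_comm, h]
  field_simp

lemma exp_one {z : ℂ} (hz : z ∈ ball (0 : ℂ) 1) : pe ch 4 (phi1 z) * deriv phi1 z =
    HV L1 (fun z => HV Q1 (fun _ => 0) z / (9 + 7 * z) ^ 5) z := by
  have hne := den1_ne hz
  have hlen : L1.length = 9 := rfl
  rw [(phi1_hasDerivAt hz).deriv, Hn_eq hz, HV_split, hlen]
  have h := poly_one z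
  generalize 9 * (7 + 18 * z + 7 * z ^ 2) = N at h
  generalize Hn z = H at h
  generalize HV L1 (fun _ => 0) z = p at h
  generalize HV Q1 (fun _ => 0) z = Q at h
  generalize 9 + 7 * z = D at h hne
  rw [div_mul_div_comm, h]
  field_simp

lemma J6_lower : 0.99986 * (2857 / 16) ≤ Four.av (fun z => ‖pe ch 4 (phi1 z)‖ ^ 2 *
    ‖deriv phi1 z‖ ^ 12) := by
  have e1 : Four.av (fun z => ‖pe ch 4 (phi1 z)‖ ^ 2 * ‖deriv phi1 z‖ ^ 12) =
      Four.av (fun z => ‖HV L6 (fun z => HV Q6 (fun _ => 0) z / (9 + 7 * z) ^ 15) z‖ ^ 2) := by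
    refine Four.av_congr ?_
    intro z hz
    rw [← exp_six (Four.sphere_half hz), norm_mul, norm_pow, mul_pow, ← pow_mul]
  rw [e1, av_HV (quot_diff Q6 15)]
  refine le_trans ?_ (SV_mono L6 (Four.av_nonneg (fun z => by positivity)))
  simp only [SV, L6]
  norm_num

lemma J1_upper : Four.av (fun z => ‖pe ch 4 (phi1 z)‖ ^ 2 * ‖deriv phi1 z‖ ^ 2) ≤
    0.859 * (2857 / 16) := by
  have e1 : Four.av (fun z => ‖pe ch 4 (phi1 z)‖ ^ 2 * ‖deriv phi1 z‖ ^ 2) =
      Four.av (fun z => ‖HV L1 (fun z => HV Q1 (fun _ => 0) z / (9 + 7 * z) ^ 5) z‖ ^ 2) := by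
    refine Four.av_congr ?_
    intro z hz
    rw [← exp_one (Four.sphere_half hz), norm_mul, mul_pow]
  rw [e1, av_HV (quot_diff Q1 5)]
  have hB : Four.av (fun z => ‖HV Q1 (fun _ => 0) z / (9 + 7 * z) ^ 5‖ ^ 2) ≤
      (BL Q1 / (11 / 2) ^ 5) ^ 2 := by
    have h1 : Four.av (fun z => ‖HV Q1 (fun _ => 0) z / (9 + 7 * z) ^ 5‖ ^ 2) ≤
        Four.av (fun _ => (BL Q1 / (11 / 2) ^ 5) ^ 2) := by
      refine Four.av_mono (Four.CS_of_diff (quot_diff Q1 5)) continuousOn_const ?_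
      intro z hz
      have hz2 := Four.norm_half hz
      obtain ⟨h2, h3⟩ := BL_bound Q1 hz2.le
      rw [norm_div, norm_pow]
      have h4 : 11 / 2 ≤ ‖9 + 7 * z‖ := by
        have h5 : ‖(9 : ℂ)‖ - ‖7 * z‖ ≤ ‖(9 : ℂ) + 7 * z‖ := by
          have := norm_sub_norm_le (9 : ℂ) (-(7 * z))
          rwa [norm_neg, sub_neg_eq_add] at this
        rw [norm_mul, hz2] at h5
        norm_num at h5
        linarith
      gcongr
    refine h1.trans (le_of_eq ?_)
    simp [Four.av, circleAverage_const]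
  refine (SV_mono L1 hB).trans ?_
  simp only [SV, L1, BL, Q1]
  norm_num [abs_of_pos]

lemma n0_eq : Four.av (fun z => ‖pe ch 4 z‖ ^ 2) = 2857 / 16 := by
  unfold Four.av pe
  rw [circleAverage_poly]
  simp [ch, Finset.sum_range_succ]
  norm_num

lemma young {x : ℝ} (hx : 0 ≤ x) :
    1001 / 1000 * x ^ 12 - 1 / 1000 * x ^ 2 ≤ x ^ (12.01 : ℝ) := by
  have h := Real.geom_mean_le_arith_mean2_weighted (w₁ := 1000 / 1001) (w₂ := 1 / 1001)
    (p₁ := x ^ (12.01 : ℝ)) (p₂ := x ^ (2 : ℝ)) (by norm_num) (by norm_num) (by positivity)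
    (by positivity) (by norm_num)
  rw [← Real.rpow_mul hx, ← Real.rpow_mul hx, ← Real.rpow_add_of_nonneg hx (by norm_num)
    (by norm_num)] at h
  have e : (12.01 : ℝ) * (1000 / 1001) + 2 * (1 / 1001) = ((12 : ℕ) : ℝ) := by norm_num
  rw [e, Real.rpow_natCast, Real.rpow_two] at h
  linarith

/-- The inequality fails at exponent `12.01`. -/
theorem not_goodAt_1201 : ¬ GoodAt 12.01 (1 / 2) := by
  intro hgood
  have hφ := phi1_schwarz
  have hq : (0 : ℝ) < 12.01 := by norm_num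
  have hcq : ContinuousOn (fun z => ‖deriv phi1 z‖ ^ (12.01 : ℝ)) (sphere 0 (1 / 2)) :=
    (hφ.deriv_diff.continuousOn.mono Four.sphere_half).norm.rpow_const (fun _ _ => Or.inr hq.le)
  have h1 : circleAverage (fun z => ‖pe ch 4 (phi1 z)‖ ^ (2 : ℝ) *
      ‖deriv phi1 z‖ ^ (12.01 : ℝ)) 0 (1 / 2) ≤
      circleAverage (fun z => ‖pe ch 4 z‖ ^ (2 : ℝ)) 0 (1 / 2) :=
    ineq_general hφ (by norm_num) (by norm_num) hcq (fun z _ => by positivity) hq
      (poly_of_goodAt hgood hφ) two_pos (pe_differentiable ch 4).differentiableOn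
  simp only [Real.rpow_two] at h1
  have hn0 := n0_eq
  have hJ6 := J6_lower
  have hJ1 := J1_upper
  have cH : ContinuousOn (fun z => pe ch 4 (phi1 z)) (sphere (0 : ℂ) (1 / 2)) :=
    (pe_continuous _ _).comp_continuousOn (hφ.diff.continuousOn.mono Four.sphere_half)
  have cD : ContinuousOn (deriv phi1) (sphere (0 : ℂ) (1 / 2)) :=
    hφ.deriv_diff.continuousOn.mono Four.sphere_half
  have c6 : Four.CS (fun z => ‖pe ch 4 (phi1 z)‖ ^ 2 * ‖deriv phi1 z‖ ^ 12) :=
    (cH.norm.pow 2).mul (cD.norm.pow 12)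
  have c1 : Four.CS (fun z => ‖pe ch 4 (phi1 z)‖ ^ 2 * ‖deriv phi1 z‖ ^ 2) :=
    (cH.norm.pow 2).mul (cD.norm.pow 2)
  have cp : Four.CS (fun z => ‖pe ch 4 (phi1 z)‖ ^ 2 * ‖deriv phi1 z‖ ^ (12.01 : ℝ)) :=
    (cH.norm.pow 2).mul hcq
  have h2 : 1001 / 1000 * Four.av (fun z => ‖pe ch 4 (phi1 z)‖ ^ 2 * ‖deriv phi1 z‖ ^ 12) -
      1 / 1000 * Four.av (fun z => ‖pe ch 4 (phi1 z)‖ ^ 2 * ‖deriv phi1 z‖ ^ 2) ≤
      Four.av (fun z => ‖pe ch 4 (phi1 z)‖ ^ 2 * ‖deriv phi1 z‖ ^ (12.01 : ℝ)) := by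
    have c6' : Four.CS (fun z => 1001 / 1000 * (‖pe ch 4 (phi1 z)‖ ^ 2 *
      ‖deriv phi1 z‖ ^ 12)) := continuousOn_const.mul c6
    have c1' : Four.CS (fun z => 1 / 1000 * (‖pe ch 4 (phi1 z)‖ ^ 2 *
      ‖deriv phi1 z‖ ^ 2)) := continuousOn_const.mul c1
    rw [← Four.av_mul, ← Four.av_mul, ← Four.av_sub c6' c1']
    refine Four.av_mono (ContinuousOn.sub c6' c1') cp ?_
    intro z _
    have h3 := mul_le_mul_of_nonneg_left (young (norm_nonneg (deriv phi1 z)))
      (by positivity : 0 ≤ ‖pe ch 4 (phi1 z)‖ ^ 2)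
    linarith
  have h4 : Four.av (fun z => ‖pe ch 4 (phi1 z)‖ ^ 2 * ‖deriv phi1 z‖ ^ (12.01 : ℝ)) ≤
      Four.av (fun z => ‖pe ch 4 z‖ ^ 2) := h1
  rw [hn0] at h4
  norm_num at hJ6 hJ1 h2 h4
  linarith

/-- The threshold theorem with the bounds `4` and `12.01`. -/
theorem threshold_1201 : ∃ P : ℝ, 4 ≤ P ∧ P < 12.01 ∧
    ∀ p : ℝ, 0 < p → (subordinationRadius p = 1 / 2 ↔ p ≤ P) := by
  obtain ⟨P, hP4, _, hP⟩ := threshold_four
  refine ⟨P, hP4, ?_, hP⟩
  by_contra hcon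
  push Not at hcon
  have h0 : (0 : ℝ) < 12.01 := by norm_num
  have h1 := (radius_eq_half_iff h0).mp ((hP 12.01 h0).mpr hcon)
  exact not_goodAt_1201 (goodAt_of_lt h0 (by norm_num) (by norm_num)
    (fun r hr hr2 => goodAt_of_mem h0 h1 hr hr2))

end Pool.Agent.LibMP140d1b
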